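import Mathlib

/-!
# NumB2 (size 4, pure)

`θ = ε / 4`. `b = ⌊n ^ θ⌋₊` (`≥ 1` as `n ≥ 1`), so `b + 1 ≥ n ^ θ`. `N = ⌈A (R + 1)⌉₊` with a constant `A` depending on `d, c, ε`: `N * θ * log n ≥ log c + (2 R + c) log n + (d + 1) R + 1` for `log n ≥ 1`
(`n ≥ R ≥ 3`): `A θ ≥ 2 + c + d + 2 + |log c|` is enough. Then `(b + 1) ^ N ≥ exp (N θ log n) > c n ^ (τ + c) exp ((d+1) L)`; if `c = 0` trivial. `N ≤ A (R + 1) + 1 ≤ 3 A R`.
`16 N b ≤ 48 A R n ^ θ ≤ δ n`: `n ^ (1 - θ) ≥ R ^ ((1 + ε)(1 - ε/4)) ≥ R ^ (1 + ε/2) ≥ 48 A R / δ` for `R ≥ C` (as `ε ≤ 1`: `(1+ε)(1-ε/4) = 1 + 3ε/4 - ε²/4 ≥ 1 + ε/2`).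
`log (8 n N b) ≤ 2 log n`, and `2 d log n ≤ δ n / 64` for `n ≥ R ≥ C` (e.g. `log n ≤ 2 sqrt n`).
-/

namespace Pool.Agent.FPL

private lemma numB2_log_ge_one {x : ℝ} (hx : 3 ≤ x) : 1 ≤ Real.log x := by
  rw [Real.le_log_iff_exp_le (by linarith)]
  have := Real.exp_one_lt_d9
  linarith

private lemma numB2_log_le_sqrt {x : ℝ} (hx : 0 < x) : Real.log x ≤ 2 * Real.sqrt x := by
  have h1 : Real.log (Real.sqrt x) ≤ Real.sqrt x := by
    have := Real.log_le_sub_one_of_pos (Real.sqrt_pos.mpr hx)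
    linarith
  have h2 : Real.log (Real.sqrt x) = Real.log x / 2 := Real.log_sqrt hx.le
  linarith

/-- size of `N b` -/
private lemma numB2_prod {A ε δ R n : ℝ} (hA : 1 ≤ A) (hε : 0 < ε) (hε1 : ε ≤ 1) (hδ : 0 < δ)
    (hR : 1 ≤ R) (hRC : (48 * A / δ) ^ (2 / ε) ≤ R) (hn : R ^ (1 + ε) ≤ n) :
    48 * A * R * n ^ (ε / 4) ≤ δ * n := by
  have hR0 : 0 < R := by linarith
  have hRp : 1 ≤ R ^ (1 + ε) := Real.one_le_rpow hR (by linarith)
  have hn1 : 1 ≤ n := le_trans hRp hn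
  have hn0 : 0 < n := by linarith
  have hB : 0 < 48 * A / δ := by positivity
  -- R ^ (ε/2) ≥ 48 A / δ
  have h1 : 48 * A / δ ≤ R ^ (ε / 2) := by
    have h := Real.rpow_le_rpow (by positivity) hRC (by positivity : (0:ℝ) ≤ ε / 2)
    rw [← Real.rpow_mul hB.le] at h
    have he : 2 / ε * (ε / 2) = 1 := by field_simp
    rw [he, Real.rpow_one] at h
    exact h
  have h2 : R * R ^ (ε / 2) ≤ n ^ (1 - ε / 4) := by
    have ha : R * R ^ (ε / 2) = R ^ (1 + ε / 2) := by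
      rw [Real.rpow_add hR0, Real.rpow_one]
    have hb : R ^ (1 + ε / 2) ≤ R ^ ((1 + ε) * (1 - ε / 4)) := by
      apply Real.rpow_le_rpow_of_exponent_le hR
      nlinarith
    have hc : R ^ ((1 + ε) * (1 - ε / 4)) = (R ^ (1 + ε)) ^ (1 - ε / 4) := Real.rpow_mul hR0.le _ _
    have hd : (R ^ (1 + ε)) ^ (1 - ε / 4) ≤ n ^ (1 - ε / 4) :=
      Real.rpow_le_rpow (by positivity) hn (by linarith)
    rw [ha]
    calc R ^ (1 + ε / 2) ≤ R ^ ((1 + ε) * (1 - ε / 4)) := hb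
      _ = (R ^ (1 + ε)) ^ (1 - ε / 4) := hc
      _ ≤ n ^ (1 - ε / 4) := hd
  have h3 : n = n ^ (1 - ε / 4) * n ^ (ε / 4) := by
    rw [← Real.rpow_add hn0]
    have : 1 - ε / 4 + ε / 4 = 1 := by ring
    rw [this, Real.rpow_one]
  have hp : 0 < n ^ (ε / 4) := Real.rpow_pos_of_pos hn0 _
  have h4 : 48 * A * R ≤ δ * n ^ (1 - ε / 4) := by
    have : 48 * A ≤ δ * R ^ (ε / 2) := by
      rw [div_le_iff₀ hδ] at h1
      linarith
    calc 48 * A * R ≤ (δ * R ^ (ε / 2)) * R := by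
          exact mul_le_mul_of_nonneg_right this hR0.le
      _ = δ * (R * R ^ (ε / 2)) := by ring
      _ ≤ δ * n ^ (1 - ε / 4) := mul_le_mul_of_nonneg_left h2 hδ.le
  calc 48 * A * R * n ^ (ε / 4) ≤ (δ * n ^ (1 - ε / 4)) * n ^ (ε / 4) :=
        mul_le_mul_of_nonneg_right h4 hp.le
    _ = δ * (n ^ (1 - ε / 4) * n ^ (ε / 4)) := by ring
    _ = δ * n := by rw [← h3]

theorem numB2 (d : ℝ) (hd : 1 ≤ d) (c : ℕ) (ε δ : ℝ) (hε : 0 < ε) (hε1 : ε ≤ 1) (hδ : 0 < δ)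
    (hδ1 : δ ≤ 1) :
    ∃ C : ℝ, 1 ≤ C ∧ ∀ R : ℝ, C ≤ R → ∀ n : ℕ, R ^ (1 + ε) ≤ (n : ℝ) → ∃ N b : ℕ, 1 ≤ N ∧ 1 ≤ b ∧
      (N : ℝ) ≤ C * R ∧ 16 * (N : ℝ) * (b : ℝ) ≤ δ * (n : ℝ) ∧
      d * Real.log (8 * n * N * b) ≤ δ * n / 64 ∧
      ∀ τ : ℕ, (τ : ℝ) ≤ 2 * R → ∀ L : ℝ, L ≤ R →
        (c : ℝ) * (n : ℝ) ^ (τ + c) * Real.exp ((d + 1) * L) < ((b : ℝ) + 1) ^ N := by
  have hc0 : (0 : ℝ) ≤ (c : ℝ) := Nat.cast_nonneg c
  obtain ⟨A, hAdef⟩ : ∃ A : ℝ, A = (2 * (c : ℝ) + d + 4) / (ε / 4) := ⟨_, rfl⟩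
  have hAθ : A * (ε / 4) = 2 * (c : ℝ) + d + 4 := by
    rw [hAdef]; field_simp
  have hA1 : 1 ≤ A := by
    rw [hAdef, le_div_iff₀ (by positivity)]
    nlinarith
  have hT : 0 ≤ (48 * A / δ) ^ (2 / ε) := Real.rpow_nonneg (by positivity) _
  have hS : 0 ≤ (256 * d / δ) ^ 2 := sq_nonneg _
  refine ⟨3 + 3 * A + (48 * A / δ) ^ (2 / ε) + (256 * d / δ) ^ 2, by linarith, ?_⟩
  intro R hR n hn
  have hR3 : 3 ≤ R := by linarith
  have hR1 : 1 ≤ R := by linarith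
  have hR0 : 0 < R := by linarith
  have hRA : 3 * A ≤ R := by linarith
  have hRT : (48 * A / δ) ^ (2 / ε) ≤ R := by linarith
  have hRS : (256 * d / δ) ^ 2 ≤ R := by linarith
  have hRn : R ≤ (n : ℝ) := by
    have h1 : R ^ (1 : ℝ) ≤ R ^ (1 + ε) := Real.rpow_le_rpow_of_exponent_le hR1 (by linarith)
    rw [Real.rpow_one] at h1
    linarith
  have hn3 : 3 ≤ (n : ℝ) := by linarith
  have hn1 : 1 ≤ (n : ℝ) := by linarith
  have hn0 : 0 < (n : ℝ) := by linarith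
  have hlog : 1 ≤ Real.log n := numB2_log_ge_one hn3
  have hθ1 : 1 ≤ (n : ℝ) ^ (ε / 4) := Real.one_le_rpow hn1 (by positivity)
  have hθ0 : 0 < (n : ℝ) ^ (ε / 4) := by linarith
  -- the numbers
  have hb_le : ((⌊(n : ℝ) ^ (ε / 4)⌋₊ : ℕ) : ℝ) ≤ (n : ℝ) ^ (ε / 4) := Nat.floor_le hθ0.le
  have hb_lt : (n : ℝ) ^ (ε / 4) < ((⌊(n : ℝ) ^ (ε / 4)⌋₊ : ℕ) : ℝ) + 1 := Nat.lt_floor_add_one _
  have hb1 : 1 ≤ ⌊(n : ℝ) ^ (ε / 4)⌋₊ := by
    rw [Nat.one_le_floor_iff]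
    exact hθ1
  have hAR0 : 0 < A * (R + 1) := by positivity
  have hN_ge : A * (R + 1) ≤ ((⌈A * (R + 1)⌉₊ : ℕ) : ℝ) := Nat.le_ceil _
  have hN_lt : ((⌈A * (R + 1)⌉₊ : ℕ) : ℝ) < A * (R + 1) + 1 := Nat.ceil_lt_add_one hAR0.le
  have hN1 : 1 ≤ ⌈A * (R + 1)⌉₊ := Nat.one_le_iff_ne_zero.mpr (by
    rw [Ne, Nat.ceil_eq_zero]; linarith)
  generalize hbdef : ⌊(n : ℝ) ^ (ε / 4)⌋₊ = b at hb_le hb_lt hb1
  generalize hNdef : ⌈A * (R + 1)⌉₊ = N at hN_ge hN_lt hN1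
  have hb1' : (1 : ℝ) ≤ (b : ℝ) := by exact_mod_cast hb1
  have hN1' : (1 : ℝ) ≤ (N : ℝ) := by exact_mod_cast hN1
  have hN3 : (N : ℝ) ≤ 3 * A * R := by
    have h1 : A ≤ A * R := by nlinarith
    have h2 : 1 ≤ A * R := by nlinarith
    nlinarith
  have hprod : 16 * (N : ℝ) * (b : ℝ) ≤ δ * (n : ℝ) := by
    have h1 := numB2_prod hA1 hε hε1 hδ hR1 hRT hn
    have h2 : 16 * (N : ℝ) * (b : ℝ) ≤ 16 * (3 * A * R) * (n : ℝ) ^ (ε / 4) := by
      apply mul_le_mul _ hb_le (by positivity) (by positivity)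
      linarith
    have h3 : 16 * (3 * A * R) * (n : ℝ) ^ (ε / 4) = 48 * A * R * (n : ℝ) ^ (ε / 4) := by ring
    linarith
  refine ⟨N, b, hN1, hb1, ?_, hprod, ?_, ?_⟩
  · calc (N : ℝ) ≤ 3 * A * R := hN3
      _ ≤ (3 + 3 * A + (48 * A / δ) ^ (2 / ε) + (256 * d / δ) ^ 2) * R := by
          apply mul_le_mul_of_nonneg_right _ hR0.le
          linarith
  · have hle : 8 * (n : ℝ) * N * b ≤ (n : ℝ) ^ 2 := by
      have h1 : δ * (n : ℝ) ≤ (n : ℝ) := by nlinarith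
      have h2 : 16 * (N : ℝ) * (b : ℝ) ≤ (n : ℝ) := le_trans hprod h1
      nlinarith
    have hpos : 0 < 8 * (n : ℝ) * N * b := by positivity
    have hlog2 : Real.log (8 * (n : ℝ) * N * b) ≤ 2 * Real.log n := by
      have h := Real.log_le_log hpos hle
      rw [Real.log_pow] at h
      push_cast at h
      exact h
    have hsq : Real.log n ≤ 2 * Real.sqrt n := numB2_log_le_sqrt hn0
    have hsqrt : 256 * d / δ ≤ Real.sqrt n := by
      apply Real.le_sqrt_of_sq_le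
      linarith
    have hsqrt' : 256 * d ≤ δ * Real.sqrt n := by
      rw [div_le_iff₀ hδ] at hsqrt
      linarith
    have hs0 : 0 ≤ Real.sqrt n := Real.sqrt_nonneg _
    have hmul : Real.sqrt n * Real.sqrt n = n := Real.mul_self_sqrt hn0.le
    have hd0 : 0 ≤ d := by linarith
    calc d * Real.log (8 * (n : ℝ) * N * b) ≤ d * (2 * (2 * Real.sqrt n)) := by
          apply mul_le_mul_of_nonneg_left _ hd0
          linarith
      _ = (256 * d) * Real.sqrt n / 64 := by ring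
      _ ≤ (δ * Real.sqrt n) * Real.sqrt n / 64 := by
          have := mul_le_mul_of_nonneg_right hsqrt' hs0
          linarith
      _ = δ * n / 64 := by rw [mul_assoc, hmul]
  · intro τ hτ L hL
    rcases Nat.eq_zero_or_pos c with hc | hc
    · subst hc
      simp only [Nat.cast_zero, zero_mul]
      positivity
    · have hc1 : (1 : ℝ) ≤ (c : ℝ) := by exact_mod_cast hc
      have hcpos : (0 : ℝ) < (c : ℝ) := by linarith
      -- right side
      have hright : Real.exp ((N : ℝ) * (ε / 4 * Real.log n)) ≤ ((b : ℝ) + 1) ^ N := by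
        have h1 : Real.exp ((N : ℝ) * (ε / 4 * Real.log n)) = ((n : ℝ) ^ (ε / 4)) ^ N := by
          rw [Real.rpow_def_of_pos hn0, ← Real.exp_nat_mul]
          congr 1
          ring
        rw [h1]
        exact pow_le_pow_left₀ hθ0.le hb_lt.le N
      have hleft : (c : ℝ) * (n : ℝ) ^ (τ + c) * Real.exp ((d + 1) * L)
          = Real.exp (Real.log c + ((τ : ℝ) + c) * Real.log n + (d + 1) * L) := by
        rw [Real.exp_add, Real.exp_add, Real.exp_log hcpos]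
        congr 2
        have : ((τ : ℝ) + c) * Real.log n = ((τ + c : ℕ) : ℝ) * Real.log n := by push_cast; ring
        rw [this, Real.exp_nat_mul, Real.exp_log hn0]
      rw [hleft]
      refine lt_of_lt_of_le ?_ hright
      apply Real.exp_lt_exp.mpr
      have hlc : Real.log c ≤ (c : ℝ) := by
        have := Real.log_le_sub_one_of_pos hcpos
        linarith
      have hl0 : 0 < Real.log n := by linarith
      have e1 : Real.log c ≤ (c : ℝ) * ((R + 1) * Real.log n) := by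
        have : 1 ≤ (R + 1) * Real.log n := by nlinarith
        calc Real.log c ≤ (c : ℝ) * 1 := by linarith
          _ ≤ (c : ℝ) * ((R + 1) * Real.log n) := mul_le_mul_of_nonneg_left this hc0
      have e2 : ((τ : ℝ) + c) * Real.log n ≤ (2 + (c : ℝ)) * ((R + 1) * Real.log n) := by
        have : (τ : ℝ) + c ≤ (2 + (c : ℝ)) * (R + 1) := by nlinarith
        calc ((τ : ℝ) + c) * Real.log n ≤ ((2 + (c : ℝ)) * (R + 1)) * Real.log n :=
              mul_le_mul_of_nonneg_right this hl0.le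
          _ = (2 + (c : ℝ)) * ((R + 1) * Real.log n) := by ring
      have e3 : (d + 1) * L ≤ (d + 1) * ((R + 1) * Real.log n) := by
        apply mul_le_mul_of_nonneg_left _ (by linarith)
        nlinarith
      have e4 : (2 * (c : ℝ) + d + 4) * ((R + 1) * Real.log n) ≤ (N : ℝ) * (ε / 4 * Real.log n) := by
        have : A * (R + 1) * (ε / 4 * Real.log n) ≤ (N : ℝ) * (ε / 4 * Real.log n) :=
          mul_le_mul_of_nonneg_right hN_ge (by positivity)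
        calc (2 * (c : ℝ) + d + 4) * ((R + 1) * Real.log n)
            = A * (ε / 4) * ((R + 1) * Real.log n) := by rw [hAθ]
          _ = A * (R + 1) * (ε / 4 * Real.log n) := by ring
          _ ≤ (N : ℝ) * (ε / 4 * Real.log n) := this
      have hpos : 0 < (R + 1) * Real.log n := by positivity
      nlinarith

end Pool.Agent.FPL
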