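import Pool.Agent.FPL.Defs

/-!
# RankinZ (size 4)

Let `F` be the union of the sets of `𝒯`. `z ^ T.card * exp (-((1 + ε) LN T)) = ∏ v ∈ T, z N_v ^ (-(1 + ε))` (`exp_neg_mul_ln`, as in `AbcF.card_sets`), so the sum is at most
`∏ v ∈ F, (1 + z N_v ^ (-(1 + ε)))` (`Finset.prod_one_add`, all terms nonnegative) `= exp ∑ log (1 + z N_v ^ (-(1+ε)))`. Put `Y = z ^ (1 / (1 + ε / 2)) ≥ 1`.
The `v` with `N_v ≤ Y`: at most `(plc K Y).card ≤ C0 Y` (`plc_card_le`, `mem_plc`), each term is `≤ log (1 + z) ≤ log 2 + log z ≤ 1 + log z`.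
The `v` with `N_v > Y`: `log (1 + u) ≤ u`, `z N_v ^ (-(1+ε)) ≤ z Y ^ (-ε/2) N_v ^ (-(1 + ε/2))`, and `z Y ^ (-ε/2) = Y` (`Y ^ (1 + ε/2) = z`); `∑_v N_v ^ (-(1+ε/2)) ≤ Z` (`exists_bound`).
Total: `C0 Y (1 + log z) + Z Y`.
-/

namespace Pool.Agent.FPL

open NumberField IsDedekindDomain Pool.Agent.H7.Abc Pool.Agent.AbcE Pool.Agent.AbcF Pool.Agent.TMS
  Pool.Agent.TM2

private theorem rankinZ_split {K : Type*} [Field K] [NumberField K] (ε : ℝ) (hε : 0 < ε)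
    {C0 Z : ℝ} (hC0 : ∀ y : ℝ, 0 ≤ y → ((plc K y).card : ℝ) ≤ C0 * y)
    (hZ : ∀ F : Finset (HeightOneSpectrum (𝓞 K)),
      ∑ v ∈ F, (Ideal.absNorm v.asIdeal : ℝ) ^ (-(1 + ε / 2)) ≤ Z)
    (z : ℝ) (hz : 1 ≤ z) (F : Finset (HeightOneSpectrum (𝓞 K))) :
    ∑ v ∈ F, Real.log (1 + z * (Ideal.absNorm v.asIdeal : ℝ) ^ (-(1 + ε))) ≤
      C0 * z ^ (1 / (1 + ε / 2)) * (1 + Real.log z) + z ^ (1 / (1 + ε / 2)) * Z := by
  classical
  have hz0 : 0 < z := by linarith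
  set Y : ℝ := z ^ (1 / (1 + ε / 2)) with hY
  have hY1 : 1 ≤ Y := Real.one_le_rpow hz (by positivity)
  have hY0 : 0 < Y := by linarith
  have hlz : 0 ≤ Real.log z := Real.log_nonneg hz
  have hYz : Y ^ (1 + ε / 2) = z := by
    rw [hY, ← Real.rpow_mul hz0.le, one_div, inv_mul_cancel₀ (by positivity), Real.rpow_one]
  have hNpos : ∀ v : HeightOneSpectrum (𝓞 K), (1 : ℝ) < Ideal.absNorm v.asIdeal :=
    fun v => one_lt_norm v
  rw [← Finset.sum_filter_add_sum_filter_not F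
    (fun v => (Ideal.absNorm v.asIdeal : ℝ) ≤ Y)]
  refine add_le_add ?_ ?_
  · have h1 : ∀ v ∈ F.filter (fun v => (Ideal.absNorm v.asIdeal : ℝ) ≤ Y),
        Real.log (1 + z * (Ideal.absNorm v.asIdeal : ℝ) ^ (-(1 + ε))) ≤ 1 + Real.log z := by
      intro v _
      have h2 : (Ideal.absNorm v.asIdeal : ℝ) ^ (-(1 + ε)) ≤ 1 :=
        Real.rpow_le_one_of_one_le_of_nonpos (hNpos v).le (by linarith)
      have h3 : 1 + z * (Ideal.absNorm v.asIdeal : ℝ) ^ (-(1 + ε)) ≤ 2 * z := by nlinarith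
      have h4 : 0 < 1 + z * (Ideal.absNorm v.asIdeal : ℝ) ^ (-(1 + ε)) := by positivity
      calc Real.log (1 + z * (Ideal.absNorm v.asIdeal : ℝ) ^ (-(1 + ε)))
          ≤ Real.log (2 * z) := Real.log_le_log h4 h3
        _ = Real.log 2 + Real.log z := Real.log_mul (by norm_num) hz0.ne'
        _ ≤ 1 + Real.log z := by
          have := Real.log_two_lt_d9
          linarith
    refine (Finset.sum_le_card_nsmul _ _ _ h1).trans ?_
    rw [nsmul_eq_mul]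
    refine mul_le_mul_of_nonneg_right ?_ (by linarith)
    refine le_trans ?_ (hC0 Y hY0.le)
    norm_cast
    refine Finset.card_le_card fun v hv => ?_
    exact mem_plc.2 (Finset.mem_filter.1 hv).2
  · have h1 : ∀ v ∈ F.filter (fun v => ¬ (Ideal.absNorm v.asIdeal : ℝ) ≤ Y),
        Real.log (1 + z * (Ideal.absNorm v.asIdeal : ℝ) ^ (-(1 + ε))) ≤
          Y * (Ideal.absNorm v.asIdeal : ℝ) ^ (-(1 + ε / 2)) := by
      intro v hv
      have hvY : Y < (Ideal.absNorm v.asIdeal : ℝ) := not_le.1 (Finset.mem_filter.1 hv).2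
      have hN : (0 : ℝ) < Ideal.absNorm v.asIdeal := by linarith [hNpos v]
      have h4 : 0 < 1 + z * (Ideal.absNorm v.asIdeal : ℝ) ^ (-(1 + ε)) := by positivity
      have h5 := Real.log_le_sub_one_of_pos h4
      have h6 : (Ideal.absNorm v.asIdeal : ℝ) ^ (-(1 + ε)) =
          (Ideal.absNorm v.asIdeal : ℝ) ^ (-(ε / 2)) *
            (Ideal.absNorm v.asIdeal : ℝ) ^ (-(1 + ε / 2)) := by
        rw [← Real.rpow_add hN]
        congr 1
        ring
      have h7 : (Ideal.absNorm v.asIdeal : ℝ) ^ (-(ε / 2)) ≤ Y ^ (-(ε / 2)) :=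
        Real.rpow_le_rpow_of_nonpos hY0 hvY.le (by linarith)
      have h8 : z * Y ^ (-(ε / 2)) = Y := by
        nth_rewrite 1 [← hYz]
        rw [← Real.rpow_add hY0]
        have : 1 + ε / 2 + -(ε / 2) = 1 := by ring
        rw [this, Real.rpow_one]
      calc Real.log (1 + z * (Ideal.absNorm v.asIdeal : ℝ) ^ (-(1 + ε)))
          ≤ z * (Ideal.absNorm v.asIdeal : ℝ) ^ (-(1 + ε)) := by linarith
        _ = (z * (Ideal.absNorm v.asIdeal : ℝ) ^ (-(ε / 2))) *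
            (Ideal.absNorm v.asIdeal : ℝ) ^ (-(1 + ε / 2)) := by rw [h6]; ring
        _ ≤ (z * Y ^ (-(ε / 2))) * (Ideal.absNorm v.asIdeal : ℝ) ^ (-(1 + ε / 2)) := by
            refine mul_le_mul_of_nonneg_right ?_ (by positivity)
            exact mul_le_mul_of_nonneg_left h7 hz0.le
        _ = Y * (Ideal.absNorm v.asIdeal : ℝ) ^ (-(1 + ε / 2)) := by rw [h8]
    refine (Finset.sum_le_sum h1).trans ?_
    rw [← Finset.mul_sum]
    exact mul_le_mul_of_nonneg_left (hZ _) hY0.le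

theorem rankinZ (K : Type*) [Field K] [NumberField K] (ε : ℝ) (hε : 0 < ε) :
    ∃ C : ℝ, 1 ≤ C ∧ ∀ z : ℝ, 1 ≤ z → ∀ 𝒯 : Finset (Finset (HeightOneSpectrum (𝓞 K))),
      ∑ T ∈ 𝒯, z ^ T.card * Real.exp (-((1 + ε) * LN T)) ≤
        Real.exp (C * z ^ (1 / (1 + ε / 2)) * (1 + Real.log z)) := by
  classical
  obtain ⟨C0, hC0, hC0'⟩ := plc_card_le K
  obtain ⟨Z, hZ⟩ := exists_bound K (σ := 1 + ε / 2) (by linarith)
  refine ⟨C0 + |Z| + 1, by linarith [abs_nonneg Z], fun z hz 𝒯 => ?_⟩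
  have hz0 : 0 < z := by linarith
  have hlz : 0 ≤ Real.log z := Real.log_nonneg hz
  have hY1 : 1 ≤ z ^ (1 / (1 + ε / 2)) := Real.one_le_rpow hz (by positivity)
  set F : Finset (HeightOneSpectrum (𝓞 K)) := 𝒯.biUnion id with hF
  have hsub : 𝒯 ⊆ F.powerset := by
    intro X hX
    rw [Finset.mem_powerset]
    exact Finset.subset_biUnion_of_mem id hX
  have hNpos : ∀ v : HeightOneSpectrum (𝓞 K), (0 : ℝ) < Ideal.absNorm v.asIdeal :=
    fun v => by linarith [one_lt_norm v]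
  have h1 : ∀ T : Finset (HeightOneSpectrum (𝓞 K)),
      z ^ T.card * Real.exp (-((1 + ε) * LN T)) =
        ∏ v ∈ T, (z * (Ideal.absNorm v.asIdeal : ℝ) ^ (-(1 + ε))) := by
    intro T
    rw [Finset.prod_mul_distrib, Finset.prod_const]
    congr 1
    rw [Finset.prod_congr rfl fun v _ => (exp_neg_mul_ln (1 + ε) v).symm, ← Real.exp_sum]
    congr 1
    unfold LN
    rw [Finset.sum_neg_distrib, Finset.mul_sum]
  calc ∑ T ∈ 𝒯, z ^ T.card * Real.exp (-((1 + ε) * LN T))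
      = ∑ T ∈ 𝒯, ∏ v ∈ T, (z * (Ideal.absNorm v.asIdeal : ℝ) ^ (-(1 + ε))) :=
        Finset.sum_congr rfl fun T _ => h1 T
    _ ≤ ∑ T ∈ F.powerset, ∏ v ∈ T, (z * (Ideal.absNorm v.asIdeal : ℝ) ^ (-(1 + ε))) := by
        refine Finset.sum_le_sum_of_subset_of_nonneg hsub fun X _ _ => ?_
        exact Finset.prod_nonneg fun v _ => by positivity
    _ = ∏ v ∈ F, (1 + z * (Ideal.absNorm v.asIdeal : ℝ) ^ (-(1 + ε))) := by
        rw [Finset.prod_one_add]
    _ = Real.exp (∑ v ∈ F, Real.log (1 + z * (Ideal.absNorm v.asIdeal : ℝ) ^ (-(1 + ε)))) := by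
        rw [Real.exp_sum]
        refine Finset.prod_congr rfl fun v _ => ?_
        rw [Real.exp_log]
        have := hNpos v
        positivity
    _ ≤ Real.exp ((C0 + |Z| + 1) * z ^ (1 / (1 + ε / 2)) * (1 + Real.log z)) := by
        refine Real.exp_le_exp.2 ?_
        refine (rankinZ_split ε hε hC0' hZ z hz F).trans ?_
        set Y : ℝ := z ^ (1 / (1 + ε / 2)) with hY
        have hY0 : 0 ≤ Y := by linarith
        have h2 : Y * Z ≤ Y * |Z| := mul_le_mul_of_nonneg_left (le_abs_self Z) hY0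
        have h3 : Y * |Z| ≤ Y * |Z| * (1 + Real.log z) := by
          nlinarith [mul_nonneg (mul_nonneg hY0 (abs_nonneg Z)) hlz]
        have h4 : 0 ≤ Y * (1 + Real.log z) := mul_nonneg hY0 (by linarith)
        nlinarith

end Pool.Agent.FPL
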