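import Pool.Agent.FPL.CellB3
import Pool.Agent.FPL.NumB2
import Pool.Agent.FPL.RankinZ

/-!
# BigB3 (size 5)

`c, C1, Bc` from `cellB3 K δ`, `C2` from `numB2 (dg K) c (ε/32) δ`. Let `x ∈ S`, `C'`, `v` as in the hypothesis (choose), `T = ((fs x).filter (prt ≠ 1)).erase v`, `n = mlt x v ≥ R ^ (1 + ε/32) ≥ R ≥ C`.
`(fs x).filter (prt ≠ 1) = insert v T`, `v ∉ T`. `LN T, LN C' ≤ LN (fs x) = rad x ≤ R` (`rad_fs`), `T.card ≤ 2 R` (`ln u ≥ log 2 ≥ 1/2`). `n / 2 ≤ n ln v = ms x v ≤ hgt x` (`mass_zero` for `{v}`).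
Window: `j = ⌊log (hgt x / C1) / log (1 + δ/2)⌋₊`, `H = C1 (1 + δ/2) ^ j`: `H ≤ hgt x ≤ (1 + δ/2) H` (`hgt x ≥ n / 2 ≥ C1`), `j ≤ R / log (1 + δ/2)` as `hgt x ≤ exp R`. `n ≤ 4 H`. With `N, b` from
`numB2` for this `n`: `d log (8 n N b) ≤ δ n / 64 ≤ δ H / 16`, `2 N b H / n ≤ δ H / 8`: `cellB3` bounds the number of `x` with given `(T, C', n, j)` by `C1 Bc ^ (T.card + C'.card) N ≤ C1 C2 R Bc ^ ..`.
Here `1 ≤ n ≤ exp (ρ - LN T - LN C')`: at most `exp (ρ - LN T - LN C')` values of `n`; at most `C3 R` values of `j`; the sum over the pairs `(T, C')` (in the product of the finite images of `S`) is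
`exp ρ (∑_T Bc ^ T.card exp (-LN T)) (∑_C' Bc ^ C'.card exp (-LN C'))`, and `∑_T Bc ^ T.card exp (-LN T) ≤ exp (ε/4 R) ∑_T Bc ^ T.card exp (-(1 + ε/4) LN T) ≤ C4 exp (ε/4 R)`
(`rankinZ K (ε/4)`, `z = Bc`, `LN T ≤ R`), the same for `C'`; the factor `C R ^ 2 ≤ C5 exp (ε/2 R)`.
-/

namespace Pool.Agent.FPL

open NumberField IsDedekindDomain Pool.Agent.H7.Abc Pool.Agent.AbcE Pool.Agent.AbcF Pool.Agent.TMS
  Pool.Agent.TM2

private theorem bb3_log_two_le {K : Type*} [Field K] [NumberField K]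
    (v : HeightOneSpectrum (𝓞 K)) : Real.log 2 ≤ ln v := by
  have h1 := one_lt_norm v
  have h2 : (2 : ℝ) ≤ Ideal.absNorm v.asIdeal := by
    have : 1 < Ideal.absNorm v.asIdeal := by exact_mod_cast h1
    exact_mod_cast this
  exact Real.log_le_log (by norm_num) h2

private theorem bb3_half_le {K : Type*} [Field K] [NumberField K]
    (v : HeightOneSpectrum (𝓞 K)) : (1 / 2 : ℝ) ≤ ln v := by
  have h1 := bb3_log_two_le v
  have h2 := Real.log_two_gt_d9
  linarith

private theorem bb3_LN_mono {K : Type*} [Field K] [NumberField K]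
    {A B : Finset (HeightOneSpectrum (𝓞 K))} (h : A ⊆ B) : LN A ≤ LN B :=
  Finset.sum_le_sum_of_subset_of_nonneg h fun v _ _ => (ln_pos v).le

private theorem bb3_card_le {K : Type*} [Field K] [NumberField K]
    (A : Finset (HeightOneSpectrum (𝓞 K))) : (A.card : ℝ) ≤ 2 * LN A := by
  have h : ∑ _v ∈ A, (1 / 2 : ℝ) ≤ LN A := Finset.sum_le_sum fun v _ => bb3_half_le v
  rw [Finset.sum_const, nsmul_eq_mul] at h
  linarith

/-- one sum -/
private theorem bb3_sum {K : Type*} [Field K] [NumberField K] {ε Bc C3 R : ℝ} (hε : 0 < ε)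
    (hBc : 1 ≤ Bc)
    (hran : ∀ z : ℝ, 1 ≤ z → ∀ 𝒯 : Finset (Finset (HeightOneSpectrum (𝓞 K))),
      ∑ T ∈ 𝒯, z ^ T.card * Real.exp (-((1 + ε / 4) * LN T)) ≤
        Real.exp (C3 * z ^ (1 / (1 + ε / 4 / 2)) * (1 + Real.log z)))
    (𝒯 : Finset (Finset (HeightOneSpectrum (𝓞 K)))) (h𝒯 : ∀ T ∈ 𝒯, LN T ≤ R) :
    ∑ T ∈ 𝒯, Bc ^ T.card * Real.exp (-LN T) ≤
      Real.exp (ε / 4 * R) * Real.exp (C3 * Bc ^ (1 / (1 + ε / 4 / 2)) * (1 + Real.log Bc)) := by
  refine le_trans ?_ (mul_le_mul_of_nonneg_left (hran Bc hBc 𝒯) (Real.exp_pos _).le)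
  rw [Finset.mul_sum]
  refine Finset.sum_le_sum fun T hT => ?_
  have h1 : Real.exp (-LN T) ≤ Real.exp (ε / 4 * R) * Real.exp (-((1 + ε / 4) * LN T)) := by
    rw [← Real.exp_add]
    apply Real.exp_le_exp.2
    have := mul_le_mul_of_nonneg_left (h𝒯 T hT) (by positivity : 0 ≤ ε / 4)
    linarith
  have h2 : 0 ≤ Bc ^ T.card := by positivity
  calc Bc ^ T.card * Real.exp (-LN T)
      ≤ Bc ^ T.card * (Real.exp (ε / 4 * R) * Real.exp (-((1 + ε / 4) * LN T))) :=
        mul_le_mul_of_nonneg_left h1 h2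
    _ = Real.exp (ε / 4 * R) * (Bc ^ T.card * Real.exp (-((1 + ε / 4) * LN T))) := by ring

open Classical in
theorem bigB3 (K : Type*) [Field K] [NumberField K] (ε δ : ℝ) (hε : 0 < ε) (hε1 : ε ≤ 1)
    (hδ : 0 < δ) (hδ1 : δ ≤ 1 / 2) :
    ∃ C : ℝ, 1 ≤ C ∧ ∀ R : ℝ, C ≤ R → ∀ (ρ : ℝ) (S : Finset K),
      (∀ x ∈ S, x ≠ 0 ∧ x ≠ 1 ∧ rad x ≤ R ∧ hgt x ≤ Real.exp R ∧
        ∃ C' ⊆ (fs x).filter (fun u => prt x u = 1), ∃ v ∈ fs x, prt x v = 0 ∧ ∃ n : ℕ, n ∣ mlt x v ∧
          R ^ (1 + ε / 32) ≤ (n : ℝ) ∧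
          ∑ u ∈ (fs x).filter (fun u => prt x u = 1) \ C', ms x u ≤ (1 - δ) * hgt x ∧
          LN (((fs x).filter (fun u => prt x u ≠ 1)).erase v) + LN C' + Real.log n ≤ ρ) →
      (S.card : ℝ) ≤ C * Real.exp (ρ + ε * R) := by
  obtain ⟨c, C1, Bc, hC1, hBc, hcell⟩ := cellB3 K δ hδ hδ1
  obtain ⟨C2, hC2, hnum⟩ := numB2 (dg K) (one_le_dg K) c (ε / 32) δ (by positivity) (by linarith)
    hδ (by linarith)
  obtain ⟨C3, hC3, hran⟩ := rankinZ K (ε / 4) (by positivity)
  set Z : ℝ := Real.exp (C3 * Bc ^ (1 / (1 + ε / 4 / 2)) * (1 + Real.log Bc)) with hZ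
  have hZ0 : 0 < Z := Real.exp_pos _
  set q : ℝ := 1 + δ / 2 with hq
  have hq1 : 1 < q := by rw [hq]; linarith
  have hlq : 0 < Real.log q := Real.log_pos hq1
  set Cf : ℝ := (1 / Real.log q + 1) * (C1 * C2) * (Z * Z) * (16 / ε ^ 2) with hCf
  have hCf0 : 0 ≤ Cf := by positivity
  refine ⟨1 + C2 + 2 * C1 + Cf, by linarith, ?_⟩
  intro R hR ρ S hS
  have hR1 : 1 ≤ R := by linarith
  have hRC2 : C2 ≤ R := by linarith
  have hRC1 : 2 * C1 ≤ R := by linarith
  have hCfR : Cf ≤ 1 + C2 + 2 * C1 + Cf := by linarith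
  have hS' : ∀ x ∈ S, ∃ (T C' : Finset (HeightOneSpectrum (𝓞 K))) (n : ℕ), x ≠ 0 ∧ x ≠ 1 ∧
      rad x ≤ R ∧ hgt x ≤ Real.exp R ∧ C' ⊆ (fs x).filter (fun u => prt x u = 1) ∧ T ⊆ fs x ∧
      (∃ v, v ∉ T ∧ (fs x).filter (fun u => prt x u ≠ 1) = insert v T ∧ prt x v = 0 ∧
        n ∣ mlt x v) ∧
      R ^ (1 + ε / 32) ≤ (n : ℝ) ∧
      ∑ u ∈ (fs x).filter (fun u => prt x u = 1) \ C', ms x u ≤ (1 - δ) * hgt x ∧
      LN T + LN C' + Real.log n ≤ ρ := by
    intro x hx
    obtain ⟨h0, h1, hrad, hhgt, C', hC', v, hv, hprt, n, hdvd, hnR, hms, hcost⟩ := hS x hx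
    refine ⟨((fs x).filter (fun u => prt x u ≠ 1)).erase v, C', n, h0, h1, hrad, hhgt, hC', ?_, ?_,
      hnR, ?_, hcost⟩
    · exact (Finset.erase_subset _ _).trans (Finset.filter_subset _ _)
    · refine ⟨v, Finset.notMem_erase _ _, (Finset.insert_erase ?_).symm, hprt, hdvd⟩
      rw [Finset.mem_filter]
      refine ⟨hv, ?_⟩
      rw [hprt]
      decide
    · convert hms using 2
  choose! Ts Cs ns h0 h1 hrad hhgt hCs hTfs hvs hnR hms hcost using hS'
  let js : K → ℕ := fun x => ⌊Real.log (hgt x / C1) / Real.log q⌋₊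
  -- basic facts
  have hn1 : ∀ x ∈ S, R ≤ (ns x : ℝ) := by
    intro x hx
    refine le_trans ?_ (hnR x hx)
    calc R = R ^ (1 : ℝ) := (Real.rpow_one R).symm
      _ ≤ R ^ (1 + ε / 32) := Real.rpow_le_rpow_of_exponent_le hR1 (by linarith)
  have hnm : ∀ x ∈ S, (ns x : ℝ) ≤ 2 * hgt x := by
    intro x hx
    obtain ⟨v, _, _, hprt, hdvd⟩ := hvs x hx
    have hmlt : 0 < mlt x v := by
      have h2 := (mlt_zero (h0 x hx) (h1 x hx) hprt).1
      have h3 := prt_eq_zero.1 hprt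
      omega
    have h2 : (ns x : ℝ) ≤ mlt x v := by
      exact_mod_cast Nat.le_of_dvd hmlt hdvd
    have h3 := mass_zero (h0 x hx) (h1 x hx) {v} (by
      intro u hu
      rw [Finset.mem_singleton] at hu
      rw [hu]
      exact hprt)
    rw [Finset.sum_singleton] at h3
    unfold ms at h3
    have h4 := bb3_half_le v
    have h5 : (mlt x v : ℝ) * (1 / 2) ≤ (mlt x v : ℝ) * ln v :=
      mul_le_mul_of_nonneg_left h4 (Nat.cast_nonneg _)
    linarith
  have hhC1 : ∀ x ∈ S, C1 ≤ hgt x := by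
    intro x hx
    have h2 := hn1 x hx
    have h3 := hnm x hx
    linarith
  have hLNT : ∀ x ∈ S, LN (Ts x) ≤ R := by
    intro x hx
    refine le_trans (bb3_LN_mono (hTfs x hx)) ?_
    have := rad_fs (h0 x hx) (h1 x hx)
    unfold LN
    rw [← this]
    exact hrad x hx
  have hLNC : ∀ x ∈ S, LN (Cs x) ≤ R := by
    intro x hx
    refine le_trans (bb3_LN_mono ((hCs x hx).trans (Finset.filter_subset _ _))) ?_
    have := rad_fs (h0 x hx) (h1 x hx)
    unfold LN
    rw [← this]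
    exact hrad x hx
  have hjle : ∀ x ∈ S, js x ≤ ⌊R / Real.log q⌋₊ := by
    intro x hx
    refine Nat.floor_le_floor ?_
    refine div_le_div_of_nonneg_right ?_ hlq.le
    have h2 : hgt x / C1 ≤ Real.exp R :=
      le_trans (div_le_self (by linarith [hhC1 x hx]) hC1) (hhgt x hx)
    have h3 : 0 < hgt x / C1 := div_pos (by linarith [hhC1 x hx]) (by linarith)
    calc Real.log (hgt x / C1) ≤ Real.log (Real.exp R) := Real.log_le_log h3 h2
      _ = R := Real.log_exp R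
  have hwin : ∀ x ∈ S, C1 * q ^ (js x) ≤ hgt x ∧ hgt x ≤ q * (C1 * q ^ (js x)) := by
    intro x hx
    have hC10 : 0 < C1 := by linarith
    have h3 : 0 < hgt x / C1 := div_pos (by linarith [hhC1 x hx]) hC10
    have h4 : 1 ≤ hgt x / C1 := by
      rw [le_div_iff₀ hC10, one_mul]
      exact hhC1 x hx
    have h5 : 0 ≤ Real.log (hgt x / C1) / Real.log q := div_nonneg (Real.log_nonneg h4) hlq.le
    have h6 := Nat.floor_le h5
    have h7 := Nat.lt_floor_add_one (Real.log (hgt x / C1) / Real.log q)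
    rw [le_div_iff₀ hlq] at h6
    rw [div_lt_iff₀ hlq] at h7
    have h8 : q ^ (js x) ≤ hgt x / C1 := by
      rw [← Real.log_le_log_iff (by positivity) h3, Real.log_pow]
      exact h6
    have h9 : hgt x / C1 ≤ q ^ (js x + 1) := by
      rw [← Real.log_le_log_iff h3 (by positivity), Real.log_pow]
      push_cast
      exact h7.le
    rw [le_div_iff₀ hC10] at h8
    rw [div_le_iff₀ hC10, pow_succ] at h9
    constructor
    · linarith
    · calc hgt x ≤ q ^ js x * q * C1 := h9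
        _ = q * (C1 * q ^ (js x)) := by ring
  -- the fibres
  have hfib : ∀ (T C' : Finset (HeightOneSpectrum (𝓞 K))) (n j : ℕ),
      ((S.filter (fun x => (Ts x, Cs x) = (T, C') ∧ (ns x, js x) = (n, j))).card : ℝ) ≤
        C1 * Bc ^ (T.card + C'.card) * (C2 * R) := by
    intro T C' n j
    rcases (S.filter (fun x => (Ts x, Cs x) = (T, C') ∧ (ns x, js x) = (n, j))).eq_empty_or_nonempty
      with he | ⟨x0, hx0⟩
    · rw [he, Finset.card_empty, Nat.cast_zero]
      positivity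
    rw [Finset.mem_filter] at hx0
    obtain ⟨hx0S, hx01, hx02⟩ := hx0
    simp only [Prod.mk.injEq] at hx01 hx02
    obtain ⟨hT0, hC0⟩ := hx01
    obtain ⟨hn0, hj0⟩ := hx02
    obtain ⟨N, b, hN1, hb1, hNC, hNb, hlogb, hbig⟩ := hnum R hRC2 n (hn0 ▸ hnR x0 hx0S)
    have hw0 := hwin x0 hx0S
    rw [hj0] at hw0
    set H : ℝ := C1 * q ^ j with hH
    have hHC1 : C1 ≤ H := le_mul_of_one_le_right (by linarith) (one_le_pow₀ hq1.le)
    have hH0 : 0 < H := by linarith
    have hnRn : R ≤ (n : ℝ) := hn0 ▸ hn1 x0 hx0S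
    have hn0' : (0 : ℝ) < n := by linarith
    have hn1' : 1 ≤ n := by exact_mod_cast (by linarith : (1 : ℝ) ≤ n)
    have hnH : (n : ℝ) ≤ 4 * H := by
      have h2 := hnm x0 hx0S
      rw [hn0] at h2
      have h3 : q * H ≤ 2 * H := mul_le_mul_of_nonneg_right (by rw [hq]; linarith) hH0.le
      linarith [hw0.2]
    have hTc : (T.card : ℝ) ≤ 2 * R := by
      have h2 := bb3_card_le T
      have h3 := hLNT x0 hx0S
      rw [hT0] at h3
      linarith
    have hLC : LN C' ≤ R := hC0 ▸ hLNC x0 hx0S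
    have hb := hbig T.card hTc (LN C') hLC
    have hsmall : dg K * Real.log (8 * n * N * b) + 2 * N * b * H / n ≤ δ * H / 4 := by
      have h2 : δ * n / 64 ≤ δ * H / 16 := by
        have := mul_le_mul_of_nonneg_left hnH hδ.le
        linarith
      have h3 : 2 * (N : ℝ) * b * H / n ≤ δ * H / 8 := by
        rw [div_le_iff₀ hn0']
        have := mul_le_mul_of_nonneg_right hNb hH0.le
        linarith
      have h4 : 0 ≤ δ * H := by positivity
      linarith
    have hc := hcell T C' n N b H hHC1 hn1' hN1 hb1 hb hsmall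
      (S.filter (fun x => (Ts x, Cs x) = (T, C') ∧ (ns x, js x) = (n, j))) ?_
    · refine le_trans hc ?_
      refine mul_le_mul_of_nonneg_left hNC (by positivity)
    · intro x hx
      rw [Finset.mem_filter] at hx
      obtain ⟨hxS, hx1, hx2⟩ := hx
      simp only [Prod.mk.injEq] at hx1 hx2
      obtain ⟨hTx, hCx⟩ := hx1
      obtain ⟨hnx, hjx⟩ := hx2
      have hw := hwin x hxS
      rw [hjx] at hw
      refine ⟨h0 x hxS, h1 x hxS, hw.1, hw.2, hCx ▸ hCs x hxS, ?_, ?_⟩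
      · have h2 := hms x hxS
        rw [hCx] at h2
        convert h2 using 2
      · have h2 := hvs x hxS
        rw [hTx, hnx] at h2
        exact h2
  -- second stage
  set J : ℕ := ⌊R / Real.log q⌋₊ + 1 with hJ
  have hJle : (J : ℝ) ≤ (1 / Real.log q + 1) * R := by
    have h2 := Nat.floor_le (div_nonneg (by linarith : (0 : ℝ) ≤ R) hlq.le)
    rw [hJ]
    push_cast
    have h3 : R / Real.log q = 1 / Real.log q * R := by ring
    rw [h3] at h2 ⊢
    linarith
  have hst2 : ∀ (T C' : Finset (HeightOneSpectrum (𝓞 K))),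
      ((S.filter (fun x => (Ts x, Cs x) = (T, C'))).card : ℝ) ≤
        Real.exp (ρ - LN T - LN C') * J * (C1 * Bc ^ (T.card + C'.card) * (C2 * R)) := by
    intro T C'
    have hmaps : ∀ x ∈ S.filter (fun x => (Ts x, Cs x) = (T, C')),
        (ns x, js x) ∈ (Finset.Icc 1 ⌊Real.exp (ρ - LN T - LN C')⌋₊) ×ˢ Finset.range J := by
      intro x hx
      rw [Finset.mem_filter] at hx
      obtain ⟨hxS, hx1⟩ := hx
      simp only [Prod.mk.injEq] at hx1
      obtain ⟨hTx, hCx⟩ := hx1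
      have hnRx := hn1 x hxS
      rw [Finset.mem_product, Finset.mem_Icc, Finset.mem_range]
      refine ⟨⟨?_, ?_⟩, ?_⟩
      · exact_mod_cast (by linarith : (1 : ℝ) ≤ ns x)
      · refine Nat.le_floor ?_
        have h2 := hcost x hxS
        have h3 : LN (Ts x) + LN (Cs x) + Real.log (ns x) ≤ ρ := h2
        rw [hTx, hCx] at h3
        have h4 : (0 : ℝ) < ns x := by linarith
        rw [← Real.exp_log h4]
        apply Real.exp_le_exp.2
        linarith
      · exact Nat.lt_succ_of_le (hjle x hxS)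
    rw [Finset.card_eq_sum_card_fiberwise (f := fun x => (ns x, js x)) hmaps]
    push_cast
    have hle : ∀ p ∈ (Finset.Icc 1 ⌊Real.exp (ρ - LN T - LN C')⌋₊) ×ˢ Finset.range J,
        (((S.filter (fun x => (Ts x, Cs x) = (T, C'))).filter
          (fun x => (ns x, js x) = p)).card : ℝ) ≤ C1 * Bc ^ (T.card + C'.card) * (C2 * R) := by
      rintro ⟨n, j⟩ _
      rw [Finset.filter_filter]
      exact hfib T C' n j
    refine le_trans (Finset.sum_le_card_nsmul _ _ _ hle) ?_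
    rw [nsmul_eq_mul, Finset.card_product, Nat.card_Icc, Finset.card_range]
    refine mul_le_mul_of_nonneg_right ?_ (by positivity)
    rw [Nat.add_sub_cancel]
    push_cast
    refine mul_le_mul_of_nonneg_right ?_ (Nat.cast_nonneg _)
    have h2 := Nat.floor_le (Real.exp_pos (ρ - LN T - LN C')).le
    exact h2
  -- first stage
  have hmaps : ∀ x ∈ S, (Ts x, Cs x) ∈ (S.image Ts) ×ˢ (S.image Cs) := by
    intro x hx
    rw [Finset.mem_product]
    exact ⟨Finset.mem_image_of_mem _ hx, Finset.mem_image_of_mem _ hx⟩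
  have hsum : (S.card : ℝ) ≤ ∑ p ∈ (S.image Ts) ×ˢ (S.image Cs),
      Real.exp (ρ - LN p.1 - LN p.2) * J * (C1 * Bc ^ (p.1.card + p.2.card) * (C2 * R)) := by
    rw [Finset.card_eq_sum_card_fiberwise (f := fun x => (Ts x, Cs x)) hmaps]
    push_cast
    refine Finset.sum_le_sum ?_
    rintro ⟨T, C'⟩ _
    exact hst2 T C'
  have hfac : ∑ p ∈ (S.image Ts) ×ˢ (S.image Cs),
      Real.exp (ρ - LN p.1 - LN p.2) * J * (C1 * Bc ^ (p.1.card + p.2.card) * (C2 * R)) =
      (Real.exp ρ * J * (C1 * (C2 * R))) *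
        ((∑ T ∈ S.image Ts, Bc ^ T.card * Real.exp (-LN T)) *
          (∑ C' ∈ S.image Cs, Bc ^ C'.card * Real.exp (-LN C'))) := by
    rw [Finset.sum_mul_sum, ← Finset.sum_product', Finset.mul_sum]
    refine Finset.sum_congr rfl fun p _ => ?_
    have h2 : Real.exp (ρ - LN p.1 - LN p.2) =
        Real.exp ρ * Real.exp (-LN p.1) * Real.exp (-LN p.2) := by
      rw [← Real.exp_add, ← Real.exp_add]
      ring_nf
    rw [h2, pow_add]
    ring
  have hs1 := bb3_sum (K := K) hε hBc hran (S.image Ts) (R := R) (by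
    intro T hT
    obtain ⟨x, hx, rfl⟩ := Finset.mem_image.1 hT
    exact hLNT x hx)
  have hs2 := bb3_sum (K := K) hε hBc hran (S.image Cs) (R := R) (by
    intro T hT
    obtain ⟨x, hx, rfl⟩ := Finset.mem_image.1 hT
    exact hLNC x hx)
  rw [← hZ] at hs1 hs2
  have hs20 : 0 ≤ ∑ C' ∈ S.image Cs, Bc ^ C'.card * Real.exp (-LN C') :=
    Finset.sum_nonneg fun T _ => by positivity
  have hR2 : R * R ≤ 16 / ε ^ 2 * Real.exp (ε / 2 * R) := by
    have h2 : ε * R / 4 ≤ Real.exp (ε * R / 4) := by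
      linarith [Real.add_one_le_exp (ε * R / 4)]
    have h3 : (ε * R / 4) * (ε * R / 4) ≤ Real.exp (ε * R / 4) * Real.exp (ε * R / 4) :=
      mul_le_mul h2 h2 (by positivity) (Real.exp_pos _).le
    rw [← Real.exp_add] at h3
    have h4 : ε * R / 4 + ε * R / 4 = ε / 2 * R := by ring
    rw [h4] at h3
    have h5 : R * R = 16 / ε ^ 2 * ((ε * R / 4) * (ε * R / 4)) := by
      field_simp
      ring
    rw [h5]
    exact mul_le_mul_of_nonneg_left h3 (by positivity)
  have hexp0 := Real.exp_pos ρ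
  calc (S.card : ℝ) ≤ (Real.exp ρ * J * (C1 * (C2 * R))) *
        ((∑ T ∈ S.image Ts, Bc ^ T.card * Real.exp (-LN T)) *
          (∑ C' ∈ S.image Cs, Bc ^ C'.card * Real.exp (-LN C'))) := hfac ▸ hsum
    _ ≤ (Real.exp ρ * ((1 / Real.log q + 1) * R) * (C1 * (C2 * R))) *
        ((Real.exp (ε / 4 * R) * Z) * (Real.exp (ε / 4 * R) * Z)) := by
        refine mul_le_mul ?_ ?_ (by positivity) (by positivity)
        · refine mul_le_mul_of_nonneg_right ?_ (by positivity)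
          exact mul_le_mul_of_nonneg_left hJle hexp0.le
        · exact mul_le_mul hs1 hs2 hs20 (by positivity)
    _ = (1 / Real.log q + 1) * (C1 * C2) * (Z * Z) * (R * R) *
          (Real.exp ρ * (Real.exp (ε / 4 * R) * Real.exp (ε / 4 * R))) := by ring
    _ ≤ (1 / Real.log q + 1) * (C1 * C2) * (Z * Z) * (16 / ε ^ 2 * Real.exp (ε / 2 * R)) *
          (Real.exp ρ * (Real.exp (ε / 4 * R) * Real.exp (ε / 4 * R))) := by
        refine mul_le_mul_of_nonneg_right ?_ (by positivity)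
        exact mul_le_mul_of_nonneg_left hR2 (by positivity)
    _ = Cf * Real.exp (ρ + ε * R) := by
        have h2 : Real.exp (ρ + ε * R) = Real.exp (ε / 2 * R) *
            (Real.exp ρ * (Real.exp (ε / 4 * R) * Real.exp (ε / 4 * R))) := by
          rw [← Real.exp_add, ← Real.exp_add, ← Real.exp_add]
          ring_nf
        rw [h2, hCf]
        ring
    _ ≤ (1 + C2 + 2 * C1 + Cf) * Real.exp (ρ + ε * R) :=
        mul_le_mul_of_nonneg_right hCfR (Real.exp_pos _).le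

end Pool.Agent.FPL
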