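import Pool.Agent.FPL.Mass

/-!
# ShapeCol (size 4)

Let `k = P.card`. Colour of `x`: the parts `prt x v` for `v ∈ P` (`3 ^ k` values); the vector `q v = ⌊ms x v * k / (η H)⌋₊` (`v ∈ P`) via `vec_col` (`Pool.Agent.TMS.VecCol`) with
`S = ⌊7 k / η⌋₊`: `∑ q v ≤ (∑ ms x v) k / (η H) ≤ (3 * 2 H + d log 2) k / (η H) ≤ 7 k / η` (`mass_total`, `hgt x ≤ 2 H`, `d log 2 ≤ C ≤ H`), at most `2 ^ (S + k) ≤ (2 ^ (7 / η + 1)) ^ k` colours;
for every infinite place `w` the two integers `⌊log (w x) * 2 d / (η H)⌋`, `⌊log (w (x-1)) * 2 d / (η H)⌋`: by `abs_log_le_hgt` and `hgt_sub_one` the logarithms are at most `3 H` in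
absolute value, so the integers lie in a fixed finite set (`Finset.Icc (-A) A`, `A = ⌈6 d / η⌉ + 1`; outside this set give a default colour).
If the colours agree, the parts agree, `|ms x v * k / (η H) - ms y v * k / (η H)| ≤ 1`, and the logarithms differ by at most `η H / (2 d)`.
`C` depends on `K` and `η`, `B = 3 * 2 ^ (7 / η + 1)` or larger.
-/

namespace Pool.Agent.FPL

open NumberField IsDedekindDomain Pool.Agent.H7.Abc Pool.Agent.AbcE Pool.Agent.AbcF Pool.Agent.TMS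
  Pool.Agent.TM2

private def ShapeCol_enc (A : ℕ) (z : ℤ) : Fin (2 * A + 1) :=
  ⟨min (z + A).toNat (2 * A), by omega⟩

private theorem ShapeCol_enc_inj {A : ℕ} {z z' : ℤ} (h1 : -(A : ℤ) ≤ z ∧ z ≤ A)
    (h2 : -(A : ℤ) ≤ z' ∧ z' ≤ A) (h : ShapeCol_enc A z = ShapeCol_enc A z') : z = z' := by
  have h3 : min (z + A).toNat (2 * A) = min (z' + A).toNat (2 * A) := congrArg Fin.val h
  omega

private theorem ShapeCol_bd {t b : ℝ} {A : ℕ} (h : |t| ≤ b) (hA : b + 1 ≤ A) :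
    -(A : ℤ) ≤ ⌊t⌋ ∧ ⌊t⌋ ≤ A := by
  obtain ⟨h1, h2⟩ := abs_le.1 h
  constructor
  · rw [Int.le_floor]
    push_cast
    linarith
  · have : (⌊t⌋ : ℝ) ≤ A := (Int.floor_le t).trans (by linarith)
    exact_mod_cast this

private theorem ShapeCol_close {t t' c : ℝ} {A : ℕ} {b : ℝ} (hc : 0 ≤ c) (h1 : |t * c| ≤ b)
    (h2 : |t' * c| ≤ b) (hA : b + 1 ≤ A)
    (h : ShapeCol_enc A ⌊t * c⌋ = ShapeCol_enc A ⌊t' * c⌋) : |t - t'| * c ≤ 1 := by
  have h3 := Int.abs_sub_lt_one_of_floor_eq_floor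
    (ShapeCol_enc_inj (ShapeCol_bd h1 hA) (ShapeCol_bd h2 hA) h)
  rw [← sub_mul, abs_mul, abs_of_nonneg hc] at h3
  exact h3.le

private theorem ShapeCol_nat {a b : ℝ} (ha : 0 ≤ a) (hb : 0 ≤ b) (h : ⌊a⌋₊ = ⌊b⌋₊) :
    |a - b| ≤ 1 := by
  have h1 := Nat.floor_le ha
  have h2 := Nat.lt_floor_add_one a
  have h3 := Nat.floor_le hb
  have h4 := Nat.lt_floor_add_one b
  rw [h] at h1 h2
  rw [abs_le]
  constructor <;> linarith

theorem shape_col (K : Type*) [Field K] [NumberField K] (η : ℝ) (hη : 0 < η) (hη1 : η ≤ 1) :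
    ∃ C B : ℝ, 1 ≤ C ∧ 1 ≤ B ∧ ∀ H : ℝ, C ≤ H → ∀ P : Finset (HeightOneSpectrum (𝓞 K)),
      ∃ (M : ℕ) (f : K → Fin M), (M : ℝ) ≤ C * B ^ P.card ∧
        ∀ x y : K, x ≠ 0 → x ≠ 1 → y ≠ 0 → y ≠ 1 → hgt x ≤ 2 * H → hgt y ≤ 2 * H → f x = f y →
          (∀ v ∈ P, prt x v = prt y v) ∧
          (∀ v ∈ P, |ms x v - ms y v| * (P.card : ℝ) ≤ η * H) ∧
          ∀ w : InfinitePlace K, (|Real.log (w x) - Real.log (w y)| +
            |Real.log (w (x - 1)) - Real.log (w (y - 1))|) * dg K ≤ η * H := by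
  classical
  have hd : 1 ≤ dg K := one_le_dg K
  set d : ℝ := dg K with hddef
  set E : ℕ := ⌈7 / η⌉₊ with hE
  set A : ℕ := ⌈6 * d / η⌉₊ + 1 with hA
  set r : ℕ := Fintype.card (InfinitePlace K) with hr
  have hlog : 0 < Real.log 2 := Real.log_pos (by norm_num)
  have hdl : 0 ≤ d * Real.log 2 := by positivity
  have hEle : 7 / η ≤ (E : ℝ) := Nat.le_ceil _
  have hAle : 6 * d / η + 1 ≤ (A : ℝ) := by
    rw [hA]
    push_cast
    linarith [Nat.le_ceil (6 * d / η)]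
  have hQ : (0 : ℝ) ≤ ((2 * A + 1 : ℕ) : ℝ) ^ r * ((2 * A + 1 : ℕ) : ℝ) ^ r := by positivity
  refine ⟨((2 * A + 1 : ℕ) : ℝ) ^ r * ((2 * A + 1 : ℕ) : ℝ) ^ r + d * Real.log 2 + 1,
    3 * 2 ^ (E + 1), by linarith, ?_, ?_⟩
  · have : (1 : ℝ) ≤ 2 ^ (E + 1) := one_le_pow₀ (by norm_num)
    linarith
  intro H hH P
  have hH1 : 1 ≤ H := by linarith
  have hH0 : 0 < H := by linarith
  have hHd : d * Real.log 2 ≤ H := by linarith
  have hηH : 0 < η * H := mul_pos hη hH0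
  set k : ℕ := P.card with hk
  obtain ⟨g, hg⟩ := vec_col P (E * k)
  have hcP : Fintype.card P = k := Fintype.card_coe P
  let Γ := (P → Fin 3) × Fin (2 ^ (E * k + Fintype.card P)) ×
    (InfinitePlace K → Fin (2 * A + 1)) × (InfinitePlace K → Fin (2 * A + 1))
  let F : K → Γ := fun x =>
    (fun v => prt x v.1, g (fun v => ⌊ms x v.1 * (k / (η * H))⌋₊),
      fun w => ShapeCol_enc A ⌊Real.log (w x) * (2 * d / (η * H))⌋,
      fun w => ShapeCol_enc A ⌊Real.log (w (x - 1)) * (2 * d / (η * H))⌋)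
  refine ⟨Fintype.card Γ, fun x => Fintype.equivFin Γ (F x), ?_, ?_⟩
  · have h1 : Fintype.card Γ = 3 ^ k * (2 ^ (E * k + k) * ((2 * A + 1) ^ r * (2 * A + 1) ^ r)) := by
      simp only [Γ, Fintype.card_prod, Fintype.card_fun, Fintype.card_fin, Fintype.card_coe, hr]
      rw [hk]
    rw [h1]
    have h2 : ((3 ^ k * (2 ^ (E * k + k) * ((2 * A + 1) ^ r * (2 * A + 1) ^ r)) : ℕ) : ℝ) =
        (((2 * A + 1 : ℕ) : ℝ) ^ r * ((2 * A + 1 : ℕ) : ℝ) ^ r) * (3 * 2 ^ (E + 1)) ^ k := by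
      push_cast
      rw [mul_pow (3 : ℝ), ← pow_mul]
      ring
    rw [h2]
    refine mul_le_mul_of_nonneg_right (by linarith) (by positivity)
  · intro x y hx0 hx1 hy0 hy1 hxH hyH hxy
    have hF : F x = F y := (Fintype.equivFin Γ).injective hxy
    have e1 : (fun v : P => prt x v.1) = fun v : P => prt y v.1 := congrArg (fun z : Γ => z.1) hF
    have e2 : g (fun v => ⌊ms x v.1 * (k / (η * H))⌋₊) = g (fun v => ⌊ms y v.1 * (k / (η * H))⌋₊) :=
      congrArg (fun z : Γ => z.2.1) hF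
    have e3 : (fun w : InfinitePlace K => ShapeCol_enc A ⌊Real.log (w x) * (2 * d / (η * H))⌋) =
        fun w => ShapeCol_enc A ⌊Real.log (w y) * (2 * d / (η * H))⌋ :=
      congrArg (fun z : Γ => z.2.2.1) hF
    have e4 : (fun w : InfinitePlace K =>
        ShapeCol_enc A ⌊Real.log (w (x - 1)) * (2 * d / (η * H))⌋) =
        fun w => ShapeCol_enc A ⌊Real.log (w (y - 1)) * (2 * d / (η * H))⌋ :=
      congrArg (fun z : Γ => z.2.2.2) hF
    have hkη : 0 ≤ (k : ℝ) / (η * H) := by positivity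
    have hsum : ∀ z : K, z ≠ 0 → z ≠ 1 → hgt z ≤ 2 * H →
        ∑ v : P, ⌊ms z v.1 * (k / (η * H))⌋₊ ≤ E * k := by
      intro z hz0 hz1 hzH
      have s1 : ((∑ v : P, ⌊ms z v.1 * (k / (η * H))⌋₊ : ℕ) : ℝ) ≤
          ∑ v : P, ms z v.1 * (k / (η * H)) := by
        rw [Nat.cast_sum]
        exact Finset.sum_le_sum fun v _ => Nat.floor_le (mul_nonneg (ms_nonneg z v.1) hkη)
      have s2 : ∑ v : P, ms z v.1 * (k / (η * H)) = (∑ v ∈ P, ms z v) * (k / (η * H)) := by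
        rw [Finset.sum_coe_sort P (fun v => ms z v * (k / (η * H))), Finset.sum_mul]
      have s3 : ∑ v ∈ P, ms z v ≤ 7 * H := by
        have := mass_total hz0 hz1 P
        linarith
      have s4 : (∑ v ∈ P, ms z v) * (k / (η * H)) ≤ 7 * H * (k / (η * H)) :=
        mul_le_mul_of_nonneg_right s3 hkη
      have s5 : 7 * H * ((k : ℝ) / (η * H)) = 7 / η * k := by
        field_simp
      have s6 : 7 / η * (k : ℝ) ≤ E * k := mul_le_mul_of_nonneg_right hEle (Nat.cast_nonneg _)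
      have s7 : ((∑ v : P, ⌊ms z v.1 * (k / (η * H))⌋₊ : ℕ) : ℝ) ≤ ((E * k : ℕ) : ℝ) := by
        push_cast at s1 ⊢
        linarith
      exact_mod_cast s7
    have e5 := hg _ _ (hsum x hx0 hx1 hxH) (hsum y hy0 hy1 hyH) e2
    have hc : 0 ≤ 2 * d / (η * H) := by positivity
    have hlogb : ∀ t : ℝ, |t| ≤ 3 * H → |t * (2 * d / (η * H))| ≤ 6 * d / η := by
      intro t ht
      rw [abs_mul, abs_of_nonneg hc]
      have : 3 * H * (2 * d / (η * H)) = 6 * d / η := by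
        field_simp
        ring
      rw [← this]
      exact mul_le_mul_of_nonneg_right ht hc
    refine ⟨fun v hv => congrFun e1 ⟨v, hv⟩, fun v hv => ?_, fun w => ?_⟩
    · have h1 := congrFun e5 ⟨v, hv⟩
      have h2 := ShapeCol_nat (mul_nonneg (ms_nonneg x v) hkη) (mul_nonneg (ms_nonneg y v) hkη) h1
      rw [← sub_mul, abs_mul, abs_of_nonneg hkη, mul_div_assoc', div_le_one hηH] at h2
      exact h2
    · have l1 : |Real.log (w x)| ≤ 3 * H := (abs_log_le_hgt hx0 w).trans (by linarith)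
      have l2 : |Real.log (w y)| ≤ 3 * H := (abs_log_le_hgt hy0 w).trans (by linarith)
      have l3 : |Real.log (w (x - 1))| ≤ 3 * H := by
        have h1 := abs_log_le_hgt (sub_ne_zero.2 hx1) w
        have h2 := hgt_sub_one x
        have h3 : (Module.finrank ℚ K : ℝ) * Real.log 2 = d * Real.log 2 := rfl
        linarith
      have l4 : |Real.log (w (y - 1))| ≤ 3 * H := by
        have h1 := abs_log_le_hgt (sub_ne_zero.2 hy1) w
        have h2 := hgt_sub_one y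
        have h3 : (Module.finrank ℚ K : ℝ) * Real.log 2 = d * Real.log 2 := rfl
        linarith
      have m1 := ShapeCol_close hc (hlogb _ l1) (hlogb _ l2) hAle (congrFun e3 w)
      have m2 := ShapeCol_close hc (hlogb _ l3) (hlogb _ l4) hAle (congrFun e4 w)
      rw [mul_div_assoc', div_le_one hηH] at m1 m2
      linarith
end Pool.Agent.FPL
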