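import Pool.Agent.FPL.GapA
import Pool.Agent.FPL.ShapeCol

/-!
# CellA (size 2)

`C, B` from `shape_col K (η / 4)`, the new `C` also larger than `12 d log 2 / η + 1`. Two elements `x, y ∈ S` of the same colour (`f` for `H`, `P`; `hgt x ≤ (1 + η/2) H ≤ 2 H`) are equal: `gapA` with
`η / 2` instead of `η`: `∑_{fs x \ P} ms x v ≤ (1 - η) hgt x ≤ (1 - η)(1 + η/2) H ≤ (1 - η/2) H`; `∑_{v ∈ P} |ms x v - ms y v| ≤ η H / 4` (each term times `P.card` is `≤ η H / 4`; if `P` is empty
the sum is `0`); the archimedean sum: `∑ mult = d` (`InfinitePlace.sum_mult_eq`). So `f` is injective on `S`, `S.card ≤ M`.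
-/

namespace Pool.Agent.FPL

open NumberField IsDedekindDomain Pool.Agent.H7.Abc Pool.Agent.AbcE Pool.Agent.AbcF Pool.Agent.TMS
  Pool.Agent.TM2

open Classical in
theorem cellA (K : Type*) [Field K] [NumberField K] (η : ℝ) (hη : 0 < η) (hη1 : η ≤ 1) :
    ∃ C B : ℝ, 1 ≤ C ∧ 1 ≤ B ∧ ∀ H : ℝ, C ≤ H → ∀ P : Finset (HeightOneSpectrum (𝓞 K)),
      ∀ S : Finset K, (∀ x ∈ S, x ≠ 0 ∧ x ≠ 1 ∧ H ≤ hgt x ∧ hgt x ≤ (1 + η / 2) * H ∧
        ∑ v ∈ fs x \ P, ms x v ≤ (1 - η) * hgt x) → (S.card : ℝ) ≤ C * B ^ P.card := by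
  obtain ⟨C₀, B, hC₀, hB, hcol⟩ := shape_col K (η / 4) (by linarith) (by linarith)
  have hd : 1 ≤ dg K := one_le_dg K
  have hl2 : 0 < Real.log 2 := Real.log_pos (by norm_num)
  refine ⟨C₀ + (12 * dg K * Real.log 2 / η + 1), B, ?_, hB, ?_⟩
  · have : 0 ≤ 12 * dg K * Real.log 2 / η := by positivity
    linarith
  intro H hCH P S hS
  have hq : 0 ≤ 12 * dg K * Real.log 2 / η := by positivity
  have hH0 : C₀ ≤ H := by linarith
  have hHpos : 0 < H := by linarith
  have hH2 : 12 * dg K * Real.log 2 < η * H := by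
    have h1 : 12 * dg K * Real.log 2 / η < H := by linarith
    rw [div_lt_iff₀ hη] at h1
    linarith
  obtain ⟨M, f, hM, hf⟩ := hcol H hH0 P
  have hinj : Set.InjOn f (S : Set K) := by
    intro x hx y hy hxy
    obtain ⟨hx0, hx1, hHx, hxH, hxD⟩ := hS x hx
    obtain ⟨hy0, hy1, hHy, hyH, hyD⟩ := hS y hy
    have hle : (1 + η / 2) * H ≤ 2 * H := by nlinarith
    obtain ⟨h1, h2, h3⟩ := hf x y hx0 hx1 hy0 hy1 (hxH.trans hle) (hyH.trans hle) hxy
    have hkey : ∀ t : ℝ, t ≤ (1 + η / 2) * H → (1 - η) * t ≤ (1 - η / 2) * H := by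
      intro t ht
      have h4 : (1 - η) * t ≤ (1 - η) * ((1 + η / 2) * H) :=
        mul_le_mul_of_nonneg_left ht (by linarith)
      have h5 : 0 ≤ η ^ 2 * H := by positivity
      nlinarith
    refine gapA hx0 hx1 hy0 hy1 P H (η / 2) hHx hHy h1 (hxD.trans (hkey _ hxH))
      (hyD.trans (hkey _ hyH)) ?_ ?_ (by linarith)
    · rcases Finset.eq_empty_or_nonempty P with hP | hP
      · subst hP
        rw [Finset.sum_empty]
        positivity
      · have hk : (0 : ℝ) < (P.card : ℝ) := by exact_mod_cast hP.card_pos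
        calc ∑ v ∈ P, |ms x v - ms y v| ≤ ∑ _v ∈ P, η / 4 * H / (P.card : ℝ) := by
              refine Finset.sum_le_sum fun v hv => ?_
              rw [le_div_iff₀ hk]
              exact h2 v hv
          _ = η / 2 * H / 2 := by
              rw [Finset.sum_const, nsmul_eq_mul]
              field_simp
              ring
    · have hd0 : (0 : ℝ) < dg K := by linarith
      have hsum : ∑ w : InfinitePlace K, (w.mult : ℝ) = dg K := by
        unfold dg
        rw [← InfinitePlace.sum_mult_eq (K := K)]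
        push_cast
        rfl
      calc ∑ w : InfinitePlace K, (w.mult : ℝ) * (|Real.log (w x) - Real.log (w y)| +
            |Real.log (w (x - 1)) - Real.log (w (y - 1))|)
          ≤ ∑ w : InfinitePlace K, (w.mult : ℝ) * (η / 4 * H / dg K) := by
              refine Finset.sum_le_sum fun w _ => ?_
              refine mul_le_mul_of_nonneg_left ?_ (Nat.cast_nonneg _)
              rw [le_div_iff₀ hd0]
              exact h3 w
        _ = η / 2 * H / 2 := by
              rw [← Finset.sum_mul, hsum]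
              field_simp
              ring
  have hcard : S.card ≤ M := by
    have h := Finset.card_le_card_of_injOn (s := S) (t := (Finset.univ : Finset (Fin M))) f
      (fun a _ => Finset.mem_coe.2 (Finset.mem_univ _)) hinj
    simpa using h
  have hBk : (0 : ℝ) ≤ B ^ P.card := by positivity
  calc (S.card : ℝ) ≤ (M : ℝ) := by exact_mod_cast hcard
    _ ≤ C₀ * B ^ P.card := hM
    _ ≤ (C₀ + (12 * dg K * Real.log 2 / η + 1)) * B ^ P.card :=
        mul_le_mul_of_nonneg_right (by linarith) hBk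

end Pool.Agent.FPL
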