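import Pool.Agent.FPL.Mass

/-!
# GapA (size 4)

`d = dg K`. Suppose `x ≠ y`; `z = x - y`. For a finite place `v` put `a = max 0 (ord v x) * ln v`, `b = max 0 (ord v (x-1)) * ln v`, `c = max 0 (-ord v x) * ln v` (at most one of them is `≠ 0`,
`ord_cases`; `a, b` or `c` is `ms x v` according to `prt x v = 0, 1, 2`), `a', b', c'` for `y`. Then `log mk v z ≤ max c c' - min a a' - min b b'` (ultrametric inequality
`FinitePlace.add_le`, `mk_sub_le_max`, for `z = x - y = (x - 1) - (y - 1)`; `log_mk`). For an infinite place put `a = mult * max 0 (- log w x)`, `b = mult * max 0 (- log w (x-1))`,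
`c = mult * max 0 (log w x)`: `mult * log (w z) ≤ max c c' - min a a' - min b b' + 2 mult log 2`:
if `min b b' > 0`: `w z ≤ 2 max (w (x-1)) (w (y-1))`; if moreover `min a a' > 0`, also `w z ≤ 2 max (w x) (w y)`, and `min a b ≤ mult log 2` because `w x + w (x-1) ≥ 1`, so
`mult log (w z) ≤ mult log 2 - max (min a a') (min b b') ≤ 2 mult log 2 - min a a' - min b b'`; if `min b b' = 0 < min a a'`: `w z ≤ 2 max (w x) (w y)`; if both are `0`:
`w z ≤ 2 max 1 (max (w x) (w y))`.
Product formula (`gap_prod` for `z`; `∑_w mult = d`): `0 ≤ ∑_all (max c c' - min a a' - min b b') + 2 d log 2`. Here `∑_all a = ∑_all c = hgt x`, `∑_all b = hgt (x-1) ≥ hgt x - d log 2`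
(as in `Mass`: `ones_ge`), and `max c c' = c + max 0 (c' - c)`, `min a a' = a - max 0 (a - a')`. So
`hgt x ≤ ∑_all (max 0 (c' - c) + max 0 (a - a') + max 0 (b - b')) + 3 d log 2`; the same with `x, y` exchanged; the sum of the two:
`hgt x + hgt y ≤ ∑_all (|c - c'| + |a - a'| + |b - b'|) + 6 d log 2`.
For `v ∈ P` (same part) the term is `|ms x v - ms y v|`; for `v ∉ P` it is at most `ms x v + ms y v`, and `ms x v = 0` for `v ∉ fs x`; at an infinite place
`|a - a'| + |c - c'| = mult |log w x - log w y|`, `|b - b'| ≤ mult |log w (x-1) - log w (y-1)|`. Total: `2 H ≤ η H / 2 + 2 (1 - η) H + η H / 2 + 6 d log 2`: contradiction to `hH`.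
-/

namespace Pool.Agent.FPL

open NumberField IsDedekindDomain Pool.Agent.H7.Abc Pool.Agent.AbcE Pool.Agent.AbcF Pool.Agent.TMS
  Pool.Agent.TM2

private theorem ga_real {X X1 Y Y1 Z L : ℝ} (hL : 0 ≤ L) (h1 : Z ≤ L + max X Y)
    (h2 : Z ≤ L + max X1 Y1) (h3 : -L ≤ max X X1) :
    2 * Z ≤ (max 0 X + max 0 Y + |max 0 X - max 0 Y|) -
      (max 0 (-X) + max 0 (-Y) - |max 0 (-X) - max 0 (-Y)|) -
      (max 0 (-X1) + max 0 (-Y1) - |max 0 (-X1) - max 0 (-Y1)|) + 4 * L := by
  -- the three quantities are `2 max c c'`, `2 min a a'`, `2 min b b'`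
  have hc : max X Y ≤ max (max 0 X) (max 0 Y) := max_le_max (le_max_right _ _) (le_max_right _ _)
  have hc0 : 0 ≤ max (max 0 X) (max 0 Y) := le_max_of_le_left (le_max_left _ _)
  have eC : max 0 X + max 0 Y + |max 0 X - max 0 Y| = 2 * max (max 0 X) (max 0 Y) := by
    rcases le_total (max 0 X) (max 0 Y) with h | h
    · rw [max_eq_right h, abs_of_nonpos (by linarith)]; ring
    · rw [max_eq_left h, abs_of_nonneg (by linarith)]; ring
  have eA : ∀ a b : ℝ, a + b - |a - b| = 2 * min a b := by
    intro a b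
    rcases le_total a b with h | h
    · rw [min_eq_left h, abs_of_nonpos (by linarith)]; ring
    · rw [min_eq_right h, abs_of_nonneg (by linarith)]; ring
  rw [eC, eA, eA]
  -- positivity of a minimum
  have key : ∀ U V : ℝ, min (max 0 (-U)) (max 0 (-V)) = 0 ∨
      (min (max 0 (-U)) (max 0 (-V)) = -max U V) := by
    intro U V
    rcases le_or_gt 0 (max U V) with h | h
    · left
      rcases le_max_iff.1 h with h | h
      · rw [max_eq_left (by linarith : -U ≤ 0)]
        exact min_eq_left (le_max_left _ _)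
      · rw [max_eq_left (by linarith : -V ≤ 0)]
        exact min_eq_right (le_max_left _ _)
    · right
      have hU : U < 0 := lt_of_le_of_lt (le_max_left _ _) h
      have hV : V < 0 := lt_of_le_of_lt (le_max_right _ _) h
      rw [max_eq_right (by linarith : (0 : ℝ) ≤ -U), max_eq_right (by linarith : (0 : ℝ) ≤ -V),
        min_neg_neg]
  rcases key X Y with hA | hA <;> rcases key X1 Y1 with hB | hB <;> rw [hA, hB]
  · linarith
  · linarith
  · linarith
  · -- both are positive
    have h5 : -L ≤ max X Y ∨ -L ≤ max X1 Y1 := by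
      rcases le_max_iff.1 h3 with h | h
      · exact Or.inl (le_max_of_le_left h)
      · exact Or.inr (le_max_of_le_left h)
    rcases h5 with h | h <;> linarith

private theorem ga_abs_split (X Y : ℝ) :
    |max 0 X - max 0 Y| + |max 0 (-X) - max 0 (-Y)| = |X - Y| := by
  rcases le_total 0 X with h | h <;> rcases le_total 0 Y with h' | h'
  · rw [max_eq_right h, max_eq_right h', max_eq_left (by linarith : -X ≤ 0),
      max_eq_left (by linarith : -Y ≤ 0)]
    simp
  · rw [max_eq_right h, max_eq_left h', max_eq_left (by linarith : -X ≤ 0),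
      max_eq_right (by linarith : (0 : ℝ) ≤ -Y), abs_of_nonneg (by linarith : 0 ≤ X - 0),
      abs_of_nonpos (by linarith : 0 - -Y ≤ 0), abs_of_nonneg (by linarith : 0 ≤ X - Y)]
    ring
  · rw [max_eq_left h, max_eq_right h', max_eq_right (by linarith : (0 : ℝ) ≤ -X),
      max_eq_left (by linarith : -Y ≤ 0), abs_of_nonpos (by linarith : 0 - Y ≤ 0),
      abs_of_nonneg (by linarith : 0 ≤ -X - 0), abs_of_nonpos (by linarith : X - Y ≤ 0)]
    ring
  · rw [max_eq_left h, max_eq_left h', max_eq_right (by linarith : (0 : ℝ) ≤ -X),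
      max_eq_right (by linarith : (0 : ℝ) ≤ -Y), sub_self, abs_zero, zero_add,
      show -X - -Y = -(X - Y) by ring, abs_neg]

private theorem ga_abs_le (X Y : ℝ) : |max 0 (-X) - max 0 (-Y)| ≤ |X - Y| := by
  have := ga_abs_split X Y
  have h := abs_nonneg (max 0 X - max 0 Y)
  linarith

variable {K : Type*} [Field K] [NumberField K]

private theorem ga_log_max {t : ℝ} (ht : 0 < t) : Real.log (max 1 t) = max 0 (Real.log t) := by
  rcases le_total t 1 with h | h
  · rw [max_eq_left h, Real.log_one, max_eq_left (Real.log_nonpos ht.le h)]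
  · rw [max_eq_right h, max_eq_right (Real.log_nonneg h)]

private theorem ga_hgt {x : K} (hx : x ≠ 0) (B : Finset (HeightOneSpectrum (𝓞 K)))
    (hB : ∀ v, FinitePlace.mk v x ≠ 1 → v ∈ B) :
    hgt x = (∑ w : InfinitePlace K, (w.mult : ℝ) * max 0 (Real.log (w x))) +
      ∑ v ∈ B, max 0 (Real.log (FinitePlace.mk v x)) := by
  unfold hgt
  congr 1
  · refine Finset.sum_congr rfl fun w _ => ?_
    rw [ga_log_max (InfinitePlace.pos_iff.2 hx)]
  · rw [finsum_eq_sum_of_support_subset (s := B)]
    · refine Finset.sum_congr rfl fun v _ => ?_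
      rw [ga_log_max (FinitePlace.pos_iff.2 hx)]
    · intro v hv
      refine hB v ?_
      intro h1
      apply hv
      simp only [h1, max_self, Real.log_one]

private theorem ga_hgt_inv {x : K} (hx : x ≠ 0) (B : Finset (HeightOneSpectrum (𝓞 K)))
    (hB : ∀ v, FinitePlace.mk v x ≠ 1 → v ∈ B) :
    hgt x = (∑ w : InfinitePlace K, (w.mult : ℝ) * max 0 (-Real.log (w x))) +
      ∑ v ∈ B, max 0 (-Real.log (FinitePlace.mk v x)) := by
  rw [← hgt_inv x, ga_hgt (inv_ne_zero hx) B ?_]
  · congr 1
    · refine Finset.sum_congr rfl fun w _ => ?_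
      rw [map_inv₀, Real.log_inv]
    · refine Finset.sum_congr rfl fun v _ => ?_
      rw [mk_inv, Real.log_inv]
  · intro v hv
    refine hB v ?_
    intro h1
    apply hv
    rw [mk_inv, h1, inv_one]

private theorem ga_hgt_neg (x : K) : hgt (-x) = hgt x := by
  unfold hgt
  congr 1
  · refine Finset.sum_congr rfl fun w _ => ?_
    have h : w (-x) = w x := by
      rw [← InfinitePlace.norm_embedding_eq w, ← InfinitePlace.norm_embedding_eq w, map_neg,
        norm_neg]
    rw [h]
  · refine finsum_congr fun v => ?_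
    rw [map_neg_eq_map]

private theorem ga_hgt_ge (x : K) : hgt x - dg K * Real.log 2 ≤ hgt (x - 1) := by
  have h := hgt_sub_one (1 - x)
  have e1 : (1 - x : K) - 1 = -x := by ring
  have e2 : (1 - x : K) = -(x - 1) := by ring
  rw [e1, ga_hgt_neg] at h
  rw [e2, ga_hgt_neg] at h
  unfold dg
  linarith

/-- the three quantities at a finite place -/
private theorem ga_ms {x : K} (hx : x ≠ 0) (hx1 : x ≠ 1) (v : HeightOneSpectrum (𝓞 K)) :
    (prt x v = 0 ∧ max 0 (-Real.log (FinitePlace.mk v x)) = ms x v ∧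
      max 0 (-Real.log (FinitePlace.mk v (x - 1))) = 0 ∧
      max 0 (Real.log (FinitePlace.mk v x)) = 0) ∨
    (prt x v = 1 ∧ max 0 (-Real.log (FinitePlace.mk v x)) = 0 ∧
      max 0 (-Real.log (FinitePlace.mk v (x - 1))) = ms x v ∧
      max 0 (Real.log (FinitePlace.mk v x)) = 0) ∨
    (prt x v = 2 ∧ max 0 (-Real.log (FinitePlace.mk v x)) = 0 ∧
      max 0 (-Real.log (FinitePlace.mk v (x - 1))) = 0 ∧
      max 0 (Real.log (FinitePlace.mk v x)) = ms x v) := by
  have hx1' : x - 1 ≠ 0 := sub_ne_zero.2 hx1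
  have hln : 0 < ln v := ln_pos v
  have hlnd : Real.log (Ideal.absNorm v.asIdeal : ℝ) = ln v := rfl
  have l1 := log_mk v hx
  have l2 := log_mk v hx1'
  rw [hlnd] at l1 l2
  have hms : ms x v = ((mlt x v : ℤ) : ℝ) * ln v := by
    unfold ms
    push_cast
    ring
  have hmn := ms_nonneg x v
  have h3 : ∀ i : Fin 3, i = 0 ∨ i = 1 ∨ i = 2 := by decide
  rcases h3 (prt x v) with h | h | h
  · left
    obtain ⟨e1, e2⟩ := mlt_zero hx hx1 h
    rw [e1] at hms
    rw [l1, l2, e2]
    refine ⟨h, ?_, ?_, ?_⟩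
    · rw [hms] at hmn ⊢
      rw [max_eq_right (by linarith)]
      ring
    · simp
    · rw [hms] at hmn
      exact max_eq_left (by linarith)
  · right; left
    obtain ⟨e1, e2⟩ := mlt_one hx hx1 h
    rw [e1] at hms
    rw [l1, l2, e2]
    refine ⟨h, ?_, ?_, ?_⟩
    · simp
    · rw [hms] at hmn ⊢
      rw [max_eq_right (by linarith)]
      ring
    · simp
  · right; right
    obtain ⟨e1, e2⟩ := mlt_two hx hx1 h
    rw [e1] at hms
    rw [l1, l2, e2]
    push_cast at hms
    refine ⟨h, ?_, ?_, ?_⟩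
    · rw [hms] at hmn
      exact max_eq_left (by linarith)
    · rw [hms] at hmn
      exact max_eq_left (by linarith)
    · rw [hms] at hmn ⊢
      rw [max_eq_right (by linarith)]

private theorem ga_ms_zero {x : K} (hx : x ≠ 0) (hx1 : x ≠ 1) {v : HeightOneSpectrum (𝓞 K)}
    (h : v ∉ fs x) : ms x v = 0 := by
  rw [mem_fs hx hx1] at h
  push Not at h
  unfold ms mlt
  rw [h.1, h.2]
  simp

/-- the difference at a finite place -/
private noncomputable def gaD (X X1 Y Y1 : ℝ) : ℝ :=
  |max 0 X - max 0 Y| + |max 0 (-X) - max 0 (-Y)| + |max 0 (-X1) - max 0 (-Y1)|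

private theorem ga_fin {x y : K} (hx : x ≠ 0) (hx1 : x ≠ 1) (hy : y ≠ 0) (hy1 : y ≠ 1)
    (v : HeightOneSpectrum (𝓞 K)) :
    gaD (Real.log (FinitePlace.mk v x)) (Real.log (FinitePlace.mk v (x - 1)))
      (Real.log (FinitePlace.mk v y)) (Real.log (FinitePlace.mk v (y - 1))) ≤ ms x v + ms y v ∧
    (prt x v = prt y v →
      gaD (Real.log (FinitePlace.mk v x)) (Real.log (FinitePlace.mk v (x - 1)))
        (Real.log (FinitePlace.mk v y)) (Real.log (FinitePlace.mk v (y - 1))) =
        |ms x v - ms y v|) := by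
  have mx := ms_nonneg x v
  have my := ms_nonneg y v
  unfold gaD
  rcases ga_ms hx hx1 v with ⟨p, e1, e2, e3⟩ | ⟨p, e1, e2, e3⟩ | ⟨p, e1, e2, e3⟩ <;>
  rcases ga_ms hy hy1 v with ⟨q, f1, f2, f3⟩ | ⟨q, f1, f2, f3⟩ | ⟨q, f1, f2, f3⟩ <;>
  rw [e1, e2, e3, f1, f2, f3, p, q]
  · refine ⟨?_, fun _ => by simp⟩
    simp only [sub_self, abs_zero, zero_add, add_zero]
    exact (abs_sub _ _).trans (by rw [abs_of_nonneg mx, abs_of_nonneg my])
  · refine ⟨?_, fun h => absurd h (by decide)⟩
    simp only [sub_self, abs_zero, zero_add, sub_zero, zero_sub, abs_neg]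
    rw [abs_of_nonneg mx, abs_of_nonneg my]
  · refine ⟨?_, fun h => absurd h (by decide)⟩
    simp only [sub_self, abs_zero, add_zero, sub_zero, zero_sub, abs_neg]
    rw [abs_of_nonneg mx, abs_of_nonneg my, add_comm]
  · refine ⟨?_, fun h => absurd h (by decide)⟩
    simp only [sub_self, abs_zero, zero_add, sub_zero, zero_sub, abs_neg]
    rw [abs_of_nonneg mx, abs_of_nonneg my, add_comm]
  · refine ⟨?_, fun _ => by simp⟩
    simp only [sub_self, abs_zero, zero_add]
    exact (abs_sub _ _).trans (by rw [abs_of_nonneg mx, abs_of_nonneg my])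
  · refine ⟨?_, fun h => absurd h (by decide)⟩
    simp only [sub_self, abs_zero, add_zero, sub_zero, zero_sub, abs_neg]
    rw [abs_of_nonneg mx, abs_of_nonneg my, add_comm]
  · refine ⟨?_, fun h => absurd h (by decide)⟩
    simp only [sub_self, abs_zero, add_zero, sub_zero, zero_sub, abs_neg]
    rw [abs_of_nonneg mx, abs_of_nonneg my]
  · refine ⟨?_, fun h => absurd h (by decide)⟩
    simp only [sub_self, abs_zero, add_zero, sub_zero, zero_sub, abs_neg]
    rw [abs_of_nonneg mx, abs_of_nonneg my]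
  · refine ⟨?_, fun _ => by simp⟩
    simp only [sub_self, abs_zero, add_zero]
    exact (abs_sub _ _).trans (by rw [abs_of_nonneg mx, abs_of_nonneg my])

open Classical in
theorem gapA {K : Type*} [Field K] [NumberField K] {x y : K} (hx : x ≠ 0) (hx1 : x ≠ 1)
    (hy : y ≠ 0) (hy1 : y ≠ 1) (P : Finset (HeightOneSpectrum (𝓞 K))) (H η : ℝ)
    (hHx : H ≤ hgt x) (hHy : H ≤ hgt y)
    (hP : ∀ v ∈ P, prt x v = prt y v)
    (hDx : ∑ v ∈ fs x \ P, ms x v ≤ (1 - η) * H)
    (hDy : ∑ v ∈ fs y \ P, ms y v ≤ (1 - η) * H)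
    (hPd : ∑ v ∈ P, |ms x v - ms y v| ≤ η * H / 2)
    (harch : ∑ w : InfinitePlace K, (w.mult : ℝ) * (|Real.log (w x) - Real.log (w y)| +
      |Real.log (w (x - 1)) - Real.log (w (y - 1))|) ≤ η * H / 2)
    (hH : 6 * dg K * Real.log 2 < η * H) : x = y := by
  classical
  by_contra hne
  have hz : x - y ≠ 0 := sub_ne_zero.2 hne
  have hx1' : x - 1 ≠ 0 := sub_ne_zero.2 hx1
  have hy1' : y - 1 ≠ 0 := sub_ne_zero.2 hy1
  set B := (finite_support hz).toFinset ∪ (finite_support hx).toFinset ∪
    (finite_support hx1').toFinset ∪ (finite_support hy).toFinset ∪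
    (finite_support hy1').toFinset with hBdef
  have hBz : ∀ v, FinitePlace.mk v (x - y) ≠ 1 → v ∈ B := by
    intro v hv
    simp only [hBdef, Finset.mem_union, Set.Finite.mem_toFinset, Set.mem_ofPred_eq]
    tauto
  have hBx : ∀ v, FinitePlace.mk v x ≠ 1 → v ∈ B := by
    intro v hv
    simp only [hBdef, Finset.mem_union, Set.Finite.mem_toFinset, Set.mem_ofPred_eq]
    tauto
  have hBx1 : ∀ v, FinitePlace.mk v (x - 1) ≠ 1 → v ∈ B := by
    intro v hv
    simp only [hBdef, Finset.mem_union, Set.Finite.mem_toFinset, Set.mem_ofPred_eq]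
    tauto
  have hBy : ∀ v, FinitePlace.mk v y ≠ 1 → v ∈ B := by
    intro v hv
    simp only [hBdef, Finset.mem_union, Set.Finite.mem_toFinset, Set.mem_ofPred_eq]
    tauto
  have hBy1 : ∀ v, FinitePlace.mk v (y - 1) ≠ 1 → v ∈ B := by
    intro v hv
    simp only [hBdef, Finset.mem_union, Set.Finite.mem_toFinset, Set.mem_ofPred_eq]
    tauto
  have hd : dg K = ∑ w : InfinitePlace K, (w.mult : ℝ) := by
    unfold dg
    rw [← Nat.cast_sum, InfinitePlace.sum_mult_eq]
  have hl2 : 0 ≤ Real.log 2 := Real.log_nonneg (by norm_num)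
  -- the product formula
  have P1 := gap_prod hz B hBz
  -- heights
  have c1 := ga_hgt hx B hBx
  have a1 := ga_hgt_inv hx B hBx
  have b1 := ga_hgt_inv hx1' B hBx1
  have c2 := ga_hgt hy B hBy
  have a2 := ga_hgt_inv hy B hBy
  have b2 := ga_hgt_inv hy1' B hBy1
  have g1 := ga_hgt_ge x
  have g2 := ga_hgt_ge y
  -- finite places
  have F1 : ∀ v, 2 * Real.log (FinitePlace.mk v (x - y)) ≤
      (max 0 (Real.log (FinitePlace.mk v x)) + max 0 (Real.log (FinitePlace.mk v y))) -
      (max 0 (-Real.log (FinitePlace.mk v x)) + max 0 (-Real.log (FinitePlace.mk v y))) -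
      (max 0 (-Real.log (FinitePlace.mk v (x - 1))) +
        max 0 (-Real.log (FinitePlace.mk v (y - 1)))) +
      gaD (Real.log (FinitePlace.mk v x)) (Real.log (FinitePlace.mk v (x - 1)))
        (Real.log (FinitePlace.mk v y)) (Real.log (FinitePlace.mk v (y - 1))) := by
    intro v
    have px : 0 < FinitePlace.mk v x := FinitePlace.pos_iff.2 hx
    have py : 0 < FinitePlace.mk v y := FinitePlace.pos_iff.2 hy
    have px1 : 0 < FinitePlace.mk v (x - 1) := FinitePlace.pos_iff.2 hx1'
    have py1 : 0 < FinitePlace.mk v (y - 1) := FinitePlace.pos_iff.2 hy1'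
    have pz : 0 < FinitePlace.mk v (x - y) := FinitePlace.pos_iff.2 hz
    have hmax : ∀ {s t u : ℝ}, 0 < s → 0 < t → 0 < u → u ≤ max s t →
        Real.log u ≤ max (Real.log s) (Real.log t) := by
      intro s t u hs ht hu h
      rcases le_max_iff.1 h with h | h
      · exact le_max_of_le_left (Real.log_le_log hu h)
      · exact le_max_of_le_right (Real.log_le_log hu h)
    have u1 : FinitePlace.mk v (x - y) ≤ max (FinitePlace.mk v x) (FinitePlace.mk v y) :=
      fp_sub_le _ _ _
    have u2 : FinitePlace.mk v (x - y) ≤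
        max (FinitePlace.mk v (x - 1)) (FinitePlace.mk v (y - 1)) := by
      have h := fp_sub_le (FinitePlace.mk v) (x - 1) (y - 1)
      rwa [sub_sub_sub_cancel_right] at h
    have u3 : ∀ t : K, (1 : ℝ) ≤ max (FinitePlace.mk v t) (FinitePlace.mk v (t - 1)) := by
      intro t
      have h := fp_sub_le (FinitePlace.mk v) t (t - 1)
      rwa [sub_sub_cancel, map_one] at h
    have e1 := hmax px py pz u1
    have e2 := hmax px1 py1 pz u2
    have e3 := hmax px px1 one_pos (u3 x)
    rw [Real.log_one] at e3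
    have := ga_real (L := 0) le_rfl (Y := Real.log (FinitePlace.mk v y))
      (Y1 := Real.log (FinitePlace.mk v (y - 1))) (by linarith) (by linarith) (by linarith)
      (X := Real.log (FinitePlace.mk v x)) (X1 := Real.log (FinitePlace.mk v (x - 1)))
      (Z := Real.log (FinitePlace.mk v (x - y)))
    unfold gaD
    linarith
  -- infinite places
  have I1 : ∀ w : InfinitePlace K, 2 * Real.log (w (x - y)) ≤
      (max 0 (Real.log (w x)) + max 0 (Real.log (w y))) -
      (max 0 (-Real.log (w x)) + max 0 (-Real.log (w y))) -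
      (max 0 (-Real.log (w (x - 1))) + max 0 (-Real.log (w (y - 1)))) +
      (|Real.log (w x) - Real.log (w y)| + |Real.log (w (x - 1)) - Real.log (w (y - 1))|) +
      4 * Real.log 2 := by
    intro w
    have px : 0 < w x := InfinitePlace.pos_iff.2 hx
    have py : 0 < w y := InfinitePlace.pos_iff.2 hy
    have px1 : 0 < w (x - 1) := InfinitePlace.pos_iff.2 hx1'
    have py1 : 0 < w (y - 1) := InfinitePlace.pos_iff.2 hy1'
    have pz : 0 < w (x - y) := InfinitePlace.pos_iff.2 hz
    have hsub : ∀ s t : K, w (s - t) ≤ w s + w t := by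
      intro s t
      rw [← InfinitePlace.norm_embedding_eq w, ← InfinitePlace.norm_embedding_eq w,
        ← InfinitePlace.norm_embedding_eq w, map_sub]
      exact norm_sub_le _ _
    have hmax : ∀ {s t u : ℝ}, 0 < s → 0 < t → 0 < u → u ≤ s + t →
        Real.log u ≤ Real.log 2 + max (Real.log s) (Real.log t) := by
      intro s t u hs ht hu h
      rcases le_total s t with h1 | h1
      · rw [max_eq_right (Real.log_le_log hs h1), ← Real.log_mul (by norm_num) ht.ne']
        exact Real.log_le_log hu (by linarith)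
      · rw [max_eq_left (Real.log_le_log ht h1), ← Real.log_mul (by norm_num) hs.ne']
        exact Real.log_le_log hu (by linarith)
    have u2 : w (x - y) ≤ w (x - 1) + w (y - 1) := by
      have h := hsub (x - 1) (y - 1)
      rwa [sub_sub_sub_cancel_right] at h
    have u3 : ∀ t : K, (1 : ℝ) ≤ w t + w (t - 1) := by
      intro t
      have h := hsub t (t - 1)
      rwa [sub_sub_cancel, map_one] at h
    have e1 := hmax px py pz (hsub x y)
    have e2 := hmax px1 py1 pz u2
    have e3 := hmax px px1 one_pos (u3 x)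
    rw [Real.log_one] at e3
    have := ga_real hl2 e1 e2 (by linarith)
    have s1 := ga_abs_split (Real.log (w x)) (Real.log (w y))
    have s2 := ga_abs_le (Real.log (w (x - 1))) (Real.log (w (y - 1)))
    linarith
  -- sums
  have SF := Finset.sum_le_sum (s := B) fun v _ => F1 v
  simp only [Finset.sum_add_distrib, Finset.sum_sub_distrib, ← Finset.mul_sum] at SF
  have SI := Finset.sum_le_sum (s := (Finset.univ : Finset (InfinitePlace K))) fun w _ =>
    mul_le_mul_of_nonneg_left (I1 w) (Nat.cast_nonneg (α := ℝ) w.mult)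
  have SI' : 2 * ∑ w : InfinitePlace K, (w.mult : ℝ) * Real.log (w (x - y)) ≤
      ((∑ w : InfinitePlace K, (w.mult : ℝ) * max 0 (Real.log (w x))) +
        ∑ w : InfinitePlace K, (w.mult : ℝ) * max 0 (Real.log (w y))) -
      ((∑ w : InfinitePlace K, (w.mult : ℝ) * max 0 (-Real.log (w x))) +
        ∑ w : InfinitePlace K, (w.mult : ℝ) * max 0 (-Real.log (w y))) -
      ((∑ w : InfinitePlace K, (w.mult : ℝ) * max 0 (-Real.log (w (x - 1)))) +
        ∑ w : InfinitePlace K, (w.mult : ℝ) * max 0 (-Real.log (w (y - 1)))) +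
      (∑ w : InfinitePlace K, (w.mult : ℝ) * (|Real.log (w x) - Real.log (w y)| +
        |Real.log (w (x - 1)) - Real.log (w (y - 1))|)) + 4 * (dg K * Real.log 2) := by
    rw [hd, Finset.sum_mul, Finset.mul_sum, Finset.mul_sum]
    simp only [← Finset.sum_add_distrib, ← Finset.sum_sub_distrib]
    refine le_trans (le_of_eq ?_) (SI.trans (le_of_eq ?_))
    · refine Finset.sum_congr rfl fun w _ => ?_
      ring
    · refine Finset.sum_congr rfl fun w _ => ?_
      ring
  -- the finite differences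
  have D1 : ∑ v ∈ B, gaD (Real.log (FinitePlace.mk v x)) (Real.log (FinitePlace.mk v (x - 1)))
        (Real.log (FinitePlace.mk v y)) (Real.log (FinitePlace.mk v (y - 1))) ≤
      ∑ v ∈ P, |ms x v - ms y v| + (∑ v ∈ fs x \ P, ms x v + ∑ v ∈ fs y \ P, ms y v) := by
    rw [← Finset.sum_filter_add_sum_filter_not B (fun v => v ∈ P)]
    refine add_le_add ?_ ?_
    · refine (Finset.sum_le_sum fun v hv => ?_).trans
        (Finset.sum_le_sum_of_subset_of_nonneg (t := P) (f := fun v => |ms x v - ms y v|)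
          (fun v hv => (Finset.mem_filter.1 hv).2) fun v _ _ => abs_nonneg _)
      exact ((ga_fin hx hx1 hy hy1 v).2 (hP v (Finset.mem_filter.1 hv).2)).le
    · have hms : ∀ t : K, t ≠ 0 → t ≠ 1 →
          ∑ v ∈ B.filter (fun v => v ∉ P), ms t v ≤ ∑ v ∈ fs t \ P, ms t v := by
        intro t ht ht1
        rw [← Finset.sum_filter_add_sum_filter_not (B.filter (fun v => v ∉ P))
          (fun v => v ∈ fs t)]
        have h0 : ∑ v ∈ (B.filter (fun v => v ∉ P)).filter (fun v => v ∉ fs t), ms t v = 0 :=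
          Finset.sum_eq_zero fun v hv => ga_ms_zero ht ht1 (Finset.mem_filter.1 hv).2
        rw [h0, add_zero]
        refine Finset.sum_le_sum_of_subset_of_nonneg ?_ fun v _ _ => ms_nonneg t v
        intro v hv
        rw [Finset.mem_filter, Finset.mem_filter] at hv
        exact Finset.mem_sdiff.2 ⟨hv.2, hv.1.2⟩
      refine (Finset.sum_le_sum fun v _ => (ga_fin hx hx1 hy hy1 v).1).trans ?_
      rw [Finset.sum_add_distrib]
      exact add_le_add (hms x hx hx1) (hms y hy hy1)
  linarith

end Pool.Agent.FPL
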