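import Pool.Agent.FPL.RelTrick3
import Pool.Agent.FPL.GapA
import Pool.Agent.FPL.ShapeCol

/-!
# CellB3 (size 4): as CellB2, only `n ∣ mlt x v`; the colour contains `⌊16 ms x v / (δ H)⌋`

`c` from `rel_trick3 K`, `C1, Bc` from `shape_col K (δ/16)`, `C = C1 + 16 d log 2 / δ + 1`. Let `P = T ∪ C'`, `f : K → Fin M` the colouring for `H`, `P` (`M ≤ C1 Bc ^ (T.card + C'.card)`). Claim: every colour
class `S'` of `S` has fewer than `N` elements; then `S.card ≤ M N`. Otherwise choose `N` different elements `x_i ∈ S'` (`i : Fin N`), `v_i` as in the hypothesis. The `v_i` are different: if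
`v_i = v_j` then `gapA` with `insert v_i P`, `η = δ / 2`: `fs x \ insert v_i P ⊆ (fs x).filter (prt = 1) \ C'`, mass `≤ (1 - δ) hgt x ≤ (1 - δ)(1 + δ/2) H ≤ (1 - δ/2) H`;
`|ms (x_i) u - ms (x_j) u|` is `0` at `u = v_i` (both `n ln u`) and the sum over `P` is `≤ δ H / 16` (each term times `P.card` is `≤ δ H / 16`), the parts agree (`prt = 0` at `v_i`), the archimedean sum is
`≤ δ H / 16` (`∑ mult = d`, `InfinitePlace.sum_mult_eq`), `6 d log 2 < δ/2 H`: so `x_i = x_j`.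
Let `x0 = x_i` for `i = 0`, `Vf = C'`, `m u = max 0 (ms x0 u - δ H / (16 P.card))`, `ℓ w = max 0 (-log w (x0 - 1) - δ H / (16 d))`. For `u ∈ C'` all `prt (x_i) u = 1`, so `ord u (x_i) = 0`,
`mk u (x_i - 1) = exp (-ms (x_i) u)` (`mlt_one`, `log_mk`; `x_i ≠ 1`), `ms (x_i) u ≥ ms x0 u - δ H / (16 P.card)` and `≥ 0`. For `ℓ w > 0`: `log w (x_i - 1) ≤ log w (x0 - 1) + δ H / (16 d) = -ℓ w`.
`∑_{C'} m ≥ ∑_{C'} ms x0 - δ H / 16`, `∑ mult ℓ ≥ ∑ mult max 0 (-log w (x0-1)) - δ H / 16`; by `ones_ge` and the mass condition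
`∑_{C'} ms x0 + ∑ mult max 0 (..) ≥ hgt x0 - d log 2 - (1 - δ) hgt x0 ≥ δ H - d log 2`, so the sum of all is `≥ 7/8 δ H - d log 2 ≥ 3/4 δ H > δ H / 4`. For `u ∉ T`, `u ≠ v_i`: `u ∉ fs (x_i)` or
`prt (x_i) u = 1`, so `ord u (x_i) = 0`. `ord (v_i) (x_i) = n` (`mlt_zero`). `hgt (x_i) ≤ 2 H`. `rel_trick3` gives `False`.
-/

namespace Pool.Agent.FPL

open NumberField IsDedekindDomain Pool.Agent.H7.Abc Pool.Agent.AbcE Pool.Agent.AbcF Pool.Agent.TMS
  Pool.Agent.TM2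

/-- a sum of terms which are at most `E / card` -/
private theorem cb3_sum_le {α : Type*} (P : Finset α) (a : α → ℝ) (E : ℝ) (hE : 0 ≤ E)
    (h : ∀ v ∈ P, a v * (P.card : ℝ) ≤ E) : ∑ v ∈ P, a v ≤ E := by
  rcases P.eq_empty_or_nonempty with h0 | h0
  · subst h0
    simpa using hE
  · have hc : (0 : ℝ) < P.card := by exact_mod_cast h0.card_pos
    have h1 : (∑ v ∈ P, a v) * (P.card : ℝ) ≤ E * P.card := by
      rw [Finset.sum_mul]
      calc ∑ v ∈ P, a v * (P.card : ℝ) ≤ ∑ _v ∈ P, E := Finset.sum_le_sum h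
        _ = E * P.card := by rw [Finset.sum_const, nsmul_eq_mul, mul_comm]
    exact le_of_mul_le_mul_right h1 hc

/-- `∑ mult = d` -/
private theorem cb3_sum_mult (K : Type*) [Field K] [NumberField K] :
    ∑ w : InfinitePlace K, (w.mult : ℝ) = dg K := by
  unfold dg
  rw [← InfinitePlace.sum_mult_eq]
  push_cast
  rfl

/-- a weighted sum over the infinite places -/
private theorem cb3_arch_le {K : Type*} [Field K] [NumberField K] (a : InfinitePlace K → ℝ) (E : ℝ)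
    (h : ∀ w, a w * dg K ≤ E) : ∑ w : InfinitePlace K, (w.mult : ℝ) * a w ≤ E := by
  have hd : 0 < dg K := lt_of_lt_of_le one_pos (one_le_dg K)
  have h1 : (∑ w : InfinitePlace K, (w.mult : ℝ) * a w) * dg K ≤ E * dg K := by
    rw [Finset.sum_mul]
    calc ∑ w : InfinitePlace K, (w.mult : ℝ) * a w * dg K
        ≤ ∑ w : InfinitePlace K, (w.mult : ℝ) * E := by
          refine Finset.sum_le_sum fun w _ => ?_
          rw [mul_assoc]
          exact mul_le_mul_of_nonneg_left (h w) (Nat.cast_nonneg _)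
      _ = E * dg K := by rw [← Finset.sum_mul, cb3_sum_mult, mul_comm]
  exact le_of_mul_le_mul_right h1 hd

open Classical in
/-- two elements of a class with the same `v` are equal -/
private theorem cb3_eq {K : Type*} [Field K] [NumberField K] {δ : ℝ} (hδ : 0 < δ) (hδ1 : δ ≤ 1 / 2)
    {T C' : Finset (HeightOneSpectrum (𝓞 K))} {H : ℝ} (hH0 : 0 < H)
    (hHd : dg K * Real.log 2 ≤ δ * H / 16) {x y : K} {v : HeightOneSpectrum (𝓞 K)}
    (hx0 : x ≠ 0) (hx1 : x ≠ 1) (hxH : H ≤ hgt x) (hxH' : hgt x ≤ (1 + δ / 2) * H)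
    (hxC : C' ⊆ (fs x).filter (fun u => prt x u = 1))
    (hxm : ∑ u ∈ (fs x).filter (fun u => prt x u = 1) \ C', ms x u ≤ (1 - δ) * hgt x)
    (hy0 : y ≠ 0) (hy1 : y ≠ 1) (hyH : H ≤ hgt y) (hyH' : hgt y ≤ (1 + δ / 2) * H)
    (hym : ∑ u ∈ (fs y).filter (fun u => prt y u = 1) \ C', ms y u ≤ (1 - δ) * hgt y)
    (hvT : v ∉ T) (hxT : (fs x).filter (fun u => prt x u ≠ 1) = insert v T)
    (hxv : prt x v = 0) (hvm : |ms x v - ms y v| ≤ δ / 16 * H)
    (hyT : (fs y).filter (fun u => prt y u ≠ 1) = insert v T)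
    (hyv : prt y v = 0)
    (hpr : ∀ u ∈ T ∪ C', prt x u = prt y u)
    (hms : ∀ u ∈ T ∪ C', |ms x u - ms y u| * ((T ∪ C').card : ℝ) ≤ δ / 16 * H)
    (har : ∀ w : InfinitePlace K, (|Real.log (w x) - Real.log (w y)| +
      |Real.log (w (x - 1)) - Real.log (w (y - 1))|) * dg K ≤ δ / 16 * H) : x = y := by
  have hδH : 0 < δ * H := mul_pos hδ hH0
  have hvP : v ∉ T ∪ C' := by
    intro h
    rcases Finset.mem_union.1 h with h | h
    · exact hvT h
    · have h1 := (Finset.mem_filter.1 (hxC h)).2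
      rw [hxv] at h1
      exact absurd h1 (by decide)
  have hsub : ∀ z : K, (fs z).filter (fun u => prt z u ≠ 1) = insert v T →
      fs z \ insert v (T ∪ C') ⊆ (fs z).filter (fun u => prt z u = 1) \ C' := by
    intro z hz u hu
    obtain ⟨hu1, hu2⟩ := Finset.mem_sdiff.1 hu
    have hu3 : u ∉ insert v T := by
      intro h
      apply hu2
      rcases Finset.mem_insert.1 h with h | h
      · exact Finset.mem_insert.2 (Or.inl h)
      · exact Finset.mem_insert.2 (Or.inr (Finset.mem_union.2 (Or.inl h)))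
    have hu4 : u ∉ C' := by
      intro h
      exact hu2 (Finset.mem_insert.2 (Or.inr (Finset.mem_union.2 (Or.inr h))))
    refine Finset.mem_sdiff.2 ⟨Finset.mem_filter.2 ⟨hu1, ?_⟩, hu4⟩
    by_contra hne
    apply hu3
    rw [← hz]
    exact Finset.mem_filter.2 ⟨hu1, hne⟩
  have hD : ∀ z : K, (fs z).filter (fun u => prt z u ≠ 1) = insert v T →
      hgt z ≤ (1 + δ / 2) * H →
      ∑ u ∈ (fs z).filter (fun u => prt z u = 1) \ C', ms z u ≤ (1 - δ) * hgt z →
      ∑ u ∈ fs z \ insert v (T ∪ C'), ms z u ≤ (1 - δ / 2) * H := by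
    intro z hz hzH hzm
    have h1 : ∑ u ∈ fs z \ insert v (T ∪ C'), ms z u ≤
        ∑ u ∈ (fs z).filter (fun u => prt z u = 1) \ C', ms z u :=
      Finset.sum_le_sum_of_subset_of_nonneg (hsub z hz) fun u _ _ => ms_nonneg z u
    have h2 : (1 - δ) * hgt z ≤ (1 - δ) * ((1 + δ / 2) * H) :=
      mul_le_mul_of_nonneg_left hzH (by linarith)
    have h3 : (1 - δ) * ((1 + δ / 2) * H) ≤ (1 - δ / 2) * H := by
      nlinarith [mul_pos hδ hδH]
    linarith
  refine gapA hx0 hx1 hy0 hy1 (insert v (T ∪ C')) H (δ / 2) hxH hyH ?_ (hD x hxT hxH' hxm)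
    (hD y hyT hyH' hym) ?_ ?_ ?_
  · intro u hu
    rcases Finset.mem_insert.1 hu with h | h
    · rw [h, hxv, hyv]
    · exact hpr u h
  · rw [Finset.sum_insert hvP]
    have h2 : ∑ u ∈ T ∪ C', |ms x u - ms y u| ≤ δ / 16 * H :=
      cb3_sum_le _ _ _ (by positivity) hms
    nlinarith
  · have h2 := cb3_arch_le (fun w : InfinitePlace K => (|Real.log (w x) - Real.log (w y)| +
      |Real.log (w (x - 1)) - Real.log (w (y - 1))|)) (δ / 16 * H) har
    refine le_trans h2 ?_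
    nlinarith
  · nlinarith

open Classical in
/-- the masses of the chosen part of the ones -/
private theorem cb3_mass {K : Type*} [Field K] [NumberField K] {δ : ℝ} (hδ : 0 < δ)
    {P C' : Finset (HeightOneSpectrum (𝓞 K))} {H : ℝ} (hH0 : 0 < H)
    (hHd : dg K * Real.log 2 ≤ δ * H / 16) {x : K} (hCP : C' ⊆ P)
    (hx0 : x ≠ 0) (hx1 : x ≠ 1) (hxH : H ≤ hgt x)
    (hxC : C' ⊆ (fs x).filter (fun u => prt x u = 1))
    (hxm : ∑ u ∈ (fs x).filter (fun u => prt x u = 1) \ C', ms x u ≤ (1 - δ) * hgt x) :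
    δ * H / 4 < ∑ u ∈ C', max 0 (ms x u - δ * H / (16 * P.card)) +
      ∑ w : InfinitePlace K, (w.mult : ℝ) *
        max 0 (-Real.log (w (x - 1)) - δ * H / (16 * dg K)) := by
  have hδH : 0 < δ * H := mul_pos hδ hH0
  have hd : 0 < dg K := lt_of_lt_of_le one_pos (one_le_dg K)
  have h1 := ones_ge hx0 hx1
  have h2 : ∑ u ∈ (fs x).filter (fun u => prt x u = 1), ms x u =
      ∑ u ∈ (fs x).filter (fun u => prt x u = 1) \ C', ms x u + ∑ u ∈ C', ms x u :=
    (Finset.sum_sdiff hxC).symm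
  have h3 : ∑ u ∈ C', ms x u - δ * H / 16 ≤
      ∑ u ∈ C', max 0 (ms x u - δ * H / (16 * P.card)) := by
    have h4 : ∑ u ∈ C', (δ * H / (16 * P.card)) ≤ δ * H / 16 := by
      refine cb3_sum_le C' _ _ (by positivity) ?_
      intro u hu
      have hPc : (0 : ℝ) < P.card := by
        exact_mod_cast Finset.card_pos.2 ⟨u, hCP hu⟩
      have hCc : (C'.card : ℝ) ≤ P.card := by exact_mod_cast Finset.card_le_card hCP
      have h5 : δ * H / (16 * P.card) * (C'.card : ℝ) ≤ δ * H / (16 * P.card) * P.card :=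
        mul_le_mul_of_nonneg_left hCc (by positivity)
      refine le_trans h5 (le_of_eq ?_)
      field_simp
    have h6 : ∑ u ∈ C', (ms x u - δ * H / (16 * P.card)) ≤
        ∑ u ∈ C', max 0 (ms x u - δ * H / (16 * P.card)) :=
      Finset.sum_le_sum fun u _ => le_max_right _ _
    rw [Finset.sum_sub_distrib] at h6
    linarith
  have h7 : ∑ w : InfinitePlace K, (w.mult : ℝ) * max 0 (-Real.log (w (x - 1))) - δ * H / 16 ≤
      ∑ w : InfinitePlace K, (w.mult : ℝ) *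
        max 0 (-Real.log (w (x - 1)) - δ * H / (16 * dg K)) := by
    have h8 : ∑ w : InfinitePlace K, (w.mult : ℝ) *
        (max 0 (-Real.log (w (x - 1))) - δ * H / (16 * dg K)) ≤
        ∑ w : InfinitePlace K, (w.mult : ℝ) *
        max 0 (-Real.log (w (x - 1)) - δ * H / (16 * dg K)) := by
      refine Finset.sum_le_sum fun w _ => mul_le_mul_of_nonneg_left ?_ (Nat.cast_nonneg _)
      have h9 : 0 ≤ δ * H / (16 * dg K) := by positivity
      rcases le_total 0 (-Real.log (w (x - 1))) with h | h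
      · rw [max_eq_right h]
        exact le_max_right _ _
      · rw [max_eq_left h]
        refine le_trans ?_ (le_max_left _ _)
        linarith
    have h10 : ∑ w : InfinitePlace K, (w.mult : ℝ) *
        (max 0 (-Real.log (w (x - 1))) - δ * H / (16 * dg K)) =
        ∑ w : InfinitePlace K, (w.mult : ℝ) * max 0 (-Real.log (w (x - 1))) - δ * H / 16 := by
      have h11 : ∀ w : InfinitePlace K, (w.mult : ℝ) *
          (max 0 (-Real.log (w (x - 1))) - δ * H / (16 * dg K)) =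
          (w.mult : ℝ) * max 0 (-Real.log (w (x - 1))) - (w.mult : ℝ) * (δ * H / (16 * dg K)) :=
        fun w => by ring
      rw [Finset.sum_congr rfl fun w _ => h11 w, Finset.sum_sub_distrib, ← Finset.sum_mul,
        cb3_sum_mult]
      congr 1
      field_simp
    linarith
  have h12 : δ * H ≤ δ * hgt x := mul_le_mul_of_nonneg_left hxH hδ.le
  nlinarith

/-- the colour of the mass at the dropped place -/
private theorem cb3_col {δ H : ℝ} (hδ : 0 < δ) (hH : 0 < H) :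
    ∃ (G : ℕ) (c : ℝ → Fin G), (G : ℝ) ≤ 48 / δ + 1 ∧ ∀ a b : ℝ, 0 ≤ a → a ≤ 3 * H → 0 ≤ b →
      b ≤ 3 * H → c a = c b → |a - b| ≤ δ / 16 * H := by
  have hδH : 0 < δ * H := mul_pos hδ hH
  set G : ℕ := ⌊(48 : ℝ) / δ⌋₊ + 1 with hG
  refine ⟨G, fun a => Fin.ofNat G ⌊a * 16 / (δ * H)⌋₊, ?_, ?_⟩
  · rw [hG]
    push_cast
    have := Nat.floor_le (a := (48 : ℝ) / δ) (by positivity)
    linarith
  have hlt : ∀ a : ℝ, a ≤ 3 * H → ⌊a * 16 / (δ * H)⌋₊ < G := by
    intro a ha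
    rw [hG, Nat.lt_succ_iff]
    refine Nat.floor_le_floor ?_
    rw [div_le_div_iff₀ hδH hδ]
    have := mul_le_mul_of_nonneg_right ha hδ.le
    linarith
  intro a b ha ha3 hb hb3 hab
  have h1 : ⌊a * 16 / (δ * H)⌋₊ = ⌊b * 16 / (δ * H)⌋₊ := by
    have h2 := congrArg Fin.val hab
    simp only [Fin.ofNat] at h2
    rwa [Nat.mod_eq_of_lt (hlt a ha3), Nat.mod_eq_of_lt (hlt b hb3)] at h2
  have h3 := Nat.floor_le (a := a * 16 / (δ * H)) (by positivity)
  have h4 := Nat.lt_floor_add_one (a * 16 / (δ * H))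
  have h5 := Nat.floor_le (a := b * 16 / (δ * H)) (by positivity)
  have h6 := Nat.lt_floor_add_one (b * 16 / (δ * H))
  rw [h1] at h3 h4
  have h7 : |a * 16 / (δ * H) - b * 16 / (δ * H)| ≤ 1 := by
    rw [abs_le]
    constructor <;> linarith
  have h8 : a * 16 / (δ * H) - b * 16 / (δ * H) = (a - b) * (16 / (δ * H)) := by ring
  rw [h8, abs_mul, abs_of_pos (by positivity : (0 : ℝ) < 16 / (δ * H)), mul_div_assoc',
    div_le_one hδH] at h7
  linarith

open Classical in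
/-- a set of elements of the same colour has at most `N` elements -/
private theorem cb3_fib {K : Type*} [Field K] [NumberField K] {δ : ℝ} (hδ : 0 < δ)
    (hδ1 : δ ≤ 1 / 2) {c : ℕ} (hrel :
    ∀ (T Vf : Finset (HeightOneSpectrum (𝓞 K))) (n N B : ℕ) (H : ℝ) (x : Fin N → K)
      (v : Fin N → HeightOneSpectrum (𝓞 K)) (m : HeightOneSpectrum (𝓞 K) → ℝ)
      (ℓ : InfinitePlace K → ℝ), 1 ≤ n → 1 ≤ N → 1 ≤ B → Function.Injective v →
      (∀ i, v i ∉ T) →
      (∀ i, x i ≠ 0 ∧ hgt (x i) ≤ 2 * H ∧ ord (v i) (x i) ≠ 0 ∧ (n : ℤ) ∣ ord (v i) (x i) ∧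
        ∀ u, u ∉ T → u ≠ v i → ord u (x i) = 0) →
      (∀ u ∈ Vf, 0 ≤ m u ∧ ∀ i, FinitePlace.mk u (x i - 1) ≤ Real.exp (-m u) ∧
        ord u (x i) = 0) →
      (∀ w, 0 ≤ ℓ w ∧ (0 < ℓ w → ∀ i, w (x i - 1) ≤ Real.exp (-ℓ w))) →
      (c : ℝ) * (n : ℝ) ^ (T.card + c) * Real.exp ((dg K + 1) * LN Vf) < ((B : ℝ) + 1) ^ N →
      dg K * Real.log (8 * n * N * B) + 2 * N * B * H / n <
        ∑ u ∈ Vf, m u + ∑ w : InfinitePlace K, (w.mult : ℝ) * ℓ w → False)
    (T C' : Finset (HeightOneSpectrum (𝓞 K))) (n N b : ℕ) {H : ℝ} (hH0 : 0 < H)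
    (hHd : dg K * Real.log 2 ≤ δ * H / 16) (hn : 1 ≤ n) (hN : 1 ≤ N) (hb : 1 ≤ b)
    (hbig : (c : ℝ) * (n : ℝ) ^ (T.card + c) * Real.exp ((dg K + 1) * LN C') <
      ((b : ℝ) + 1) ^ N)
    (hsmall : dg K * Real.log (8 * n * N * b) + 2 * N * b * H / n ≤ δ * H / 4)
    (S : Finset K) (V : K → HeightOneSpectrum (𝓞 K))
    (hS : ∀ x ∈ S, x ≠ 0 ∧ x ≠ 1 ∧ H ≤ hgt x ∧ hgt x ≤ (1 + δ / 2) * H ∧
        C' ⊆ (fs x).filter (fun u => prt x u = 1) ∧
        ∑ u ∈ (fs x).filter (fun u => prt x u = 1) \ C', ms x u ≤ (1 - δ) * hgt x ∧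
        V x ∉ T ∧ (fs x).filter (fun u => prt x u ≠ 1) = insert (V x) T ∧ prt x (V x) = 0 ∧
          n ∣ mlt x (V x))
    (hpair : ∀ x ∈ S, ∀ y ∈ S, (∀ u ∈ T ∪ C', prt x u = prt y u) ∧
        (∀ u ∈ T ∪ C', |ms x u - ms y u| * ((T ∪ C').card : ℝ) ≤ δ / 16 * H) ∧
        (∀ w : InfinitePlace K, (|Real.log (w x) - Real.log (w y)| +
          |Real.log (w (x - 1)) - Real.log (w (y - 1))|) * dg K ≤ δ / 16 * H) ∧
        |ms x (V x) - ms y (V y)| ≤ δ / 16 * H) : S.card ≤ N := by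
  have hd : 0 < dg K := lt_of_lt_of_le one_pos (one_le_dg K)
  by_contra hcon
  push Not at hcon
  have hcard : Fintype.card (Fin N) ≤ Fintype.card {x // x ∈ S} := by
    rw [Fintype.card_fin, Fintype.card_coe]
    exact hcon.le
  obtain ⟨g⟩ := Function.Embedding.nonempty_of_card_le hcard
  obtain ⟨x, hxinj, hxS⟩ : ∃ x : Fin N → K, Function.Injective x ∧ ∀ i, x i ∈ S :=
    ⟨fun i => (g i).1, fun i j hij => g.injective (Subtype.ext hij), fun i => (g i).2⟩
  have hx0 : ∀ i, x i ≠ 0 := fun i => (hS _ (hxS i)).1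
  have hx1 : ∀ i, x i ≠ 1 := fun i => (hS _ (hxS i)).2.1
  have hxH : ∀ i, H ≤ hgt (x i) := fun i => (hS _ (hxS i)).2.2.1
  have hxH' : ∀ i, hgt (x i) ≤ (1 + δ / 2) * H := fun i => (hS _ (hxS i)).2.2.2.1
  have hxC : ∀ i, C' ⊆ (fs (x i)).filter (fun u => prt (x i) u = 1) :=
    fun i => (hS _ (hxS i)).2.2.2.2.1
  have hxm := fun i => (hS _ (hxS i)).2.2.2.2.2.1
  have hvT : ∀ i, V (x i) ∉ T := fun i => (hS _ (hxS i)).2.2.2.2.2.2.1
  have hvf : ∀ i, (fs (x i)).filter (fun u => prt (x i) u ≠ 1) = insert (V (x i)) T :=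
    fun i => (hS _ (hxS i)).2.2.2.2.2.2.2.1
  have hv0 : ∀ i, prt (x i) (V (x i)) = 0 := fun i => (hS _ (hxS i)).2.2.2.2.2.2.2.2.1
  have hvn : ∀ i, n ∣ mlt (x i) (V (x i)) := fun i => (hS _ (hxS i)).2.2.2.2.2.2.2.2.2
  have hxH2 : ∀ i, hgt (x i) ≤ 2 * H := by
    intro i
    refine le_trans (hxH' i) ?_
    nlinarith
  have hvinj : Function.Injective (fun i => V (x i)) := by
    intro i j hij
    apply hxinj
    have hij' : V (x i) = V (x j) := hij
    obtain ⟨s1, s2, s3, s4⟩ := hpair _ (hxS i) _ (hxS j)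
    have e1 := hvf j
    rw [← hij'] at e1
    have e2 := hv0 j
    rw [← hij'] at e2
    rw [← hij'] at s4
    exact cb3_eq hδ hδ1 hH0 hHd (hx0 i) (hx1 i) (hxH i) (hxH' i) (hxC i) (hxm i) (hx0 j)
      (hx1 j) (hxH j) (hxH' j) (hxm j) (hvT i) (hvf i) (hv0 i) s4 e1 e2 s1 s2 s3
  set i0 : Fin N := ⟨0, hN⟩ with hi0
  have hCP : C' ⊆ T ∪ C' := Finset.subset_union_right
  refine hrel T C' n N b H x (fun i => V (x i))
    (fun u => max 0 (ms (x i0) u - δ * H / (16 * (T ∪ C').card)))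
    (fun w => max 0 (-Real.log (w (x i0 - 1)) - δ * H / (16 * dg K)))
    hn hN hb hvinj hvT ?_ ?_ ?_ hbig ?_
  · intro i
    refine ⟨hx0 i, hxH2 i, (prt_eq_zero.1 (hv0 i)).ne', ?_, ?_⟩
    · rw [← (mlt_zero (hx0 i) (hx1 i) (hv0 i)).1]
      exact_mod_cast hvn i
    · intro u huT huv
      by_contra hne
      have h1 : u ∈ (fs (x i)).filter (fun u => prt (x i) u ≠ 1) := by
        refine Finset.mem_filter.2 ⟨(mem_fs (hx0 i) (hx1 i)).2 (Or.inl hne), ?_⟩
        intro h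
        exact hne (prt_eq_one.1 h)
      rw [hvf i] at h1
      rcases Finset.mem_insert.1 h1 with h | h
      · exact huv h
      · exact huT h
  · intro u hu
    refine ⟨le_max_left _ _, ?_⟩
    intro i
    have hp : prt (x i) u = 1 := (Finset.mem_filter.1 (hxC i hu)).2
    obtain ⟨m1, m2⟩ := mlt_one (hx0 i) (hx1 i) hp
    refine ⟨?_, m2⟩
    have hne : x i - 1 ≠ 0 := sub_ne_zero.2 (hx1 i)
    have hpos : 0 < FinitePlace.mk u (x i - 1) := by
      rw [mk_eq_zpow u hne]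
      exact zpow_pos (lt_trans one_pos (one_lt_norm u)) _
    rw [← Real.log_le_iff_le_exp hpos, log_mk u hne]
    have hms : ms (x i) u = (ord u (x i - 1) : ℝ) *
        Real.log (Ideal.absNorm u.asIdeal : ℝ) := by
      unfold ms ln
      rw [← m1]
      push_cast
      rfl
    have h1 : ms (x i0) u - δ * H / (16 * (T ∪ C').card) ≤ ms (x i) u := by
      have h2 := (hpair _ (hxS i0) _ (hxS i)).2.1 u (hCP hu)
      have hPc : (0 : ℝ) < ((T ∪ C').card : ℝ) := by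
        exact_mod_cast Finset.card_pos.2 ⟨u, hCP hu⟩
      rw [← le_div_iff₀ hPc] at h2
      have h3 := (abs_le.1 h2).2
      have h4 : δ / 16 * H / ((T ∪ C').card : ℝ) = δ * H / (16 * (T ∪ C').card) := by
        rw [div_mul_eq_mul_div, div_div]
      linarith
    have h5 : max 0 (ms (x i0) u - δ * H / (16 * (T ∪ C').card)) ≤ ms (x i) u :=
      max_le (ms_nonneg _ _) h1
    have h6 : -(ord u (x i - 1) : ℝ) * Real.log (Ideal.absNorm u.asIdeal : ℝ) =
        -ms (x i) u := by rw [hms]; ring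
    rw [h6]
    linarith
  · intro w
    refine ⟨le_max_left _ _, ?_⟩
    intro hw i
    have hne : x i - 1 ≠ 0 := sub_ne_zero.2 (hx1 i)
    have hpos : 0 < w (x i - 1) := InfinitePlace.pos_iff.2 hne
    rw [← Real.log_le_iff_le_exp hpos]
    have h1 : 0 < -Real.log (w (x i0 - 1)) - δ * H / (16 * dg K) := by
      rcases lt_max_iff.1 hw with h | h
      · exact absurd h (lt_irrefl _)
      · exact h
    rw [max_eq_right h1.le]
    have h2 := (hpair _ (hxS i0) _ (hxS i)).2.2.1 w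
    have h3 : |Real.log (w (x i0 - 1)) - Real.log (w (x i - 1))| * dg K ≤ δ / 16 * H := by
      refine le_trans (mul_le_mul_of_nonneg_right ?_ hd.le) h2
      have := abs_nonneg (Real.log (w (x i0)) - Real.log (w (x i)))
      linarith
    rw [← le_div_iff₀ hd] at h3
    have h4 := (abs_le.1 h3).1
    have h5 : δ / 16 * H / dg K = δ * H / (16 * dg K) := by
      rw [div_mul_eq_mul_div, div_div]
    linarith
  · refine lt_of_le_of_lt hsmall ?_
    exact cb3_mass hδ hH0 hHd hCP (hx0 i0) (hx1 i0) (hxH i0) (hxC i0) (hxm i0)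

open Classical in
theorem cellB3 (K : Type*) [Field K] [NumberField K] (δ : ℝ) (hδ : 0 < δ) (hδ1 : δ ≤ 1 / 2) :
    ∃ (c : ℕ) (C Bc : ℝ), 1 ≤ C ∧ 1 ≤ Bc ∧
    ∀ (T C' : Finset (HeightOneSpectrum (𝓞 K))) (n N b : ℕ) (H : ℝ), C ≤ H → 1 ≤ n → 1 ≤ N →
      1 ≤ b →
      (c : ℝ) * (n : ℝ) ^ (T.card + c) * Real.exp ((dg K + 1) * LN C') < ((b : ℝ) + 1) ^ N →
      dg K * Real.log (8 * n * N * b) + 2 * N * b * H / n ≤ δ * H / 4 →
      ∀ S : Finset K, (∀ x ∈ S, x ≠ 0 ∧ x ≠ 1 ∧ H ≤ hgt x ∧ hgt x ≤ (1 + δ / 2) * H ∧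
        C' ⊆ (fs x).filter (fun u => prt x u = 1) ∧
        ∑ u ∈ (fs x).filter (fun u => prt x u = 1) \ C', ms x u ≤ (1 - δ) * hgt x ∧
        ∃ v, v ∉ T ∧ (fs x).filter (fun u => prt x u ≠ 1) = insert v T ∧ prt x v = 0 ∧
          n ∣ mlt x v) →
      (S.card : ℝ) ≤ C * Bc ^ (T.card + C'.card) * N := by
  obtain ⟨c, hrel⟩ := rel_trick3 K
  obtain ⟨C1, Bc, hC1, hBc, hshape⟩ := shape_col K (δ / 16) (by positivity) (by linarith)
  have hlog2 : 0 < Real.log 2 := Real.log_pos (by norm_num)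
  have hd : 0 < dg K := lt_of_lt_of_le one_pos (one_le_dg K)
  have hA : 0 ≤ 16 * (dg K * Real.log 2) / δ := by positivity
  have hDδ : (0 : ℝ) ≤ 48 / δ := by positivity
  have hC1D : C1 ≤ C1 * (48 / δ + 1) := le_mul_of_one_le_right (by linarith) (by linarith)
  refine ⟨c, C1 * (48 / δ + 1) + 16 * (dg K * Real.log 2) / δ + 1, Bc, by linarith, hBc, ?_⟩
  intro T C' n N b H hCH hn hN hb hbig hsmall S hS
  have hH0 : 0 < H := by linarith
  have hHd : dg K * Real.log 2 ≤ δ * H / 16 := by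
    have h1 : 16 * (dg K * Real.log 2) / δ ≤ H := by linarith
    rw [div_le_iff₀ hδ] at h1
    linarith
  have hBpos : 0 ≤ Bc ^ (T.card + C'.card) := by positivity
  have hCpos : 0 ≤ C1 * (48 / δ + 1) + 16 * (dg K * Real.log 2) / δ + 1 := by linarith
  rcases S.eq_empty_or_nonempty with hSe | ⟨xS, hxS'⟩
  · rw [hSe, Finset.card_empty, Nat.cast_zero]
    exact mul_nonneg (mul_nonneg hCpos hBpos) (Nat.cast_nonneg _)
  obtain ⟨M, f, hM, hf⟩ := hshape H (by linarith) (T ∪ C')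
  obtain ⟨G, cG, hG, hcG⟩ := cb3_col hδ hH0
  have hne : Nonempty (HeightOneSpectrum (𝓞 K)) :=
    let ⟨v, _⟩ := (hS xS hxS').2.2.2.2.2.2
    ⟨v⟩
  have hVex : ∀ x : K, x ∈ S → ∃ v, v ∉ T ∧
      (fs x).filter (fun u => prt x u ≠ 1) = insert v T ∧ prt x v = 0 ∧ n ∣ mlt x v :=
    fun x hx => (hS x hx).2.2.2.2.2.2
  choose! V hV using hVex
  -- every fibre has at most `N` elements
  have hfib : ∀ a : Fin M × Fin G,
      (S.filter (fun x => (f x, cG (ms x (V x))) = a)).card ≤ N := by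
    intro a
    refine cb3_fib hδ hδ1 hrel T C' n N b hH0 hHd hn hN hb hbig hsmall _ V ?_ ?_
    · intro x hx
      have hxS := (Finset.mem_filter.1 hx).1
      obtain ⟨a1, a2, a3, a4, a5, a6, -⟩ := hS x hxS
      exact ⟨a1, a2, a3, a4, a5, a6, hV x hxS⟩
    · intro x hx y hy
      obtain ⟨hxS, hxa⟩ := Finset.mem_filter.1 hx
      obtain ⟨hyS, hya⟩ := Finset.mem_filter.1 hy
      obtain ⟨a1, a2, a3, a4, -⟩ := hS x hxS
      obtain ⟨b1, b2, b3, b4, -⟩ := hS y hyS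
      have e1 : f x = f y := congrArg Prod.fst (hxa.trans hya.symm)
      have e2 : cG (ms x (V x)) = cG (ms y (V y)) := congrArg Prod.snd (hxa.trans hya.symm)
      have hδH : δ * H ≤ 1 / 2 * H := mul_le_mul_of_nonneg_right hδ1 hH0.le
      have a5 : hgt x ≤ 2 * H := by linarith
      have b5 : hgt y ≤ 2 * H := by linarith
      obtain ⟨s1, s2, s3⟩ := hf x y a1 a2 b1 b2 a5 b5 e1
      refine ⟨s1, s2, s3, hcG _ _ (ms_nonneg _ _) ?_ (ms_nonneg _ _) ?_ e2⟩
      · have := ms_le a1 a2 (V x)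
        linarith
      · have := ms_le b1 b2 (V y)
        linarith
  have hcount : S.card ≤ M * G * N := by
    rw [Finset.card_eq_sum_card_fiberwise (f := fun x => (f x, cG (ms x (V x))))
      (t := Finset.univ) (fun x _ => Finset.mem_coe.2 (Finset.mem_univ _))]
    refine le_trans (Finset.sum_le_sum fun a _ => hfib a) ?_
    rw [Finset.sum_const, Finset.card_univ, Fintype.card_prod, Fintype.card_fin, Fintype.card_fin,
      smul_eq_mul]
  have hcount' : (S.card : ℝ) ≤ M * G * N := by exact_mod_cast hcount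
  refine le_trans hcount' (mul_le_mul_of_nonneg_right ?_ (Nat.cast_nonneg _))
  have hpow : Bc ^ (T ∪ C').card ≤ Bc ^ (T.card + C'.card) :=
    pow_le_pow_right₀ hBc (Finset.card_union_le _ _)
  have hMb : (M : ℝ) ≤ C1 * Bc ^ (T.card + C'.card) :=
    hM.trans (mul_le_mul_of_nonneg_left hpow (by linarith))
  calc (M : ℝ) * G ≤ C1 * Bc ^ (T.card + C'.card) * (48 / δ + 1) :=
        mul_le_mul hMb hG (Nat.cast_nonneg _) (mul_nonneg (by linarith) hBpos)
    _ = C1 * (48 / δ + 1) * Bc ^ (T.card + C'.card) := by ring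
    _ ≤ (C1 * (48 / δ + 1) + 16 * (dg K * Real.log 2) / δ + 1) * Bc ^ (T.card + C'.card) :=
        mul_le_mul_of_nonneg_right (by linarith) hBpos

end Pool.Agent.FPL
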