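import Pool.Agent.FPL.CoreO

/-!
# GraphO (size 5, pure)

`n = 𝒜.card`, `m = ℬ.card`, `L V = ∑ i ∈ V, lam i`, `e' = E.card * exp (-(δ R)) / 2`. If `e' ≤ 18 (n + m)`: clear. Otherwise (`E` nonempty) take `(S, F)` from `coreO`; `l, r` the cardinalities of the images, `Λ = l / n + r / m ≤ 2`; `deg a, deg b` the degrees in `F`: `≥ e' / n ≥ 18`, `≥ e' / m ≥ 18`; `F.card ≥ Λ e'`. Call `a` good if it is
not bad in the sense of the last statement of `coreO`: the edges at good `a` are at least `F.card / 2`.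
* For good `a1` and `b1` in its neighbourhood `N(a1)` (in `F`) at most `2 ^ k exp (-(δ t / 2)) deg a1 ≤ deg a1 / 8` of the `b2 ∈ N(a1)` have `L ((X b1 ∩ X b2) \ S) > t`: for each of the at most `2 ^ k` sets `V ⊆ X b1 \ S` with `L V > t` at most `exp (-(δ t / 2)) deg a1` of the `b2 ∈ N(a1)` contain `V`.
* Let `W4` be the number of the `(a, b1, a1, b2, a2)` with `(a, b1), (a1, b1), (a1, b2), (a2, b2) ∈ F`, `a1` good, `a1 ≠ a`, `b2 ≠ b1`, `a2 ≠ a1`, `L ((X b1 ∩ X b2) \ S) ≤ t`, not `Bad1`, not `Bad2`. Given the good `a1` and `b1 ∈ N(a1)`: `a`: `deg b1 - 1 ≥ (17/18) e' / m`; then `b2`: at least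
`deg a1 - 1 - deg a1 / 8 - 2 ≥ deg a1 / 2 ≥ e' / (2 n)`; then `a2`: at least `deg b2 - 1 - 8 ≥ deg b2 / 2 ≥ e' / (2 m)`. So `W4 ≥ (F.card / 2) (17/18) e' ^ 3 / (4 n m ^ 2) ≥ F.card e' ^ 3 / (9 n m ^ 2)`.
* Upper bound: `a, a2 ∈ F.image Prod.fst`: `l ^ 2` pairs; `O = X b1 ∩ X b2 ⊇ S`, `L (O \ S) ≤ t`: at most `N` sets `O` (`hNt` for the family of the `O \ S`); for each `(a, a2, O)` at most `M`: `W4 ≤ l ^ 2 N M ≤ (Λ n) ^ 2 N M`.
* So `Λ e' ^ 4 / (9 n m ^ 2) ≤ Λ ^ 2 n ^ 2 N M`, `e' ^ 4 ≤ 18 N M n ^ 3 m ^ 2 ≤ 18 N M U ^ 4 ≤ (3 N M U) ^ 4`, `e' ≤ 3 N M U`, `E.card = 2 exp (δ R) e'`.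
-/

namespace Pool.Agent.FPL

open Classical in
private theorem grapho_fiberA1 {α β : Type*} (ℬ : Finset β) (F : Finset (α × β)) (a : α)
    (hF : ∀ p ∈ F, p.2 ∈ ℬ) :
    (F.filter (fun p => p.1 = a)).card = (ℬ.filter (fun b => (a, b) ∈ F)).card := by
  refine Finset.card_bij (fun p _ => p.2) ?_ ?_ ?_
  · intro p hp
    have h := Finset.mem_filter.1 hp
    refine Finset.mem_filter.2 ⟨hF p h.1, ?_⟩
    rw [← h.2]
    exact h.1
  · intro p hp q hq hpq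
    have h1 := (Finset.mem_filter.1 hp).2
    have h2 := (Finset.mem_filter.1 hq).2
    exact Prod.ext (h1.trans h2.symm) hpq
  · intro b hb
    have h := (Finset.mem_filter.1 hb).2
    exact ⟨(a, b), Finset.mem_filter.2 ⟨h, rfl⟩, rfl⟩

open Classical in
private theorem grapho_fiberB1 {α β : Type*} (𝒜 : Finset α) (F : Finset (α × β)) (b : β)
    (hF : ∀ p ∈ F, p.1 ∈ 𝒜) :
    (F.filter (fun p => p.2 = b)).card = (𝒜.filter (fun a => (a, b) ∈ F)).card := by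
  refine Finset.card_bij (fun p _ => p.1) ?_ ?_ ?_
  · intro p hp
    have h := Finset.mem_filter.1 hp
    refine Finset.mem_filter.2 ⟨hF p h.1, ?_⟩
    rw [← h.2]
    exact h.1
  · intro p hp q hq hpq
    have h1 := (Finset.mem_filter.1 hp).2
    have h2 := (Finset.mem_filter.1 hq).2
    exact Prod.ext hpq (h1.trans h2.symm)
  · intro a ha
    have h := (Finset.mem_filter.1 ha).2
    exact ⟨(a, b), Finset.mem_filter.2 ⟨h, rfl⟩, rfl⟩

private theorem grapho_low {γ ζ : Type*} (T : Finset γ) (T' : Finset (γ × ζ)) (c : ℝ)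
    (h : ∀ t ∈ T, ∃ Z : Finset ζ, (∀ z ∈ Z, (t, z) ∈ T') ∧ c ≤ (Z.card : ℝ)) :
    (T.card : ℝ) * c ≤ (T'.card : ℝ) := by
  choose! Z hZ using h
  have h1 : (T.sigma (fun t => Z t)).card ≤ T'.card := by
    refine Finset.card_le_card_of_injOn (fun q => (q.1, q.2)) ?_ ?_
    · intro q hq
      have h2 := Finset.mem_sigma.1 (Finset.mem_coe.1 hq)
      exact Finset.mem_coe.2 ((hZ q.1 h2.1).1 q.2 h2.2)
    · rintro ⟨q1, q2⟩ _ ⟨r1, r2⟩ _ h
      have h2 := Prod.mk.inj h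
      simp only at h2
      obtain ⟨rfl, rfl⟩ := h2
      rfl
  rw [Finset.card_sigma] at h1
  calc (T.card : ℝ) * c = ∑ _t ∈ T, c := by rw [Finset.sum_const, nsmul_eq_mul]
    _ ≤ ∑ t ∈ T, ((Z t).card : ℝ) := Finset.sum_le_sum fun t ht => (hZ t ht).2
    _ ≤ (T'.card : ℝ) := by exact_mod_cast h1

private theorem grapho_final (n m e Λ l Fc G1 T2 T3 T4 N M U : ℝ) (hn : 0 < n) (hm : 0 < m)
    (he : 0 < e) (hΛpos : 0 < Λ) (hΛ2 : Λ ≤ 2) (hl : 0 < l) (hlΛ : l ≤ Λ * n)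
    (hFc : Λ * e ≤ Fc) (hG1 : Fc / 2 ≤ G1) (hT2 : G1 * (17 / 18 * (e / m)) ≤ T2)
    (hT3 : T2 * (e / (2 * n)) ≤ T3) (hT4 : T3 * (e / (2 * m)) ≤ T4)
    (hup : T4 ≤ l * (l * N) * M) (hN : 1 ≤ N) (hM : 1 ≤ M) (hU : 0 ≤ U)
    (hU4 : n ^ 3 * m ^ 2 ≤ U ^ 4) : e ≤ 18 * (N * M) * (U + n + m) := by
  have hN0 : 0 < N := by linarith
  have hM0 : 0 < M := by linarith
  have hNM : 1 ≤ N * M := by nlinarith
  have hFc0 : 0 < Fc := lt_of_lt_of_le (by positivity) hFc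
  have hlow : Fc * (e ^ 3 / (9 * (n * m ^ 2))) ≤ T4 := by
    have h1 : Fc / 2 * (17 / 18 * (e / m)) ≤ T2 :=
      le_trans (mul_le_mul_of_nonneg_right hG1 (by positivity)) hT2
    have h2 : Fc / 2 * (17 / 18 * (e / m)) * (e / (2 * n)) ≤ T3 :=
      le_trans (mul_le_mul_of_nonneg_right h1 (by positivity)) hT3
    have h3 : Fc / 2 * (17 / 18 * (e / m)) * (e / (2 * n)) * (e / (2 * m)) ≤ T4 :=
      le_trans (mul_le_mul_of_nonneg_right h2 (by positivity)) hT4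
    refine le_trans ?_ h3
    have h4 : Fc / 2 * (17 / 18 * (e / m)) * (e / (2 * n)) * (e / (2 * m)) =
        17 / 144 * (Fc * (e ^ 3 / (n * m ^ 2))) := by
      field_simp
      ring
    have h5 : Fc * (e ^ 3 / (9 * (n * m ^ 2))) =
        1 / 9 * (Fc * (e ^ 3 / (n * m ^ 2))) := by
      field_simp
    rw [h4, h5]
    have h6 : 0 ≤ Fc * (e ^ 3 / (n * m ^ 2)) := by positivity
    linarith
  have hfin : e ^ 4 ≤ 18 * (N * M) * (n ^ 3 * m ^ 2) := by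
    have h1 : Λ * e * (e ^ 3 / (9 * (n * m ^ 2))) ≤ (Λ * n) * (Λ * n * N) * M := by
      calc Λ * e * (e ^ 3 / (9 * (n * m ^ 2))) ≤ Fc * (e ^ 3 / (9 * (n * m ^ 2))) :=
            mul_le_mul_of_nonneg_right hFc (by positivity)
        _ ≤ T4 := hlow
        _ ≤ l * (l * N) * M := hup
        _ ≤ (Λ * n) * (Λ * n * N) * M := by
            refine mul_le_mul_of_nonneg_right ?_ hM0.le
            exact mul_le_mul hlΛ (mul_le_mul_of_nonneg_right hlΛ hN0.le)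
              (by positivity) (by positivity)
    have h2 : Λ * e * (e ^ 3 / (9 * (n * m ^ 2))) = Λ * e ^ 4 / (9 * (n * m ^ 2)) := by
      field_simp
    rw [h2, div_le_iff₀ (by positivity)] at h1
    have h3 : Λ * e ^ 4 ≤ Λ * (9 * Λ * (N * M) * (n ^ 3 * m ^ 2)) := by
      calc Λ * e ^ 4 ≤ (Λ * n) * (Λ * n * N) * M * (9 * (n * m ^ 2)) := h1
        _ = _ := by ring
    have h4 : e ^ 4 ≤ 9 * Λ * (N * M) * (n ^ 3 * m ^ 2) := le_of_mul_le_mul_left h3 hΛpos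
    refine h4.trans ?_
    refine mul_le_mul_of_nonneg_right ?_ (by positivity)
    refine mul_le_mul_of_nonneg_right ?_ (by linarith)
    linarith
  have h4 : e ^ 4 ≤ (3 * (N * M) * U) ^ 4 := by
    have hK : N * M ≤ (N * M) ^ 4 := by
      calc N * M = (N * M) ^ 1 := (pow_one _).symm
        _ ≤ (N * M) ^ 4 := pow_le_pow_right₀ hNM (by norm_num)
    have hU40 : 0 ≤ U ^ 4 := by positivity
    calc e ^ 4 ≤ 18 * (N * M) * (n ^ 3 * m ^ 2) := hfin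
      _ ≤ 18 * (N * M) * U ^ 4 := mul_le_mul_of_nonneg_left hU4 (by linarith)
      _ ≤ 81 * (N * M) ^ 4 * U ^ 4 := by
          refine mul_le_mul_of_nonneg_right ?_ hU40
          linarith
      _ = (3 * (N * M) * U) ^ 4 := by ring
  have h5 : e ≤ 3 * (N * M) * U :=
    le_of_pow_le_pow_left₀ (by norm_num) (by positivity) h4
  have h6 : 0 ≤ N * M * (n + m) := by positivity
  have h7 : 0 ≤ N * M * U := by positivity
  nlinarith

open Classical in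
/-- the bad `b2` for a good `a1` -/
private theorem grapho_rare {β ι : Type*} (ℬ' : Finset β) (X : β → Finset ι) (lam : ι → ℝ)
    (k : ℕ) (δ t d : ℝ) (S : Finset ι) (b1 : β) (hk : (X b1).card ≤ k) (hd : 0 ≤ d)
    (ht : (2 : ℝ) ^ (k + 3) ≤ Real.exp (δ * t / 2))
    (hgood : ∀ V : Finset ι, Disjoint V S → t < ∑ i ∈ V, lam i →
      (((ℬ'.filter (fun b => V ⊆ X b)).card : ℕ) : ℝ) ≤ Real.exp (-(δ * t / 2)) * d) :
    (((ℬ'.filter (fun b => t < ∑ i ∈ (X b1 ∩ X b) \ S, lam i)).card : ℕ) : ℝ) ≤ d / 8 := by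
  set 𝒲 : Finset (Finset ι) :=
    (X b1).powerset.filter (fun V => Disjoint V S ∧ t < ∑ i ∈ V, lam i) with h𝒲
  have h1 : ℬ'.filter (fun b => t < ∑ i ∈ (X b1 ∩ X b) \ S, lam i) ⊆
      𝒲.biUnion (fun V => ℬ'.filter (fun b => V ⊆ X b)) := by
    intro b hb
    have hb' := Finset.mem_filter.1 hb
    refine Finset.mem_biUnion.2 ⟨(X b1 ∩ X b) \ S, ?_, ?_⟩
    · refine Finset.mem_filter.2 ⟨Finset.mem_powerset.2 ?_, Finset.sdiff_disjoint, hb'.2⟩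
      exact Finset.sdiff_subset.trans Finset.inter_subset_left
    · refine Finset.mem_filter.2 ⟨hb'.1, ?_⟩
      exact Finset.sdiff_subset.trans Finset.inter_subset_right
  have h2 : (((ℬ'.filter (fun b => t < ∑ i ∈ (X b1 ∩ X b) \ S, lam i)).card : ℕ) : ℝ) ≤
      ∑ V ∈ 𝒲, (((ℬ'.filter (fun b => V ⊆ X b)).card : ℕ) : ℝ) := by
    exact_mod_cast (Finset.card_le_card h1).trans Finset.card_biUnion_le
  have h3 : ∑ V ∈ 𝒲, (((ℬ'.filter (fun b => V ⊆ X b)).card : ℕ) : ℝ) ≤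
      ∑ _V ∈ 𝒲, Real.exp (-(δ * t / 2)) * d := by
    refine Finset.sum_le_sum ?_
    intro V hV
    have hV' := (Finset.mem_filter.1 hV).2
    exact hgood V hV'.1 hV'.2
  rw [Finset.sum_const, nsmul_eq_mul] at h3
  have h4 : (𝒲.card : ℝ) ≤ 2 ^ k := by
    have : 𝒲.card ≤ 2 ^ k := by
      calc 𝒲.card ≤ (X b1).powerset.card := Finset.card_filter_le _ _
        _ = 2 ^ (X b1).card := Finset.card_powerset _
        _ ≤ 2 ^ k := Nat.pow_le_pow_right (by norm_num) hk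
    exact_mod_cast this
  have h5 : (2 : ℝ) ^ k * Real.exp (-(δ * t / 2)) ≤ 1 / 8 := by
    have h6 : 0 < Real.exp (-(δ * t / 2)) := Real.exp_pos _
    have h7 := mul_le_mul_of_nonneg_right ht h6.le
    rw [← Real.exp_add, add_neg_cancel, Real.exp_zero, pow_add] at h7
    linarith
  calc _ ≤ (𝒲.card : ℝ) * (Real.exp (-(δ * t / 2)) * d) := h2.trans h3
    _ ≤ (2 : ℝ) ^ k * (Real.exp (-(δ * t / 2)) * d) := by
        refine mul_le_mul_of_nonneg_right h4 (by positivity)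
    _ = ((2 : ℝ) ^ k * Real.exp (-(δ * t / 2))) * d := by ring
    _ ≤ (1 / 8) * d := mul_le_mul_of_nonneg_right h5 hd
    _ = d / 8 := by ring

open Classical in
/-- number of the `O` -/
private theorem grapho_count {ι : Type*} (lam : ι → ℝ) (t N : ℝ) (S : Finset ι)
    (hNt : ∀ 𝒱 : Finset (Finset ι), (∀ V ∈ 𝒱, ∑ i ∈ V, lam i ≤ t) → (𝒱.card : ℝ) ≤ N)
    (𝒪 : Finset (Finset ι)) (h𝒪 : ∀ O ∈ 𝒪, S ⊆ O ∧ ∑ i ∈ O \ S, lam i ≤ t) :
    (𝒪.card : ℝ) ≤ N := by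
  have h1 := hNt (𝒪.image (fun O => O \ S)) (by
    intro V hV
    obtain ⟨O, hO, rfl⟩ := Finset.mem_image.1 hV
    exact (h𝒪 O hO).2)
  rwa [Finset.card_image_of_injOn] at h1
  intro O hO O' hO' h
  have h2 : O \ S = O' \ S := h
  rw [← Finset.sdiff_union_of_subset (h𝒪 O hO).1, h2,
    Finset.sdiff_union_of_subset (h𝒪 O' hO').1]

open Classical in
theorem graphO {α β ι : Type*} (𝒜 : Finset α) (ℬ : Finset β) (E : Finset (α × β))
    (hE : E ⊆ 𝒜 ×ˢ ℬ) (X : β → Finset ι) (lam : ι → ℝ) (hlam : ∀ i, 0 ≤ lam i) (k : ℕ)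
    (R δ t M N U : ℝ) (hR : 0 ≤ R) (hδ : 0 < δ) (hM : 1 ≤ M) (hN : 1 ≤ N) (hU : 0 ≤ U)
    (hU4 : (𝒜.card : ℝ) ^ 3 * (ℬ.card : ℝ) ^ 2 ≤ U ^ 4)
    (hXk : ∀ b ∈ ℬ, (X b).card ≤ k) (hXR : ∀ b ∈ ℬ, ∑ i ∈ X b, lam i ≤ R)
    (ht : (2 : ℝ) ^ (k + 3) ≤ Real.exp (δ * t / 2))
    (hNt : ∀ 𝒱 : Finset (Finset ι), (∀ V ∈ 𝒱, ∑ i ∈ V, lam i ≤ t) → (𝒱.card : ℝ) ≤ N)
    (Bad1 : α → β → α → β → Prop) (Bad2 : α → β → α → β → α → Prop)
    (hbad1 : ∀ (a : α) (b1 : β) (a1 : α), (a, b1) ∈ E → (a1, b1) ∈ E → a1 ≠ a →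
      (((ℬ.filter (fun b2 => (a1, b2) ∈ E ∧ b2 ≠ b1 ∧ Bad1 a b1 a1 b2)).card : ℕ) : ℝ) ≤ 2)
    (hbad2 : ∀ (a : α) (b1 : β) (a1 : α) (b2 : β), (a, b1) ∈ E → (a1, b1) ∈ E →
      (a1, b2) ∈ E → a1 ≠ a → b2 ≠ b1 →
      (((𝒜.filter (fun a2 => (a2, b2) ∈ E ∧ a2 ≠ a1 ∧ Bad2 a b1 a1 b2 a2)).card : ℕ) : ℝ) ≤ 8)
    (hgood : ∀ (a a2 : α) (O : Finset ι), ((((ℬ ×ˢ 𝒜 ×ˢ ℬ).filter (fun p =>
      ((a, p.1) ∈ E ∧ (p.2.1, p.1) ∈ E ∧ (p.2.1, p.2.2) ∈ E ∧ (a2, p.2.2) ∈ E) ∧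
      (p.2.1 ≠ a ∧ p.2.2 ≠ p.1 ∧ a2 ≠ p.2.1) ∧ X p.1 ∩ X p.2.2 = O ∧
      ¬ Bad1 a p.1 p.2.1 p.2.2 ∧ ¬ Bad2 a p.1 p.2.1 p.2.2 a2)).card : ℕ) : ℝ) ≤ M) :
    (E.card : ℝ) ≤ 36 * Real.exp (δ * R) * (N * M) * (U + (𝒜.card : ℝ) + (ℬ.card : ℝ)) := by
  set n : ℝ := (𝒜.card : ℝ) with hn
  set m : ℝ := (ℬ.card : ℝ) with hm
  set ex : ℝ := Real.exp (δ * R) with hex
  have hexpos : 0 < ex := Real.exp_pos _
  set e : ℝ := (E.card : ℝ) * Real.exp (-(δ * R)) / 2 with he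
  have hEe : (E.card : ℝ) = 2 * ex * e := by
    rw [he, hex, Real.exp_neg]
    field_simp
  have hn0 : 0 ≤ n := Nat.cast_nonneg _
  have hm0 : 0 ≤ m := Nat.cast_nonneg _
  have hNM : 1 ≤ N * M := by nlinarith
  rw [hEe]
  -- it suffices to bound `e`
  suffices hsuff : e ≤ 18 * (N * M) * (U + n + m) by
    calc 2 * ex * e ≤ 2 * ex * (18 * (N * M) * (U + n + m)) :=
          mul_le_mul_of_nonneg_left hsuff (by positivity)
      _ = _ := by ring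
  rcases le_or_gt e (18 * (n + m)) with hsmall | hbig
  · have h1 : n + m ≤ N * M * (U + n + m) := by
      have : 0 ≤ U + n + m := add_nonneg (add_nonneg hU hn0) hm0
      nlinarith
    linarith
  have hepos : 0 < e := by linarith [add_nonneg hn0 hm0]
  have hEne : E.Nonempty := by
    rw [← Finset.card_pos]
    by_contra hcon
    have h0 : E.card = 0 := by omega
    rw [he, h0] at hepos
    simp at hepos
  obtain ⟨p0, hp0⟩ := hEne
  have hnpos : 0 < n := by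
    have : 0 < 𝒜.card := Finset.card_pos.2 ⟨p0.1, (Finset.mem_product.1 (hE hp0)).1⟩
    exact Nat.cast_pos.2 this
  have hmpos : 0 < m := by
    have : 0 < ℬ.card := Finset.card_pos.2 ⟨p0.2, (Finset.mem_product.1 (hE hp0)).2⟩
    exact Nat.cast_pos.2 this
  obtain ⟨S, F, hFE, hFne, hSX, hFcard, hdA, hdB, hbadF⟩ :=
    coreO 𝒜 ℬ E hE ⟨p0, hp0⟩ X lam hlam k R δ t hδ hXk hXR ht
  have hF1 : ∀ p ∈ F, p.1 ∈ 𝒜 := fun p hp => (Finset.mem_product.1 (hE (hFE hp))).1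
  have hF2 : ∀ p ∈ F, p.2 ∈ ℬ := fun p hp => (Finset.mem_product.1 (hE (hFE hp))).2
  rw [← hn, ← hm, ← he] at hFcard
  rw [← he] at hdA hdB
  set l : ℝ := ((F.image Prod.fst).card : ℝ) with hl
  set r : ℝ := ((F.image Prod.snd).card : ℝ) with hr
  set Λ : ℝ := l / n + r / m with hΛ
  have hlpos : 0 < l := by
    have : 0 < (F.image Prod.fst).card := Finset.card_pos.2 (hFne.image _)
    exact Nat.cast_pos.2 this
  have hr0 : 0 ≤ r := Nat.cast_nonneg _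
  have hln : l ≤ n := by
    rw [hl, hn]
    exact_mod_cast Finset.card_le_card (by
      intro a ha
      obtain ⟨p, hp, rfl⟩ := Finset.mem_image.1 ha
      exact hF1 p hp)
  have hrm : r ≤ m := by
    rw [hr, hm]
    exact_mod_cast Finset.card_le_card (by
      intro a ha
      obtain ⟨p, hp, rfl⟩ := Finset.mem_image.1 ha
      exact hF2 p hp)
  have hΛ2 : Λ ≤ 2 := by
    have h1 : l / n ≤ 1 := (div_le_one hnpos).2 hln
    have h2 : r / m ≤ 1 := (div_le_one hmpos).2 hrm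
    linarith
  have hrm0 : 0 ≤ r / m := div_nonneg hr0 hm0
  have hΛpos : 0 < Λ := by
    have h1 : 0 < l / n := div_pos hlpos hnpos
    linarith
  have hlΛ : l ≤ Λ * n := by
    have h1 : l / n ≤ Λ := by
      linarith
    rwa [div_le_iff₀ hnpos] at h1
  -- degrees
  have hdegA : ∀ (a : α) (b : β), (a, b) ∈ F →
      e / n ≤ (((ℬ.filter (fun b => (a, b) ∈ F)).card : ℕ) : ℝ) := by
    intro a b hab
    have h1 := hdA a (Finset.mem_image.2 ⟨(a, b), hab, rfl⟩)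
    rw [grapho_fiberA1 ℬ F a hF2] at h1
    rwa [div_le_iff₀ hnpos]
  have hdegB : ∀ (a : α) (b : β), (a, b) ∈ F →
      e / m ≤ (((𝒜.filter (fun a => (a, b) ∈ F)).card : ℕ) : ℝ) := by
    intro a b hab
    have h1 := hdB b (Finset.mem_image.2 ⟨(a, b), hab, rfl⟩)
    rw [grapho_fiberB1 𝒜 F b hF1] at h1
    rwa [div_le_iff₀ hmpos]
  have hen : 18 ≤ e / n := by
    rw [le_div_iff₀ hnpos]
    linarith
  have hem : 18 ≤ e / m := by
    rw [le_div_iff₀ hmpos]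
    linarith
  -- good edges
  set badA : α → Prop := fun a => ∃ V : Finset ι, Disjoint V S ∧ t < ∑ i ∈ V, lam i ∧
        Real.exp (-(δ * t / 2)) * ((F.filter (fun p' => p'.1 = a)).card : ℝ) ≤
          ((F.filter (fun p' => p'.1 = a ∧ V ⊆ X p'.2)).card : ℝ) with hbadA
  set G1 : Finset (α × β) := F.filter (fun p => ¬ badA p.1) with hG1
  have hG1card : (F.card : ℝ) / 2 ≤ (G1.card : ℝ) := by
    have h1 : ((F.filter (fun p => badA p.1)).card : ℝ) + (G1.card : ℝ) = F.card := by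
      exact_mod_cast Finset.card_filter_add_card_filter_not (s := F) (fun p => badA p.1)
    have h2 : ((F.filter (fun p => badA p.1)).card : ℝ) ≤ (F.card : ℝ) / 2 := hbadF
    linarith
  -- first step : `a`
  set T2 : Finset ((α × β) × α) :=
    (G1 ×ˢ 𝒜).filter (fun q => (q.2, q.1.2) ∈ F ∧ q.1.1 ≠ q.2) with hT2
  have hT2low : (G1.card : ℝ) * (17 / 18 * (e / m)) ≤ (T2.card : ℝ) := by
    refine grapho_low G1 T2 _ ?_
    intro p hp
    refine ⟨𝒜.filter (fun a => (a, p.2) ∈ F ∧ p.1 ≠ a), ?_, ?_⟩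
    · intro z hz
      have hz' := Finset.mem_filter.1 hz
      exact Finset.mem_filter.2 ⟨Finset.mem_product.2 ⟨hp, hz'.1⟩, hz'.2⟩
    have hpF : p ∈ F := (Finset.mem_filter.1 hp).1
    have h1 := hdegB p.1 p.2 hpF
    have h2 : (𝒜.filter (fun a => (a, p.2) ∈ F ∧ p.1 ≠ a)).card + 1 =
        (𝒜.filter (fun a => (a, p.2) ∈ F)).card := by
      have h3 : 𝒜.filter (fun a => (a, p.2) ∈ F ∧ p.1 ≠ a) =
          (𝒜.filter (fun a => (a, p.2) ∈ F)).erase p.1 := by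
        ext a
        simp only [Finset.mem_filter, Finset.mem_erase]
        constructor
        · rintro ⟨h1, h2, h3⟩
          exact ⟨fun h => h3 h.symm, h1, h2⟩
        · rintro ⟨h1, h2, h3⟩
          exact ⟨h2, h3, fun h => h1 h.symm⟩
      rw [h3]
      exact Finset.card_erase_add_one (Finset.mem_filter.2 ⟨hF1 _ hpF, hpF⟩)
    have h3 : (((𝒜.filter (fun a => (a, p.2) ∈ F ∧ p.1 ≠ a)).card : ℕ) : ℝ) + 1 =
        (((𝒜.filter (fun a => (a, p.2) ∈ F)).card : ℕ) : ℝ) := by exact_mod_cast h2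
    linarith
  have hT2F : ∀ q ∈ T2, q.1 ∈ F ∧ ¬ badA q.1.1 ∧ q.2 ∈ 𝒜 ∧ (q.2, q.1.2) ∈ F ∧ q.1.1 ≠ q.2 := by
    intro q hq
    have h := Finset.mem_filter.1 hq
    have h1 := Finset.mem_product.1 h.1
    have h2 := Finset.mem_filter.1 h1.1
    exact ⟨h2.1, h2.2, h1.2, h.2⟩
  -- second step : `b2`
  set T3 : Finset (((α × β) × α) × β) :=
    (T2 ×ˢ ℬ).filter (fun q => (q.1.1.1, q.2) ∈ F ∧ q.2 ≠ q.1.1.2 ∧
      ∑ i ∈ (X q.1.1.2 ∩ X q.2) \ S, lam i ≤ t ∧ ¬ Bad1 q.1.2 q.1.1.2 q.1.1.1 q.2) with hT3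
  have hT3low : (T2.card : ℝ) * (e / (2 * n)) ≤ (T3.card : ℝ) := by
    refine grapho_low T2 T3 _ ?_
    rintro ⟨⟨a1, b1⟩, a⟩ hq
    refine ⟨ℬ.filter (fun b => (a1, b) ∈ F ∧ b ≠ b1 ∧
      ∑ i ∈ (X b1 ∩ X b) \ S, lam i ≤ t ∧ ¬ Bad1 a b1 a1 b), ?_, ?_⟩
    · intro z hz
      have hz' := Finset.mem_filter.1 hz
      exact Finset.mem_filter.2 ⟨Finset.mem_product.2 ⟨hq, hz'.1⟩, hz'.2⟩
    obtain ⟨h1, h2, h3, h4, h5⟩ := hT2F _ hq
    simp only at h1 h2 h3 h4 h5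
    set D : ℝ := (((ℬ.filter (fun b => (a1, b) ∈ F)).card : ℕ) : ℝ) with hD
    have hDe : e / n ≤ D := hdegA a1 b1 h1
    have hD18 : 18 ≤ D := hen.trans hDe
    -- the rare `b2`
    have hrare : ((((ℬ.filter (fun b => (a1, b) ∈ F)).filter
        (fun b => t < ∑ i ∈ (X b1 ∩ X b) \ S, lam i)).card : ℕ) : ℝ) ≤ D / 8 := by
      refine grapho_rare (ℬ.filter (fun b => (a1, b) ∈ F)) X lam k δ t D S b1
        (hXk b1 (hF2 _ h1)) (by linarith) ht ?_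
      intro V hVS hVt
      by_contra hcon
      push Not at hcon
      apply h2
      refine ⟨V, hVS, hVt, ?_⟩
      rw [grapho_fiberA1 ℬ F a1 hF2]
      refine hcon.le.trans ?_
      norm_cast
      refine Finset.card_le_card_of_injOn (fun b => (a1, b)) ?_ ?_
      · intro b hb
        have hb1 := Finset.mem_filter.1 (Finset.mem_coe.1 hb)
        have hb2 := Finset.mem_filter.1 hb1.1
        exact Finset.mem_coe.2 (Finset.mem_filter.2 ⟨hb2.2, rfl, hb1.2⟩)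
      · intro b _ b' _ h
        exact (Prod.mk.inj h).2
    have hb1 := hbad1 a b1 a1 (hFE h4) (hFE h1) h5
    have hcover : ℬ.filter (fun b => (a1, b) ∈ F) ⊆
        ((ℬ.filter (fun b => (a1, b) ∈ F ∧ b ≠ b1 ∧
          ∑ i ∈ (X b1 ∩ X b) \ S, lam i ≤ t ∧ ¬ Bad1 a b1 a1 b)) ∪ {b1}) ∪
        ((ℬ.filter (fun b => (a1, b) ∈ F)).filter
          (fun b => t < ∑ i ∈ (X b1 ∩ X b) \ S, lam i) ∪
        ℬ.filter (fun b2 => (a1, b2) ∈ E ∧ b2 ≠ b1 ∧ Bad1 a b1 a1 b2)) := by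
      intro b hb
      have hb' := Finset.mem_filter.1 hb
      by_cases hbb1 : b = b1
      · exact Finset.mem_union_left _ (Finset.mem_union_right _ (Finset.mem_singleton.2 hbb1))
      by_cases hbt : t < ∑ i ∈ (X b1 ∩ X b) \ S, lam i
      · exact Finset.mem_union_right _ (Finset.mem_union_left _
          (Finset.mem_filter.2 ⟨hb, hbt⟩))
      by_cases hbB : Bad1 a b1 a1 b
      · exact Finset.mem_union_right _ (Finset.mem_union_right _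
          (Finset.mem_filter.2 ⟨hb'.1, hFE hb'.2, hbb1, hbB⟩))
      · exact Finset.mem_union_left _ (Finset.mem_union_left _
          (Finset.mem_filter.2 ⟨hb'.1, hb'.2, hbb1, not_lt.1 hbt, hbB⟩))
    have hcard : D ≤ ((((ℬ.filter (fun b => (a1, b) ∈ F ∧ b ≠ b1 ∧
          ∑ i ∈ (X b1 ∩ X b) \ S, lam i ≤ t ∧ ¬ Bad1 a b1 a1 b)).card : ℕ) : ℝ) + 1) +
        (((((ℬ.filter (fun b => (a1, b) ∈ F)).filter
          (fun b => t < ∑ i ∈ (X b1 ∩ X b) \ S, lam i)).card : ℕ) : ℝ) +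
        (((ℬ.filter (fun b2 => (a1, b2) ∈ E ∧ b2 ≠ b1 ∧ Bad1 a b1 a1 b2)).card : ℕ) : ℝ)) := by
      rw [hD]
      have hc := (Finset.card_le_card hcover).trans ((Finset.card_union_le _ _).trans
        (add_le_add ((Finset.card_union_le _ _)) (Finset.card_union_le _ _)))
      rw [Finset.card_singleton] at hc
      exact_mod_cast hc
    have he2 : e / (2 * n) = (e / n) / 2 := by
      rw [mul_comm 2 n, div_mul_eq_div_div]
    rw [he2]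
    linarith
  have hT3F : ∀ q ∈ T3, (q.1.1 ∈ F ∧ ¬ badA q.1.1.1 ∧ q.1.2 ∈ 𝒜 ∧ (q.1.2, q.1.1.2) ∈ F ∧
      q.1.1.1 ≠ q.1.2) ∧ (q.1.1.1, q.2) ∈ F ∧ q.2 ≠ q.1.1.2 ∧
      ∑ i ∈ (X q.1.1.2 ∩ X q.2) \ S, lam i ≤ t ∧ ¬ Bad1 q.1.2 q.1.1.2 q.1.1.1 q.2 := by
    intro q hq
    have h := Finset.mem_filter.1 hq
    have h1 := Finset.mem_product.1 h.1
    exact ⟨hT2F _ h1.1, h.2⟩
  -- third step : `a2`
  set T4 : Finset ((((α × β) × α) × β) × α) :=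
    (T3 ×ˢ 𝒜).filter (fun q => (q.2, q.1.2) ∈ F ∧ q.2 ≠ q.1.1.1.1 ∧
      ¬ Bad2 q.1.1.2 q.1.1.1.2 q.1.1.1.1 q.1.2 q.2) with hT4
  have hT4low : (T3.card : ℝ) * (e / (2 * m)) ≤ (T4.card : ℝ) := by
    refine grapho_low T3 T4 _ ?_
    rintro ⟨⟨⟨a1, b1⟩, a⟩, b2⟩ hq
    refine ⟨𝒜.filter (fun a2 => (a2, b2) ∈ F ∧ a2 ≠ a1 ∧ ¬ Bad2 a b1 a1 b2 a2), ?_, ?_⟩
    · intro z hz
      have hz' := Finset.mem_filter.1 hz
      exact Finset.mem_filter.2 ⟨Finset.mem_product.2 ⟨hq, hz'.1⟩, hz'.2⟩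
    obtain ⟨⟨h1, h2, h3, h4, h5⟩, h6, h7, h8, h9⟩ := hT3F _ hq
    simp only at h1 h2 h3 h4 h5 h6 h7 h8 h9
    set D : ℝ := (((𝒜.filter (fun a => (a, b2) ∈ F)).card : ℕ) : ℝ) with hD
    have hDe : e / m ≤ D := hdegB a1 b2 h6
    have hb2 := hbad2 a b1 a1 b2 (hFE h4) (hFE h1) (hFE h6) h5 h7
    have hcover : 𝒜.filter (fun a => (a, b2) ∈ F) ⊆
        ((𝒜.filter (fun a2 => (a2, b2) ∈ F ∧ a2 ≠ a1 ∧ ¬ Bad2 a b1 a1 b2 a2)) ∪ {a1}) ∪
        (𝒜.filter (fun a2 => (a2, b2) ∈ E ∧ a2 ≠ a1 ∧ Bad2 a b1 a1 b2 a2)) := by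
      intro x hx
      have hx' := Finset.mem_filter.1 hx
      by_cases hxa1 : x = a1
      · exact Finset.mem_union_left _ (Finset.mem_union_right _ (Finset.mem_singleton.2 hxa1))
      by_cases hxB : Bad2 a b1 a1 b2 x
      · exact Finset.mem_union_right _ (Finset.mem_filter.2 ⟨hx'.1, hFE hx'.2, hxa1, hxB⟩)
      · exact Finset.mem_union_left _ (Finset.mem_union_left _
          (Finset.mem_filter.2 ⟨hx'.1, hx'.2, hxa1, hxB⟩))
    have hcard : D ≤ ((((𝒜.filter (fun a2 => (a2, b2) ∈ F ∧ a2 ≠ a1 ∧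
          ¬ Bad2 a b1 a1 b2 a2)).card : ℕ) : ℝ) + 1) +
        (((𝒜.filter (fun a2 => (a2, b2) ∈ E ∧ a2 ≠ a1 ∧ Bad2 a b1 a1 b2 a2)).card : ℕ) : ℝ) := by
      rw [hD]
      have hc := (Finset.card_le_card hcover).trans ((Finset.card_union_le _ _).trans
        (add_le_add_left ((Finset.card_union_le _ _)) _))
      rw [Finset.card_singleton] at hc
      exact_mod_cast hc
    have he2 : e / (2 * m) = (e / m) / 2 := by
      rw [mul_comm 2 m, div_mul_eq_div_div]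
    rw [he2]
    linarith
  have hT4F : ∀ q ∈ T4, ((q.1.1.1 ∈ F ∧ ¬ badA q.1.1.1.1 ∧ q.1.1.2 ∈ 𝒜 ∧
      (q.1.1.2, q.1.1.1.2) ∈ F ∧ q.1.1.1.1 ≠ q.1.1.2) ∧ (q.1.1.1.1, q.1.2) ∈ F ∧
      q.1.2 ≠ q.1.1.1.2 ∧ ∑ i ∈ (X q.1.1.1.2 ∩ X q.1.2) \ S, lam i ≤ t ∧
      ¬ Bad1 q.1.1.2 q.1.1.1.2 q.1.1.1.1 q.1.2) ∧ (q.2, q.1.2) ∈ F ∧ q.2 ≠ q.1.1.1.1 ∧
      ¬ Bad2 q.1.1.2 q.1.1.1.2 q.1.1.1.1 q.1.2 q.2 := by
    intro q hq
    have h := Finset.mem_filter.1 hq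
    have h1 := Finset.mem_product.1 h.1
    exact ⟨hT3F _ h1.1, h.2⟩
  -- upper bound
  set 𝒪 : Finset (Finset ι) := T4.image (fun q => X q.1.1.1.2 ∩ X q.1.2) with h𝒪
  have h𝒪N : (𝒪.card : ℝ) ≤ N := by
    refine grapho_count lam t N S hNt 𝒪 ?_
    intro O hO
    obtain ⟨q, hq, rfl⟩ := Finset.mem_image.1 hO
    obtain ⟨⟨⟨h1, h2, h3, h4, h5⟩, h6, h7, h8, h9⟩, h10, h11, h12⟩ := hT4F q hq
    exact ⟨Finset.subset_inter (hSX _ h1) (hSX _ h6), h8⟩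
  have hT4up : (T4.card : ℝ) ≤ l * (l * N) * M := by
    have hmap : ∀ q ∈ T4, (q.1.1.2, q.2, X q.1.1.1.2 ∩ X q.1.2) ∈
        (F.image Prod.fst) ×ˢ (F.image Prod.fst) ×ˢ 𝒪 := by
      intro q hq
      obtain ⟨⟨⟨h1, h2, h3, h4, h5⟩, h6, h7, h8, h9⟩, h10, h11, h12⟩ := hT4F q hq
      exact Finset.mem_product.2 ⟨Finset.mem_image.2 ⟨_, h4, rfl⟩, Finset.mem_product.2
        ⟨Finset.mem_image.2 ⟨_, h10, rfl⟩, Finset.mem_image.2 ⟨q, hq, rfl⟩⟩⟩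
    have h1 := Finset.card_eq_sum_card_fiberwise hmap
    rw [h1]
    push_cast
    calc ∑ y ∈ (F.image Prod.fst) ×ˢ (F.image Prod.fst) ×ˢ 𝒪,
          ((T4.filter (fun q => (q.1.1.2, q.2, X q.1.1.1.2 ∩ X q.1.2) = y)).card : ℝ)
        ≤ ∑ _y ∈ (F.image Prod.fst) ×ˢ (F.image Prod.fst) ×ˢ 𝒪, M := by
          refine Finset.sum_le_sum ?_
          rintro ⟨a, a2, O⟩ _
          refine le_trans ?_ (hgood a a2 O)
          norm_cast
          refine Finset.card_le_card_of_injOn (fun q => (q.1.1.1.2, q.1.1.1.1, q.1.2)) ?_ ?_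
          · intro q hq
            have hq' := Finset.mem_filter.1 (Finset.mem_coe.1 hq)
            have e0 := Prod.mk.inj hq'.2
            have e1 : q.1.1.2 = a := e0.1
            have e2 : q.2 = a2 := (Prod.mk.inj e0.2).1
            have e3 : X q.1.1.1.2 ∩ X q.1.2 = O := (Prod.mk.inj e0.2).2
            obtain ⟨⟨⟨h1, h2, h3, h4, h5⟩, h6, h7, h8, h9⟩, h10, h11, h12⟩ := hT4F q hq'.1
            rw [e1] at h3 h4 h5 h9 h12
            rw [e2] at h10 h11 h12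
            exact Finset.mem_coe.2 (Finset.mem_filter.2 ⟨Finset.mem_product.2
              ⟨hF2 q.1.1.1 h1, Finset.mem_product.2
                ⟨hF1 q.1.1.1 h1, hF2 (q.1.1.1.1, q.1.2) h6⟩⟩,
              ⟨hFE h4, hFE h1, hFE h6, hFE h10⟩, ⟨h5, h7, h11⟩, e3, h9, h12⟩)
          · intro q hq s hs hqs
            have hq' := Prod.mk.inj (Finset.mem_filter.1 (Finset.mem_coe.1 hq)).2
            have hs' := Prod.mk.inj (Finset.mem_filter.1 (Finset.mem_coe.1 hs)).2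
            have e1 : q.1.1.2 = s.1.1.2 := hq'.1.trans hs'.1.symm
            have e2 : q.2 = s.2 := (Prod.mk.inj hq'.2).1.trans (Prod.mk.inj hs'.2).1.symm
            have e0 := Prod.mk.inj hqs
            have e3 : q.1.1.1.2 = s.1.1.1.2 := e0.1
            have e4 : q.1.1.1.1 = s.1.1.1.1 := (Prod.mk.inj e0.2).1
            have e5 : q.1.2 = s.1.2 := (Prod.mk.inj e0.2).2
            exact Prod.ext (Prod.ext (Prod.ext (Prod.ext e4 e3) e1) e5) e2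
      _ = l * (l * (𝒪.card : ℝ)) * M := by
          rw [Finset.sum_const, nsmul_eq_mul, Finset.card_product, Finset.card_product]
          push_cast
          ring
      _ ≤ l * (l * N) * M := by
          refine mul_le_mul_of_nonneg_right ?_ (by linarith)
          exact mul_le_mul_of_nonneg_left (mul_le_mul_of_nonneg_left h𝒪N hlpos.le) hlpos.le
  -- conclusion
  exact grapho_final n m e Λ l F.card G1.card T2.card T3.card T4.card N M U hnpos hmpos hepos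
    hΛpos hΛ2 hlpos hlΛ hFcard hG1card hT2low hT3low hT4low hT4up hN hM hU hU4

end Pool.Agent.FPL
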