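import Pool.Agent.FPL.PathO
import Pool.Agent.FPL.GraphO
import Pool.Agent.AbcF.Sets

/-!
# CellO (size 5)

Copy of `CellS` (complete: `fpl_CellS.lean` in the store, helper45) with `pathO` and `graphO`. `X b = b.1` (the pole set), `lam = ln` (`LN V = ∑ v ∈ V, ln v`), `t = 2 / δ * ((k + 3) * log 2)`: `exp (δ t / 2) = 2 ^ (k + 3)`. `N`: by `card_sets K 1` (`Pool.Agent.AbcF.Sets`, as it is used in `CountG0`: at most `C3 exp (2 x)` sets `V` with
`LN V ≤ x`) `N = C3 exp (2 t) = C3 (exp (4 log 2 / δ)) ^ (k + 3)`. For `x1 = X' α β₁`, `x2 = X' α₁ β₁`, `x3 = X' α₁ β₂`, `x4 = X' α₂ β₂` (`X' α β` the element of the class with these labels):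
* `Bad1 α β₁ α₁ β₂`: `x1 * x3 = x2 ∨ x3 * (1 - x1 - x2) = -x2` (two values of `x3` for given `x1, x2`, as in `CellS`).
* `Bad2 α β₁ α₁ β₂ α₂`: `x1 x3 = x2 x4 ∨ (1 - x2) x3 + (1 - x4) x2 = 0 ∨ (1 - x1) x3 = (1 - x4) x2 ∨ x3 = x2 x4 ∨ x3 (x1 + x2 - 1) = x2 x4 ∨ (1 - x3) x2 + x1 x3 = x2 x4`: six values of `x4` for given `x1, x2, x3` (`x2 ≠ 0`), and `α₂ = a x4`.
* `hgood`: `p ↦ (X' α p.1, X' p.2.1 p.1, X' p.2.1 p.2.2, X' α₂ p.2.2)` is injective on the filter, the image satisfies the hypotheses of `pathO` with the same `O` (`fil 2 x1 = p.1.1`, `fil 2 x3 = p.2.2.1`) and `3 k` for `k`: `M = C2 R ^ m B2 ^ (3 k)`.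
* `U' = U N0 ^ 2`, `N0` the number of colours (`(n N0) ^ 3 (m N0) ^ 2 = n ^ 3 m ^ 2 N0 ^ 5 ≤ (U N0 ^ 2) ^ 4`, `N0 ≥ 1`).
-/

namespace Pool.Agent.FPL

open NumberField IsDedekindDomain Pool.Agent.H7.Abc Pool.Agent.AbcE Pool.Agent.AbcF Pool.Agent.TMS
  Pool.Agent.TM2

/-- A sum with small terms. -/
private theorem cg_sum_le {α : Type*} (P : Finset α) (f : α → ℝ) (c : ℝ) (hc : 0 ≤ c)
    (h : ∀ v ∈ P, f v * (P.card : ℝ) ≤ c) : ∑ v ∈ P, f v ≤ c := by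
  rcases P.eq_empty_or_nonempty with h0 | h0
  · rw [h0, Finset.sum_empty]
    exact hc
  · have hp : (0 : ℝ) < P.card := by exact_mod_cast Finset.card_pos.2 h0
    have h1 : (∑ v ∈ P, f v) * (P.card : ℝ) ≤ c * (P.card : ℝ) := by
      rw [Finset.sum_mul]
      calc ∑ v ∈ P, f v * (P.card : ℝ) ≤ ∑ _v ∈ P, c := Finset.sum_le_sum h
        _ = c * (P.card : ℝ) := by rw [Finset.sum_const, nsmul_eq_mul, mul_comm]
    exact le_of_mul_le_mul_right h1 hp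

/-- Elements with the same parts have the same support. -/
private theorem cg_fs {K : Type*} [Field K] [NumberField K] {x y : K}
    (h : ∀ i, fil i x = fil i y) : fs x = fs y ∧ ∀ v ∈ fs x, prt x v = prt y v := by
  have h1 : ∀ v ∈ fs x, v ∈ fs y ∧ prt x v = prt y v := by
    intro v hv
    have h2 : v ∈ fil (prt x v) x := mem_fil.2 ⟨hv, rfl⟩
    rw [h] at h2
    exact ⟨(mem_fil.1 h2).1, (mem_fil.1 h2).2.symm⟩
  have h3 : ∀ v ∈ fs y, v ∈ fs x := by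
    intro v hv
    have h2 : v ∈ fil (prt y v) y := mem_fil.2 ⟨hv, rfl⟩
    rw [← h] at h2
    exact (mem_fil.1 h2).1
  exact ⟨Finset.Subset.antisymm (fun v hv => (h1 v hv).1) h3, fun v hv => (h1 v hv).2⟩

/-- Elements with the same parts and close masses are equal. -/
private theorem cg_eq {K : Type*} [Field K] [NumberField K] {x y : K} (hx : x ≠ 0) (hx1 : x ≠ 1)
    (hy : y ≠ 0) (hy1 : y ≠ 1) (H : ℝ) (hH0 : 0 ≤ H) (hHx : H ≤ hgt x) (hHy : H ≤ hgt y)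
    (hH : 64 * (dg K * Real.log 2) < H) (h : ∀ i, fil i x = fil i y)
    (hM : ∀ i, ShM (fil i x) (1 / 64) H x y) (hI : ShI (1 / 64) H x y) : x = y := by
  classical
  obtain ⟨h1, h2⟩ := cg_fs h
  have hd : 0 < dg K := by linarith [one_le_dg K]
  have hl : 0 < Real.log 2 := Real.log_pos (by norm_num)
  have hsum : ∀ i, ∑ v ∈ fil i x, |ms x v - ms y v| ≤ 1 / 64 * H := fun i =>
    cg_sum_le _ _ _ (by linarith) (hM i)
  refine gapA hx hx1 hy hy1 (fs x) H (1 / 2) hHx hHy h2 ?_ ?_ ?_ ?_ ?_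
  · rw [Finset.sdiff_self, Finset.sum_empty]
    linarith
  · rw [h1, Finset.sdiff_self, Finset.sum_empty]
    linarith
  · rw [sum_fil]
    have := hsum 0
    have := hsum 1
    have := hsum 2
    linarith
  · have h3 : ∀ w : InfinitePlace K, (w.mult : ℝ) * (|Real.log (w x) - Real.log (w y)| +
        |Real.log (w (x - 1)) - Real.log (w (y - 1))|) ≤ (w.mult : ℝ) * (1 / 64 * H / dg K) := by
      intro w
      refine mul_le_mul_of_nonneg_left ?_ (Nat.cast_nonneg _)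
      rw [le_div_iff₀ hd]
      exact hI w
    have h4 : ∑ w : InfinitePlace K, (w.mult : ℝ) = dg K := by
      unfold dg
      rw [← InfinitePlace.sum_mult_eq, Nat.cast_sum]
    calc ∑ w : InfinitePlace K, (w.mult : ℝ) * (|Real.log (w x) - Real.log (w y)| +
        |Real.log (w (x - 1)) - Real.log (w (y - 1))|)
        ≤ ∑ w : InfinitePlace K, (w.mult : ℝ) * (1 / 64 * H / dg K) :=
          Finset.sum_le_sum fun w _ => h3 w
      _ = 1 / 64 * H := by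
          rw [← Finset.sum_mul, h4]
          field_simp
      _ ≤ 1 / 2 * H / 2 := by linarith
  · nlinarith

theorem cellO (K : Type*) [Field K] [NumberField K] (δ : ℝ) (hδ : 0 < δ) :
    ∃ (m : ℕ) (C Bc : ℝ), 1 ≤ C ∧ 1 ≤ Bc ∧ ∀ R H : ℝ, 1 ≤ R → C ≤ H → H ≤ Real.exp R →
      ∀ (Z : Finset (HeightOneSpectrum (𝓞 K)))
      (𝒜 ℬ : Finset (Finset (HeightOneSpectrum (𝓞 K)))) (k : ℕ) (U : ℝ), 0 ≤ U →
      (𝒜.card : ℝ) ^ 3 * (ℬ.card : ℝ) ^ 2 ≤ U ^ 4 → Z.card ≤ k →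
      (∀ X ∈ 𝒜, X.card ≤ k) → (∀ X ∈ ℬ, X.card ≤ k ∧ LN X ≤ R) → ∀ S : Finset K,
      (∀ x ∈ S, x ≠ 0 ∧ x ≠ 1 ∧ H ≤ hgt x ∧ hgt x ≤ 2 * H ∧ fil 0 x ∈ 𝒜 ∧ fil 2 x ∈ ℬ ∧
        fil 1 x = Z) →
      (S.card : ℝ) ≤ C * R ^ m * Bc ^ k * Real.exp (δ * R) *
        (U + (𝒜.card : ℝ) + (ℬ.card : ℝ)) := by
  classical
  obtain ⟨C1, B1, hC1, hB1, hsc⟩ := shape_col K (1 / 64) (by norm_num) (by norm_num)
  obtain ⟨mm, C2, B2, hC2, hB2, hpath⟩ := pathO K
  obtain ⟨C3, hC3, hsets⟩ := card_sets K one_pos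
  have hd : 0 < dg K := by linarith [one_le_dg K]
  have hl : 0 < Real.log 2 := Real.log_pos (by norm_num)
  have hdl : 0 < dg K * Real.log 2 := mul_pos hd hl
  have hC12 : (1 : ℝ) ≤ C1 ^ 2 := one_le_pow₀ hC1
  have hC13 : (1 : ℝ) ≤ C1 ^ 3 := one_le_pow₀ hC1
  set D : ℝ := Real.exp (4 * Real.log 2 / δ) with hD
  have hD1 : 1 ≤ D := Real.one_le_exp (by positivity)
  set C4 : ℝ := max C3 1 * D ^ 3 with hC4
  have hC41 : 1 ≤ C4 := one_le_mul_of_one_le_of_one_le (le_max_right _ _) (one_le_pow₀ hD1)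
  have hCC : (1 : ℝ) ≤ C1 ^ 3 * C2 := one_le_mul_of_one_le_of_one_le hC13 hC2
  have hCC4 : (1 : ℝ) ≤ C1 ^ 3 * C2 * C4 := one_le_mul_of_one_le_of_one_le hCC hC41
  refine ⟨mm, 144 * (C1 ^ 3 * C2 * C4) + C1 + C2 + 64 * (dg K * Real.log 2) + 1,
    B1 ^ 3 * B2 ^ 3 * D, by linarith, one_le_mul_of_one_le_of_one_le
      (one_le_mul_of_one_le_of_one_le (one_le_pow₀ hB1) (one_le_pow₀ hB2)) hD1, ?_⟩
  intro R H hR hCH hHR Z 𝒜 ℬ k U hU hU3 hZk hAk hBkR S hS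
  have hBk : ∀ X ∈ ℬ, X.card ≤ k := fun X hX => (hBkR X hX).1
  set C : ℝ := 144 * (C1 ^ 3 * C2 * C4) + C1 + C2 + 64 * (dg K * Real.log 2) + 1 with hC
  have hC1H : C1 ≤ H := by linarith
  have hC2H : C2 ≤ H := by linarith
  have hH0 : 0 ≤ H := by linarith
  have hH64 : 64 * (dg K * Real.log 2) < H := by linarith
  choose M f hM hf using fun P => hsc H hC1H P
  -- the number of colours
  set n1 : ℝ := C1 * B1 ^ k with hn1
  have hn1' : 1 ≤ n1 := one_le_mul_of_one_le_of_one_le hC1 (one_le_pow₀ hB1)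
  set N : ℕ := ⌊n1⌋₊ + 1 with hN
  have hN2 : (N : ℝ) ≤ 2 * n1 := by
    rw [hN]
    push_cast
    have := Nat.floor_le (by linarith : (0 : ℝ) ≤ n1)
    linarith
  have hMk : ∀ P : Finset (HeightOneSpectrum (𝓞 K)), P.card ≤ k → (M P : ℝ) ≤ n1 := by
    intro P hP
    refine (hM P).trans ?_
    rw [hn1]
    exact mul_le_mul_of_nonneg_left (pow_le_pow_right₀ hB1 hP) (by linarith)
  have hfN : ∀ P : Finset (HeightOneSpectrum (𝓞 K)), P.card ≤ k → ∀ x, (f P x : ℕ) < N := by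
    intro P hP x
    have h1 : M P ≤ ⌊n1⌋₊ := Nat.le_floor (hMk P hP)
    have h2 := (f P x).isLt
    omega
  -- consequences of equal colours
  have hcol : ∀ P : Finset (HeightOneSpectrum (𝓞 K)), ∀ x ∈ S, ∀ y ∈ S,
      (f P x : ℕ) = (f P y : ℕ) → ShM P (1 / 64) H x y ∧ ShI (1 / 64) H x y := by
    intro P x hx y hy h
    obtain ⟨x0, x1, _, x3, _⟩ := hS x hx
    obtain ⟨y0, y1, _, y3, _⟩ := hS y hy
    obtain ⟨_, h2, h3⟩ := hf P x y x0 x1 y0 y1 x3 y3 (Fin.ext h)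
    exact ⟨h2, h3⟩
  set Mp : ℝ := C2 * R ^ mm * B2 ^ (3 * k) with hMp
  have hR2 : (1 : ℝ) ≤ R ^ mm := one_le_pow₀ hR
  have hMp1 : 1 ≤ Mp := by
    rw [hMp]
    exact one_le_mul_of_one_le_of_one_le (one_le_mul_of_one_le_of_one_le hC2 hR2)
      (one_le_pow₀ hB2)
  -- the number of small sets
  set tt : ℝ := 2 / δ * (((k : ℝ) + 3) * Real.log 2) with htt
  set Np : ℝ := C4 * D ^ k with hNp
  have hNp1 : 1 ≤ Np := one_le_mul_of_one_le_of_one_le hC41 (one_le_pow₀ hD1)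
  have hNe : max C3 1 * Real.exp (2 * tt) = Np := by
    have h1 : 2 * tt = ((k + 3 : ℕ) : ℝ) * (4 * Real.log 2 / δ) := by
      rw [htt]
      push_cast
      field_simp
      ring
    rw [h1, Real.exp_nat_mul, ← hD, hNp, hC4, pow_add]
    ring
  have hsmall : ∀ 𝒱 : Finset (Finset (HeightOneSpectrum (𝓞 K))),
      (∀ V ∈ 𝒱, ∑ i ∈ V, ln i ≤ tt) → (𝒱.card : ℝ) ≤ Np := by
    intro 𝒱 h𝒱
    have h1 := hsets tt 𝒱 h𝒱
    rw [← hNe]
    refine h1.trans ?_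
    rw [show ((1 : ℝ) + 1) * tt = 2 * tt by ring]
    exact mul_le_mul_of_nonneg_right (le_max_left _ _) (Real.exp_pos _).le
  have htt2 : (2 : ℝ) ^ (k + 3) ≤ Real.exp (δ * tt / 2) := by
    have h1 : δ * tt / 2 = ((k + 3 : ℕ) : ℝ) * Real.log 2 := by
      rw [htt]
      push_cast
      field_simp
    rw [h1, Real.exp_nat_mul, Real.exp_log (by norm_num)]
  have hN1 : (1 : ℝ) ≤ N := by
    rw [hN]
    push_cast
    have : (0 : ℝ) ≤ ⌊n1⌋₊ := Nat.cast_nonneg _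
    linarith
  -- one class
  have key : ∀ c : Fin (M Z), ((S.filter (fun x => f Z x = c)).card : ℝ) ≤
      36 * Real.exp (δ * R) * (Np * Mp) *
        (U * (N : ℝ) ^ 2 + (𝒜.card : ℝ) * N + (ℬ.card : ℝ) * N) := by
    intro c
    set S' : Finset K := S.filter (fun x => f Z x = c) with hS'
    have hmem : ∀ x ∈ S', x ∈ S ∧ f Z x = c := fun x hx => Finset.mem_filter.1 hx
    have hZZ : ∀ x ∈ S', ∀ y ∈ S', ShM Z (1 / 64) H x y ∧ ShI (1 / 64) H x y := by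
      intro x hx y hy
      exact hcol Z x (hmem x hx).1 y (hmem y hy).1 (by rw [(hmem x hx).2, (hmem y hy).2])
    set a : K → Finset (HeightOneSpectrum (𝓞 K)) × ℕ := fun x =>
      (fil 0 x, (f (fil 0 x) x : ℕ)) with ha
    set b : K → Finset (HeightOneSpectrum (𝓞 K)) × ℕ := fun x =>
      (fil 2 x, (f (fil 2 x) x : ℕ)) with hb
    -- equal labels
    have haa : ∀ x ∈ S, ∀ y ∈ S, a x = a y → fil 0 x = fil 0 y ∧
        ShM (fil 0 x) (1 / 64) H x y := by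
      intro x hx y hy h
      have h1 : fil 0 x = fil 0 y := congrArg Prod.fst h
      have h2 : (f (fil 0 x) x : ℕ) = (f (fil 0 y) y : ℕ) := congrArg Prod.snd h
      rw [← h1] at h2
      exact ⟨h1, (hcol _ x hx y hy h2).1⟩
    have hbb : ∀ x ∈ S, ∀ y ∈ S, b x = b y → fil 2 x = fil 2 y ∧
        ShM (fil 2 x) (1 / 64) H x y := by
      intro x hx y hy h
      have h1 : fil 2 x = fil 2 y := congrArg Prod.fst h
      have h2 : (f (fil 2 x) x : ℕ) = (f (fil 2 y) y : ℕ) := congrArg Prod.snd h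
      rw [← h1] at h2
      exact ⟨h1, (hcol _ x hx y hy h2).1⟩
    set 𝒜' : Finset (Finset (HeightOneSpectrum (𝓞 K)) × ℕ) := 𝒜 ×ˢ Finset.range N with hA'
    set ℬ' : Finset (Finset (HeightOneSpectrum (𝓞 K)) × ℕ) := ℬ ×ˢ Finset.range N with hB'
    set E : Finset ((Finset (HeightOneSpectrum (𝓞 K)) × ℕ) ×
      (Finset (HeightOneSpectrum (𝓞 K)) × ℕ)) := S'.image (fun x => (a x, b x)) with hE
    have hinj : Set.InjOn (fun x => (a x, b x)) (S' : Set K) := by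
      intro x hx y hy h
      have hx' := Finset.mem_coe.1 hx
      have hy' := Finset.mem_coe.1 hy
      have h1 : a x = a y := congrArg Prod.fst h
      have h2 : b x = b y := congrArg Prod.snd h
      obtain ⟨x0, x1, x2, x3, _, _, x6⟩ := hS x (hmem x hx').1
      obtain ⟨y0, y1, y2, y3, _, _, y6⟩ := hS y (hmem y hy').1
      obtain ⟨e0, m0⟩ := haa x (hmem x hx').1 y (hmem y hy').1 h1
      obtain ⟨e2, m2⟩ := hbb x (hmem x hx').1 y (hmem y hy').1 h2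
      obtain ⟨m1, mI⟩ := hZZ x hx' y hy'
      refine cg_eq x0 x1 y0 y1 H hH0 x2 y2 hH64 ?_ ?_ mI
      · intro i
        fin_cases i
        · exact e0
        · exact x6.trans y6.symm
        · exact e2
      · intro i
        fin_cases i
        · exact m0
        · have : ShM (fil 1 x) (1 / 64) H x y := by
            rw [x6]
            exact m1
          exact this
        · exact m2
    have hcard : S'.card = E.card := by
      rw [hE, Finset.card_image_of_injOn hinj]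
    have hEsub : E ⊆ 𝒜' ×ˢ ℬ' := by
      intro e he
      obtain ⟨x, hx, rfl⟩ := Finset.mem_image.1 he
      obtain ⟨_, _, _, _, x4, x5, _⟩ := hS x (hmem x hx).1
      refine Finset.mem_product.2 ⟨Finset.mem_product.2 ⟨x4, ?_⟩, Finset.mem_product.2 ⟨x5, ?_⟩⟩
      · exact Finset.mem_range.2 (hfN _ (hAk _ x4) x)
      · exact Finset.mem_range.2 (hfN _ (hBk _ x5) x)
    have hXex : ∀ e ∈ E, ∃ x ∈ S', a x = e.1 ∧ b x = e.2 := by
      intro e he
      obtain ⟨x, hx, hxe⟩ := Finset.mem_image.1 he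
      exact ⟨x, hx, congrArg Prod.fst hxe, congrArg Prod.snd hxe⟩
    choose! X hX using hXex
    set Bad1 : (Finset (HeightOneSpectrum (𝓞 K)) × ℕ) → (Finset (HeightOneSpectrum (𝓞 K)) × ℕ) →
        (Finset (HeightOneSpectrum (𝓞 K)) × ℕ) → (Finset (HeightOneSpectrum (𝓞 K)) × ℕ) → Prop :=
      fun α β₁ α₁ β => X (α, β₁) * X (α₁, β) = X (α₁, β₁) ∨
        X (α₁, β) * (1 - X (α, β₁) - X (α₁, β₁)) = -X (α₁, β₁) with hBad1
    set Bad2 : (Finset (HeightOneSpectrum (𝓞 K)) × ℕ) → (Finset (HeightOneSpectrum (𝓞 K)) × ℕ) →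
        (Finset (HeightOneSpectrum (𝓞 K)) × ℕ) → (Finset (HeightOneSpectrum (𝓞 K)) × ℕ) →
        (Finset (HeightOneSpectrum (𝓞 K)) × ℕ) → Prop :=
      fun α β₁ α₁ β₂ α₂ =>
        X (α, β₁) * X (α₁, β₂) = X (α₁, β₁) * X (α₂, β₂) ∨
        (1 - X (α₁, β₁)) * X (α₁, β₂) + (1 - X (α₂, β₂)) * X (α₁, β₁) = 0 ∨
        (1 - X (α, β₁)) * X (α₁, β₂) = (1 - X (α₂, β₂)) * X (α₁, β₁) ∨
        X (α₁, β₂) = X (α₁, β₁) * X (α₂, β₂) ∨
        X (α₁, β₂) * (X (α, β₁) + X (α₁, β₁) - 1) = X (α₁, β₁) * X (α₂, β₂) ∨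
        (1 - X (α₁, β₂)) * X (α₁, β₁) + X (α, β₁) * X (α₁, β₂) = X (α₁, β₁) * X (α₂, β₂) with hBad2
    have hne0 : ∀ x ∈ S', x ≠ 0 := fun x hx => (hS x (hmem x hx).1).1
    have hbad1 : ∀ α β₁ α₁, (α, β₁) ∈ E → (α₁, β₁) ∈ E → α₁ ≠ α →
        (((ℬ'.filter (fun β => (α₁, β) ∈ E ∧ β ≠ β₁ ∧ Bad1 α β₁ α₁ β)).card : ℕ) : ℝ) ≤ 2 := by
      intro α β₁ α₁ h1 h2 _
      obtain ⟨p1, _, _⟩ := hX _ h1
      obtain ⟨q1, _, _⟩ := hX _ h2
      have p0 := hne0 _ p1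
      have q0 := hne0 _ q1
      have hsub : ℬ'.filter (fun β => (α₁, β) ∈ E ∧ β ≠ β₁ ∧ Bad1 α β₁ α₁ β) ⊆
          {b (X (α₁, β₁) / X (α, β₁)),
            b (-X (α₁, β₁) / (1 - X (α, β₁) - X (α₁, β₁)))} := by
        intro β hβ
        obtain ⟨_, h3, _, h4⟩ := Finset.mem_filter.1 hβ
        obtain ⟨_, _, r3⟩ := hX _ h3
        rw [Finset.mem_insert, Finset.mem_singleton]
        rcases h4 with h4 | h4
        · left
          have : X (α₁, β) = X (α₁, β₁) / X (α, β₁) := by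
            rw [eq_div_iff p0, mul_comm]
            exact h4
          rw [← this]
          exact r3.symm
        · right
          have hn : 1 - X (α, β₁) - X (α₁, β₁) ≠ 0 := by
            intro h0
            rw [h0, mul_zero] at h4
            exact q0 (neg_eq_zero.1 h4.symm)
          have : X (α₁, β) = -X (α₁, β₁) / (1 - X (α, β₁) - X (α₁, β₁)) := by
            rw [eq_div_iff hn]
            exact h4
          rw [← this]
          exact r3.symm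
      have h5 : (ℬ'.filter (fun β => (α₁, β) ∈ E ∧ β ≠ β₁ ∧ Bad1 α β₁ α₁ β)).card ≤ 2 :=
        (Finset.card_le_card hsub).trans Finset.card_le_two
      exact_mod_cast h5
    have hbad2 : ∀ α β₁ α₁ β₂, (α, β₁) ∈ E → (α₁, β₁) ∈ E → (α₁, β₂) ∈ E → α₁ ≠ α → β₂ ≠ β₁ →
        (((𝒜'.filter (fun α₂ => (α₂, β₂) ∈ E ∧ α₂ ≠ α₁ ∧ Bad2 α β₁ α₁ β₂ α₂)).card : ℕ) : ℝ) ≤
          8 := by
      intro α β₁ α₁ β₂ h1 h2 h3 _ _
      obtain ⟨q1, _, _⟩ := hX _ h2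
      have q0 := hne0 _ q1
      set y1 := X (α, β₁) with hy1
      set y2 := X (α₁, β₁) with hy2
      set y3 := X (α₁, β₂) with hy3
      set vals : Finset K := {y1 * y3 / y2, 1 + (1 - y2) * y3 / y2, 1 - (1 - y1) * y3 / y2,
        y3 / y2, y3 * (y1 + y2 - 1) / y2, ((1 - y3) * y2 + y1 * y3) / y2} with hvals
      have hsub : 𝒜'.filter (fun α₂ => (α₂, β₂) ∈ E ∧ α₂ ≠ α₁ ∧ Bad2 α β₁ α₁ β₂ α₂) ⊆
          vals.image a := by
        intro α₂ hα
        obtain ⟨_, h4, _, h5⟩ := Finset.mem_filter.1 hα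
        obtain ⟨_, r2, _⟩ := hX _ h4
        rw [Finset.mem_image]
        refine ⟨X (α₂, β₂), ?_, r2⟩
        have h6 : y1 * y3 = y2 * X (α₂, β₂) ∨
            (1 - y2) * y3 + (1 - X (α₂, β₂)) * y2 = 0 ∨
            (1 - y1) * y3 = (1 - X (α₂, β₂)) * y2 ∨
            y3 = y2 * X (α₂, β₂) ∨
            y3 * (y1 + y2 - 1) = y2 * X (α₂, β₂) ∨
            (1 - y3) * y2 + y1 * y3 = y2 * X (α₂, β₂) := h5
        rw [hvals]
        simp only [Finset.mem_insert, Finset.mem_singleton]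
        rcases h6 with h6 | h6 | h6 | h6 | h6 | h6
        · left
          rw [eq_div_iff q0]
          linear_combination -h6
        · right; left
          rw [← sub_eq_iff_eq_add', eq_div_iff q0]
          linear_combination -h6
        · right; right; left
          rw [eq_sub_iff_add_eq, ← eq_sub_iff_add_eq', div_eq_iff q0]
          linear_combination h6
        · right; right; right; left
          rw [eq_div_iff q0]
          linear_combination -h6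
        · right; right; right; right; left
          rw [eq_div_iff q0]
          linear_combination -h6
        · right; right; right; right; right
          rw [eq_div_iff q0]
          linear_combination -h6
      have h7 : vals.card ≤ 6 := by
        rw [hvals]
        exact Finset.card_le_six
      have h5 : (𝒜'.filter (fun α₂ => (α₂, β₂) ∈ E ∧ α₂ ≠ α₁ ∧ Bad2 α β₁ α₁ β₂ α₂)).card ≤ 8 :=
        (Finset.card_le_card hsub).trans (Finset.card_image_le.trans (h7.trans (by norm_num)))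
      exact_mod_cast h5
    have hcls : Cls Z (1 / 64) H (S' : Set K) := by
      refine ⟨fun x hx => ?_, fun x hx y hy => hZZ x (Finset.mem_coe.1 hx) y
        (Finset.mem_coe.1 hy)⟩
      obtain ⟨x0, x1, x2, x3, _, _, x6⟩ := hS x (hmem x (Finset.mem_coe.1 hx)).1
      exact ⟨x0, x1, x2, x3, x6⟩
    have hfs : ∀ x ∈ (S' : Set K), (fs x).card ≤ 3 * k := by
      intro x hx
      obtain ⟨_, _, _, _, x4, x5, x6⟩ := hS x (hmem x (Finset.mem_coe.1 hx)).1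
      have h1 := sum_fil (x := x) (fun _ => (1 : ℝ))
      simp only [Finset.sum_const, nsmul_eq_mul, mul_one] at h1
      have h2 : (fs x).card = (fil 0 x).card + (fil 1 x).card + (fil 2 x).card := by
        exact_mod_cast h1
      have h3 := hAk _ x4
      have h4 := hBk _ x5
      have h5 : (fil 1 x).card ≤ k := by
        rw [x6]
        exact hZk
      omega
    have hgood : ∀ (α α₂ : Finset (HeightOneSpectrum (𝓞 K)) × ℕ)
        (O : Finset (HeightOneSpectrum (𝓞 K))), ((((ℬ' ×ˢ 𝒜' ×ˢ ℬ').filter (fun p =>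
        ((α, p.1) ∈ E ∧ (p.2.1, p.1) ∈ E ∧ (p.2.1, p.2.2) ∈ E ∧ (α₂, p.2.2) ∈ E) ∧
        (p.2.1 ≠ α ∧ p.2.2 ≠ p.1 ∧ α₂ ≠ p.2.1) ∧ p.1.1 ∩ p.2.2.1 = O ∧
        ¬ Bad1 α p.1 p.2.1 p.2.2 ∧ ¬ Bad2 α p.1 p.2.1 p.2.2 α₂)).card : ℕ) : ℝ) ≤ Mp := by
      intro α α₂ O
      set T := (ℬ' ×ˢ 𝒜' ×ˢ ℬ').filter (fun p =>
        ((α, p.1) ∈ E ∧ (p.2.1, p.1) ∈ E ∧ (p.2.1, p.2.2) ∈ E ∧ (α₂, p.2.2) ∈ E) ∧
        (p.2.1 ≠ α ∧ p.2.2 ≠ p.1 ∧ α₂ ≠ p.2.1) ∧ p.1.1 ∩ p.2.2.1 = O ∧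
        ¬ Bad1 α p.1 p.2.1 p.2.2 ∧ ¬ Bad2 α p.1 p.2.1 p.2.2 α₂) with hT
      set φ : (Finset (HeightOneSpectrum (𝓞 K)) × ℕ) × (Finset (HeightOneSpectrum (𝓞 K)) × ℕ) ×
        (Finset (HeightOneSpectrum (𝓞 K)) × ℕ) → K × K × K × K := fun p =>
        (X (α, p.1), X (p.2.1, p.1), X (p.2.1, p.2.2), X (α₂, p.2.2)) with hφ
      have hφinj : Set.InjOn φ (T : Set _) := by
        intro p hp q hq h
        obtain ⟨_, ⟨p1, p2, _, p4⟩, _⟩ := Finset.mem_filter.1 (Finset.mem_coe.1 hp)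
        obtain ⟨_, ⟨q1, q2, _, q4⟩, _⟩ := Finset.mem_filter.1 (Finset.mem_coe.1 hq)
        have h1 : X (α, p.1) = X (α, q.1) := congrArg (fun u => u.1) h
        have h2 : X (p.2.1, p.1) = X (q.2.1, q.1) := congrArg (fun u => u.2.1) h
        have h4 : X (α₂, p.2.2) = X (α₂, q.2.2) := congrArg (fun u => u.2.2.2) h
        have e1 : p.1 = q.1 := by
          have u1 := (hX _ p1).2.2
          have u2 := (hX _ q1).2.2
          rw [h1] at u1
          exact u1.symm.trans u2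
        have e2 : p.2.1 = q.2.1 := by
          have u1 := (hX _ p2).2.1
          have u2 := (hX _ q2).2.1
          rw [h2] at u1
          exact u1.symm.trans u2
        have e3 : p.2.2 = q.2.2 := by
          have u1 := (hX _ p4).2.2
          have u2 := (hX _ q4).2.2
          rw [h4] at u1
          exact u1.symm.trans u2
        exact Prod.ext e1 (Prod.ext e2 e3)
      have hTc : (T.image φ).card = T.card := Finset.card_image_of_injOn hφinj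
      have hfil2 : ∀ x ∈ S', ∀ β, b x = β → fil 2 x = β.1 := by
        intro x _ β h
        rw [← h]
      have h3 := hpath R H hR hC2H hHR Z (S' : Set K) (3 * k) hcls hfs O (T.image φ) ?_ ?_
      · rw [hTc] at h3
        exact h3
      · intro q hq
        obtain ⟨p, hp, rfl⟩ := Finset.mem_image.1 hq
        obtain ⟨_, ⟨p1, p2, p3, p4⟩, ⟨p5, p6, p7⟩, p8, p9, p10⟩ := Finset.mem_filter.1 hp
        obtain ⟨s1, a1, b1⟩ := hX _ p1
        obtain ⟨s2, a2, b2⟩ := hX _ p2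
        obtain ⟨s3, a3, b3⟩ := hX _ p3
        obtain ⟨s4, a4, b4⟩ := hX _ p4
        have hne12 : X (α, p.1) ≠ X (p.2.1, p.1) := by
          intro h
          rw [h] at a1
          exact p5 (a2.symm.trans a1)
        have hne23 : X (p.2.1, p.1) ≠ X (p.2.1, p.2.2) := by
          intro h
          rw [h] at b2
          exact p6 (b3.symm.trans b2)
        have hne34 : X (p.2.1, p.2.2) ≠ X (α₂, p.2.2) := by
          intro h
          rw [h] at a3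
          exact p7 (a4.symm.trans a3)
        have hnb1 : ¬ (X (α, p.1) * X (p.2.1, p.2.2) = X (p.2.1, p.1) ∨
            X (p.2.1, p.2.2) * (1 - X (α, p.1) - X (p.2.1, p.1)) = -X (p.2.1, p.1)) := p9
        have hnb2 : ¬ (X (α, p.1) * X (p.2.1, p.2.2) = X (p.2.1, p.1) * X (α₂, p.2.2) ∨
            (1 - X (p.2.1, p.1)) * X (p.2.1, p.2.2) + (1 - X (α₂, p.2.2)) * X (p.2.1, p.1) = 0 ∨
            (1 - X (α, p.1)) * X (p.2.1, p.2.2) = (1 - X (α₂, p.2.2)) * X (p.2.1, p.1) ∨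
            X (p.2.1, p.2.2) = X (p.2.1, p.1) * X (α₂, p.2.2) ∨
            X (p.2.1, p.2.2) * (X (α, p.1) + X (p.2.1, p.1) - 1) =
              X (p.2.1, p.1) * X (α₂, p.2.2) ∨
            (1 - X (p.2.1, p.2.2)) * X (p.2.1, p.1) + X (α, p.1) * X (p.2.1, p.2.2) =
              X (p.2.1, p.1) * X (α₂, p.2.2)) := p10
        push Not at hnb1 hnb2
        refine ⟨⟨s1, s2, s3, s4⟩, ⟨hbb _ (hmem _ s1).1 _ (hmem _ s2).1 (b1.trans b2.symm),
          haa _ (hmem _ s2).1 _ (hmem _ s3).1 (a2.trans a3.symm),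
          hbb _ (hmem _ s3).1 _ (hmem _ s4).1 (b3.trans b4.symm)⟩, ?_,
          ⟨hne12, hne23, hne34⟩, hnb1, hnb2⟩
        show fil 2 (X (α, p.1)) ∩ fil 2 (X (p.2.1, p.2.2)) = O
        rw [hfil2 _ s1 _ b1, hfil2 _ s3 _ b3]
        exact p8
      · intro q hq q' hq'
        obtain ⟨p, hp, rfl⟩ := Finset.mem_image.1 hq
        obtain ⟨p', hp', rfl⟩ := Finset.mem_image.1 hq'
        obtain ⟨_, ⟨p1, _, _, p4⟩, _⟩ := Finset.mem_filter.1 hp
        obtain ⟨_, ⟨p1', _, _, p4'⟩, _⟩ := Finset.mem_filter.1 hp'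
        obtain ⟨s1, a1, b1⟩ := hX _ p1
        obtain ⟨s4, a4, b4⟩ := hX _ p4
        obtain ⟨s1', a1', b1'⟩ := hX _ p1'
        obtain ⟨s4', a4', b4'⟩ := hX _ p4'
        exact ⟨haa _ (hmem _ s1).1 _ (hmem _ s1').1 (a1.trans a1'.symm),
          haa _ (hmem _ s4).1 _ (hmem _ s4').1 (a4.trans a4'.symm)⟩
    have hcA : (𝒜'.card : ℝ) = (𝒜.card : ℝ) * N := by
      rw [hA', Finset.card_product, Finset.card_range]
      push_cast
      rfl
    have hcB : (ℬ'.card : ℝ) = (ℬ.card : ℝ) * N := by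
      rw [hB', Finset.card_product, Finset.card_range]
      push_cast
      rfl
    have hBp : ∀ β ∈ ℬ', β.1 ∈ ℬ := fun β hβ => (Finset.mem_product.1 hβ).1
    have hk := graphO 𝒜' ℬ' E hEsub (fun β => β.1) ln (fun v => (ln_pos v).le) k R δ tt Mp Np
      (U * (N : ℝ) ^ 2) (by linarith) hδ hMp1 hNp1 (by positivity) ?_
      (fun β hβ => hBk _ (hBp β hβ)) (fun β hβ => (hBkR _ (hBp β hβ)).2) htt2 hsmall Bad1 Bad2 (by
      intro α β₁ α₁ h1 h2 h3
      convert hbad1 α β₁ α₁ h1 h2 h3) (by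
      intro α β₁ α₁ β₂ h1 h2 h3 h4 h5
      convert hbad2 α β₁ α₁ β₂ h1 h2 h3 h4 h5) (by
      intro α α₂ O
      convert hgood α α₂ O)
    · rw [hcard]
      rw [hcA, hcB] at hk
      exact hk
    · rw [hcA, hcB]
      have e1 : ((𝒜.card : ℝ) * N) ^ 3 * ((ℬ.card : ℝ) * N) ^ 2 =
          ((𝒜.card : ℝ) ^ 3 * (ℬ.card : ℝ) ^ 2) * (N : ℝ) ^ 5 := by ring
      have e2 : (U * (N : ℝ) ^ 2) ^ 4 = U ^ 4 * (N : ℝ) ^ 8 := by ring
      rw [e1, e2]
      have e3 : (N : ℝ) ^ 5 ≤ (N : ℝ) ^ 8 := pow_le_pow_right₀ hN1 (by norm_num)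
      exact mul_le_mul hU3 e3 (by positivity) (by positivity)
  -- the sum over the classes
  have hsumc : (S.card : ℝ) = ∑ c : Fin (M Z), ((S.filter (fun x => f Z x = c)).card : ℝ) := by
    have h1 : S.card = ∑ c ∈ (Finset.univ : Finset (Fin (M Z))),
        (S.filter (fun x => f Z x = c)).card :=
      Finset.card_eq_sum_card_fiberwise fun x _ => Finset.mem_coe.2 (Finset.mem_univ (f Z x))
    rw [h1]
    push_cast
    rfl
  set Q : ℝ := 36 * Real.exp (δ * R) * (Np * Mp) *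
    (U * (N : ℝ) ^ 2 + (𝒜.card : ℝ) * N + (ℬ.card : ℝ) * N) with hQ
  have hQ0 : 0 ≤ Q := by
    rw [hQ]
    positivity
  have h5 : (S.card : ℝ) ≤ n1 * Q := by
    rw [hsumc]
    calc ∑ c : Fin (M Z), ((S.filter (fun x => f Z x = c)).card : ℝ)
        ≤ ∑ _c : Fin (M Z), Q := Finset.sum_le_sum fun c _ => key c
      _ = (M Z : ℝ) * Q := by
          rw [Finset.sum_const, Finset.card_univ, Fintype.card_fin, nsmul_eq_mul]
      _ ≤ n1 * Q := mul_le_mul_of_nonneg_right (hMk Z hZk) hQ0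
  refine h5.trans ?_
  have hN0 : (0 : ℝ) ≤ N := Nat.cast_nonneg _
  have hNN : (N : ℝ) ≤ (N : ℝ) ^ 2 := by nlinarith
  have hN4 : (N : ℝ) ^ 2 ≤ 4 * n1 ^ 2 := by
    have h6 : (N : ℝ) ^ 2 ≤ (2 * n1) ^ 2 := pow_le_pow_left₀ hN0 hN2 2
    linarith [show (2 * n1) ^ 2 = 4 * n1 ^ 2 by ring]
  have hW0 : 0 ≤ U + (𝒜.card : ℝ) + (ℬ.card : ℝ) := by positivity
  have hQ1 : Q ≤ 36 * Real.exp (δ * R) * (Np * Mp) *
      ((U + (𝒜.card : ℝ) + (ℬ.card : ℝ)) * (4 * n1 ^ 2)) := by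
    rw [hQ]
    refine mul_le_mul_of_nonneg_left ?_ (by positivity)
    have e1 : (𝒜.card : ℝ) * N ≤ (𝒜.card : ℝ) * (N : ℝ) ^ 2 :=
      mul_le_mul_of_nonneg_left hNN (Nat.cast_nonneg _)
    have e2 : (ℬ.card : ℝ) * N ≤ (ℬ.card : ℝ) * (N : ℝ) ^ 2 :=
      mul_le_mul_of_nonneg_left hNN (Nat.cast_nonneg _)
    have e3 : (U + (𝒜.card : ℝ) + (ℬ.card : ℝ)) * (N : ℝ) ^ 2 ≤
        (U + (𝒜.card : ℝ) + (ℬ.card : ℝ)) * (4 * n1 ^ 2) := mul_le_mul_of_nonneg_left hN4 hW0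
    linarith [show (U + (𝒜.card : ℝ) + (ℬ.card : ℝ)) * (N : ℝ) ^ 2 =
      U * (N : ℝ) ^ 2 + (𝒜.card : ℝ) * (N : ℝ) ^ 2 + (ℬ.card : ℝ) * (N : ℝ) ^ 2 by ring]
  have hpow : (B1 ^ 3 * B2 ^ 3 * D) ^ k = (B1 ^ k) ^ 3 * B2 ^ (3 * k) * D ^ k := by
    rw [mul_pow, mul_pow, ← pow_mul, ← pow_mul, ← pow_mul, mul_comm 3 k]
  rw [hpow]
  have hBk0 : (1 : ℝ) ≤ B1 ^ k := one_le_pow₀ hB1
  have hB2k0 : (1 : ℝ) ≤ B2 ^ (3 * k) := one_le_pow₀ hB2
  calc n1 * Q ≤ n1 * (36 * Real.exp (δ * R) * (Np * Mp) *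
        ((U + (𝒜.card : ℝ) + (ℬ.card : ℝ)) * (4 * n1 ^ 2))) :=
        mul_le_mul_of_nonneg_left hQ1 (by linarith)
    _ = 144 * (C1 ^ 3 * C2 * C4) * (R ^ mm * ((B1 ^ k) ^ 3 * B2 ^ (3 * k) * D ^ k) *
          Real.exp (δ * R) * (U + (𝒜.card : ℝ) + (ℬ.card : ℝ))) := by
        rw [hMp, hn1, hNp]
        ring
    _ ≤ C * (R ^ mm * ((B1 ^ k) ^ 3 * B2 ^ (3 * k) * D ^ k) *
          Real.exp (δ * R) * (U + (𝒜.card : ℝ) + (ℬ.card : ℝ))) := by
        refine mul_le_mul_of_nonneg_right ?_ (by positivity)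
        rw [hC]
        linarith
    _ = C * R ^ mm * ((B1 ^ k) ^ 3 * B2 ^ (3 * k) * D ^ k) * Real.exp (δ * R) *
          (U + (𝒜.card : ℝ) + (ℬ.card : ℝ)) := by
        ring

end Pool.Agent.FPL
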