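import Mathlib

/-!
# KST2 (pure)

A Kővári–Sós–Turán type bound.
-/

namespace Pool.Agent.FPL

private theorem kst2_num (n : ℕ) (t : ℝ) (ht : 0 < t) :
    (n : ℝ) ≤ (1 + t) + ((n * n - n : ℕ) : ℝ) / t := by
  have h0 : n ≤ n * n := Nat.le_mul_self n
  rw [Nat.cast_sub h0, Nat.cast_mul]
  rcases le_or_gt (n : ℝ) (1 + t) with h | h
  · have h1 : (0 : ℝ) ≤ ((n : ℝ) * n - n) / t := by
      apply div_nonneg _ ht.le
      have : (n : ℝ) ≤ (n : ℝ) * n := by exact_mod_cast h0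
      linarith
    linarith
  · have h1 : (n : ℝ) ≤ ((n : ℝ) * n - n) / t := by
      rw [le_div_iff₀ ht]
      nlinarith
    linarith

open Classical in
theorem kst2 {α β : Type*} (𝒜 : Finset α) (ℬ : Finset β) (E : Finset (α × β))
    (hE : E ⊆ 𝒜 ×ˢ ℬ) (M t : ℝ) (hM : 0 ≤ M) (ht : 0 < t)
    (hM2 : ∀ a a' : α, a ≠ a' →
      ((ℬ.filter (fun b => (a, b) ∈ E ∧ (a', b) ∈ E)).card : ℝ) ≤ M) :
    (E.card : ℝ) ≤ (1 + t) * (ℬ.card : ℝ) + M * (𝒜.card : ℝ) ^ 2 / t := by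
  set D : β → Finset α := fun b => 𝒜.filter (fun a => (a, b) ∈ E) with hD
  have h1 : E.card = ∑ b ∈ ℬ, (D b).card := by
    rw [Finset.card_eq_sum_card_fiberwise (f := Prod.snd) (t := ℬ)]
    · refine Finset.sum_congr rfl fun b _ => ?_
      refine Finset.card_bij (fun e _ => e.1) ?_ ?_ ?_
      · rintro ⟨a, b'⟩ he
        simp only [Finset.mem_filter] at he
        obtain ⟨he, rfl⟩ := he
        simp only [hD, Finset.mem_filter]
        exact ⟨(Finset.mem_product.1 (hE he)).1, he⟩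
      · rintro ⟨a, b1⟩ h1 ⟨a', b2⟩ h2 h
        simp only [Finset.mem_filter] at h1 h2
        obtain ⟨-, rfl⟩ := h1
        obtain ⟨-, h2⟩ := h2
        simp only at h h2
        subst h h2
        rfl
      · intro a ha
        simp only [hD, Finset.mem_filter] at ha
        exact ⟨(a, b), by simp [ha.2], rfl⟩
    · intro e he
      exact (Finset.mem_product.1 (hE he)).2
  have h2 : ∑ b ∈ ℬ, (D b).offDiag.card =
      ∑ q ∈ 𝒜.offDiag, (ℬ.filter (fun b => (q.1, b) ∈ E ∧ (q.2, b) ∈ E)).card := by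
    have h3 := Finset.sum_card_bipartiteAbove_eq_sum_card_bipartiteBelow
      (s := 𝒜.offDiag) (t := ℬ) (fun (q : α × α) (b : β) => (q.1, b) ∈ E ∧ (q.2, b) ∈ E)
    rw [show (∑ q ∈ 𝒜.offDiag, (ℬ.filter (fun b => (q.1, b) ∈ E ∧ (q.2, b) ∈ E)).card) = _
      from h3]
    refine Finset.sum_congr rfl fun b _ => ?_
    congr 1
    ext ⟨a, a'⟩
    simp only [hD, Finset.mem_offDiag, Finset.mem_filter, Finset.bipartiteBelow]
    tauto
  have h3 : (∑ b ∈ ℬ, ((D b).offDiag.card : ℝ)) ≤ M * (𝒜.card : ℝ) ^ 2 := by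
    have h4 : (∑ b ∈ ℬ, ((D b).offDiag.card : ℝ)) =
        ∑ q ∈ 𝒜.offDiag, ((ℬ.filter (fun b => (q.1, b) ∈ E ∧ (q.2, b) ∈ E)).card : ℝ) := by
      exact_mod_cast h2
    rw [h4]
    calc ∑ q ∈ 𝒜.offDiag, ((ℬ.filter (fun b => (q.1, b) ∈ E ∧ (q.2, b) ∈ E)).card : ℝ)
        ≤ ∑ _q ∈ 𝒜.offDiag, M :=
          Finset.sum_le_sum fun q hq => hM2 _ _ (Finset.mem_offDiag.1 hq).2.2
      _ = (𝒜.offDiag.card : ℝ) * M := by rw [Finset.sum_const, nsmul_eq_mul]
      _ ≤ (𝒜.card : ℝ) ^ 2 * M := by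
          refine mul_le_mul_of_nonneg_right ?_ hM
          have : 𝒜.offDiag.card ≤ 𝒜.card ^ 2 := by
            rw [Finset.offDiag_card, pow_two]
            exact Nat.sub_le _ _
          exact_mod_cast this
      _ = M * (𝒜.card : ℝ) ^ 2 := mul_comm _ _
  have h4 : (E.card : ℝ) ≤ ∑ b ∈ ℬ, ((1 + t) + ((D b).offDiag.card : ℝ) / t) := by
    rw [h1, Nat.cast_sum]
    refine Finset.sum_le_sum fun b _ => ?_
    rw [Finset.offDiag_card]
    exact kst2_num _ t ht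
  refine h4.trans ?_
  rw [Finset.sum_add_distrib, Finset.sum_const, nsmul_eq_mul, ← Finset.sum_div]
  have h5 := div_le_div_of_nonneg_right h3 ht.le
  linarith

end Pool.Agent.FPL
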