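import Pool.Agent.FPL.PairP
import Pool.Agent.FPL.KST2

/-!
# CellP (size 4)

Copy of `CellG` (complete: `fpl_CellG.lean` in the store) with `pairP`; for `x ∈ S` choose `B x ∈ ℬ` as in the hypothesis, `b x = (B x, (f (B x) x : ℕ))`, `a x = (fil 0 x, (f (fil 0 x) x : ℕ))`.
* `x ↦ (a x, b x)` is injective on `S'`: `P = fil 0 x ∪ Z ∪ B x` (the same for `y`); the parts agree on `P` (`prt = 0, 1, 2`), the masses on the three pieces are close; `fs x \ P ⊆ fil 2 x \ B x` has mass `≤ H / 16 ≤ (1 - 1/2) H`: `gapA` with `P`, `η = 1/2`.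
* For `α ≠ α'` the number of `β` with `(α, β), (α', β) ∈ E` is at most `M = C2 R B2 ^ k` by `pairP` (`B y = β.1` for `y` and `φ y`: both `B y` and `B (φ y)` are `β.1`; `β` is determined by `y`; `φ y ≠ y` because the labels `a` are different).
* `kst2` and the sum over the classes as in `CellG`. `(fil 0 x).card, Z.card, (B x).card ≤ (fs x).card ≤ k`.
-/

namespace Pool.Agent.FPL

open NumberField IsDedekindDomain Pool.Agent.H7.Abc Pool.Agent.AbcE Pool.Agent.AbcF Pool.Agent.TMS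
  Pool.Agent.TM2

/-- A sum with small terms. -/
private theorem cg_sum_le {α : Type*} (P : Finset α) (f : α → ℝ) (c : ℝ) (hc : 0 ≤ c)
    (h : ∀ v ∈ P, f v * (P.card : ℝ) ≤ c) : ∑ v ∈ P, f v ≤ c := by
  rcases P.eq_empty_or_nonempty with h0 | h0
  · rw [h0, Finset.sum_empty]
    exact hc
  · have hp : (0 : ℝ) < P.card := by exact_mod_cast Finset.card_pos.2 h0
    have h1 : (∑ v ∈ P, f v) * (P.card : ℝ) ≤ c * (P.card : ℝ) := by
      rw [Finset.sum_mul]
      calc ∑ v ∈ P, f v * (P.card : ℝ) ≤ ∑ _v ∈ P, c := Finset.sum_le_sum h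
        _ = c * (P.card : ℝ) := by rw [Finset.sum_const, nsmul_eq_mul, mul_comm]
    exact le_of_mul_le_mul_right h1 hp

/-- The sum over a union. -/
private theorem cp_union {α : Type*} [DecidableEq α] (P Q : Finset α) (f : α → ℝ)
    (hf : ∀ v, 0 ≤ f v) : ∑ v ∈ P ∪ Q, f v ≤ ∑ v ∈ P, f v + ∑ v ∈ Q, f v := by
  rw [← Finset.sum_union_inter]
  have : 0 ≤ ∑ v ∈ P ∩ Q, f v := Finset.sum_nonneg fun v _ => hf v
  linarith

/-- The places outside the zeros and the ones are poles. -/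
private theorem cp_pole {K : Type*} [Field K] [NumberField K] {x : K}
    {v : HeightOneSpectrum (𝓞 K)} (hv : v ∈ fs x) (h0 : v ∉ fil 0 x) (h1 : v ∉ fil 1 x) :
    v ∈ fil 2 x := by
  rw [mem_fil] at *
  have h3 : prt x v = 0 ∨ prt x v = 1 ∨ prt x v = 2 := by
    generalize prt x v = q
    fin_cases q <;> simp
  rcases h3 with h | h | h
  · exact absurd ⟨hv, h⟩ h0
  · exact absurd ⟨hv, h⟩ h1
  · exact ⟨hv, h⟩

/-- Elements with the same zeros and ones and a large common set of poles with close masses are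
equal. -/
private theorem cp_eq {K : Type*} [Field K] [NumberField K] {x y : K} (hx : x ≠ 0) (hx1 : x ≠ 1)
    (hy : y ≠ 0) (hy1 : y ≠ 1) (H : ℝ) (hH0 : 0 ≤ H) (hHx : H ≤ hgt x) (hHy : H ≤ hgt y)
    (hH : 64 * (dg K * Real.log 2) < H) (h0 : fil 0 x = fil 0 y) (h1 : fil 1 x = fil 1 y)
    (B : Finset (HeightOneSpectrum (𝓞 K))) (hBx : B ⊆ fil 2 x) (hBy : B ⊆ fil 2 y)
    (hmx : ∀ D : Finset (HeightOneSpectrum (𝓞 K)), D ⊆ fil 2 x → (∀ v ∈ D, v ∉ B) →
      ∑ v ∈ D, ms x v ≤ H / 16)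
    (hmy : ∀ D : Finset (HeightOneSpectrum (𝓞 K)), D ⊆ fil 2 y → (∀ v ∈ D, v ∉ B) →
      ∑ v ∈ D, ms y v ≤ H / 16)
    (m0 : ShM (fil 0 x) (1 / 64) H x y) (m1 : ShM (fil 1 x) (1 / 64) H x y)
    (m2 : ShM B (1 / 64) H x y) (hI : ShI (1 / 64) H x y) : x = y := by
  classical
  have hd : 0 < dg K := by linarith [one_le_dg K]
  have hl : 0 < Real.log 2 := Real.log_pos (by norm_num)
  have hsum : ∀ P : Finset (HeightOneSpectrum (𝓞 K)), ShM P (1 / 64) H x y →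
      ∑ v ∈ P, |ms x v - ms y v| ≤ 1 / 64 * H := fun P h =>
    cg_sum_le _ _ _ (by linarith) h
  refine gapA hx hx1 hy hy1 (fil 0 x ∪ (fil 1 x ∪ B)) H (1 / 2) hHx hHy ?_ ?_ ?_ ?_ ?_ ?_
  · intro v hv
    rw [Finset.mem_union, Finset.mem_union] at hv
    rcases hv with hv | hv | hv
    · have h2 := hv
      rw [h0] at h2
      rw [(mem_fil.1 hv).2, (mem_fil.1 h2).2]
    · have h2 := hv
      rw [h1] at h2
      rw [(mem_fil.1 hv).2, (mem_fil.1 h2).2]
    · rw [(mem_fil.1 (hBx hv)).2, (mem_fil.1 (hBy hv)).2]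
  · have h2 := hmx (fs x \ (fil 0 x ∪ (fil 1 x ∪ B))) (fun v hv => by
        rw [Finset.mem_sdiff, Finset.mem_union, Finset.mem_union] at hv
        push Not at hv
        exact cp_pole hv.1 hv.2.1 hv.2.2.1) (fun v hv => by
        rw [Finset.mem_sdiff, Finset.mem_union, Finset.mem_union] at hv
        push Not at hv
        exact hv.2.2.2)
    linarith
  · have h2 := hmy (fs y \ (fil 0 x ∪ (fil 1 x ∪ B))) (fun v hv => by
        rw [Finset.mem_sdiff, Finset.mem_union, Finset.mem_union, h0, h1] at hv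
        push Not at hv
        exact cp_pole hv.1 hv.2.1 hv.2.2.1) (fun v hv => by
        rw [Finset.mem_sdiff, Finset.mem_union, Finset.mem_union] at hv
        push Not at hv
        exact hv.2.2.2)
    linarith
  · have e1 := cp_union (fil 0 x) (fil 1 x ∪ B) (fun v => |ms x v - ms y v|)
      (fun v => abs_nonneg _)
    have e2 := cp_union (fil 1 x) B (fun v => |ms x v - ms y v|) (fun v => abs_nonneg _)
    have := hsum _ m0
    have := hsum _ m1
    have := hsum _ m2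
    linarith
  · have h3 : ∀ w : InfinitePlace K, (w.mult : ℝ) * (|Real.log (w x) - Real.log (w y)| +
        |Real.log (w (x - 1)) - Real.log (w (y - 1))|) ≤ (w.mult : ℝ) * (1 / 64 * H / dg K) := by
      intro w
      refine mul_le_mul_of_nonneg_left ?_ (Nat.cast_nonneg _)
      rw [le_div_iff₀ hd]
      exact hI w
    have h4 : ∑ w : InfinitePlace K, (w.mult : ℝ) = dg K := by
      unfold dg
      rw [← InfinitePlace.sum_mult_eq, Nat.cast_sum]
    calc ∑ w : InfinitePlace K, (w.mult : ℝ) * (|Real.log (w x) - Real.log (w y)| +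
        |Real.log (w (x - 1)) - Real.log (w (y - 1))|)
        ≤ ∑ w : InfinitePlace K, (w.mult : ℝ) * (1 / 64 * H / dg K) :=
          Finset.sum_le_sum fun w _ => h3 w
      _ = 1 / 64 * H := by
          rw [← Finset.sum_mul, h4]
          field_simp
      _ ≤ 1 / 2 * H / 2 := by linarith
  · nlinarith

open Classical in
theorem cellP (K : Type*) [Field K] [NumberField K] : ∃ C Bc : ℝ, 1 ≤ C ∧ 1 ≤ Bc ∧
    ∀ R H : ℝ, 1 ≤ R → C ≤ H → H ≤ Real.exp R → ∀ (Z : Finset (HeightOneSpectrum (𝓞 K)))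
      (𝒜 ℬ : Finset (Finset (HeightOneSpectrum (𝓞 K)))) (k : ℕ) (t : ℝ), 0 < t →
      ∀ S : Finset K,
      (∀ x ∈ S, x ≠ 0 ∧ x ≠ 1 ∧ H ≤ hgt x ∧ hgt x ≤ 2 * H ∧ (fs x).card ≤ k ∧ fil 0 x ∈ 𝒜 ∧
        (∃ B ∈ ℬ, B ⊆ fil 2 x ∧ ∑ v ∈ fil 2 x \ B, ms x v ≤ H / 16) ∧ fil 1 x = Z) →
      (S.card : ℝ) ≤ C * R * Bc ^ k * ((1 + t) * (ℬ.card : ℝ) + (𝒜.card : ℝ) ^ 2 / t) := by
  classical
  obtain ⟨C1, B1, hC1, hB1, hsc⟩ := shape_col K (1 / 64) (by norm_num) (by norm_num)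
  obtain ⟨C2, B2, hC2, hB2, hpair⟩ := pairP K
  have hd : 0 < dg K := by linarith [one_le_dg K]
  have hl : 0 < Real.log 2 := Real.log_pos (by norm_num)
  have hdl : 0 < dg K * Real.log 2 := mul_pos hd hl
  have hC12 : (1 : ℝ) ≤ C1 ^ 2 := one_le_pow₀ hC1
  have hC13 : (1 : ℝ) ≤ C1 ^ 3 := one_le_pow₀ hC1
  have hCC : (1 : ℝ) ≤ C1 ^ 3 * C2 := one_le_mul_of_one_le_of_one_le hC13 hC2
  refine ⟨4 * (C1 ^ 3 * C2) + 2 * C1 ^ 2 + C1 + C2 + 64 * (dg K * Real.log 2) + 1,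
    B1 ^ 3 * B2, by linarith, one_le_mul_of_one_le_of_one_le (one_le_pow₀ hB1)
      hB2, ?_⟩
  intro R H hR hCH hHR Z 𝒜 ℬ k t ht S hS
  set C : ℝ := 4 * (C1 ^ 3 * C2) + 2 * C1 ^ 2 + C1 + C2 + 64 * (dg K * Real.log 2) + 1 with hC
  have hC1H : C1 ≤ H := by linarith
  have hC2H : C2 ≤ H := by linarith
  have hH0 : 0 ≤ H := by linarith
  have hH64 : 64 * (dg K * Real.log 2) < H := by linarith
  choose M f hM hf using fun P => hsc H hC1H P
  rcases S.eq_empty_or_nonempty with rfl | ⟨x0, hx0⟩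
  · rw [Finset.card_empty, Nat.cast_zero]
    have e1 : 0 ≤ C := by linarith
    have e2 : (0 : ℝ) ≤ B1 ^ 3 * B2 := by positivity
    have e3 : 0 ≤ R := by linarith
    positivity
  choose! Bf hBf using fun x (hx : x ∈ S) => (hS x hx).2.2.2.2.2.2.1
  have hfil : ∀ (i : Fin 3) (x : K), (fil i x).card ≤ (fs x).card := fun i x =>
    Finset.card_le_card (fun v hv => (mem_fil.1 hv).1)
  have hAk : ∀ x ∈ S, (fil 0 x).card ≤ k := fun x hx =>
    (hfil 0 x).trans (hS x hx).2.2.2.2.1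
  have hBk : ∀ x ∈ S, (Bf x).card ≤ k := fun x hx =>
    (Finset.card_le_card (hBf x hx).2.1).trans ((hfil 2 x).trans (hS x hx).2.2.2.2.1)
  have hZk : Z.card ≤ k := by
    have h1 := (hfil 1 x0).trans (hS x0 hx0).2.2.2.2.1
    rwa [(hS x0 hx0).2.2.2.2.2.2.2] at h1
  -- the number of colours
  set n1 : ℝ := C1 * B1 ^ k with hn1
  have hn1' : 1 ≤ n1 := one_le_mul_of_one_le_of_one_le hC1 (one_le_pow₀ hB1)
  set N : ℕ := ⌊n1⌋₊ + 1 with hN
  have hN2 : (N : ℝ) ≤ 2 * n1 := by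
    rw [hN]
    push_cast
    have := Nat.floor_le (by linarith : (0 : ℝ) ≤ n1)
    linarith
  have hMk : ∀ P : Finset (HeightOneSpectrum (𝓞 K)), P.card ≤ k → (M P : ℝ) ≤ n1 := by
    intro P hP
    refine (hM P).trans ?_
    rw [hn1]
    exact mul_le_mul_of_nonneg_left (pow_le_pow_right₀ hB1 hP) (by linarith)
  have hfN : ∀ P : Finset (HeightOneSpectrum (𝓞 K)), P.card ≤ k → ∀ x, (f P x : ℕ) < N := by
    intro P hP x
    have h1 : M P ≤ ⌊n1⌋₊ := Nat.le_floor (hMk P hP)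
    have h2 := (f P x).isLt
    omega
  -- consequences of equal colours
  have hcol : ∀ P : Finset (HeightOneSpectrum (𝓞 K)), ∀ x ∈ S, ∀ y ∈ S,
      (f P x : ℕ) = (f P y : ℕ) → ShM P (1 / 64) H x y ∧ ShI (1 / 64) H x y := by
    intro P x hx y hy h
    obtain ⟨x0, x1, _, x3, _⟩ := hS x hx
    obtain ⟨y0, y1, _, y3, _⟩ := hS y hy
    obtain ⟨_, h2, h3⟩ := hf P x y x0 x1 y0 y1 x3 y3 (Fin.ext h)
    exact ⟨h2, h3⟩
  set Mp : ℝ := C2 * R * B2 ^ k with hMp
  have hMp0 : 0 ≤ Mp := by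
    rw [hMp]
    have : (0 : ℝ) ≤ B2 ^ k := pow_nonneg (by linarith) _
    have : 0 ≤ C2 * R := mul_nonneg (by linarith) (by linarith)
    positivity
  -- one class
  have key : ∀ c : Fin (M Z), ((S.filter (fun x => f Z x = c)).card : ℝ) ≤
      (1 + t) * ((ℬ.card : ℝ) * N) + Mp * ((𝒜.card : ℝ) * N) ^ 2 / t := by
    intro c
    set S' : Finset K := S.filter (fun x => f Z x = c) with hS'
    have hmem : ∀ x ∈ S', x ∈ S ∧ f Z x = c := fun x hx => Finset.mem_filter.1 hx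
    have hZZ : ∀ x ∈ S', ∀ y ∈ S', ShM Z (1 / 64) H x y ∧ ShI (1 / 64) H x y := by
      intro x hx y hy
      exact hcol Z x (hmem x hx).1 y (hmem y hy).1 (by rw [(hmem x hx).2, (hmem y hy).2])
    set a : K → Finset (HeightOneSpectrum (𝓞 K)) × ℕ := fun x =>
      (fil 0 x, (f (fil 0 x) x : ℕ)) with ha
    set b : K → Finset (HeightOneSpectrum (𝓞 K)) × ℕ := fun x =>
      (Bf x, (f (Bf x) x : ℕ)) with hb
    -- equal labels
    have haa : ∀ x ∈ S, ∀ y ∈ S, a x = a y → fil 0 x = fil 0 y ∧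
        ShM (fil 0 x) (1 / 64) H x y := by
      intro x hx y hy h
      have h1 : fil 0 x = fil 0 y := congrArg Prod.fst h
      have h2 : (f (fil 0 x) x : ℕ) = (f (fil 0 y) y : ℕ) := congrArg Prod.snd h
      rw [← h1] at h2
      exact ⟨h1, (hcol _ x hx y hy h2).1⟩
    have hbb : ∀ x ∈ S, ∀ y ∈ S, b x = b y → Bf x = Bf y ∧
        ShM (Bf x) (1 / 64) H x y := by
      intro x hx y hy h
      have h1 : Bf x = Bf y := congrArg Prod.fst h
      have h2 : (f (Bf x) x : ℕ) = (f (Bf y) y : ℕ) := congrArg Prod.snd h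
      rw [← h1] at h2
      exact ⟨h1, (hcol _ x hx y hy h2).1⟩
    set 𝒜' : Finset (Finset (HeightOneSpectrum (𝓞 K)) × ℕ) := 𝒜 ×ˢ Finset.range N with hA'
    set ℬ' : Finset (Finset (HeightOneSpectrum (𝓞 K)) × ℕ) := ℬ ×ˢ Finset.range N with hB'
    set E : Finset ((Finset (HeightOneSpectrum (𝓞 K)) × ℕ) ×
      (Finset (HeightOneSpectrum (𝓞 K)) × ℕ)) := S'.image (fun x => (a x, b x)) with hE
    have hmass : ∀ x ∈ S, ∀ D : Finset (HeightOneSpectrum (𝓞 K)), D ⊆ fil 2 x →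
        (∀ v ∈ D, v ∉ Bf x) → ∑ v ∈ D, ms x v ≤ H / 16 := by
      intro x hx D hD hDB
      refine le_trans ?_ (hBf x hx).2.2
      refine Finset.sum_le_sum_of_subset_of_nonneg (fun v hv => ?_) fun v _ _ => ms_nonneg x v
      exact Finset.mem_sdiff.2 ⟨hD hv, hDB v hv⟩
    have hinj : Set.InjOn (fun x => (a x, b x)) (S' : Set K) := by
      intro x hx y hy h
      have hx' := Finset.mem_coe.1 hx
      have hy' := Finset.mem_coe.1 hy
      have h1 : a x = a y := congrArg Prod.fst h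
      have h2 : b x = b y := congrArg Prod.snd h
      obtain ⟨x0, x1, x2, x3, _, _, _, x6⟩ := hS x (hmem x hx').1
      obtain ⟨y0, y1, y2, y3, _, _, _, y6⟩ := hS y (hmem y hy').1
      obtain ⟨e0, m0⟩ := haa x (hmem x hx').1 y (hmem y hy').1 h1
      obtain ⟨e2, m2⟩ := hbb x (hmem x hx').1 y (hmem y hy').1 h2
      obtain ⟨m1, mI⟩ := hZZ x hx' y hy'
      have m1' : ShM (fil 1 x) (1 / 64) H x y := by
        rw [x6]
        exact m1
      refine cp_eq x0 x1 y0 y1 H hH0 x2 y2 hH64 e0 (x6.trans y6.symm) (Bf x)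
        (hBf x (hmem x hx').1).2.1 ?_ (hmass x (hmem x hx').1) ?_ m0 m1' m2 mI
      · rw [e2]
        exact (hBf y (hmem y hy').1).2.1
      · rw [e2]
        exact hmass y (hmem y hy').1
    have hcard : S'.card = E.card := by
      rw [hE, Finset.card_image_of_injOn hinj]
    have hEsub : E ⊆ 𝒜' ×ˢ ℬ' := by
      intro e he
      obtain ⟨x, hx, rfl⟩ := Finset.mem_image.1 he
      have hxS := (hmem x hx).1
      have x4 := (hS x hxS).2.2.2.2.2.1
      have x5 := (hBf x hxS).1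
      refine Finset.mem_product.2 ⟨Finset.mem_product.2 ⟨x4, ?_⟩, Finset.mem_product.2 ⟨x5, ?_⟩⟩
      · exact Finset.mem_range.2 (hfN _ (hAk _ hxS) x)
      · exact Finset.mem_range.2 (hfN _ (hBk _ hxS) x)
    have hpairs : ∀ α α' : Finset (HeightOneSpectrum (𝓞 K)) × ℕ, α ≠ α' →
        ((ℬ'.filter (fun β => (α, β) ∈ E ∧ (α', β) ∈ E)).card : ℝ) ≤ Mp := by
      intro α α' hαα
      set T := ℬ'.filter (fun β => (α, β) ∈ E ∧ (α', β) ∈ E) with hT
      rcases T.eq_empty_or_nonempty with hT0 | hTn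
      · rw [hT0, Finset.card_empty, Nat.cast_zero]
        exact hMp0
      have h1 : ∀ β ∈ T, ∃ x ∈ S', a x = α ∧ b x = β := by
        intro β hβ
        obtain ⟨x, hx, hxe⟩ := Finset.mem_image.1 (Finset.mem_filter.1 hβ).2.1
        exact ⟨x, hx, congrArg Prod.fst hxe, congrArg Prod.snd hxe⟩
      have h2 : ∀ β ∈ T, ∃ x ∈ S', a x = α' ∧ b x = β := by
        intro β hβ
        obtain ⟨x, hx, hxe⟩ := Finset.mem_image.1 (Finset.mem_filter.1 hβ).2.2
        exact ⟨x, hx, congrArg Prod.fst hxe, congrArg Prod.snd hxe⟩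
      choose! u hu using h1
      choose! u' hu' using h2
      have huinj : Set.InjOn u (T : Set _) := by
        intro β hβ β' hβ' h
        rw [← (hu β (Finset.mem_coe.1 hβ)).2.2, ← (hu β' (Finset.mem_coe.1 hβ')).2.2, h]
      have hTc : (T.image u).card = T.card := Finset.card_image_of_injOn huinj
      -- the data of `y` in the image
      have hy : ∀ y ∈ T.image u, y ∈ S' ∧ a y = α ∧ u' (b y) ∈ S' ∧ a (u' (b y)) = α' ∧
          b (u' (b y)) = b y := by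
        intro y hy
        obtain ⟨β, hβ, rfl⟩ := Finset.mem_image.1 hy
        obtain ⟨p1, p2, p3⟩ := hu β hβ
        obtain ⟨q1, q2, q3⟩ := hu' β hβ
        rw [p3]
        exact ⟨p1, p2, q1, q2, q3⟩
      have hA0 : ∀ x ∈ S', a x = α → fil 0 x = α.1 := by
        intro x _ h
        rw [← h]
      have hA1 : ∀ x ∈ S', a x = α' → fil 0 x = α'.1 := by
        intro x _ h
        rw [← h]
      have h3 := hpair R H hR hC2H hHR α.1 α'.1 Z k (T.image u) (fun y => u' (b y)) Bf ?_ ?_ ?_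
      · rw [hTc] at h3
        exact h3
      · intro y hyy
        obtain ⟨p1, p2, q1, q2, q3⟩ := hy y hyy
        obtain ⟨x0, x1, x2, x3, x7, _, _, x6⟩ := hS y (hmem y p1).1
        obtain ⟨y0, y1, y2, y3, y7, _, _, y6⟩ := hS _ (hmem _ q1).1
        obtain ⟨e2, m2⟩ := hbb y (hmem y p1).1 _ (hmem _ q1).1 q3.symm
        obtain ⟨_, g2, g3⟩ := hBf y (hmem y p1).1
        obtain ⟨_, g4, g5⟩ := hBf _ (hmem _ q1).1
        rw [← e2] at g4 g5
        refine ⟨⟨x0, x1, x2, x3, hA0 y p1 p2, x6, x7⟩, ⟨y0, y1, y2, y3, hA1 _ q1 q2, y6, y7⟩, ?_,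
          ⟨g2, by convert g3⟩, ⟨g4, by convert g5⟩, m2⟩
        intro h
        apply hαα
        rw [← p2, ← q2]
        exact congrArg a h.symm
      · intro y hyy z hzz
        obtain ⟨p1, p2, q1, q2, _⟩ := hy y hyy
        obtain ⟨r1, r2, s1, s2, _⟩ := hy z hzz
        obtain ⟨_, m0⟩ := haa y (hmem y p1).1 z (hmem z r1).1 (p2.trans r2.symm)
        obtain ⟨_, m1⟩ := haa _ (hmem _ q1).1 _ (hmem _ s1).1 (q2.trans s2.symm)
        rw [hA0 y p1 p2] at m0
        rw [hA1 _ q1 q2] at m1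
        exact ⟨m0, m1⟩
      · intro y hyy z hzz a' b' ha' hb'
        obtain ⟨p1, _, q1, _, _⟩ := hy y hyy
        obtain ⟨r1, _, s1, _, _⟩ := hy z hzz
        have g1 : a' ∈ S' := by
          rcases ha' with h | h
          · rw [h]; exact p1
          · rw [h]; exact q1
        have g2 : b' ∈ S' := by
          rcases hb' with h | h
          · rw [h]; exact r1
          · rw [h]; exact s1
        exact hZZ a' g1 b' g2
    have hk := kst2 𝒜' ℬ' E hEsub Mp t hMp0 ht (fun α α' h => by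
      convert hpairs α α' h)
    rw [hcard]
    refine hk.trans (le_of_eq ?_)
    rw [hA', hB', Finset.card_product, Finset.card_product, Finset.card_range]
    push_cast
    ring
  -- the sum over the classes
  have hsumc : (S.card : ℝ) = ∑ c : Fin (M Z), ((S.filter (fun x => f Z x = c)).card : ℝ) := by
    have h1 : S.card = ∑ c ∈ (Finset.univ : Finset (Fin (M Z))),
        (S.filter (fun x => f Z x = c)).card :=
      Finset.card_eq_sum_card_fiberwise fun x _ => Finset.mem_coe.2 (Finset.mem_univ (f Z x))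
    rw [h1]
    push_cast
    rfl
  set Q : ℝ := (1 + t) * ((ℬ.card : ℝ) * N) + Mp * ((𝒜.card : ℝ) * N) ^ 2 / t with hQ
  have hQ0 : 0 ≤ Q := by
    rw [hQ]
    positivity
  have h5 : (S.card : ℝ) ≤ n1 * Q := by
    rw [hsumc]
    calc ∑ c : Fin (M Z), ((S.filter (fun x => f Z x = c)).card : ℝ)
        ≤ ∑ _c : Fin (M Z), Q := Finset.sum_le_sum fun c _ => key c
      _ = (M Z : ℝ) * Q := by
          rw [Finset.sum_const, Finset.card_univ, Fintype.card_fin, nsmul_eq_mul]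
      _ ≤ n1 * Q := mul_le_mul_of_nonneg_right (hMk Z hZk) hQ0
  refine h5.trans ?_
  have hN0 : (0 : ℝ) ≤ N := Nat.cast_nonneg _
  have hb1 : (ℬ.card : ℝ) * N ≤ (ℬ.card : ℝ) * (2 * n1) :=
    mul_le_mul_of_nonneg_left hN2 (Nat.cast_nonneg _)
  have ha1 : (𝒜.card : ℝ) * N ≤ (𝒜.card : ℝ) * (2 * n1) :=
    mul_le_mul_of_nonneg_left hN2 (Nat.cast_nonneg _)
  have ha2 : ((𝒜.card : ℝ) * N) ^ 2 ≤ ((𝒜.card : ℝ) * (2 * n1)) ^ 2 :=
    pow_le_pow_left₀ (by positivity) ha1 2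
  have hQ1 : Q ≤ (1 + t) * ((ℬ.card : ℝ) * (2 * n1)) +
      Mp * ((𝒜.card : ℝ) * (2 * n1)) ^ 2 / t := by
    rw [hQ]
    have e1 : (1 + t) * ((ℬ.card : ℝ) * N) ≤ (1 + t) * ((ℬ.card : ℝ) * (2 * n1)) :=
      mul_le_mul_of_nonneg_left hb1 (by linarith)
    have e2 : Mp * ((𝒜.card : ℝ) * N) ^ 2 / t ≤ Mp * ((𝒜.card : ℝ) * (2 * n1)) ^ 2 / t :=
      div_le_div_of_nonneg_right (mul_le_mul_of_nonneg_left ha2 hMp0) ht.le
    linarith
  have hBk0 : (1 : ℝ) ≤ B1 ^ k := one_le_pow₀ hB1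
  have hB2k0 : (1 : ℝ) ≤ B2 ^ k := one_le_pow₀ hB2
  have hpow : (B1 ^ 3 * B2) ^ k = (B1 ^ k) ^ 3 * B2 ^ k := by
    rw [mul_pow, ← pow_mul, ← pow_mul, mul_comm 3 k]
  rw [hpow]
  set X : ℝ := B1 ^ k with hX
  set Y : ℝ := B2 ^ k with hY
  have hu1 : n1 * ((1 + t) * ((ℬ.card : ℝ) * (2 * n1))) ≤
      C * R * (X ^ 3 * Y) * ((1 + t) * (ℬ.card : ℝ)) := by
    have e1 : n1 * (2 * n1) ≤ C * R * (X ^ 3 * Y) := by
      rw [hn1]
      have e2 : C1 * X * (2 * (C1 * X)) = 2 * C1 ^ 2 * X ^ 2 := by ring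
      rw [e2]
      have e3 : X ^ 2 ≤ X ^ 3 * Y := by
        have : X ^ 2 ≤ X ^ 3 := pow_le_pow_right₀ hBk0 (by norm_num)
        have h6 : X ^ 3 ≤ X ^ 3 * Y := le_mul_of_one_le_right (by positivity) hB2k0
        linarith
      have e4 : 2 * C1 ^ 2 ≤ C * R := by
        have e5 : 2 * C1 ^ 2 ≤ C := by rw [hC]; linarith
        have e6 : C ≤ C * R := le_mul_of_one_le_right (by linarith) hR
        linarith
      exact mul_le_mul e4 e3 (by positivity) (by linarith)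
    calc n1 * ((1 + t) * ((ℬ.card : ℝ) * (2 * n1)))
        = n1 * (2 * n1) * ((1 + t) * (ℬ.card : ℝ)) := by ring
      _ ≤ C * R * (X ^ 3 * Y) * ((1 + t) * (ℬ.card : ℝ)) :=
          mul_le_mul_of_nonneg_right e1 (by positivity)
  have hu2 : n1 * (Mp * ((𝒜.card : ℝ) * (2 * n1)) ^ 2 / t) ≤
      C * R * (X ^ 3 * Y) * ((𝒜.card : ℝ) ^ 2 / t) := by
    have e1 : n1 * (Mp * ((𝒜.card : ℝ) * (2 * n1)) ^ 2 / t) =
        4 * (C1 ^ 3 * C2) * R * (X ^ 3 * Y) * ((𝒜.card : ℝ) ^ 2 / t) := by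
      rw [hn1, hMp]
      ring
    rw [e1]
    have e5 : 4 * (C1 ^ 3 * C2) ≤ C := by rw [hC]; linarith
    refine mul_le_mul_of_nonneg_right ?_ (by positivity)
    refine mul_le_mul_of_nonneg_right ?_ (by positivity)
    exact mul_le_mul_of_nonneg_right e5 (by linarith)
  calc n1 * Q ≤ n1 * ((1 + t) * ((ℬ.card : ℝ) * (2 * n1)) +
        Mp * ((𝒜.card : ℝ) * (2 * n1)) ^ 2 / t) := mul_le_mul_of_nonneg_left hQ1 (by linarith)
    _ = n1 * ((1 + t) * ((ℬ.card : ℝ) * (2 * n1))) +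
        n1 * (Mp * ((𝒜.card : ℝ) * (2 * n1)) ^ 2 / t) := by ring
    _ ≤ C * R * (X ^ 3 * Y) * ((1 + t) * (ℬ.card : ℝ)) +
        C * R * (X ^ 3 * Y) * ((𝒜.card : ℝ) ^ 2 / t) := add_le_add hu1 hu2
    _ = C * R * (X ^ 3 * Y) * ((1 + t) * (ℬ.card : ℝ) + (𝒜.card : ℝ) ^ 2 / t) := by ring

end Pool.Agent.FPL
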