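import Pool.Agent.FPL.Defs

/-!
# ColMod (size 3)

Let `V = FinitePlace.mk v`, `q = exp (-(g ln v)) = N_v ^ (-g)`. Claim: a finite set `S` of elements `t` with `V t = 1` and `V (t - s) > q` for `t ≠ s` in `S` has at most `N_v ^ g` elements: there is
`b ∈ 𝓞 K` with `V b = 1` and `b t ∈ 𝓞 K` for all `t ∈ S` (common denominator: `t = a / c`, `a, c ∈ 𝓞 K`, and `c` can be chosen outside `v` because `V t ≤ 1`: e.g.
`IsDedekindDomain.HeightOneSpectrum` / `IsLocalization.AtPrime`, or `HeightOneSpectrum.exists_...`; see `TM2/ResG.lean`, which does this for `g = 1`, and `MVD/ResCls.lean`); the elements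
`b t ∈ 𝓞 K` are pairwise incongruent modulo `v.asIdeal ^ g` (`V (b t - b s) > q`), and `𝓞 K / v.asIdeal ^ g` has `N_v ^ g` elements (`Ideal.absNorm`, `Ideal.absNorm_apply`, `map_pow`).
Take such an `S` of maximal cardinality (as in `AbcE.local_class`); the colour of `t` is an element `s ∈ S` with `V (t - s) ≤ q`; two elements of the same colour satisfy `V (t1 - t2) ≤ q`
(ultrametric). Or directly: the colour is the residue class.
-/

namespace Pool.Agent.FPL

open NumberField IsDedekindDomain Pool.Agent.H7.Abc Pool.Agent.AbcE Pool.Agent.AbcF Pool.Agent.TMS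
  Pool.Agent.TM2

private theorem ColMod_mk_le {K : Type*} [Field K] [NumberField K] (v : HeightOneSpectrum (𝓞 K))
    (g : ℕ) {x : K} (hx : v.valuation K x ≤ WithZero.exp (-(g : ℤ))) :
    FinitePlace.mk v x ≤ Real.exp (-(g * ln v)) := by
  by_cases hx0 : x = 0
  · subst hx0
    rw [map_zero]
    exact (Real.exp_pos _).le
  · have hv : v.valuation K x ≠ 0 := (Valuation.ne_zero_iff _).2 hx0
    have h1 : WithZero.log (v.valuation K x) ≤ -(g : ℤ) := (WithZero.log_le_iff_le_exp hv).mpr hx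
    have hN := one_lt_norm v
    have hN0 : (0 : ℝ) < (Ideal.absNorm v.asIdeal : ℝ) := by linarith
    have h2 : Real.exp (-(g * ln v)) = (Ideal.absNorm v.asIdeal : ℝ) ^ (-(g : ℤ)) := by
      rw [zpow_neg, zpow_natCast, Real.exp_neg, ← Real.exp_log (pow_pos hN0 g), Real.log_pow]
      rfl
    rw [h2, mk_eq_zpow v hx0]
    apply zpow_le_zpow_right₀ hN.le
    unfold ord
    rw [neg_neg]
    exact h1

private theorem ColMod_ex {K : Type*} [Field K] [NumberField K] (v : HeightOneSpectrum (𝓞 K))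
    (g : ℕ) (x : K) : ∃ a : 𝓞 K, v.valuation K x ≤ 1 →
      v.valuation K (algebraMap (𝓞 K) K a - x) ≤ WithZero.exp (-(g : ℤ)) := by
  by_cases h : v.valuation K x ≤ 1
  · obtain ⟨a, ha⟩ := v.exists_valuation_sub_lt_of_integer h
      (Units.mk0 (WithZero.exp (-(g : ℤ))) WithZero.exp_ne_zero)
    exact ⟨a, fun _ => ha.le⟩
  · exact ⟨0, fun h' => absurd h' h⟩

private theorem ColMod_val {K : Type*} [Field K] [NumberField K] (v : HeightOneSpectrum (𝓞 K))
    {x : K} (h : FinitePlace.mk v x = 1) : v.valuation K x ≤ 1 := by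
  have hx : x ≠ 0 := by
    rintro rfl
    rw [map_zero] at h
    exact zero_ne_one h
  have hv : v.valuation K x ≠ 0 := (Valuation.ne_zero_iff _).2 hx
  rw [mk_eq_zpow v hx] at h
  have hN := one_lt_norm v
  have h1 : -ord v x = 0 := by
    by_contra hne
    rcases lt_or_gt_of_ne hne with h2 | h2
    · exact absurd h (zpow_lt_one_of_neg₀ hN h2).ne
    · exact absurd h (one_lt_zpow₀ hN h2).ne'
  unfold ord at h1
  rw [neg_neg] at h1
  rw [← WithZero.exp_log hv, h1, WithZero.exp_zero]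

theorem col_mod {K : Type*} [Field K] [NumberField K] (v : HeightOneSpectrum (𝓞 K)) (g : ℕ) :
    ∃ (M : ℕ) (c : K → Fin M), (M : ℝ) ≤ Real.exp (g * ln v) ∧ ∀ t s : K,
      FinitePlace.mk v t = 1 → FinitePlace.mk v s = 1 → c t = c s →
        FinitePlace.mk v (t - s) ≤ Real.exp (-(g * ln v)) := by
  classical
  have hne : v.asIdeal ^ g ≠ ⊥ := pow_ne_zero g v.ne_bot
  have hf : Finite (𝓞 K ⧸ v.asIdeal ^ g) := Ring.HasFiniteQuotients.finiteQuotient hne
  choose a ha using ColMod_ex v g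
  have e := Finite.equivFin (𝓞 K ⧸ v.asIdeal ^ g)
  refine ⟨Nat.card (𝓞 K ⧸ v.asIdeal ^ g), fun x => e (Ideal.Quotient.mk _ (a x)), ?_, ?_⟩
  · have h1 : Nat.card (𝓞 K ⧸ v.asIdeal ^ g) = (Ideal.absNorm v.asIdeal) ^ g := by
      rw [← map_pow, Ideal.absNorm_apply, Submodule.cardQuot_apply]
    have hN := one_lt_norm v
    have hN0 : (0 : ℝ) < (Ideal.absNorm v.asIdeal : ℝ) := by linarith
    rw [h1]
    push_cast
    rw [← Real.exp_log (pow_pos hN0 g), Real.log_pow]
    rfl
  · intro t s ht hs hc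
    have hc' : (Ideal.Quotient.mk (v.asIdeal ^ g) (a t)) = Ideal.Quotient.mk (v.asIdeal ^ g) (a s) :=
      e.injective hc
    rw [Ideal.Quotient.eq, ← v.intValuation_le_pow_iff_mem, ← v.valuation_of_algebraMap (K := K)]
      at hc'
    have hc2 : v.valuation K (algebraMap (𝓞 K) K (a t - a s)) ≤ WithZero.exp (-(g : ℤ)) := hc'
    rw [map_sub] at hc2
    have h1 := ha t (ColMod_val v ht)
    have h2 := ha s (ColMod_val v hs)
    apply ColMod_mk_le
    have h3 : t - s = (algebraMap (𝓞 K) K (a t) - algebraMap (𝓞 K) K (a s)) +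
        (-(algebraMap (𝓞 K) K (a t) - t) + (algebraMap (𝓞 K) K (a s) - s)) := by ring
    rw [h3]
    refine (Valuation.map_add _ _ _).trans (max_le hc2 ?_)
    refine (Valuation.map_add _ _ _).trans (max_le ?_ h2)
    rwa [Valuation.map_neg]

end Pool.Agent.FPL
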