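import Mathlib

/-!
# CoreO (size 4, pure)

`n = 𝒜.card`, `m = ℬ.card` (both positive as `E` is nonempty), `L V = ∑ i ∈ V, lam i`, for `F : Finset (α × β)`: `l F = (F.image Prod.fst).card`, `r F = (F.image Prod.snd).card`, `Λ F = l F / n + r F / m`. Among the finitely many pairs `(S, F)`, `S ⊆ ℬ.biUnion X`, `F ⊆ E` nonempty, `S ⊆ X b` for all
`(a, b) ∈ F`, choose one that maximises `Ψ (S, F) = F.card * exp (δ L S) / Λ F`. `(∅, E)` is allowed, `Λ E ≤ 2`: `Ψ (S, F) ≥ E.card / 2`; `L S ≤ R` (`S ⊆ X b` for some `b`; `lam ≥ 0`), so `F.card ≥ Λ F * e'`, `e' = E.card * exp (-(δ R)) / 2`.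
* Degrees: for `a ∈ F.image Prod.fst`, `F' = F.filter (·.1 ≠ a)`: if `F'` is empty then `deg a = F.card ≥ Λ F e' ≥ e' / n` (`l F = 1`). Otherwise `Λ F' ≤ Λ F - 1 / n` (and `Λ F' > 0`), `F'.card = F.card - deg a`, maximality (same `S`): `(F.card - deg a) / (Λ F - 1/n) ≤ F.card / Λ F`, i.e. `deg a ≥ F.card / (Λ F n) ≥ e' / n`.
The same for `b`.
* Bad left vertices: `a` with a `V`, disjoint from `S`, `L V > t`, `exp (-(δ t / 2)) deg a ≤ #{b : (a, b) ∈ F, V ⊆ X b}`. Choose `V a` for each bad `a` (`V a ⊆ X b` for some neighbour `b`, as `deg a > 0`). For `V` in the image let `F_V = {(a, b) ∈ F : a bad, V a = V, V ⊆ X b}`. `∑_V F_V.card = ∑_{a bad} #{..} ≥ exp (-(δ t / 2)) *`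
(number of edges at bad `a`). Maximality for `(S ∪ V, F_V)` (`L (S ∪ V) = L S + L V`, disjoint): `F_V.card ≤ exp (-(δ L V)) (F.card / Λ F) Λ F_V ≤ exp (-(δ t)) (F.card / Λ F) Λ F_V`. `∑_V l F_V ≤ l F` (disjoint left sets), `∑_V r F_V ≤ 2 ^ k r F` (`b` lies in the right set of `F_V` only for `V ⊆ X b`, at most
`2 ^ k` of them), so `∑_V Λ F_V ≤ 2 ^ k Λ F` and `∑_V F_V.card ≤ exp (-(δ t)) 2 ^ k F.card`. So the number of edges at bad `a` is at most `exp (-(δ t / 2)) 2 ^ k F.card ≤ F.card / 8` by `ht`.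
-/

namespace Pool.Agent.FPL

namespace CoreOAux

variable {α β ι : Type*}

open Classical in
/-- The relative size of the vertex sets of `F`. -/
noncomputable def LL (n m : ℝ) (F : Finset (α × β)) : ℝ :=
  ((F.image Prod.fst).card : ℝ) / n + ((F.image Prod.snd).card : ℝ) / m

theorem LL_nonneg {n m : ℝ} (hn : 0 < n) (hm : 0 < m) (F : Finset (α × β)) : 0 ≤ LL n m F := by
  unfold LL; positivity

theorem LL_pos {n m : ℝ} (hn : 0 < n) (hm : 0 < m) {F : Finset (α × β)} (hF : F.Nonempty) :
    0 < LL n m F := by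
  classical
  unfold LL
  have h1 : 0 < (F.image Prod.fst).card := (hF.image _).card_pos
  have h1' : (0 : ℝ) < (F.image Prod.fst).card := by exact_mod_cast h1
  have h2 : (0 : ℝ) < ((F.image Prod.fst).card : ℝ) / n := by positivity
  have h3 : (0 : ℝ) ≤ ((F.image Prod.snd).card : ℝ) / m := by positivity
  convert add_pos_of_pos_of_nonneg h2 h3

theorem LL_empty (n m : ℝ) : LL n m (∅ : Finset (α × β)) = 0 := by
  unfold LL; simp

end CoreOAux

open CoreOAux in
open Classical in
theorem coreO {α β ι : Type*} (𝒜 : Finset α) (ℬ : Finset β) (E : Finset (α × β))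
    (hE : E ⊆ 𝒜 ×ˢ ℬ) (hne : E.Nonempty) (X : β → Finset ι) (lam : ι → ℝ)
    (hlam : ∀ i, 0 ≤ lam i) (k : ℕ) (R δ t : ℝ) (hδ : 0 < δ)
    (hXk : ∀ b ∈ ℬ, (X b).card ≤ k) (hXR : ∀ b ∈ ℬ, ∑ i ∈ X b, lam i ≤ R)
    (ht : (2 : ℝ) ^ (k + 3) ≤ Real.exp (δ * t / 2)) :
    ∃ (S : Finset ι) (F : Finset (α × β)), F ⊆ E ∧ F.Nonempty ∧ (∀ p ∈ F, S ⊆ X p.2) ∧
      (((F.image Prod.fst).card : ℝ) / 𝒜.card + ((F.image Prod.snd).card : ℝ) / ℬ.card) *
        ((E.card : ℝ) * Real.exp (-(δ * R)) / 2) ≤ F.card ∧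
      (∀ a ∈ F.image Prod.fst, (E.card : ℝ) * Real.exp (-(δ * R)) / 2 ≤
        ((F.filter (fun p => p.1 = a)).card : ℝ) * 𝒜.card) ∧
      (∀ b ∈ F.image Prod.snd, (E.card : ℝ) * Real.exp (-(δ * R)) / 2 ≤
        ((F.filter (fun p => p.2 = b)).card : ℝ) * ℬ.card) ∧
      ((F.filter (fun p => ∃ V : Finset ι, Disjoint V S ∧ t < ∑ i ∈ V, lam i ∧
        Real.exp (-(δ * t / 2)) * ((F.filter (fun p' => p'.1 = p.1)).card : ℝ) ≤
          ((F.filter (fun p' => p'.1 = p.1 ∧ V ⊆ X p'.2)).card : ℝ))).card : ℝ) ≤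
        (F.card : ℝ) / 2 := by
  have hEA : ∀ p ∈ E, p.1 ∈ 𝒜 := fun p hp => (Finset.mem_product.1 (hE hp)).1
  have hEB : ∀ p ∈ E, p.2 ∈ ℬ := fun p hp => (Finset.mem_product.1 (hE hp)).2
  obtain ⟨p0, hp0⟩ := hne
  have hn : (0 : ℝ) < 𝒜.card := by exact_mod_cast Finset.card_pos.2 ⟨_, hEA p0 hp0⟩
  have hm : (0 : ℝ) < ℬ.card := by exact_mod_cast Finset.card_pos.2 ⟨_, hEB p0 hp0⟩
  set n : ℝ := (𝒜.card : ℝ) with hn_def
  set m : ℝ := (ℬ.card : ℝ) with hm_def
  let L : Finset ι → ℝ := fun V => ∑ i ∈ V, lam i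
  let P : Finset (Finset ι × Finset (α × β)) :=
    ((ℬ.biUnion X).powerset ×ˢ E.powerset).filter
      (fun q => q.2.Nonempty ∧ ∀ p ∈ q.2, q.1 ⊆ X p.2)
  have hP0 : (∅, E) ∈ P := by
    simp only [P, Finset.mem_filter, Finset.mem_product, Finset.mem_powerset]
    exact ⟨⟨Finset.empty_subset _, Finset.Subset.refl _⟩, ⟨p0, hp0⟩, fun p _ => Finset.empty_subset _⟩
  obtain ⟨⟨S, F⟩, hSF, hmax⟩ := P.exists_max_image
    (fun q => (q.2.card : ℝ) * Real.exp (δ * L q.1) / LL n m q.2) ⟨_, hP0⟩
  simp only [P, Finset.mem_filter, Finset.mem_product, Finset.mem_powerset] at hSF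
  obtain ⟨⟨hSsub, hFE⟩, hFne, hSX⟩ := hSF
  have hΛF : 0 < LL n m F := LL_pos hn hm hFne
  -- the general maximality inequality
  have hM : ∀ (S' : Finset ι) (F' : Finset (α × β)), F' ⊆ E → (∀ p ∈ F', S' ⊆ X p.2) →
      (F'.card : ℝ) * Real.exp (δ * L S') * LL n m F ≤
        (F.card : ℝ) * Real.exp (δ * L S) * LL n m F' := by
    intro S' F' hF'E hS'X
    rcases F'.eq_empty_or_nonempty with h0 | h0
    · subst h0
      simp [LL_empty]
    · have hmem : (S', F') ∈ P := by
        simp only [P, Finset.mem_filter, Finset.mem_product, Finset.mem_powerset]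
        refine ⟨⟨?_, hF'E⟩, h0, hS'X⟩
        obtain ⟨q, hq⟩ := h0
        exact (hS'X q hq).trans (Finset.subset_biUnion_of_mem X (hEB q (hF'E hq)))
      have h1 := hmax (S', F') hmem
      have hΛF' : 0 < LL n m F' := LL_pos hn hm h0
      simp only at h1
      rw [div_le_div_iff₀ hΛF' hΛF] at h1
      exact h1
  have hM2 : ∀ (V : Finset ι) (F' : Finset (α × β)), Disjoint V S → F' ⊆ F →
      (∀ p ∈ F', V ⊆ X p.2) →
      (F'.card : ℝ) * Real.exp (δ * L V) * LL n m F ≤ (F.card : ℝ) * LL n m F' := by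
    intro V F' hVS hF'F hVX
    have h1 := hM (S ∪ V) F' (hF'F.trans hFE)
      (fun p hp => Finset.union_subset (hSX p (hF'F hp)) (hVX p hp))
    have h2 : L (S ∪ V) = L S + L V := Finset.sum_union hVS.symm
    rw [h2, mul_add, Real.exp_add] at h1
    have h3 : 0 < Real.exp (δ * L S) := Real.exp_pos _
    have h4 : Real.exp (δ * L S) * ((F'.card : ℝ) * Real.exp (δ * L V) * LL n m F) ≤
        Real.exp (δ * L S) * ((F.card : ℝ) * LL n m F') := by
      calc _ = (F'.card : ℝ) * (Real.exp (δ * L S) * Real.exp (δ * L V)) * LL n m F := by ring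
        _ ≤ _ := h1
        _ = _ := by ring
    exact le_of_mul_le_mul_left h4 h3
  have hM3 : ∀ F' : Finset (α × β), F' ⊆ F →
      (F'.card : ℝ) * LL n m F ≤ (F.card : ℝ) * LL n m F' := by
    intro F' hF'
    have h1 := hM2 ∅ F' (Finset.disjoint_empty_left _) hF' (fun p _ => Finset.empty_subset _)
    have h2 : L ∅ = 0 := Finset.sum_empty
    rw [h2, mul_zero, Real.exp_zero, mul_one] at h1
    exact h1
  -- the size of `F`
  have hLS : L S ≤ R := by
    obtain ⟨q, hq⟩ := hFne
    exact (Finset.sum_le_sum_of_subset_of_nonneg (hSX q hq) (fun i _ _ => hlam i)).trans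
      (hXR _ (hEB q (hFE hq)))
  have hΛE : LL n m E ≤ 2 := by
    have h1 : ((E.image Prod.fst).card : ℝ) ≤ n := by
      rw [hn_def]
      exact_mod_cast Finset.card_le_card (Finset.image_subset_iff.2 hEA)
    have h2 : ((E.image Prod.snd).card : ℝ) ≤ m := by
      rw [hm_def]
      exact_mod_cast Finset.card_le_card (Finset.image_subset_iff.2 hEB)
    have h3 : ((E.image Prod.fst).card : ℝ) / n ≤ 1 := (div_le_one hn).2 h1
    have h4 : ((E.image Prod.snd).card : ℝ) / m ≤ 1 := (div_le_one hm).2 h2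
    unfold LL
    linarith
  have hsize : LL n m F * ((E.card : ℝ) * Real.exp (-(δ * R)) / 2) ≤ F.card := by
    have h1 := hM ∅ E (Finset.Subset.refl _) (fun p _ => Finset.empty_subset _)
    have h2 : L ∅ = 0 := Finset.sum_empty
    rw [h2, mul_zero, Real.exp_zero, mul_one] at h1
    have h3 : (F.card : ℝ) * Real.exp (δ * L S) * LL n m E ≤
        (F.card : ℝ) * Real.exp (δ * R) * 2 := by
      have h5 : Real.exp (δ * L S) ≤ Real.exp (δ * R) :=
        Real.exp_le_exp.2 (mul_le_mul_of_nonneg_left hLS hδ.le)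
      have h6 : (0 : ℝ) ≤ F.card := Nat.cast_nonneg _
      have h7 := LL_nonneg hn hm E
      have h8 : (0 : ℝ) < Real.exp (δ * L S) := Real.exp_pos _
      have h9 : (0 : ℝ) < Real.exp (δ * R) := Real.exp_pos _
      gcongr
    have h4 : (E.card : ℝ) * LL n m F ≤ (F.card : ℝ) * Real.exp (δ * R) * 2 := h1.trans h3
    have h5 : Real.exp (δ * R) * Real.exp (-(δ * R)) = 1 := by
      rw [← Real.exp_add]; simp
    have h6 : (0 : ℝ) < Real.exp (-(δ * R)) := Real.exp_pos _
    calc LL n m F * ((E.card : ℝ) * Real.exp (-(δ * R)) / 2)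
        = ((E.card : ℝ) * LL n m F) * (Real.exp (-(δ * R)) / 2) := by ring
      _ ≤ ((F.card : ℝ) * Real.exp (δ * R) * 2) * (Real.exp (-(δ * R)) / 2) := by
          gcongr
      _ = (F.card : ℝ) * (Real.exp (δ * R) * Real.exp (-(δ * R))) := by ring
      _ = F.card := by rw [h5, mul_one]
  -- a general step for the degrees
  have hdeg : ∀ (F' : Finset (α × β)) (c : ℝ) (d : ℕ), 0 < c → F' ⊆ F → F'.card + d = F.card →
      LL n m F' ≤ LL n m F - 1 / c →
      (E.card : ℝ) * Real.exp (-(δ * R)) / 2 ≤ (d : ℝ) * c := by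
    intro F' c d hc hF' hcard hLL
    have h1 := hM3 F' hF'
    have h2 : (F'.card : ℝ) + d = F.card := by exact_mod_cast hcard
    have h6 : (0 : ℝ) ≤ F.card := Nat.cast_nonneg _
    have h3 : ((F.card : ℝ) - d) * LL n m F ≤ (F.card : ℝ) * (LL n m F - 1 / c) := by
      calc ((F.card : ℝ) - d) * LL n m F = (F'.card : ℝ) * LL n m F := by rw [← h2]; ring
        _ ≤ (F.card : ℝ) * LL n m F' := h1
        _ ≤ _ := mul_le_mul_of_nonneg_left hLL h6
    have h4 : (F.card : ℝ) * (1 / c) ≤ d * LL n m F := by linarith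
    have h5 : (F.card : ℝ) ≤ d * c * LL n m F := by
      have := mul_le_mul_of_nonneg_right h4 hc.le
      have h7 : (F.card : ℝ) * (1 / c) * c = F.card := by field_simp
      rw [h7] at this
      linarith
    have h8 : LL n m F * ((E.card : ℝ) * Real.exp (-(δ * R)) / 2) ≤ LL n m F * (d * c) := by
      linarith
    exact le_of_mul_le_mul_left h8 hΛF
  refine ⟨S, F, hFE, hFne, hSX, hsize, ?_, ?_, ?_⟩
  · intro a ha
    refine hdeg (F.filter (fun p => ¬ p.1 = a)) n _ hn (Finset.filter_subset _ _) ?_ ?_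
    · rw [add_comm]
      exact Finset.card_filter_add_card_filter_not (fun p : α × β => p.1 = a)
    · have h1 : (F.filter (fun p => ¬ p.1 = a)).image Prod.fst ⊆ (F.image Prod.fst).erase a := by
        intro x hx
        obtain ⟨p, hp, rfl⟩ := Finset.mem_image.1 hx
        obtain ⟨hp1, hp2⟩ := Finset.mem_filter.1 hp
        exact Finset.mem_erase.2 ⟨hp2, Finset.mem_image_of_mem _ hp1⟩
      have h2 := Finset.card_le_card h1
      have h3 := Finset.card_erase_add_one ha
      have h4 : (F.filter (fun p => ¬ p.1 = a)).image Prod.snd ⊆ F.image Prod.snd :=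
        Finset.image_subset_image (Finset.filter_subset _ _)
      have h5 := Finset.card_le_card h4
      have h6 : (((F.filter (fun p => ¬ p.1 = a)).image Prod.fst).card : ℝ) ≤
          ((F.image Prod.fst).card : ℝ) - 1 := by
        have : ((F.filter (fun p => ¬ p.1 = a)).image Prod.fst).card + 1 ≤
          (F.image Prod.fst).card := by omega
        have h7 : ((((F.filter (fun p => ¬ p.1 = a)).image Prod.fst).card + 1 : ℕ) : ℝ) ≤
          ((F.image Prod.fst).card : ℝ) := by exact_mod_cast this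
        push_cast at h7
        linarith
      have h7 : (((F.filter (fun p => ¬ p.1 = a)).image Prod.snd).card : ℝ) ≤
          ((F.image Prod.snd).card : ℝ) := by exact_mod_cast h5
      unfold LL
      have h8 := div_le_div_of_nonneg_right h6 hn.le
      have h9 := div_le_div_of_nonneg_right h7 hm.le
      rw [sub_div] at h8
      linarith
  · intro b hb
    refine hdeg (F.filter (fun p => ¬ p.2 = b)) m _ hm (Finset.filter_subset _ _) ?_ ?_
    · rw [add_comm]
      exact Finset.card_filter_add_card_filter_not (fun p : α × β => p.2 = b)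
    · have h1 : (F.filter (fun p => ¬ p.2 = b)).image Prod.snd ⊆ (F.image Prod.snd).erase b := by
        intro x hx
        obtain ⟨p, hp, rfl⟩ := Finset.mem_image.1 hx
        obtain ⟨hp1, hp2⟩ := Finset.mem_filter.1 hp
        exact Finset.mem_erase.2 ⟨hp2, Finset.mem_image_of_mem _ hp1⟩
      have h2 := Finset.card_le_card h1
      have h3 := Finset.card_erase_add_one hb
      have h4 : (F.filter (fun p => ¬ p.2 = b)).image Prod.fst ⊆ F.image Prod.fst :=
        Finset.image_subset_image (Finset.filter_subset _ _)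
      have h5 := Finset.card_le_card h4
      have h6 : (((F.filter (fun p => ¬ p.2 = b)).image Prod.snd).card : ℝ) ≤
          ((F.image Prod.snd).card : ℝ) - 1 := by
        have : ((F.filter (fun p => ¬ p.2 = b)).image Prod.snd).card + 1 ≤
          (F.image Prod.snd).card := by omega
        have h7 : ((((F.filter (fun p => ¬ p.2 = b)).image Prod.snd).card + 1 : ℕ) : ℝ) ≤
          ((F.image Prod.snd).card : ℝ) := by exact_mod_cast this
        push_cast at h7
        linarith
      have h7 : (((F.filter (fun p => ¬ p.2 = b)).image Prod.fst).card : ℝ) ≤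
          ((F.image Prod.fst).card : ℝ) := by exact_mod_cast h5
      unfold LL
      have h8 := div_le_div_of_nonneg_right h6 hm.le
      have h9 := div_le_div_of_nonneg_right h7 hn.le
      rw [sub_div] at h8
      linarith
  · -- the bad vertices
    set Bad : α → Finset ι → Prop := fun a V => Disjoint V S ∧ t < ∑ i ∈ V, lam i ∧
        Real.exp (-(δ * t / 2)) * ((F.filter (fun p' => p'.1 = a)).card : ℝ) ≤
          ((F.filter (fun p' => p'.1 = a ∧ V ⊆ X p'.2)).card : ℝ) with hBad
    set B : Finset (α × β) := F.filter (fun p => ∃ V : Finset ι, Bad p.1 V) with hB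
    change (B.card : ℝ) ≤ (F.card : ℝ) / 2
    let Vf : α → Finset ι := fun a => if h : ∃ V, Bad a V then h.choose else ∅
    have hVf : ∀ p ∈ B, Bad p.1 (Vf p.1) := by
      intro p hp
      have h1 := (Finset.mem_filter.1 hp).2
      simp only [Vf, dif_pos h1]
      exact h1.choose_spec
    have hBF : B ⊆ F := Finset.filter_subset _ _
    set G : Finset (α × β) := B.filter (fun p => Vf p.1 ⊆ X p.2) with hG
    have hGB : G ⊆ B := Finset.filter_subset _ _
    -- `G` is large
    have hGlarge : Real.exp (-(δ * t / 2)) * (B.card : ℝ) ≤ G.card := by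
      have h1 : (B.card : ℝ) = ∑ a ∈ B.image Prod.fst, ((B.filter (fun p => p.1 = a)).card : ℝ) := by
        have := Finset.card_eq_sum_card_image (Prod.fst : α × β → α) B
        rw [this]; push_cast; rfl
      have h2 : (G.card : ℝ) = ∑ a ∈ B.image Prod.fst, ((G.filter (fun p => p.1 = a)).card : ℝ) := by
        have := Finset.card_eq_sum_card_fiberwise (f := (Prod.fst : α × β → α)) (s := G)
          (t := B.image Prod.fst)
          (fun p hp => Finset.mem_coe.2 (Finset.mem_image_of_mem _ (hGB (Finset.mem_coe.1 hp))))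
        rw [this]; push_cast; rfl
      rw [h1, h2, Finset.mul_sum]
      refine Finset.sum_le_sum ?_
      intro a ha
      obtain ⟨p, hp, rfl⟩ := Finset.mem_image.1 ha
      have h3 := hVf p hp
      have h4 : B.filter (fun q => q.1 = p.1) = F.filter (fun q => q.1 = p.1) := by
        ext q
        simp only [hB, Finset.mem_filter]
        constructor
        · rintro ⟨⟨hq, -⟩, h⟩
          exact ⟨hq, h⟩
        · rintro ⟨hq, h⟩
          exact ⟨⟨hq, by rw [h]; exact ⟨_, h3⟩⟩, h⟩
      have h5 : G.filter (fun q => q.1 = p.1) =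
          F.filter (fun q => q.1 = p.1 ∧ Vf p.1 ⊆ X q.2) := by
        ext q
        simp only [hG, hB, Finset.mem_filter]
        constructor
        · rintro ⟨⟨⟨hq, -⟩, h'⟩, h⟩
          rw [h] at h'
          exact ⟨hq, h, h'⟩
        · rintro ⟨hq, h, h'⟩
          exact ⟨⟨⟨hq, by rw [h]; exact ⟨_, h3⟩⟩, by rw [h]; exact h'⟩, h⟩
      rw [h4, h5]
      exact h3.2.2
    -- the pieces
    set 𝒱 : Finset (Finset ι) := G.image (fun p => Vf p.1) with h𝒱
    have hpiece : ∀ V ∈ 𝒱, ((G.filter (fun p => Vf p.1 = V)).card : ℝ) * Real.exp (δ * t) *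
        LL n m F ≤ (F.card : ℝ) * LL n m (G.filter (fun p => Vf p.1 = V)) := by
      intro V hV
      obtain ⟨p, hp, rfl⟩ := Finset.mem_image.1 hV
      have h3 := hVf p (hGB hp)
      have h1 := hM2 (Vf p.1) (G.filter (fun q => Vf q.1 = Vf p.1)) h3.1
        ((Finset.filter_subset _ _).trans (hGB.trans hBF)) (by
          intro q hq
          obtain ⟨hq1, hq2⟩ := Finset.mem_filter.1 hq
          rw [← hq2]
          exact (Finset.mem_filter.1 hq1).2)
      refine le_trans ?_ h1
      have h4 : Real.exp (δ * t) ≤ Real.exp (δ * L (Vf p.1)) :=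
        Real.exp_le_exp.2 (mul_le_mul_of_nonneg_left h3.2.1.le hδ.le)
      exact mul_le_mul_of_nonneg_right (mul_le_mul_of_nonneg_left h4 (Nat.cast_nonneg _)) hΛF.le
    have hsum1 : (G.card : ℝ) = ∑ V ∈ 𝒱, ((G.filter (fun p => Vf p.1 = V)).card : ℝ) := by
      have := Finset.card_eq_sum_card_image (fun p : α × β => Vf p.1) G
      rw [this]; push_cast; rfl
    have hsumfst : ∑ V ∈ 𝒱, (((G.filter (fun p => Vf p.1 = V)).image Prod.fst).card : ℝ) ≤
        ((F.image Prod.fst).card : ℝ) := by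
      have h1 : ((G.image Prod.fst).card : ℝ) =
          ∑ V ∈ 𝒱, (((G.image Prod.fst).filter (fun a => Vf a = V)).card : ℝ) := by
        have := Finset.card_eq_sum_card_fiberwise (f := Vf) (s := G.image Prod.fst)
          (t := 𝒱) (by
            intro a ha
            obtain ⟨p, hp, rfl⟩ := Finset.mem_image.1 (Finset.mem_coe.1 ha)
            exact Finset.mem_coe.2 (Finset.mem_image.2 ⟨p, hp, rfl⟩))
        rw [this]; push_cast; rfl
      have h2 : ((G.image Prod.fst).card : ℝ) ≤ ((F.image Prod.fst).card : ℝ) := by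
        exact_mod_cast Finset.card_le_card (Finset.image_subset_image (hGB.trans hBF))
      refine le_trans ?_ h2
      rw [h1]
      refine Finset.sum_le_sum ?_
      intro V _
      have h3 : (G.filter (fun p => Vf p.1 = V)).image Prod.fst ⊆
          (G.image Prod.fst).filter (fun a => Vf a = V) := by
        intro a ha
        obtain ⟨p, hp, rfl⟩ := Finset.mem_image.1 ha
        obtain ⟨hp1, hp2⟩ := Finset.mem_filter.1 hp
        exact Finset.mem_filter.2 ⟨Finset.mem_image_of_mem _ hp1, hp2⟩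
      exact_mod_cast Finset.card_le_card h3
    have hsumsnd : ∑ V ∈ 𝒱, (((G.filter (fun p => Vf p.1 = V)).image Prod.snd).card : ℝ) ≤
        (2 : ℝ) ^ k * ((F.image Prod.snd).card : ℝ) := by
      have h1 : ∑ V ∈ 𝒱, ((G.filter (fun p => Vf p.1 = V)).image Prod.snd).card ≤
          ∑ V ∈ 𝒱, ((F.image Prod.snd).filter (fun b => V ⊆ X b)).card := by
        refine Finset.sum_le_sum ?_
        intro V _
        refine Finset.card_le_card ?_
        intro b hb
        obtain ⟨p, hp, rfl⟩ := Finset.mem_image.1 hb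
        obtain ⟨hp1, hp2⟩ := Finset.mem_filter.1 hp
        refine Finset.mem_filter.2 ⟨Finset.mem_image_of_mem _ (hBF (hGB hp1)), ?_⟩
        rw [← hp2]
        exact (Finset.mem_filter.1 hp1).2
      have h2 : ∑ V ∈ 𝒱, ((F.image Prod.snd).filter (fun b => V ⊆ X b)).card =
          ∑ b ∈ F.image Prod.snd, (𝒱.filter (fun V => V ⊆ X b)).card := by
        simp only [Finset.card_filter]
        exact Finset.sum_comm
      have h3 : ∑ b ∈ F.image Prod.snd, (𝒱.filter (fun V => V ⊆ X b)).card ≤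
          ∑ b ∈ F.image Prod.snd, 2 ^ k := by
        refine Finset.sum_le_sum ?_
        intro b hb
        have hbB : b ∈ ℬ := by
          obtain ⟨p, hp, rfl⟩ := Finset.mem_image.1 hb
          exact hEB p (hFE hp)
        calc (𝒱.filter (fun V => V ⊆ X b)).card ≤ (X b).powerset.card := by
              refine Finset.card_le_card ?_
              intro V hV
              exact Finset.mem_powerset.2 (Finset.mem_filter.1 hV).2
          _ = 2 ^ (X b).card := Finset.card_powerset _
          _ ≤ 2 ^ k := Nat.pow_le_pow_right (by norm_num) (hXk b hbB)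
      have h4 : ∑ V ∈ 𝒱, ((G.filter (fun p => Vf p.1 = V)).image Prod.snd).card ≤
          2 ^ k * (F.image Prod.snd).card := by
        calc _ ≤ _ := h1
          _ = _ := h2
          _ ≤ _ := h3
          _ = 2 ^ k * (F.image Prod.snd).card := by
            rw [Finset.sum_const, smul_eq_mul, mul_comm]
      have h5 : ((∑ V ∈ 𝒱, ((G.filter (fun p => Vf p.1 = V)).image Prod.snd).card : ℕ) : ℝ) ≤
          ((2 ^ k * (F.image Prod.snd).card : ℕ) : ℝ) := by exact_mod_cast h4
      push_cast at h5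
      exact h5
    have hsumLL : ∑ V ∈ 𝒱, LL n m (G.filter (fun p => Vf p.1 = V)) ≤ (2 : ℝ) ^ k * LL n m F := by
      have h1 : ∑ V ∈ 𝒱, LL n m (G.filter (fun p => Vf p.1 = V)) =
          (∑ V ∈ 𝒱, (((G.filter (fun p => Vf p.1 = V)).image Prod.fst).card : ℝ)) / n +
          (∑ V ∈ 𝒱, (((G.filter (fun p => Vf p.1 = V)).image Prod.snd).card : ℝ)) / m := by
        rw [Finset.sum_div, Finset.sum_div, ← Finset.sum_add_distrib]
        rfl
      have h2 : (1 : ℝ) ≤ (2 : ℝ) ^ k := one_le_pow₀ (by norm_num)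
      have h3 : ((F.image Prod.fst).card : ℝ) ≤ (2 : ℝ) ^ k * ((F.image Prod.fst).card : ℝ) := by
        have h6 : (0 : ℝ) ≤ (F.image Prod.fst).card := Nat.cast_nonneg _
        nlinarith
      have h4 := div_le_div_of_nonneg_right (hsumfst.trans h3) hn.le
      have h5 := div_le_div_of_nonneg_right hsumsnd hm.le
      rw [h1]
      unfold LL
      calc _ ≤ (2 : ℝ) ^ k * ((F.image Prod.fst).card : ℝ) / n +
            (2 : ℝ) ^ k * ((F.image Prod.snd).card : ℝ) / m := add_le_add h4 h5
        _ = _ := by ring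
    have hFc : (0 : ℝ) ≤ F.card := Nat.cast_nonneg _
    have hkey : (G.card : ℝ) * Real.exp (δ * t) ≤ (F.card : ℝ) * (2 : ℝ) ^ k := by
      have h1 : (G.card : ℝ) * Real.exp (δ * t) * LL n m F ≤
          (F.card : ℝ) * ((2 : ℝ) ^ k * LL n m F) := by
        calc (G.card : ℝ) * Real.exp (δ * t) * LL n m F
            = ∑ V ∈ 𝒱, ((G.filter (fun p => Vf p.1 = V)).card : ℝ) * Real.exp (δ * t) *
                LL n m F := by
              rw [hsum1, Finset.sum_mul, Finset.sum_mul]
          _ ≤ ∑ V ∈ 𝒱, (F.card : ℝ) * LL n m (G.filter (fun p => Vf p.1 = V)) :=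
              Finset.sum_le_sum hpiece
          _ = (F.card : ℝ) * ∑ V ∈ 𝒱, LL n m (G.filter (fun p => Vf p.1 = V)) := by
              rw [Finset.mul_sum]
          _ ≤ _ := mul_le_mul_of_nonneg_left hsumLL hFc
      have h2 : ((G.card : ℝ) * Real.exp (δ * t)) * LL n m F ≤
          ((F.card : ℝ) * (2 : ℝ) ^ k) * LL n m F := by linarith
      exact le_of_mul_le_mul_right h2 hΛF
    have hexp : Real.exp (δ * t) = Real.exp (δ * t / 2) * Real.exp (δ * t / 2) := by
      rw [← Real.exp_add]; congr 1; ring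
    have hexp2 : Real.exp (-(δ * t / 2)) * Real.exp (δ * t / 2) = 1 := by
      rw [← Real.exp_add]; simp
    have hx : (0 : ℝ) < Real.exp (δ * t / 2) := Real.exp_pos _
    have h1 : (B.card : ℝ) * Real.exp (δ * t / 2) ≤ (F.card : ℝ) * (2 : ℝ) ^ k := by
      calc (B.card : ℝ) * Real.exp (δ * t / 2)
          = (Real.exp (-(δ * t / 2)) * (B.card : ℝ)) *
              (Real.exp (δ * t / 2) * Real.exp (δ * t / 2)) := by
            rw [show (Real.exp (-(δ * t / 2)) * (B.card : ℝ)) *
              (Real.exp (δ * t / 2) * Real.exp (δ * t / 2)) =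
              (Real.exp (-(δ * t / 2)) * Real.exp (δ * t / 2)) *
              ((B.card : ℝ) * Real.exp (δ * t / 2)) by ring, hexp2, one_mul]
        _ ≤ (G.card : ℝ) * (Real.exp (δ * t / 2) * Real.exp (δ * t / 2)) := by
            gcongr
        _ = (G.card : ℝ) * Real.exp (δ * t) := by rw [hexp]
        _ ≤ _ := hkey
    have h2 : (B.card : ℝ) * (2 : ℝ) ^ (k + 3) ≤ (F.card : ℝ) * (2 : ℝ) ^ k :=
      le_trans (mul_le_mul_of_nonneg_left ht (Nat.cast_nonneg _)) h1
    have h3 : (0 : ℝ) < (2 : ℝ) ^ k := by positivity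
    have h4 : ((B.card : ℝ) * 8) * (2 : ℝ) ^ k ≤ (F.card : ℝ) * (2 : ℝ) ^ k := by
      rw [pow_add] at h2
      linarith
    have h5 := le_of_mul_le_mul_right h4 h3
    have h6 : (0 : ℝ) ≤ B.card := Nat.cast_nonneg _
    linarith

end Pool.Agent.FPL
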