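import Pool.Agent.FPL.CellA
import Pool.Agent.FPL.RankinZ

/-!
# CountA (size 4)

`C1, B` from `cellA K η`. The `x ∈ S` with `hgt x < C1` form a finite set of bounded cardinality (Northcott: the set `{x | hgt x ≤ C1}` is finite, `hgt_eq` and
`NumberField.finite_setOfPred_logHeight₁_le`, see `AbcF.units_bdd` for the use). For the others let `j = ⌊log (hgt x / C1) / log (1 + η/2)⌋₊`, `H = C1 (1 + η/2) ^ j`: `H ≤ hgt x ≤ (1 + η/2) H`, and
`j ≤ R / log (1 + η/2)` as `hgt x ≤ exp R`: at most `C2 R` windows (`R ≥ 1`). For `x` choose `P x ⊆ fs x` as in the hypothesis. For each window and each `P` (in the finite image of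
`x ↦ P x`; `LN P ≤ ρ`) `cellA` bounds the number of `x` by `C1 B ^ P.card`. The sum over `P`: `B ^ P.card ≤ exp ((1 + ε/2) ρ) B ^ P.card exp (-((1 + ε/2) LN P))`, `rankinZ K (ε/2)` with `z = B`:
`≤ C3 exp ((1 + ε/2) ρ) ≤ C3 exp (ρ + ε/2 R)` as `ρ ≤ R`. And `C2 R ≤ C4 exp (ε/2 R)`.
-/

namespace Pool.Agent.FPL

open NumberField IsDedekindDomain Pool.Agent.H7.Abc Pool.Agent.AbcE Pool.Agent.AbcF Pool.Agent.TMS
  Pool.Agent.TM2

private theorem countA_window {q lq C1 h R : ℝ} (hlq : lq = Real.log q) (hq : 1 < q)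
    (hC1 : 1 ≤ C1) (hh : C1 ≤ h) (hR : h ≤ Real.exp R) :
    C1 * q ^ ⌊Real.log (h / C1) / lq⌋₊ ≤ h ∧ h ≤ q * (C1 * q ^ ⌊Real.log (h / C1) / lq⌋₊) ∧
      ⌊Real.log (h / C1) / lq⌋₊ ≤ ⌊R / lq⌋₊ := by
  have hC0 : 0 < C1 := by linarith
  have hh0 : 0 < h := by linarith
  have hq0 : 0 < q := by linarith
  have hlq0 : 0 < lq := by rw [hlq]; exact Real.log_pos hq
  have hr1 : 1 ≤ h / C1 := (one_le_div hC0).mpr hh
  have hr0 : 0 < h / C1 := by linarith
  have hl0 : 0 ≤ Real.log (h / C1) := Real.log_nonneg hr1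
  set t : ℝ := Real.log (h / C1) / lq with ht
  have ht0 : 0 ≤ t := div_nonneg hl0 hlq0.le
  have htl : t * lq = Real.log (h / C1) := by rw [ht]; field_simp
  have hpow : ∀ j : ℕ, q ^ j = Real.exp ((j : ℝ) * lq) := by
    intro j
    rw [hlq, ← Real.log_pow, Real.exp_log (pow_pos hq0 j)]
  have hexp : Real.exp (t * lq) = h / C1 := by rw [htl, Real.exp_log hr0]
  refine ⟨?_, ?_, ?_⟩
  · have h1 : (⌊t⌋₊ : ℝ) ≤ t := Nat.floor_le ht0
    have h2 : q ^ ⌊t⌋₊ ≤ h / C1 := by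
      rw [hpow, ← hexp]
      exact Real.exp_le_exp.mpr (mul_le_mul_of_nonneg_right h1 hlq0.le)
    calc C1 * q ^ ⌊t⌋₊ ≤ C1 * (h / C1) := mul_le_mul_of_nonneg_left h2 hC0.le
      _ = h := by field_simp
  · have h1 : t < (⌊t⌋₊ : ℝ) + 1 := Nat.lt_floor_add_one t
    have h2 : h / C1 ≤ q ^ (⌊t⌋₊ + 1) := by
      rw [hpow, ← hexp]
      push_cast
      exact Real.exp_le_exp.mpr (mul_le_mul_of_nonneg_right h1.le hlq0.le)
    have h3 : h = C1 * (h / C1) := by field_simp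
    calc h = C1 * (h / C1) := h3
      _ ≤ C1 * q ^ (⌊t⌋₊ + 1) := mul_le_mul_of_nonneg_left h2 hC0.le
      _ = q * (C1 * q ^ ⌊t⌋₊) := by rw [pow_succ]; ring
  · apply Nat.floor_mono
    rw [ht]
    apply div_le_div_of_nonneg_right _ hlq0.le
    have h1 : h / C1 ≤ Real.exp R := le_trans (div_le_self hh0.le hC1) hR
    calc Real.log (h / C1) ≤ Real.log (Real.exp R) := Real.log_le_log hr0 h1
      _ = R := Real.log_exp R

private theorem countA_north (K : Type*) [Field K] [NumberField K] (c : ℝ) :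
    {x : K | hgt x ≤ c}.Finite := by
  refine (NumberField.finite_setOfPred_logHeight₁_le (K := K) c).subset ?_
  intro x hx
  simp only [Set.mem_ofPred_eq] at hx ⊢
  rwa [hgt_eq] at hx

open Classical in
theorem countA (K : Type*) [Field K] [NumberField K] (η ε : ℝ) (hη : 0 < η) (hη1 : η ≤ 1)
    (hε : 0 < ε) : ∃ C : ℝ, 1 ≤ C ∧ ∀ R ρ : ℝ, 1 ≤ R → 0 ≤ ρ → ρ ≤ R → ∀ S : Finset K,
      (∀ x ∈ S, x ≠ 0 ∧ x ≠ 1 ∧ hgt x ≤ Real.exp R ∧ ∃ P ⊆ fs x, LN P ≤ ρ ∧
        ∑ v ∈ fs x \ P, ms x v ≤ (1 - η) * hgt x) →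
      (S.card : ℝ) ≤ C * Real.exp (ρ + ε * R) := by
  obtain ⟨C1, B, hC1, hB, hcell⟩ := cellA K η hη hη1
  obtain ⟨C3, hC3, hrank⟩ := rankinZ K (ε / 2) (half_pos hε)
  set q : ℝ := 1 + η / 2 with hq
  have hq1 : 1 < q := by rw [hq]; linarith
  set lq : ℝ := Real.log q with hlq
  have hlq0 : 0 < lq := Real.log_pos hq1
  set Q : ℝ := Real.exp (C3 * B ^ (1 / (1 + ε / 2 / 2)) * (1 + Real.log B)) with hQ
  have hQ0 : 0 < Q := Real.exp_pos _
  have hfin := countA_north K C1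
  set N0 : ℕ := hfin.toFinset.card with hN0
  set D : ℝ := (1 / lq + 1) * (2 / ε) * C1 * Q with hD
  have hD0 : 0 ≤ D := by positivity
  refine ⟨1 + N0 + D, by linarith [Nat.cast_nonneg (α := ℝ) N0], ?_⟩
  intro R ρ hR hρ0 hρR S hS
  have hR0 : 0 ≤ R := by linarith
  -- the choice of `P`
  have hP : ∀ x : K, ∃ P : Finset (HeightOneSpectrum (𝓞 K)), x ∈ S →
      (LN P ≤ ρ ∧ ∑ v ∈ fs x \ P, ms x v ≤ (1 - η) * hgt x) := by
    intro x
    by_cases hx : x ∈ S
    · obtain ⟨_, _, _, P, _, h1, h2⟩ := hS x hx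
      exact ⟨P, fun _ => ⟨h1, h2⟩⟩
    · exact ⟨∅, fun h => absurd h hx⟩
  choose P hP using hP
  -- the two parts
  set S1 := S.filter (fun x => hgt x < C1) with hS1
  set S2 := S.filter (fun x => ¬ hgt x < C1) with hS2
  have hcard : (S.card : ℝ) = (S1.card : ℝ) + (S2.card : ℝ) := by
    have h := Finset.card_filter_add_card_filter_not (s := S) (fun x => hgt x < C1)
    rw [← h]
    push_cast
    rfl
  have hE1 : 1 ≤ Real.exp (ρ + ε * R) := Real.one_le_exp (by positivity)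
  have hc1 : (S1.card : ℝ) ≤ N0 := by
    have : S1 ⊆ hfin.toFinset := by
      intro x hx
      rw [hS1, Finset.mem_filter] at hx
      rw [Set.Finite.mem_toFinset]
      exact hx.2.le
    exact_mod_cast Finset.card_le_card this
  -- the windows
  set wj : K → ℕ := fun x => ⌊Real.log (hgt x / C1) / lq⌋₊ with hwj
  set W : ℕ := ⌊R / lq⌋₊ + 1 with hW
  have hmem : ∀ x ∈ S2, x ∈ S ∧ C1 ≤ hgt x := by
    intro x hx
    rw [hS2, Finset.mem_filter] at hx
    exact ⟨hx.1, not_lt.mp hx.2⟩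
  have hmaps : ∀ x ∈ S2, (wj x, P x) ∈ Finset.range W ×ˢ S2.image P := by
    intro x hx
    obtain ⟨hxS, hxC⟩ := hmem x hx
    rw [Finset.mem_product]
    refine ⟨?_, Finset.mem_image_of_mem P hx⟩
    rw [Finset.mem_range, hW]
    exact Nat.lt_succ_of_le (countA_window hlq hq1 hC1 hxC (hS x hxS).2.2.1).2.2
  have hfib : S2.card = ∑ b ∈ Finset.range W ×ˢ S2.image P,
      (S2.filter (fun x => (wj x, P x) = b)).card :=
    Finset.card_eq_sum_card_fiberwise hmaps
  have hcellb : ∀ b ∈ Finset.range W ×ˢ S2.image P,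
      ((S2.filter (fun x => (wj x, P x) = b)).card : ℝ) ≤ C1 * B ^ b.2.card := by
    intro b _
    have hqj : 1 ≤ q ^ b.1 := one_le_pow₀ hq1.le
    refine hcell (C1 * q ^ b.1) ?_ b.2 _ ?_
    · nlinarith
    · intro x hx
      rw [Finset.mem_filter] at hx
      obtain ⟨hx2, hxb⟩ := hx
      obtain ⟨hxS, hxC⟩ := hmem x hx2
      have hb1 : wj x = b.1 := by rw [← hxb]
      have hb2 : P x = b.2 := by rw [← hxb]
      obtain ⟨h0, h1, hR', _⟩ := hS x hxS
      obtain ⟨w1, w2, _⟩ := countA_window hlq hq1 hC1 hxC hR'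
      refine ⟨h0, h1, ?_, ?_, ?_⟩
      · rw [← hb1]; exact w1
      · rw [← hb1]; exact w2
      · rw [← hb2]; exact (hP x hxS).2
  have hsum1 : (S2.card : ℝ) ≤ ∑ b ∈ Finset.range W ×ˢ S2.image P, C1 * B ^ b.2.card := by
    rw [hfib]
    push_cast
    exact Finset.sum_le_sum hcellb
  have hsum2 : ∑ b ∈ Finset.range W ×ˢ S2.image P, C1 * B ^ b.2.card =
      (W : ℝ) * C1 * ∑ T ∈ S2.image P, B ^ T.card := by
    rw [Finset.sum_product]
    simp only [Finset.sum_const, Finset.card_range, nsmul_eq_mul, Finset.mul_sum, mul_assoc]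
  have hsum3 : ∑ T ∈ S2.image P, B ^ T.card ≤ Real.exp ((1 + ε / 2) * ρ) * Q := by
    calc ∑ T ∈ S2.image P, B ^ T.card ≤ ∑ T ∈ S2.image P,
          Real.exp ((1 + ε / 2) * ρ) * (B ^ T.card * Real.exp (-((1 + ε / 2) * LN T))) := by
          apply Finset.sum_le_sum
          intro T hT
          rw [Finset.mem_image] at hT
          obtain ⟨x, hx, rfl⟩ := hT
          have h1 : LN (P x) ≤ ρ := (hP x (hmem x hx).1).1
          have h2 : 1 ≤ Real.exp ((1 + ε / 2) * ρ) * Real.exp (-((1 + ε / 2) * LN (P x))) := by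
            rw [← Real.exp_add]
            apply Real.one_le_exp
            nlinarith
          have h3 : 0 ≤ B ^ (P x).card := by positivity
          calc B ^ (P x).card = 1 * B ^ (P x).card := (one_mul _).symm
            _ ≤ (Real.exp ((1 + ε / 2) * ρ) * Real.exp (-((1 + ε / 2) * LN (P x)))) *
                B ^ (P x).card := mul_le_mul_of_nonneg_right h2 h3
            _ = _ := by ring
      _ = Real.exp ((1 + ε / 2) * ρ) *
          ∑ T ∈ S2.image P, B ^ T.card * Real.exp (-((1 + ε / 2) * LN T)) := by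
          rw [Finset.mul_sum]
      _ ≤ Real.exp ((1 + ε / 2) * ρ) * Q :=
          mul_le_mul_of_nonneg_left (hrank B hB _) (Real.exp_pos _).le
  have hWle : (W : ℝ) ≤ (1 / lq + 1) * (2 / ε) * Real.exp (ε / 2 * R) := by
    have h1 : (W : ℝ) ≤ R / lq + 1 := by
      rw [hW]
      push_cast
      linarith [Nat.floor_le (div_nonneg hR0 hlq0.le)]
    have h2 : R / lq + 1 ≤ (1 / lq + 1) * R := by
      have : (1 / lq + 1) * R = R / lq + R := by ring
      rw [this]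
      linarith
    have h3 : R ≤ 2 / ε * Real.exp (ε / 2 * R) := by
      have h4 : ε / 2 * R ≤ Real.exp (ε / 2 * R) := by
        linarith [Real.add_one_le_exp (ε / 2 * R)]
      calc R = 2 / ε * (ε / 2 * R) := by field_simp
        _ ≤ 2 / ε * Real.exp (ε / 2 * R) := mul_le_mul_of_nonneg_left h4 (by positivity)
    calc (W : ℝ) ≤ (1 / lq + 1) * R := le_trans h1 h2
      _ ≤ (1 / lq + 1) * (2 / ε * Real.exp (ε / 2 * R)) :=
          mul_le_mul_of_nonneg_left h3 (by positivity)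
      _ = _ := by ring
  have hexp2 : Real.exp (ε / 2 * R) * Real.exp ((1 + ε / 2) * ρ) ≤ Real.exp (ρ + ε * R) := by
    rw [← Real.exp_add]
    apply Real.exp_le_exp.mpr
    nlinarith
  have hc2 : (S2.card : ℝ) ≤ D * Real.exp (ρ + ε * R) := by
    calc (S2.card : ℝ) ≤ (W : ℝ) * C1 * ∑ T ∈ S2.image P, B ^ T.card := by
          rw [← hsum2]; exact hsum1
      _ ≤ (W : ℝ) * C1 * (Real.exp ((1 + ε / 2) * ρ) * Q) :=
          mul_le_mul_of_nonneg_left hsum3 (by positivity)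
      _ ≤ ((1 / lq + 1) * (2 / ε) * Real.exp (ε / 2 * R)) * C1 *
          (Real.exp ((1 + ε / 2) * ρ) * Q) := by
          apply mul_le_mul_of_nonneg_right _ (by positivity)
          exact mul_le_mul_of_nonneg_right hWle (by linarith)
      _ = D * (Real.exp (ε / 2 * R) * Real.exp ((1 + ε / 2) * ρ)) := by rw [hD]; ring
      _ ≤ D * Real.exp (ρ + ε * R) := mul_le_mul_of_nonneg_left hexp2 hD0
  calc (S.card : ℝ) = (S1.card : ℝ) + (S2.card : ℝ) := hcard
    _ ≤ N0 + D * Real.exp (ρ + ε * R) := add_le_add hc1 hc2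
    _ ≤ (1 + N0) * Real.exp (ρ + ε * R) + D * Real.exp (ρ + ε * R) := by
        have h1 : (N0 : ℝ) ≤ (1 + N0) * Real.exp (ρ + ε * R) := by
          have h2 : (0 : ℝ) ≤ N0 := Nat.cast_nonneg _
          nlinarith
        linarith
    _ = (1 + N0 + D) * Real.exp (ρ + ε * R) := by ring

end Pool.Agent.FPL
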