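import Pool.Agent.FPL.Defs

/-!
# RolesR2 (size 4)

`1 - x`: `ord v (1 - x) = ord v (x - 1)`, `ord v ((1 - x) - 1) = ord v x` (`ord_neg'`), so `supp`, `fs`, `mlt` (a maximum) are the same; `rad` by `rad_fs`; height: `hgt (1 - x) = hgt (x - 1)`
(`hgt_eq`, `Height.logHeight₁_neg` or the definition), `hgt_sub_one` for `x` and for `1 - x` (`(1 - x) - 1 = -x`). For `v ∈ fs x` the parts `0` and `1` are exchanged, part `2` stays (`ord_cases`, `mem_fs`).
`x⁻¹`: `ord v x⁻¹ = -ord v x`, `x⁻¹ - 1 = -(x - 1) / x`: `ord = ord v (x - 1) - ord v x` (`ord_div`); parts `0` and `2` are exchanged, part `1` stays. See `TM2/Sym.lean` (private lemmas there).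
`roles`: `(i, j) = (1, 0)`: `x`; `(0, 1)`: `1 - x`; `(1, 2)`: `x⁻¹`; `(2, 0)`: `(1 - x⁻¹)⁻¹` (parts: swap 0 2, swap 0 1, swap 0 2 = swap 1 2); `(2, 1)`: `2 ↦ 1`, `1 ↦ 0`: `1 - x⁻¹`
(inversion `2 ↦ 0`, `1 ↦ 1`, then `1 - ·`: `0 ↦ 1`, `1 ↦ 0`); `(0, 2)`: `(1 - x)⁻¹` (`1 - ·`: `0 ↦ 1`, `2 ↦ 2`, then inversion: `1 ↦ 1`, `2 ↦ 0`). Each uses `1 - ·` at most once.
-/

namespace Pool.Agent.FPL

open NumberField IsDedekindDomain Pool.Agent.H7.Abc Pool.Agent.AbcE Pool.Agent.AbcF Pool.Agent.TMS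
  Pool.Agent.TM2

private theorem rr_hgt_neg {K : Type*} [Field K] [NumberField K] (x : K) : hgt (-x) = hgt x := by
  rw [hgt_eq, hgt_eq, Height.logHeight₁_neg]

theorem role_one2 {K : Type*} [Field K] [NumberField K] {x : K} (hx : x ≠ 0) (hx1 : x ≠ 1) :
    1 - x ≠ 0 ∧ 1 - x ≠ 1 ∧ fs (1 - x) = fs x ∧ rad (1 - x) = rad x ∧
      hgt (1 - x) ≤ hgt x + dg K * Real.log 2 ∧ hgt x ≤ hgt (1 - x) + dg K * Real.log 2 ∧
      (∀ v, mlt (1 - x) v = mlt x v) ∧
      ∀ v ∈ fs x, prt (1 - x) v = Equiv.swap 0 1 (prt x v) := by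
  have h0 : 1 - x ≠ 0 := sub_ne_zero.2 (Ne.symm hx1)
  have h1 : 1 - x ≠ 1 := by
    intro h
    apply hx
    linear_combination -h
  have e1 : 1 - x = -(x - 1) := by ring
  have e2 : (1 - x) - 1 = -x := by ring
  have ho : ∀ v, ord v (1 - x) = ord v (x - 1) := fun v => by rw [e1, ord_neg']
  have ho1 : ∀ v, ord v (1 - x - 1) = ord v x := fun v => by rw [e2, ord_neg']
  have hfs : fs (1 - x) = fs x := by
    ext v
    rw [mem_fs h0 h1, mem_fs hx hx1, ho, ho1]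
    omega
  refine ⟨h0, h1, hfs, ?_, ?_, ?_, ?_, ?_⟩
  · rw [rad_fs h0 h1, hfs, ← rad_fs hx hx1]
  · rw [e1, rr_hgt_neg]
    have h := hgt_sub_one x
    unfold dg
    linarith
  · have h := hgt_sub_one (1 - x)
    rw [e2, rr_hgt_neg] at h
    unfold dg
    linarith
  · intro v
    unfold mlt
    rw [ho, ho1, max_comm]
  · intro v hv
    rw [mem_fs hx hx1] at hv
    have hc := ord_cases v hx hx1
    rcases hc with ⟨a, b⟩ | ⟨a, b⟩ | ⟨a, b⟩
    · have p0 : prt x v = 0 := prt_eq_zero.2 a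
      have p1 : prt (1 - x) v = 1 := prt_eq_one.2 (by rw [ho]; exact b)
      rw [p0, p1]
      decide
    · have p0 : prt x v = 1 := prt_eq_one.2 a
      have p1 : prt (1 - x) v = 0 := prt_eq_zero.2 (by rw [ho]; omega)
      rw [p0, p1]
      decide
    · have p0 : prt x v = 2 := prt_eq_two.2 a
      have p1 : prt (1 - x) v = 2 := prt_eq_two.2 (by rw [ho]; omega)
      rw [p0, p1]
      decide

theorem role_two2 {K : Type*} [Field K] [NumberField K] {x : K} (hx : x ≠ 0) (hx1 : x ≠ 1) :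
    x⁻¹ ≠ 0 ∧ x⁻¹ ≠ 1 ∧ fs x⁻¹ = fs x ∧ rad x⁻¹ = rad x ∧ hgt x⁻¹ = hgt x ∧
      (∀ v, mlt x⁻¹ v = mlt x v) ∧ ∀ v ∈ fs x, prt x⁻¹ v = Equiv.swap 0 2 (prt x v) := by
  have h0 : x⁻¹ ≠ 0 := inv_ne_zero hx
  have h1 : x⁻¹ ≠ 1 := by
    intro h
    exact hx1 (inv_eq_one.1 h)
  have hx1' : x - 1 ≠ 0 := sub_ne_zero.2 hx1
  have ho : ∀ v, ord v x⁻¹ = -ord v x := fun v => ord_inv' v hx
  have ho1 : ∀ v, ord v (x⁻¹ - 1) = ord v (x - 1) - ord v x := by
    intro v
    have e : x⁻¹ - 1 = -((x - 1) / x) := by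
      field_simp
      ring
    rw [e, ord_neg', ord_div v hx1' hx]
  have hfs : fs x⁻¹ = fs x := by
    ext v
    rw [mem_fs h0 h1, mem_fs hx hx1, ho, ho1]
    have := ord_cases v hx hx1
    omega
  refine ⟨h0, h1, hfs, ?_, hgt_inv x, ?_, ?_⟩
  · rw [rad_fs h0 h1, hfs, ← rad_fs hx hx1]
  · intro v
    unfold mlt
    rw [ho, ho1]
    have := ord_cases v hx hx1
    omega
  · intro v _
    have hc := ord_cases v hx hx1
    rcases hc with ⟨a, b⟩ | ⟨a, b⟩ | ⟨a, b⟩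
    · have p0 : prt x v = 0 := prt_eq_zero.2 a
      have p1 : prt x⁻¹ v = 2 := prt_eq_two.2 (by rw [ho]; omega)
      rw [p0, p1]
      decide
    · have p0 : prt x v = 1 := prt_eq_one.2 a
      have p1 : prt x⁻¹ v = 1 := prt_eq_one.2 (by rw [ho]; omega)
      rw [p0, p1]
      decide
    · have p0 : prt x v = 2 := prt_eq_two.2 a
      have p1 : prt x⁻¹ v = 0 := prt_eq_zero.2 (by rw [ho]; omega)
      rw [p0, p1]
      decide

private theorem rr_dg_nonneg (K : Type*) [Field K] [NumberField K] :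
    0 ≤ dg K * Real.log 2 :=
  mul_nonneg (by have := one_le_dg K; linarith) (Real.log_nonneg (by norm_num))

theorem roles2 (K : Type*) [Field K] [NumberField K] (i j : Fin 3) (hij : i ≠ j) :
    ∃ r : K → K, (∀ x y : K, x ≠ 0 → x ≠ 1 → y ≠ 0 → y ≠ 1 → r x = r y → x = y) ∧
      ∀ x : K, x ≠ 0 → x ≠ 1 → r x ≠ 0 ∧ r x ≠ 1 ∧ fs (r x) = fs x ∧ rad (r x) = rad x ∧
        hgt (r x) ≤ hgt x + 2 * (dg K * Real.log 2) ∧
        hgt x ≤ hgt (r x) + 2 * (dg K * Real.log 2) ∧ (∀ v, mlt (r x) v = mlt x v) ∧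
        (∀ v ∈ fs x, prt (r x) v = 1 ↔ prt x v = i) ∧
        ∀ v ∈ fs x, prt x v = j → prt (r x) v = 0 := by
  have key : ∀ i j : Fin 3, i ≠ j → (i = 1 ∧ j = 0) ∨ (i = 0 ∧ j = 1) ∨ (i = 1 ∧ j = 2) ∨
      (i = 2 ∧ j = 0) ∨ (i = 2 ∧ j = 1) ∨ (i = 0 ∧ j = 2) := by decide
  have hd := rr_dg_nonneg K
  rcases key i j hij with ⟨rfl, rfl⟩ | ⟨rfl, rfl⟩ | ⟨rfl, rfl⟩ | ⟨rfl, rfl⟩ | ⟨rfl, rfl⟩ | ⟨rfl, rfl⟩
  · refine ⟨fun x => x, fun x y _ _ _ _ h => h, fun x hx hx1 => ⟨hx, hx1, rfl, rfl, by linarith,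
      by linarith, fun v => rfl, fun v _ => Iff.rfl, fun v _ h => h⟩⟩
  · refine ⟨fun x => 1 - x, fun x y _ _ _ _ h => ?_, fun x hx hx1 => ?_⟩
    · linear_combination -h
    · obtain ⟨a0, a1, af, ar, ah, ah', am, ap⟩ := role_one2 hx hx1
      refine ⟨a0, a1, af, ar, by linarith, by linarith, am, fun v hv => ?_, fun v hv h => ?_⟩
      · rw [ap v hv]
        generalize prt x v = q
        revert q
        decide
      · rw [ap v hv, h]
        decide
  · refine ⟨fun x => x⁻¹, fun x y _ _ _ _ h => inv_injective h, fun x hx hx1 => ?_⟩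
    obtain ⟨a0, a1, af, ar, ah, am, ap⟩ := role_two2 hx hx1
    refine ⟨a0, a1, af, ar, by linarith, by linarith, am, fun v hv => ?_, fun v hv h => ?_⟩
    · rw [ap v hv]
      generalize prt x v = q
      revert q
      decide
    · rw [ap v hv, h]
      decide
  · refine ⟨fun x => (1 - x⁻¹)⁻¹, fun x y _ _ _ _ h => ?_, fun x hx hx1 => ?_⟩
    · have h1 : 1 - x⁻¹ = 1 - y⁻¹ := inv_injective h
      have h2 : x⁻¹ = y⁻¹ := by linear_combination -h1
      exact inv_injective h2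
    · obtain ⟨a0, a1, af, ar, ah, am, ap⟩ := role_two2 hx hx1
      obtain ⟨b0, b1, bf, br, bh, bh', bm, bp⟩ := role_one2 a0 a1
      obtain ⟨c0, c1, cf, cr, ch, cm, cp⟩ := role_two2 b0 b1
      refine ⟨c0, c1, by rw [cf, bf, af], by rw [cr, br, ar], by linarith, by linarith,
        fun v => by rw [cm, bm, am], fun v hv => ?_, fun v hv h => ?_⟩
      · rw [cp v (by rw [bf, af]; exact hv), bp v (by rw [af]; exact hv), ap v hv]
        generalize prt x v = q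
        revert q
        decide
      · rw [cp v (by rw [bf, af]; exact hv), bp v (by rw [af]; exact hv), ap v hv, h]
        decide
  · refine ⟨fun x => 1 - x⁻¹, fun x y _ _ _ _ h => ?_, fun x hx hx1 => ?_⟩
    · have h2 : x⁻¹ = y⁻¹ := by linear_combination -h
      exact inv_injective h2
    · obtain ⟨a0, a1, af, ar, ah, am, ap⟩ := role_two2 hx hx1
      obtain ⟨b0, b1, bf, br, bh, bh', bm, bp⟩ := role_one2 a0 a1
      refine ⟨b0, b1, by rw [bf, af], by rw [br, ar], by linarith, by linarith,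
        fun v => by rw [bm, am], fun v hv => ?_, fun v hv h => ?_⟩
      · rw [bp v (by rw [af]; exact hv), ap v hv]
        generalize prt x v = q
        revert q
        decide
      · rw [bp v (by rw [af]; exact hv), ap v hv, h]
        decide
  · refine ⟨fun x => (1 - x)⁻¹, fun x y _ _ _ _ h => ?_, fun x hx hx1 => ?_⟩
    · have h1 : 1 - x = 1 - y := inv_injective h
      linear_combination -h1
    · obtain ⟨b0, b1, bf, br, bh, bh', bm, bp⟩ := role_one2 hx hx1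
      obtain ⟨c0, c1, cf, cr, ch, cm, cp⟩ := role_two2 b0 b1
      refine ⟨c0, c1, by rw [cf, bf], by rw [cr, br], by linarith, by linarith,
        fun v => by rw [cm, bm], fun v hv => ?_, fun v hv h => ?_⟩
      · rw [cp v (by rw [bf]; exact hv), bp v hv]
        generalize prt x v = q
        revert q
        decide
      · rw [cp v (by rw [bf]; exact hv), bp v hv, h]
        decide

end Pool.Agent.FPL
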