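import Mathlib

/-!
# VecCount (size 2, pure)

As `Pool.Agent.TMS.vec_col` with weight `exp (-σ k)` instead of `2 ^ (-(k+1))`: the set `A` of vectors with sum `≤ S` is finite, `|A| exp (-σ S) ≤ ∑_{k ∈ A} ∏_i exp (-σ k_i) ≤
(∑_{j ≤ S} exp (-σ j)) ^ |ι| ≤ (1 / (1 - exp (-σ))) ^ |ι| ≤ (1 + 1/σ) ^ |ι|` (`1 - exp (-σ) ≥ σ / (1 + σ)` because `exp σ ≥ 1 + σ`). `A` contains the zero vector, so `M = |A| ≥ 1`.
-/

namespace Pool.Agent.FPL

private theorem VecCount_geom (S : ℕ) (σ : ℝ) (hσ : 0 < σ) :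
    ∑ j ∈ Finset.range (S + 1), Real.exp (-σ * j) ≤ 1 + 1 / σ := by
  have h1 : ∀ j : ℕ, Real.exp (-σ * j) = Real.exp (-σ) ^ j := by
    intro j
    rw [← Real.exp_nat_mul]
    congr 1
    ring
  simp_rw [h1]
  have hlt : Real.exp (-σ) < 1 := by
    rw [Real.exp_lt_one_iff]
    linarith
  have hpos : 0 < Real.exp (-σ) := Real.exp_pos _
  have h2 : ∑ j ∈ Finset.range (S + 1), Real.exp (-σ) ^ j ≤ (1 - Real.exp (-σ))⁻¹ := by
    have := Summable.sum_le_tsum (Finset.range (S + 1)) (fun i _ => pow_nonneg hpos.le i)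
      (summable_geometric_of_lt_one hpos.le hlt)
    rwa [tsum_geometric_of_lt_one hpos.le hlt] at this
  refine h2.trans ?_
  have h3 : 1 + σ ≤ Real.exp σ := by
    have := Real.add_one_le_exp σ
    linarith
  have h4 : Real.exp (-σ) ≤ 1 / (1 + σ) := by
    rw [Real.exp_neg, ← one_div]
    exact one_div_le_one_div_of_le (by linarith) h3
  have h5 : σ / (1 + σ) ≤ 1 - Real.exp (-σ) := by
    have : 1 - 1 / (1 + σ) = σ / (1 + σ) := by
      field_simp
      ring
    linarith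
  have h6 : (1 - Real.exp (-σ))⁻¹ ≤ (σ / (1 + σ))⁻¹ :=
    inv_anti₀ (by positivity) h5
  refine h6.trans (le_of_eq ?_)
  field_simp
  ring

theorem vec_count (ι : Type*) [Fintype ι] (S : ℕ) (σ : ℝ) (hσ : 0 < σ) :
    ∃ (M : ℕ) (f : (ι → ℕ) → Fin M),
      (M : ℝ) ≤ Real.exp (σ * S) * (1 + 1 / σ) ^ Fintype.card ι ∧
      ∀ k l : ι → ℕ, ∑ i, k i ≤ S → ∑ i, l i ≤ S → f k = f l → k = l := by
  classical
  set A := (Fintype.piFinset fun _ : ι => Finset.range (S + 1)).filter (fun k => ∑ i, k i ≤ S)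
    with hA
  have hmem : ∀ k : ι → ℕ, ∑ i, k i ≤ S → k ∈ A := by
    intro k hk
    rw [hA, Finset.mem_filter, Fintype.mem_piFinset]
    refine ⟨fun i => ?_, hk⟩
    rw [Finset.mem_range]
    have := Finset.single_le_sum (f := k) (fun j _ => Nat.zero_le _) (Finset.mem_univ i)
    omega
  have h0 : (fun _ => 0 : ι → ℕ) ∈ A := hmem _ (by simp)
  have hApos : 0 < A.card := Finset.card_pos.2 ⟨_, h0⟩
  obtain ⟨g⟩ : Nonempty (A ↪ Fin A.card) :=
    Function.Embedding.nonempty_of_card_le (by rw [Fintype.card_coe, Fintype.card_fin])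
  refine ⟨A.card, fun k => if h : k ∈ A then g ⟨k, h⟩ else ⟨0, hApos⟩, ?_, fun k l hk hl h => ?_⟩
  · have h1 : (A.card : ℝ) * Real.exp (-(σ * S)) ≤
        ∑ k ∈ A, ∏ i, Real.exp (-σ * (k i : ℝ)) := by
      rw [← nsmul_eq_mul]
      refine Finset.card_nsmul_le_sum A _ _ fun k hk => ?_
      rw [← Real.exp_sum]
      apply Real.exp_le_exp.2
      rw [← Finset.mul_sum]
      have h2 : (∑ i, k i) ≤ S := (Finset.mem_filter.1 hk).2
      have h3 : ((∑ i, (k i : ℝ)) : ℝ) ≤ S := by exact_mod_cast h2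
      nlinarith
    have h2 : ∑ k ∈ A, ∏ i, Real.exp (-σ * (k i : ℝ)) ≤
        ∑ k ∈ Fintype.piFinset fun _ : ι => Finset.range (S + 1),
          ∏ i, Real.exp (-σ * (k i : ℝ)) :=
      Finset.sum_le_sum_of_subset_of_nonneg (Finset.filter_subset _ _)
        fun k _ _ => Finset.prod_nonneg fun i _ => (Real.exp_pos _).le
    have h3 : ∑ k ∈ Fintype.piFinset fun _ : ι => Finset.range (S + 1),
          ∏ i, Real.exp (-σ * (k i : ℝ)) =
        (∑ j ∈ Finset.range (S + 1), Real.exp (-σ * (j : ℝ))) ^ Fintype.card ι := by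
      rw [← Finset.prod_univ_sum (fun _ : ι => Finset.range (S + 1))
        (fun _ (j : ℕ) => Real.exp (-σ * (j : ℝ)))]
      rw [Finset.prod_const, Finset.card_univ]
    have h4 : (∑ j ∈ Finset.range (S + 1), Real.exp (-σ * (j : ℝ))) ^ Fintype.card ι ≤
        (1 + 1 / σ) ^ Fintype.card ι :=
      pow_le_pow_left₀ (Finset.sum_nonneg fun i _ => (Real.exp_pos _).le)
        (VecCount_geom S σ hσ) _
    have h5 : (A.card : ℝ) * Real.exp (-(σ * S)) ≤ (1 + 1 / σ) ^ Fintype.card ι :=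
      (h1.trans h2).trans (h3.le.trans h4)
    have h6 : (A.card : ℝ) = Real.exp (σ * S) * ((A.card : ℝ) * Real.exp (-(σ * S))) := by
      rw [Real.exp_neg]
      field_simp
    rw [h6]
    exact mul_le_mul_of_nonneg_left h5 (Real.exp_pos _).le
  · beta_reduce at h
    rw [dif_pos (hmem k hk), dif_pos (hmem l hl)] at h
    exact Subtype.mk_eq_mk.1 (g.injective h)

end Pool.Agent.FPL
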