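import Pool.Agent.FPL.Mass
import Pool.Agent.FPL.RankinZ
import Pool.Agent.FPL.VecCount

/-!
# SmallB2 (size 5)

Let `x ∈ S`, `T = (fs x).filter (prt ≠ 1)` (zeros and poles). `∑_{T} mlt x u ≤ (∑_T ms x u) / log 2 ≤ 2 hgt x / log 2 ≤ Sv`, `Sv = ⌈3 R ^ (2 + ε/8)⌉₊` (`mass_zero`, `mass_two`, `ln u ≥ log 2`,
`2 / log 2 < 3`). For fixed `T` the colour of `x`: `prt x u` (`u ∈ T`, `3 ^ T.card` values), the vector `(mlt x u)_{u ∈ T}` by `vec_count` with `σ = (ε/4) R / Sv`: at most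
`exp (ε/4 R) (1 + 1/σ) ^ T.card` values, and `⌊log (w x)⌋` for the infinite `w`: `|log w x| ≤ hgt x ≤ R ^ 3` (`abs_log_le_hgt`), at most `(3 R ^ 3 + 3) ^ d` values.
If `x, y` have the same `T` and colour, `ord u x = ord u y` for all `u`: for `u ∈ T` by `mlt_zero, mlt_two`; for `u ∉ T`: `prt = 1` or `u ∉ fs x`, `ord = 0`; the same for `y`. So `x / y` is a
unit with `|log w| ≤ 1`: it lies in the finite set of `units_bdd K 1`; so at most `Nu` elements `x` per `T` and colour.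
With `z = 3 (1 + 1/σ) ≤ C4 R ^ (1 + ε/8)`: `S.card ≤ Nu (3 R^3 + 3)^d exp (ε/4 R) ∑_T z ^ T.card`, `∑_T z ^ T.card ≤ exp ((1 + ε/2) ρ) ∑_T z ^ T.card exp (-(1 + ε/2) LN T) ≤
exp (ρ + ε/2 R) exp (C5 z ^ (1 / (1 + ε/4)) (1 + log z))` (`rankinZ K (ε/2)`), and `z ^ (1/(1+ε/4)) ≤ C6 R ^ ((1 + ε/8)/(1 + ε/4)) ≤ C6 R ^ (1 - ε/10)`, so the last exponent is `≤ (ε/8) R` for
`R ≥ C`, and `(3 R^3+3)^d Nu ≤ exp (ε/8 R)` for `R ≥ C`.
-/

namespace Pool.Agent.FPL

open NumberField IsDedekindDomain Pool.Agent.H7.Abc Pool.Agent.AbcE Pool.Agent.AbcF Pool.Agent.TMS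
  Pool.Agent.TM2

section fib

variable {K : Type*} [Field K] [NumberField K]

open Classical in
/-- the set `T` of zeros and poles -/
private noncomputable def sbT (x : K) : Finset (HeightOneSpectrum (𝓞 K)) :=
  (fs x).filter (fun u => prt x u ≠ 1)

private theorem mem_sbT {x : K} (hx : x ≠ 0) (hx1 : x ≠ 1) (u : HeightOneSpectrum (𝓞 K)) :
    u ∈ sbT x ↔ ord u x ≠ 0 := by
  unfold sbT
  rw [Finset.mem_filter, mem_fs hx hx1]
  have h : prt x u = 1 ↔ ord u x = 0 := prt_eq_one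
  tauto

private theorem sb_mlt_eq {x : K} (hx : x ≠ 0) (hx1 : x ≠ 1) {u : HeightOneSpectrum (𝓞 K)}
    (hu : ord u x ≠ 0) : (mlt x u : ℤ) = if prt x u = 0 then ord u x else -ord u x := by
  rcases lt_trichotomy (ord u x) 0 with h | h | h
  · have h2 : prt x u = 2 := prt_eq_two.2 h
    rw [(mlt_two hx hx1 h2).1, h2, if_neg (by decide)]
  · exact absurd h hu
  · have h2 : prt x u = 0 := prt_eq_zero.2 h
    rw [(mlt_zero hx hx1 h2).1, h2, if_pos rfl]

private theorem sb_ord_eq {x y : K} (hx : x ≠ 0) (hx1 : x ≠ 1) (hy : y ≠ 0) (hy1 : y ≠ 1)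
    (hT : sbT x = sbT y) (hp : ∀ u ∈ sbT x, prt x u = prt y u)
    (hm : ∀ u ∈ sbT x, mlt x u = mlt y u) (u : HeightOneSpectrum (𝓞 K)) : ord u x = ord u y := by
  by_cases hu : u ∈ sbT x
  · have hu' : u ∈ sbT y := hT ▸ hu
    have h1 := sb_mlt_eq hx hx1 ((mem_sbT hx hx1 u).1 hu)
    have h2 := sb_mlt_eq hy hy1 ((mem_sbT hy hy1 u).1 hu')
    rw [← hp u hu, ← hm u hu] at h2
    rw [h1] at h2
    split_ifs at h2 with h3
    · exact h2
    · omega
  · have hu' : u ∉ sbT y := hT ▸ hu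
    have h1 : ord u x = 0 := by
      by_contra h
      exact hu ((mem_sbT hx hx1 u).2 h)
    have h2 : ord u y = 0 := by
      by_contra h
      exact hu' ((mem_sbT hy hy1 u).2 h)
    rw [h1, h2]

open Classical in
private theorem sb_fib (U : Finset K)
    (hU : ∀ η : K, η ≠ 0 → (∀ v : HeightOneSpectrum (𝓞 K), ord v η = 0) →
      (∀ w : InfinitePlace K, |Real.log (w η)| ≤ 1) → η ∈ U)
    (T : Finset (HeightOneSpectrum (𝓞 K))) (Sv : ℕ) (σ : ℝ) (hσ : 0 < σ) (L : ℝ) (hL : 0 ≤ L)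
    (S : Finset K)
    (hS : ∀ x ∈ S, x ≠ 0 ∧ x ≠ 1 ∧ sbT x = T ∧ ∑ u ∈ T, mlt x u ≤ Sv ∧
      ∀ w : InfinitePlace K, |Real.log (w x)| ≤ L) :
    (S.card : ℝ) ≤ (U.card : ℝ) * ((3 * (1 + 1 / σ)) ^ T.card * Real.exp (σ * Sv) *
      (2 * L + 3) ^ Fintype.card (InfinitePlace K)) := by
  obtain ⟨M, f, hM, hf⟩ := vec_count T Sv σ hσ
  set c : K → (T → Fin 3) × Fin M × (InfinitePlace K → ℤ) := fun x =>
    (fun u => prt x u.1, f (fun u => mlt x u.1), fun w => ⌊Real.log (w x)⌋) with hc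
  set N : ℕ := ⌈L⌉₊ with hN
  have hNL : L ≤ N := Nat.le_ceil L
  have hNL2 : (N : ℝ) ≤ L + 1 := (Nat.ceil_lt_add_one hL).le
  have h1 : S.card ≤ U.card * (S.image c).card := by
    refine Finset.card_le_mul_card_image S U.card ?_
    intro a ha
    obtain ⟨x0, hx0, rfl⟩ := Finset.mem_image.1 ha
    have hx0S := hS x0 hx0
    refine Finset.card_le_card_of_injOn (fun x => x / x0) ?_ ?_
    · intro x hx
      rw [Finset.mem_coe, Finset.mem_filter] at hx
      obtain ⟨hxS, hxc⟩ := hx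
      have hxS' := hS x hxS
      rw [hc] at hxc
      simp only [Prod.mk.injEq] at hxc
      obtain ⟨hc1, hc2, hc3⟩ := hxc
      have hm : (fun u : T => mlt x u.1) = fun u : T => mlt x0 u.1 := by
        refine hf _ _ ?_ ?_ hc2
        · rw [Finset.sum_coe_sort T (fun u => mlt x u)]
          exact hxS'.2.2.2.1
        · rw [Finset.sum_coe_sort T (fun u => mlt x0 u)]
          exact hx0S.2.2.2.1
      have hord : ∀ v, ord v x = ord v x0 := by
        refine sb_ord_eq hxS'.1 hxS'.2.1 hx0S.1 hx0S.2.1 (hxS'.2.2.1.trans hx0S.2.2.1.symm) ?_ ?_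
        · intro u hu
          rw [hxS'.2.2.1] at hu
          exact congrFun hc1 ⟨u, hu⟩
        · intro u hu
          rw [hxS'.2.2.1] at hu
          exact congrFun hm ⟨u, hu⟩
      refine hU _ (div_ne_zero hxS'.1 hx0S.1) ?_ ?_
      · intro v
        rw [ord_div v hxS'.1 hx0S.1, hord v, sub_self]
      · intro w
        have hwx : w x ≠ 0 := (InfinitePlace.pos_iff.2 hxS'.1).ne'
        have hwx0 : w x0 ≠ 0 := (InfinitePlace.pos_iff.2 hx0S.1).ne'
        rw [map_div₀, Real.log_div hwx hwx0]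
        exact (Int.abs_sub_lt_one_of_floor_eq_floor (congrFun hc3 w)).le
    · intro x hx y hy hxy
      exact (div_left_inj' hx0S.1).1 hxy
  have h2 : (S.image c).card ≤ 3 ^ T.card * (M * (2 * N + 1) ^ Fintype.card (InfinitePlace K)) := by
    have h3 : S.image c ⊆ (Finset.univ : Finset (T → Fin 3)) ×ˢ ((Finset.univ : Finset (Fin M)) ×ˢ
        Fintype.piFinset (fun _ : InfinitePlace K => Finset.Icc (-(N : ℤ)) N)) := by
      intro a ha
      obtain ⟨x, hx, rfl⟩ := Finset.mem_image.1 ha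
      rw [Finset.mem_product, Finset.mem_product]
      refine ⟨Finset.mem_univ _, Finset.mem_univ _, ?_⟩
      rw [Fintype.mem_piFinset]
      intro w
      have h4 := abs_le.1 ((hS x hx).2.2.2.2 w)
      rw [Finset.mem_Icc]
      constructor
      · show -(N : ℤ) ≤ ⌊Real.log (w x)⌋
        rw [Int.le_floor]
        push_cast
        linarith [h4.1]
      · show ⌊Real.log (w x)⌋ ≤ (N : ℤ)
        have h5 : ⌊Real.log (w x)⌋ ≤ ⌊(N : ℝ)⌋ := Int.floor_le_floor (h4.2.trans hNL)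
        rwa [Int.floor_natCast] at h5
    refine (Finset.card_le_card h3).trans (le_of_eq ?_)
    rw [Finset.card_product, Finset.card_product, Finset.card_univ, Finset.card_univ,
      Fintype.card_piFinset, Fintype.card_fin, Fintype.card_fun, Fintype.card_fin,
      Fintype.card_coe, Finset.prod_const, Finset.card_univ, Int.card_Icc]
    congr 3
    omega
  have h6 : (S.card : ℝ) ≤ (U.card : ℝ) * (3 ^ T.card * (M * (2 * N + 1) ^
      Fintype.card (InfinitePlace K))) := by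
    exact_mod_cast h1.trans (Nat.mul_le_mul_left _ h2)
  refine h6.trans (mul_le_mul_of_nonneg_left ?_ (Nat.cast_nonneg _))
  rw [Fintype.card_coe] at hM
  have h7 : (2 * (N : ℝ) + 1) ^ Fintype.card (InfinitePlace K) ≤
      (2 * L + 3) ^ Fintype.card (InfinitePlace K) :=
    pow_le_pow_left₀ (by positivity) (by linarith) _
  calc (3 : ℝ) ^ T.card * (M * (2 * N + 1) ^ Fintype.card (InfinitePlace K))
      ≤ 3 ^ T.card * ((Real.exp (σ * Sv) * (1 + 1 / σ) ^ T.card) *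
          (2 * L + 3) ^ Fintype.card (InfinitePlace K)) := by
        refine mul_le_mul_of_nonneg_left ?_ (by positivity)
        exact mul_le_mul hM h7 (by positivity) (by positivity)
    _ = _ := by
        rw [mul_pow]
        ring

end fib

section ana

open Filter Asymptotics in
private theorem sb_ana (ε : ℝ) (hε : 0 < ε) (hε1 : ε ≤ 1) (C1 : ℝ) (hC1 : 1 ≤ C1) (q : ℕ)
    (Nu : ℝ) (hNu : 0 ≤ Nu) :
    ∃ C : ℝ, 1 ≤ C ∧ ∀ R : ℝ, C ≤ R →
      Nu * (2 * R ^ 3 + 3) ^ q ≤ Real.exp (ε / 8 * R) ∧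
      ∀ z : ℝ, 1 ≤ z → z ≤ 51 / ε * R ^ (1 + ε / 8) →
        C1 * z ^ (1 / (1 + ε / 4)) * (1 + Real.log z) ≤ ε / 8 * R := by
  have hε8 : 0 < ε / 8 := by positivity
  -- first part
  have e1 : ∀ᶠ R : ℝ in atTop, Nu * (2 * R ^ 3 + 3) ^ q ≤ Real.exp (ε / 8 * R) := by
    have h1 := (isLittleO_pow_exp_pos_mul_atTop (3 * q) hε8).bound
      (show (0 : ℝ) < 1 / ((Nu + 1) * 5 ^ q) by positivity)
    filter_upwards [h1, eventually_ge_atTop (1 : ℝ)] with R h2 hR
    have hR0 : 0 ≤ R := by linarith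
    rw [Real.norm_of_nonneg (pow_nonneg hR0 _), Real.norm_of_nonneg (Real.exp_pos _).le] at h2
    have h3 : 2 * R ^ 3 + 3 ≤ 5 * R ^ 3 := by
      have : 1 ≤ R ^ 3 := one_le_pow₀ hR
      linarith
    have h4 : (2 * R ^ 3 + 3) ^ q ≤ 5 ^ q * R ^ (3 * q) := by
      calc (2 * R ^ 3 + 3) ^ q ≤ (5 * R ^ 3) ^ q := pow_le_pow_left₀ (by positivity) h3 _
        _ = 5 ^ q * R ^ (3 * q) := by rw [mul_pow, ← pow_mul]
    have h5 : (Nu + 1) * 5 ^ q * R ^ (3 * q) ≤ Real.exp (ε / 8 * R) := by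
      have h6 := mul_le_mul_of_nonneg_left h2 (show 0 ≤ (Nu + 1) * 5 ^ q by positivity)
      have h7 : (Nu + 1) * 5 ^ q * (1 / ((Nu + 1) * 5 ^ q) * Real.exp (ε / 8 * R)) =
          Real.exp (ε / 8 * R) := by
        have : (Nu + 1) * 5 ^ q ≠ 0 := by positivity
        field_simp
      linarith
    calc Nu * (2 * R ^ 3 + 3) ^ q ≤ (Nu + 1) * (5 ^ q * R ^ (3 * q)) :=
          mul_le_mul (by linarith) h4 (by positivity) (by positivity)
      _ = (Nu + 1) * 5 ^ q * R ^ (3 * q) := by ring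
      _ ≤ _ := h5
  -- second part
  set θ : ℝ := 1 / (1 + ε / 4) with hθ
  have hθ0 : 0 < θ := by positivity
  set s : ℝ := ε / 32 with hs
  have hs0 : 0 < s := by positivity
  set A : ℝ := 51 / ε with hA
  have hA1 : 1 ≤ A := by
    rw [hA, le_div_iff₀ hε]
    linarith
  set κ : ℝ := (1 + ε / 8) * (θ + s) with hκ
  have hκ1 : κ < 1 := by
    have h1 : κ * (1 + ε / 4) = (1 + ε / 8) * (1 + s * (1 + ε / 4)) := by
      rw [hκ, hθ]
      field_simp
    have h2 : (1 + ε / 8) * (1 + s * (1 + ε / 4)) < 1 * (1 + ε / 4) := by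
      rw [hs]
      nlinarith [mul_pos hε hε, mul_nonneg hε.le (sub_nonneg.2 hε1),
        mul_nonneg (mul_pos hε hε).le (sub_nonneg.2 hε1)]
    rw [← h1] at h2
    exact lt_of_mul_lt_mul_right h2 (by positivity)
  set Q : ℝ := C1 * ((1 + 1 / s) * A ^ (θ + s)) / (ε / 8) with hQ
  have e2 : ∀ᶠ R : ℝ in atTop, Q ≤ R ^ (1 - κ) :=
    (tendsto_rpow_atTop (by linarith : 0 < 1 - κ)).eventually_ge_atTop Q
  obtain ⟨C0, hC0⟩ := eventually_atTop.1 (e1.and e2)
  refine ⟨max 1 C0, le_max_left _ _, fun R hR => ?_⟩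
  have hR1 : 1 ≤ R := (le_max_left _ _).trans hR
  have hR0 : 0 < R := by linarith
  obtain ⟨h1, h2⟩ := hC0 R ((le_max_right _ _).trans hR)
  refine ⟨h1, fun z hz1 hz2 => ?_⟩
  have hz0 : 0 < z := by linarith
  have h3 : Real.log z ≤ z ^ s / s := Real.log_le_rpow_div hz0.le hs0
  have h4 : 1 ≤ z ^ s := Real.one_le_rpow hz1 hs0.le
  have h5 : 1 + Real.log z ≤ (1 + 1 / s) * z ^ s := by
    have : (1 + 1 / s) * z ^ s = z ^ s + z ^ s / s := by ring
    rw [this]
    linarith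
  have h6 : z ^ θ * (1 + Real.log z) ≤ (1 + 1 / s) * z ^ (θ + s) := by
    calc z ^ θ * (1 + Real.log z) ≤ z ^ θ * ((1 + 1 / s) * z ^ s) :=
          mul_le_mul_of_nonneg_left h5 (by positivity)
      _ = (1 + 1 / s) * z ^ (θ + s) := by
          rw [Real.rpow_add hz0]
          ring
  have h7 : z ^ (θ + s) ≤ A ^ (θ + s) * R ^ κ := by
    calc z ^ (θ + s) ≤ (A * R ^ (1 + ε / 8)) ^ (θ + s) :=
          Real.rpow_le_rpow hz0.le hz2 (by positivity)
      _ = A ^ (θ + s) * R ^ κ := by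
          rw [Real.mul_rpow (by positivity) (by positivity), ← Real.rpow_mul hR0.le]
  have h8 : R ^ κ * R ^ (1 - κ) = R := by
    rw [← Real.rpow_add hR0]
    norm_num
  have h9 : Q * R ^ κ ≤ R := by
    calc Q * R ^ κ ≤ R ^ (1 - κ) * R ^ κ := mul_le_mul_of_nonneg_right h2 (by positivity)
      _ = R := by rw [mul_comm]; exact h8
  have h10 : C1 * ((1 + 1 / s) * A ^ (θ + s)) * R ^ κ ≤ ε / 8 * R := by
    have h11 : C1 * ((1 + 1 / s) * A ^ (θ + s)) = ε / 8 * Q := by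
      rw [hQ]
      field_simp
    rw [h11]
    calc ε / 8 * Q * R ^ κ = ε / 8 * (Q * R ^ κ) := by ring
      _ ≤ ε / 8 * R := mul_le_mul_of_nonneg_left h9 hε8.le
  calc C1 * z ^ θ * (1 + Real.log z) = C1 * (z ^ θ * (1 + Real.log z)) := by ring
    _ ≤ C1 * ((1 + 1 / s) * z ^ (θ + s)) := mul_le_mul_of_nonneg_left h6 (by linarith)
    _ ≤ C1 * ((1 + 1 / s) * (A ^ (θ + s) * R ^ κ)) := by
        refine mul_le_mul_of_nonneg_left ?_ (by linarith)
        exact mul_le_mul_of_nonneg_left h7 (by positivity)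
    _ = C1 * ((1 + 1 / s) * A ^ (θ + s)) * R ^ κ := by ring
    _ ≤ _ := h10

end ana

section main

variable {K : Type*} [Field K] [NumberField K]

open Classical in
private theorem sb_mass {x : K} (hx : x ≠ 0) (hx1 : x ≠ 1) :
    (∑ u ∈ sbT x, (mlt x u : ℝ)) * Real.log 2 ≤ 2 * hgt x := by
  have h0 : ∀ u : HeightOneSpectrum (𝓞 K), Real.log 2 ≤ ln u := fun u =>
    Real.log_le_log (by norm_num) (two_le_norm u)
  have h1 : (∑ u ∈ sbT x, (mlt x u : ℝ)) * Real.log 2 ≤ ∑ u ∈ sbT x, ms x u := by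
    rw [Finset.sum_mul]
    refine Finset.sum_le_sum fun u _ => ?_
    unfold ms
    exact mul_le_mul_of_nonneg_left (h0 u) (Nat.cast_nonneg _)
  have h2 : ∑ u ∈ sbT x, ms x u = ∑ u ∈ (sbT x).filter (fun u => prt x u = 0), ms x u +
      ∑ u ∈ (sbT x).filter (fun u => ¬ prt x u = 0), ms x u :=
    (Finset.sum_filter_add_sum_filter_not _ _ _).symm
  have h3 : ∑ u ∈ (sbT x).filter (fun u => prt x u = 0), ms x u ≤ hgt x :=
    mass_zero hx hx1 _ fun v hv => (Finset.mem_filter.1 hv).2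
  have h4 : ∑ u ∈ (sbT x).filter (fun u => ¬ prt x u = 0), ms x u ≤ hgt x := by
    refine mass_two hx hx1 _ fun v hv => ?_
    obtain ⟨h5, h6⟩ := Finset.mem_filter.1 hv
    have h7 : ord v x ≠ 0 := (mem_sbT hx hx1 v).1 h5
    rw [prt_eq_zero] at h6
    rw [prt_eq_two]
    omega
  linarith

end main

open Classical in
theorem smallB2 (K : Type*) [Field K] [NumberField K] (ε : ℝ) (hε : 0 < ε) (hε1 : ε ≤ 1) :
    ∃ C : ℝ, 1 ≤ C ∧ ∀ R : ℝ, C ≤ R → ∀ ρ : ℝ, 0 ≤ ρ → ρ ≤ R → ∀ S : Finset K,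
      (∀ x ∈ S, x ≠ 0 ∧ x ≠ 1 ∧ hgt x ≤ R ^ (2 + ε / 8) ∧
        LN ((fs x).filter (fun u => prt x u ≠ 1)) ≤ ρ) →
      (S.card : ℝ) ≤ C * Real.exp (ρ + ε * R) := by
  obtain ⟨C1, hC1, hrank⟩ := rankinZ K (ε / 2) (by positivity)
  set U : Finset K := (units_bdd K 1).toFinset with hU
  have hUm : ∀ η : K, η ≠ 0 → (∀ v : HeightOneSpectrum (𝓞 K), ord v η = 0) →
      (∀ w : InfinitePlace K, |Real.log (w η)| ≤ 1) → η ∈ U := by
    intro η h1 h2 h3
    rw [hU, Set.Finite.mem_toFinset]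
    exact ⟨h1, h2, h3⟩
  obtain ⟨C, hC, hana⟩ := sb_ana ε hε hε1 C1 hC1 (Fintype.card (InfinitePlace K)) (U.card : ℝ)
    (Nat.cast_nonneg _)
  refine ⟨C, hC, fun R hR ρ hρ hρR S hS => ?_⟩
  have hR1 : 1 ≤ R := hC.trans hR
  have hR0 : 0 < R := by linarith
  obtain ⟨ha1, ha2⟩ := hana R hR
  set H : ℝ := R ^ (2 + ε / 8) with hH
  have hH1 : 1 ≤ H := Real.one_le_rpow hR1 (by positivity)
  have hH3 : H ≤ R ^ 3 := by
    rw [hH, ← Real.rpow_natCast]
    refine Real.rpow_le_rpow_of_exponent_le hR1 ?_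
    push_cast
    linarith
  set Sv : ℕ := ⌈3 * H⌉₊ with hSv
  have hSv1 : 3 * H ≤ Sv := Nat.le_ceil _
  have hSv2 : (Sv : ℝ) ≤ 4 * H := by
    have := (Nat.ceil_lt_add_one (show (0 : ℝ) ≤ 3 * H by positivity)).le
    linarith
  have hSv0 : (0 : ℝ) < Sv := by linarith
  set σ : ℝ := ε / 4 * R / Sv with hσ
  have hσ0 : 0 < σ := by positivity
  have hσS : σ * Sv = ε / 4 * R := by
    rw [hσ]
    field_simp
  set z : ℝ := 3 * (1 + 1 / σ) with hz
  have hz1 : 1 ≤ z := by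
    have : 0 < 1 / σ := by positivity
    rw [hz]
    linarith
  have hRr : R * R ^ (1 + ε / 8) = H := by
    calc R * R ^ (1 + ε / 8) = R ^ (1 : ℝ) * R ^ (1 + ε / 8) := by rw [Real.rpow_one]
      _ = R ^ (1 + (1 + ε / 8)) := (Real.rpow_add hR0 _ _).symm
      _ = H := by
          rw [hH]
          congr 1
          ring
  have hR8 : 1 ≤ R ^ (1 + ε / 8) := Real.one_le_rpow hR1 (by positivity)
  have hz2 : z ≤ 51 / ε * R ^ (1 + ε / 8) := by
    have h1 : 1 / σ ≤ 16 / ε * R ^ (1 + ε / 8) := by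
      have h2 : 1 / σ = 4 * Sv / (ε * R) := by
        rw [hσ]
        field_simp
      rw [h2, div_le_iff₀ (by positivity)]
      have h3 : 16 / ε * R ^ (1 + ε / 8) * (ε * R) = 16 * (R * R ^ (1 + ε / 8)) := by
        field_simp
      rw [h3, hRr]
      linarith
    have h4 : 1 ≤ 1 / ε * R ^ (1 + ε / 8) := by
      have h5 : 1 ≤ 1 / ε := by
        rw [le_div_iff₀ hε]
        linarith
      nlinarith
    rw [hz]
    have h6 : 51 / ε * R ^ (1 + ε / 8) = 3 * (1 / ε * R ^ (1 + ε / 8) +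
        16 / ε * R ^ (1 + ε / 8)) := by ring
    rw [h6]
    linarith
  have ha3 := ha2 z hz1 hz2
  set G : ℝ := (U.card : ℝ) * (2 * R ^ 3 + 3) ^ Fintype.card (InfinitePlace K) with hG
  have hG0 : 0 ≤ G := by positivity
  -- the sum over `T`
  have hsum : (S.card : ℝ) ≤ ∑ T ∈ S.image sbT, G * Real.exp (ε / 4 * R) * z ^ T.card := by
    rw [Finset.card_eq_sum_card_image sbT S]
    push_cast
    refine Finset.sum_le_sum fun T _ => ?_
    have h1 := sb_fib U hUm T Sv σ hσ0 (R ^ 3) (by positivity) (S.filter fun x => sbT x = T) ?_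
    · refine h1.trans (le_of_eq ?_)
      rw [hσS, hG, hz]
      ring
    · intro x hx
      obtain ⟨hxS, hxT⟩ := Finset.mem_filter.1 hx
      obtain ⟨h2, h3, h4, h5⟩ := hS x hxS
      refine ⟨h2, h3, hxT, ?_, fun w => (abs_log_le_hgt h2 w).trans (h4.trans hH3)⟩
      have h6 := sb_mass h2 h3
      rw [hxT] at h6
      have h7 : (∑ u ∈ T, (mlt x u : ℝ)) ≤ Sv := by
        have h8 : (0.6931471803 : ℝ) < Real.log 2 := Real.log_two_gt_d9
        have h9 : 0 ≤ ∑ u ∈ T, (mlt x u : ℝ) := Finset.sum_nonneg fun u _ => Nat.cast_nonneg _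
        nlinarith
      exact_mod_cast h7
  have hrk := hrank z hz1 (S.image sbT)
  have h12 : (1 : ℝ) / (1 + ε / 2 / 2) = 1 / (1 + ε / 4) := by
    congr 2
    ring
  rw [h12] at hrk
  have hsum2 : ∑ T ∈ S.image sbT, z ^ T.card ≤
      Real.exp ((1 + ε / 2) * ρ) * Real.exp (ε / 8 * R) := by
    calc ∑ T ∈ S.image sbT, z ^ T.card
        ≤ ∑ T ∈ S.image sbT, Real.exp ((1 + ε / 2) * ρ) *
            (z ^ T.card * Real.exp (-((1 + ε / 2) * LN T))) := by
          refine Finset.sum_le_sum fun T hT => ?_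
          obtain ⟨x, hx, rfl⟩ := Finset.mem_image.1 hT
          have h13 : LN (sbT x) ≤ ρ := (hS x hx).2.2.2
          have h14 : (1 : ℝ) ≤ Real.exp ((1 + ε / 2) * ρ) *
              Real.exp (-((1 + ε / 2) * LN (sbT x))) := by
            rw [← Real.exp_add]
            refine Real.one_le_exp ?_
            have : (1 + ε / 2) * LN (sbT x) ≤ (1 + ε / 2) * ρ :=
              mul_le_mul_of_nonneg_left h13 (by positivity)
            linarith
          have h15 : 0 ≤ z ^ (sbT x).card := by positivity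
          calc z ^ (sbT x).card = z ^ (sbT x).card * 1 := (mul_one _).symm
            _ ≤ z ^ (sbT x).card * (Real.exp ((1 + ε / 2) * ρ) *
                Real.exp (-((1 + ε / 2) * LN (sbT x)))) := mul_le_mul_of_nonneg_left h14 h15
            _ = _ := by ring
      _ = Real.exp ((1 + ε / 2) * ρ) *
            ∑ T ∈ S.image sbT, z ^ T.card * Real.exp (-((1 + ε / 2) * LN T)) := by
          rw [Finset.mul_sum]
      _ ≤ Real.exp ((1 + ε / 2) * ρ) * Real.exp (ε / 8 * R) := by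
          refine mul_le_mul_of_nonneg_left ?_ (Real.exp_pos _).le
          exact hrk.trans (Real.exp_le_exp.2 ha3)
  have hfin : (S.card : ℝ) ≤ Real.exp (ρ + ε * R) := by
    calc (S.card : ℝ) ≤ ∑ T ∈ S.image sbT, G * Real.exp (ε / 4 * R) * z ^ T.card := hsum
      _ = G * Real.exp (ε / 4 * R) * ∑ T ∈ S.image sbT, z ^ T.card := by rw [Finset.mul_sum]
      _ ≤ Real.exp (ε / 8 * R) * Real.exp (ε / 4 * R) *
            (Real.exp ((1 + ε / 2) * ρ) * Real.exp (ε / 8 * R)) := by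
          refine mul_le_mul ?_ hsum2 (Finset.sum_nonneg fun T _ => by positivity) (by positivity)
          exact mul_le_mul_of_nonneg_right ha1 (Real.exp_pos _).le
      _ = Real.exp (ε / 8 * R + ε / 4 * R + ((1 + ε / 2) * ρ + ε / 8 * R)) := by
          rw [Real.exp_add, Real.exp_add, Real.exp_add]
      _ ≤ Real.exp (ρ + ε * R) := by
          refine Real.exp_le_exp.2 ?_
          have : ε / 2 * ρ ≤ ε / 2 * R := mul_le_mul_of_nonneg_left hρR (by positivity)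
          nlinarith
  have h16 : (0 : ℝ) < Real.exp (ρ + ε * R) := Real.exp_pos _
  nlinarith

end Pool.Agent.FPL
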