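import Pool.Agent.FPL.BigB3
import Pool.Agent.FPL.SmallB2
import Pool.Agent.FPL.RolesR2

/-!
# CountC3 (size 4)

Split `S` by the alternative, the part `i`, and in the second case the part `j = prt x v ≠ i` of the chosen `v`: 3 + 6 classes (in the first case take any `j ≠ i`). On each class apply `r` from
`roles2 K i j` (injective on `K \ {0, 1}`), `y = r x`: `fs`, `rad`, `mlt`, `ms` are unchanged, `(fs y).filter (prt y · = 1) = (fs x).filter (prt x · = i)`, the same for `≠`, `prt y v = 0`,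
`hgt y ≤ hgt x + 2 d log 2`. First case: `hgt y ≤ R ^ (2 + ε/16) + 2 d log 2 ≤ R ^ (2 + ε/8)` for `R ≥ C`: `smallB2 K ε`. Second case: `hgt y ≤ exp (R/2) + 2 d log 2 ≤ exp R` for `R ≥ C`,
`∑ ms ≤ (1 - δ) hgt x ≤ (1 - δ) (hgt y + 2 d log 2) ≤ (1 - δ/2) hgt y` because `hgt y ≥ hgt x - 2 d log 2 ≥ R / 3` is large (`hgt x + d log 2 ≥ ms x v ≥ mlt x v / 2 ≥ R / 2`, `ms_le`): `bigB3 K ε (δ/2)`.
(`smallB2`, `bigB3` with the same `ρ`.)
-/

namespace Pool.Agent.FPL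

open NumberField IsDedekindDomain Pool.Agent.H7.Abc Pool.Agent.AbcE Pool.Agent.AbcF Pool.Agent.TMS
  Pool.Agent.TM2

private theorem cc3_log_two_le {K : Type*} [Field K] [NumberField K]
    (v : HeightOneSpectrum (𝓞 K)) : Real.log 2 ≤ ln v := by
  have h1 := one_lt_norm v
  have h2 : (2 : ℝ) ≤ Ideal.absNorm v.asIdeal := by
    have : 1 < Ideal.absNorm v.asIdeal := by exact_mod_cast h1
    exact_mod_cast this
  exact Real.log_le_log (by norm_num) h2

open Classical in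
/-- the first case, fixed `i` -/
private theorem cc3_first (K : Type*) [Field K] [NumberField K] {ε C1 R ρ : ℝ} (hε : 0 < ε)
    (hC1 : C1 ≤ R) (hR1 : 1 ≤ R) (hρ : 0 ≤ ρ) (hρR : ρ ≤ R)
    (hpow : R ^ (2 + ε / 16) + 2 * (dg K * Real.log 2) ≤ R ^ (2 + ε / 8))
    (hsm : ∀ R : ℝ, C1 ≤ R → ∀ ρ : ℝ, 0 ≤ ρ → ρ ≤ R → ∀ S : Finset K,
      (∀ x ∈ S, x ≠ 0 ∧ x ≠ 1 ∧ hgt x ≤ R ^ (2 + ε / 8) ∧
        LN ((fs x).filter (fun u => prt x u ≠ 1)) ≤ ρ) →
      (S.card : ℝ) ≤ C1 * Real.exp (ρ + ε * R)) (i : Fin 3) (S : Finset K)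
    (hS : ∀ x ∈ S, x ≠ 0 ∧ x ≠ 1 ∧ hgt x ≤ R ^ (2 + ε / 16) ∧
      LN ((fs x).filter (fun u => prt x u ≠ i)) ≤ ρ) :
    (S.card : ℝ) ≤ C1 * Real.exp (ρ + ε * R) := by
  obtain ⟨j, hij⟩ : ∃ j : Fin 3, i ≠ j := by
    fin_cases i
    · exact ⟨1, by decide⟩
    · exact ⟨0, by decide⟩
    · exact ⟨0, by decide⟩
  obtain ⟨r, hinj, hr⟩ := roles2 K i j hij
  have hcard : (S.image r).card = S.card := by
    apply Finset.card_image_of_injOn
    intro x hx y hy hxy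
    have hx' := hS x (Finset.mem_coe.1 hx)
    have hy' := hS y (Finset.mem_coe.1 hy)
    exact hinj x y hx'.1 hx'.2.1 hy'.1 hy'.2.1 hxy
  rw [← hcard]
  refine hsm R hC1 ρ hρ hρR (S.image r) ?_
  intro y hy
  obtain ⟨x, hx, rfl⟩ := Finset.mem_image.1 hy
  obtain ⟨hx0, hx1, hh, hL⟩ := hS x hx
  obtain ⟨a1, a2, a3, a4, a5, a6, a7, a8, a9⟩ := hr x hx0 hx1
  refine ⟨a1, a2, by linarith, ?_⟩
  have heq : (fs (r x)).filter (fun u => prt (r x) u ≠ 1) =
      (fs x).filter (fun u => prt x u ≠ i) := by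
    rw [a3]
    apply Finset.filter_congr
    intro u hu
    rw [Ne, Ne, a8 u hu]
  rw [heq]
  exact hL

open Classical in
/-- the second case, fixed `i`, `j` -/
private theorem cc3_second (K : Type*) [Field K] [NumberField K] {ε δ C2 R ρ : ℝ} (hε : 0 < ε)
    (hδ : 0 < δ) (hδ1 : δ ≤ 1 / 2)
    (hC2 : C2 ≤ R) (hR1 : 1 ≤ R) (hD1 : 2 * (2 * (dg K * Real.log 2)) ≤ R)
    (hD2 : 4 * (2 * (dg K * Real.log 2)) + 4 * (2 * (dg K * Real.log 2)) / δ ≤ R)
    (hbig : ∀ R : ℝ, C2 ≤ R → ∀ (ρ : ℝ) (S : Finset K),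
      (∀ x ∈ S, x ≠ 0 ∧ x ≠ 1 ∧ rad x ≤ R ∧ hgt x ≤ Real.exp R ∧
        ∃ C' ⊆ (fs x).filter (fun u => prt x u = 1), ∃ v ∈ fs x, prt x v = 0 ∧
          ∃ n : ℕ, n ∣ mlt x v ∧
          R ^ (1 + ε / 32) ≤ (n : ℝ) ∧
          ∑ u ∈ (fs x).filter (fun u => prt x u = 1) \ C', ms x u ≤ (1 - δ / 2) * hgt x ∧
          LN (((fs x).filter (fun u => prt x u ≠ 1)).erase v) + LN C' + Real.log n ≤ ρ) →
      (S.card : ℝ) ≤ C2 * Real.exp (ρ + ε * R)) (i j : Fin 3) (hij : i ≠ j) (S : Finset K)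
    (hS : ∀ x ∈ S, x ≠ 0 ∧ x ≠ 1 ∧ rad x ≤ R ∧ hgt x ≤ Real.exp (R / 2) ∧
        ∃ C' ⊆ (fs x).filter (fun u => prt x u = i), ∃ v ∈ fs x, prt x v = j ∧
          ∃ n : ℕ, n ∣ mlt x v ∧ R ^ (1 + ε / 32) ≤ (n : ℝ) ∧
          ∑ u ∈ (fs x).filter (fun u => prt x u = i) \ C', ms x u ≤ (1 - δ) * hgt x ∧
          LN (((fs x).filter (fun u => prt x u ≠ i)).erase v) + LN C' + Real.log n ≤ ρ) :
    (S.card : ℝ) ≤ C2 * Real.exp (ρ + ε * R) := by
  obtain ⟨r, hinj, hr⟩ := roles2 K i j hij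
  set D : ℝ := 2 * (dg K * Real.log 2) with hD
  have hD0 : 0 ≤ D := by
    have h1 := one_le_dg K
    have h2 : 0 ≤ Real.log 2 := Real.log_nonneg (by norm_num)
    positivity
  have hcard : (S.image r).card = S.card := by
    apply Finset.card_image_of_injOn
    intro x hx y hy hxy
    have hx' := hS x (Finset.mem_coe.1 hx)
    have hy' := hS y (Finset.mem_coe.1 hy)
    exact hinj x y hx'.1 hx'.2.1 hy'.1 hy'.2.1 hxy
  rw [← hcard]
  refine hbig R hC2 ρ (S.image r) ?_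
  intro y hy
  obtain ⟨x, hx, rfl⟩ := Finset.mem_image.1 hy
  obtain ⟨hx0, hx1, hrad, hh, C', hC', v, hv, hpv, n, hn, hnR, hsum, hL⟩ := hS x hx
  obtain ⟨a1, a2, a3, a4, a5, a6, a7, a8, a9⟩ := hr x hx0 hx1
  have hone : (fs (r x)).filter (fun u => prt (r x) u = 1) =
      (fs x).filter (fun u => prt x u = i) := by
    rw [a3]
    apply Finset.filter_congr
    intro u hu
    rw [a8 u hu]
  have hne : (fs (r x)).filter (fun u => prt (r x) u ≠ 1) =
      (fs x).filter (fun u => prt x u ≠ i) := by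
    rw [a3]
    apply Finset.filter_congr
    intro u hu
    rw [Ne, Ne, a8 u hu]
  have hms : ∀ u, ms (r x) u = ms x u := by
    intro u
    unfold ms
    rw [a7]
  have hexp : Real.exp (R / 2) + D ≤ Real.exp R := by
    have h1 : Real.exp R = Real.exp (R / 2) * Real.exp (R / 2) := by
      rw [← Real.exp_add]
      congr 1
      ring
    have h2 : R / 2 + 1 ≤ Real.exp (R / 2) := Real.add_one_le_exp _
    have h3 : (1 : ℝ) ≤ Real.exp (R / 2) := by linarith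
    have h4 : D ≤ R / 2 := by linarith
    rw [h1]
    nlinarith
  -- lower bound for the height
  have hmpos : 0 < mlt x v := by
    have h1 := (mem_fs hx0 hx1).1 hv
    unfold mlt
    rcases h1 with h | h
    · exact lt_of_lt_of_le (Int.natAbs_pos.2 h) (le_max_left _ _)
    · exact lt_of_lt_of_le (Int.natAbs_pos.2 h) (le_max_right _ _)
  have hnle : (n : ℝ) ≤ (mlt x v : ℝ) := by exact_mod_cast Nat.le_of_dvd hmpos hn
  have hRn : R ≤ (n : ℝ) := by
    refine le_trans ?_ hnR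
    have h1 : R ^ (1 : ℝ) ≤ R ^ (1 + ε / 32) :=
      Real.rpow_le_rpow_of_exponent_le hR1 (by linarith)
    rwa [Real.rpow_one] at h1
  have hmsv : R / 2 ≤ ms x v := by
    have h1 := cc3_log_two_le v
    have h2 := Real.log_two_gt_d9
    have h3 : (1 / 2 : ℝ) ≤ ln v := by linarith
    unfold ms
    have h4 : R ≤ (mlt x v : ℝ) := le_trans hRn hnle
    nlinarith
  have hhx : R / 2 - D / 2 ≤ hgt x := by
    have h1 := ms_le hx0 hx1 v
    have h2 : dg K * Real.log 2 = D / 2 := by rw [hD]; ring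
    rw [h2] at h1
    linarith
  have hhy : 2 * D / δ ≤ hgt (r x) := by
    have h1 : R / 2 - D / 2 - D ≤ hgt (r x) := by linarith
    have h2 : 2 * D / δ = (4 * D / δ) / 2 := by ring
    rw [h2]
    linarith
  refine ⟨a1, a2, by rw [a4]; exact hrad, by linarith, C', by rw [hone]; exact hC', v,
    by rw [a3]; exact hv, a9 v hv hpv, n, by rw [a7]; exact hn, hnR, ?_, ?_⟩
  · rw [hone]
    have h1 : ∑ u ∈ (fs x).filter (fun u => prt x u = i) \ C', ms (r x) u =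
        ∑ u ∈ (fs x).filter (fun u => prt x u = i) \ C', ms x u :=
      Finset.sum_congr rfl fun u _ => hms u
    rw [h1]
    refine le_trans hsum ?_
    have h2 : (1 - δ) * hgt x ≤ (1 - δ) * (hgt (r x) + D) :=
      mul_le_mul_of_nonneg_left a6 (by linarith)
    refine le_trans h2 ?_
    have h3 : 2 * D ≤ δ * hgt (r x) := by
      have h4 := (div_le_iff₀ hδ).1 hhy
      linarith
    nlinarith [mul_nonneg hδ.le hD0]
  · rw [hne]
    exact hL

open Classical in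
theorem countC3 (K : Type*) [Field K] [NumberField K] (ε δ : ℝ) (hε : 0 < ε) (hε1 : ε ≤ 1)
    (hδ : 0 < δ) (hδ1 : δ ≤ 1 / 2) :
    ∃ C : ℝ, 1 ≤ C ∧ ∀ R : ℝ, C ≤ R → ∀ ρ : ℝ, 0 ≤ ρ → ρ ≤ R → ∀ S : Finset K,
      (∀ x ∈ S, x ≠ 0 ∧ x ≠ 1 ∧ rad x ≤ R ∧ hgt x ≤ Real.exp (R / 2) ∧ ∃ i : Fin 3,
        (hgt x ≤ R ^ (2 + ε / 16) ∧ LN ((fs x).filter (fun u => prt x u ≠ i)) ≤ ρ) ∨
        ∃ C' ⊆ (fs x).filter (fun u => prt x u = i), ∃ v ∈ fs x, prt x v ≠ i ∧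
          ∃ n : ℕ, n ∣ mlt x v ∧ R ^ (1 + ε / 32) ≤ (n : ℝ) ∧
          ∑ u ∈ (fs x).filter (fun u => prt x u = i) \ C', ms x u ≤ (1 - δ) * hgt x ∧
          LN (((fs x).filter (fun u => prt x u ≠ i)).erase v) + LN C' + Real.log n ≤ ρ) →
      (S.card : ℝ) ≤ C * Real.exp (ρ + ε * R) := by
  obtain ⟨C1, hC1, hsm⟩ := smallB2 K ε hε hε1
  obtain ⟨C2, hC2, hbig⟩ := bigB3 K ε (δ / 2) hε hε1 (by linarith) (by linarith)
  set D : ℝ := 2 * (dg K * Real.log 2) with hD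
  have hD0 : 0 ≤ D := by
    have h1 := one_le_dg K
    have h2 : 0 ≤ Real.log 2 := Real.log_nonneg (by norm_num)
    positivity
  have hDδ : 0 ≤ 4 * D / δ := by positivity
  have h2pos : (0 : ℝ) ≤ (2 : ℝ) ^ (16 / ε) := Real.rpow_nonneg (by norm_num) _
  refine ⟨3 * C1 + 9 * C2 + 4 * D + 4 * D / δ + (2 : ℝ) ^ (16 / ε), by linarith, ?_⟩
  intro R hR ρ hρ hρR S hS
  have hR1 : 1 ≤ R := by linarith
  have hR0 : 0 < R := by linarith
  have hpow : R ^ (2 + ε / 16) + D ≤ R ^ (2 + ε / 8) := by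
    have h1 : R ^ (2 + ε / 8) = R ^ (2 + ε / 16) * R ^ (ε / 16) := by
      rw [← Real.rpow_add hR0]
      congr 1
      ring
    have h2 : (2 : ℝ) ≤ R ^ (ε / 16) := by
      have h3 : (2 : ℝ) ^ (16 / ε) ≤ R := by linarith
      have h4 : ((2 : ℝ) ^ (16 / ε)) ^ (ε / 16) ≤ R ^ (ε / 16) :=
        Real.rpow_le_rpow h2pos h3 (by positivity)
      rw [← Real.rpow_mul (by norm_num)] at h4
      have h5 : 16 / ε * (ε / 16) = 1 := by field_simp
      rwa [h5, Real.rpow_one] at h4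
    have h3 : R ≤ R ^ (2 + ε / 16) := by
      have h4 : R ^ (1 : ℝ) ≤ R ^ (2 + ε / 16) :=
        Real.rpow_le_rpow_of_exponent_le hR1 (by linarith)
      rwa [Real.rpow_one] at h4
    rw [h1]
    nlinarith
  -- the classes
  let A : Fin 3 → Finset K := fun i => S.filter (fun x => hgt x ≤ R ^ (2 + ε / 16) ∧
    LN ((fs x).filter (fun u => prt x u ≠ i)) ≤ ρ)
  let B : Fin 3 × Fin 3 → Finset K := fun ij => S.filter (fun x => ij.1 ≠ ij.2 ∧
    ∃ C' ⊆ (fs x).filter (fun u => prt x u = ij.1), ∃ v ∈ fs x, prt x v = ij.2 ∧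
          ∃ n : ℕ, n ∣ mlt x v ∧ R ^ (1 + ε / 32) ≤ (n : ℝ) ∧
          ∑ u ∈ (fs x).filter (fun u => prt x u = ij.1) \ C', ms x u ≤ (1 - δ) * hgt x ∧
          LN (((fs x).filter (fun u => prt x u ≠ ij.1)).erase v) + LN C' + Real.log n ≤ ρ)
  have hE : 0 < Real.exp (ρ + ε * R) := Real.exp_pos _
  have hA : ∀ i, ((A i).card : ℝ) ≤ C1 * Real.exp (ρ + ε * R) := by
    intro i
    refine cc3_first K hε (by linarith) hR1 hρ hρR hpow hsm i (A i) ?_
    intro x hx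
    obtain ⟨hxS, h1, h2⟩ := Finset.mem_filter.1 hx
    obtain ⟨b1, b2, b3, b4, b5⟩ := hS x hxS
    exact ⟨b1, b2, h1, h2⟩
  have hB : ∀ ij, ((B ij).card : ℝ) ≤ C2 * Real.exp (ρ + ε * R) := by
    intro ij
    by_cases hij : ij.1 = ij.2
    · have : B ij = ∅ := by
        apply Finset.filter_eq_empty_iff.2
        intro x _ h
        exact h.1 hij
      rw [this, Finset.card_empty]
      simp only [Nat.cast_zero]
      positivity
    · refine cc3_second K hε hδ hδ1 (by linarith) hR1 (by linarith) (by linarith) hbig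
        ij.1 ij.2 hij (B ij) ?_
      intro x hx
      obtain ⟨hxS, h1, h2⟩ := Finset.mem_filter.1 hx
      obtain ⟨b1, b2, b3, b4, b5⟩ := hS x hxS
      exact ⟨b1, b2, b3, b4, h2⟩
  have hcov : S ⊆ (Finset.univ.biUnion A) ∪ (Finset.univ.biUnion B) := by
    intro x hx
    obtain ⟨b1, b2, b3, b4, i, b5⟩ := hS x hx
    rcases b5 with ⟨h1, h2⟩ | ⟨C', hC', v, hv, hpv, n, hn⟩
    · refine Finset.mem_union_left _ (Finset.mem_biUnion.2 ⟨i, Finset.mem_univ _, ?_⟩)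
      exact Finset.mem_filter.2 ⟨hx, h1, h2⟩
    · refine Finset.mem_union_right _
        (Finset.mem_biUnion.2 ⟨(i, prt x v), Finset.mem_univ _, ?_⟩)
      exact Finset.mem_filter.2 ⟨hx, fun h => hpv h.symm, C', hC', v, hv, rfl, n, hn⟩
  have h1 : (S.card : ℝ) ≤ ((Finset.univ.biUnion A).card : ℝ) +
      ((Finset.univ.biUnion B).card : ℝ) := by
    have h2 := le_trans (Finset.card_le_card hcov) (Finset.card_union_le _ _)
    exact_mod_cast h2
  have h2 : ((Finset.univ.biUnion A).card : ℝ) ≤ 3 * (C1 * Real.exp (ρ + ε * R)) := by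
    have h3 : ((Finset.univ.biUnion A).card : ℝ) ≤ ∑ i, ((A i).card : ℝ) := by
      exact_mod_cast Finset.card_biUnion_le
    refine le_trans h3 (le_trans (Finset.sum_le_sum fun i _ => hA i) ?_)
    rw [Finset.sum_const, nsmul_eq_mul, Finset.card_univ, Fintype.card_fin]
    norm_num
  have h3 : ((Finset.univ.biUnion B).card : ℝ) ≤ 9 * (C2 * Real.exp (ρ + ε * R)) := by
    have h3 : ((Finset.univ.biUnion B).card : ℝ) ≤ ∑ i, ((B i).card : ℝ) := by
      exact_mod_cast Finset.card_biUnion_le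
    refine le_trans h3 (le_trans (Finset.sum_le_sum fun i _ => hB i) ?_)
    rw [Finset.sum_const, nsmul_eq_mul, Finset.card_univ, Fintype.card_prod, Fintype.card_fin]
    norm_num
  have h4 : 0 ≤ (4 * D + 4 * D / δ + (2 : ℝ) ^ (16 / ε)) * Real.exp (ρ + ε * R) := by
    have : 0 ≤ 4 * D + 4 * D / δ + (2 : ℝ) ^ (16 / ε) := by linarith
    positivity
  nlinarith

end Pool.Agent.FPL
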