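import Pool.Agent.FPL.GapA
import Pool.Agent.FPL.ShapeCol

/-!
# Det3: three solutions of `p + q + s = 1` of the same shape have determinant `0`
-/

namespace Pool.Agent.FPL

open NumberField IsDedekindDomain Pool.Agent.H7.Abc Pool.Agent.AbcE Pool.Agent.AbcF Pool.Agent.TMS
  Pool.Agent.TM2

variable {K : Type*} [Field K] [NumberField K]

/-- the determinant of three rows `(p, q, s)` -/
def dt3 (p q s : Fin 3 → K) : K :=
  (p 0 * (q 1 * s 2) - p 0 * (q 2 * s 1)) - (p 1 * (q 0 * s 2) - p 1 * (q 2 * s 0)) +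
    (p 2 * (q 0 * s 1) - p 2 * (q 1 * s 0))

private theorem d3_ones {p q s : Fin 3 → K} (h : ∀ i, p i + q i + s i = 1) :
    dt3 p q s = (q 1 * s 2 - q 2 * s 1) - (q 0 * s 2 - q 2 * s 0) + (q 0 * s 1 - q 1 * s 0) := by
  have h0 : p 0 = 1 - q 0 - s 0 := by linear_combination h 0
  have h1 : p 1 = 1 - q 1 - s 1 := by linear_combination h 1
  have h2 : p 2 = 1 - q 2 - s 2 := by linear_combination h 2
  unfold dt3
  rw [h0, h1, h2]
  ring

/-- six terms, ultrametric -/
private theorem d3_um (v : HeightOneSpectrum (𝓞 K)) {a b c d e f : K} {M : ℝ}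
    (ha : FinitePlace.mk v a ≤ M) (hb : FinitePlace.mk v b ≤ M) (hc : FinitePlace.mk v c ≤ M)
    (hd : FinitePlace.mk v d ≤ M) (he : FinitePlace.mk v e ≤ M) (hf : FinitePlace.mk v f ≤ M) :
    FinitePlace.mk v ((a - b) - (c - d) + (e - f)) ≤ M := by
  have h1 : ∀ x y : K, FinitePlace.mk v x ≤ M → FinitePlace.mk v y ≤ M →
      FinitePlace.mk v (x - y) ≤ M := fun x y hx hy =>
    (fp_sub_le (FinitePlace.mk v) x y).trans (max_le hx hy)
  exact (mk_sub_le_max v _ _).trans (max_le (h1 _ _ (h1 _ _ ha hb) (h1 _ _ hc hd))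
    (h1 _ _ he hf))

/-- six terms, archimedean -/
private theorem d3_ar (w : InfinitePlace K) {a b c d e f : K} {M : ℝ}
    (ha : w a ≤ M) (hb : w b ≤ M) (hc : w c ≤ M) (hd : w d ≤ M) (he : w e ≤ M) (hf : w f ≤ M) :
    w ((a - b) - (c - d) + (e - f)) ≤ 6 * M := by
  have hsub : ∀ s t : K, w (s - t) ≤ w s + w t := by
    intro s t
    rw [← InfinitePlace.norm_embedding_eq w, ← InfinitePlace.norm_embedding_eq w,
      ← InfinitePlace.norm_embedding_eq w, map_sub]
    exact norm_sub_le _ _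
  have hadd : ∀ s t : K, w (s + t) ≤ w s + w t := by
    intro s t
    rw [← InfinitePlace.norm_embedding_eq w, ← InfinitePlace.norm_embedding_eq w,
      ← InfinitePlace.norm_embedding_eq w, map_add]
    exact norm_add_le _ _
  have h1 := hadd ((a - b) - (c - d)) (e - f)
  have h2 := hsub (a - b) (c - d)
  have h3 := hsub a b
  have h4 := hsub c d
  have h5 := hsub e f
  linarith

/-- The bound for the determinant at a place; `μ` is the absolute value and `k` is `1` or `6`. -/
private theorem d3_place (μ : K → ℝ) (hmul : ∀ x y, μ (x * y) = μ x * μ y)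
    (hpos : ∀ x, x ≠ 0 → 0 < μ x) (k : ℝ) (hk : 1 ≤ k)
    (h6 : ∀ a b c d e f : K, ∀ M : ℝ, μ a ≤ M → μ b ≤ M → μ c ≤ M → μ d ≤ M → μ e ≤ M →
      μ f ≤ M → μ ((a - b) - (c - d) + (e - f)) ≤ k * M)
    {p q s : Fin 3 → K} (hp : ∀ i, p i ≠ 0) (hq : ∀ i, q i ≠ 0) (hs : ∀ i, s i ≠ 0)
    (h1 : ∀ i, p i + q i + s i = 1) (hD : dt3 p q s ≠ 0) (τ : ℝ) (hτ : 0 ≤ τ)
    (tp : ∀ i, Real.log (μ (p i)) ≤ Real.log (μ (p 0)) + τ)
    (tq : ∀ i, Real.log (μ (q i)) ≤ Real.log (μ (q 0)) + τ)
    (ts : ∀ i, Real.log (μ (s i)) ≤ Real.log (μ (s 0)) + τ) :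
    Real.log (μ (dt3 p q s)) ≤ Real.log (μ (p 0)) + Real.log (μ (q 0)) + Real.log (μ (s 0)) -
      max 0 (Real.log (μ (p 0))) + 3 * τ + Real.log k := by
  set lp := Real.log (μ (p 0)) with hlp
  set lq := Real.log (μ (q 0)) with hlq
  set ls := Real.log (μ (s 0)) with hls
  have hDp := hpos _ hD
  have hk0 : 0 < k := by linarith
  have ep : ∀ i, μ (p i) ≤ Real.exp (lp + τ) := fun i => by
    rw [← Real.exp_log (hpos _ (hp i))]
    exact Real.exp_le_exp.2 (tp i)
  have eq : ∀ i, μ (q i) ≤ Real.exp (lq + τ) := fun i => by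
    rw [← Real.exp_log (hpos _ (hq i))]
    exact Real.exp_le_exp.2 (tq i)
  have es : ∀ i, μ (s i) ≤ Real.exp (ls + τ) := fun i => by
    rw [← Real.exp_log (hpos _ (hs i))]
    exact Real.exp_le_exp.2 (ts i)
  have e2 : ∀ i j, μ (q i * s j) ≤ Real.exp (lq + ls + 2 * τ) := by
    intro i j
    rw [hmul]
    calc μ (q i) * μ (s j) ≤ Real.exp (lq + τ) * Real.exp (ls + τ) :=
          mul_le_mul (eq i) (es j) (hpos _ (hs j)).le (Real.exp_pos _).le
      _ = Real.exp (lq + ls + 2 * τ) := by rw [← Real.exp_add]; ring_nf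
  have e3 : ∀ l i j, μ (p l * (q i * s j)) ≤ Real.exp (lp + lq + ls + 3 * τ) := by
    intro l i j
    rw [hmul]
    calc μ (p l) * μ (q i * s j) ≤ Real.exp (lp + τ) * Real.exp (lq + ls + 2 * τ) :=
          mul_le_mul (ep l) (e2 i j) (hpos _ (mul_ne_zero (hq i) (hs j))).le (Real.exp_pos _).le
      _ = Real.exp (lp + lq + ls + 3 * τ) := by rw [← Real.exp_add]; ring_nf
  have fin : ∀ X : ℝ, μ (dt3 p q s) ≤ k * Real.exp X → Real.log (μ (dt3 p q s)) ≤
      X + Real.log k := by
    intro X hX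
    have := Real.log_le_log hDp hX
    rwa [Real.log_mul hk0.ne' (Real.exp_pos _).ne', Real.log_exp, add_comm] at this
  rcases le_total lp 0 with h | h
  · rw [max_eq_left h]
    have h7 := fin (lp + lq + ls + 3 * τ) (by
      unfold dt3
      exact h6 _ _ _ _ _ _ _ (e3 0 1 2) (e3 0 2 1) (e3 1 0 2) (e3 1 2 0) (e3 2 0 1) (e3 2 1 0))
    linarith
  · rw [max_eq_right h]
    have h7 := fin (lq + ls + 2 * τ) (by
      rw [d3_ones h1]
      exact h6 _ _ _ _ _ _ _ (e2 1 2) (e2 2 1) (e2 0 2) (e2 2 0) (e2 0 1) (e2 1 0))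
    linarith

/-- Three solutions of the same shape have determinant `0` (`hgt (p 0)` large). -/
theorem det3 (W : Finset (HeightOneSpectrum (𝓞 K))) {p q s : Fin 3 → K} (hp : ∀ i, p i ≠ 0)
    (hq : ∀ i, q i ≠ 0) (hs : ∀ i, s i ≠ 0) (h1 : ∀ i, p i + q i + s i = 1) (T : ℝ) (hT : 0 ≤ T)
    (ho : ∀ i, ∀ v, v ∉ W → ord v (p i) = ord v (p 0) ∧ ord v (q i) = ord v (q 0) ∧
      ord v (s i) = ord v (s 0))
    (hW : ∀ i, ∀ v ∈ W,
      Real.log (FinitePlace.mk v (p i)) * (W.card : ℝ) ≤
        Real.log (FinitePlace.mk v (p 0)) * (W.card : ℝ) + T ∧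
      Real.log (FinitePlace.mk v (q i)) * (W.card : ℝ) ≤
        Real.log (FinitePlace.mk v (q 0)) * (W.card : ℝ) + T ∧
      Real.log (FinitePlace.mk v (s i)) * (W.card : ℝ) ≤
        Real.log (FinitePlace.mk v (s 0)) * (W.card : ℝ) + T)
    (hI : ∀ i, ∀ w : InfinitePlace K,
      Real.log (w (p i)) * dg K ≤ Real.log (w (p 0)) * dg K + T ∧
      Real.log (w (q i)) * dg K ≤ Real.log (w (q 0)) * dg K + T ∧
      Real.log (w (s i)) * dg K ≤ Real.log (w (s 0)) * dg K + T)
    (hh : 6 * T + dg K * Real.log 6 < hgt (p 0)) : dt3 p q s = 0 := by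
  classical
  by_contra hD
  have hd : 0 < dg K := by linarith [one_le_dg K]
  set B := (finite_support hD).toFinset ∪ (finite_support (hp 0)).toFinset ∪
    (finite_support (hq 0)).toFinset ∪ (finite_support (hs 0)).toFinset ∪ W with hBdef
  have hBD : ∀ v, FinitePlace.mk v (dt3 p q s) ≠ 1 → v ∈ B := by
    intro v hv
    simp only [hBdef, Finset.mem_union, Set.Finite.mem_toFinset, Set.mem_ofPred_eq]
    tauto
  have hBp : ∀ v, FinitePlace.mk v (p 0) ≠ 1 → v ∈ B := by
    intro v hv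
    simp only [hBdef, Finset.mem_union, Set.Finite.mem_toFinset, Set.mem_ofPred_eq]
    tauto
  have hBq : ∀ v, FinitePlace.mk v (q 0) ≠ 1 → v ∈ B := by
    intro v hv
    simp only [hBdef, Finset.mem_union, Set.Finite.mem_toFinset, Set.mem_ofPred_eq]
    tauto
  have hBs : ∀ v, FinitePlace.mk v (s 0) ≠ 1 → v ∈ B := by
    intro v hv
    simp only [hBdef, Finset.mem_union, Set.Finite.mem_toFinset, Set.mem_ofPred_eq]
    tauto
  have hWB : W ⊆ B := fun v hv => by
    simp only [hBdef, Finset.mem_union]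
    exact Or.inr hv
  have PD := gap_prod hD B hBD
  have Pp := gap_prod (hp 0) B hBp
  have Pq := gap_prod (hq 0) B hBq
  have Ps := gap_prod (hs 0) B hBs
  have hmax : ∀ t : ℝ, 0 < t → Real.log (max 1 t) = max 0 (Real.log t) := by
    intro t ht
    rcases le_total t 1 with h | h
    · rw [max_eq_left h, Real.log_one, max_eq_left (Real.log_nonpos ht.le h)]
    · rw [max_eq_right h, max_eq_right (Real.log_nonneg h)]
  have hgp : hgt (p 0) = (∑ w : InfinitePlace K, (w.mult : ℝ) * max 0 (Real.log (w (p 0)))) +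
      ∑ v ∈ B, max 0 (Real.log (FinitePlace.mk v (p 0))) := by
    unfold hgt
    congr 1
    · refine Finset.sum_congr rfl fun w _ => ?_
      rw [hmax _ (InfinitePlace.pos_iff.2 (hp 0))]
    · rw [finsum_eq_sum_of_support_subset (s := B)]
      · refine Finset.sum_congr rfl fun v _ => ?_
        rw [hmax _ (FinitePlace.pos_iff.2 (hp 0))]
      · intro v hv
        refine hBp v ?_
        intro h1
        apply hv
        simp only [h1, max_self, Real.log_one]
  -- finite places
  have F1 : ∀ v ∈ B, Real.log (FinitePlace.mk v (dt3 p q s)) ≤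
      Real.log (FinitePlace.mk v (p 0)) + Real.log (FinitePlace.mk v (q 0)) +
      Real.log (FinitePlace.mk v (s 0)) - max 0 (Real.log (FinitePlace.mk v (p 0))) +
      (if v ∈ W then 3 * T / (W.card : ℝ) else 0) := by
    intro v _
    have hum : ∀ a b c d e f : K, ∀ M : ℝ, FinitePlace.mk v a ≤ M → FinitePlace.mk v b ≤ M →
        FinitePlace.mk v c ≤ M → FinitePlace.mk v d ≤ M → FinitePlace.mk v e ≤ M →
        FinitePlace.mk v f ≤ M → FinitePlace.mk v ((a - b) - (c - d) + (e - f)) ≤ 1 * M := by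
      intro a b c d e f M ha hb hc hd he hf
      rw [one_mul]
      exact d3_um v ha hb hc hd he hf
    by_cases hv : v ∈ W
    · have hc : (0 : ℝ) < W.card := by exact_mod_cast Finset.card_pos.2 ⟨v, hv⟩
      have key : ∀ a b : ℝ, a * (W.card : ℝ) ≤ b * (W.card : ℝ) + T → a ≤ b + T / (W.card : ℝ) := by
        intro a b h
        rw [← sub_le_iff_le_add', le_div_iff₀ hc]
        linarith
      have h := d3_place (fun x => FinitePlace.mk v x) (fun x y => map_mul _ x y)
        (fun x hx => FinitePlace.pos_iff.2 hx) 1 le_rfl hum hp hq hs h1 hD (T / (W.card : ℝ))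
        (div_nonneg hT hc.le) (fun i => key _ _ (hW i v hv).1)
        (fun i => key _ _ (hW i v hv).2.1) (fun i => key _ _ (hW i v hv).2.2)
      rw [Real.log_one] at h
      rw [if_pos hv]
      have e : 3 * T / (W.card : ℝ) = 3 * (T / (W.card : ℝ)) := by ring
      rw [e]
      linarith
    · have key : ∀ a b : K, a ≠ 0 → b ≠ 0 → ord v a = ord v b →
          Real.log (FinitePlace.mk v a) ≤ Real.log (FinitePlace.mk v b) + 0 := by
        intro a b ha hb h
        rw [log_mk v ha, log_mk v hb, h, add_zero]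
      have h := d3_place (fun x => FinitePlace.mk v x) (fun x y => map_mul _ x y)
        (fun x hx => FinitePlace.pos_iff.2 hx) 1 le_rfl hum hp hq hs h1 hD 0
        le_rfl (fun i => key _ _ (hp i) (hp 0) (ho i v hv).1)
        (fun i => key _ _ (hq i) (hq 0) (ho i v hv).2.1)
        (fun i => key _ _ (hs i) (hs 0) (ho i v hv).2.2)
      rw [Real.log_one] at h
      rw [if_neg hv]
      linarith
  -- infinite places
  have I1 : ∀ w : InfinitePlace K, Real.log (w (dt3 p q s)) ≤
      Real.log (w (p 0)) + Real.log (w (q 0)) + Real.log (w (s 0)) -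
      max 0 (Real.log (w (p 0))) + 3 * (T / dg K) + Real.log 6 := by
    intro w
    have key : ∀ a b : ℝ, a * dg K ≤ b * dg K + T → a ≤ b + T / dg K := by
      intro a b h
      rw [← sub_le_iff_le_add', le_div_iff₀ hd]
      linarith
    exact d3_place (fun x => w x) (fun x y => map_mul _ x y)
      (fun x hx => InfinitePlace.pos_iff.2 hx) 6 (by norm_num)
      (fun a b c d e f M ha hb hc hd he hf => d3_ar w ha hb hc hd he hf) hp hq hs h1 hD
      (T / dg K) (div_nonneg hT hd.le) (fun i => key _ _ (hI i w).1)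
      (fun i => key _ _ (hI i w).2.1) (fun i => key _ _ (hI i w).2.2)
  have hmul : ∑ w : InfinitePlace K, (w.mult : ℝ) = dg K := by
    unfold dg
    rw [← InfinitePlace.sum_mult_eq, Nat.cast_sum]
  have S1 := Finset.sum_le_sum F1
  have S2 : ∑ w : InfinitePlace K, (w.mult : ℝ) * Real.log (w (dt3 p q s)) ≤
      ∑ w : InfinitePlace K, (w.mult : ℝ) * (Real.log (w (p 0)) + Real.log (w (q 0)) +
        Real.log (w (s 0)) - max 0 (Real.log (w (p 0))) + 3 * (T / dg K) + Real.log 6) :=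
    Finset.sum_le_sum fun w _ => mul_le_mul_of_nonneg_left (I1 w) (Nat.cast_nonneg _)
  simp only [mul_add, mul_sub, Finset.sum_add_distrib, Finset.sum_sub_distrib] at S1 S2
  rw [← Finset.sum_mul, ← Finset.sum_mul, hmul] at S2
  have e1 : dg K * (3 * (T / dg K)) = 3 * T := by field_simp
  rw [e1] at S2
  have e2 : ∑ v ∈ B, (if v ∈ W then 3 * T / (W.card : ℝ) else 0) ≤ 3 * T := by
    rw [← Finset.sum_filter, Finset.filter_mem_eq_inter, Finset.inter_eq_right.2 hWB,
      Finset.sum_const, nsmul_eq_mul]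
    rcases W.eq_empty_or_nonempty with h | h
    · rw [h]; simp; linarith
    · have hc : (0 : ℝ) < W.card := by exact_mod_cast Finset.card_pos.2 h
      rw [mul_div_assoc', mul_div_cancel_left₀ _ hc.ne']
  linarith

end Pool.Agent.FPL
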