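import Pool.Agent.FPL.GapA
import Pool.Agent.FPL.ShapeCol

/-!
# DetN: `n` solutions of `p₁ + ... + pₙ = 1` of the same shape have determinant `0`

The rows of `P` are the solutions. At every place the determinant is at most `k ∏ⱼ |P a j|` (up to the differences of
the shapes), `k = 1` or `n!`, and the factor of the column `j0` can be replaced by `1` (replace this column by the sum of
all columns, i.e. by ones). The product formula gives `hgt (P a j0) ≤ 2 n T + d log n!` if the determinant is not `0`.
-/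

namespace Pool.Agent.FPL

open NumberField IsDedekindDomain Pool.Agent.H7.Abc Pool.Agent.AbcE Pool.Agent.AbcF Pool.Agent.TMS
  Pool.Agent.TM2

variable {K : Type*} [Field K] [NumberField K]

/-- The bound for a determinant with bounded columns. -/
private theorem dn_det {n : ℕ} (μ : AbsoluteValue K ℝ) (k : ℝ)
    (hs : ∀ (f : Equiv.Perm (Fin n) → K) (M : ℝ), (∀ σ, μ (f σ) ≤ M) → μ (∑ σ, f σ) ≤ k * M)
    (P : Matrix (Fin n) (Fin n) K) (l : Fin n → ℝ) (h : ∀ i j, μ (P i j) ≤ Real.exp (l j)) :
    μ P.det ≤ k * Real.exp (∑ j, l j) := by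
  rw [Matrix.det_apply']
  refine hs _ _ fun σ => ?_
  rw [map_mul, map_prod, Real.exp_sum]
  have h1 : μ ((((Equiv.Perm.sign σ : ℤˣ) : ℤ) : K)) = 1 := by
    rcases Int.units_eq_one_or (Equiv.Perm.sign σ) with h2 | h2
    · rw [h2]
      simp
    · rw [h2]
      simp
  rw [h1, one_mul]
  exact Finset.prod_le_prod (fun i _ => μ.nonneg _) fun i _ => h _ _

/-- The bound for the determinant at a place. -/
private theorem dn_place {n : ℕ} (μ : AbsoluteValue K ℝ) (k : ℝ) (hk : 1 ≤ k)
    (hs : ∀ (f : Equiv.Perm (Fin n) → K) (M : ℝ), (∀ σ, μ (f σ) ≤ M) → μ (∑ σ, f σ) ≤ k * M)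
    (P : Matrix (Fin n) (Fin n) K) (h0 : ∀ i j, P i j ≠ 0) (h1 : ∀ i, ∑ j, P i j = 1)
    (a j0 : Fin n) (hD : P.det ≠ 0) (τ : ℝ) (hτ : 0 ≤ τ)
    (ht : ∀ i j, Real.log (μ (P i j)) ≤ Real.log (μ (P a j)) + τ) :
    Real.log (μ P.det) ≤ (∑ j, Real.log (μ (P a j))) - max 0 (Real.log (μ (P a j0))) + n * τ +
      Real.log k := by
  have hk0 : 0 < k := by linarith
  have hDp : 0 < μ P.det := μ.pos hD
  have hP : ∀ i j, 0 < μ (P i j) := fun i j => μ.pos (h0 i j)
  have e1 : ∀ i j, μ (P i j) ≤ Real.exp (Real.log (μ (P a j)) + τ) := fun i j => by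
    rw [← Real.exp_log (hP i j)]
    exact Real.exp_le_exp.2 (ht i j)
  have fin : ∀ X : ℝ, μ P.det ≤ k * Real.exp X → Real.log (μ P.det) ≤ X + Real.log k := by
    intro X hX
    have := Real.log_le_log hDp hX
    rwa [Real.log_mul hk0.ne' (Real.exp_pos _).ne', Real.log_exp, add_comm] at this
  rcases le_total (Real.log (μ (P a j0))) 0 with h | h
  · rw [max_eq_left h]
    have h2 := fin _ (dn_det μ k hs P (fun j => Real.log (μ (P a j)) + τ) e1)
    rw [Finset.sum_add_distrib, Finset.sum_const, Finset.card_univ, Fintype.card_fin,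
      nsmul_eq_mul] at h2
    linarith
  · rw [max_eq_right h]
    have hdet : (P.updateCol j0 (fun _ => 1)).det = P.det := by
      have h2 := Matrix.det_updateCol_sum P j0 (fun _ => 1)
      simp only [one_smul] at h2
      rw [← h2]
      congr 1
      ext i j
      rw [Matrix.updateCol_apply, Matrix.updateCol_apply, h1 i]
    have h2 := dn_det μ k hs (P.updateCol j0 (fun _ => 1))
      (fun j => if j = j0 then 0 else Real.log (μ (P a j)) + τ) (by
        intro i j
        rw [Matrix.updateCol_apply]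
        by_cases hj : j = j0
        · rw [if_pos hj, if_pos hj, map_one, Real.exp_zero]
        · rw [if_neg hj, if_neg hj]
          exact e1 i j)
    rw [hdet] at h2
    have h3 := fin _ h2
    have h4 : ∑ j, (if j = j0 then (0 : ℝ) else Real.log (μ (P a j)) + τ) =
        ∑ j, (Real.log (μ (P a j)) + τ) - (Real.log (μ (P a j0)) + τ) := by
      rw [← Finset.sum_erase_eq_sub (Finset.mem_univ j0), ← Finset.filter_ne' Finset.univ j0,
        Finset.sum_filter]
      refine Finset.sum_congr rfl fun j _ => ?_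
      by_cases hj : j = j0
      · rw [if_pos hj, if_neg (not_not.2 hj)]
      · rw [if_neg hj, if_pos hj]
    rw [h4, Finset.sum_add_distrib, Finset.sum_const, Finset.card_univ, Fintype.card_fin,
      nsmul_eq_mul] at h3
    linarith

/-- `n` solutions of the same shape have determinant `0` (`hgt (P a j0)` large). -/
theorem detN (W : Finset (HeightOneSpectrum (𝓞 K))) {n : ℕ} (P : Matrix (Fin n) (Fin n) K)
    (h0 : ∀ i j, P i j ≠ 0) (h1 : ∀ i, ∑ j, P i j = 1) (a j0 : Fin n) (T : ℝ) (hT : 0 ≤ T)
    (ho : ∀ i j, ∀ v, v ∉ W → ord v (P i j) = ord v (P a j))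
    (hW : ∀ i j, ∀ v ∈ W, Real.log (FinitePlace.mk v (P i j)) * (W.card : ℝ) ≤
      Real.log (FinitePlace.mk v (P a j)) * (W.card : ℝ) + T)
    (hI : ∀ i j, ∀ w : InfinitePlace K, Real.log (w (P i j)) * dg K ≤
      Real.log (w (P a j)) * dg K + T)
    (hh : 2 * (n * T) + dg K * Real.log (n.factorial : ℝ) < hgt (P a j0)) : P.det = 0 := by
  classical
  by_contra hD
  have hd : 0 < dg K := by linarith [one_le_dg K]
  set B := (finite_support hD).toFinset ∪
    (Finset.univ.biUnion (fun j => (finite_support (h0 a j)).toFinset) ∪ W) with hBdef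
  have hBD : ∀ v, FinitePlace.mk v P.det ≠ 1 → v ∈ B := by
    intro v hv
    rw [hBdef, Finset.mem_union, Set.Finite.mem_toFinset]
    exact Or.inl hv
  have hBp : ∀ j, ∀ v, FinitePlace.mk v (P a j) ≠ 1 → v ∈ B := by
    intro j v hv
    rw [hBdef, Finset.mem_union, Finset.mem_union, Finset.mem_biUnion]
    refine Or.inr (Or.inl ⟨j, Finset.mem_univ j, ?_⟩)
    rw [Set.Finite.mem_toFinset]
    exact hv
  have hWB : W ⊆ B := fun v hv => by
    rw [hBdef, Finset.mem_union, Finset.mem_union]
    exact Or.inr (Or.inr hv)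
  have PD := gap_prod hD B hBD
  have Pj : ∀ j, (∑ w : InfinitePlace K, (w.mult : ℝ) * Real.log (w (P a j))) +
      ∑ v ∈ B, Real.log (FinitePlace.mk v (P a j)) = 0 := fun j => gap_prod (h0 a j) B (hBp j)
  have hmax : ∀ t : ℝ, 0 < t → Real.log (max 1 t) = max 0 (Real.log t) := by
    intro t ht
    rcases le_total t 1 with h | h
    · rw [max_eq_left h, Real.log_one, max_eq_left (Real.log_nonpos ht.le h)]
    · rw [max_eq_right h, max_eq_right (Real.log_nonneg h)]
  have hgp : hgt (P a j0) =
      (∑ w : InfinitePlace K, (w.mult : ℝ) * max 0 (Real.log (w (P a j0)))) +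
      ∑ v ∈ B, max 0 (Real.log (FinitePlace.mk v (P a j0))) := by
    unfold hgt
    congr 1
    · refine Finset.sum_congr rfl fun w _ => ?_
      rw [hmax _ (InfinitePlace.pos_iff.2 (h0 a j0))]
    · rw [finsum_eq_sum_of_support_subset (s := B)]
      · refine Finset.sum_congr rfl fun v _ => ?_
        rw [hmax _ (FinitePlace.pos_iff.2 (h0 a j0))]
      · intro v hv
        refine hBp j0 v ?_
        intro h2
        apply hv
        simp only [h2, max_self, Real.log_one]
  have hfac : (1 : ℝ) ≤ (n.factorial : ℝ) := by exact_mod_cast Nat.factorial_pos n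
  -- finite places
  have F1 : ∀ v ∈ B, Real.log (FinitePlace.mk v P.det) ≤
      (∑ j, Real.log (FinitePlace.mk v (P a j))) -
      max 0 (Real.log (FinitePlace.mk v (P a j0))) +
      (if v ∈ W then n * T / (W.card : ℝ) else 0) := by
    intro v _
    have hum : ∀ (f : Equiv.Perm (Fin n) → K) (M : ℝ), (∀ σ, (FinitePlace.mk v).1 (f σ) ≤ M) →
        (FinitePlace.mk v).1 (∑ σ, f σ) ≤ 1 * M := by
      intro f M hM
      rw [one_mul]
      have hM0 : 0 ≤ M := le_trans ((FinitePlace.mk v).1.nonneg _) (hM 1)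
      have gen : ∀ s : Finset (Equiv.Perm (Fin n)), FinitePlace.mk v (∑ σ ∈ s, f σ) ≤ M := by
        intro s
        induction s using Finset.induction_on with
        | empty =>
          rw [Finset.sum_empty, map_zero]
          exact hM0
        | insert i s hi ih =>
          rw [Finset.sum_insert hi]
          exact (FinitePlace.add_le _ _ _).trans (max_le (hM i) ih)
      exact gen Finset.univ
    by_cases hv : v ∈ W
    · have hc : (0 : ℝ) < W.card := by exact_mod_cast Finset.card_pos.2 ⟨v, hv⟩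
      have key : ∀ a b : ℝ, a * (W.card : ℝ) ≤ b * (W.card : ℝ) + T → a ≤ b + T / (W.card : ℝ) := by
        intro a b h
        rw [← sub_le_iff_le_add', le_div_iff₀ hc]
        linarith
      have h : Real.log (FinitePlace.mk v P.det) ≤ (∑ j, Real.log (FinitePlace.mk v (P a j))) -
          max 0 (Real.log (FinitePlace.mk v (P a j0))) + n * (T / (W.card : ℝ)) + Real.log 1 :=
        dn_place (FinitePlace.mk v).1 1 le_rfl hum P h0 h1 a j0 hD
        (T / (W.card : ℝ)) (div_nonneg hT hc.le) (fun i j => key _ _ (hW i j v hv))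
      rw [Real.log_one] at h
      rw [if_pos hv]
      have e : n * T / (W.card : ℝ) = n * (T / (W.card : ℝ)) := by ring
      rw [e]
      linarith
    · have h : Real.log (FinitePlace.mk v P.det) ≤ (∑ j, Real.log (FinitePlace.mk v (P a j))) -
          max 0 (Real.log (FinitePlace.mk v (P a j0))) + n * 0 + Real.log 1 :=
        dn_place (FinitePlace.mk v).1 1 le_rfl hum P h0 h1 a j0 hD 0 le_rfl (fun i j => by
          show Real.log (FinitePlace.mk v (P i j)) ≤ Real.log (FinitePlace.mk v (P a j)) + 0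
          rw [log_mk v (h0 i j), log_mk v (h0 a j), ho i j v hv, add_zero])
      rw [Real.log_one] at h
      rw [if_neg hv]
      linarith
  -- infinite places
  have I1 : ∀ w : InfinitePlace K, Real.log (w P.det) ≤ (∑ j, Real.log (w (P a j))) -
      max 0 (Real.log (w (P a j0))) + n * (T / dg K) + Real.log (n.factorial : ℝ) := by
    intro w
    have key : ∀ a b : ℝ, a * dg K ≤ b * dg K + T → a ≤ b + T / dg K := by
      intro a b h
      rw [← sub_le_iff_le_add', le_div_iff₀ hd]
      linarith
    refine dn_place w.1 (n.factorial : ℝ) hfac ?_ P h0 h1 a j0 hD (T / dg K)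
      (div_nonneg hT hd.le) (fun i j => key _ _ (hI i j w))
    intro f M hM
    calc w.1 (∑ σ, f σ) ≤ ∑ σ, w.1 (f σ) := w.1.sum_le _ _
      _ ≤ ∑ _σ : Equiv.Perm (Fin n), M := Finset.sum_le_sum fun σ _ => hM σ
      _ = (n.factorial : ℝ) * M := by
          rw [Finset.sum_const, Finset.card_univ, Fintype.card_perm, Fintype.card_fin,
            nsmul_eq_mul]
  have hmul : ∑ w : InfinitePlace K, (w.mult : ℝ) = dg K := by
    unfold dg
    rw [← InfinitePlace.sum_mult_eq, Nat.cast_sum]
  have S1 := Finset.sum_le_sum F1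
  have S2 : ∑ w : InfinitePlace K, (w.mult : ℝ) * Real.log (w P.det) ≤
      ∑ w : InfinitePlace K, (w.mult : ℝ) * ((∑ j, Real.log (w (P a j))) -
        max 0 (Real.log (w (P a j0))) + n * (T / dg K) + Real.log (n.factorial : ℝ)) :=
    Finset.sum_le_sum fun w _ => mul_le_mul_of_nonneg_left (I1 w) (Nat.cast_nonneg _)
  simp only [mul_add, mul_sub, Finset.sum_add_distrib, Finset.sum_sub_distrib] at S1 S2
  rw [← Finset.sum_mul, ← Finset.sum_mul, hmul] at S2
  have e1 : dg K * (n * (T / dg K)) = n * T := by field_simp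
  rw [e1] at S2
  have e2 : ∑ v ∈ B, (if v ∈ W then n * T / (W.card : ℝ) else 0) ≤ n * T := by
    rw [← Finset.sum_filter, Finset.filter_mem_eq_inter, Finset.inter_eq_right.2 hWB,
      Finset.sum_const, nsmul_eq_mul]
    rcases W.eq_empty_or_nonempty with h | h
    · rw [h]
      simp only [Finset.card_empty, Nat.cast_zero, zero_mul]
      positivity
    · have hc : (0 : ℝ) < W.card := by exact_mod_cast Finset.card_pos.2 h
      rw [mul_div_assoc', mul_div_cancel_left₀ _ hc.ne']
  have e3 : (∑ w : InfinitePlace K, (w.mult : ℝ) * ∑ j, Real.log (w (P a j))) +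
      ∑ v ∈ B, ∑ j, Real.log (FinitePlace.mk v (P a j)) = 0 := by
    simp only [Finset.mul_sum]
    rw [Finset.sum_comm, Finset.sum_comm (s := B), ← Finset.sum_add_distrib]
    exact Finset.sum_eq_zero fun j _ => Pj j
  linarith

end Pool.Agent.FPL
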