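import Pool.Agent.FPL.GapA

/-!
# RelN: a linear relation with coefficients of bounded height

If all maximal minors of a set `V` of vectors vanish, a maximal nonzero minor (rows `ρ`, columns `δ 1, ..., δ r`) and
one more column `δ 0` give the relation `∑ⱼ (-1) ^ j det (ρ, δ without δ j) p (δ j) = 0` for all `p ∈ V`.
-/

namespace Pool.Agent.FPL

open NumberField IsDedekindDomain Pool.Agent.H7.Abc Pool.Agent.AbcE Pool.Agent.AbcF Pool.Agent.TMS
  Pool.Agent.TM2

theorem rel_minor {ι F : Type*} [Fintype ι] [DecidableEq ι] [Field F] (V : Set (ι → F))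
    (hV : ∀ (ρ : Fin (Fintype.card ι) → ι → F) (γ : Fin (Fintype.card ι) → ι), (∀ i, ρ i ∈ V) →
      Function.Injective γ → (Matrix.of fun i j => ρ i (γ j)).det = 0) :
    ∃ (r : ℕ) (ρ : Fin r → ι → F) (δ : Fin (r + 1) → ι), r < Fintype.card ι ∧ (∀ i, ρ i ∈ V) ∧
      Function.Injective δ ∧ (Matrix.of fun i k : Fin r => ρ i (δ k.succ)).det ≠ 0 ∧
      ∀ p ∈ V, ∑ j : Fin (r + 1), (-1) ^ (j : ℕ) * p (δ j) *
        (Matrix.of fun i k : Fin r => ρ i (δ (j.succAbove k))).det = 0 := by
  classical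
  set Q : ℕ → Prop := fun r => ∃ (ρ : Fin r → ι → F) (γ : Fin r → ι), (∀ i, ρ i ∈ V) ∧
    (Matrix.of fun i j => ρ i (γ j)).det ≠ 0 with hQ
  have hQ0 : Q 0 := ⟨fun i => i.elim0, fun i => i.elim0, fun i => i.elim0, by
    rw [Matrix.det_isEmpty]
    exact one_ne_zero⟩
  have hinj : ∀ (r : ℕ) (ρ : Fin r → ι → F) (γ : Fin r → ι),
      (Matrix.of fun i j => ρ i (γ j)).det ≠ 0 → Function.Injective γ := by
    intro r ρ γ h i j hij
    by_contra hne
    apply h
    refine Matrix.det_zero_of_column_eq hne fun k => ?_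
    simp only [Matrix.of_apply, hij]
  have hQn : ¬ Q (Fintype.card ι) := by
    rintro ⟨ρ, γ, h1, h2⟩
    exact h2 (hV ρ γ h1 (hinj _ ρ γ h2))
  set r := Nat.findGreatest Q (Fintype.card ι) with hr
  have hr1 : Q r := Nat.findGreatest_spec (m := 0) (Nat.zero_le _) hQ0
  have hr2 : r ≤ Fintype.card ι := Nat.findGreatest_le _
  have hr3 : r < Fintype.card ι := by
    rcases Nat.lt_or_ge r (Fintype.card ι) with h | h
    · exact h
    · have h1 : r = Fintype.card ι := le_antisymm hr2 h
      rw [h1] at hr1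
      exact absurd hr1 hQn
  have hr4 : ¬ Q (r + 1) := Nat.findGreatest_is_greatest (Nat.lt_succ_self r) hr3
  obtain ⟨ρ, γ, h1, h2⟩ := hr1
  have hγ := hinj _ ρ γ h2
  obtain ⟨c0, hc0⟩ : ∃ c0, ∀ j, γ j ≠ c0 := by
    by_contra hcon
    push Not at hcon
    have h3 : Function.Surjective γ := fun c => hcon c
    have h4 := Fintype.card_le_of_surjective γ h3
    rw [Fintype.card_fin] at h4
    omega
  refine ⟨r, ρ, Fin.cons c0 γ, hr3, h1, ?_, ?_, ?_⟩
  · rw [Fin.cons_injective_iff]
    refine ⟨?_, hγ⟩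
    rintro ⟨j, hj⟩
    exact hc0 j hj
  · simpa using h2
  · intro p hp
    have h3 : (Matrix.of fun i j => (Fin.cons p ρ : Fin (r + 1) → ι → F) i
        ((Fin.cons c0 γ : Fin (r + 1) → ι) j)).det = 0 := by
      by_contra h4
      refine hr4 ⟨Fin.cons p ρ, Fin.cons c0 γ, ?_, h4⟩
      intro i
      refine Fin.cases ?_ ?_ i
      · exact hp
      · exact h1
    rw [Matrix.det_succ_row_zero] at h3
    rw [← h3]
    refine Finset.sum_congr rfl fun j _ => ?_
    rfl

variable {K : Type*} [Field K] [NumberField K]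

/-- The height of a determinant. -/
private theorem rn_hgt_det {r : ℕ} (M : Matrix (Fin r) (Fin r) K) (E : ℝ)
    (hE : ∀ i j, hgt (M i j) ≤ E) :
    hgt M.det ≤ dg K * Real.log (r.factorial : ℝ) + (r.factorial : ℝ) * (r * E) := by
  rw [Matrix.det_apply', hgt_eq]
  refine (Height.logHeight₁_sum_le _ _).trans ?_
  rw [NumberField.totalWeight_eq_finrank, Finset.card_univ, Fintype.card_perm, Fintype.card_fin]
  refine add_le_add le_rfl ?_
  calc ∑ σ : Equiv.Perm (Fin r), Height.logHeight₁
        ((((Equiv.Perm.sign σ : ℤˣ) : ℤ) : K) * ∏ i, M (σ i) i)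
      ≤ ∑ _σ : Equiv.Perm (Fin r), (r : ℝ) * E := by
        refine Finset.sum_le_sum fun σ _ => ?_
        have h1 : Height.logHeight₁ ((((Equiv.Perm.sign σ : ℤˣ) : ℤ) : K) * ∏ i, M (σ i) i) =
            Height.logHeight₁ (∏ i, M (σ i) i) := by
          rcases Int.units_eq_one_or (Equiv.Perm.sign σ) with h2 | h2
          · rw [h2]
            simp
          · rw [h2]
            simp
        rw [h1]
        refine (Height.logHeight₁_prod_le _ _).trans ?_
        calc ∑ i, Height.logHeight₁ (M (σ i) i) ≤ ∑ _i : Fin r, E := by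
              refine Finset.sum_le_sum fun i _ => ?_
              rw [← hgt_eq]
              exact hE _ _
          _ = (r : ℝ) * E := by
              rw [Finset.sum_const, Finset.card_univ, Fintype.card_fin, nsmul_eq_mul]
    _ = (r.factorial : ℝ) * (r * E) := by
        rw [Finset.sum_const, Finset.card_univ, Fintype.card_perm, Fintype.card_fin,
          nsmul_eq_mul]

theorem relN (K : Type*) [Field K] [NumberField K] (n : ℕ) : ∃ c : ℝ, 1 ≤ c ∧
    ∀ (ι : Type) [Fintype ι] [DecidableEq ι], Fintype.card ι = n → ∀ E : ℝ, 1 ≤ E →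
      ∀ V : Set (ι → K), (∀ p ∈ V, ∀ i, hgt (p i) ≤ E) →
      (∀ (ρ : Fin n → ι → K) (γ : Fin n → ι), (∀ i, ρ i ∈ V) → Function.Injective γ →
        (Matrix.of fun i j => ρ i (γ j)).det = 0) →
      ∃ a : ι → K, a ≠ 0 ∧ (∀ i, hgt (a i) ≤ c * E) ∧ ∀ p ∈ V, ∑ i, a i * p i = 0 := by
  classical
  have hd : 1 ≤ dg K := one_le_dg K
  have hfac : (1 : ℝ) ≤ (n.factorial : ℝ) := by exact_mod_cast Nat.factorial_pos n
  have hlogf : 0 ≤ Real.log (n.factorial : ℝ) := Real.log_nonneg hfac
  have hn0 : (0 : ℝ) ≤ n := Nat.cast_nonneg _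
  refine ⟨dg K * Real.log (n.factorial : ℝ) + (n.factorial : ℝ) * n + 1, ?_, ?_⟩
  · have h1 : 0 ≤ dg K * Real.log (n.factorial : ℝ) := by positivity
    have h2 : 0 ≤ (n.factorial : ℝ) * n := by positivity
    linarith
  intro ι _ _ hι E hE V hVE hV
  subst hι
  set n := Fintype.card ι with hn
  obtain ⟨r, ρ, δ, hr, h1, h2, h3, h4⟩ := rel_minor V hV
  set b : Fin (r + 1) → K := fun j =>
    (-1) ^ (j : ℕ) * (Matrix.of fun i k : Fin r => ρ i (δ (j.succAbove k))).det with hb
  have hbh : ∀ j, hgt (b j) ≤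
      (dg K * Real.log (n.factorial : ℝ) + (n.factorial : ℝ) * n + 1) * E := by
    intro j
    have e1 : hgt (b j) =
        hgt (Matrix.of fun i k : Fin r => ρ i (δ (j.succAbove k))).det := by
      rw [hb]
      rcases neg_one_pow_eq_or K (j : ℕ) with h | h
      · simp only [h, one_mul]
      · simp only [h, neg_one_mul]
        rw [hgt_eq, hgt_eq, Height.logHeight₁_neg]
    rw [e1]
    refine (rn_hgt_det _ E fun i k => ?_).trans ?_
    · exact hVE _ (h1 i) _
    · have hrn : (r.factorial : ℝ) ≤ (n.factorial : ℝ) := by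
        exact_mod_cast Nat.factorial_le hr.le
      have hr0 : (1 : ℝ) ≤ (r.factorial : ℝ) := by exact_mod_cast Nat.factorial_pos r
      have hl : Real.log (r.factorial : ℝ) ≤ Real.log (n.factorial : ℝ) :=
        Real.log_le_log (by linarith) hrn
      have hrn' : (r : ℝ) ≤ n := by exact_mod_cast hr.le
      have a1 : dg K * Real.log (r.factorial : ℝ) ≤ dg K * Real.log (n.factorial : ℝ) * E := by
        have a2 : dg K * Real.log (r.factorial : ℝ) ≤ dg K * Real.log (n.factorial : ℝ) :=
          mul_le_mul_of_nonneg_left hl (by linarith)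
        have a3 : 0 ≤ dg K * Real.log (n.factorial : ℝ) := by positivity
        nlinarith
      have a4 : (r.factorial : ℝ) * (r * E) ≤ (n.factorial : ℝ) * (n * E) := by
        refine mul_le_mul hrn (mul_le_mul_of_nonneg_right hrn' (by linarith)) ?_ (by linarith)
        positivity
      have a5 : (dg K * Real.log (n.factorial : ℝ) + (n.factorial : ℝ) * n + 1) * E =
        dg K * Real.log (n.factorial : ℝ) * E + (n.factorial : ℝ) * (n * E) + E := by ring
      rw [a5]
      linarith
  set a : ι → K := fun i => ∑ j, if δ j = i then b j else 0 with ha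
  have haδ : ∀ j, a (δ j) = b j := by
    intro j
    rw [ha]
    simp only
    rw [Finset.sum_eq_single j]
    · rw [if_pos rfl]
    · intro k _ hk
      rw [if_neg]
      intro h
      exact hk (h2 h)
    · intro h
      exact absurd (Finset.mem_univ j) h
  have ha0 : ∀ i, (∀ j, δ j ≠ i) → a i = 0 := by
    intro i hi
    rw [ha]
    exact Finset.sum_eq_zero fun j _ => if_neg (hi j)
  refine ⟨a, ?_, ?_, ?_⟩
  · intro h
    have h5 : b 0 = 0 := by
      rw [← haδ 0, h]
      rfl
    rw [hb] at h5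
    simp only [Fin.val_zero, pow_zero, one_mul, Fin.succAbove_zero] at h5
    exact h3 h5
  · intro i
    by_cases hi : ∃ j, δ j = i
    · obtain ⟨j, rfl⟩ := hi
      rw [haδ]
      exact hbh j
    · push Not at hi
      rw [ha0 i hi]
      have h6 : hgt (0 : K) = 0 := by
        rw [hgt_eq, Height.logHeight₁_zero]
      rw [h6]
      positivity
  · intro p hp
    rw [← h4 p hp]
    have h7 : ∑ i, a i * p i = ∑ i, ∑ j, (if δ j = i then b j * p i else 0) := by
      refine Finset.sum_congr rfl fun i _ => ?_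
      rw [ha]
      simp only
      rw [Finset.sum_mul]
      refine Finset.sum_congr rfl fun j _ => ?_
      rw [ite_mul, zero_mul]
    rw [h7, Finset.sum_comm]
    refine Finset.sum_congr rfl fun j _ => ?_
    rw [Finset.sum_ite_eq]
    simp only [Finset.mem_univ, if_true]
    rw [hb]
    ring

end Pool.Agent.FPL
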