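import Pool.Agent.FPL.DefsH
import Pool.Agent.FPL.Det3
import Pool.Agent.FPL.DetN
import Pool.Agent.FPL.RelN

/-!
# CountN: the number of the nondegenerate solutions of `p₁ + ... + pₙ = 1` with given orders outside `W`

Induction on `n`. Solutions of the same shape (the same colours for `W`, the same largest coordinate, heights in the
same window) satisfy a relation `∑ a i * p i = 0` with coefficients of bounded height (`detN`, `relN`). For each of them
let `J` be a set of least cardinality with `a i ≠ 0` on `J` and `∑_{i ∈ J} a i * p i = 0`, `j0 ∈ J`. The ratios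
`-(a i * p i) / (a j0 * p j0)`, `i ∈ J`, `i ≠ j0`, are a nondegenerate solution of an equation with `|J| - 1` terms; for
given ratios `∑_{i ∈ J} p i` and the `p i`, `i ∉ J`, are one of an equation with `n - |J| + 1` terms.
-/

namespace Pool.Agent.FPL

open NumberField IsDedekindDomain Pool.Agent.H7.Abc Pool.Agent.AbcE Pool.Agent.AbcF Pool.Agent.TMS
  Pool.Agent.TM2

/-- A solution of `∑ p i = 1` without vanishing subsums. -/
def SolN {K : Type*} [Field K] {ι : Type} [Fintype ι] (p : ι → K) : Prop :=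
  ∑ i, p i = 1 ∧ ∀ J : Finset ι, J.Nonempty → ∑ i ∈ J, p i ≠ 0

/-- The counting statement for at most `n` terms. -/
def UN (K : Type*) [Field K] [NumberField K] (n k : ℕ) (C B : ℝ) : Prop :=
  ∀ (ι : Type) [Fintype ι] [DecidableEq ι], Fintype.card ι ≤ n → ∀ R : ℝ, 1 ≤ R →
    ∀ (W : Finset (HeightOneSpectrum (𝓞 K))) (S : Finset (ι → K)),
    (∀ p ∈ S, SolN p ∧ ∀ i, hgt (p i) ≤ Real.exp R) →
    (∀ p ∈ S, ∀ q ∈ S, ∀ i, ∀ v, v ∉ W → ord v (p i) = ord v (q i)) →
    (S.card : ℝ) ≤ C * R ^ k * B ^ W.card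

private theorem cn_fib {α β : Type*} [DecidableEq β] (S : Finset α) (T : Finset β) (f : α → β)
    (hf : ∀ x ∈ S, f x ∈ T) (X : ℝ)
    (h : ∀ b ∈ T, (((S.filter (fun x => f x = b)).card : ℕ) : ℝ) ≤ X) :
    (S.card : ℝ) ≤ (T.card : ℝ) * X := by
  rw [Finset.card_eq_sum_card_fiberwise (fun x hx => hf x hx)]
  push_cast
  refine (Finset.sum_le_sum h).trans ?_
  rw [Finset.sum_const, nsmul_eq_mul]

variable {K : Type*} [Field K] [NumberField K]

private theorem cn_hgt_mul (a b : K) : hgt (a * b) ≤ hgt a + hgt b := by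
  rw [hgt_eq, hgt_eq a, hgt_eq b]
  exact Height.logHeight₁_mul_le a b

private theorem cn_hgt_div (a b : K) : hgt (a / b) ≤ hgt a + hgt b := by
  rw [div_eq_mul_inv, hgt_eq, hgt_eq a, hgt_eq b]
  refine (Height.logHeight₁_mul_le a b⁻¹).trans ?_
  rw [Height.logHeight₁_inv]

private theorem cn_hgt_neg (a : K) : hgt (-a) = hgt a := by
  rw [hgt_eq, hgt_eq, Height.logHeight₁_neg]

private theorem cn_hgt_sum {α : Type*} (s : Finset α) (f : α → K) (E : ℝ)
    (h : ∀ i ∈ s, hgt (f i) ≤ E) :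
    hgt (∑ i ∈ s, f i) ≤ dg K * Real.log s.card + s.card * E := by
  rw [hgt_eq]
  refine (Height.logHeight₁_sum_le _ _).trans ?_
  rw [NumberField.totalWeight_eq_finrank]
  refine add_le_add le_rfl ?_
  calc ∑ i ∈ s, Height.logHeight₁ (f i) ≤ ∑ _i ∈ s, E := by
        refine Finset.sum_le_sum fun i hi => ?_
        rw [← hgt_eq]
        exact h i hi
    _ = (s.card : ℝ) * E := by rw [Finset.sum_const, nsmul_eq_mul]

/-- The ratios. -/
private theorem cn_ratio (n k : ℕ) (C B : ℝ) (hU : UN K n k C B) (c : ℝ) (hc : 1 ≤ c)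
    (ι : Type) [Fintype ι] [DecidableEq ι] (hι : Fintype.card ι = n + 1) (R : ℝ) (hR : 1 ≤ R)
    (W : Finset (HeightOneSpectrum (𝓞 K))) (V : Finset (ι → K))
    (hV : ∀ p ∈ V, SolN p ∧ ∀ i, hgt (p i) ≤ Real.exp R)
    (hO : ∀ p ∈ V, ∀ q ∈ V, ∀ i, ∀ v, v ∉ W → ord v (p i) = ord v (q i))
    (a : ι → K) (hah : ∀ i, hgt (a i) ≤ c * Real.exp R) (J : Finset ι) (j0 : ι) (hj0 : j0 ∈ J)
    (haJ : ∀ i ∈ J, a i ≠ 0) (hrel : ∀ p ∈ V, ∑ i ∈ J, a i * p i = 0)
    (hmin : ∀ p ∈ V, ∀ J' : Finset ι, J' ⊆ J → J'.Nonempty → J' ≠ J → ∑ i ∈ J', a i * p i ≠ 0)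
    (s : ℝ) (hs : 2 * c + 2 ≤ s)
    (g : (ι → K) → ({i : ι // i ∈ J.erase j0} → K))
    (hg : g = fun (p : ι → K) (i : {i : ι // i ∈ J.erase j0}) =>
      -(a (i : ι) * p (i : ι)) / (a j0 * p j0)) [DecidableEq ({i : ι // i ∈ J.erase j0} → K)] :
    ((V.image g).card : ℝ) ≤ C * (R + s) ^ k * B ^ W.card := by
  have hne : ∀ p ∈ V, ∀ i, p i ≠ 0 := by
    intro p hp i
    have h := (hV p hp).1.2 {i} (Finset.singleton_nonempty i)
    rwa [Finset.sum_singleton] at h
  have ha0 : a j0 ≠ 0 := haJ j0 hj0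
  have hJ' : ∀ i : {i : ι // i ∈ J.erase j0}, (i : ι) ∈ J := fun i => Finset.mem_of_mem_erase i.2
  have hE : 0 < Real.exp R := Real.exp_pos R
  refine hU {i : ι // i ∈ J.erase j0} ?_ (R + s) (by linarith) W (V.image g) ?_ ?_
  · rw [Fintype.card_coe, Finset.card_erase_of_mem hj0]
    have h1 := Finset.card_le_univ J
    rw [hι] at h1
    omega
  · intro x hx
    obtain ⟨p, hp, rfl⟩ := Finset.mem_image.1 hx
    have hp0 := hne p hp
    have hsum : ∀ T : Finset ι, ∑ i ∈ T, -(a i * p i) / (a j0 * p j0) =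
        -(∑ i ∈ T, a i * p i) / (a j0 * p j0) := by
      intro T
      rw [← Finset.sum_div, Finset.sum_neg_distrib]
    have hd0 : a j0 * p j0 ≠ 0 := mul_ne_zero ha0 (hp0 j0)
    refine ⟨⟨?_, ?_⟩, ?_⟩
    · rw [hg]
      have h1 : ∑ i : {i : ι // i ∈ J.erase j0}, -(a i * p i) / (a j0 * p j0) =
          ∑ i ∈ J.erase j0, -(a i * p i) / (a j0 * p j0) :=
        Finset.sum_coe_sort (J.erase j0) (fun i => -(a i * p i) / (a j0 * p j0))
      show ∑ i : {i : ι // i ∈ J.erase j0}, -(a i * p i) / (a j0 * p j0) = 1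
      rw [h1, hsum]
      have h2 := Finset.add_sum_erase J (fun i => a i * p i) hj0
      rw [hrel p hp] at h2
      have h3 : ∑ i ∈ J.erase j0, a i * p i = -(a j0 * p j0) := by linear_combination h2
      rw [h3, neg_neg, div_self hd0]
    · intro T hT h0
      rw [hg] at h0
      have h1 : ∑ i ∈ T, -(a (i : ι) * p i) / (a j0 * p j0) =
          ∑ i ∈ T.map (Function.Embedding.subtype _), -(a i * p i) / (a j0 * p j0) := by
        rw [Finset.sum_map]
        rfl
      have h2 : ∑ i ∈ T, -(a (i : ι) * p i) / (a j0 * p j0) = 0 := h0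
      rw [h1, hsum, div_eq_zero_iff, neg_eq_zero] at h2
      rcases h2 with h2 | h2
      · refine hmin p hp _ ?_ ?_ ?_ h2
        · intro i hi
          obtain ⟨u, _, rfl⟩ := Finset.mem_map.1 hi
          exact hJ' u
        · exact hT.map
        · intro h3
          have h4 : j0 ∈ T.map (Function.Embedding.subtype _) := by
            rw [h3]
            exact hj0
          obtain ⟨u, _, h5⟩ := Finset.mem_map.1 h4
          have h6 := u.2
          have h7 : (u : ι) = j0 := h5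
          rw [h7] at h6
          exact absurd rfl (Finset.ne_of_mem_erase h6)
      · exact hd0 h2
    · intro i
      rw [hg]
      show hgt (-(a i * p i) / (a j0 * p j0)) ≤ _
      have h1 := cn_hgt_div (-(a (i : ι) * p i)) (a j0 * p j0)
      have h2 := cn_hgt_mul (a (i : ι)) (p i)
      have h3 := cn_hgt_mul (a j0) (p j0)
      rw [cn_hgt_neg] at h1
      have h4 := hah i
      have h5 := hah j0
      have h6 := (hV p hp).2 i
      have h7 := (hV p hp).2 j0
      rw [Real.exp_add]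
      have h8 := Real.add_one_le_exp s
      have h9 : (2 * c + 2) * Real.exp R ≤ Real.exp R * Real.exp s := by
        rw [mul_comm]
        exact mul_le_mul_of_nonneg_left (by linarith) hE.le
      linarith
  · intro x hx y hy i v hv
    obtain ⟨p, hp, rfl⟩ := Finset.mem_image.1 hx
    obtain ⟨q, hq, rfl⟩ := Finset.mem_image.1 hy
    have hai := haJ i (hJ' i)
    have hp0 := hne p hp
    have hq0 := hne q hq
    rw [hg]
    show ord v (-(a (i : ι) * p i) / (a j0 * p j0)) = ord v (-(a (i : ι) * q i) / (a j0 * q j0))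
    rw [ord_div v (neg_ne_zero.2 (mul_ne_zero hai (hp0 i))) (mul_ne_zero ha0 (hp0 j0)),
      ord_div v (neg_ne_zero.2 (mul_ne_zero hai (hq0 i))) (mul_ne_zero ha0 (hq0 j0)),
      ord_neg', ord_neg', ord_mul' v hai (hp0 i), ord_mul' v ha0 (hp0 j0),
      ord_mul' v hai (hq0 i), ord_mul' v ha0 (hq0 j0), hO p hp q hq i v hv,
      hO p hp q hq j0 v hv]

/-- The solutions with given ratios. -/
private theorem cn_fibre (n k : ℕ) (C B : ℝ) (hU : UN K n k C B)
    (ι : Type) [Fintype ι] [DecidableEq ι] (hι : Fintype.card ι = n + 1) (R : ℝ) (hR : 1 ≤ R)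
    (W : Finset (HeightOneSpectrum (𝓞 K))) (V : Finset (ι → K))
    (hV : ∀ p ∈ V, SolN p ∧ ∀ i, hgt (p i) ≤ Real.exp R)
    (hO : ∀ p ∈ V, ∀ q ∈ V, ∀ i, ∀ v, v ∉ W → ord v (p i) = ord v (q i))
    (J : Finset ι) (hJ2 : 2 ≤ J.card) (j0 : ι) (hj0 : j0 ∈ J) (lam : ι → K)
    (hlam : ∀ p ∈ V, ∀ i ∈ J, p i = p j0 * lam i)
    (s : ℝ) (hs : dg K * Real.log (n + 1) + (n + 1) ≤ s) :
    (V.card : ℝ) ≤ C * (R + s) ^ k * B ^ W.card := by
  classical
  have hne : ∀ p ∈ V, ∀ i, p i ≠ 0 := by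
    intro p hp i
    have h := (hV p hp).1.2 {i} (Finset.singleton_nonempty i)
    rwa [Finset.sum_singleton] at h
  have hd : 0 < dg K := by linarith [one_le_dg K]
  have hn1 : (0 : ℝ) ≤ Real.log (n + 1) := Real.log_nonneg (by
    have : (0 : ℝ) ≤ n := Nat.cast_nonneg n
    linarith)
  have hs0 : 0 ≤ s := by
    have : (0 : ℝ) ≤ n := Nat.cast_nonneg n
    have : 0 ≤ dg K * Real.log (n + 1) := by positivity
    linarith
  have hE : 1 ≤ Real.exp R := Real.one_le_exp (by linarith)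
  -- the merging map
  set κ : Type := {i : ι // i ∉ J.erase j0} with hκ
  have hj0' : j0 ∉ J.erase j0 := Finset.notMem_erase j0 J
  set π : ι → κ := fun i => if h : i ∈ J.erase j0 then ⟨j0, hj0'⟩ else ⟨i, h⟩ with hπ
  have hπJ : ∀ i ∈ J, π i = ⟨j0, hj0'⟩ := by
    intro i hi
    rw [hπ]
    simp only
    by_cases h : i ∈ J.erase j0
    · rw [dif_pos h]
    · rw [dif_neg h]
      have h1 : i = j0 := by
        by_contra h2
        exact h (Finset.mem_erase.2 ⟨h2, hi⟩)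
      subst h1
      rfl
  have hπn : ∀ i, i ∉ J → ∀ h : i ∉ J.erase j0, π i = ⟨i, h⟩ := by
    intro i hi h
    rw [hπ]
    simp only
    rw [dif_neg h]
  have hsurj : ∀ o : κ, π o.1 = o := by
    intro o
    rw [hπ]
    simp only
    rw [dif_neg o.2]
  set q : (ι → K) → (κ → K) := fun p o => ∑ i ∈ Finset.univ.filter (fun i => π i = o), p i with hq
  have hsum : ∀ p : ι → K, ∀ T : Finset κ, ∑ o ∈ T, q p o =
      ∑ i ∈ Finset.univ.filter (fun i => π i ∈ T), p i := by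
    intro p T
    rw [hq]
    exact Finset.sum_fiberwise_eq_sum_filter Finset.univ T π p
  -- the values
  have hq1 : ∀ p : ι → K, q p ⟨j0, hj0'⟩ = ∑ i ∈ J, p i := by
    intro p
    rw [hq]
    refine Finset.sum_congr ?_ fun _ _ => rfl
    ext i
    rw [Finset.mem_filter]
    constructor
    · rintro ⟨_, h⟩
      by_contra hi
      have h1 : i ∉ J.erase j0 := fun h2 => hi (Finset.mem_of_mem_erase h2)
      rw [hπn i hi h1] at h
      have h2 : i = j0 := congrArg Subtype.val h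
      rw [h2] at hi
      exact hi hj0
    · intro hi
      exact ⟨Finset.mem_univ i, hπJ i hi⟩
  have hq2 : ∀ p : ι → K, ∀ i, i ∉ J → ∀ h : i ∉ J.erase j0, q p ⟨i, h⟩ = p i := by
    intro p i hi h
    rw [hq]
    have h1 : Finset.univ.filter (fun i' => π i' = (⟨i, h⟩ : κ)) = {i} := by
      ext i'
      rw [Finset.mem_filter, Finset.mem_singleton]
      constructor
      · rintro ⟨_, h2⟩
        by_cases h3 : i' ∈ J
        · rw [hπJ i' h3] at h2
          have h4 : j0 = i := congrArg Subtype.val h2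
          rw [← h4] at hi
          exact absurd hj0 hi
        · have h4 : i' ∉ J.erase j0 := fun h5 => h3 (Finset.mem_of_mem_erase h5)
          rw [hπn i' h3 h4] at h2
          exact congrArg Subtype.val h2
      · intro h2
        rw [h2]
        exact ⟨Finset.mem_univ i, hπn i hi h⟩
    show ∑ i' ∈ Finset.univ.filter (fun i' => π i' = (⟨i, h⟩ : κ)), p i' = p i
    rw [h1, Finset.sum_singleton]
  set cc : K := ∑ i ∈ J, lam i with hcc
  have hq3 : ∀ p ∈ V, q p ⟨j0, hj0'⟩ = p j0 * cc := by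
    intro p hp
    rw [hq1, hcc, Finset.mul_sum]
    exact Finset.sum_congr rfl fun i hi => hlam p hp i hi
  have hcc0 : ∀ p ∈ V, cc ≠ 0 := by
    intro p hp h
    have h1 := (hV p hp).1.2 J ⟨j0, hj0⟩
    rw [← hq1, hq3 p hp, h, mul_zero] at h1
    exact h1 rfl
  have hinj : Set.InjOn q (V : Set (ι → K)) := by
    intro p hp p' hp' h
    have hp : p ∈ V := hp
    have hp' : p' ∈ V := hp'
    have h1 := congrFun h ⟨j0, hj0'⟩
    rw [hq3 p hp, hq3 p' hp'] at h1
    have h2 : p j0 = p' j0 := mul_right_cancel₀ (hcc0 p hp) h1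
    funext i
    by_cases hi : i ∈ J
    · rw [hlam p hp i hi, hlam p' hp' i hi, h2]
    · have h3 : i ∉ J.erase j0 := fun h4 => hi (Finset.mem_of_mem_erase h4)
      have h4 := congrFun h ⟨i, h3⟩
      rwa [hq2 p i hi h3, hq2 p' i hi h3] at h4
  rw [← Finset.card_image_of_injOn hinj]
  refine hU κ ?_ (R + s) (by linarith) W (V.image q) ?_ ?_
  · have h1 : Fintype.card {i : ι // i ∉ J.erase j0} =
        Fintype.card ι - Fintype.card {i : ι // i ∈ J.erase j0} :=
      Fintype.card_subtype_compl _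
    have h2 : Fintype.card {i : ι // i ∈ J.erase j0} = (J.erase j0).card := Fintype.card_coe _
    rw [h2, hι, Finset.card_erase_of_mem hj0] at h1
    have h3 := Finset.card_le_univ J
    rw [hι] at h3
    show Fintype.card {i : ι // i ∉ J.erase j0} ≤ n
    omega
  · intro x hx
    obtain ⟨p, hp, rfl⟩ := Finset.mem_image.1 hx
    refine ⟨⟨?_, ?_⟩, ?_⟩
    · rw [hsum]
      rw [← (hV p hp).1.1]
      refine Finset.sum_congr ?_ fun _ _ => rfl
      ext i
      simp
    · intro T hT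
      rw [hsum]
      refine (hV p hp).1.2 _ ?_
      obtain ⟨o, ho⟩ := hT
      refine ⟨o.1, ?_⟩
      rw [Finset.mem_filter]
      exact ⟨Finset.mem_univ _, by rw [hsurj o]; exact ho⟩
    · intro o
      have h1 := cn_hgt_sum (Finset.univ.filter (fun i => π i = o)) p (Real.exp R)
        (fun i _ => (hV p hp).2 i)
      have h2 : (Finset.univ.filter (fun i => π i = o)).card ≤ n + 1 := by
        rw [← hι]
        exact Finset.card_le_univ _
      have h3 : ((Finset.univ.filter (fun i => π i = o)).card : ℝ) ≤ n + 1 := by exact_mod_cast h2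
      have h4 : 1 ≤ (Finset.univ.filter (fun i => π i = o)).card := by
        rw [Nat.one_le_iff_ne_zero, Finset.card_ne_zero]
        exact ⟨o.1, Finset.mem_filter.2 ⟨Finset.mem_univ _, hsurj o⟩⟩
      have h5 : (1 : ℝ) ≤ (Finset.univ.filter (fun i => π i = o)).card := by exact_mod_cast h4
      have h6 : Real.log ((Finset.univ.filter (fun i => π i = o)).card : ℝ) ≤ Real.log (n + 1) :=
        Real.log_le_log (by linarith) h3
      have h7 : hgt (q p o) ≤ dg K * Real.log (n + 1) + (n + 1) * Real.exp R := by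
        refine h1.trans (add_le_add (mul_le_mul_of_nonneg_left h6 hd.le)
          (mul_le_mul_of_nonneg_right h3 (by linarith)))
      have h8 : dg K * Real.log (n + 1) ≤ dg K * Real.log (n + 1) * Real.exp R :=
        le_mul_of_one_le_right (by positivity) hE
      have h9 := Real.add_one_le_exp s
      rw [Real.exp_add]
      have h10 : (dg K * Real.log (n + 1) + (n + 1)) * Real.exp R ≤ Real.exp R * Real.exp s := by
        rw [mul_comm]
        exact mul_le_mul_of_nonneg_left (by linarith) (by linarith)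
      linarith
  · intro x hx y hy o v hv
    obtain ⟨p, hp, rfl⟩ := Finset.mem_image.1 hx
    obtain ⟨p', hp', rfl⟩ := Finset.mem_image.1 hy
    obtain ⟨i, hi⟩ := o
    by_cases hiJ : i ∈ J
    · have h1 : i = j0 := by
        by_contra h2
        exact hi (Finset.mem_erase.2 ⟨h2, hiJ⟩)
      subst h1
      rw [hq3 p hp, hq3 p' hp', ord_mul' v (hne p hp i) (hcc0 p hp),
        ord_mul' v (hne p' hp' i) (hcc0 p hp), hO p hp p' hp' i v hv]
    · rw [hq2 p i hiJ hi, hq2 p' i hiJ hi]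
      exact hO p hp p' hp' i v hv

/-- Solutions with a common relation. -/
private theorem cn_rel (n k : ℕ) (C B : ℝ) (hC : 1 ≤ C) (hB : 1 ≤ B) (hU : UN K n k C B) (c : ℝ)
    (hc : 1 ≤ c) (ι : Type) [Fintype ι] [DecidableEq ι] (hι : Fintype.card ι = n + 1) (R : ℝ)
    (hR : 1 ≤ R) (W : Finset (HeightOneSpectrum (𝓞 K))) (V : Finset (ι → K))
    (hV : ∀ p ∈ V, SolN p ∧ ∀ i, hgt (p i) ≤ Real.exp R)
    (hO : ∀ p ∈ V, ∀ q ∈ V, ∀ i, ∀ v, v ∉ W → ord v (p i) = ord v (q i))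
    (a : ι → K) (ha : a ≠ 0) (hah : ∀ i, hgt (a i) ≤ c * Real.exp R)
    (hrel : ∀ p ∈ V, ∑ i, a i * p i = 0)
    (s : ℝ) (hs1 : 2 * c + 2 ≤ s) (hs2 : dg K * Real.log (n + 1) + (n + 1) ≤ s) :
    (V.card : ℝ) ≤ 2 ^ (n + 1) * (C * (R + s) ^ k * B ^ W.card) ^ 2 := by
  classical
  have hne : ∀ p ∈ V, ∀ i, p i ≠ 0 := by
    intro p hp i
    have h := (hV p hp).1.2 {i} (Finset.singleton_nonempty i)
    rwa [Finset.sum_singleton] at h
  have hex : ∀ p ∈ V, ∃ J : Finset ι, (J.Nonempty ∧ (∀ i ∈ J, a i ≠ 0) ∧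
      ∑ i ∈ J, a i * p i = 0) ∧ ∀ J' : Finset ι, J' ⊆ J → J'.Nonempty → J' ≠ J →
      ∑ i ∈ J', a i * p i ≠ 0 := by
    intro p hp
    set F : Finset (Finset ι) := Finset.univ.filter (fun J => J.Nonempty ∧ (∀ i ∈ J, a i ≠ 0) ∧
      ∑ i ∈ J, a i * p i = 0) with hF
    have hFne : F.Nonempty := by
      refine ⟨Finset.univ.filter (fun i => a i ≠ 0), ?_⟩
      rw [hF, Finset.mem_filter]
      refine ⟨Finset.mem_univ _, ?_, ?_, ?_⟩
      · obtain ⟨i, hi⟩ := Function.ne_iff.1 ha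
        exact ⟨i, Finset.mem_filter.2 ⟨Finset.mem_univ i, hi⟩⟩
      · intro i hi
        exact (Finset.mem_filter.1 hi).2
      · rw [Finset.sum_filter_of_ne, hrel p hp]
        intro i _ h h2
        rw [h2, zero_mul] at h
        exact h rfl
    obtain ⟨J, hJ, hmin⟩ := Finset.exists_min_image F Finset.card hFne
    have hJ' := (Finset.mem_filter.1 hJ).2
    refine ⟨J, hJ', fun J' h1 h2 h3 h4 => ?_⟩
    have h5 : J' ∈ F := Finset.mem_filter.2 ⟨Finset.mem_univ _, h2,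
      fun i hi => hJ'.2.1 i (h1 hi), h4⟩
    have h6 := hmin J' h5
    have h7 := Finset.card_lt_card (lt_of_le_of_ne h1 h3)
    omega
  choose! Jf hJf using hex
  set X : ℝ := C * (R + s) ^ k * B ^ W.card with hX
  have hRs : 0 ≤ R + s := by linarith
  have hX0 : 0 ≤ X := by
    rw [hX]
    positivity
  have h1 : (V.card : ℝ) ≤ ((Finset.univ : Finset (Finset ι)).card : ℝ) * X ^ 2 := by
    refine cn_fib V Finset.univ Jf (fun _ _ => Finset.mem_univ _) (X ^ 2) ?_
    intro J _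
    rcases (V.filter (fun p => Jf p = J)).eq_empty_or_nonempty with h0 | ⟨p0, hp0⟩
    · rw [h0, Finset.card_empty, Nat.cast_zero]
      positivity
    set VJ := V.filter (fun p => Jf p = J) with hVJ
    have hmem : ∀ p ∈ VJ, p ∈ V ∧ Jf p = J := fun p hp => Finset.mem_filter.1 hp
    have hJp : ∀ p ∈ VJ, (J.Nonempty ∧ (∀ i ∈ J, a i ≠ 0) ∧ ∑ i ∈ J, a i * p i = 0) ∧
        ∀ J' : Finset ι, J' ⊆ J → J'.Nonempty → J' ≠ J → ∑ i ∈ J', a i * p i ≠ 0 := by
      intro p hp
      have h := hJf p (hmem p hp).1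
      rwa [(hmem p hp).2] at h
    obtain ⟨⟨⟨j0, hj0⟩, haJ, hsum0⟩, -⟩ := hJp p0 hp0
    have hJ2 : 2 ≤ J.card := by
      by_contra hcon
      have h2 : J.card = 1 := by
        have := Finset.card_pos.2 ⟨j0, hj0⟩
        omega
      obtain ⟨j1, hj1⟩ := Finset.card_eq_one.1 h2
      rw [hj1, Finset.sum_singleton] at hsum0
      rw [hj1, Finset.mem_singleton] at hj0
      rw [← hj0] at hsum0
      exact (mul_ne_zero (haJ j0 (by rw [hj1, hj0]; exact Finset.mem_singleton_self _))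
        (hne p0 (hmem p0 hp0).1 j0)) hsum0
    set g : (ι → K) → ({i : ι // i ∈ J.erase j0} → K) := fun p i =>
      -(a (i : ι) * p (i : ι)) / (a j0 * p j0) with hg
    have hG : ((VJ.image g).card : ℝ) ≤ X :=
      cn_ratio n k C B hU c hc ι hι R hR W VJ (fun p hp => hV p (hmem p hp).1)
        (fun p hp q hq => hO p (hmem p hp).1 q (hmem q hq).1) a hah J j0 hj0 haJ
        (fun p hp => (hJp p hp).1.2.2) (fun p hp => (hJp p hp).2) s hs1 g hg
    have h2 : (VJ.card : ℝ) ≤ ((VJ.image g).card : ℝ) * X := by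
      refine cn_fib VJ (VJ.image g) g (fun p hp => Finset.mem_image_of_mem g hp) X ?_
      intro b hb
      obtain ⟨p1, hp1, rfl⟩ := Finset.mem_image.1 hb
      set Vb := VJ.filter (fun p => g p = g p1) with hVb
      have hmb : ∀ p ∈ Vb, p ∈ V ∧ g p = g p1 := fun p hp =>
        ⟨(hmem p (Finset.mem_filter.1 hp).1).1, (Finset.mem_filter.1 hp).2⟩
      have hp10 := hne p1 (hmem p1 hp1).1
      have ha0 : a j0 ≠ 0 := haJ j0 hj0
      refine cn_fibre n k C B hU ι hι R hR W Vb (fun p hp => hV p (hmb p hp).1)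
        (fun p hp q hq => hO p (hmb p hp).1 q (hmb q hq).1) J hJ2 j0 hj0
        (fun i => p1 i / p1 j0) ?_ s hs2
      intro p hp i hi
      have hpp := hne p (hmb p hp).1
      by_cases hij : i = j0
      · rw [hij]
        show p j0 = p j0 * (p1 j0 / p1 j0)
        rw [div_self (hp10 j0), mul_one]
      · have h3 : g p ⟨i, Finset.mem_erase.2 ⟨hij, hi⟩⟩ = g p1 ⟨i, Finset.mem_erase.2 ⟨hij, hi⟩⟩ :=
          congrFun (hmb p hp).2 _
        have h4 : -(a i * p i) / (a j0 * p j0) = -(a i * p1 i) / (a j0 * p1 j0) := h3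
        have hai := haJ i hi
        have hp1j := hp10 j0
        have hpj := hpp j0
        rw [div_eq_div_iff (mul_ne_zero ha0 hpj) (mul_ne_zero ha0 hp1j)] at h4
        have h5 : a i * a j0 * (p i * p1 j0 - p j0 * p1 i) = 0 := by linear_combination -h4
        have h6 : p i * p1 j0 - p j0 * p1 i = 0 := by
          rcases mul_eq_zero.1 h5 with h7 | h7
          · exact absurd h7 (mul_ne_zero hai ha0)
          · exact h7
        show p i = p j0 * (p1 i / p1 j0)
        field_simp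
        linear_combination h6
    calc (VJ.card : ℝ) ≤ ((VJ.image g).card : ℝ) * X := h2
      _ ≤ X * X := mul_le_mul_of_nonneg_right hG hX0
      _ = X ^ 2 := by ring
  rw [Finset.card_univ, Fintype.card_finset, hι] at h1
  push_cast at h1
  exact h1

/-- Equal parts and close masses give close logarithms. -/
private theorem cn_log {x y : K} (hx : x ≠ 0) (hx1 : x ≠ 1) (hy : y ≠ 0) (hy1 : y ≠ 1)
    {v : HeightOneSpectrum (𝓞 K)} (h : prt x v = prt y v) :
    Real.log (FinitePlace.mk v x) ≤ Real.log (FinitePlace.mk v y) + |ms x v - ms y v| := by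
  have l1 := log_mk v hx
  have l2 := log_mk v hy
  have hln : Real.log (Ideal.absNorm v.asIdeal : ℝ) = ln v := rfl
  rw [hln] at l1 l2
  have hmx : ms x v = ((mlt x v : ℤ) : ℝ) * ln v := by
    unfold ms
    push_cast
    ring
  have hmy : ms y v = ((mlt y v : ℤ) : ℝ) * ln v := by
    unfold ms
    push_cast
    ring
  have h3 : ∀ i : Fin 3, i = 0 ∨ i = 1 ∨ i = 2 := by decide
  rcases h3 (prt x v) with e | e | e
  · have f : prt y v = 0 := by rw [← h]; exact e
    obtain ⟨a1, -⟩ := mlt_zero hx hx1 e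
    obtain ⟨b1, -⟩ := mlt_zero hy hy1 f
    rw [a1] at hmx
    rw [b1] at hmy
    rw [l1, l2]
    have := neg_abs_le (ms x v - ms y v)
    rw [hmx, hmy] at this ⊢
    linarith
  · have f : prt y v = 1 := by rw [← h]; exact e
    obtain ⟨-, a1⟩ := mlt_one hx hx1 e
    obtain ⟨-, b1⟩ := mlt_one hy hy1 f
    rw [l1, l2, a1, b1]
    have := abs_nonneg (ms x v - ms y v)
    simpa
  · have f : prt y v = 2 := by rw [← h]; exact e
    obtain ⟨a1, -⟩ := mlt_two hx hx1 e
    obtain ⟨b1, -⟩ := mlt_two hy hy1 f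
    rw [a1] at hmx
    rw [b1] at hmy
    push_cast at hmx hmy
    rw [l1, l2]
    have := le_abs_self (ms x v - ms y v)
    rw [hmx, hmy] at this ⊢
    linarith

/-- The determinants of the solutions of a class. -/
private theorem cn_cls (n : ℕ) (hn : 1 ≤ n) (ι : Type) [Fintype ι] [DecidableEq ι]
    (hι : Fintype.card ι = n + 1) (H : ℝ) (hH0 : 0 ≤ H)
    (hH : 2 * (dg K * Real.log ((n + 1).factorial : ℝ)) < H)
    (W : Finset (HeightOneSpectrum (𝓞 K))) (V : Finset (ι → K)) (hV : ∀ p ∈ V, SolN p)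
    (hO : ∀ p ∈ V, ∀ q ∈ V, ∀ i, ∀ v, v ∉ W → ord v (p i) = ord v (q i)) (i' : ι)
    (hHi : ∀ p ∈ V, H ≤ hgt (p i'))
    (hcol : ∀ p ∈ V, ∀ q ∈ V, ∀ i, p i ≠ 0 → p i ≠ 1 → q i ≠ 0 → q i ≠ 1 →
      (∀ v ∈ W, prt (p i) v = prt (q i) v) ∧
      (∀ v ∈ W, |ms (p i) v - ms (q i) v| * (W.card : ℝ) ≤ 1 / (4 * (n + 1)) * H) ∧
      ∀ w : InfinitePlace K, (|Real.log (w (p i)) - Real.log (w (q i))| +
        |Real.log (w (p i - 1)) - Real.log (w (q i - 1))|) * dg K ≤ 1 / (4 * (n + 1)) * H)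
    (ρ : Fin (n + 1) → ι → K) (γ : Fin (n + 1) → ι) (hρ : ∀ i, ρ i ∈ V)
    (hγ : Function.Injective γ) : (Matrix.of fun i j => ρ i (γ j)).det = 0 := by
  classical
  have hb : Function.Bijective γ :=
    (Fintype.bijective_iff_injective_and_card γ).2 ⟨hγ, by rw [Fintype.card_fin, hι]⟩
  have hne0 : ∀ p ∈ V, ∀ i, p i ≠ 0 := by
    intro p hp i
    have h := (hV p hp).2 {i} (Finset.singleton_nonempty i)
    rwa [Finset.sum_singleton] at h
  have hne1 : ∀ p ∈ V, ∀ i, p i ≠ 1 := by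
    intro p hp i h
    have h1 : (Finset.univ.erase i).Nonempty := by
      rw [← Finset.card_pos, Finset.card_erase_of_mem (Finset.mem_univ i), Finset.card_univ, hι]
      omega
    have h2 := (hV p hp).2 _ h1
    have h3 := Finset.add_sum_erase Finset.univ p (Finset.mem_univ i)
    rw [(hV p hp).1, h] at h3
    exact h2 (by linear_combination h3)
  obtain ⟨j0, hj0⟩ := hb.2 i'
  have hn0 : (0 : ℝ) < (n : ℝ) + 1 := by positivity
  refine detN W (Matrix.of fun i j => ρ i (γ j)) ?_ ?_ 0 j0 (1 / (4 * (n + 1)) * H)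
    (by positivity) ?_ ?_ ?_ ?_
  · intro i j
    exact hne0 _ (hρ i) _
  · intro i
    show ∑ j, ρ i (γ j) = 1
    rw [hb.sum_comp (ρ i)]
    exact (hV _ (hρ i)).1
  · intro i j v hv
    exact hO _ (hρ i) _ (hρ 0) _ v hv
  · intro i j v hv
    show Real.log (FinitePlace.mk v (ρ i (γ j))) * (W.card : ℝ) ≤
      Real.log (FinitePlace.mk v (ρ 0 (γ j))) * (W.card : ℝ) + _
    obtain ⟨a1, a2, -⟩ := hcol _ (hρ i) _ (hρ 0) (γ j) (hne0 _ (hρ i) _) (hne1 _ (hρ i) _)
      (hne0 _ (hρ 0) _) (hne1 _ (hρ 0) _)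
    have b1 := cn_log (hne0 _ (hρ i) (γ j)) (hne1 _ (hρ i) (γ j)) (hne0 _ (hρ 0) (γ j))
      (hne1 _ (hρ 0) (γ j)) (a1 v hv)
    have b2 := a2 v hv
    have hcn : (0 : ℝ) ≤ W.card := Nat.cast_nonneg _
    nlinarith [mul_le_mul_of_nonneg_right b1 hcn]
  · intro i j w
    show Real.log (w (ρ i (γ j))) * dg K ≤ Real.log (w (ρ 0 (γ j))) * dg K + _
    obtain ⟨-, -, a3⟩ := hcol _ (hρ i) _ (hρ 0) (γ j) (hne0 _ (hρ i) _) (hne1 _ (hρ i) _)
      (hne0 _ (hρ 0) _) (hne1 _ (hρ 0) _)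
    have b1 := a3 w
    have b2 := le_abs_self (Real.log (w (ρ i (γ j))) - Real.log (w (ρ 0 (γ j))))
    have b3 := abs_nonneg (Real.log (w (ρ i (γ j) - 1)) - Real.log (w (ρ 0 (γ j) - 1)))
    have hd : 0 < dg K := by linarith [one_le_dg K]
    nlinarith
  · show 2 * (((n + 1 : ℕ) : ℝ) * (1 / (4 * (n + 1)) * H)) +
      dg K * Real.log ((n + 1).factorial : ℝ) < hgt (ρ 0 (γ j0))
    rw [hj0]
    have h1 := hHi _ (hρ 0)
    have h2 : 2 * (((n + 1 : ℕ) : ℝ) * (1 / (4 * (n + 1)) * H)) = H / 2 := by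
      push_cast
      field_simp
      ring
    rw [h2]
    linarith

/-- The induction step. -/
private theorem cn_step (K : Type*) [Field K] [NumberField K] (n k : ℕ) (C B : ℝ) (hn : 1 ≤ n)
    (hC : 1 ≤ C) (hB : 1 ≤ B) (hU : UN K n k C B) :
    ∃ (k' : ℕ) (C' B' : ℝ), 1 ≤ C' ∧ 1 ≤ B' ∧ UN K (n + 1) k' C' B' := by
  classical
  have hd : 1 ≤ dg K := one_le_dg K
  have hn0 : (0 : ℝ) < (n : ℝ) + 1 := by positivity
  have hlog : 0 < Real.log 2 := Real.log_pos (by norm_num)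
  have hlog2 : 1 / 2 ≤ Real.log 2 := by
    have := Real.log_two_gt_d9
    linarith
  have hη1 : 1 / (4 * ((n : ℝ) + 1)) ≤ 1 := by
    rw [div_le_one (by positivity)]
    have : (0 : ℝ) ≤ n := Nat.cast_nonneg n
    linarith
  obtain ⟨C1, B1, hC1, hB1, hsh⟩ := shape_col K (1 / (4 * ((n : ℝ) + 1))) (by positivity) hη1
  obtain ⟨c, hc, hrelN⟩ := relN K (n + 1)
  have hfac : (1 : ℝ) ≤ ((n + 1).factorial : ℝ) := by exact_mod_cast Nat.factorial_pos (n + 1)
  have hlf : 0 ≤ Real.log ((n + 1).factorial : ℝ) := Real.log_nonneg hfac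
  have hdlf : 0 ≤ dg K * Real.log ((n + 1).factorial : ℝ) := by positivity
  set C2 : ℝ := max C1 (2 * (dg K * Real.log ((n + 1).factorial : ℝ)) + 1) with hC2
  have hC2a : C1 ≤ C2 := le_max_left _ _
  have hC2b : 2 * (dg K * Real.log ((n + 1).factorial : ℝ)) + 1 ≤ C2 := le_max_right _ _
  have hC21 : 1 ≤ C2 := hC1.trans hC2a
  have hfin : {x : K | hgt x ≤ C2}.Finite := by
    have h := NumberField.finite_setOfPred_logHeight₁_le (K := K) C2
    refine h.subset ?_
    intro x hx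
    simpa [hgt_eq] using hx
  set N0 : ℕ := hfin.toFinset.card ^ (n + 1) with hN0
  have hN00 : (0 : ℝ) ≤ N0 := Nat.cast_nonneg _
  have hln1 : 0 ≤ Real.log ((n : ℝ) + 1) := Real.log_nonneg (by
    have : (0 : ℝ) ≤ n := Nat.cast_nonneg n
    linarith)
  set s : ℝ := (2 * c + 2) + (dg K * Real.log (n + 1) + (n + 1)) with hs
  have hs0 : 0 ≤ s := by
    have : 0 ≤ dg K * Real.log ((n : ℝ) + 1) := by positivity
    rw [hs]
    linarith
  have hs1 : 2 * c + 2 ≤ s := by
    have : 0 ≤ dg K * Real.log ((n : ℝ) + 1) := by positivity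
    rw [hs]
    linarith
  have hs2 : dg K * Real.log (n + 1) + (n + 1) ≤ s := by
    rw [hs]
    linarith
  set D : ℝ := 3 * (((n : ℝ) + 1) * (C1 ^ (n + 1) * (2 ^ (n + 1) * (C * (1 + s) ^ k) ^ 2))) with hD
  have hD0 : 0 ≤ D := by
    rw [hD]
    positivity
  refine ⟨2 * k + 1, C + N0 + D, B1 ^ (n + 1) * B ^ 2, by linarith,
    one_le_mul_of_one_le_of_one_le (one_le_pow₀ hB1) (one_le_pow₀ hB), ?_⟩
  intro ι _ _ hι R hR W S hS hO
  have hBB : B ≤ B1 ^ (n + 1) * B ^ 2 := by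
    have h1 : (1 : ℝ) ≤ B1 ^ (n + 1) := one_le_pow₀ hB1
    have h2 : B ≤ B ^ 2 := by nlinarith
    nlinarith [pow_nonneg (by linarith : (0 : ℝ) ≤ B) 2]
  have hB'1 : 1 ≤ B1 ^ (n + 1) * B ^ 2 := hB.trans hBB
  have hBW : 1 ≤ (B1 ^ (n + 1) * B ^ 2) ^ W.card := one_le_pow₀ hB'1
  have hR21 : 1 ≤ R ^ (2 * k + 1) := one_le_pow₀ hR
  have hRB : 1 ≤ R ^ (2 * k + 1) * (B1 ^ (n + 1) * B ^ 2) ^ W.card :=
    one_le_mul_of_one_le_of_one_le hR21 hBW
  rcases Nat.lt_or_ge (Fintype.card ι) (n + 1) with hlt | hge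
  · -- fewer terms
    have h1 := hU ι (by omega) R hR W S hS hO
    refine h1.trans ?_
    have h2 : R ^ k ≤ R ^ (2 * k + 1) := pow_le_pow_right₀ hR (by omega)
    have h3 : B ^ W.card ≤ (B1 ^ (n + 1) * B ^ 2) ^ W.card := pow_le_pow_left₀ (by linarith) hBB _
    have h4 : C ≤ C + N0 + D := by linarith
    exact mul_le_mul (mul_le_mul h4 h2 (by positivity) (by linarith)) h3 (by positivity)
      (by positivity)
  have hι' : Fintype.card ι = n + 1 := le_antisymm hι hge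
  have hιne : Nonempty ι := by
    rw [← Fintype.card_pos_iff, hι']
    omega
  have hmx : ∀ p : ι → K, ∃ i0, ∀ i, hgt (p i) ≤ hgt (p i0) := by
    intro p
    obtain ⟨i0, _, h⟩ := Finset.exists_max_image Finset.univ (fun i => hgt (p i))
      Finset.univ_nonempty
    exact ⟨i0, fun i => h i (Finset.mem_univ i)⟩
  choose i0 hi0 using hmx
  set jj : (ι → K) → ℕ := fun p => ⌊Real.log (hgt (p (i0 p)) / C2) / Real.log 2⌋₊ with hjj
  set S1 := S.filter (fun p => hgt (p (i0 p)) ≤ C2) with hS1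
  set S2 := S.filter (fun p => ¬ hgt (p (i0 p)) ≤ C2) with hS2
  have hcard : S.card = S1.card + S2.card := (Finset.card_filter_add_card_filter_not _).symm
  have hc1 : S1.card ≤ N0 := by
    have h1 : S1 ⊆ Fintype.piFinset (fun _ : ι => hfin.toFinset) := by
      intro p hp
      rw [Fintype.mem_piFinset]
      intro i
      rw [Set.Finite.mem_toFinset]
      exact (hi0 p i).trans (Finset.mem_filter.1 hp).2
    refine (Finset.card_le_card h1).trans ?_
    rw [Fintype.card_piFinset, Finset.prod_const, Finset.card_univ, hι']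
  have hjb : ∀ t ∈ S2, C2 * 2 ^ (jj t) ≤ hgt (t (i0 t)) ∧
      hgt (t (i0 t)) ≤ 2 * (C2 * 2 ^ (jj t)) ∧ jj t < ⌊2 * R⌋₊ + 1 := by
    intro t ht
    rw [hS2, Finset.mem_filter, not_le] at ht
    obtain ⟨htS, htC⟩ := ht
    have hC0 : 0 < C2 := by linarith
    have hr1 : 1 < hgt (t (i0 t)) / C2 := by rwa [lt_div_iff₀ hC0, one_mul]
    have hr0 : 0 < hgt (t (i0 t)) / C2 := by linarith
    have hl0 : 0 ≤ Real.log (hgt (t (i0 t)) / C2) / Real.log 2 :=
      div_nonneg (Real.log_nonneg hr1.le) hlog.le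
    have hf1 : (jj t : ℝ) ≤ Real.log (hgt (t (i0 t)) / C2) / Real.log 2 := Nat.floor_le hl0
    have hf2 : Real.log (hgt (t (i0 t)) / C2) / Real.log 2 < (jj t : ℝ) + 1 :=
      Nat.lt_floor_add_one _
    have hf1' : (jj t : ℝ) * Real.log 2 ≤ Real.log (hgt (t (i0 t)) / C2) := by
      rwa [le_div_iff₀ hlog] at hf1
    have hf2' : Real.log (hgt (t (i0 t)) / C2) < ((jj t : ℝ) + 1) * Real.log 2 := by
      rwa [div_lt_iff₀ hlog] at hf2
    have hp1 : (2 : ℝ) ^ (jj t) ≤ hgt (t (i0 t)) / C2 := by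
      rw [← Real.log_le_log_iff (by positivity) hr0, Real.log_pow]
      exact hf1'
    have hp2 : hgt (t (i0 t)) / C2 < (2 : ℝ) ^ (jj t + 1) := by
      rw [← Real.log_lt_log_iff hr0 (by positivity), Real.log_pow]
      push_cast
      exact hf2'
    refine ⟨?_, ?_, ?_⟩
    · rw [le_div_iff₀ hC0] at hp1
      linarith
    · rw [div_lt_iff₀ hC0, pow_succ] at hp2
      linarith
    · have hle : Real.log (hgt (t (i0 t)) / C2) ≤ R := by
        have h1 : hgt (t (i0 t)) / C2 ≤ Real.exp R := by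
          refine le_trans ?_ ((hS t htS).2 (i0 t))
          rw [div_le_iff₀ hC0]
          have : 0 ≤ hgt (t (i0 t)) := hgt_nonneg _
          nlinarith
        calc Real.log (hgt (t (i0 t)) / C2) ≤ Real.log (Real.exp R) := Real.log_le_log hr0 h1
          _ = R := Real.log_exp R
      have h3 : (jj t : ℝ) ≤ 2 * R := by
        have h0 : (0 : ℝ) ≤ jj t := Nat.cast_nonneg _
        nlinarith
      have := Nat.le_floor h3
      omega
  set X : ℝ := 2 ^ (n + 1) * (C * (R + s) ^ k * B ^ W.card) ^ 2 with hX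
  have hRs : 0 ≤ R + s := by linarith
  have hX0 : 0 ≤ X := by
    rw [hX]
    positivity
  set Y : ℝ := (C1 * B1 ^ W.card) ^ (n + 1) * X with hY
  have hY0 : 0 ≤ Y := by
    rw [hY]
    positivity
  have hmain : ∀ b ∈ (Finset.univ : Finset ι) ×ˢ Finset.range (⌊2 * R⌋₊ + 1),
      (((S2.filter (fun p => (i0 p, jj p) = b)).card : ℕ) : ℝ) ≤ Y := by
    rintro ⟨i', j⟩ _
    set U := S2.filter (fun p => (i0 p, jj p) = (i', j)) with hUdef
    have h2j : (1 : ℝ) ≤ 2 ^ j := one_le_pow₀ (by norm_num)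
    have hC2j : C2 ≤ C2 * 2 ^ j := by nlinarith
    have hCj : C1 ≤ C2 * 2 ^ j := hC2a.trans hC2j
    set H : ℝ := C2 * 2 ^ j with hH
    have hH0 : 0 ≤ H := by linarith
    obtain ⟨M, f, hM, hf⟩ := hsh H hCj W
    have hUd : ∀ p ∈ U, p ∈ S ∧ H ≤ hgt (p i') ∧ ∀ i, hgt (p i) ≤ 2 * H := by
      intro p hp
      obtain ⟨h1, h2⟩ := Finset.mem_filter.1 hp
      have e1 : i0 p = i' := congrArg Prod.fst h2
      have e2 : jj p = j := congrArg Prod.snd h2
      obtain ⟨a1, a2, -⟩ := hjb p h1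
      rw [e1, e2] at a1 a2
      refine ⟨(Finset.mem_filter.1 h1).1, a1, fun i => ?_⟩
      have h3 := hi0 p i
      rw [e1] at h3
      exact h3.trans a2
    have hcls : ∀ cl ∈ (Finset.univ : Finset (ι → Fin M)),
        (((U.filter (fun p => (fun i => f (p i)) = cl)).card : ℕ) : ℝ) ≤ X := by
      intro cl _
      set V := U.filter (fun p => (fun i => f (p i)) = cl) with hVdef
      have hVU : ∀ p ∈ V, p ∈ U ∧ ∀ i, f (p i) = cl i := by
        intro p hp
        obtain ⟨h1, h2⟩ := Finset.mem_filter.1 hp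
        exact ⟨h1, fun i => congrFun h2 i⟩
      have hVS : ∀ p ∈ V, p ∈ S := fun p hp => (hUd p (hVU p hp).1).1
      have hVO : ∀ p ∈ V, ∀ q ∈ V, ∀ i, ∀ v, v ∉ W → ord v (p i) = ord v (q i) :=
        fun p hp q hq => hO p (hVS p hp) q (hVS q hq)
      have hdet : ∀ (ρ : Fin (n + 1) → ι → K) (γ : Fin (n + 1) → ι), (∀ i, ρ i ∈ (V : Set (ι → K)))
          → Function.Injective γ → (Matrix.of fun i j => ρ i (γ j)).det = 0 := by
        intro ρ γ hρ hγ
        refine cn_cls n hn ι hι' H hH0 (by linarith) W V (fun p hp => (hS p (hVS p hp)).1) hVO i'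
          (fun p hp => (hUd p (hVU p hp).1).2.1) ?_ ρ γ (fun i => Finset.mem_coe.1 (hρ i)) hγ
        intro p hp q hq i p0 p1 q0 q1
        exact hf (p i) (q i) p0 p1 q0 q1 ((hUd p (hVU p hp).1).2.2 i)
          ((hUd q (hVU q hq).1).2.2 i) (((hVU p hp).2 i).trans ((hVU q hq).2 i).symm)
      obtain ⟨a, ha, hah, hrel⟩ := hrelN ι hι' (Real.exp R) (Real.one_le_exp (by linarith))
        (V : Set (ι → K)) (fun p hp => (hS p (hVS p (Finset.mem_coe.1 hp))).2) hdet
      exact cn_rel n k C B hC hB hU c hc ι hι' R hR W V (fun p hp => hS p (hVS p hp)) hVO a ha hah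
        (fun p hp => hrel p (Finset.mem_coe.2 hp)) s hs1 hs2
    have h1 := cn_fib U (Finset.univ : Finset (ι → Fin M)) (fun p i => f (p i))
      (fun _ _ => Finset.mem_univ _) X hcls
    refine h1.trans ?_
    rw [Finset.card_univ, Fintype.card_fun, Fintype.card_fin, hι']
    push_cast
    rw [hY]
    exact mul_le_mul_of_nonneg_right (pow_le_pow_left₀ (Nat.cast_nonneg _) hM _) hX0
  have hc2 : (S2.card : ℝ) ≤ ((n + 1) * (2 * R + 1)) * Y := by
    have h1 := cn_fib S2 ((Finset.univ : Finset ι) ×ˢ Finset.range (⌊2 * R⌋₊ + 1))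
      (fun p => (i0 p, jj p)) (fun p hp => by
        rw [Finset.mem_product, Finset.mem_range]
        exact ⟨Finset.mem_univ _, (hjb p hp).2.2⟩) Y hmain
    refine h1.trans (mul_le_mul_of_nonneg_right ?_ hY0)
    rw [Finset.card_product, Finset.card_univ, hι', Finset.card_range]
    push_cast
    refine mul_le_mul_of_nonneg_left ?_ hn0.le
    have := Nat.floor_le (by linarith : (0 : ℝ) ≤ 2 * R)
    linarith
  have hN0' : (S1.card : ℝ) ≤ N0 := by exact_mod_cast hc1
  rw [hcard]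
  push_cast
  -- the final estimate
  have hRs1 : R + s ≤ (1 + s) * R := by nlinarith
  have hX1 : X ≤ 2 ^ (n + 1) * ((C * (1 + s) ^ k) ^ 2 * (R ^ (2 * k) * (B ^ W.card) ^ 2)) := by
    rw [hX]
    refine mul_le_mul_of_nonneg_left ?_ (by positivity)
    have h1 : (R + s) ^ k ≤ ((1 + s) * R) ^ k := pow_le_pow_left₀ hRs hRs1 k
    have h2 : C * (R + s) ^ k * B ^ W.card ≤ C * ((1 + s) * R) ^ k * B ^ W.card :=
      mul_le_mul_of_nonneg_right (mul_le_mul_of_nonneg_left h1 (by linarith)) (by positivity)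
    calc (C * (R + s) ^ k * B ^ W.card) ^ 2 ≤ (C * ((1 + s) * R) ^ k * B ^ W.card) ^ 2 :=
          pow_le_pow_left₀ (by positivity) h2 2
      _ = (C * (1 + s) ^ k) ^ 2 * (R ^ (2 * k) * (B ^ W.card) ^ 2) := by
          rw [mul_pow (1 + s) R k, pow_mul R 2 k]
          ring
  have hpw : (B1 ^ W.card) ^ (n + 1) * (B ^ W.card) ^ 2 = (B1 ^ (n + 1) * B ^ 2) ^ W.card := by
    rw [mul_pow (B1 ^ (n + 1)) (B ^ 2), ← pow_mul, ← pow_mul, ← pow_mul, ← pow_mul,
      mul_comm W.card (n + 1), mul_comm W.card 2]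
  have hY1 : Y ≤ C1 ^ (n + 1) * (2 ^ (n + 1) * (C * (1 + s) ^ k) ^ 2) *
      (R ^ (2 * k) * (B1 ^ (n + 1) * B ^ 2) ^ W.card) := by
    rw [hY]
    calc (C1 * B1 ^ W.card) ^ (n + 1) * X ≤ (C1 * B1 ^ W.card) ^ (n + 1) *
          (2 ^ (n + 1) * ((C * (1 + s) ^ k) ^ 2 * (R ^ (2 * k) * (B ^ W.card) ^ 2))) :=
          mul_le_mul_of_nonneg_left hX1 (by positivity)
      _ = C1 ^ (n + 1) * (2 ^ (n + 1) * (C * (1 + s) ^ k) ^ 2) *
          (R ^ (2 * k) * ((B1 ^ W.card) ^ (n + 1) * (B ^ W.card) ^ 2)) := by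
          rw [mul_pow C1 (B1 ^ W.card)]
          ring
      _ = _ := by rw [hpw]
  have hZ0 : 0 ≤ (R ^ (2 * k) * (B1 ^ (n + 1) * B ^ 2) ^ W.card) := by positivity
  have h3R : (n + 1 : ℝ) * (2 * R + 1) ≤ (n + 1) * (3 * R) :=
    mul_le_mul_of_nonneg_left (by linarith) hn0.le
  calc (S1.card : ℝ) + S2.card ≤ N0 + ((n + 1) * (2 * R + 1)) * Y := add_le_add hN0' hc2
    _ ≤ N0 * (R ^ (2 * k + 1) * (B1 ^ (n + 1) * B ^ 2) ^ W.card) + ((n + 1) * (3 * R)) *
        (C1 ^ (n + 1) * (2 ^ (n + 1) * (C * (1 + s) ^ k) ^ 2) *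
        (R ^ (2 * k) * (B1 ^ (n + 1) * B ^ 2) ^ W.card)) := by
        refine add_le_add (le_mul_of_one_le_right hN00 hRB) ?_
        exact mul_le_mul h3R hY1 hY0 (by positivity)
    _ = (N0 + D) * (R ^ (2 * k + 1) * (B1 ^ (n + 1) * B ^ 2) ^ W.card) := by
        rw [hD, pow_succ R (2 * k)]
        ring
    _ ≤ (C + N0 + D) * (R ^ (2 * k + 1) * (B1 ^ (n + 1) * B ^ 2) ^ W.card) :=
        mul_le_mul_of_nonneg_right (by linarith) (by linarith)
    _ = (C + N0 + D) * R ^ (2 * k + 1) * (B1 ^ (n + 1) * B ^ 2) ^ W.card := by ring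

private theorem cn_all (K : Type*) [Field K] [NumberField K] (n : ℕ) (hn : 1 ≤ n) :
    ∃ (k : ℕ) (C B : ℝ), 1 ≤ C ∧ 1 ≤ B ∧ UN K n k C B := by
  induction n, hn using Nat.le_induction with
  | base =>
    refine ⟨0, 1, 1, le_rfl, le_rfl, ?_⟩
    intro ι _ _ hι R _ W S hS _
    have h1 : S.card ≤ 1 := by
      refine Finset.card_le_one.2 fun p hp q hq => ?_
      funext i
      have h2 : Subsingleton ι := Fintype.card_le_one_iff_subsingleton.1 hι
      have h3 : ∀ p ∈ S, p i = 1 := by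
        intro p hp
        rw [← (hS p hp).1.1]
        exact (Fintype.sum_subsingleton p i).symm
      rw [h3 p hp, h3 q hq]
    have h2 : (S.card : ℝ) ≤ 1 := by exact_mod_cast h1
    simpa using h2
  | succ n hn ih =>
    obtain ⟨k, C, B, hC, hB, hU⟩ := ih
    exact cn_step K n k C B hn hC hB hU

theorem countN (K : Type*) [Field K] [NumberField K] (n : ℕ) :
    ∃ (k : ℕ) (C B : ℝ), 1 ≤ C ∧ 1 ≤ B ∧ ∀ R : ℝ, 1 ≤ R →
      ∀ (W : Finset (HeightOneSpectrum (𝓞 K))) (S : Finset (Fin n → K)),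
      (∀ p ∈ S, (∑ i, p i = 1) ∧ (∀ J : Finset (Fin n), J.Nonempty → ∑ i ∈ J, p i ≠ 0) ∧
        ∀ i, hgt (p i) ≤ Real.exp R) →
      (∀ p ∈ S, ∀ q ∈ S, ∀ i, Eqo W (p i) (q i)) →
      (S.card : ℝ) ≤ C * R ^ k * B ^ W.card := by
  obtain ⟨k, C, B, hC, hB, hU⟩ := cn_all K (n + 1) (by omega)
  refine ⟨k, C, B, hC, hB, fun R hR W S hS hO => ?_⟩
  refine hU (Fin n) (by rw [Fintype.card_fin]; omega) R hR W S (fun p hp => ?_)
    (fun p hp q hq i v hv => hO p hp q hq i v hv)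
  obtain ⟨h1, h2, h3⟩ := hS p hp
  exact ⟨⟨h1, h2⟩, h3⟩

end Pool.Agent.FPL
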