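import Pool.Agent.FPL.RolesR2

/-!
# RolesG (size 2)

`roles3`: the six maps `x`, `1 - x`, `x⁻¹`, `(1 - x⁻¹)⁻¹`, `1 - x⁻¹`, `(1 - x)⁻¹` with `role_one2` (parts: swap 0 1) and `role_two2` (swap 0 2); every permutation is a product of these; each map uses `1 - ·` at most once
(`1 - x⁻¹`: once, `(1 - x⁻¹)⁻¹`: once, `(1 - x)⁻¹`: once).
-/

namespace Pool.Agent.FPL

open NumberField IsDedekindDomain Pool.Agent.H7.Abc Pool.Agent.AbcE Pool.Agent.AbcF Pool.Agent.TMS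
  Pool.Agent.TM2

private theorem rg_dg_nonneg (K : Type*) [Field K] [NumberField K] :
    0 ≤ dg K * Real.log 2 :=
  mul_nonneg (by have := one_le_dg K; linarith) (Real.log_nonneg (by norm_num))

theorem roles3 (K : Type*) [Field K] [NumberField K] (σ : Equiv.Perm (Fin 3)) :
    ∃ f : K → K, (∀ x y : K, x ≠ 0 → x ≠ 1 → y ≠ 0 → y ≠ 1 → f x = f y → x = y) ∧
      ∀ x : K, x ≠ 0 → x ≠ 1 → f x ≠ 0 ∧ f x ≠ 1 ∧ fs (f x) = fs x ∧ rad (f x) = rad x ∧
        hgt (f x) ≤ hgt x + 2 * (dg K * Real.log 2) ∧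
        hgt x ≤ hgt (f x) + 2 * (dg K * Real.log 2) ∧ (∀ v, mlt (f x) v = mlt x v) ∧
        ∀ v ∈ fs x, prt (f x) v = σ (prt x v) := by
  have key : ∀ τ : Equiv.Perm (Fin 3), (∀ q, q = τ q) ∨ (∀ q, Equiv.swap 0 1 q = τ q) ∨
      (∀ q, Equiv.swap 0 2 q = τ q) ∨
      (∀ q, Equiv.swap 0 2 (Equiv.swap 0 1 (Equiv.swap 0 2 q)) = τ q) ∨
      (∀ q, Equiv.swap 0 1 (Equiv.swap 0 2 q) = τ q) ∨
      (∀ q, Equiv.swap 0 2 (Equiv.swap 0 1 q) = τ q) := by decide
  have hd := rg_dg_nonneg K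
  rcases key σ with h | h | h | h | h | h
  · exact ⟨fun x => x, fun x y _ _ _ _ h => h, fun x hx hx1 => ⟨hx, hx1, rfl, rfl, by linarith,
      by linarith, fun v => rfl, fun v _ => h _⟩⟩
  · refine ⟨fun x => 1 - x, fun x y _ _ _ _ h => ?_, fun x hx hx1 => ?_⟩
    · linear_combination -h
    · obtain ⟨a0, a1, af, ar, ah, ah', am, ap⟩ := role_one2 hx hx1
      exact ⟨a0, a1, af, ar, by linarith, by linarith, am, fun v hv => by rw [ap v hv, h]⟩
  · refine ⟨fun x => x⁻¹, fun x y _ _ _ _ h => inv_injective h, fun x hx hx1 => ?_⟩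
    obtain ⟨a0, a1, af, ar, ah, am, ap⟩ := role_two2 hx hx1
    exact ⟨a0, a1, af, ar, by linarith, by linarith, am, fun v hv => by rw [ap v hv, h]⟩
  · refine ⟨fun x => (1 - x⁻¹)⁻¹, fun x y _ _ _ _ h => ?_, fun x hx hx1 => ?_⟩
    · have h1 : 1 - x⁻¹ = 1 - y⁻¹ := inv_injective h
      have h2 : x⁻¹ = y⁻¹ := by linear_combination -h1
      exact inv_injective h2
    · obtain ⟨a0, a1, af, ar, ah, am, ap⟩ := role_two2 hx hx1
      obtain ⟨b0, b1, bf, br, bh, bh', bm, bp⟩ := role_one2 a0 a1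
      obtain ⟨c0, c1, cf, cr, ch, cm, cp⟩ := role_two2 b0 b1
      refine ⟨c0, c1, by rw [cf, bf, af], by rw [cr, br, ar], by linarith, by linarith,
        fun v => by rw [cm, bm, am], fun v hv => ?_⟩
      rw [cp v (by rw [bf, af]; exact hv), bp v (by rw [af]; exact hv), ap v hv, h]
  · refine ⟨fun x => 1 - x⁻¹, fun x y _ _ _ _ h => ?_, fun x hx hx1 => ?_⟩
    · have h2 : x⁻¹ = y⁻¹ := by linear_combination -h
      exact inv_injective h2
    · obtain ⟨a0, a1, af, ar, ah, am, ap⟩ := role_two2 hx hx1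
      obtain ⟨b0, b1, bf, br, bh, bh', bm, bp⟩ := role_one2 a0 a1
      refine ⟨b0, b1, by rw [bf, af], by rw [br, ar], by linarith, by linarith,
        fun v => by rw [bm, am], fun v hv => ?_⟩
      rw [bp v (by rw [af]; exact hv), ap v hv, h]
  · refine ⟨fun x => (1 - x)⁻¹, fun x y _ _ _ _ h => ?_, fun x hx hx1 => ?_⟩
    · have h1 : 1 - x = 1 - y := inv_injective h
      linear_combination -h1
    · obtain ⟨b0, b1, bf, br, bh, bh', bm, bp⟩ := role_one2 hx hx1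
      obtain ⟨c0, c1, cf, cr, ch, cm, cp⟩ := role_two2 b0 b1
      refine ⟨c0, c1, by rw [cf, bf], by rw [cr, br], by linarith, by linarith,
        fun v => by rw [cm, bm], fun v hv => ?_⟩
      rw [cp v (by rw [bf]; exact hv), bp v hv, h]

end Pool.Agent.FPL
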