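import Pool.Agent.FPL.CellO
import Pool.Agent.FPL.RankinZ

/-!
# CountO0 (size 3)

Copy of `CountS0` (complete: `fpl_CountS0.lean` in the store, helper22) with `cellO K e`: `U = C2 ^ 2 exp ((1 + e) (3 a / 4 + b / 2))` (`𝒜.card ^ 3 ℬ.card ^ 2 ≤ C2 ^ 5 exp ((1 + e) (3 a + 2 b)) ≤ U ^ 4`); for an `x` in the class
`exp (3 a / 4 + b / 2) ≤ exp (2 + r - (LN (fil 0 x) / 4 + LN (fil 2 x) / 2) - LN Z) ≤ exp (2 + ρ - LN Z)`. `LN (fil 2 x) ≤ rad x ≤ R`. The power of `R` is now `R ^ m` with the `m` of `cellO`, and there is one more factor `exp (e R)`: use `R ^ (m + 3) ≤ C exp (e R)` (`Real.pow_div_factorial_le_exp` for `e R`, or as in `CountS0` with a general exponent).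
-/

namespace Pool.Agent.FPL

open NumberField IsDedekindDomain Pool.Agent.H7.Abc Pool.Agent.AbcE Pool.Agent.AbcF Pool.Agent.TMS
  Pool.Agent.TM2

private theorem countO0_window {q lq C1 h R : ℝ} (hlq : lq = Real.log q) (hq : 1 < q)
    (hC1 : 1 ≤ C1) (hh : C1 ≤ h) (hR : h ≤ Real.exp R) :
    C1 * q ^ ⌊Real.log (h / C1) / lq⌋₊ ≤ h ∧ h ≤ q * (C1 * q ^ ⌊Real.log (h / C1) / lq⌋₊) ∧
      ⌊Real.log (h / C1) / lq⌋₊ ≤ ⌊R / lq⌋₊ := by
  have hC0 : 0 < C1 := by linarith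
  have hh0 : 0 < h := by linarith
  have hq0 : 0 < q := by linarith
  have hlq0 : 0 < lq := by rw [hlq]; exact Real.log_pos hq
  have hr1 : 1 ≤ h / C1 := (one_le_div hC0).mpr hh
  have hr0 : 0 < h / C1 := by linarith
  have hl0 : 0 ≤ Real.log (h / C1) := Real.log_nonneg hr1
  set t : ℝ := Real.log (h / C1) / lq with ht
  have ht0 : 0 ≤ t := div_nonneg hl0 hlq0.le
  have htl : t * lq = Real.log (h / C1) := by rw [ht]; field_simp
  have hpow : ∀ j : ℕ, q ^ j = Real.exp ((j : ℝ) * lq) := by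
    intro j
    rw [hlq, ← Real.log_pow, Real.exp_log (pow_pos hq0 j)]
  have hexp : Real.exp (t * lq) = h / C1 := by rw [htl, Real.exp_log hr0]
  refine ⟨?_, ?_, ?_⟩
  · have h1 : (⌊t⌋₊ : ℝ) ≤ t := Nat.floor_le ht0
    have h2 : q ^ ⌊t⌋₊ ≤ h / C1 := by
      rw [hpow, ← hexp]
      exact Real.exp_le_exp.mpr (mul_le_mul_of_nonneg_right h1 hlq0.le)
    calc C1 * q ^ ⌊t⌋₊ ≤ C1 * (h / C1) := mul_le_mul_of_nonneg_left h2 hC0.le
      _ = h := by field_simp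
  · have h1 : t < (⌊t⌋₊ : ℝ) + 1 := Nat.lt_floor_add_one t
    have h2 : h / C1 ≤ q ^ (⌊t⌋₊ + 1) := by
      rw [hpow, ← hexp]
      push_cast
      exact Real.exp_le_exp.mpr (mul_le_mul_of_nonneg_right h1.le hlq0.le)
    have h3 : h = C1 * (h / C1) := by field_simp
    calc h = C1 * (h / C1) := h3
      _ ≤ C1 * q ^ (⌊t⌋₊ + 1) := mul_le_mul_of_nonneg_left h2 hC0.le
      _ = q * (C1 * q ^ ⌊t⌋₊) := by rw [pow_succ]; ring
  · apply Nat.floor_mono
    rw [ht]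
    apply div_le_div_of_nonneg_right _ hlq0.le
    have h1 : h / C1 ≤ Real.exp R := le_trans (div_le_self hh0.le hC1) hR
    calc Real.log (h / C1) ≤ Real.log (Real.exp R) := Real.log_le_log hr0 h1
      _ = R := Real.log_exp R

private theorem countO0_north (K : Type*) [Field K] [NumberField K] (c : ℝ) :
    {x : K | hgt x ≤ c}.Finite := by
  refine (NumberField.finite_setOfPred_logHeight₁_le (K := K) c).subset ?_
  intro x hx
  simp only [Set.mem_ofPred_eq] at hx ⊢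
  rwa [hgt_eq] at hx

/-- The numerical bound in one cell. -/
private theorem countO0_num {C1 C2 C3 Bk R ρ lZ l0 l2 a c e : ℝ} {na nb : ℝ} (m : ℕ)
    (hC1 : 1 ≤ C1) (hC2 : 0 < C2) (hC3 : 0 < C3) (hR : 1 ≤ R) (he : 0 < e) (hBk0 : 0 ≤ Bk)
    (hBk : Bk ≤ C3 * Real.exp (e * R)) (ha : a ≤ l0 + 1) (hc : c ≤ l2 + 1)
    (haR : a ≤ R + 1) (hcR : c ≤ R + 1) (h1 : lZ + l2 ≤ ρ) (h2 : lZ + l0 ≤ ρ)
    (h3 : lZ + (3 / 4 * l0 + 1 / 2 * l2) ≤ ρ)
    (hna : na ≤ C2 * Real.exp ((1 + e) * a))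
    (hnb : nb ≤ C2 * Real.exp ((1 + e) * c)) :
    C1 * R ^ m * Bk * Real.exp (e * R) *
      ((1 + C2) ^ 2 * Real.exp ((1 + e) * (3 / 4 * a + 1 / 2 * c)) + na + nb) ≤
      (C1 * C3 * (((1 + C2) ^ 2 + 2 * C2) * (Real.exp 2 * Real.exp (2 * e))) * R ^ m *
        Real.exp (4 * e * R) * Real.exp ρ) * Real.exp (-lZ) := by
  set E : ℝ := Real.exp (2 + (ρ - lZ) + 2 * e * (R + 1)) with hE
  have hE0 : 0 < E := Real.exp_pos _
  have hea : e * a ≤ e * (R + 1) := mul_le_mul_of_nonneg_left haR he.le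
  have hec : e * c ≤ e * (R + 1) := mul_le_mul_of_nonneg_left hcR he.le
  have hR0 : 0 ≤ R := by linarith
  have heR : 0 ≤ e * (R + 1) := by positivity
  have e1 : Real.exp ((1 + e) * a) ≤ E := by
    rw [hE]
    exact Real.exp_le_exp.2 (by linarith)
  have e2 : Real.exp ((1 + e) * c) ≤ E := by
    rw [hE]
    exact Real.exp_le_exp.2 (by linarith)
  have e3 : Real.exp ((1 + e) * (3 / 4 * a + 1 / 2 * c)) ≤ E := by
    rw [hE]
    exact Real.exp_le_exp.2 (by linarith)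
  have s1 : (1 + C2) ^ 2 * Real.exp ((1 + e) * (3 / 4 * a + 1 / 2 * c)) ≤ (1 + C2) ^ 2 * E :=
    mul_le_mul_of_nonneg_left e3 (by positivity)
  have s2 : na ≤ C2 * E := hna.trans (mul_le_mul_of_nonneg_left e1 hC2.le)
  have s3 : nb ≤ C2 * E := hnb.trans (mul_le_mul_of_nonneg_left e2 hC2.le)
  have hin : 0 ≤ (1 + C2) ^ 2 * E + C2 * E + C2 * E := by positivity
  have hfin : C1 * R ^ m * Bk * Real.exp (e * R) *
      ((1 + C2) ^ 2 * Real.exp ((1 + e) * (3 / 4 * a + 1 / 2 * c)) + na + nb) ≤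
      C1 * R ^ m * (C3 * Real.exp (e * R)) * Real.exp (e * R) *
        ((1 + C2) ^ 2 * E + C2 * E + C2 * E) := by
    calc C1 * R ^ m * Bk * Real.exp (e * R) *
          ((1 + C2) ^ 2 * Real.exp ((1 + e) * (3 / 4 * a + 1 / 2 * c)) + na + nb)
        ≤ C1 * R ^ m * Bk * Real.exp (e * R) * ((1 + C2) ^ 2 * E + C2 * E + C2 * E) :=
          mul_le_mul_of_nonneg_left (add_le_add (add_le_add s1 s2) s3) (by positivity)
      _ ≤ C1 * R ^ m * (C3 * Real.exp (e * R)) * Real.exp (e * R) *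
            ((1 + C2) ^ 2 * E + C2 * E + C2 * E) := by
          apply mul_le_mul_of_nonneg_right _ hin
          apply mul_le_mul_of_nonneg_right _ (Real.exp_pos _).le
          exact mul_le_mul_of_nonneg_left hBk (by positivity)
  refine hfin.trans (le_of_eq ?_)
  have hE' : Real.exp (e * R) * Real.exp (e * R) * E = (Real.exp 2 * Real.exp (2 * e)) *
      (Real.exp (4 * e * R) * (Real.exp ρ * Real.exp (-lZ))) := by
    rw [hE, ← Real.exp_add, ← Real.exp_add, ← Real.exp_add, ← Real.exp_add, ← Real.exp_add,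
      ← Real.exp_add]
    congr 1
    ring
  calc C1 * R ^ m * (C3 * Real.exp (e * R)) * Real.exp (e * R) *
        ((1 + C2) ^ 2 * E + C2 * E + C2 * E)
      = C1 * R ^ m * C3 * ((1 + C2) ^ 2 + 2 * C2) * (Real.exp (e * R) * Real.exp (e * R) * E) := by
        ring
    _ = _ := by rw [hE']; ring

private theorem countO0_U {C2 e a c na nb : ℝ} (hC2 : 0 < C2) (hna0 : 0 ≤ na) (hnb0 : 0 ≤ nb)
    (hna : na ≤ C2 * Real.exp ((1 + e) * a)) (hnb : nb ≤ C2 * Real.exp ((1 + e) * c)) :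
    na ^ 3 * nb ^ 2 ≤
      ((1 + C2) ^ 2 * Real.exp ((1 + e) * (3 / 4 * a + 1 / 2 * c))) ^ 4 := by
  have h1 : na ^ 3 * nb ^ 2 ≤
      (C2 * Real.exp ((1 + e) * a)) ^ 3 * (C2 * Real.exp ((1 + e) * c)) ^ 2 :=
    mul_le_mul (pow_le_pow_left₀ hna0 hna 3) (pow_le_pow_left₀ hnb0 hnb 2) (by positivity)
      (by positivity)
  have h3 : (C2 * Real.exp ((1 + e) * a)) ^ 3 * (C2 * Real.exp ((1 + e) * c)) ^ 2 =
      C2 ^ 5 * Real.exp ((1 + e) * (3 * a + 2 * c)) := by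
    have : Real.exp ((1 + e) * (3 * a + 2 * c)) =
        Real.exp ((1 + e) * a) ^ 3 * Real.exp ((1 + e) * c) ^ 2 := by
      rw [← Real.exp_nat_mul, ← Real.exp_nat_mul, ← Real.exp_add]
      congr 1
      push_cast
      ring
    rw [this]
    ring
  have h4 : ((1 + C2) ^ 2 * Real.exp ((1 + e) * (3 / 4 * a + 1 / 2 * c))) ^ 4 =
      (1 + C2) ^ 8 * Real.exp ((1 + e) * (3 * a + 2 * c)) := by
    have : Real.exp ((1 + e) * (3 * a + 2 * c)) =
        Real.exp ((1 + e) * (3 / 4 * a + 1 / 2 * c)) ^ 4 := by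
      rw [← Real.exp_nat_mul]
      congr 1
      push_cast
      ring
    rw [this]
    ring
  have h5 : C2 ^ 5 ≤ (1 + C2) ^ 8 := by
    calc C2 ^ 5 ≤ (1 + C2) ^ 5 := pow_le_pow_left₀ hC2.le (by linarith) 5
      _ ≤ (1 + C2) ^ 8 := pow_le_pow_right₀ (by linarith) (by norm_num)
  rw [h4]
  rw [h3] at h1
  exact h1.trans (mul_le_mul_of_nonneg_right h5 (Real.exp_pos _).le)

theorem countO0 (K : Type*) [Field K] [NumberField K] (ε : ℝ) (hε : 0 < ε) :
    ∃ C : ℝ, 1 ≤ C ∧ ∀ R ρ : ℝ, 1 ≤ R → 0 ≤ ρ → ρ ≤ R → ∀ S : Finset K,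
      (∀ x ∈ S, x ≠ 0 ∧ x ≠ 1 ∧ rad x ≤ R ∧ hgt x ≤ Real.exp R ∧
        rad x - LN (fil 0 x) ≤ ρ ∧ rad x - LN (fil 2 x) ≤ ρ ∧
        rad x - (LN (fil 0 x) / 4 + LN (fil 2 x) / 2) ≤ ρ) →
      (S.card : ℝ) ≤ C * Real.exp (ρ + ε * R) := by
  classical
  set e : ℝ := ε / 16 with he
  have he0 : 0 < e := by positivity
  obtain ⟨m, C1, Bc, hC1, hBc, hcell⟩ := cellO K e he0
  obtain ⟨C2, hC2, hcs⟩ := card_sets K he0
  obtain ⟨C3, hC3, hpc⟩ := pow_card K he0 hBc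
  obtain ⟨C4, hC4, hrank⟩ := rankinZ K e he0
  set q : ℝ := 2 with hq
  have hq1 : 1 < q := by rw [hq]; norm_num
  set lq : ℝ := Real.log q with hlq
  have hlq0 : 0 < lq := Real.log_pos hq1
  set Q : ℝ := Real.exp (C4 * 1 ^ (1 / (1 + e / 2)) * (1 + Real.log 1)) with hQ
  have hQ0 : 0 < Q := Real.exp_pos _
  have hfin := countO0_north K C1
  set N0 : ℕ := hfin.toFinset.card with hN0
  set A1 : ℝ := C1 * C3 * (((1 + C2) ^ 2 + 2 * C2) * (Real.exp 2 * Real.exp (2 * e))) with hA1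
  have hA10 : 0 ≤ A1 := by positivity
  set PM : ℝ := ((m + 3).factorial : ℝ) / (ε / 2) ^ (m + 3) with hPM
  have hPM0 : 0 ≤ PM := by positivity
  set D : ℝ := (1 / lq + 1) * 9 * A1 * Q * PM with hD
  have hD0 : 0 ≤ D := by positivity
  refine ⟨1 + N0 + D, by linarith [Nat.cast_nonneg (α := ℝ) N0], ?_⟩
  intro R ρ hR hρ0 hρR S hS
  have hR0 : 0 ≤ R := by linarith
  rcases Finset.eq_empty_or_nonempty S with hSe | ⟨y, hy⟩
  · rw [hSe, Finset.card_empty, Nat.cast_zero]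
    positivity
  -- the lengths of the parts
  have hLR : ∀ x ∈ S, ∀ i : Fin 3, LN (fil i x) ≤ R := by
    intro x hx i
    obtain ⟨h0, h1, h2, _⟩ := hS x hx
    refine le_trans ?_ h2
    rw [rad_fs h0 h1]
    exact LN_mono (fun v hv => (mem_fil.1 hv).1)
  obtain ⟨xi, hxi, hmax⟩ := Finset.exists_max_image (S ×ˢ (Finset.univ : Finset (Fin 3)))
    (fun z => (fil z.2 z.1).card) ⟨(y, 0), Finset.mem_product.2 ⟨hy, Finset.mem_univ _⟩⟩
  set k : ℕ := (fil xi.2 xi.1).card with hk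
  have hkle : ∀ x ∈ S, ∀ i : Fin 3, (fil i x).card ≤ k := by
    intro x hx i
    exact hmax (x, i) (Finset.mem_product.2 ⟨hx, Finset.mem_univ _⟩)
  have hBk : Bc ^ k ≤ C3 * Real.exp (e * R) := by
    refine (hpc (fil xi.2 xi.1)).trans ?_
    refine mul_le_mul_of_nonneg_left (Real.exp_le_exp.2 ?_) hC3.le
    exact mul_le_mul_of_nonneg_left (hLR xi.1 (Finset.mem_product.1 hxi).1 xi.2) he0.le
  -- the two parts
  set S1 := S.filter (fun x => hgt x < C1) with hS1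
  set S2 := S.filter (fun x => ¬ hgt x < C1) with hS2
  have hcard : (S.card : ℝ) = (S1.card : ℝ) + (S2.card : ℝ) := by
    have h := Finset.card_filter_add_card_filter_not (s := S) (fun x => hgt x < C1)
    rw [← h]
    push_cast
    rfl
  have hE1 : 1 ≤ Real.exp (ρ + ε * R) := Real.one_le_exp (by positivity)
  have hc1 : (S1.card : ℝ) ≤ N0 := by
    have : S1 ⊆ hfin.toFinset := by
      intro x hx
      rw [hS1, Finset.mem_filter] at hx
      rw [Set.Finite.mem_toFinset]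
      exact hx.2.le
    exact_mod_cast Finset.card_le_card this
  have hmem : ∀ x ∈ S2, x ∈ S ∧ C1 ≤ hgt x := by
    intro x hx
    rw [hS2, Finset.mem_filter] at hx
    exact ⟨hx.1, not_lt.mp hx.2⟩
  -- the data
  set wj : K → ℕ := fun x => ⌊Real.log (hgt x / C1) / lq⌋₊ with hwj
  set dat : K → ((ℕ × ℕ) × ℕ) × Finset (HeightOneSpectrum (𝓞 K)) :=
    fun x => (((wj x, ⌈LN (fil 0 x)⌉₊), ⌈LN (fil 2 x)⌉₊), fil 1 x) with hdat
  set J : ℕ := ⌊R / lq⌋₊ + 1 with hJ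
  set A : ℕ := ⌊R⌋₊ + 2 with hA
  set I : Finset (((ℕ × ℕ) × ℕ) × Finset (HeightOneSpectrum (𝓞 K))) :=
    ((Finset.range J ×ˢ Finset.range A) ×ˢ Finset.range A) ×ˢ S2.image (fil 1) with hI
  have hceil : ∀ x ∈ S, ∀ i : Fin 3, ⌈LN (fil i x)⌉₊ < A := by
    intro x hx i
    have h1 : ⌈LN (fil i x)⌉₊ ≤ ⌈R⌉₊ := Nat.ceil_mono (hLR x hx i)
    have h2 : ⌈R⌉₊ ≤ ⌊R⌋₊ + 1 := Nat.ceil_le_floor_add_one R
    omega
  have hmaps : ∀ x ∈ S2, dat x ∈ I := by
    intro x hx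
    obtain ⟨hxS, hxC⟩ := hmem x hx
    simp only [hI, hdat, Finset.mem_product, Finset.mem_range]
    refine ⟨⟨⟨?_, hceil x hxS 0⟩, hceil x hxS 2⟩, Finset.mem_image_of_mem (fil 1) hx⟩
    rw [hJ]
    exact Nat.lt_succ_of_le (countO0_window hlq hq1 hC1 hxC (hS x hxS).2.2.2.1).2.2
  have hfib : S2.card = ∑ b ∈ I, (S2.filter (fun x => dat x = b)).card :=
    Finset.card_eq_sum_card_fiberwise hmaps
  have hcellb : ∀ b ∈ I, ((S2.filter (fun x => dat x = b)).card : ℝ) ≤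
      (A1 * R ^ m * Real.exp (4 * e * R) * Real.exp ρ) * Real.exp (-LN b.2) := by
    intro b _
    set Fb := S2.filter (fun x => dat x = b) with hFb
    rcases Finset.eq_empty_or_nonempty Fb with hem | ⟨x0, hx0⟩
    · rw [hem, Finset.card_empty, Nat.cast_zero]
      positivity
    have hdata : ∀ x ∈ Fb, x ∈ S ∧ C1 ≤ hgt x ∧ wj x = b.1.1.1 ∧ ⌈LN (fil 0 x)⌉₊ = b.1.1.2 ∧
        ⌈LN (fil 2 x)⌉₊ = b.1.2 ∧ fil 1 x = b.2 := by
      intro x hx
      obtain ⟨hx2, hxb⟩ := Finset.mem_filter.1 hx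
      obtain ⟨hxS, hxC⟩ := hmem x hx2
      refine ⟨hxS, hxC, ?_, ?_, ?_, ?_⟩ <;> rw [← hxb]
    have key : ∀ x ∈ Fb, x ≠ 0 ∧ x ≠ 1 ∧ C1 * q ^ b.1.1.1 ≤ hgt x ∧
        hgt x ≤ 2 * (C1 * q ^ b.1.1.1) ∧ fil 0 x ∈ Fb.image (fil 0) ∧
        fil 2 x ∈ Fb.image (fil 2) ∧ fil 1 x = b.2 := by
      intro x hx
      obtain ⟨hxS, hxC, hb1, _, _, hb4⟩ := hdata x hx
      obtain ⟨h0, h1, _, hR', _⟩ := hS x hxS
      obtain ⟨w1, w2, _⟩ := countO0_window hlq hq1 hC1 hxC hR'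
      rw [← hb1]
      exact ⟨h0, h1, w1, w2, Finset.mem_image_of_mem _ hx, Finset.mem_image_of_mem _ hx, hb4⟩
    have hqj : 1 ≤ q ^ b.1.1.1 := one_le_pow₀ hq1.le
    have hHC : C1 ≤ C1 * q ^ b.1.1.1 := by nlinarith
    obtain ⟨hx0S, hx0C, _, hb2, hb3, hb4⟩ := hdata x0 hx0
    have hHR : C1 * q ^ b.1.1.1 ≤ Real.exp R :=
      (key x0 hx0).2.2.1.trans (hS x0 hx0S).2.2.2.1
    have hLNi : ∀ X ∈ Fb.image (fil 2), LN X ≤ R := by
      intro X hX
      obtain ⟨x, hx, rfl⟩ := Finset.mem_image.1 hX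
      exact hLR x (hdata x hx).1 2
    have hcardi : ∀ i : Fin 3, ∀ X ∈ Fb.image (fil i), X.card ≤ k := by
      intro i X hX
      obtain ⟨x, hx, rfl⟩ := Finset.mem_image.1 hX
      exact hkle x (hdata x hx).1 i
    have hZk : b.2.card ≤ k := by
      rw [← hb4]
      exact hkle x0 hx0S 1
    obtain ⟨h0, h1, _, _, l1, l2, l3⟩ := hS x0 hx0S
    rw [LN_fil h0 h1, hb4] at l1 l2 l3
    have ha : (b.1.1.2 : ℝ) ≤ LN (fil 0 x0) + 1 := by
      rw [← hb2]; exact (Nat.ceil_lt_add_one (LN_nonneg _)).le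
    have hc : (b.1.2 : ℝ) ≤ LN (fil 2 x0) + 1 := by
      rw [← hb3]; exact (Nat.ceil_lt_add_one (LN_nonneg _)).le
    have hA0 : ((Fb.image (fil 0)).card : ℝ) ≤ C2 * Real.exp ((1 + e) * (b.1.1.2 : ℝ)) := by
      refine hcs _ _ ?_
      intro X hX
      obtain ⟨x, hx, rfl⟩ := Finset.mem_image.1 hX
      rw [← (hdata x hx).2.2.2.1]
      exact Nat.le_ceil _
    have hB0 : ((Fb.image (fil 2)).card : ℝ) ≤ C2 * Real.exp ((1 + e) * (b.1.2 : ℝ)) := by
      refine hcs _ _ ?_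
      intro X hX
      obtain ⟨x, hx, rfl⟩ := Finset.mem_image.1 hX
      rw [← (hdata x hx).2.2.2.2.1]
      exact Nat.le_ceil _
    have hmain := hcell R (C1 * q ^ b.1.1.1) hR hHC hHR b.2 (Fb.image (fil 0)) (Fb.image (fil 2)) k
      ((1 + C2) ^ 2 * Real.exp ((1 + e) * (3 / 4 * (b.1.1.2 : ℝ) + 1 / 2 * (b.1.2 : ℝ))))
      (by positivity)
      (countO0_U hC2 (Nat.cast_nonneg _) (Nat.cast_nonneg _) hA0 hB0)
      hZk (hcardi 0) (fun X hX => ⟨hcardi 2 X hX, hLNi X hX⟩) Fb key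
    refine hmain.trans ?_
    rw [hA1]
    exact countO0_num (l0 := LN (fil 0 x0)) (l2 := LN (fil 2 x0)) m hC1 hC2 hC3 hR he0
      (by positivity) hBk ha hc (by linarith [hLR x0 hx0S 0]) (by linarith [hLR x0 hx0S 2])
      (by linarith) (by linarith) (by linarith) hA0 hB0
  have hsum1 : (S2.card : ℝ) ≤
      ∑ b ∈ I, (A1 * R ^ m * Real.exp (4 * e * R) * Real.exp ρ) * Real.exp (-LN b.2) := by
    rw [hfib]
    push_cast
    exact Finset.sum_le_sum hcellb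
  have hsum2 : ∑ b ∈ I, (A1 * R ^ m * Real.exp (4 * e * R) * Real.exp ρ) * Real.exp (-LN b.2) =
      ((J : ℝ) * A * A) * ((A1 * R ^ m * Real.exp (4 * e * R) * Real.exp ρ) *
        ∑ T ∈ S2.image (fil 1), Real.exp (-LN T)) := by
    rw [hI, Finset.sum_product]
    simp only [Finset.sum_const, Finset.card_product, Finset.card_range, nsmul_eq_mul,
      ← Finset.mul_sum]
    push_cast
    ring
  have hsum3 : ∑ T ∈ S2.image (fil 1), Real.exp (-LN T) ≤ Real.exp (e * R) * Q := by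
    calc ∑ T ∈ S2.image (fil 1), Real.exp (-LN T) ≤ ∑ T ∈ S2.image (fil 1),
          Real.exp (e * R) * ((1 : ℝ) ^ T.card * Real.exp (-((1 + e) * LN T))) := by
          apply Finset.sum_le_sum
          intro T hT
          rw [Finset.mem_image] at hT
          obtain ⟨x, hx, rfl⟩ := hT
          have hxS := (hmem x hx).1
          have h1 := hLR x hxS 1
          rw [one_pow, one_mul, ← Real.exp_add]
          apply Real.exp_le_exp.2
          nlinarith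
      _ = Real.exp (e * R) *
          ∑ T ∈ S2.image (fil 1), (1 : ℝ) ^ T.card * Real.exp (-((1 + e) * LN T)) := by
          rw [Finset.mul_sum]
      _ ≤ Real.exp (e * R) * Q :=
          mul_le_mul_of_nonneg_left (hrank 1 le_rfl _) (Real.exp_pos _).le
  have hJle : (J : ℝ) ≤ (1 / lq + 1) * R := by
    have h1 : (J : ℝ) ≤ R / lq + 1 := by
      rw [hJ]
      push_cast
      linarith [Nat.floor_le (div_nonneg hR0 hlq0.le)]
    have : (1 / lq + 1) * R = R / lq + R := by ring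
    rw [this]
    linarith
  have hAle : (A : ℝ) ≤ 3 * R := by
    rw [hA]
    push_cast
    linarith [Nat.floor_le hR0]
  have hR4 : R ^ (m + 3) ≤ PM * Real.exp (ε / 2 * R) := by
    have h3 := Real.pow_div_factorial_le_exp (ε / 2 * R) (by positivity) (m + 3)
    have hf : (0 : ℝ) < ((m + 3).factorial : ℝ) := by exact_mod_cast Nat.factorial_pos _
    have he2 : (0 : ℝ) < (ε / 2) ^ (m + 3) := by positivity
    rw [div_le_iff₀ hf, mul_pow] at h3
    rw [hPM, div_mul_eq_mul_div, le_div_iff₀ he2]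
    calc R ^ (m + 3) * (ε / 2) ^ (m + 3) = (ε / 2) ^ (m + 3) * R ^ (m + 3) := mul_comm _ _
      _ ≤ Real.exp (ε / 2 * R) * ((m + 3).factorial : ℝ) := h3
      _ = _ := mul_comm _ _
  have hJAA : ((J : ℝ) * A * A) * R ^ m ≤ (1 / lq + 1) * 9 * R ^ (m + 3) := by
    have hA0 : (0 : ℝ) ≤ A := Nat.cast_nonneg _
    have hl1 : 0 ≤ 1 / lq + 1 := by positivity
    have hAA : (A : ℝ) * A ≤ (3 * R) * (3 * R) := mul_le_mul hAle hAle hA0 (by positivity)
    calc ((J : ℝ) * A * A) * R ^ m = (J : ℝ) * ((A : ℝ) * A) * R ^ m := by ring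
      _ ≤ ((1 / lq + 1) * R) * ((3 * R) * (3 * R)) * R ^ m := by
          apply mul_le_mul_of_nonneg_right _ (by positivity)
          exact mul_le_mul hJle hAA (by positivity) (by positivity)
      _ = (1 / lq + 1) * 9 * R ^ (m + 3) := by ring
  have hc2 : (S2.card : ℝ) ≤ D * Real.exp (ρ + ε * R) := by
    calc (S2.card : ℝ) ≤ ((J : ℝ) * A * A) * ((A1 * R ^ m * Real.exp (4 * e * R) * Real.exp ρ) *
          ∑ T ∈ S2.image (fil 1), Real.exp (-LN T)) := by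
          rw [← hsum2]; exact hsum1
      _ ≤ ((J : ℝ) * A * A) * ((A1 * R ^ m * Real.exp (4 * e * R) * Real.exp ρ) *
          (Real.exp (e * R) * Q)) := by
          apply mul_le_mul_of_nonneg_left _ (by positivity)
          exact mul_le_mul_of_nonneg_left hsum3 (by positivity)
      _ = (((J : ℝ) * A * A) * R ^ m) *
          (A1 * Q * (Real.exp ρ * (Real.exp (4 * e * R) * Real.exp (e * R)))) := by ring
      _ ≤ ((1 / lq + 1) * 9 * (PM * Real.exp (ε / 2 * R))) *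
          (A1 * Q * (Real.exp ρ * (Real.exp (4 * e * R) * Real.exp (e * R)))) := by
          apply mul_le_mul_of_nonneg_right _ (by positivity)
          refine hJAA.trans ?_
          exact mul_le_mul_of_nonneg_left hR4 (by positivity)
      _ = D * (Real.exp ρ * ((Real.exp (4 * e * R) * Real.exp (e * R)) *
          Real.exp (ε / 2 * R))) := by rw [hD]; ring
      _ ≤ D * Real.exp (ρ + ε * R) := by
          refine mul_le_mul_of_nonneg_left ?_ hD0
          rw [← Real.exp_add, ← Real.exp_add, ← Real.exp_add]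
          refine Real.exp_le_exp.2 ?_
          rw [he]
          nlinarith [mul_nonneg hε.le hR0]
  calc (S.card : ℝ) = (S1.card : ℝ) + (S2.card : ℝ) := hcard
    _ ≤ N0 + D * Real.exp (ρ + ε * R) := add_le_add hc1 hc2
    _ ≤ (1 + N0) * Real.exp (ρ + ε * R) + D * Real.exp (ρ + ε * R) := by
        have h1 : (N0 : ℝ) ≤ (1 + N0) * Real.exp (ρ + ε * R) := by
          have h2 : (0 : ℝ) ≤ N0 := Nat.cast_nonneg _
          nlinarith
        linarith
    _ = (1 + N0 + D) * Real.exp (ρ + ε * R) := by ring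

end Pool.Agent.FPL
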