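import Pool.Agent.FPL.CountP0
import Pool.Agent.FPL.RolesG

/-!
# CountP (size 2)

Copy of `CountG` with `countP0`: for the pair `(i, j)` the permutation `σ` with `σ i = 0`, `σ j = 2`, `y = f x`: `D ⊆ (fs x).filter (prt x · = j) = fil 2 y`, `ms y = ms x` (`mlt` is unchanged),
`∑ ms ≤ hgt x / 64 ≤ 1 / 64 (hgt y + 2 d log 2)`.
-/

namespace Pool.Agent.FPL

open NumberField IsDedekindDomain Pool.Agent.H7.Abc Pool.Agent.AbcE Pool.Agent.AbcF Pool.Agent.TMS
  Pool.Agent.TM2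

private theorem countP_perm : ∀ i j : Fin 3, i ≠ j →
    ∃ σ : Equiv.Perm (Fin 3), σ i = 0 ∧ σ j = 2 := by
  decide

open Classical in
private theorem countP_fil {K : Type*} [Field K] [NumberField K] {x y : K} {σ : Equiv.Perm (Fin 3)}
    (hfs : fs y = fs x) (hp : ∀ v ∈ fs x, prt y v = σ (prt x v)) {i k : Fin 3} (hi : σ i = k) :
    fil k y = (fs x).filter (fun u => prt x u = i) := by
  ext v
  rw [mem_fil, Finset.mem_filter, hfs]
  constructor
  · rintro ⟨h1, h2⟩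
    refine ⟨h1, ?_⟩
    rw [hp v h1, ← hi] at h2
    exact σ.injective h2
  · rintro ⟨h1, h2⟩
    refine ⟨h1, ?_⟩
    rw [hp v h1, h2, hi]

open Classical in
private theorem countP_pair (K : Type*) [Field K] [NumberField K] (ε : ℝ) (hε : 0 < ε) :
    ∃ C : ℝ, 1 ≤ C ∧ ∀ R ρ : ℝ, 1 ≤ R → 0 ≤ ρ → ρ ≤ R → ∀ i j : Fin 3, i ≠ j → ∀ S : Finset K,
      (∀ x ∈ S, x ≠ 0 ∧ x ≠ 1 ∧ rad x ≤ R ∧ hgt x ≤ Real.exp R ∧
        ∃ D ⊆ (fs x).filter (fun u => prt x u = j), ∑ u ∈ D, ms x u ≤ hgt x / 64 ∧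
          LN (fs x) - LN D - LN ((fs x).filter (fun u => prt x u = i)) ≤ ρ ∧
          LN (fs x) - LN D - (LN ((fs x).filter (fun u => prt x u = j)) - LN D) / 2 ≤ ρ) →
      (S.card : ℝ) ≤ C * Real.exp (ρ + ε * R) := by
  obtain ⟨C, hC, H⟩ := countP0 K ε hε
  have hd := one_le_dg K
  have hl : 0 < Real.log 2 := Real.log_pos (by norm_num)
  have hc : 0 ≤ 2 * (dg K * Real.log 2) := by positivity
  have hec : 0 ≤ ε * (2 * (dg K * Real.log 2)) := mul_nonneg hε.le hc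
  refine ⟨C * Real.exp (ε * (2 * (dg K * Real.log 2))), ?_, ?_⟩
  · have h1 : 1 ≤ Real.exp (ε * (2 * (dg K * Real.log 2))) := Real.one_le_exp hec
    nlinarith
  · intro R ρ hR hρ hρR i j hij S hS
    obtain ⟨σ, hσi, hσj⟩ := countP_perm i j hij
    obtain ⟨f, hinj, hf⟩ := roles3 K σ
    have hcard : (S.image f).card = S.card := by
      apply Finset.card_image_of_injOn
      intro x hx y hy hxy
      exact hinj x y (hS x hx).1 (hS x hx).2.1 (hS y hy).1 (hS y hy).2.1 hxy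
    have key := H (R + 2 * (dg K * Real.log 2)) ρ (by linarith) hρ (by linarith) (S.image f) (by
      intro y hy
      obtain ⟨x, hx, rfl⟩ := Finset.mem_image.1 hy
      obtain ⟨h0, h1, h2, h3, D, hD, h6, h4, h5⟩ := hS x hx
      obtain ⟨g0, g1, g2, g3, g4, g7, g6, g5⟩ := hf x h0 h1
      have hrad := rad_fs h0 h1
      have e2 := countP_fil (k := 2) g2 g5 hσj
      have hms : ∑ v ∈ D, ms (f x) v = ∑ v ∈ D, ms x v :=
        Finset.sum_congr rfl fun v _ => by rw [ms, ms, g6]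
      refine ⟨g0, g1, by rw [g3]; linarith, ?_, D, by rw [e2]; exact hD, ?_, ?_, ?_⟩
      · have e1 : Real.exp R * (1 + 2 * (dg K * Real.log 2)) ≤
            Real.exp R * Real.exp (2 * (dg K * Real.log 2)) := by
          apply mul_le_mul_of_nonneg_left _ (Real.exp_pos R).le
          have := Real.add_one_le_exp (2 * (dg K * Real.log 2))
          linarith
        have e3 : 1 ≤ Real.exp R := Real.one_le_exp (by linarith)
        rw [Real.exp_add]
        nlinarith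
      · rw [hms]
        linarith
      · rw [countP_fil g2 g5 hσi, g3, hrad]
        exact h4
      · rw [e2, g3, hrad]
        exact h5)
    rw [hcard] at key
    refine key.trans (le_of_eq ?_)
    rw [mul_assoc, ← Real.exp_add]
    congr 2
    ring

open Classical in
theorem countP (K : Type*) [Field K] [NumberField K] (ε : ℝ) (hε : 0 < ε) :
    ∃ C : ℝ, 1 ≤ C ∧ ∀ R ρ : ℝ, 1 ≤ R → 0 ≤ ρ → ρ ≤ R → ∀ S : Finset K,
      (∀ x ∈ S, x ≠ 0 ∧ x ≠ 1 ∧ rad x ≤ R ∧ hgt x ≤ Real.exp R ∧ ∃ i j : Fin 3, i ≠ j ∧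
        ∃ D ⊆ (fs x).filter (fun u => prt x u = j), ∑ u ∈ D, ms x u ≤ hgt x / 64 ∧
          LN (fs x) - LN D - LN ((fs x).filter (fun u => prt x u = i)) ≤ ρ ∧
          LN (fs x) - LN D - (LN ((fs x).filter (fun u => prt x u = j)) - LN D) / 2 ≤ ρ) →
      (S.card : ℝ) ≤ C * Real.exp (ρ + ε * R) := by
  obtain ⟨C, hC, H⟩ := countP_pair K ε hε
  refine ⟨9 * C, by linarith, ?_⟩
  intro R ρ hR hρ hρR S hS
  let P : Fin 3 × Fin 3 → K → Prop := fun q x => q.1 ≠ q.2 ∧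
    ∃ D ⊆ (fs x).filter (fun u => prt x u = q.2), ∑ u ∈ D, ms x u ≤ hgt x / 64 ∧
      LN (fs x) - LN D - LN ((fs x).filter (fun u => prt x u = q.1)) ≤ ρ ∧
      LN (fs x) - LN D - (LN ((fs x).filter (fun u => prt x u = q.2)) - LN D) / 2 ≤ ρ
  have hsub : S ⊆ (Finset.univ : Finset (Fin 3 × Fin 3)).biUnion (fun q => S.filter (P q)) := by
    intro x hx
    obtain ⟨-, -, -, -, i, j, hij, h4⟩ := hS x hx
    rw [Finset.mem_biUnion]
    exact ⟨(i, j), Finset.mem_univ _, Finset.mem_filter.2 ⟨hx, hij, h4⟩⟩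
  have h1 : (S.card : ℝ) ≤ ∑ q : Fin 3 × Fin 3, ((S.filter (P q)).card : ℝ) := by
    have h2 := (Finset.card_le_card hsub).trans Finset.card_biUnion_le
    exact_mod_cast h2
  have h3 : ∀ q : Fin 3 × Fin 3, ((S.filter (P q)).card : ℝ) ≤ C * Real.exp (ρ + ε * R) := by
    intro q
    by_cases hq : q.1 = q.2
    · have h4 : S.filter (P q) = ∅ := by
        apply Finset.filter_false_of_mem
        intro x _ hx
        exact hx.1 hq
      rw [h4, Finset.card_empty, Nat.cast_zero]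
      positivity
    · apply H R ρ hR hρ hρR q.1 q.2 hq
      intro x hx
      obtain ⟨hx1, hx2⟩ := Finset.mem_filter.1 hx
      obtain ⟨h0, h1, h2, h3, -⟩ := hS x hx1
      exact ⟨h0, h1, h2, h3, hx2.2⟩
  refine h1.trans ((Finset.sum_le_card_nsmul _ _ _ (fun q _ => h3 q)).trans (le_of_eq ?_))
  simp only [Finset.card_univ, Fintype.card_prod, Fintype.card_fin, nsmul_eq_mul]
  push_cast
  ring

end Pool.Agent.FPL
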