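import Pool.Agent.FPL.CellP
import Pool.Agent.FPL.RankinZ

/-!
# CountP0 (size 4)

Copy of `CountG0` (complete: `fpl_CountG0.lean` in the store) with `cellP`: choose `D x` as in the hypothesis, `B x = fil 2 x \ D x` (mass of `fil 2 x \ B x = D x`: `≤ 1/64 (hgt x + 2 d log 2) ≤ 1/64 (2 H + 2 d log 2) ≤ H / 16` for `H ≥ C1 + 2 d log 2`: take the windows with this larger constant);
`b = ⌈LN (B x)⌉₊`, `LN (B x) = LN (fil 2 x) - LN (D x)`, `ℬ` = the set of the `B x` of the class. `k` = the maximum of the `(fs x).card`, `x ∈ S` (`Bc ^ k ≤ C3 exp (e R)` by `pow_card`: `k = (fs x).card`, `LN (fs x) = rad x ≤ R`). With `t = exp (a - b / 2)` as before: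
`exp b ≤ exp (1 + LN (B x)) = exp (1 + rad x - LN (fil 0 x) - LN (D x) - LN Z) ≤ exp (1 + ρ - LN Z)`, `exp (a + b / 2) ≤ exp (2 + LN (fil 0 x) + LN (B x) / 2) = exp (2 + rad x - LN (D x) - LN (B x) / 2 - LN Z) ≤ exp (2 + ρ - LN Z)`.
-/

namespace Pool.Agent.FPL

open NumberField IsDedekindDomain Pool.Agent.H7.Abc Pool.Agent.AbcE Pool.Agent.AbcF Pool.Agent.TMS
  Pool.Agent.TM2

private theorem countP0_window {q lq C1 h R : ℝ} (hlq : lq = Real.log q) (hq : 1 < q)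
    (hC1 : 1 ≤ C1) (hh : C1 ≤ h) (hR : h ≤ Real.exp R) :
    C1 * q ^ ⌊Real.log (h / C1) / lq⌋₊ ≤ h ∧ h ≤ q * (C1 * q ^ ⌊Real.log (h / C1) / lq⌋₊) ∧
      ⌊Real.log (h / C1) / lq⌋₊ ≤ ⌊R / lq⌋₊ := by
  have hC0 : 0 < C1 := by linarith
  have hh0 : 0 < h := by linarith
  have hq0 : 0 < q := by linarith
  have hlq0 : 0 < lq := by rw [hlq]; exact Real.log_pos hq
  have hr1 : 1 ≤ h / C1 := (one_le_div hC0).mpr hh
  have hr0 : 0 < h / C1 := by linarith
  have hl0 : 0 ≤ Real.log (h / C1) := Real.log_nonneg hr1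
  set t : ℝ := Real.log (h / C1) / lq with ht
  have ht0 : 0 ≤ t := div_nonneg hl0 hlq0.le
  have htl : t * lq = Real.log (h / C1) := by rw [ht]; field_simp
  have hpow : ∀ j : ℕ, q ^ j = Real.exp ((j : ℝ) * lq) := by
    intro j
    rw [hlq, ← Real.log_pow, Real.exp_log (pow_pos hq0 j)]
  have hexp : Real.exp (t * lq) = h / C1 := by rw [htl, Real.exp_log hr0]
  refine ⟨?_, ?_, ?_⟩
  · have h1 : (⌊t⌋₊ : ℝ) ≤ t := Nat.floor_le ht0
    have h2 : q ^ ⌊t⌋₊ ≤ h / C1 := by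
      rw [hpow, ← hexp]
      exact Real.exp_le_exp.mpr (mul_le_mul_of_nonneg_right h1 hlq0.le)
    calc C1 * q ^ ⌊t⌋₊ ≤ C1 * (h / C1) := mul_le_mul_of_nonneg_left h2 hC0.le
      _ = h := by field_simp
  · have h1 : t < (⌊t⌋₊ : ℝ) + 1 := Nat.lt_floor_add_one t
    have h2 : h / C1 ≤ q ^ (⌊t⌋₊ + 1) := by
      rw [hpow, ← hexp]
      push_cast
      exact Real.exp_le_exp.mpr (mul_le_mul_of_nonneg_right h1.le hlq0.le)
    have h3 : h = C1 * (h / C1) := by field_simp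
    calc h = C1 * (h / C1) := h3
      _ ≤ C1 * q ^ (⌊t⌋₊ + 1) := mul_le_mul_of_nonneg_left h2 hC0.le
      _ = q * (C1 * q ^ ⌊t⌋₊) := by rw [pow_succ]; ring
  · apply Nat.floor_mono
    rw [ht]
    apply div_le_div_of_nonneg_right _ hlq0.le
    have h1 : h / C1 ≤ Real.exp R := le_trans (div_le_self hh0.le hC1) hR
    calc Real.log (h / C1) ≤ Real.log (Real.exp R) := Real.log_le_log hr0 h1
      _ = R := Real.log_exp R

private theorem countP0_north (K : Type*) [Field K] [NumberField K] (c : ℝ) :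
    {x : K | hgt x ≤ c}.Finite := by
  refine (NumberField.finite_setOfPred_logHeight₁_le (K := K) c).subset ?_
  intro x hx
  simp only [Set.mem_ofPred_eq] at hx ⊢
  rwa [hgt_eq] at hx

/-- The numerical bound in one cell. -/
private theorem countP0_num {C1 C2 C3 Bk R ρ lZ l0 l2 a c e : ℝ} {na nb : ℝ} (hC1 : 1 ≤ C1)
    (hC2 : 0 < C2) (hC3 : 0 < C3) (hR : 1 ≤ R) (he : 0 < e) (hBk0 : 0 ≤ Bk)
    (hBk : Bk ≤ C3 * Real.exp (e * R)) (ha : a ≤ l0 + 1) (hc : c ≤ l2 + 1)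
    (haR : a ≤ R + 1) (hcR : c ≤ R + 1) (h1 : lZ + l2 ≤ ρ) (h2 : lZ + l0 + l2 / 2 ≤ ρ)
    (hna0 : 0 ≤ na) (hna : na ≤ C2 * Real.exp ((1 + e) * a))
    (hnb : nb ≤ C2 * Real.exp ((1 + e) * c)) :
    C1 * R * Bk * ((1 + Real.exp (a - c / 2)) * nb + na ^ 2 / Real.exp (a - c / 2)) ≤
      (C1 * C3 * ((2 * C2 + C2 ^ 2) * (Real.exp 2 * Real.exp (2 * e))) * R *
        Real.exp (3 * e * R) * Real.exp ρ) * Real.exp (-lZ) := by
  set E : ℝ := Real.exp (2 + (ρ - lZ) + 2 * e * (R + 1)) with hE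
  have hE0 : 0 < E := Real.exp_pos _
  have hea : e * a ≤ e * (R + 1) := mul_le_mul_of_nonneg_left haR he.le
  have hec : e * c ≤ e * (R + 1) := mul_le_mul_of_nonneg_left hcR he.le
  have heR : 0 ≤ e * (R + 1) := by positivity
  have e1 : Real.exp ((1 + e) * c) ≤ E := by
    rw [hE]
    exact Real.exp_le_exp.2 (by linarith)
  have e2 : Real.exp (a - c / 2) * Real.exp ((1 + e) * c) ≤ E := by
    rw [hE, ← Real.exp_add]
    exact Real.exp_le_exp.2 (by linarith)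
  have e3 : Real.exp ((1 + e) * a) ^ 2 / Real.exp (a - c / 2) ≤ E := by
    rw [hE, ← Real.exp_nat_mul, ← Real.exp_sub]
    refine Real.exp_le_exp.2 ?_
    push_cast
    linarith
  have t0 : 0 < Real.exp (a - c / 2) := Real.exp_pos _
  have s1 : (1 + Real.exp (a - c / 2)) * nb ≤ C2 * (2 * E) := by
    calc (1 + Real.exp (a - c / 2)) * nb
        ≤ (1 + Real.exp (a - c / 2)) * (C2 * Real.exp ((1 + e) * c)) :=
          mul_le_mul_of_nonneg_left hnb (by positivity)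
      _ = C2 * (Real.exp ((1 + e) * c) + Real.exp (a - c / 2) * Real.exp ((1 + e) * c)) := by ring
      _ ≤ C2 * (E + E) := mul_le_mul_of_nonneg_left (add_le_add e1 e2) hC2.le
      _ = C2 * (2 * E) := by ring
  have s2 : na ^ 2 / Real.exp (a - c / 2) ≤ C2 ^ 2 * E := by
    have h3 : na ^ 2 ≤ (C2 * Real.exp ((1 + e) * a)) ^ 2 := pow_le_pow_left₀ hna0 hna 2
    calc na ^ 2 / Real.exp (a - c / 2)
        ≤ (C2 * Real.exp ((1 + e) * a)) ^ 2 / Real.exp (a - c / 2) :=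
          div_le_div_of_nonneg_right h3 t0.le
      _ = C2 ^ 2 * (Real.exp ((1 + e) * a) ^ 2 / Real.exp (a - c / 2)) := by ring
      _ ≤ C2 ^ 2 * E := mul_le_mul_of_nonneg_left e3 (by positivity)
  have hR0 : 0 ≤ R := by linarith
  have hin : 0 ≤ C2 * (2 * E) + C2 ^ 2 * E := by positivity
  have hfin : C1 * R * Bk * ((1 + Real.exp (a - c / 2)) * nb + na ^ 2 / Real.exp (a - c / 2)) ≤
      C1 * R * (C3 * Real.exp (e * R)) * (C2 * (2 * E) + C2 ^ 2 * E) := by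
    calc C1 * R * Bk * ((1 + Real.exp (a - c / 2)) * nb + na ^ 2 / Real.exp (a - c / 2))
        ≤ C1 * R * Bk * (C2 * (2 * E) + C2 ^ 2 * E) :=
          mul_le_mul_of_nonneg_left (add_le_add s1 s2) (by positivity)
      _ ≤ C1 * R * (C3 * Real.exp (e * R)) * (C2 * (2 * E) + C2 ^ 2 * E) := by
          apply mul_le_mul_of_nonneg_right _ hin
          exact mul_le_mul_of_nonneg_left hBk (by positivity)
  refine hfin.trans (le_of_eq ?_)
  have hE' : Real.exp (e * R) * E = (Real.exp 2 * Real.exp (2 * e)) *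
      (Real.exp (3 * e * R) * (Real.exp ρ * Real.exp (-lZ))) := by
    rw [hE, ← Real.exp_add, ← Real.exp_add, ← Real.exp_add, ← Real.exp_add, ← Real.exp_add]
    congr 1
    ring
  calc C1 * R * (C3 * Real.exp (e * R)) * (C2 * (2 * E) + C2 ^ 2 * E)
      = C1 * R * C3 * (2 * C2 + C2 ^ 2) * (Real.exp (e * R) * E) := by ring
    _ = _ := by rw [hE']; ring

open Classical in
theorem countP0 (K : Type*) [Field K] [NumberField K] (ε : ℝ) (hε : 0 < ε) :
    ∃ C : ℝ, 1 ≤ C ∧ ∀ R ρ : ℝ, 1 ≤ R → 0 ≤ ρ → ρ ≤ R → ∀ S : Finset K,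
      (∀ x ∈ S, x ≠ 0 ∧ x ≠ 1 ∧ rad x ≤ R ∧ hgt x ≤ Real.exp R ∧
        ∃ D ⊆ fil 2 x, ∑ v ∈ D, ms x v ≤ 1 / 64 * (hgt x + 2 * (dg K * Real.log 2)) ∧
          rad x - LN D - LN (fil 0 x) ≤ ρ ∧
          rad x - LN D - (LN (fil 2 x) - LN D) / 2 ≤ ρ) →
      (S.card : ℝ) ≤ C * Real.exp (ρ + ε * R) := by
  classical
  obtain ⟨C0, Bc, hC0', hBc, hcell⟩ := cellP K
  set C1 : ℝ := C0 + dg K * Real.log 2 with hC1d
  have hdl : 0 ≤ dg K * Real.log 2 :=
    mul_nonneg (zero_le_one.trans (one_le_dg K)) (Real.log_nonneg (by norm_num))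
  have hC1 : 1 ≤ C1 := by linarith
  have hC01 : C0 ≤ C1 := by linarith
  set e : ℝ := ε / 8 with he
  have he0 : 0 < e := by positivity
  obtain ⟨C2, hC2, hcs⟩ := card_sets K he0
  obtain ⟨C3, hC3, hpc⟩ := pow_card K he0 hBc
  obtain ⟨C4, hC4, hrank⟩ := rankinZ K e he0
  set q : ℝ := 2 with hq
  have hq1 : 1 < q := by rw [hq]; norm_num
  set lq : ℝ := Real.log q with hlq
  have hlq0 : 0 < lq := Real.log_pos hq1
  set Q : ℝ := Real.exp (C4 * 1 ^ (1 / (1 + e / 2)) * (1 + Real.log 1)) with hQ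
  have hQ0 : 0 < Q := Real.exp_pos _
  have hfin := countP0_north K C1
  set N0 : ℕ := hfin.toFinset.card with hN0
  set A1 : ℝ := C0 * C3 * ((2 * C2 + C2 ^ 2) * (Real.exp 2 * Real.exp (2 * e))) with hA1
  have hA10 : 0 ≤ A1 := by positivity
  set D : ℝ := (1 / lq + 1) * 9 * A1 * Q * (8 / ε) ^ 4 with hD
  have hD0 : 0 ≤ D := by positivity
  refine ⟨1 + N0 + D, by linarith [Nat.cast_nonneg (α := ℝ) N0], ?_⟩
  intro R ρ hR hρ0 hρR S hS
  have hR0 : 0 ≤ R := by linarith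
  rcases Finset.eq_empty_or_nonempty S with hSe | ⟨y, hy⟩
  · rw [hSe, Finset.card_empty, Nat.cast_zero]
    positivity
  -- the dropped sets
  have hDex : ∀ x : K, ∃ D0 : Finset (HeightOneSpectrum (𝓞 K)), x ∈ S → D0 ⊆ fil 2 x ∧
      ∑ v ∈ D0, ms x v ≤ 1 / 64 * (hgt x + 2 * (dg K * Real.log 2)) ∧
      rad x - LN D0 - LN (fil 0 x) ≤ ρ ∧ rad x - LN D0 - (LN (fil 2 x) - LN D0) / 2 ≤ ρ := by
    intro x
    by_cases hx : x ∈ S
    · obtain ⟨_, _, _, _, D0, h1, h2, h3, h4⟩ := hS x hx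
      exact ⟨D0, fun _ => ⟨h1, h2, h3, h4⟩⟩
    · exact ⟨∅, fun h => absurd h hx⟩
  choose Dr hDr using hDex
  set B2 : K → Finset (HeightOneSpectrum (𝓞 K)) := fun x => fil 2 x \ Dr x with hB2
  have hLB : ∀ x ∈ S, LN (B2 x) = LN (fil 2 x) - LN (Dr x) := by
    intro x hx
    have h := Finset.sum_sdiff (f := ln) (hDr x hx).1
    have h' : LN (B2 x) + LN (Dr x) = LN (fil 2 x) := h
    linarith
  have hLB0 : ∀ x, LN (B2 x) ≤ LN (fil 2 x) := fun x => LN_mono Finset.sdiff_subset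
  -- the lengths of the parts
  have hLR : ∀ x ∈ S, ∀ i : Fin 3, LN (fil i x) ≤ R := by
    intro x hx i
    obtain ⟨h0, h1, h2, _⟩ := hS x hx
    refine le_trans ?_ h2
    rw [rad_fs h0 h1]
    exact LN_mono (fun v hv => (mem_fil.1 hv).1)
  obtain ⟨xi, hxi, hmax⟩ := Finset.exists_max_image S (fun z => (fs z).card) ⟨y, hy⟩
  set k : ℕ := (fs xi).card with hk
  have hBk : Bc ^ k ≤ C3 * Real.exp (e * R) := by
    refine (hpc (fs xi)).trans ?_
    refine mul_le_mul_of_nonneg_left (Real.exp_le_exp.2 ?_) hC3.le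
    refine mul_le_mul_of_nonneg_left ?_ he0.le
    obtain ⟨h0, h1, h2, _⟩ := hS xi hxi
    have h3 := rad_fs h0 h1
    have h4 : LN (fs xi) = rad xi := h3.symm
    rw [h4]
    exact h2
  -- the two parts
  set S1 := S.filter (fun x => hgt x < C1) with hS1
  set S2 := S.filter (fun x => ¬ hgt x < C1) with hS2
  have hcard : (S.card : ℝ) = (S1.card : ℝ) + (S2.card : ℝ) := by
    have h := Finset.card_filter_add_card_filter_not (s := S) (fun x => hgt x < C1)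
    rw [← h]
    push_cast
    rfl
  have hE1 : 1 ≤ Real.exp (ρ + ε * R) := Real.one_le_exp (by positivity)
  have hc1 : (S1.card : ℝ) ≤ N0 := by
    have : S1 ⊆ hfin.toFinset := by
      intro x hx
      rw [hS1, Finset.mem_filter] at hx
      rw [Set.Finite.mem_toFinset]
      exact hx.2.le
    exact_mod_cast Finset.card_le_card this
  have hmem : ∀ x ∈ S2, x ∈ S ∧ C1 ≤ hgt x := by
    intro x hx
    rw [hS2, Finset.mem_filter] at hx
    exact ⟨hx.1, not_lt.mp hx.2⟩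
  -- the data
  set wj : K → ℕ := fun x => ⌊Real.log (hgt x / C1) / lq⌋₊ with hwj
  set dat : K → ((ℕ × ℕ) × ℕ) × Finset (HeightOneSpectrum (𝓞 K)) :=
    fun x => (((wj x, ⌈LN (fil 0 x)⌉₊), ⌈LN (B2 x)⌉₊), fil 1 x) with hdat
  set J : ℕ := ⌊R / lq⌋₊ + 1 with hJ
  set A : ℕ := ⌊R⌋₊ + 2 with hA
  set I : Finset (((ℕ × ℕ) × ℕ) × Finset (HeightOneSpectrum (𝓞 K))) :=
    ((Finset.range J ×ˢ Finset.range A) ×ˢ Finset.range A) ×ˢ S2.image (fil 1) with hI
  have hceil : ∀ x ∈ S, ∀ i : Fin 3, ⌈LN (fil i x)⌉₊ < A := by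
    intro x hx i
    have h1 : ⌈LN (fil i x)⌉₊ ≤ ⌈R⌉₊ := Nat.ceil_mono (hLR x hx i)
    have h2 : ⌈R⌉₊ ≤ ⌊R⌋₊ + 1 := Nat.ceil_le_floor_add_one R
    omega
  have hmaps : ∀ x ∈ S2, dat x ∈ I := by
    intro x hx
    obtain ⟨hxS, hxC⟩ := hmem x hx
    simp only [hI, hdat, Finset.mem_product, Finset.mem_range]
    refine ⟨⟨⟨?_, hceil x hxS 0⟩, lt_of_le_of_lt (Nat.ceil_mono (hLB0 x)) (hceil x hxS 2)⟩,
      Finset.mem_image_of_mem (fil 1) hx⟩
    rw [hJ]
    exact Nat.lt_succ_of_le (countP0_window hlq hq1 hC1 hxC (hS x hxS).2.2.2.1).2.2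
  have hfib : S2.card = ∑ b ∈ I, (S2.filter (fun x => dat x = b)).card :=
    Finset.card_eq_sum_card_fiberwise hmaps
  have hcellb : ∀ b ∈ I, ((S2.filter (fun x => dat x = b)).card : ℝ) ≤
      (A1 * R * Real.exp (3 * e * R) * Real.exp ρ) * Real.exp (-LN b.2) := by
    intro b _
    set Fb := S2.filter (fun x => dat x = b) with hFb
    rcases Finset.eq_empty_or_nonempty Fb with hem | ⟨x0, hx0⟩
    · rw [hem, Finset.card_empty, Nat.cast_zero]
      positivity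
    have hdata : ∀ x ∈ Fb, x ∈ S ∧ C1 ≤ hgt x ∧ wj x = b.1.1.1 ∧ ⌈LN (fil 0 x)⌉₊ = b.1.1.2 ∧
        ⌈LN (B2 x)⌉₊ = b.1.2 ∧ fil 1 x = b.2 := by
      intro x hx
      obtain ⟨hx2, hxb⟩ := Finset.mem_filter.1 hx
      obtain ⟨hxS, hxC⟩ := hmem x hx2
      refine ⟨hxS, hxC, ?_, ?_, ?_, ?_⟩ <;> rw [← hxb]
    have hqj : 1 ≤ q ^ b.1.1.1 := one_le_pow₀ hq1.le
    have hHC : C1 ≤ C1 * q ^ b.1.1.1 := by nlinarith
    have key : ∀ x ∈ Fb, x ≠ 0 ∧ x ≠ 1 ∧ C1 * q ^ b.1.1.1 ≤ hgt x ∧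
        hgt x ≤ 2 * (C1 * q ^ b.1.1.1) ∧ (fs x).card ≤ k ∧ fil 0 x ∈ Fb.image (fil 0) ∧
        (∃ B ∈ Fb.image B2, B ⊆ fil 2 x ∧
          ∑ v ∈ fil 2 x \ B, ms x v ≤ C1 * q ^ b.1.1.1 / 16) ∧ fil 1 x = b.2 := by
      intro x hx
      obtain ⟨hxS, hxC, hb1, _, _, hb4⟩ := hdata x hx
      obtain ⟨h0, h1, _, hR', _⟩ := hS x hxS
      obtain ⟨w1, w2, _⟩ := countP0_window hlq hq1 hC1 hxC hR'
      have w1' : C1 * q ^ b.1.1.1 ≤ hgt x := by rw [← hb1]; exact w1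
      have w2' : hgt x ≤ 2 * (C1 * q ^ b.1.1.1) := by rw [← hb1]; exact w2
      refine ⟨h0, h1, w1', w2', hmax x hxS, Finset.mem_image_of_mem _ hx, ⟨B2 x,
        Finset.mem_image_of_mem _ hx, Finset.sdiff_subset, ?_⟩, hb4⟩
      have hsd : fil 2 x \ B2 x = Dr x := Finset.sdiff_sdiff_eq_self (hDr x hxS).1
      rw [hsd]
      refine (hDr x hxS).2.1.trans ?_
      have : dg K * Real.log 2 ≤ C1 * q ^ b.1.1.1 := by
        refine le_trans ?_ hHC
        rw [hC1d]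
        linarith
      linarith
    obtain ⟨hx0S, hx0C, _, hb2, hb3, hb4⟩ := hdata x0 hx0
    have hHR : C1 * q ^ b.1.1.1 ≤ Real.exp R :=
      (key x0 hx0).2.2.1.trans (hS x0 hx0S).2.2.2.1
    have hmain := hcell R (C1 * q ^ b.1.1.1) hR (hC01.trans hHC) hHR b.2 (Fb.image (fil 0))
      (Fb.image B2) k (Real.exp ((b.1.1.2 : ℝ) - (b.1.2 : ℝ) / 2)) (Real.exp_pos _) Fb key
    refine hmain.trans ?_
    obtain ⟨h0, h1, _⟩ := hS x0 hx0S
    obtain ⟨_, _, l1, l2⟩ := hDr x0 hx0S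
    have hLBx := hLB x0 hx0S
    rw [LN_fil h0 h1, hb4] at l1 l2
    have ha : (b.1.1.2 : ℝ) ≤ LN (fil 0 x0) + 1 := by
      rw [← hb2]; exact (Nat.ceil_lt_add_one (LN_nonneg _)).le
    have hc : (b.1.2 : ℝ) ≤ LN (B2 x0) + 1 := by
      rw [← hb3]; exact (Nat.ceil_lt_add_one (LN_nonneg _)).le
    have hA0 : ((Fb.image (fil 0)).card : ℝ) ≤ C2 * Real.exp ((1 + e) * (b.1.1.2 : ℝ)) := by
      refine hcs _ _ ?_
      intro X hX
      obtain ⟨x, hx, rfl⟩ := Finset.mem_image.1 hX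
      rw [← (hdata x hx).2.2.2.1]
      exact Nat.le_ceil _
    have hB0 : ((Fb.image B2).card : ℝ) ≤ C2 * Real.exp ((1 + e) * (b.1.2 : ℝ)) := by
      refine hcs _ _ ?_
      intro X hX
      obtain ⟨x, hx, rfl⟩ := Finset.mem_image.1 hX
      rw [← (hdata x hx).2.2.2.2.1]
      exact Nat.le_ceil _
    rw [hA1]
    exact countP0_num (l0 := LN (fil 0 x0)) (l2 := LN (B2 x0)) hC0' hC2 hC3 hR he0
      (by positivity) hBk ha hc (by linarith [hLR x0 hx0S 0])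
      (by linarith [hLR x0 hx0S 2, hLB0 x0])
      (by linarith) (by linarith) (Nat.cast_nonneg _) hA0 hB0
  have hsum1 : (S2.card : ℝ) ≤
      ∑ b ∈ I, (A1 * R * Real.exp (3 * e * R) * Real.exp ρ) * Real.exp (-LN b.2) := by
    rw [hfib]
    push_cast
    exact Finset.sum_le_sum hcellb
  have hsum2 : ∑ b ∈ I, (A1 * R * Real.exp (3 * e * R) * Real.exp ρ) * Real.exp (-LN b.2) =
      ((J : ℝ) * A * A) * ((A1 * R * Real.exp (3 * e * R) * Real.exp ρ) *
        ∑ T ∈ S2.image (fil 1), Real.exp (-LN T)) := by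
    rw [hI, Finset.sum_product]
    simp only [Finset.sum_const, Finset.card_product, Finset.card_range, nsmul_eq_mul,
      ← Finset.mul_sum]
    push_cast
    ring
  have hsum3 : ∑ T ∈ S2.image (fil 1), Real.exp (-LN T) ≤ Real.exp (e * R) * Q := by
    calc ∑ T ∈ S2.image (fil 1), Real.exp (-LN T) ≤ ∑ T ∈ S2.image (fil 1),
          Real.exp (e * R) * ((1 : ℝ) ^ T.card * Real.exp (-((1 + e) * LN T))) := by
          apply Finset.sum_le_sum
          intro T hT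
          rw [Finset.mem_image] at hT
          obtain ⟨x, hx, rfl⟩ := hT
          have hxS := (hmem x hx).1
          have h1 := hLR x hxS 1
          rw [one_pow, one_mul, ← Real.exp_add]
          apply Real.exp_le_exp.2
          nlinarith
      _ = Real.exp (e * R) *
          ∑ T ∈ S2.image (fil 1), (1 : ℝ) ^ T.card * Real.exp (-((1 + e) * LN T)) := by
          rw [Finset.mul_sum]
      _ ≤ Real.exp (e * R) * Q :=
          mul_le_mul_of_nonneg_left (hrank 1 le_rfl _) (Real.exp_pos _).le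
  have hJle : (J : ℝ) ≤ (1 / lq + 1) * R := by
    have h1 : (J : ℝ) ≤ R / lq + 1 := by
      rw [hJ]
      push_cast
      linarith [Nat.floor_le (div_nonneg hR0 hlq0.le)]
    have : (1 / lq + 1) * R = R / lq + R := by ring
    rw [this]
    linarith
  have hAle : (A : ℝ) ≤ 3 * R := by
    rw [hA]
    push_cast
    linarith [Nat.floor_le hR0]
  have hR4 : R ^ 4 ≤ (8 / ε) ^ 4 * Real.exp (ε / 2 * R) := by
    have h3 : R ≤ 8 / ε * Real.exp (ε / 8 * R) := by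
      have h4 : ε / 8 * R ≤ Real.exp (ε / 8 * R) := by
        linarith [Real.add_one_le_exp (ε / 8 * R)]
      calc R = 8 / ε * (ε / 8 * R) := by field_simp
        _ ≤ 8 / ε * Real.exp (ε / 8 * R) := mul_le_mul_of_nonneg_left h4 (by positivity)
    calc R ^ 4 ≤ (8 / ε * Real.exp (ε / 8 * R)) ^ 4 := pow_le_pow_left₀ hR0 h3 4
      _ = (8 / ε) ^ 4 * Real.exp (ε / 2 * R) := by
        rw [mul_pow, ← Real.exp_nat_mul]
        congr 2
        push_cast
        ring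
  have hJAA : ((J : ℝ) * A * A) * R ≤ (1 / lq + 1) * 9 * R ^ 4 := by
    have hA0 : (0 : ℝ) ≤ A := Nat.cast_nonneg _
    have hl1 : 0 ≤ 1 / lq + 1 := by positivity
    have hAA : (A : ℝ) * A ≤ (3 * R) * (3 * R) := mul_le_mul hAle hAle hA0 (by positivity)
    calc ((J : ℝ) * A * A) * R = (J : ℝ) * ((A : ℝ) * A) * R := by ring
      _ ≤ ((1 / lq + 1) * R) * ((3 * R) * (3 * R)) * R := by
          apply mul_le_mul_of_nonneg_right _ hR0
          exact mul_le_mul hJle hAA (by positivity) (by positivity)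
      _ = (1 / lq + 1) * 9 * R ^ 4 := by ring
  have hc2 : (S2.card : ℝ) ≤ D * Real.exp (ρ + ε * R) := by
    calc (S2.card : ℝ) ≤ ((J : ℝ) * A * A) * ((A1 * R * Real.exp (3 * e * R) * Real.exp ρ) *
          ∑ T ∈ S2.image (fil 1), Real.exp (-LN T)) := by
          rw [← hsum2]; exact hsum1
      _ ≤ ((J : ℝ) * A * A) * ((A1 * R * Real.exp (3 * e * R) * Real.exp ρ) *
          (Real.exp (e * R) * Q)) := by
          apply mul_le_mul_of_nonneg_left _ (by positivity)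
          exact mul_le_mul_of_nonneg_left hsum3 (by positivity)
      _ = (((J : ℝ) * A * A) * R) *
          (A1 * Q * (Real.exp ρ * (Real.exp (3 * e * R) * Real.exp (e * R)))) := by ring
      _ ≤ ((1 / lq + 1) * 9 * ((8 / ε) ^ 4 * Real.exp (ε / 2 * R))) *
          (A1 * Q * (Real.exp ρ * (Real.exp (3 * e * R) * Real.exp (e * R)))) := by
          apply mul_le_mul_of_nonneg_right _ (by positivity)
          refine hJAA.trans ?_
          exact mul_le_mul_of_nonneg_left hR4 (by positivity)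
      _ = D * (Real.exp ρ * ((Real.exp (3 * e * R) * Real.exp (e * R)) *
          Real.exp (ε / 2 * R))) := by rw [hD]; ring
      _ = D * Real.exp (ρ + ε * R) := by
          rw [← Real.exp_add, ← Real.exp_add, ← Real.exp_add]
          congr 2
          rw [he]
          ring
  calc (S.card : ℝ) = (S1.card : ℝ) + (S2.card : ℝ) := hcard
    _ ≤ N0 + D * Real.exp (ρ + ε * R) := add_le_add hc1 hc2
    _ ≤ (1 + N0) * Real.exp (ρ + ε * R) + D * Real.exp (ρ + ε * R) := by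
        have h1 : (N0 : ℝ) ≤ (1 + N0) * Real.exp (ρ + ε * R) := by
          have h2 : (0 : ℝ) ≤ N0 := Nat.cast_nonneg _
          nlinarith
        linarith
    _ = (1 + N0 + D) * Real.exp (ρ + ε * R) := by ring

end Pool.Agent.FPL
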