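import Mathlib
import Pool.Agent.TM2.Defs
import Pool.Agent.TMS.PowCol
import Pool.Agent.TMS.VecCol
import Pool.Agent.TMS.IdAsym
import Pool.Agent.AbcF.Sets
import Pool.Agent.AbcF.Balanced
import Pool.Agent.AbcE.Gap
import Pool.Agent.AbcE.Arch
import Pool.Agent.AbcE.Local

/-!
# Elements of bounded radical and arbitrary height: definitions

`ord v x` (exponent of the finite place `v`), `hgt x` (unnormalised height) are from
`Pool.Agent.H7.Abc.Height`; `ln v = log N v` from `Pool.Agent.AbcE.Defs`; `LN X = ∑ v ∈ X, ln v` from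
`Pool.Agent.AbcF.Defs`; `supp x`, `rad x` from `Pool.Agent.TMS.Defs`; `fs x` (the support as a finite
set), `prt x v` (part: `0` zero of `x`, `1` zero of `x - 1`, `2` pole of `x`), `mlt x v` (multiplicity)
from `Pool.Agent.TM2.Defs`.
-/

namespace Pool.Agent.FPL

open NumberField IsDedekindDomain Pool.Agent.H7.Abc Pool.Agent.AbcE Pool.Agent.TMS Pool.Agent.TM2

/-- The mass of the place `v`: multiplicity times `log N v`. -/
noncomputable def ms {K : Type*} [Field K] [NumberField K] (x : K)
    (v : HeightOneSpectrum (𝓞 K)) : ℝ := (mlt x v : ℝ) * ln v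

/-- The degree of `K` as a real number. -/
noncomputable def dg (K : Type*) [Field K] [NumberField K] : ℝ := (Module.finrank ℚ K : ℝ)

theorem ms_nonneg {K : Type*} [Field K] [NumberField K] (x : K) (v : HeightOneSpectrum (𝓞 K)) :
    0 ≤ ms x v := mul_nonneg (Nat.cast_nonneg _) (ln_pos v).le

theorem one_le_dg (K : Type*) [Field K] [NumberField K] : 1 ≤ dg K := by
  unfold dg
  exact_mod_cast (Nat.succ_le_of_lt (Module.finrank_pos (R := ℚ) (M := K)))

end Pool.Agent.FPL
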