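import Pool.Agent.FPL.Mass

/-!
# DefsG (complete)

`fil i x`: the places of the part `i` (`0` zeros of `x`, `1` zeros of `x - 1`, `2` poles). `ShM P η H a b`: the
masses of `a` and `b` at the places of `P` differ by at most `η H / P.card`. `ShI η H a b`: the same at the
infinite places.
-/

namespace Pool.Agent.FPL

open NumberField IsDedekindDomain Pool.Agent.H7.Abc Pool.Agent.AbcE Pool.Agent.AbcF Pool.Agent.TMS
  Pool.Agent.TM2

variable {K : Type*} [Field K] [NumberField K]

open Classical in
/-- The places of the part `i`. -/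
noncomputable def fil (i : Fin 3) (x : K) : Finset (HeightOneSpectrum (𝓞 K)) :=
  (fs x).filter (fun v => prt x v = i)

/-- The masses of `a` and `b` at the places of `P` differ by at most `η H / P.card`. -/
def ShM (P : Finset (HeightOneSpectrum (𝓞 K))) (η H : ℝ) (a b : K) : Prop :=
  ∀ v ∈ P, |ms a v - ms b v| * (P.card : ℝ) ≤ η * H

/-- The logarithms of `a, b` and of `a - 1, b - 1` at the infinite places differ by at most `η H / d`. -/
def ShI (η H : ℝ) (a b : K) : Prop :=
  ∀ w : InfinitePlace K, (|Real.log (w a) - Real.log (w b)| +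
    |Real.log (w (a - 1)) - Real.log (w (b - 1))|) * dg K ≤ η * H

theorem mem_fil {i : Fin 3} {x : K} {v : HeightOneSpectrum (𝓞 K)} :
    v ∈ fil i x ↔ v ∈ fs x ∧ prt x v = i := by
  classical
  unfold fil
  exact Finset.mem_filter

theorem sum_fil {x : K} (f : HeightOneSpectrum (𝓞 K) → ℝ) :
    ∑ v ∈ fs x, f v = ∑ v ∈ fil 0 x, f v + ∑ v ∈ fil 1 x, f v + ∑ v ∈ fil 2 x, f v := by
  classical
  have h := Finset.sum_fiberwise (fs x) (prt x) f
  rw [Fin.sum_univ_three] at h
  exact h.symm

theorem LN_fil {x : K} (hx : x ≠ 0) (hx1 : x ≠ 1) :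
    rad x = LN (fil 0 x) + LN (fil 1 x) + LN (fil 2 x) := by
  rw [rad_fs hx hx1]
  exact sum_fil _

end Pool.Agent.FPL
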