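import Pool.Agent.FPL.DefsG

/-!
# DefsH (complete)

`SA η H a b`: the elements `a, b` have the same zeros, with masses that differ by at most `η H / card`. `SB`: the same for
the poles. `Cls Z η H T`: the elements of `T` have height in `[H, 2 H]`, ones `Z`, and any two are close at `Z` and at
the infinite places. `Clo W η H a b`: `a, b` are close at the places of `W` and at the infinite places. `Eqo W a b`: the
orders agree outside `W`. `ND q`: the solution `(q.1, q.2, 1 - q.1 - q.2)` of `p₁ + p₂ + p₃ = 1` is nondegenerate.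
-/

namespace Pool.Agent.FPL

open NumberField IsDedekindDomain Pool.Agent.H7.Abc Pool.Agent.AbcE Pool.Agent.AbcF Pool.Agent.TMS
  Pool.Agent.TM2

variable {K : Type*} [Field K] [NumberField K]

/-- The same zeros, close masses. -/
def SA (η H : ℝ) (a b : K) : Prop := fil 0 a = fil 0 b ∧ ShM (fil 0 a) η H a b

/-- The same poles, close masses. -/
def SB (η H : ℝ) (a b : K) : Prop := fil 2 a = fil 2 b ∧ ShM (fil 2 a) η H a b

/-- A class: heights in `[H, 2 H]`, ones `Z`, close at `Z` and at the infinite places. -/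
def Cls (Z : Finset (HeightOneSpectrum (𝓞 K))) (η H : ℝ) (T : Set K) : Prop :=
  (∀ a ∈ T, a ≠ 0 ∧ a ≠ 1 ∧ H ≤ hgt a ∧ hgt a ≤ 2 * H ∧ fil 1 a = Z) ∧
    ∀ a ∈ T, ∀ b ∈ T, ShM Z η H a b ∧ ShI η H a b

/-- Close orders at `W`, close logarithms at the infinite places. -/
def Clo (W : Finset (HeightOneSpectrum (𝓞 K))) (η H : ℝ) (a b : K) : Prop :=
  (∀ v ∈ W, |(ord v a : ℝ) - ord v b| * ln v * (W.card : ℝ) ≤ η * H) ∧
    ∀ w : InfinitePlace K, |Real.log (w a) - Real.log (w b)| * dg K ≤ η * H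

/-- The same orders outside `W`. -/
def Eqo (W : Finset (HeightOneSpectrum (𝓞 K))) (a b : K) : Prop := ∀ v, v ∉ W → ord v a = ord v b

/-- A nondegenerate solution of `p₁ + p₂ + p₃ = 1`. -/
def ND (q : K × K) : Prop :=
  q.1 ≠ 0 ∧ q.2 ≠ 0 ∧ 1 - q.1 - q.2 ≠ 0 ∧ q.1 ≠ 1 ∧ q.2 ≠ 1 ∧ q.1 + q.2 ≠ 0

end Pool.Agent.FPL
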