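import Pool.Agent.FPL.DefsH

/-!
# EightG (size 4): octagons give exact relations

Copy of `SixG` (complete: `fpl_SixG.lean` in the store, helper45) with eight elements. `d = dg K`. Put `y = x1 * x3 * (y2 * y4) / (x2 * x4 * (y1 * y3))` and suppose `y ≠ 1`. Vertices: `A = fil 0 x1 = fil 0 y1`, `A1 = fil 0 x2 = fil 0 x3`, `A2 = fil 0 x4 = fil 0 y4`,
`A3 = fil 0 y2 = fil 0 y3`, `B1 = fil 2 x1 = fil 2 x2`, `B2 = fil 2 x3 = fil 2 x4`, `B3 = fil 2 y1 = fil 2 y2`, `B4 = fil 2 y3 = fil 2 y4`. For every `v`: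
`ord v y * ln v = [A] (ms x1 - ms y1) + [A1] (ms x3 - ms x2) + [A2] (ms y4 - ms x4) + [A3] (ms y2 - ms y3) - [B1] (ms x1 - ms x2) - [B2] (ms x3 - ms x4) - [B3] (ms y2 - ms y1) - [B4] (ms y4 - ms y3)`, so the sum of `|ord v y| ln v` is `≤ 8 η H`, the infinite places give
`≤ 4 η H` (`ShI` for the pairs `(x1, y1), (x3, x2), (y4, x4), (y2, y3)`), `hgt y ≤ 12 η H`. Closeness at `Z`: as in `SixG` (products of four). Infinite `w`: `log w (y - 1) ≤ log 32 - ℓ w + log (max 1 (w y))`: if `exp (-ℓ w) > 1/16`: `w (y - 1) ≤ 2 max 1 (w y)`; otherwise all eight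
`w (a - 1) ≤ e := exp (-ℓ w) ≤ 1/16`, the numerator of `y - 1` is `≤ 2 ((1 + e)^4 - 1) ≤ 9 e`, the denominator `≥ (15/16)^4 ≥ 3/4`. Product formula: `(1 - 2 η) H - d log 2 ≤ 5 d log 2 + 12 η H`, `(1 - 14 η) H ≤ 6 d log 2`: contradiction (`η ≤ 1/64`, `H ≥ 32 d log 2`).
(If the form of the proof of `SixG` is different, follow it; there is room in the constants.)
-/

namespace Pool.Agent.FPL

open NumberField IsDedekindDomain Pool.Agent.H7.Abc Pool.Agent.AbcE Pool.Agent.AbcF Pool.Agent.TMS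
  Pool.Agent.TM2

section eightHelpers

variable {K : Type*} [Field K] [NumberField K]

open Classical in
/-- mass of a zero -/
private noncomputable def e8z (a : K) (v : HeightOneSpectrum (𝓞 K)) : ℝ :=
  if v ∈ fil 0 a then ms a v else 0

open Classical in
/-- mass of a pole -/
private noncomputable def e8p (a : K) (v : HeightOneSpectrum (𝓞 K)) : ℝ :=
  if v ∈ fil 2 a then ms a v else 0

private theorem e8_log {a : K} (ha : a ≠ 0) (ha1 : a ≠ 1) (v : HeightOneSpectrum (𝓞 K)) :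
    Real.log (FinitePlace.mk v a) = e8p a v - e8z a v := by
  have l1 := log_mk v ha
  have hln : Real.log (Ideal.absNorm v.asIdeal : ℝ) = ln v := rfl
  rw [hln] at l1
  have hm : ms a v = ((mlt a v : ℤ) : ℝ) * ln v := by
    unfold ms
    push_cast
    ring
  unfold e8z e8p
  by_cases hv : v ∈ fs a
  · have h3 : ∀ i : Fin 3, i = 0 ∨ i = 1 ∨ i = 2 := by decide
    rcases h3 (prt a v) with e | e | e
    · have h0 : v ∈ fil 0 a := mem_fil.2 ⟨hv, e⟩
      have h2 : v ∉ fil 2 a := fun h => by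
        rw [(mem_fil.1 h).2] at e
        exact absurd e (by decide)
      rw [if_pos h0, if_neg h2, hm, (mlt_zero ha ha1 e).1, l1]
      ring
    · have h0 : v ∉ fil 0 a := fun h => by
        rw [(mem_fil.1 h).2] at e
        exact absurd e (by decide)
      have h2 : v ∉ fil 2 a := fun h => by
        rw [(mem_fil.1 h).2] at e
        exact absurd e (by decide)
      rw [if_neg h0, if_neg h2, l1, (mlt_one ha ha1 e).2]
      simp
    · have h0 : v ∉ fil 0 a := fun h => by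
        rw [(mem_fil.1 h).2] at e
        exact absurd e (by decide)
      have h2 : v ∈ fil 2 a := mem_fil.2 ⟨hv, e⟩
      rw [if_neg h0, if_pos h2, hm, (mlt_two ha ha1 e).1, l1]
      push_cast
      ring
  · have h0 : v ∉ fil 0 a := fun h => hv (mem_fil.1 h).1
    have h2 : v ∉ fil 2 a := fun h => hv (mem_fil.1 h).1
    rw [mem_fs ha ha1] at hv
    push Not at hv
    rw [if_neg h0, if_neg h2, l1, hv.1]
    simp

private theorem e8_sum_le {α : Type*} (P : Finset α) (f : α → ℝ) (c : ℝ) (hc : 0 ≤ c)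
    (h : ∀ v ∈ P, f v * (P.card : ℝ) ≤ c) : ∑ v ∈ P, f v ≤ c := by
  rcases P.eq_empty_or_nonempty with h0 | h0
  · rw [h0, Finset.sum_empty]
    exact hc
  · have hp : (0 : ℝ) < P.card := by exact_mod_cast Finset.card_pos.2 h0
    have h1 : (∑ v ∈ P, f v) * (P.card : ℝ) ≤ c * (P.card : ℝ) := by
      rw [Finset.sum_mul]
      calc ∑ v ∈ P, f v * (P.card : ℝ) ≤ ∑ _v ∈ P, c := Finset.sum_le_sum h
        _ = c * (P.card : ℝ) := by rw [Finset.sum_const, nsmul_eq_mul, mul_comm]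
    exact le_of_mul_le_mul_right h1 hp

private theorem e8_sumz {a b : K} {η H : ℝ} (hc : 0 ≤ η * H) (h : SA η H a b)
    (B : Finset (HeightOneSpectrum (𝓞 K))) : ∑ v ∈ B, |e8z a v - e8z b v| ≤ η * H := by
  classical
  obtain ⟨h1, h2⟩ := h
  have e : ∀ v ∈ B, |e8z a v - e8z b v| =
      if v ∈ fil 0 a then |ms a v - ms b v| else 0 := by
    intro v _
    unfold e8z
    rw [← h1]
    by_cases hv : v ∈ fil 0 a
    · simp only [if_pos hv]
    · simp only [if_neg hv, sub_self, abs_zero]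
  rw [Finset.sum_congr rfl e, ← Finset.sum_filter]
  calc ∑ v ∈ B.filter (fun v => v ∈ fil 0 a), |ms a v - ms b v|
      ≤ ∑ v ∈ fil 0 a, |ms a v - ms b v| :=
        Finset.sum_le_sum_of_subset_of_nonneg (fun v hv => (Finset.mem_filter.1 hv).2)
          fun v _ _ => abs_nonneg _
    _ ≤ η * H := e8_sum_le _ _ _ hc h2

private theorem e8_sump {a b : K} {η H : ℝ} (hc : 0 ≤ η * H) (h : SB η H a b)
    (B : Finset (HeightOneSpectrum (𝓞 K))) : ∑ v ∈ B, |e8p a v - e8p b v| ≤ η * H := by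
  classical
  obtain ⟨h1, h2⟩ := h
  have e : ∀ v ∈ B, |e8p a v - e8p b v| =
      if v ∈ fil 2 a then |ms a v - ms b v| else 0 := by
    intro v _
    unfold e8p
    rw [← h1]
    by_cases hv : v ∈ fil 2 a
    · simp only [if_pos hv]
    · simp only [if_neg hv, sub_self, abs_zero]
  rw [Finset.sum_congr rfl e, ← Finset.sum_filter]
  calc ∑ v ∈ B.filter (fun v => v ∈ fil 2 a), |ms a v - ms b v|
      ≤ ∑ v ∈ fil 2 a, |ms a v - ms b v| :=
        Finset.sum_le_sum_of_subset_of_nonneg (fun v hv => (Finset.mem_filter.1 hv).2)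
          fun v _ _ => abs_nonneg _
    _ ≤ η * H := e8_sum_le _ _ _ hc h2

/-- the product of four elements near `1`, ultrametric -/
private theorem e8_um (v : HeightOneSpectrum (𝓞 K)) {a b c d : K} {e : ℝ}
    (hb : FinitePlace.mk v b = 1) (hc : FinitePlace.mk v c = 1) (hd : FinitePlace.mk v d = 1)
    (ha1 : FinitePlace.mk v (a - 1) ≤ e) (hb1 : FinitePlace.mk v (b - 1) ≤ e)
    (hc1 : FinitePlace.mk v (c - 1) ≤ e) (hd1 : FinitePlace.mk v (d - 1) ≤ e) :
    FinitePlace.mk v (a * b * (c * d) - 1) ≤ e := by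
  have h : a * b * (c * d) - 1 =
      (((a - 1) * b * (c * d) + (b - 1) * (c * d)) + (c - 1) * d) + (d - 1) := by ring
  rw [h]
  refine (mk_sub_le_max v _ _).trans (max_le ((mk_sub_le_max v _ _).trans (max_le
    ((mk_sub_le_max v _ _).trans (max_le ?_ ?_)) ?_)) hd1)
  · rw [map_mul, map_mul, map_mul, hb, hc, hd, mul_one, mul_one, mul_one]
    exact ha1
  · rw [map_mul, map_mul, hc, hd, mul_one, mul_one]
    exact hb1
  · rw [map_mul, hd, mul_one]
    exact hc1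

private theorem e8_wadd (w : InfinitePlace K) (s t : K) : w (s + t) ≤ w s + w t := by
  rw [← InfinitePlace.norm_embedding_eq w, ← InfinitePlace.norm_embedding_eq w,
    ← InfinitePlace.norm_embedding_eq w, map_add]
  exact norm_add_le _ _

private theorem e8_wsub (w : InfinitePlace K) (s t : K) : w (s - t) ≤ w s + w t := by
  rw [← InfinitePlace.norm_embedding_eq w, ← InfinitePlace.norm_embedding_eq w,
    ← InfinitePlace.norm_embedding_eq w, map_sub]
  exact norm_sub_le _ _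

private theorem e8_near (w : InfinitePlace K) {a : K} {e : ℝ} (he : e ≤ 1 / 8)
    (ha : w (a - 1) ≤ e) : w a ≤ 9 / 8 ∧ 7 / 8 ≤ w a := by
  have h1 := e8_wadd w (a - 1) 1
  rw [sub_add_cancel, map_one] at h1
  have h2 := e8_wsub w a (a - 1)
  rw [sub_sub_cancel, map_one] at h2
  constructor <;> linarith

/-- the product of four elements near `1`, archimedean -/
private theorem e8_ar (w : InfinitePlace K) {a b c d : K} {e : ℝ} (he0 : 0 ≤ e) (he : e ≤ 1 / 8)
    (ha1 : w (a - 1) ≤ e) (hb1 : w (b - 1) ≤ e) (hc1 : w (c - 1) ≤ e) (hd1 : w (d - 1) ≤ e) :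
    w (a * b * (c * d) - 1) ≤ 2465 / 512 * e := by
  have h : a * b * (c * d) - 1 =
      (((a - 1) * b * (c * d) + (b - 1) * (c * d)) + (c - 1) * d) + (d - 1) := by ring
  obtain ⟨hb, _⟩ := e8_near w he hb1
  obtain ⟨hc, _⟩ := e8_near w he hc1
  obtain ⟨hd, _⟩ := e8_near w he hd1
  have n1 : 0 ≤ w (a - 1) := apply_nonneg w _
  have n2 : 0 ≤ w b := apply_nonneg w _
  have n3 : 0 ≤ w c := apply_nonneg w _
  have n4 : 0 ≤ w d := apply_nonneg w _
  have n5 : 0 ≤ w (b - 1) := apply_nonneg w _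
  have h0 := e8_wadd w (((a - 1) * b * (c * d) + (b - 1) * (c * d)) + (c - 1) * d) (d - 1)
  have h1 := e8_wadd w ((a - 1) * b * (c * d) + (b - 1) * (c * d)) ((c - 1) * d)
  have h2 := e8_wadd w ((a - 1) * b * (c * d)) ((b - 1) * (c * d))
  have hcd : w c * w d ≤ 9 / 8 * (9 / 8) := mul_le_mul hc hd n4 (by norm_num)
  have hcd0 : 0 ≤ w c * w d := mul_nonneg n3 n4
  have h3 : w ((a - 1) * b * (c * d)) ≤ 729 / 512 * e := by
    rw [map_mul, map_mul, map_mul]
    calc w (a - 1) * w b * (w c * w d) ≤ e * (9 / 8) * (9 / 8 * (9 / 8)) :=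
          mul_le_mul (mul_le_mul ha1 hb n2 he0) hcd hcd0 (by positivity)
      _ = 729 / 512 * e := by ring
  have h4 : w ((b - 1) * (c * d)) ≤ 81 / 64 * e := by
    rw [map_mul, map_mul]
    calc w (b - 1) * (w c * w d) ≤ e * (9 / 8 * (9 / 8)) := mul_le_mul hb1 hcd hcd0 he0
      _ = 81 / 64 * e := by ring
  have h5 : w ((c - 1) * d) ≤ 9 / 8 * e := by
    rw [map_mul]
    calc w (c - 1) * w d ≤ e * (9 / 8) := mul_le_mul hc1 hd n4 he0
      _ = 9 / 8 * e := by ring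
  rw [h]
  linarith

/-- The infinite places. -/
private theorem e8_inf (w : InfinitePlace K) {x1 x2 x3 x4 y1 y2 y3 y4 : K} (h1 : x1 ≠ 0)
    (h2 : x2 ≠ 0) (h3 : x3 ≠ 0) (h4 : x4 ≠ 0) (g1 : y1 ≠ 0) (g2 : y2 ≠ 0) (g3 : y3 ≠ 0)
    (g4 : y4 ≠ 0) (hz : x1 * x3 * (y2 * y4) - x2 * x4 * (y1 * y3) ≠ 0) (ℓ : ℝ)
    (hl : 0 < ℓ → (w (x1 - 1) ≤ Real.exp (-ℓ) ∧ w (x2 - 1) ≤ Real.exp (-ℓ) ∧
      w (x3 - 1) ≤ Real.exp (-ℓ) ∧ w (x4 - 1) ≤ Real.exp (-ℓ)) ∧
      w (y1 - 1) ≤ Real.exp (-ℓ) ∧ w (y2 - 1) ≤ Real.exp (-ℓ) ∧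
      w (y3 - 1) ≤ Real.exp (-ℓ) ∧ w (y4 - 1) ≤ Real.exp (-ℓ)) :
    Real.log (w (x1 * x3 * (y2 * y4) - x2 * x4 * (y1 * y3))) ≤ Real.log (w (x2 * x4 * (y1 * y3))) +
      Real.log 32 - ℓ +
      max 0 (Real.log (w (x1 * x3 * (y2 * y4))) - Real.log (w (x2 * x4 * (y1 * y3)))) := by
  have hN : x1 * x3 * (y2 * y4) ≠ 0 := mul_ne_zero (mul_ne_zero h1 h3) (mul_ne_zero g2 g4)
  have hM : x2 * x4 * (y1 * y3) ≠ 0 := mul_ne_zero (mul_ne_zero h2 h4) (mul_ne_zero g1 g3)
  have pN : 0 < w (x1 * x3 * (y2 * y4)) := InfinitePlace.pos_iff.2 hN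
  have pM : 0 < w (x2 * x4 * (y1 * y3)) := InfinitePlace.pos_iff.2 hM
  have pz : 0 < w (x1 * x3 * (y2 * y4) - x2 * x4 * (y1 * y3)) := InfinitePlace.pos_iff.2 hz
  have hlog16 : Real.log 32 = Real.log 8 + Real.log 2 + Real.log 2 := by
    rw [← Real.log_mul (by norm_num) (by norm_num), ← Real.log_mul (by norm_num) (by norm_num)]
    norm_num
  have hlog2 : 0 < Real.log 2 := Real.log_pos (by norm_num)
  rcases le_or_gt (Real.log 8) ℓ with hc | hc
  · have hl0 : 0 < ℓ := lt_of_lt_of_le (Real.log_pos (by norm_num)) hc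
    obtain ⟨⟨a1, a2, a3, a4⟩, b1, b2, b3, b4⟩ := hl hl0
    set e := Real.exp (-ℓ) with he
    have he0 : 0 < e := Real.exp_pos _
    have he8 : e ≤ 1 / 8 := by
      rw [he, show (1 / 8 : ℝ) = Real.exp (-Real.log 8) by
        rw [Real.exp_neg, Real.exp_log (by norm_num)]; norm_num]
      exact Real.exp_le_exp.2 (by linarith)
    have c1 := e8_ar w he0.le he8 a1 a3 b2 b4
    have c2 := e8_ar w he0.le he8 a2 a4 b1 b3
    have c3 := e8_wsub w (x1 * x3 * (y2 * y4) - 1) (x2 * x4 * (y1 * y3) - 1)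
    rw [sub_sub_sub_cancel_right] at c3
    have c4 : w (x1 * x3 * (y2 * y4) - x2 * x4 * (y1 * y3)) ≤ 16 * e := by linarith
    have c5 : 1 / 2 ≤ w (x2 * x4 * (y1 * y3)) := by
      rw [map_mul, map_mul, map_mul]
      have d1 := (e8_near w he8 a2).2
      have d2 := (e8_near w he8 a4).2
      have d3 := (e8_near w he8 b1).2
      have d4 := (e8_near w he8 b3).2
      have d5 : 7 / 8 * (7 / 8) ≤ w x2 * w x4 := mul_le_mul d1 d2 (by norm_num) (by linarith)
      have d6 : 7 / 8 * (7 / 8) ≤ w y1 * w y3 := mul_le_mul d3 d4 (by norm_num) (by linarith)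
      calc (1 / 2 : ℝ) ≤ 7 / 8 * (7 / 8) * (7 / 8 * (7 / 8)) := by norm_num
        _ ≤ w x2 * w x4 * (w y1 * w y3) :=
            mul_le_mul d5 d6 (by norm_num) (by linarith)
    have c6 : Real.log (w (x1 * x3 * (y2 * y4) - x2 * x4 * (y1 * y3))) ≤ Real.log 16 - ℓ := by
      have := Real.log_le_log pz c4
      rw [Real.log_mul (by norm_num) he0.ne', he, Real.log_exp] at this
      linarith
    have c7 : -Real.log 2 ≤ Real.log (w (x2 * x4 * (y1 * y3))) := by
      have := Real.log_le_log (by norm_num) c5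
      rwa [one_div, Real.log_inv] at this
    have c8 : Real.log 16 = Real.log 8 + Real.log 2 := by
      rw [← Real.log_mul (by norm_num) (by norm_num)]
      norm_num
    have c9 : 0 ≤ max 0 (Real.log (w (x1 * x3 * (y2 * y4))) - Real.log (w (x2 * x4 * (y1 * y3)))) :=
      le_max_left _ _
    linarith
  · have c3 := e8_wsub w (x1 * x3 * (y2 * y4)) (x2 * x4 * (y1 * y3))
    rcases le_total (w (x1 * x3 * (y2 * y4))) (w (x2 * x4 * (y1 * y3))) with h | h
    · have c4 : w (x1 * x3 * (y2 * y4) - x2 * x4 * (y1 * y3)) ≤ 2 * w (x2 * x4 * (y1 * y3)) := by linarith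
      have c5 := Real.log_le_log pz c4
      rw [Real.log_mul (by norm_num) pM.ne'] at c5
      have c9 : 0 ≤ max 0 (Real.log (w (x1 * x3 * (y2 * y4))) - Real.log (w (x2 * x4 * (y1 * y3)))) :=
        le_max_left _ _
      linarith
    · have c4 : w (x1 * x3 * (y2 * y4) - x2 * x4 * (y1 * y3)) ≤ 2 * w (x1 * x3 * (y2 * y4)) := by linarith
      have c5 := Real.log_le_log pz c4
      rw [Real.log_mul (by norm_num) pN.ne'] at c5
      have c9 := le_max_right 0 (Real.log (w (x1 * x3 * (y2 * y4))) - Real.log (w (x2 * x4 * (y1 * y3))))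
      linarith

end eightHelpers

theorem eight_g {K : Type*} [Field K] [NumberField K]
    (Z : Finset (HeightOneSpectrum (𝓞 K))) (T : Set K) (H η : ℝ) (hη : 0 < η) (hη1 : η ≤ 1 / 64)
    (hH : 32 * (dg K * Real.log 2) ≤ H) (hH0 : 0 < H) (hT : Cls Z η H T)
    (x1 x2 x3 x4 y1 y2 y3 y4 : K) (hx1 : x1 ∈ T) (hx2 : x2 ∈ T) (hx3 : x3 ∈ T) (hx4 : x4 ∈ T)
    (hy1 : y1 ∈ T) (hy2 : y2 ∈ T) (hy3 : y3 ∈ T) (hy4 : y4 ∈ T)
    (hA : SA η H x1 y1) (hA1 : SA η H x2 x3) (hA2 : SA η H x4 y4) (hA3 : SA η H y2 y3)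
    (hB1 : SB η H x1 x2) (hB2 : SB η H x3 x4) (hB3 : SB η H y1 y2) (hB4 : SB η H y3 y4) :
    x1 * x3 * (y2 * y4) = x2 * x4 * (y1 * y3) := by
  classical
  by_contra hne
  have hz : x1 * x3 * (y2 * y4) - x2 * x4 * (y1 * y3) ≠ 0 := sub_ne_zero.2 hne
  obtain ⟨hT1, hT2⟩ := hT
  have hc : 0 ≤ η * H := by positivity
  have hd : 0 < dg K := by linarith [one_le_dg K]
  obtain ⟨n1, m1, k1, -, z1⟩ := hT1 x1 hx1
  obtain ⟨n2, m2, -, -, -⟩ := hT1 x2 hx2
  obtain ⟨n3, m3, -, -, -⟩ := hT1 x3 hx3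
  obtain ⟨n4, m4, -, -, -⟩ := hT1 x4 hx4
  obtain ⟨p1, q1, -, -, -⟩ := hT1 y1 hy1
  obtain ⟨p2, q2, -, -, -⟩ := hT1 y2 hy2
  obtain ⟨p3, q3, -, -, -⟩ := hT1 y3 hy3
  obtain ⟨p4, q4, -, -, -⟩ := hT1 y4 hy4
  have hN : x1 * x3 * (y2 * y4) ≠ 0 := mul_ne_zero (mul_ne_zero n1 n3) (mul_ne_zero p2 p4)
  have hM : x2 * x4 * (y1 * y3) ≠ 0 := mul_ne_zero (mul_ne_zero n2 n4) (mul_ne_zero p1 p3)
  set B := (finite_support hz).toFinset ∪ (finite_support hM).toFinset ∪ Z with hBdef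
  have hBz : ∀ v, FinitePlace.mk v (x1 * x3 * (y2 * y4) - x2 * x4 * (y1 * y3)) ≠ 1 → v ∈ B := by
    intro v hv
    simp only [hBdef, Finset.mem_union, Set.Finite.mem_toFinset, Set.mem_ofPred_eq]
    tauto
  have hBM : ∀ v, FinitePlace.mk v (x2 * x4 * (y1 * y3)) ≠ 1 → v ∈ B := by
    intro v hv
    simp only [hBdef, Finset.mem_union, Set.Finite.mem_toFinset, Set.mem_ofPred_eq]
    tauto
  have hZB : Z ⊆ B := fun v hv => by
    simp only [hBdef, Finset.mem_union]
    exact Or.inr hv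
  have Pz := gap_prod hz B hBz
  have PM := gap_prod hM B hBM
  have hmul : ∑ w : InfinitePlace K, (w.mult : ℝ) = dg K := by
    unfold dg
    rw [← InfinitePlace.sum_mult_eq, Nat.cast_sum]
  -- elements of `T` at `Z`
  have hZa : ∀ a ∈ T, ∀ v ∈ Z, FinitePlace.mk v a = 1 ∧
      FinitePlace.mk v (a - 1) ≤ Real.exp (-(ms x1 v - η * H / (Z.card : ℝ))) := by
    intro a ha v hv
    obtain ⟨a0, a1, -, -, az⟩ := hT1 a ha
    have hv1 : v ∈ fil 1 a := by rw [az]; exact hv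
    obtain ⟨e1, e2⟩ := mlt_one a0 a1 (mem_fil.1 hv1).2
    have hZc : (0 : ℝ) < Z.card := by exact_mod_cast Finset.card_pos.2 ⟨v, hv⟩
    refine ⟨(ord_eq_zero_iff v a0).1 e2, ?_⟩
    have a1' : a - 1 ≠ 0 := sub_ne_zero.2 a1
    rw [← Real.exp_log (FinitePlace.pos_iff.2 a1'), Real.exp_le_exp, log_mk v a1', ← e1]
    have h5 : -(((mlt a v : ℤ) : ℝ)) * Real.log (Ideal.absNorm v.asIdeal : ℝ) = -ms a v := by
      unfold ms ln
      push_cast
      ring
    rw [h5, neg_le_neg_iff]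
    have h6 := (hT2 x1 hx1 a ha).1 v hv
    rw [← le_div_iff₀ hZc] at h6
    have := le_abs_self (ms x1 v - ms a v)
    linarith
  -- finite places
  have F1 : ∀ v ∈ B, Real.log (FinitePlace.mk v (x1 * x3 * (y2 * y4) - x2 * x4 * (y1 * y3))) ≤
      Real.log (FinitePlace.mk v (x2 * x4 * (y1 * y3))) +
      ((|e8z x1 v - e8z y1 v| + |e8z x2 v - e8z x3 v| + |e8z x4 v - e8z y4 v| +
        |e8z y2 v - e8z y3 v|) + (|e8p x1 v - e8p x2 v| + |e8p x3 v - e8p x4 v| +
        |e8p y1 v - e8p y2 v| + |e8p y3 v - e8p y4 v|)) -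
      (if v ∈ Z then ms x1 v - η * H / (Z.card : ℝ) else 0) := by
    intro v _
    have pz : 0 < FinitePlace.mk v (x1 * x3 * (y2 * y4) - x2 * x4 * (y1 * y3)) := FinitePlace.pos_iff.2 hz
    have pN : 0 < FinitePlace.mk v (x1 * x3 * (y2 * y4)) := FinitePlace.pos_iff.2 hN
    have pM : 0 < FinitePlace.mk v (x2 * x4 * (y1 * y3)) := FinitePlace.pos_iff.2 hM
    have hnn : 0 ≤ (|e8z x1 v - e8z y1 v| + |e8z x2 v - e8z x3 v| + |e8z x4 v - e8z y4 v| +
        |e8z y2 v - e8z y3 v|) + (|e8p x1 v - e8p x2 v| + |e8p x3 v - e8p x4 v| +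
        |e8p y1 v - e8p y2 v| + |e8p y3 v - e8p y4 v|) := by
      positivity
    by_cases hv : v ∈ Z
    · rw [if_pos hv]
      obtain ⟨a1, b1⟩ := hZa x1 hx1 v hv
      obtain ⟨a2, b2⟩ := hZa x2 hx2 v hv
      obtain ⟨a3, b3⟩ := hZa x3 hx3 v hv
      obtain ⟨a4, b4⟩ := hZa x4 hx4 v hv
      obtain ⟨c1, d1⟩ := hZa y1 hy1 v hv
      obtain ⟨c2, d2⟩ := hZa y2 hy2 v hv
      obtain ⟨c3, d3⟩ := hZa y3 hy3 v hv
      obtain ⟨c4, d4⟩ := hZa y4 hy4 v hv
      have e1 := e8_um v a3 c2 c4 b1 b3 d2 d4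
      have e2 := e8_um v a4 c1 c3 b2 b4 d1 d3
      have e3 := fp_sub_le (FinitePlace.mk v) (x1 * x3 * (y2 * y4) - 1) (x2 * x4 * (y1 * y3) - 1)
      rw [sub_sub_sub_cancel_right] at e3
      have e4 := e3.trans (max_le e1 e2)
      have e5 := Real.log_le_log pz e4
      rw [Real.log_exp] at e5
      have e6 : Real.log (FinitePlace.mk v (x2 * x4 * (y1 * y3))) = 0 := by
        rw [map_mul, map_mul, map_mul, a2, a4, c1, c3]
        simp
      linarith
    · rw [if_neg hv, sub_zero]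
      have e3 := fp_sub_le (FinitePlace.mk v) (x1 * x3 * (y2 * y4)) (x2 * x4 * (y1 * y3))
      have f4 : ∀ a b c d : K, a ≠ 0 → a ≠ 1 → b ≠ 0 → b ≠ 1 → c ≠ 0 → c ≠ 1 → d ≠ 0 → d ≠ 1 →
          Real.log (FinitePlace.mk v (a * b * (c * d))) =
          (e8p a v - e8z a v) + (e8p b v - e8z b v) + ((e8p c v - e8z c v) +
            (e8p d v - e8z d v)) := by
        intro a b c d a0 a1 b0 b1 c0 c1 d0 d1
        have pa := FinitePlace.pos_iff (w := FinitePlace.mk v).2 a0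
        have pb := FinitePlace.pos_iff (w := FinitePlace.mk v).2 b0
        have pc := FinitePlace.pos_iff (w := FinitePlace.mk v).2 c0
        have pd := FinitePlace.pos_iff (w := FinitePlace.mk v).2 d0
        rw [map_mul, map_mul, map_mul, Real.log_mul (mul_pos pa pb).ne' (mul_pos pc pd).ne',
          Real.log_mul pa.ne' pb.ne', Real.log_mul pc.ne' pd.ne', e8_log a0 a1, e8_log b0 b1,
          e8_log c0 c1, e8_log d0 d1]
      have lN := f4 x1 x3 y2 y4 n1 m1 n3 m3 p2 q2 p4 q4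
      have lM := f4 x2 x4 y1 y3 n2 m2 n4 m4 p1 q1 p3 q3
      rcases le_max_iff.1 e3 with h | h
      · have h1 := Real.log_le_log pz h
        have t1 := neg_abs_le (e8z x1 v - e8z y1 v)
        have t2 := le_abs_self (e8z x2 v - e8z x3 v)
        have t3 := le_abs_self (e8z x4 v - e8z y4 v)
        have t4 := neg_abs_le (e8z y2 v - e8z y3 v)
        have t5 := le_abs_self (e8p x1 v - e8p x2 v)
        have t6 := le_abs_self (e8p x3 v - e8p x4 v)
        have t7 := neg_abs_le (e8p y1 v - e8p y2 v)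
        have t8 := neg_abs_le (e8p y3 v - e8p y4 v)
        rw [lN] at h1
        rw [lM]
        linarith
      · have h1 := Real.log_le_log pz h
        linarith
  -- infinite places
  set ℓ : InfinitePlace K → ℝ := fun w =>
    max 0 (-Real.log (w (x1 - 1)) - η * H / dg K) with hℓ
  have hI : ∀ a ∈ T, ∀ b ∈ T, ∀ w : InfinitePlace K,
      Real.log (w a) ≤ Real.log (w b) + η * H / dg K ∧
      Real.log (w (a - 1)) ≤ Real.log (w (b - 1)) + η * H / dg K := by
    intro a ha b hb w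
    have h := (hT2 a ha b hb).2 w
    rw [← le_div_iff₀ hd] at h
    have t1 := le_abs_self (Real.log (w a) - Real.log (w b))
    have t2 := le_abs_self (Real.log (w (a - 1)) - Real.log (w (b - 1)))
    have t3 := abs_nonneg (Real.log (w a) - Real.log (w b))
    have t4 := abs_nonneg (Real.log (w (a - 1)) - Real.log (w (b - 1)))
    constructor <;> linarith
  have I1 : ∀ w : InfinitePlace K, Real.log (w (x1 * x3 * (y2 * y4) - x2 * x4 * (y1 * y3))) ≤
      Real.log (w (x2 * x4 * (y1 * y3))) + Real.log 32 - ℓ w + 4 * (η * H / dg K) := by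
    intro w
    have hl : 0 < ℓ w → ∀ a ∈ T, w (a - 1) ≤ Real.exp (-ℓ w) := by
      intro hl a ha
      obtain ⟨a0, a1, -, -, -⟩ := hT1 a ha
      have a1' : a - 1 ≠ 0 := sub_ne_zero.2 a1
      rw [← Real.exp_log (InfinitePlace.pos_iff.2 a1' : 0 < w (a - 1)), Real.exp_le_exp]
      have h1 := (hI a ha x1 hx1 w).2
      have h2 : ℓ w = -Real.log (w (x1 - 1)) - η * H / dg K := by
        rw [hℓ] at hl ⊢
        rcases lt_max_iff.1 hl with h | h
        · exact absurd h (lt_irrefl _)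
        · exact max_eq_right h.le
      linarith
    have h := e8_inf w n1 n2 n3 n4 p1 p2 p3 p4 hz (ℓ w) (fun h0 => ⟨⟨hl h0 x1 hx1, hl h0 x2 hx2,
      hl h0 x3 hx3, hl h0 x4 hx4⟩, hl h0 y1 hy1, hl h0 y2 hy2, hl h0 y3 hy3, hl h0 y4 hy4⟩)
    have hm : max 0 (Real.log (w (x1 * x3 * (y2 * y4))) - Real.log (w (x2 * x4 * (y1 * y3)))) ≤
        4 * (η * H / dg K) := by
      refine max_le (by positivity) ?_
      have t1 := (hI x1 hx1 y1 hy1 w).1
      have t2 := (hI x3 hx3 x2 hx2 w).1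
      have t3 := (hI y2 hy2 y3 hy3 w).1
      have t4 := (hI y4 hy4 x4 hx4 w).1
      have f4 : ∀ a b c d : K, a ≠ 0 → b ≠ 0 → c ≠ 0 → d ≠ 0 →
          Real.log (w (a * b * (c * d))) =
          Real.log (w a) + Real.log (w b) + (Real.log (w c) + Real.log (w d)) := by
        intro a b c d a0 b0 c0 d0
        have pa : 0 < w a := InfinitePlace.pos_iff.2 a0
        have pb : 0 < w b := InfinitePlace.pos_iff.2 b0
        have pc : 0 < w c := InfinitePlace.pos_iff.2 c0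
        have pd : 0 < w d := InfinitePlace.pos_iff.2 d0
        rw [map_mul, map_mul, map_mul, Real.log_mul (mul_pos pa pb).ne' (mul_pos pc pd).ne',
          Real.log_mul pa.ne' pb.ne', Real.log_mul pc.ne' pd.ne']
      rw [f4 x1 x3 y2 y4 n1 n3 p2 p4, f4 x2 x4 y1 y3 n2 n4 p1 p3]
      linarith
    linarith
  have S1 := Finset.sum_le_sum F1
  have S2 : ∑ w : InfinitePlace K, (w.mult : ℝ) * Real.log (w (x1 * x3 * (y2 * y4) - x2 * x4 * (y1 * y3))) ≤
      ∑ w : InfinitePlace K, (w.mult : ℝ) * (Real.log (w (x2 * x4 * (y1 * y3))) + Real.log 32 - ℓ w +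
        4 * (η * H / dg K)) :=
    Finset.sum_le_sum fun w _ => mul_le_mul_of_nonneg_left (I1 w) (Nat.cast_nonneg _)
  simp only [mul_add, mul_sub, Finset.sum_add_distrib, Finset.sum_sub_distrib] at S1 S2
  rw [← Finset.sum_mul, ← Finset.sum_mul, hmul] at S2
  have e1 : dg K * (4 * (η * H / dg K)) = 4 * (η * H) := by field_simp
  rw [e1] at S2
  have t1 := e8_sumz hc hA B
  have t2 := e8_sumz hc hA1 B
  have t3 := e8_sumz hc hA2 B
  have t4 := e8_sumz hc hA3 B
  have t5 := e8_sump hc hB1 B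
  have t6 := e8_sump hc hB2 B
  have t7 := e8_sump hc hB3 B
  have t8 := e8_sump hc hB4 B
  have e2 : ∑ v ∈ Z, ms x1 v - η * H ≤
      ∑ v ∈ B, (if v ∈ Z then ms x1 v - η * H / (Z.card : ℝ) else 0) := by
    rw [← Finset.sum_filter, Finset.filter_mem_eq_inter, Finset.inter_eq_right.2 hZB,
      Finset.sum_sub_distrib, Finset.sum_const, nsmul_eq_mul]
    rcases Z.eq_empty_or_nonempty with h | h
    · rw [h]; simp; linarith
    · have hZc : (0 : ℝ) < Z.card := by exact_mod_cast Finset.card_pos.2 h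
      rw [mul_div_assoc', mul_div_cancel_left₀ _ hZc.ne']
  have e3 : ∑ w : InfinitePlace K, (w.mult : ℝ) * max 0 (-Real.log (w (x1 - 1))) - η * H ≤
      ∑ w : InfinitePlace K, (w.mult : ℝ) * ℓ w := by
    have h : ∀ w : InfinitePlace K, (w.mult : ℝ) * max 0 (-Real.log (w (x1 - 1))) ≤
        (w.mult : ℝ) * ℓ w + (w.mult : ℝ) * (η * H / dg K) := by
      intro w
      rw [← mul_add]
      refine mul_le_mul_of_nonneg_left ?_ (Nat.cast_nonneg _)
      have h1 : 0 ≤ η * H / dg K := by positivity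
      refine max_le ?_ ?_
      · have : 0 ≤ ℓ w := le_max_left _ _
        linarith
      · have : -Real.log (w (x1 - 1)) - η * H / dg K ≤ ℓ w := le_max_right _ _
        linarith
    have h2 := Finset.sum_le_sum fun w (_ : w ∈ (Finset.univ : Finset (InfinitePlace K))) => h w
    rw [Finset.sum_add_distrib, ← Finset.sum_mul, hmul] at h2
    have e4 : dg K * (η * H / dg K) = η * H := by field_simp
    rw [e4] at h2
    linarith
  have ho := ones_ge n1 m1
  have e5 : (fs x1).filter (fun v => prt x1 v = 1) = Z := by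
    rw [← z1]
    rfl
  rw [e5] at ho
  have e6 : Real.log 32 = 5 * Real.log 2 := by
    rw [show (32 : ℝ) = 2 ^ 5 by norm_num, Real.log_pow]
    norm_num
  rw [e6] at S2
  have e7 : η * H ≤ 1 / 64 * H := mul_le_mul_of_nonneg_right hη1 hH0.le
  linarith

end Pool.Agent.FPL
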