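import Pool.Agent.FPL.DefsG

/-!
# FourP (size 3): four-cycles with dropping on the pole side

`four_p`. For every finite `v`: `ord v (x i k) * ln v = [v ∈ A i] ms - [v ∈ B k] ms - [v ∈ D i k] ms`, `D i k = fil 2 (x i k) \ B k`. So for
`y = x 0 0 * x 1 1 / (x 0 1 * x 1 0)` the sum of `|ord v y| ln v` is `≤ 4 η H + 4 H / 16`, and `y` is close to `1` at `Z` and at the infinite places; product formula
for `y - 1`.
-/

namespace Pool.Agent.FPL

open NumberField IsDedekindDomain Pool.Agent.H7.Abc Pool.Agent.AbcE Pool.Agent.AbcF Pool.Agent.TMS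
  Pool.Agent.TM2

/-- A sum with small terms. -/
private theorem fq_sum_le {α : Type*} (P : Finset α) (f : α → ℝ) (c : ℝ) (hc : 0 ≤ c)
    (h : ∀ v ∈ P, f v * (P.card : ℝ) ≤ c) : ∑ v ∈ P, f v ≤ c := by
  rcases P.eq_empty_or_nonempty with h0 | h0
  · rw [h0, Finset.sum_empty]
    exact hc
  · have hp : (0 : ℝ) < P.card := by exact_mod_cast Finset.card_pos.2 h0
    have h1 : (∑ v ∈ P, f v) * (P.card : ℝ) ≤ c * (P.card : ℝ) := by
      rw [Finset.sum_mul]
      calc ∑ v ∈ P, f v * (P.card : ℝ) ≤ ∑ _v ∈ P, c := Finset.sum_le_sum h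
        _ = c * (P.card : ℝ) := by rw [Finset.sum_const, nsmul_eq_mul, mul_comm]
    exact le_of_mul_le_mul_right h1 hp

open Classical in
private theorem fq_sum_ite {α : Type*} (F P : Finset α) (f : α → ℝ) (hf : ∀ v, 0 ≤ f v) :
    ∑ v ∈ F, (if v ∈ P then f v else 0) ≤ ∑ v ∈ P, f v := by
  rw [← Finset.sum_filter]
  exact Finset.sum_le_sum_of_subset_of_nonneg (fun v hv => (Finset.mem_filter.1 hv).2)
    fun v _ _ => hf v

/-- The estimate at an infinite place. -/
private theorem fq_real {Y e l : ℝ} (he : e = Real.exp (-l)) {T : ℝ}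
    (hT : 0 < T) (h1 : T ≤ Y + 1) (h2 : e ≤ 1 / 8 → T * (49 / 64) ≤ 5 * e) {L : ℝ}
    (hL : 0 ≤ L) (hYL : 0 < Y → Real.log Y ≤ L) :
    Real.log T ≤ 4 * Real.log 2 - l + L := by
  have he0 : 0 < e := he ▸ Real.exp_pos _
  have hle : Real.log e = -l := by rw [he, Real.log_exp]
  have hl2 : 0 < Real.log 2 := Real.log_pos (by norm_num)
  have e8 : Real.log 8 = 3 * Real.log 2 := by
    rw [show (8 : ℝ) = 2 ^ 3 by norm_num, Real.log_pow]
    push_cast
    ring
  have e16 : Real.log 16 = 4 * Real.log 2 := by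
    rw [show (16 : ℝ) = 2 ^ 4 by norm_num, Real.log_pow]
    push_cast
    ring
  rcases le_or_gt e (1 / 8) with h | h
  · have h3 : T ≤ 16 * e := by
      have := h2 h
      linarith
    have h4 := Real.log_le_log hT h3
    rw [Real.log_mul (by norm_num) he0.ne', e16, hle] at h4
    linarith
  · have h5 : l ≤ 3 * Real.log 2 := by
      have h6 := Real.log_le_log (by norm_num) h.le
      rw [hle, one_div, Real.log_inv, e8] at h6
      linarith
    have h7 : Real.log T ≤ Real.log 2 + L := by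
      rcases le_or_gt Y 1 with h8 | h8
      · have := Real.log_le_log hT (by linarith : T ≤ 2)
        linarith
      · have h9 : T ≤ 2 * Y := by linarith
        have h10 := Real.log_le_log hT h9
        rw [Real.log_mul (by norm_num) (by linarith)] at h10
        have := hYL (by linarith)
        linarith
    linarith

variable {K : Type*} [Field K] [NumberField K]

open Classical in
/-- The exponent of an element with zeros `A` and poles containing `B`. -/
private theorem fq_ord {x : K} (hx : x ≠ 0) (hx1 : x ≠ 1)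
    {A B : Finset (HeightOneSpectrum (𝓞 K))} (hA : fil 0 x = A) (hB : B ⊆ fil 2 x)
    (v : HeightOneSpectrum (𝓞 K)) :
    (ord v x : ℝ) * ln v = (if v ∈ A then ms x v else 0) - (if v ∈ B then ms x v else 0) -
      (if v ∈ fil 2 x \ B then ms x v else 0) := by
  have hms : ms x v = ((mlt x v : ℤ) : ℝ) * ln v := by
    unfold ms
    push_cast
    ring
  have h3 : ∀ i : Fin 3, i = 0 ∨ i = 1 ∨ i = 2 := by decide
  have hfs : ord v x ≠ 0 → v ∈ fs x := fun h => (mem_fs hx hx1).2 (Or.inl h)
  rw [← hA]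
  rcases h3 (prt x v) with h | h | h
  · obtain ⟨e1, _⟩ := mlt_zero hx hx1 h
    have h2 : v ∉ fil 2 x := fun hv => by
      have := (mem_fil.1 hv).2
      rw [h] at this
      exact absurd this (by decide)
    have h4 : v ∉ B := fun hv => h2 (hB hv)
    have h5 : v ∉ fil 2 x \ B := fun hv => h2 (Finset.mem_sdiff.1 hv).1
    rw [if_neg h4, if_neg h5]
    have h6 : v ∈ fil 0 x := mem_fil.2 ⟨hfs (by
      rw [prt_eq_zero] at h
      omega), h⟩
    rw [if_pos h6, hms, e1]
    ring
  · obtain ⟨_, e2⟩ := mlt_one hx hx1 h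
    have h2 : v ∉ fil 2 x := fun hv => by
      have := (mem_fil.1 hv).2
      rw [h] at this
      exact absurd this (by decide)
    have h4 : v ∉ B := fun hv => h2 (hB hv)
    have h5 : v ∉ fil 2 x \ B := fun hv => h2 (Finset.mem_sdiff.1 hv).1
    have h6 : v ∉ fil 0 x := fun hv => by
      have := (mem_fil.1 hv).2
      rw [h] at this
      exact absurd this (by decide)
    rw [if_neg h4, if_neg h5, if_neg h6, e2]
    simp
  · obtain ⟨e1, _⟩ := mlt_two hx hx1 h
    have h6 : v ∉ fil 0 x := fun hv => by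
      have := (mem_fil.1 hv).2
      rw [h] at this
      exact absurd this (by decide)
    have h7 : v ∈ fil 2 x := mem_fil.2 ⟨hfs (by
      rw [prt_eq_two] at h
      omega), h⟩
    rw [if_neg h6]
    by_cases h8 : v ∈ B
    · have h9 : v ∉ fil 2 x \ B := fun hv => (Finset.mem_sdiff.1 hv).2 h8
      rw [if_pos h8, if_neg h9, hms, e1]
      push_cast
      ring
    · rw [if_neg h8, if_pos (Finset.mem_sdiff.2 ⟨h7, h8⟩), hms, e1]
      push_cast
      ring

/-- A zero of `x - 1`. -/
private theorem fq_one {x : K} (hx : x ≠ 0) (hx1 : x ≠ 1) {v : HeightOneSpectrum (𝓞 K)}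
    (h : v ∈ fil 1 x) : FinitePlace.mk v x = 1 ∧
      FinitePlace.mk v (x - 1) = Real.exp (-ms x v) := by
  obtain ⟨e1, e2⟩ := mlt_one hx hx1 (mem_fil.1 h).2
  refine ⟨(ord_eq_zero_iff v hx).1 e2, ?_⟩
  have hx1' : x - 1 ≠ 0 := sub_ne_zero.2 hx1
  have l2 := log_mk v hx1'
  have hp : 0 < FinitePlace.mk v (x - 1) := FinitePlace.pos_iff.2 hx1'
  rw [← Real.exp_log hp, l2, ← e1]
  congr 1
  unfold ms ln
  push_cast
  ring

private theorem fq_ord_mul (v : HeightOneSpectrum (𝓞 K)) {x y : K} (hx : x ≠ 0) (hy : y ≠ 0) :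
    ord v (x * y) = ord v x + ord v y := by
  have h := ord_div v (mul_ne_zero hx hy) hy
  rw [mul_div_cancel_right₀ x hy] at h
  omega

open Classical in
theorem four_p {K : Type*} [Field K] [NumberField K]
    (A B : Fin 2 → Finset (HeightOneSpectrum (𝓞 K))) (Z : Finset (HeightOneSpectrum (𝓞 K)))
    (x : Fin 2 → Fin 2 → K) (H η : ℝ) (hη : 0 < η) (hη1 : η ≤ 1 / 64)
    (hH : 32 * (dg K * Real.log 2) ≤ H) (hH0 : 0 < H)
    (hx : ∀ i k, x i k ≠ 0 ∧ x i k ≠ 1 ∧ H ≤ hgt (x i k) ∧ fil 0 (x i k) = A i ∧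
      B k ⊆ fil 2 (x i k) ∧ ∑ v ∈ fil 2 (x i k) \ B k, ms (x i k) v ≤ H / 16 ∧
      fil 1 (x i k) = Z)
    (hA : ∀ i, ShM (A i) η H (x i 0) (x i 1)) (hB : ∀ k, ShM (B k) η H (x 0 k) (x 1 k))
    (hZ : ∀ i k i' k', ShM Z η H (x i k) (x i' k') ∧ ShI η H (x i k) (x i' k')) :
    x 0 0 * x 1 1 = x 0 1 * x 1 0 := by
  by_contra hne
  have n0 : ∀ i k, x i k ≠ 0 := fun i k => (hx i k).1
  have n1 : ∀ i k, x i k ≠ 1 := fun i k => (hx i k).2.1
  have hd : 0 < dg K := by linarith [one_le_dg K]
  have hl2 : 0 < Real.log 2 := Real.log_pos (by norm_num)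
  have hηH : 0 < η * H := mul_pos hη hH0
  have hden : x 0 1 * x 1 0 ≠ 0 := mul_ne_zero (n0 _ _) (n0 _ _)
  have hnum : x 0 0 * x 1 1 ≠ 0 := mul_ne_zero (n0 _ _) (n0 _ _)
  set y : K := x 0 0 * x 1 1 / (x 0 1 * x 1 0) with hy
  have hy0 : y ≠ 0 := div_ne_zero hnum hden
  have hy1 : y - 1 ≠ 0 := by
    rw [sub_ne_zero]
    intro h
    rw [hy, div_eq_one_iff_eq hden] at h
    exact hne h
  have hyd : y - 1 = (x 0 0 * x 1 1 - x 0 1 * x 1 0) / (x 0 1 * x 1 0) := by
    rw [hy, sub_div, div_self hden]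
  have hdm : dg K = ∑ w : InfinitePlace K, (w.mult : ℝ) := by
    unfold dg
    rw [← Nat.cast_sum, InfinitePlace.sum_mult_eq]
  set S : Finset (HeightOneSpectrum (𝓞 K)) := (finite_support hy1).toFinset ∪ Z with hS
  have hSy : ∀ v, FinitePlace.mk v (y - 1) ≠ 1 → v ∈ S := by
    intro v hv
    simp only [hS, Finset.mem_union, Set.Finite.mem_toFinset, Set.mem_ofPred_eq]
    exact Or.inl hv
  have hZS : Z ⊆ S := Finset.subset_union_right
  have P1 := gap_prod hy1 S hSy
  -- the exponents of `y`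
  have hordy : ∀ v, (ord v y : ℝ) * ln v = (ord v (x 0 0) : ℝ) * ln v + (ord v (x 1 1) : ℝ) * ln v -
      (ord v (x 0 1) : ℝ) * ln v - (ord v (x 1 0) : ℝ) * ln v := by
    intro v
    rw [hy, ord_div v hnum hden, fq_ord_mul v (n0 _ _) (n0 _ _), fq_ord_mul v (n0 _ _) (n0 _ _)]
    push_cast
    ring
  have hO : ∀ i k v, (ord v (x i k) : ℝ) * ln v = (if v ∈ A i then ms (x i k) v else 0) -
      (if v ∈ B k then ms (x i k) v else 0) -
      (if v ∈ fil 2 (x i k) \ B k then ms (x i k) v else 0) := fun i k v =>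
    fq_ord (n0 i k) (n1 i k) (hx i k).2.2.2.1 (hx i k).2.2.2.2.1 v
  have hDn : ∀ i k v, 0 ≤ (if v ∈ fil 2 (x i k) \ B k then ms (x i k) v else 0) := by
    intro i k v
    split_ifs
    · exact ms_nonneg _ _
    · exact le_rfl
  have habs : ∀ v, |(ord v y : ℝ) * ln v| ≤
      (if v ∈ A 0 then |ms (x 0 0) v - ms (x 0 1) v| else 0) +
      (if v ∈ A 1 then |ms (x 1 0) v - ms (x 1 1) v| else 0) +
      (if v ∈ B 0 then |ms (x 0 0) v - ms (x 1 0) v| else 0) +
      (if v ∈ B 1 then |ms (x 0 1) v - ms (x 1 1) v| else 0) +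
      ((if v ∈ fil 2 (x 0 0) \ B 0 then ms (x 0 0) v else 0) +
      (if v ∈ fil 2 (x 0 1) \ B 1 then ms (x 0 1) v else 0) +
      (if v ∈ fil 2 (x 1 0) \ B 0 then ms (x 1 0) v else 0) +
      (if v ∈ fil 2 (x 1 1) \ B 1 then ms (x 1 1) v else 0)) := by
    intro v
    rw [hordy v, hO 0 0 v, hO 0 1 v, hO 1 0 v, hO 1 1 v]
    have d1 := hDn 0 0 v
    have d2 := hDn 0 1 v
    have d3 := hDn 1 0 v
    have d4 := hDn 1 1 v
    have a1 : |(if v ∈ A 0 then ms (x 0 0) v else 0) - (if v ∈ A 0 then ms (x 0 1) v else 0)| ≤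
        (if v ∈ A 0 then |ms (x 0 0) v - ms (x 0 1) v| else 0) := by
      split_ifs
      · exact le_rfl
      · simp
    have a2 : |(if v ∈ A 1 then ms (x 1 0) v else 0) - (if v ∈ A 1 then ms (x 1 1) v else 0)| ≤
        (if v ∈ A 1 then |ms (x 1 0) v - ms (x 1 1) v| else 0) := by
      split_ifs
      · exact le_rfl
      · simp
    have a3 : |(if v ∈ B 0 then ms (x 0 0) v else 0) - (if v ∈ B 0 then ms (x 1 0) v else 0)| ≤
        (if v ∈ B 0 then |ms (x 0 0) v - ms (x 1 0) v| else 0) := by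
      split_ifs
      · exact le_rfl
      · simp
    have a4 : |(if v ∈ B 1 then ms (x 0 1) v else 0) - (if v ∈ B 1 then ms (x 1 1) v else 0)| ≤
        (if v ∈ B 1 then |ms (x 0 1) v - ms (x 1 1) v| else 0) := by
      split_ifs
      · exact le_rfl
      · simp
    rw [abs_le] at a1 a2 a3 a4 ⊢
    constructor
    · linarith [a1.1, a1.2, a2.1, a2.2, a3.1, a3.2, a4.1, a4.2]
    · linarith [a1.1, a1.2, a2.1, a2.2, a3.1, a3.2, a4.1, a4.2]
  -- the sum of the exponents
  have hsum : ∑ v ∈ S, |(ord v y : ℝ) * ln v| ≤ 4 * (η * H) + H / 4 := by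
    refine (Finset.sum_le_sum fun v _ => habs v).trans ?_
    simp only [Finset.sum_add_distrib]
    have s1 := (fq_sum_ite S (A 0) (fun v => |ms (x 0 0) v - ms (x 0 1) v|)
      fun v => abs_nonneg _).trans (fq_sum_le (A 0) _ _ hηH.le (hA 0))
    have s2 := (fq_sum_ite S (A 1) (fun v => |ms (x 1 0) v - ms (x 1 1) v|)
      fun v => abs_nonneg _).trans (fq_sum_le (A 1) _ _ hηH.le (hA 1))
    have s3 := (fq_sum_ite S (B 0) (fun v => |ms (x 0 0) v - ms (x 1 0) v|)
      fun v => abs_nonneg _).trans (fq_sum_le (B 0) _ _ hηH.le (hB 0))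
    have s4 := (fq_sum_ite S (B 1) (fun v => |ms (x 0 1) v - ms (x 1 1) v|)
      fun v => abs_nonneg _).trans (fq_sum_le (B 1) _ _ hηH.le (hB 1))
    have t : ∀ i k, ∑ v ∈ S, (if v ∈ fil 2 (x i k) \ B k then ms (x i k) v else 0) ≤ H / 16 :=
      fun i k => (fq_sum_ite S (fil 2 (x i k) \ B k) (ms (x i k)) (ms_nonneg _)).trans
        (hx i k).2.2.2.2.2.1
    have t1 := t 0 0
    have t2 := t 0 1
    have t3 := t 1 0
    have t4 := t 1 1
    linarith
  -- finite places
  set m : HeightOneSpectrum (𝓞 K) → ℝ := fun v => ms (x 0 0) v - η * H / (Z.card : ℝ) with hm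
  have hFv : ∀ v, Real.log (FinitePlace.mk v (y - 1)) ≤
      |(ord v y : ℝ) * ln v| - (if v ∈ Z then m v else 0) := by
    intro v
    have hp : 0 < FinitePlace.mk v (y - 1) := FinitePlace.pos_iff.2 hy1
    by_cases hv : v ∈ Z
    · rw [if_pos hv]
      have hZc : (0 : ℝ) < Z.card := by exact_mod_cast Finset.card_pos.2 ⟨v, hv⟩
      have h1 : ∀ i k, FinitePlace.mk v (x i k) = 1 ∧
          FinitePlace.mk v (x i k - 1) ≤ Real.exp (-m v) := by
        intro i k
        have hvf : v ∈ fil 1 (x i k) := by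
          rw [(hx i k).2.2.2.2.2.2]
          exact hv
        obtain ⟨e1, e2⟩ := fq_one (n0 i k) (n1 i k) hvf
        refine ⟨e1, ?_⟩
        rw [e2, Real.exp_le_exp, neg_le_neg_iff, hm]
        have h2 := (hZ 0 0 i k).1 v hv
        have h3 : |ms (x 0 0) v - ms (x i k) v| ≤ η * H / (Z.card : ℝ) := by
          rw [le_div_iff₀ hZc]
          exact h2
        have h4 := (abs_le.1 h3).2
        show ms (x 0 0) v - η * H / (Z.card : ℝ) ≤ ms (x i k) v
        linarith
      have hmul : ∀ a b : K, FinitePlace.mk v (a * b) = FinitePlace.mk v a * FinitePlace.mk v b :=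
        fun a b => map_mul _ a b
      have h5 : FinitePlace.mk v (x 0 0 * x 1 1 - 1) ≤ Real.exp (-m v) := by
        have e : x 0 0 * x 1 1 - 1 = (x 0 0 - 1) * x 1 1 - -(x 1 1 - 1) := by ring
        rw [e]
        refine (fp_sub_le _ _ _).trans (max_le ?_ ?_)
        · rw [hmul, (h1 1 1).1, mul_one]
          exact (h1 0 0).2
        · rw [map_neg_eq_map]
          exact (h1 1 1).2
      have h6 : FinitePlace.mk v (x 0 1 * x 1 0 - 1) ≤ Real.exp (-m v) := by
        have e : x 0 1 * x 1 0 - 1 = (x 0 1 - 1) * x 1 0 - -(x 1 0 - 1) := by ring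
        rw [e]
        refine (fp_sub_le _ _ _).trans (max_le ?_ ?_)
        · rw [hmul, (h1 1 0).1, mul_one]
          exact (h1 0 1).2
        · rw [map_neg_eq_map]
          exact (h1 1 0).2
      have h7 : FinitePlace.mk v (y - 1) ≤ Real.exp (-m v) := by
        rw [hyd, map_div₀, hmul (x 0 1), (h1 0 1).1, (h1 1 0).1, mul_one, div_one]
        have e : x 0 0 * x 1 1 - x 0 1 * x 1 0 = (x 0 0 * x 1 1 - 1) - (x 0 1 * x 1 0 - 1) := by
          ring
        rw [e]
        exact (fp_sub_le _ _ _).trans (max_le h5 h6)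
      have h8 := Real.log_le_log hp h7
      rw [Real.log_exp] at h8
      have := abs_nonneg ((ord v y : ℝ) * ln v)
      linarith
    · rw [if_neg hv, sub_zero]
      have h1 : FinitePlace.mk v (y - 1) ≤ max (FinitePlace.mk v y) 1 := by
        have := fp_sub_le (FinitePlace.mk v) y 1
        rwa [map_one] at this
      have hl := log_mk v hy0
      have hpy : 0 < FinitePlace.mk v y := FinitePlace.pos_iff.2 hy0
      rcases le_max_iff.1 h1 with h | h
      · have h2 := Real.log_le_log hp h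
        rw [hl] at h2
        have h3 : -(ord v y : ℝ) * Real.log (Ideal.absNorm v.asIdeal : ℝ) =
            -((ord v y : ℝ) * ln v) := by
          unfold ln
          ring
        rw [h3] at h2
        exact h2.trans (neg_le_abs _)
      · exact (Real.log_nonpos hp.le h).trans (abs_nonneg _)
  -- infinite places
  set δ : ℝ := η * H / dg K with hδ
  have hδ0 : 0 < δ := div_pos hηH hd
  have hI : ∀ w : InfinitePlace K, Real.log (w (y - 1)) ≤
      4 * Real.log 2 - (max 0 (-Real.log (w (x 0 0 - 1))) - δ) + 2 * δ := by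
    intro w
    have hadd : ∀ s t : K, w (s + t) ≤ w s + w t := by
      intro s t
      rw [← InfinitePlace.norm_embedding_eq w, ← InfinitePlace.norm_embedding_eq w,
        ← InfinitePlace.norm_embedding_eq w, map_add]
      exact norm_add_le _ _
    have hneg : ∀ s : K, w (-s) = w s := by
      intro s
      rw [← InfinitePlace.norm_embedding_eq w, ← InfinitePlace.norm_embedding_eq w, map_neg,
        norm_neg]
    have hsub : ∀ s t : K, w (s - t) ≤ w s + w t := by
      intro s t
      have := hadd s (-t)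
      rwa [hneg, ← sub_eq_add_neg] at this
    have hmul : ∀ s t : K, w (s * t) = w s * w t := fun s t => map_mul _ s t
    have hpos : ∀ i k, 0 < w (x i k) := fun i k => InfinitePlace.pos_iff.2 (n0 i k)
    have hpos1 : ∀ i k, 0 < w (x i k - 1) := fun i k =>
      InfinitePlace.pos_iff.2 (sub_ne_zero.2 (n1 i k))
    have hT : 0 < w (y - 1) := InfinitePlace.pos_iff.2 hy1
    have hsh : ∀ i k i' k', |Real.log (w (x i k)) - Real.log (w (x i' k'))| +
        |Real.log (w (x i k - 1)) - Real.log (w (x i' k' - 1))| ≤ δ := by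
      intro i k i' k'
      rw [hδ, le_div_iff₀ hd]
      exact (hZ i k i' k').2 w
    -- the size of `y`
    have hYL : Real.log (w y) ≤ 2 * δ := by
      have h1 : Real.log (w y) = (Real.log (w (x 0 0)) - Real.log (w (x 0 1))) +
          (Real.log (w (x 1 1)) - Real.log (w (x 1 0))) := by
        rw [hy, map_div₀, hmul, hmul, Real.log_div (mul_pos (hpos _ _) (hpos _ _)).ne'
          (mul_pos (hpos _ _) (hpos _ _)).ne', Real.log_mul (hpos _ _).ne' (hpos _ _).ne',
          Real.log_mul (hpos _ _).ne' (hpos _ _).ne']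
        ring
      have h2 := hsh 0 0 0 1
      have h3 := hsh 1 1 1 0
      have h4 := le_abs_self (Real.log (w (x 0 0)) - Real.log (w (x 0 1)))
      have h5 := le_abs_self (Real.log (w (x 1 1)) - Real.log (w (x 1 0)))
      have h6 := abs_nonneg (Real.log (w (x 0 0 - 1)) - Real.log (w (x 0 1 - 1)))
      have h7 := abs_nonneg (Real.log (w (x 1 1 - 1)) - Real.log (w (x 1 0 - 1)))
      rw [h1]
      linarith
    set l : ℝ := max 0 (-Real.log (w (x 0 0 - 1)) - δ) with hldef
    have hl0 : 0 ≤ l := le_max_left _ _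
    have hle : max 0 (-Real.log (w (x 0 0 - 1))) - δ ≤ l := by
      rcases le_total 0 (-Real.log (w (x 0 0 - 1))) with h | h
      · rw [max_eq_right h]
        exact le_max_right _ _
      · rw [max_eq_left h]
        linarith
    have h1 : w (y - 1) ≤ w y + 1 := by
      have := hsub y 1
      rwa [map_one] at this
    have h2 : Real.exp (-l) ≤ 1 / 8 → w (y - 1) * (49 / 64) ≤ 5 * Real.exp (-l) := by
      intro he
      have hl1 : 0 < l := by
        by_contra h
        have : l = 0 := le_antisymm (not_lt.1 h) hl0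
        rw [this, neg_zero, Real.exp_zero] at he
        linarith
      have hl2' : l = -Real.log (w (x 0 0 - 1)) - δ := by
        rcases le_total 0 (-Real.log (w (x 0 0 - 1)) - δ) with h | h
        · rw [hldef, max_eq_right h]
        · rw [hldef, max_eq_left h] at hl1
          exact absurd hl1 (lt_irrefl _)
      set e : ℝ := Real.exp (-l) with hedef
      have he0 : 0 < e := Real.exp_pos _
      have hc : ∀ i k, w (x i k - 1) ≤ e := by
        intro i k
        rw [← Real.exp_log (hpos1 i k), hedef, Real.exp_le_exp, hl2']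
        have h3 := hsh i k 0 0
        have h4 := le_abs_self (Real.log (w (x i k - 1)) - Real.log (w (x 0 0 - 1)))
        have h5 := abs_nonneg (Real.log (w (x i k)) - Real.log (w (x 0 0)))
        linarith
      have hlow : ∀ i k, 7 / 8 ≤ w (x i k) := by
        intro i k
        have h3 := hsub (x i k) (x i k - 1)
        rw [sub_sub_cancel, map_one] at h3
        have h4 := hc i k
        linarith
      have hp2 : ∀ i k i' k', w (x i k * x i' k' - 1) ≤ 2 * e + e * e := by
        intro i k i' k'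
        have e1 : x i k * x i' k' - 1 = (x i k - 1) * (x i' k' - 1) + ((x i k - 1) +
          (x i' k' - 1)) := by ring
        rw [e1]
        have h3 := hadd ((x i k - 1) * (x i' k' - 1)) ((x i k - 1) + (x i' k' - 1))
        have h4 := hadd (x i k - 1) (x i' k' - 1)
        rw [hmul] at h3
        have h5 := hc i k
        have h6 := hc i' k'
        have h7 : w (x i k - 1) * w (x i' k' - 1) ≤ e * e :=
          mul_le_mul h5 h6 (hpos1 _ _).le he0.le
        linarith
      have h8 : w (x 0 0 * x 1 1 - x 0 1 * x 1 0) ≤ 4 * e + 2 * (e * e) := by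
        have e1 : x 0 0 * x 1 1 - x 0 1 * x 1 0 = (x 0 0 * x 1 1 - 1) - (x 0 1 * x 1 0 - 1) := by
          ring
        rw [e1]
        have h3 := hsub (x 0 0 * x 1 1 - 1) (x 0 1 * x 1 0 - 1)
        have h4 := hp2 0 0 1 1
        have h5 := hp2 0 1 1 0
        linarith
      have h9 : w (y - 1) * (w (x 0 1) * w (x 1 0)) ≤ 4 * e + 2 * (e * e) := by
        have h3 : w (y - 1) * (w (x 0 1) * w (x 1 0)) = w (x 0 0 * x 1 1 - x 0 1 * x 1 0) := by
          rw [← hmul, ← hmul, hyd, div_mul_cancel₀ _ hden]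
        rw [h3]
        exact h8
      have h10 : (49 / 64 : ℝ) ≤ w (x 0 1) * w (x 1 0) := by
        have h3 := mul_le_mul (hlow 0 1) (hlow 1 0) (by norm_num) (hpos 0 1).le
        linarith
      have h11 := mul_le_mul_of_nonneg_left h10 hT.le
      nlinarith
    have h3 := fq_real (Y := w y) (e := Real.exp (-l)) (l := l) (T := w (y - 1)) (L := 2 * δ)
      rfl hT h1 h2 (by linarith) (fun _ => hYL)
    linarith
  -- the sums
  have SF := Finset.sum_le_sum (s := S) fun v _ => hFv v
  rw [Finset.sum_sub_distrib] at SF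
  have SZ : ∑ v ∈ Z, ms (x 0 0) v - η * H ≤ ∑ v ∈ S, (if v ∈ Z then m v else 0) := by
    rw [← Finset.sum_filter]
    have e1 : S.filter (fun v => v ∈ Z) = Z := by
      ext v
      simp only [Finset.mem_filter]
      exact ⟨fun h => h.2, fun h => ⟨hZS h, h⟩⟩
    rw [e1, hm, Finset.sum_sub_distrib]
    have e2 : ∑ _v ∈ Z, η * H / (Z.card : ℝ) ≤ η * H := by
      rw [Finset.sum_const, nsmul_eq_mul]
      rcases Nat.eq_zero_or_pos Z.card with h | h
      · rw [h]
        simp only [Nat.cast_zero, zero_mul]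
        exact hηH.le
      · have : (0 : ℝ) < Z.card := by exact_mod_cast h
        rw [mul_div_cancel₀ _ this.ne']
    linarith
  have SI := Finset.sum_le_sum (s := (Finset.univ : Finset (InfinitePlace K))) fun w _ =>
    mul_le_mul_of_nonneg_left (hI w) (Nat.cast_nonneg (α := ℝ) w.mult)
  have SI' : ∑ w : InfinitePlace K, (w.mult : ℝ) * Real.log (w (y - 1)) ≤
      dg K * (4 * Real.log 2 + 3 * δ) -
        ∑ w : InfinitePlace K, (w.mult : ℝ) * max 0 (-Real.log (w (x 0 0 - 1))) := by
    refine SI.trans (le_of_eq ?_)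
    rw [hdm, Finset.sum_mul, ← Finset.sum_sub_distrib]
    refine Finset.sum_congr rfl fun w _ => ?_
    ring
  have hdδ : dg K * δ = η * H := by
    rw [hδ, mul_div_cancel₀ _ hd.ne']
  have ho := ones_ge (n0 0 0) (n1 0 0)
  have e0 : (fs (x 0 0)).filter (fun v => prt (x 0 0) v = 1) = Z := (hx 0 0).2.2.2.2.2.2
  rw [e0] at ho
  have hH2 := (hx 0 0).2.2.1
  have hdl : 0 < dg K * Real.log 2 := mul_pos hd hl2
  have hηH2 : η * H ≤ 1 / 64 * H := mul_le_mul_of_nonneg_right hη1 hH0.le
  nlinarith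

end Pool.Agent.FPL
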