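import Mathlib

/-!
# Knap (size 3, pure)

Induction on `A.card` (for all `m, M`). `A` empty: `D = ∅`. Otherwise: if `∑_A s = 0` take `D = ∅` (both sides `0`, `m / M * 0 ≤ 0`). Let `a ∈ A` be such that `s a * μ b ≥ s b * μ a` for all `b ∈ A` and not `s a = μ a = 0`
unless all are zero (densest element; alternatively treat the elements with `μ = 0` first: if some `a ∈ A` has `μ a = 0`, apply the induction hypothesis to `A.erase a` and put `a` into `D`;
if all `μ a > 0` let `a` maximise `s a / μ a`, `Finset.exists_max_image`). Then `s a * M ≥ μ a * ∑_A s` (sum `s a μ b ≥ s b μ a` over `b`, `∑ μ ≤ M`).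
If `μ a ≤ m`: if `M = μ a` then `A` can be taken completely (`∑ μ ≤ μ a ≤ m`: `D = A`, `m / M = 1`.. as `m ≤ M`); otherwise the induction hypothesis for `A.erase a`, `m - μ a`, `M - μ a > 0` gives `D'`;
`D = insert a D'`, and `(m - μ a) / (M - μ a) * (∑_A s - s a) + s a ≥ m / M * ∑_A s` (equivalent to `(M - m) (s a M - μ a ∑_A s) ≥ 0`). If `μ a > m`: `D = ∅`, `k = a`: `s a ≥ μ a / M * ∑_A s ≥ m / M ∑_A s`.
-/

namespace Pool.Agent.FPL

private theorem knap_aux {m M t μ S X : ℝ} (hM : 0 < M) (hM' : 0 < M - μ) (hmM : m ≤ M)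
    (h1 : μ * S ≤ t * M) (h2 : (m - μ) / (M - μ) * (S - t) ≤ X) : m / M * S ≤ t + X := by
  have h3 : m / M * S ≤ t + (m - μ) / (M - μ) * (S - t) := by
    have h4 : t + (m - μ) / (M - μ) * (S - t) - m / M * S
        = (M - m) * (t * M - μ * S) / (M * (M - μ)) := by
      field_simp
      ring
    have h5 : 0 ≤ (M - m) * (t * M - μ * S) / (M * (M - μ)) := by
      apply div_nonneg
      · exact mul_nonneg (by linarith) (by linarith)
      · exact (mul_pos hM hM').le
    linarith
  linarith

theorem knap {ι : Type*} [DecidableEq ι] (A : Finset ι) (s μ : ι → ℝ) (hs : ∀ i ∈ A, 0 ≤ s i)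
    (hμ : ∀ i ∈ A, 0 ≤ μ i) (m M : ℝ) (hm : 0 ≤ m) (hmM : m ≤ M) (hM : 0 < M)
    (hA : ∑ i ∈ A, μ i ≤ M) :
    ∃ D ⊆ A, ∑ i ∈ D, μ i ≤ m ∧ (m / M * ∑ i ∈ A, s i ≤ ∑ i ∈ D, s i ∨
      ∃ k ∈ A \ D, m / M * ∑ i ∈ A, s i ≤ ∑ i ∈ D, s i + s k) := by
  induction hn : A.card generalizing A m M with
  | zero =>
    have hA0 : A = ∅ := Finset.card_eq_zero.mp hn
    subst hA0
    exact ⟨∅, Finset.Subset.refl _, by simpa using hm, Or.inl (by simp)⟩
  | succ n ih =>
    have hr0 : m / M ≤ 1 := (div_le_one hM).mpr hmM
    have hS0 : 0 ≤ ∑ i ∈ A, s i := Finset.sum_nonneg hs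
    by_cases h0 : ∃ a ∈ A, μ a = 0
    · obtain ⟨a, ha, hμa⟩ := h0
      have hcard : (A.erase a).card = n := by rw [Finset.card_erase_of_mem ha, hn]; rfl
      have hsumμ : μ a + ∑ i ∈ A.erase a, μ i = ∑ i ∈ A, μ i := Finset.add_sum_erase A μ ha
      have hsums : s a + ∑ i ∈ A.erase a, s i = ∑ i ∈ A, s i := Finset.add_sum_erase A s ha
      obtain ⟨D, hDA, hDm, hD⟩ := ih (A.erase a)
        (fun i hi => hs i (Finset.mem_of_mem_erase hi))
        (fun i hi => hμ i (Finset.mem_of_mem_erase hi)) m M hm hmM hM (by linarith) hcard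
      have haD : a ∉ D := fun h => Finset.notMem_erase a A (hDA h)
      have hsa : 0 ≤ s a := hs a ha
      have hle : m / M * s a ≤ s a := by
        calc m / M * s a ≤ 1 * s a := mul_le_mul_of_nonneg_right hr0 hsa
          _ = s a := one_mul _
      refine ⟨insert a D, ?_, ?_, ?_⟩
      · intro x hx
        rcases Finset.mem_insert.mp hx with h | h
        · exact h ▸ ha
        · exact Finset.mem_of_mem_erase (hDA h)
      · rw [Finset.sum_insert haD]; linarith
      · rw [Finset.sum_insert haD, ← hsums, mul_add]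
        rcases hD with h | ⟨k, hk, h⟩
        · left; linarith
        · right
          refine ⟨k, ?_, by linarith⟩
          have hk1 := (Finset.mem_sdiff.mp hk).1
          have hk2 := (Finset.mem_sdiff.mp hk).2
          refine Finset.mem_sdiff.mpr ⟨Finset.mem_of_mem_erase hk1, ?_⟩
          intro hk3
          rcases Finset.mem_insert.mp hk3 with h3 | h3
          · exact Finset.ne_of_mem_erase hk1 h3
          · exact hk2 h3
    · have hpos : ∀ i ∈ A, 0 < μ i := by
        intro i hi
        rcases (hμ i hi).lt_or_eq with h | h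
        · exact h
        · exact absurd ⟨i, hi, h.symm⟩ h0
      have hne : A.Nonempty := by
        rw [← Finset.card_pos, hn]; exact Nat.succ_pos n
      obtain ⟨a, ha, hmax⟩ := Finset.exists_max_image A (fun i => s i / μ i) hne
      have hμa := hpos a ha
      have hcross : ∀ b ∈ A, μ a * s b ≤ s a * μ b := by
        intro b hb
        have h1 := hmax b hb
        have hμb := hpos b hb
        have h2 := (div_le_div_iff₀ hμb hμa).mp h1
        linarith
      have hsumc : μ a * ∑ i ∈ A, s i ≤ s a * M := by
        calc μ a * ∑ i ∈ A, s i = ∑ i ∈ A, μ a * s i := Finset.mul_sum _ _ _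
          _ ≤ ∑ i ∈ A, s a * μ i := Finset.sum_le_sum hcross
          _ = s a * ∑ i ∈ A, μ i := (Finset.mul_sum _ _ _).symm
          _ ≤ s a * M := mul_le_mul_of_nonneg_left hA (hs a ha)
      by_cases hma : m < μ a
      · refine ⟨∅, Finset.empty_subset _, by simpa using hm, Or.inr ⟨a, by simpa using ha, ?_⟩⟩
        rw [Finset.sum_empty, zero_add, div_mul_eq_mul_div, div_le_iff₀ hM]
        calc m * ∑ i ∈ A, s i ≤ μ a * ∑ i ∈ A, s i := mul_le_mul_of_nonneg_right hma.le hS0
          _ ≤ s a * M := hsumc
      · have hma' : μ a ≤ m := not_lt.mp hma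
        by_cases hMa : M ≤ μ a
        · refine ⟨A, Finset.Subset.refl _, by linarith, Or.inl ?_⟩
          calc m / M * ∑ i ∈ A, s i ≤ 1 * ∑ i ∈ A, s i := mul_le_mul_of_nonneg_right hr0 hS0
            _ = ∑ i ∈ A, s i := one_mul _
        · have hMa' : 0 < M - μ a := by linarith [not_le.mp hMa]
          have hcard : (A.erase a).card = n := by rw [Finset.card_erase_of_mem ha, hn]; rfl
          have hsumμ : μ a + ∑ i ∈ A.erase a, μ i = ∑ i ∈ A, μ i := Finset.add_sum_erase A μ ha
          have hsums : s a + ∑ i ∈ A.erase a, s i = ∑ i ∈ A, s i := Finset.add_sum_erase A s ha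
          have hrest : ∑ i ∈ A.erase a, s i = ∑ i ∈ A, s i - s a := by linarith
          obtain ⟨D, hDA, hDm, hD⟩ := ih (A.erase a)
            (fun i hi => hs i (Finset.mem_of_mem_erase hi))
            (fun i hi => hμ i (Finset.mem_of_mem_erase hi)) (m - μ a) (M - μ a)
            (by linarith) (by linarith) hMa' (by linarith) hcard
          have haD : a ∉ D := fun h => Finset.notMem_erase a A (hDA h)
          rw [hrest] at hD
          refine ⟨insert a D, ?_, ?_, ?_⟩
          · intro x hx
            rcases Finset.mem_insert.mp hx with h | h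
            · exact h ▸ ha
            · exact Finset.mem_of_mem_erase (hDA h)
          · rw [Finset.sum_insert haD]; linarith
          · rw [Finset.sum_insert haD]
            rcases hD with h | ⟨k, hk, h⟩
            · left
              exact knap_aux hM hMa' hmM hsumc h
            · right
              refine ⟨k, ?_, ?_⟩
              · have hk1 := (Finset.mem_sdiff.mp hk).1
                have hk2 := (Finset.mem_sdiff.mp hk).2
                refine Finset.mem_sdiff.mpr ⟨Finset.mem_of_mem_erase hk1, ?_⟩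
                intro hk3
                rcases Finset.mem_insert.mp hk3 with h3 | h3
                · exact Finset.ne_of_mem_erase hk1 h3
                · exact hk2 h3
              · have h4 := knap_aux hM hMa' hmM hsumc h
                linarith

end Pool.Agent.FPL
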