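import Pool.Agent.FPL.Defs

/-!
# Lte (size 3)

`V = FinitePlace.mk v`, `u = t - 1`. Let `p` be the prime below `v` (`N_v = p ^ f`, `f ≥ 1`; e.g. `p = (Ideal.absNorm v.asIdeal).minFac`, or use: `Ideal.absNorm` is a prime power,
`Ideal.absNorm_eq_pow_inertiaDeg`). `- log V (p) ≤ d log p ≤ d ln v`: product formula (`gap_prod` for `x = p`, all terms `log mk v' p ≤ 0`, infinite part `d log p`), so
`V u ≤ exp (-(d+1) ln v) < V p`. Binomial formula: `t ^ n - 1 = n u + ∑_{i ≥ 2} choose n i u ^ i` and `i * choose n i = n * choose (n-1) (i-1)`, so for `2 ≤ i ≤ n`: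
`V (choose n i u ^ i) * V i ≤ V n * V u * V u ^ (i-1)`. `V i ≥ V p ^ (i - 1)`, with `V u < V p` this gives `V (choose n i u ^ i) < V n V u` (if `u ≠ 0`):
`i = p ^ a * m` with `p ∤ m` implies `V m = 1` (`m` is a unit at `v`) and `a ≤ i - 1` (`2 ^ a ≤ i`, `i < 2 ^ i`). So `V (t ^ n - 1) = V n * V u` by the ultrametric inequality.
Alternative: induction on `n` by prime factors (`t ^ (q m) - 1 = (t ^ m) ^ q - 1`, `q` prime).
-/

namespace Pool.Agent.FPL

open NumberField IsDedekindDomain Pool.Agent.H7.Abc Pool.Agent.AbcE Pool.Agent.AbcF Pool.Agent.TMS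
  Pool.Agent.TM2

variable {K : Type*} [Field K] [NumberField K]

private theorem Lte_nat_le (v : HeightOneSpectrum (𝓞 K)) (m : ℕ) :
    FinitePlace.mk v (m : K) ≤ 1 := by
  have h := FinitePlace.norm_le_one (K := K) v (m : 𝓞 K)
  rw [map_natCast] at h
  exact h

private theorem Lte_nat_eq (v : HeightOneSpectrum (𝓞 K)) (m : ℕ)
    (hm : (m : 𝓞 K) ∉ v.asIdeal) : FinitePlace.mk v (m : K) = 1 := by
  have h := (FinitePlace.norm_eq_one_iff_notMem (K := K) v (m : 𝓞 K)).2 hm
  rw [map_natCast] at h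
  exact h

private theorem Lte_log_ge (v : HeightOneSpectrum (𝓞 K)) (m : ℕ) (hm : 1 ≤ m) :
    -(dg K * Real.log m) ≤ Real.log (FinitePlace.mk v (m : K)) := by
  classical
  have hm0 : (m : K) ≠ 0 := by exact_mod_cast (by omega : m ≠ 0)
  set B := (finite_support (K := K) hm0).toFinset ∪ {v} with hB
  have h := gap_prod (K := K) hm0 B (by
    intro w hw
    rw [hB, Finset.mem_union]
    left
    rw [Set.Finite.mem_toFinset]
    exact hw)
  have h1 : (∑ w : InfinitePlace K, (w.mult : ℝ) * Real.log (w (m : K))) = dg K * Real.log m := by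
    rw [Finset.sum_congr rfl (fun w _ => by rw [InfinitePlace.map_natCast]), ← Finset.sum_mul,
      ← Nat.cast_sum, InfinitePlace.sum_mult_eq]
    rfl
  have h2 : ∑ w ∈ B, Real.log (FinitePlace.mk w (m : K)) ≤ Real.log (FinitePlace.mk v (m : K)) := by
    have hvB : v ∈ B := by rw [hB]; simp
    rw [← Finset.add_sum_erase _ _ hvB]
    have : ∑ w ∈ B.erase v, Real.log (FinitePlace.mk w (m : K)) ≤ 0 :=
      Finset.sum_nonpos fun w _ => Real.log_nonpos (apply_nonneg _ _) (Lte_nat_le w m)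
    linarith
  linarith

private theorem Lte_pow_le (v : HeightOneSpectrum (𝓞 K)) (p : ℕ) (hp : 2 ≤ p)
    (hdvd : ∀ i : ℕ, (i : 𝓞 K) ∈ v.asIdeal → p ∣ i) :
    ∀ i : ℕ, 1 ≤ i → FinitePlace.mk v (p : K) ^ (i - 1) ≤ FinitePlace.mk v (i : K) := by
  intro i
  induction i using Nat.strong_induction_on with
  | _ i ih =>
    intro hi
    by_cases hm : (i : 𝓞 K) ∈ v.asIdeal
    · obtain ⟨j, rfl⟩ := hdvd i hm
      have hj : 1 ≤ j := by
        rcases Nat.eq_zero_or_pos j with h | h
        · subst h; omega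
        · exact h
      have hji : j < p * j := by nlinarith
      have h1 := ih j hji hj
      have h0 : (0 : ℝ) ≤ FinitePlace.mk v (p : K) := apply_nonneg _ _
      have h2 : FinitePlace.mk v (p : K) ^ (p * j - 1) ≤ FinitePlace.mk v (p : K) ^ j :=
        pow_le_pow_of_le_one h0 (Lte_nat_le v p) (by omega)
      have h3 : FinitePlace.mk v (p : K) ^ j =
          FinitePlace.mk v (p : K) * FinitePlace.mk v (p : K) ^ (j - 1) := by
        rw [← pow_succ']
        congr 1
        omega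
      push_cast
      rw [map_mul]
      calc _ ≤ FinitePlace.mk v (p : K) ^ j := h2
        _ = FinitePlace.mk v (p : K) * FinitePlace.mk v (p : K) ^ (j - 1) := h3
        _ ≤ _ := mul_le_mul_of_nonneg_left h1 h0
    · rw [Lte_nat_eq v i hm]
      exact pow_le_one₀ (apply_nonneg _ _) (Lte_nat_le v p)

private theorem Lte_prime (v : HeightOneSpectrum (𝓞 K)) :
    ∃ p : ℕ, 2 ≤ p ∧ (∀ i : ℕ, (i : 𝓞 K) ∈ v.asIdeal → p ∣ i) ∧ p ≤ Ideal.absNorm v.asIdeal := by
  classical
  have hN : 1 < Ideal.absNorm v.asIdeal := NumberField.HeightOneSpectrum.one_lt_absNorm v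
  have hex : ∃ m : ℕ, 0 < m ∧ (m : 𝓞 K) ∈ v.asIdeal :=
    ⟨Ideal.absNorm v.asIdeal, by omega, Ideal.absNorm_mem v.asIdeal⟩
  refine ⟨Nat.find hex, ?_, ?_, ?_⟩
  · have h := Nat.find_spec hex
    by_contra hlt
    have h1 : Nat.find hex = 1 := by omega
    rw [h1] at h
    have := h.2
    rw [Nat.cast_one] at this
    exact v.isPrime.ne_top ((Ideal.eq_top_iff_one _).2 this)
  · intro i hi
    have h := Nat.find_spec hex
    by_contra hnd
    have hr : 0 < i % Nat.find hex := Nat.pos_of_ne_zero fun h0 => hnd (Nat.dvd_of_mod_eq_zero h0)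
    have hlt : i % Nat.find hex < Nat.find hex := Nat.mod_lt _ h.1
    refine Nat.find_min hex hlt ⟨hr, ?_⟩
    have h2 : ((i % Nat.find hex : ℕ) : 𝓞 K) =
        (i : 𝓞 K) - (Nat.find hex : 𝓞 K) * ((i / Nat.find hex : ℕ) : 𝓞 K) := by
      have h3 := Nat.mod_add_div i (Nat.find hex)
      have h4 : ((i % Nat.find hex + Nat.find hex * (i / Nat.find hex) : ℕ) : 𝓞 K) = (i : 𝓞 K) := by
        rw [h3]
      rw [← h4]
      push_cast
      ring
    rw [h2]
    exact Ideal.sub_mem _ hi (Ideal.mul_mem_right _ _ h.2)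
  · exact Nat.find_min' hex ⟨by omega, Ideal.absNorm_mem v.asIdeal⟩

theorem lte {K : Type*} [Field K] [NumberField K] (v : HeightOneSpectrum (𝓞 K)) (n : ℕ)
    (hn : 1 ≤ n) (t : K) (ht : FinitePlace.mk v (t - 1) ≤ Real.exp (-((dg K + 1) * ln v))) :
    FinitePlace.mk v (t - 1) * FinitePlace.mk v (n : K) ≤ FinitePlace.mk v (t ^ n - 1) := by
  by_cases hu0 : t - 1 = 0
  · rw [hu0, map_zero, zero_mul]
    exact apply_nonneg _ _
  obtain ⟨p, hp2, hdvd, hpN⟩ := Lte_prime (K := K) v
  set V := FinitePlace.mk v with hV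
  set u := t - 1 with hu
  have hVu : 0 < V u := FinitePlace.pos_iff.2 hu0
  have hp0 : (p : K) ≠ 0 := by exact_mod_cast (by omega : p ≠ 0)
  have hVp : 0 < V (p : K) := FinitePlace.pos_iff.2 hp0
  have hn0 : (n : K) ≠ 0 := by exact_mod_cast (by omega : n ≠ 0)
  have hVn : 0 < V (n : K) := FinitePlace.pos_iff.2 hn0
  have hup : V u < V (p : K) := by
    have h1 := Lte_log_ge (K := K) v p (by omega)
    have h2 : Real.log p ≤ ln v := by
      refine Real.log_le_log (by exact_mod_cast (by omega : 0 < p)) ?_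
      exact_mod_cast hpN
    have h3 : Real.exp (-((dg K + 1) * ln v)) < V (p : K) := by
      rw [← Real.lt_log_iff_exp_lt hVp]
      have hl := gap_ln_pos (K := K) v
      have hd := one_le_dg K
      nlinarith
    exact lt_of_le_of_lt ht h3
  have ht1 : t = u + 1 := by rw [hu]; ring
  have hbin : t ^ n - 1 = (n : K) * u + ∑ i ∈ Finset.Ico 2 (n + 1), u ^ i * (n.choose i : K) := by
    rw [ht1, add_pow]
    simp only [one_pow, mul_one]
    rw [Finset.range_eq_Ico, Finset.sum_eq_sum_Ico_succ_bot (by omega),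
      Finset.sum_eq_sum_Ico_succ_bot (by omega)]
    simp
    ring
  have hpos : 0 < V u * V (n : K) := mul_pos hVu hVn
  have hsum : V (∑ i ∈ Finset.Ico 2 (n + 1), u ^ i * (n.choose i : K)) < V u * V (n : K) := by
    refine fp_sum_lt V _ _ hpos ?_
    intro i hi
    rw [Finset.mem_Ico] at hi
    obtain ⟨hi2, hin⟩ := hi
    have hi0 : (i : K) ≠ 0 := by exact_mod_cast (by omega : i ≠ 0)
    have hVi : 0 < V (i : K) := FinitePlace.pos_iff.2 hi0
    have hch : V (i : K) * V (n.choose i : K) = V (n : K) * V ((n - 1).choose (i - 1) : K) := by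
      rw [← map_mul, ← map_mul]
      congr 1
      have := Nat.add_one_mul_choose_eq (n - 1) (i - 1)
      have e1 : n - 1 + 1 = n := by omega
      have e2 : i - 1 + 1 = i := by omega
      rw [e1, e2] at this
      have h2 : ((n * (n - 1).choose (i - 1) : ℕ) : K) = ((n.choose i * i : ℕ) : K) := by
        rw [this]
      push_cast at h2
      rw [h2]
      ring
    have hch2 : V (i : K) * V (n.choose i : K) ≤ V (n : K) := by
      rw [hch]
      calc V (n : K) * V ((n - 1).choose (i - 1) : K) ≤ V (n : K) * 1 :=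
            mul_le_mul_of_nonneg_left (Lte_nat_le v _) hVn.le
        _ = V (n : K) := mul_one _
    have hpi := Lte_pow_le (K := K) v p hp2 hdvd i (by omega)
    have hlt : V u ^ (i - 1) < V (i : K) :=
      lt_of_lt_of_le (pow_lt_pow_left₀ hup hVu.le (by omega)) hpi
    rw [map_mul, map_pow]
    have hpow : V u ^ i = V u * V u ^ (i - 1) := by
      rw [← pow_succ']
      congr 1
      omega
    rw [hpow, mul_assoc]
    refine mul_lt_mul_of_pos_left ?_ hVu
    rcases eq_or_lt_of_le (apply_nonneg V (n.choose i : K)) with h0 | h0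
    · rw [← h0, mul_zero]; exact hVn
    · calc V u ^ (i - 1) * V (n.choose i : K) < V (i : K) * V (n.choose i : K) :=
            mul_lt_mul_of_pos_right hlt h0
        _ ≤ V (n : K) := hch2
  by_contra hcon
  push Not at hcon
  have h1 : (n : K) * u = (t ^ n - 1) - ∑ i ∈ Finset.Ico 2 (n + 1), u ^ i * (n.choose i : K) := by
    rw [hbin]; ring
  have h2 : V ((n : K) * u) < V u * V (n : K) := by
    rw [h1]
    exact lt_of_le_of_lt (fp_sub_le V _ _) (max_lt hcon hsum)
  rw [map_mul, mul_comm] at h2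
  exact lt_irrefl _ h2

end Pool.Agent.FPL
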