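import Pool.Agent.FPL.CountA
import Pool.Agent.FPL.CountC3
import Pool.Agent.FPL.Knap
import Pool.Agent.TMS.CorA

/-!
# Main3: elements of bounded radical whose multiplicities have no large prime factor

Every `x` with `hgt x` large is counted by `countA` (drop a set `D` of places of mass at most `(1 - δ) hgt x`)
or by `countC3` (drop a part `i`, keep a subset `C'` of it, and drop a heavy place `v` outside the part; cost: the
logarithm of a divisor `n ≥ R' ^ (1 + e / 32)` of the multiplicity), with `ρ = θ R`, `R' = κ R`. The alternative is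
`main_alt3`.
-/

namespace Pool.Agent.FPL

open NumberField IsDedekindDomain Pool.Agent.H7.Abc Pool.Agent.AbcE Pool.Agent.AbcF Pool.Agent.TMS
  Pool.Agent.TM2

section mainHelpers3

variable {K : Type*} [Field K] [NumberField K]

private theorem m3_log_two_le (v : HeightOneSpectrum (𝓞 K)) : Real.log 2 ≤ ln v := by
  unfold ln
  exact Real.log_le_log (by norm_num) (two_le_norm v)

private theorem m3_LN_sdiff [DecidableEq (HeightOneSpectrum (𝓞 K))]
    {A B : Finset (HeightOneSpectrum (𝓞 K))} (h : A ⊆ B) :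
    LN (B \ A) = LN B - LN A := by
  have := Finset.sum_sdiff (f := fun v => ln v) h
  unfold LN at *
  linarith

private theorem m3_LN_mono {A B : Finset (HeightOneSpectrum (𝓞 K))} (h : A ⊆ B) :
    LN A ≤ LN B := by
  unfold LN
  exact Finset.sum_le_sum_of_subset_of_nonneg h fun v _ _ => (ln_pos v).le

/-- The mass of a part. -/
private theorem m3_mass {x : K} (hx : x ≠ 0) (hx1 : x ≠ 1) (i : Fin 3)
    (A : Finset (HeightOneSpectrum (𝓞 K))) (hA : ∀ v ∈ A, prt x v = i) :
    ∑ v ∈ A, ms x v ≤ hgt x + dg K * Real.log 2 := by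
  have hd0 : 0 ≤ dg K * Real.log 2 :=
    mul_nonneg (by linarith [one_le_dg K]) (Real.log_pos (by norm_num)).le
  fin_cases i
  · have := mass_zero hx hx1 A hA
    linarith
  · exact mass_one hx hx1 A hA
  · have := mass_two hx hx1 A hA
    linarith

omit [NumberField K] in
/-- A divisor of a smooth number in a given interval. -/
private theorem m3_divisor (n : ℕ) (Q P : ℝ) (hQ : 1 ≤ Q) (hP : 1 ≤ P) (hn : Q ≤ n)
    (hpr : ∀ p : ℕ, p.Prime → p ∣ n → (p : ℝ) ≤ P) :
    ∃ e : ℕ, e ∣ n ∧ Q ≤ e ∧ (e : ℝ) ≤ Q * P := by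
  classical
  have hex : ∃ e : ℕ, e ∣ n ∧ Q ≤ e := ⟨n, dvd_refl n, hn⟩
  obtain ⟨h1, h2⟩ := Nat.find_spec hex
  set e := Nat.find hex with he
  refine ⟨e, h1, h2, ?_⟩
  by_contra hcon
  push Not at hcon
  have h3 : (1 : ℝ) < e := by nlinarith
  have h4 : e ≠ 1 := by
    intro h
    rw [h] at h3
    norm_num at h3
  obtain ⟨p, hp, hpe⟩ := Nat.exists_prime_and_dvd h4
  obtain ⟨k, hk⟩ := hpe
  have hkn : k ∣ n := (Dvd.intro_left p hk.symm).trans h1
  have hpP := hpr p hp ((Dvd.intro k hk.symm).trans h1)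
  have hp0 : (0 : ℝ) < p := by exact_mod_cast hp.pos
  have h5 : (e : ℝ) = p * k := by rw [hk]; push_cast; ring
  have h6 : Q ≤ k := by
    by_contra h7
    push Not at h7
    rw [h5] at hcon
    have h8 : (p : ℝ) * k ≤ P * Q := by
      have hk0 : (0 : ℝ) ≤ k := Nat.cast_nonneg _
      exact mul_le_mul hpP h7.le hk0 (by linarith)
    linarith [mul_comm P Q]
  have h7 : k < e := by
    have hk0 : 0 < k := by
      rcases Nat.eq_zero_or_pos k with h8 | h8
      · rw [h8] at h6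
        norm_num at h6
        linarith
      · exact h8
    rw [hk]
    have := hp.two_le
    nlinarith
  exact Nat.find_min hex h7 ⟨hkn, h6⟩

open Classical in
/-- The set `D` of places dropped in the part `i`. -/
private theorem m3_drop (δ e R : ℝ) (hδ : 0 < δ) (hδ1 : δ ≤ 1 / 4) (hR : 1 ≤ R)
    (hRδ : 1 ≤ δ * R ^ (e / 32)) {x : K} (hx : x ≠ 0) (hx1 : x ≠ 1) (hrad : LN (fs x) ≤ R)
    (hH1 : 1 ≤ hgt x) (hH : dg K * Real.log 2 ≤ δ * hgt x) (hbig : R ^ (2 + e / 16) < hgt x)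
    (i : Fin 3) :
    ∃ D ⊆ (fs x).filter (fun u => prt x u = i), ∑ u ∈ D, ms x u ≤ (1 - δ) * hgt x ∧
      (LN ((fs x).filter (fun u => prt x u = i) \ D) ≤
        3 * δ * LN ((fs x).filter (fun u => prt x u = i)) ∨
      ∃ k ∈ fs x, prt x k = i ∧ R ^ (1 + e / 32) ≤ (mlt x k : ℝ) ∧
        LN ((fs x).filter (fun u => prt x u = i) \ D) ≤
        3 * δ * LN ((fs x).filter (fun u => prt x u = i)) + ln k) := by
  set h : ℝ := hgt x with hhdef
  have hh0 : 0 < h := by linarith
  have hR0 : 0 < R := by linarith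
  have hd0 : 0 ≤ dg K * Real.log 2 :=
    mul_nonneg (by linarith [one_le_dg K]) (Real.log_pos (by norm_num)).le
  set Q : ℝ := R ^ (1 + e / 32) with hQ
  have hQ0 : 0 < Q := Real.rpow_pos_of_pos hR0 _
  have hQR : Q * R ≤ δ * h := by
    have h1 : R ^ (2 + e / 16) = Q * R * R ^ (e / 32) := by
      have h2 : Q * R = R ^ (2 + e / 32) := by
        rw [hQ]
        nth_rewrite 2 [← Real.rpow_one R]
        rw [← Real.rpow_add hR0]
        congr 1
        ring
      rw [h2, ← Real.rpow_add hR0]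
      congr 1
      ring
    rw [h1] at hbig
    have h3 : 0 < Q * R := mul_pos hQ0 hR0
    calc Q * R ≤ Q * R * (δ * R ^ (e / 32)) := le_mul_of_one_le_right h3.le hRδ
      _ = δ * (Q * R * R ^ (e / 32)) := by ring
      _ ≤ δ * h := mul_le_mul_of_nonneg_left hbig.le hδ.le
  set Pt : Finset (HeightOneSpectrum (𝓞 K)) := (fs x).filter (fun u => prt x u = i) with hPt
  set A : Finset (HeightOneSpectrum (𝓞 K)) := Pt.filter (fun u => Q ≤ (mlt x u : ℝ)) with hA
  set L : Finset (HeightOneSpectrum (𝓞 K)) := Pt.filter (fun u => ¬ Q ≤ (mlt x u : ℝ)) with hL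
  have hAP : A ⊆ Pt := Finset.filter_subset _ _
  have hLP : L ⊆ Pt := Finset.filter_subset _ _
  have hPf : Pt ⊆ fs x := Finset.filter_subset _ _
  have hLmass : ∑ u ∈ L, ms x u ≤ δ * h := by
    calc ∑ u ∈ L, ms x u ≤ ∑ u ∈ L, Q * ln u := by
          refine Finset.sum_le_sum fun u hu => ?_
          rw [hL, Finset.mem_filter] at hu
          unfold ms
          exact mul_le_mul_of_nonneg_right (not_le.1 hu.2).le (ln_pos u).le
      _ = Q * LN L := by
          unfold LN
          rw [Finset.mul_sum]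
      _ ≤ Q * R := mul_le_mul_of_nonneg_left ((m3_LN_mono (hLP.trans hPf)).trans hrad) hQ0.le
      _ ≤ δ * h := hQR
  set M : ℝ := (1 + δ) * h with hM
  set m : ℝ := (1 - 2 * δ) * h with hm
  have hM0 : 0 < M := by rw [hM]; positivity
  have hm0 : 0 ≤ m := by rw [hm]; exact mul_nonneg (by linarith) hh0.le
  have hmM : m ≤ M := by
    rw [hm, hM]
    nlinarith
  have hAmass : ∑ v ∈ A, ms x v ≤ M := by
    have h1 := m3_mass hx hx1 i A (fun v hv => by
      have h2 := hAP hv
      rw [hPt, Finset.mem_filter] at h2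
      exact h2.2)
    rw [hM]
    linarith
  obtain ⟨D, hDsub, hDm, hD⟩ := knap A (fun v => ln v) (ms x) (fun v _ => (ln_pos v).le)
    (fun v _ => ms_nonneg x v) m M hm0 hmM hM0 hAmass
  have hratio : 1 - 3 * δ ≤ m / M := by
    rw [le_div_iff₀ hM0, hm, hM]
    nlinarith [mul_pos hδ hh0, mul_pos hδ (mul_pos hδ hh0)]
  have hLA : 0 ≤ LN A := LN_nonneg _
  have hratio' : (1 - 3 * δ) * LN A ≤ m / M * ∑ i ∈ A, ln i :=
    mul_le_mul_of_nonneg_right hratio hLA
  have hDL : Pt \ (D ∪ L) = A \ D := by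
    ext u
    simp only [Finset.mem_sdiff, Finset.mem_union, hA, hL, Finset.mem_filter, not_or, not_and,
      not_not]
    tauto
  have hAs : LN (A \ D) = LN A - LN D := m3_LN_sdiff hDsub
  have hAle : LN A ≤ LN Pt := m3_LN_mono hAP
  refine ⟨D ∪ L, Finset.union_subset (hDsub.trans hAP) hLP, ?_, ?_⟩
  · have h1 : ∑ u ∈ D ∪ L, ms x u ≤ ∑ u ∈ D, ms x u + ∑ u ∈ L, ms x u := by
      rw [← Finset.sum_union_inter]
      have : 0 ≤ ∑ u ∈ D ∩ L, ms x u := Finset.sum_nonneg fun u _ => ms_nonneg x u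
      linarith
    rw [hm] at hDm
    linarith
  · rw [hDL, hAs]
    rcases hD with hD | ⟨k, hk, hD⟩
    · left
      have h2 : (1 - 3 * δ) * LN A ≤ LN D := hratio'.trans hD
      nlinarith
    · right
      rw [Finset.mem_sdiff] at hk
      have h2 : (1 - 3 * δ) * LN A ≤ LN D + ln k := hratio'.trans hD
      have hk1 : k ∈ A := hk.1
      rw [hA, Finset.mem_filter] at hk1
      have hk2 := hk1.1
      rw [hPt, Finset.mem_filter] at hk2
      exact ⟨k, hk2.1, hk2.2, hk1.2, by nlinarith⟩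

open Classical in
/-- The alternative. -/
private theorem main_alt3 (g θ δ e R R' : ℝ) (hg : 0 ≤ g) (hδ : 0 < δ) (hδ1 : δ ≤ 1 / 4)
    (he0 : 0 < e) (he1 : e ≤ 1)
    (hθ0 : 2 / 3 ≤ θ) (hθ : 4 / 3 + 3 * δ + 2 * g + e ≤ 2 * θ) (hR : 1 ≤ R) (hRR' : R ≤ R')
    (hRe : 4 * Real.log R' ≤ e * R) (hRδ : 1 ≤ δ * R' ^ (e / 32)) {x : K} (hx : x ≠ 0)
    (hx1 : x ≠ 1) (hrad : rad x ≤ R)
    (hh : ∀ v ∈ fs x, ∀ p : ℕ, p.Prime → p ∣ mlt x v → (p : ℝ) ≤ Real.exp (g * R))
    (hH1 : 1 ≤ hgt x) (hH : dg K * Real.log 2 ≤ δ * hgt x) :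
    (∃ P ⊆ fs x, LN P ≤ θ * R ∧ ∑ v ∈ fs x \ P, ms x v ≤ (1 - δ) * hgt x) ∨
      ∃ i : Fin 3,
        (hgt x ≤ R' ^ (2 + e / 16) ∧ LN ((fs x).filter (fun u => prt x u ≠ i)) ≤ θ * R) ∨
        ∃ C' ⊆ (fs x).filter (fun u => prt x u = i), ∃ v ∈ fs x, prt x v ≠ i ∧
          ∃ n : ℕ, n ∣ mlt x v ∧ R' ^ (1 + e / 32) ≤ (n : ℝ) ∧
          ∑ u ∈ (fs x).filter (fun u => prt x u = i) \ C', ms x u ≤ (1 - δ) * hgt x ∧
          LN (((fs x).filter (fun u => prt x u ≠ i)).erase v) + LN C' + Real.log n ≤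
            θ * R := by
  have hR0 : 0 < R := by linarith
  have hR'1 : 1 ≤ R' := hR.trans hRR'
  set r : ℝ := LN (fs x) with hr
  have hrR : r ≤ R := by
    rw [hr]
    unfold LN
    rw [← rad_fs hx hx1]
    exact hrad
  have hr0 : 0 ≤ r := LN_nonneg _
  set s : Fin 3 → ℝ := fun i => LN ((fs x).filter (fun u => prt x u = i)) with hs
  have hs0 : ∀ i, 0 ≤ s i := fun i => LN_nonneg _
  have hsum : s 0 + s 1 + s 2 = r := by
    have h1 : ∑ i : Fin 3, ∑ u ∈ (fs x).filter (fun u => prt x u = i), ln u = ∑ u ∈ fs x, ln u :=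
      Finset.sum_fiberwise (fs x) (prt x) (fun u => ln u)
    rw [Fin.sum_univ_three] at h1
    exact h1
  have hne : ∀ i, LN ((fs x).filter (fun u => prt x u ≠ i)) = r - s i := by
    intro i
    have h1 := Finset.sum_filter_add_sum_filter_not (fs x) (fun u => prt x u = i)
      (fun u => ln u)
    have h2 : s i + LN ((fs x).filter (fun u => prt x u ≠ i)) = r := h1
    linarith
  rcases le_or_gt (hgt x) (R' ^ (2 + e / 16)) with hsm | hbig
  · right
    have h1 : ∃ i, r / 3 ≤ s i := by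
      by_contra hcon
      push Not at hcon
      have a0 := hcon 0
      have a1 := hcon 1
      have a2 := hcon 2
      linarith
    obtain ⟨i, hi⟩ := h1
    refine ⟨i, Or.inl ⟨hsm, ?_⟩⟩
    rw [hne i]
    nlinarith
  · by_contra hcon
    push Not at hcon
    obtain ⟨hA, hC⟩ := hcon
    choose D hDsub hDm hD using m3_drop δ e R' hδ hδ1 hR'1 hRδ hx hx1 (hrR.trans hRR') hH1 hH hbig
    have hsd : ∀ i, LN ((fs x).filter (fun u => prt x u = i) \ D i) = s i - LN (D i) :=
      fun i => m3_LN_sdiff (hDsub i)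
    -- the first tool fails
    have hAi : ∀ i, θ * R < r - s i + LN ((fs x).filter (fun u => prt x u = i) \ D i) := by
      intro i
      have hDf : D i ⊆ fs x := (hDsub i).trans (Finset.filter_subset _ _)
      by_contra h2
      push Not at h2
      have h4 : LN (fs x \ D i) = r - LN (D i) := m3_LN_sdiff hDf
      have h3 := hA (fs x \ D i) Finset.sdiff_subset (by rw [h4]; rw [hsd i] at h2; linarith)
      rw [Finset.sdiff_sdiff_eq_self hDf] at h3
      linarith [hDm i]
    -- the second tool fails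
    have hCi : ∀ i, ∀ k ∈ fs x, prt x k ≠ i → R' ^ (1 + e / 32) ≤ (mlt x k : ℝ) →
        θ * R < r - s i - ln k + LN ((fs x).filter (fun u => prt x u = i) \ D i) +
          (g * R + 2 * Real.log R') := by
      intro i k hk hki hkQ
      obtain ⟨-, h2⟩ := hC i
      have hgR : 0 ≤ g * R := mul_nonneg hg hR0.le
      have hQ1 : 1 ≤ R' ^ (1 + e / 32) := Real.one_le_rpow hR'1 (by linarith)
      obtain ⟨n, hn1, hn2, hn3⟩ := m3_divisor (mlt x k) (R' ^ (1 + e / 32)) (Real.exp (g * R)) hQ1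
        (Real.one_le_exp hgR) hkQ (hh k hk)
      have hlog : Real.log n ≤ g * R + 2 * Real.log R' := by
        have hn0 : (0 : ℝ) < n := by linarith
        have a1 := Real.log_le_log hn0 hn3
        rw [Real.log_mul (by positivity) (Real.exp_pos _).ne', Real.log_exp,
          Real.log_rpow (by linarith)] at a1
        have a2 : 0 ≤ Real.log R' := Real.log_nonneg hR'1
        nlinarith
      have h3 := h2 ((fs x).filter (fun u => prt x u = i) \ D i) Finset.sdiff_subset k hk hki n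
        hn1 hn2
        (by
          rw [Finset.sdiff_sdiff_eq_self (hDsub i)]
          exact hDm i)
      have h4 : LN (((fs x).filter (fun u => prt x u ≠ i)).erase k) = r - s i - ln k := by
        have hkm : k ∈ (fs x).filter (fun u => prt x u ≠ i) := Finset.mem_filter.2 ⟨hk, hki⟩
        have h5 := Finset.sum_erase_add ((fs x).filter (fun u => prt x u ≠ i))
          (fun v => ln v) hkm
        have h6 := hne i
        unfold LN at *
        linarith
      rw [h4] at h3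
      linarith
    -- the two largest parts
    have h2 : ∃ i j : Fin 3, i ≠ j ∧ 2 / 3 * r ≤ s i + s j ∧ s i + s j ≤ r := by
      by_contra hcon
      push Not at hcon
      have a0 := hcon 0 1 (by decide)
      have a1 := hcon 1 2 (by decide)
      have a2 := hcon 0 2 (by decide)
      have b0 := hs0 0
      have b1 := hs0 1
      have b2 := hs0 2
      by_cases c0 : 2 / 3 * r ≤ s 0 + s 1
      · linarith [a0 c0]
      by_cases c1 : 2 / 3 * r ≤ s 1 + s 2
      · linarith [a1 c1]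
      by_cases c2 : 2 / 3 * r ≤ s 0 + s 2
      · linarith [a2 c2]
      push Not at c0 c1 c2
      linarith
    obtain ⟨i, j, hij, hsij, hsij'⟩ := h2
    have hgR : 0 ≤ g * R := mul_nonneg hg hR0.le
    have hlR : 0 ≤ Real.log R' := Real.log_nonneg hR'1
    have hkey : 2 * r - (s i + s j) + 3 * δ * (s i + s j) + 2 * (g * R + 2 * Real.log R') ≤
        2 * (θ * R) := by
      have h3 : 3 * δ * (s i + s j) ≤ 3 * δ * R :=
        mul_le_mul_of_nonneg_left (hsij'.trans hrR) (by positivity)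
      have h4 : (4 / 3 + 3 * δ + 2 * g + e) * R ≤ 2 * θ * R :=
        mul_le_mul_of_nonneg_right hθ hR0.le
      nlinarith
    have hAi' := hAi i
    have hAj' := hAi j
    rcases hD i with h5 | ⟨k, hk, hki, hkQ, h5⟩
    · rcases hD j with h6 | ⟨l, hl, hlj, hlQ, h6⟩
      · change _ ≤ 3 * δ * s i at h5
        change _ ≤ 3 * δ * s j at h6
        linarith
      · change _ ≤ 3 * δ * s i at h5
        change _ ≤ 3 * δ * s j + _ at h6
        have h7 := hCi i l hl (by rw [hlj]; exact hij.symm) hlQ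
        linarith
    · rcases hD j with h6 | ⟨l, hl, hlj, hlQ, h6⟩
      · change _ ≤ 3 * δ * s i + _ at h5
        change _ ≤ 3 * δ * s j at h6
        have h7 := hCi j k hk (by rw [hki]; exact hij) hkQ
        linarith
      · change _ ≤ 3 * δ * s i + _ at h5
        change _ ≤ 3 * δ * s j + _ at h6
        have h7 := hCi i l hl (by rw [hlj]; exact hij.symm) hlQ
        have h8 := hCi j k hk (by rw [hki]; exact hij) hkQ
        linarith

end mainHelpers3

open Classical in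
private theorem main_core3 (K : Type*) [Field K] [NumberField K] (g θ δ e κ : ℝ) (hg : 0 ≤ g)
    (hκ : 1 ≤ κ) (hδ : 0 < δ) (hδ1 : δ ≤ 1 / 4) (he : 0 < e) (he1 : e ≤ 1)
    (hθ0 : 2 / 3 ≤ θ) (hθ1 : θ ≤ 1) (hθ : 4 / 3 + 3 * δ + 2 * g + e ≤ 2 * θ) :
    ∃ C R0 : ℝ, 0 ≤ C ∧ 1 ≤ R0 ∧ ∀ R : ℝ, R0 ≤ R → ∀ S : Finset K,
      (∀ x ∈ S, x ≠ 0 ∧ x ≠ 1 ∧ rad x ≤ R ∧ hgt x ≤ Real.exp (κ * R / 2) ∧
        ∀ v ∈ fs x, ∀ p : ℕ, p.Prime → p ∣ mlt x v → (p : ℝ) ≤ Real.exp (g * R)) →
      (S.card : ℝ) ≤ C * Real.exp ((θ + e * κ) * R) := by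
  obtain ⟨CA, hCA, hA⟩ := countA K δ e hδ (by linarith) he
  obtain ⟨CC, hCC, hC⟩ := countC3 K e δ he he1 hδ (by linarith)
  set H1 : ℝ := dg K * Real.log 2 / δ + 1 with hH1
  have hfin : {x : K | hgt x ≤ H1}.Finite := by
    refine (NumberField.finite_setOfPred_logHeight₁_le K H1).subset fun x hx => ?_
    have h1 : hgt x ≤ H1 := hx
    rw [hgt_eq] at h1
    exact h1
  set N0 : ℝ := (hfin.toFinset.card : ℝ) with hN0
  have hN00 : 0 ≤ N0 := Nat.cast_nonneg _
  set R2 : ℝ := (1 / δ) ^ (32 / e) with hR2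
  obtain ⟨R3, hR3, hlogR⟩ : ∃ R3 : ℝ, 1 ≤ R3 ∧ ∀ R : ℝ, R3 ≤ R →
      4 * Real.log (κ * R) ≤ e * R := by
    -- `log y ≤ 2 sqrt y`
    refine ⟨64 * κ / e ^ 2 + 1, by
      have : 0 ≤ 64 * κ / e ^ 2 := by positivity
      linarith, fun R hR => ?_⟩
    have hR0 : 0 < R := by
      have : 0 ≤ 64 * κ / e ^ 2 := by positivity
      linarith
    have hy : 0 < κ * R := by positivity
    have hs : 0 < Real.sqrt (κ * R) := Real.sqrt_pos.2 hy
    have h1 : Real.log (κ * R) ≤ 2 * Real.sqrt (κ * R) := by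
      have h2 : Real.log (κ * R) = 2 * Real.log (Real.sqrt (κ * R)) := by
        rw [Real.log_sqrt hy.le]; ring
      rw [h2]
      have h3 := Real.log_le_sub_one_of_pos hs
      linarith
    have h4 : Real.sqrt (κ * R) ≤ e * R / 8 := by
      rw [Real.sqrt_le_left (by positivity)]
      have h5 : 64 * κ / e ^ 2 ≤ R := by linarith
      rw [div_le_iff₀ (by positivity)] at h5
      nlinarith
    linarith
  refine ⟨N0 + CA + CC, max (max CC 1) (max R3 R2), by linarith,
    le_max_of_le_left (le_max_right _ _), fun R hR S hS => ?_⟩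
  have hRC : CC ≤ R := (le_max_left _ _).trans ((le_max_left _ _).trans hR)
  have hR1 : 1 ≤ R := (le_max_right _ _).trans ((le_max_left _ _).trans hR)
  have hR0 : 0 < R := by linarith
  set R' : ℝ := κ * R with hR'
  have hRR' : R ≤ R' := by rw [hR']; nlinarith
  have hRe : 4 * Real.log R' ≤ e * R :=
    hlogR R ((le_max_left _ _).trans ((le_max_right _ _).trans hR))
  have hRδ : 1 ≤ δ * R' ^ (e / 32) := by
    have h1 : R2 ≤ R' := ((le_max_right _ _).trans ((le_max_right _ _).trans hR)).trans hRR'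
    have h2 : R2 ^ (e / 32) ≤ R' ^ (e / 32) :=
      Real.rpow_le_rpow (by positivity) h1 (by positivity)
    have h3 : R2 ^ (e / 32) = 1 / δ := by
      rw [hR2, ← Real.rpow_mul (by positivity)]
      have : 32 / e * (e / 32) = 1 := by field_simp
      rw [this, Real.rpow_one]
    rw [h3] at h2
    calc (1 : ℝ) = δ * (1 / δ) := by field_simp
      _ ≤ _ := mul_le_mul_of_nonneg_left h2 hδ.le
  set QA : K → Prop := fun x => ∃ P ⊆ fs x, LN P ≤ θ * R ∧
    ∑ v ∈ fs x \ P, ms x v ≤ (1 - δ) * hgt x with hQA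
  set QC : K → Prop := fun x => ∃ i : Fin 3,
        (hgt x ≤ R' ^ (2 + e / 16) ∧ LN ((fs x).filter (fun u => prt x u ≠ i)) ≤ θ * R) ∨
        ∃ C' ⊆ (fs x).filter (fun u => prt x u = i), ∃ v ∈ fs x, prt x v ≠ i ∧
          ∃ n : ℕ, n ∣ mlt x v ∧ R' ^ (1 + e / 32) ≤ (n : ℝ) ∧
          ∑ u ∈ (fs x).filter (fun u => prt x u = i) \ C', ms x u ≤ (1 - δ) * hgt x ∧
          LN (((fs x).filter (fun u => prt x u ≠ i)).erase v) + LN C' + Real.log n ≤
            θ * R with hQC
  have hexp : 1 ≤ Real.exp ((θ + e * κ) * R) := Real.one_le_exp (by positivity)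
  have hθR0 : 0 ≤ θ * R := by positivity
  have hθR1 : θ * R ≤ R' := by nlinarith
  have hκR : κ * R / 2 ≤ R' := by rw [hR']; nlinarith
  have hexp2 : θ * R + e * R' = (θ + e * κ) * R := by rw [hR']; ring
  have hcardA : ((S.filter QA).card : ℝ) ≤ CA * Real.exp ((θ + e * κ) * R) := by
    have h1 := hA R' (θ * R) (hR1.trans hRR') hθR0 hθR1 (S.filter QA) (by
      intro x hx
      rw [Finset.mem_filter] at hx
      obtain ⟨a1, a2, a3, a4, -⟩ := hS x hx.1
      exact ⟨a1, a2, a4.trans (Real.exp_le_exp.2 hκR), hx.2⟩)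
    rwa [hexp2] at h1
  have hcardC : ((S.filter QC).card : ℝ) ≤ CC * Real.exp ((θ + e * κ) * R) := by
    have h1 := hC R' (hRC.trans hRR') (θ * R) hθR0 hθR1 (S.filter QC) (by
      intro x hx
      rw [Finset.mem_filter] at hx
      obtain ⟨a1, a2, a3, a4, -⟩ := hS x hx.1
      exact ⟨a1, a2, a3.trans hRR', a4, hx.2⟩)
    rwa [hexp2] at h1
  have hcover : S ⊆ hfin.toFinset ∪ (S.filter QA ∪ S.filter QC) := by
    intro x hx
    obtain ⟨a1, a2, a3, a4, a5⟩ := hS x hx
    rw [Finset.mem_union, Finset.mem_union]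
    by_cases h1 : hgt x ≤ H1
    · left
      rw [Set.Finite.mem_toFinset]
      exact h1
    · right
      push Not at h1
      have hd0 : 0 ≤ dg K * Real.log 2 / δ :=
        div_nonneg (mul_nonneg (by linarith [one_le_dg K]) (Real.log_pos (by norm_num)).le) hδ.le
      have h2 : 1 ≤ hgt x := by linarith
      have h3 : dg K * Real.log 2 ≤ δ * hgt x := by
        have h4 : dg K * Real.log 2 / δ ≤ hgt x := by linarith
        rw [div_le_iff₀ hδ] at h4
        linarith
      rcases main_alt3 g θ δ e R R' hg hδ hδ1 he he1 hθ0 hθ hR1 hRR' hRe hRδ a1 a2 a3 a5 h2 h3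
        with h5 | h5
      · left
        exact Finset.mem_filter.2 ⟨hx, h5⟩
      · right
        exact Finset.mem_filter.2 ⟨hx, h5⟩
  have h1 : (S.card : ℝ) ≤ N0 + (((S.filter QA).card : ℝ) + ((S.filter QC).card : ℝ)) := by
    have h2 := (Finset.card_le_card hcover).trans (Finset.card_union_le _ _)
    have h3 := Finset.card_union_le (S.filter QA) (S.filter QC)
    have h4 : S.card ≤ hfin.toFinset.card + ((S.filter QA).card + (S.filter QC).card) := by omega
    rw [hN0]
    exact_mod_cast h4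
  calc (S.card : ℝ) ≤ N0 + (((S.filter QA).card : ℝ) + ((S.filter QC).card : ℝ)) := h1
    _ ≤ N0 * Real.exp ((θ + e * κ) * R) + (CA * Real.exp ((θ + e * κ) * R) +
        CC * Real.exp ((θ + e * κ) * R)) := by
        have h5 : N0 ≤ N0 * Real.exp ((θ + e * κ) * R) := le_mul_of_one_le_right hN00 hexp
        linarith
    _ = (N0 + CA + CC) * Real.exp ((θ + e * κ) * R) := by ring

/-- Elements of radical at most `R` and height at most `A exp (κ R)`, all of whose multiplicities have no prime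
factor larger than `A exp (γ R)`: at most `C exp ((2/3 + γ + ε) R)` of them. -/
theorem main_fpl3 (K : Type*) [Field K] [NumberField K] (A κ γ ε : ℝ) (hγ : 0 ≤ γ) (hε : 0 < ε) :
    ∃ C : ℝ, ∀ R : ℝ, 0 ≤ R →
      {x : K | x ≠ 0 ∧ x ≠ 1 ∧ rad x ≤ R ∧ hgt x ≤ A * Real.exp (κ * R) ∧
        ∀ v ∈ fs x, ∀ p : ℕ, p.Prime → p ∣ mlt x v → (p : ℝ) ≤ A * Real.exp (γ * R)}.Finite ∧
      ({x : K | x ≠ 0 ∧ x ≠ 1 ∧ rad x ≤ R ∧ hgt x ≤ A * Real.exp (κ * R) ∧
        ∀ v ∈ fs x, ∀ p : ℕ, p.Prime → p ∣ mlt x v →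
          (p : ℝ) ≤ A * Real.exp (γ * R)}.ncard : ℝ) ≤
        C * Real.exp ((2 / 3 + γ + ε) * R) := by
  obtain ⟨Cc, cc, hCc, hcc, hcc1, hcor⟩ := corA K
  set X : ℝ → Set K := fun R => {x : K | x ≠ 0 ∧ x ≠ 1 ∧ rad x ≤ R ∧ hgt x ≤ A * Real.exp (κ * R) ∧
    ∀ v ∈ fs x, ∀ p : ℕ, p.Prime → p ∣ mlt x v → (p : ℝ) ≤ A * Real.exp (γ * R)} with hX
  have hsub : ∀ R : ℝ, X R ⊆ {x : K | x ≠ 0 ∧ x ≠ 1 ∧ rad x ≤ R} :=
    fun R x hx => ⟨hx.1, hx.2.1, hx.2.2.1⟩
  change ∃ C : ℝ, ∀ R : ℝ, 0 ≤ R → (X R).Finite ∧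
    ((X R).ncard : ℝ) ≤ C * Real.exp ((2 / 3 + γ + ε) * R)
  by_cases hbig : 1 ≤ 2 / 3 + γ + ε
  · refine ⟨Cc, fun R hR => ?_⟩
    obtain ⟨f1, h1⟩ := hcor R hR
    refine ⟨f1.subset (hsub R), ?_⟩
    have h2 : ((X R).ncard : ℝ) ≤ ({x : K | x ≠ 0 ∧ x ≠ 1 ∧ rad x ≤ R}.ncard : ℝ) := by
      exact_mod_cast Set.ncard_le_ncard (hsub R) f1
    refine (h2.trans h1).trans (mul_le_mul_of_nonneg_left (Real.exp_le_exp.2 ?_) hCc.le)
    have h3 : 0 ≤ R ^ cc := Real.rpow_nonneg hR cc
    nlinarith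
  · push Not at hbig
    set κ' : ℝ := 2 * (|κ| + 1) with hκ'
    have hκ'1 : 1 ≤ κ' := by
      have := abs_nonneg κ
      rw [hκ']
      linarith
    have hκ'0 : 0 < κ' := by linarith
    have he1 : ε / (8 * κ') ≤ ε / 8 := by
      apply div_le_div_of_nonneg_left hε.le (by norm_num)
      nlinarith
    have he0 : 0 < ε / (8 * κ') := by positivity
    have heκ : ε / (8 * κ') * κ' = ε / 8 := by field_simp
    obtain ⟨C, R0, hC, hR0, hmain⟩ := main_core3 K (γ + ε / 4) (2 / 3 + γ + 3 * ε / 4) (ε / 16)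
      (ε / (8 * κ')) κ' (by linarith) hκ'1 (by linarith) (by linarith) he0 (by linarith)
      (by linarith) (by linarith) (by linarith)
    set R1 : ℝ := max (max R0 (|Real.log (max A 1)|)) (4 * |Real.log (max A 1)| / ε) with hR1
    set N1 : ℝ := (({x : K | x ≠ 0 ∧ x ≠ 1 ∧ rad x ≤ R1}.ncard : ℕ) : ℝ) with hN1
    have hN10 : 0 ≤ N1 := Nat.cast_nonneg _
    have hR10 : 0 ≤ R1 := le_max_of_le_left (le_max_of_le_left (by linarith))
    refine ⟨C + N1, fun R hR => ?_⟩
    obtain ⟨f1, -⟩ := hcor R hR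
    have hfin := f1.subset (hsub R)
    refine ⟨hfin, ?_⟩
    have hexp : 1 ≤ Real.exp ((2 / 3 + γ + ε) * R) := Real.one_le_exp (by positivity)
    rcases le_or_gt R1 R with h | h
    · have hRR0 : R0 ≤ R := (le_max_left _ _).trans ((le_max_left _ _).trans h)
      have h3 : (0 : ℝ) < max A 1 := lt_max_of_lt_right one_pos
      have hAR : A * Real.exp (γ * R) ≤ Real.exp ((γ + ε / 4) * R) := by
        have h1 : 4 * |Real.log (max A 1)| / ε ≤ R := (le_max_right _ _).trans h
        rw [div_le_iff₀ hε] at h1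
        have h2 : Real.log (max A 1) ≤ ε / 4 * R := by
          have := le_abs_self (Real.log (max A 1))
          linarith
        have h4 : A ≤ Real.exp (ε / 4 * R) := by
          calc A ≤ max A 1 := le_max_left _ _
            _ = Real.exp (Real.log (max A 1)) := (Real.exp_log h3).symm
            _ ≤ _ := Real.exp_le_exp.2 h2
        calc A * Real.exp (γ * R) ≤ Real.exp (ε / 4 * R) * Real.exp (γ * R) :=
              mul_le_mul_of_nonneg_right h4 (Real.exp_nonneg _)
          _ = Real.exp ((γ + ε / 4) * R) := by rw [← Real.exp_add]; ring_nf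
      have hAK : A * Real.exp (κ * R) ≤ Real.exp (κ' * R / 2) := by
        have h1 : |Real.log (max A 1)| ≤ R := (le_max_right _ _).trans ((le_max_left _ _).trans h)
        have h2 : Real.log (max A 1) ≤ R := (le_abs_self _).trans h1
        have h4 : A ≤ Real.exp R := by
          calc A ≤ max A 1 := le_max_left _ _
            _ = Real.exp (Real.log (max A 1)) := (Real.exp_log h3).symm
            _ ≤ _ := Real.exp_le_exp.2 h2
        calc A * Real.exp (κ * R) ≤ Real.exp R * Real.exp (κ * R) :=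
              mul_le_mul_of_nonneg_right h4 (Real.exp_nonneg _)
          _ = Real.exp (R + κ * R) := by rw [← Real.exp_add]
          _ ≤ _ := Real.exp_le_exp.2 (by
              have := le_abs_self κ
              rw [hκ']
              nlinarith)
      have h1 := hmain R hRR0 hfin.toFinset (by
        intro x hx
        rw [Set.Finite.mem_toFinset] at hx
        exact ⟨hx.1, hx.2.1, hx.2.2.1, hx.2.2.2.1.trans hAK,
          fun v hv p hp hpv => (hx.2.2.2.2 v hv p hp hpv).trans hAR⟩)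
      rw [Set.ncard_eq_toFinset_card _ hfin]
      refine h1.trans ?_
      rw [heκ]
      have h2 : Real.exp ((2 / 3 + γ + 3 * ε / 4 + ε / 8) * R) ≤
          Real.exp ((2 / 3 + γ + ε) * R) := Real.exp_le_exp.2 (by nlinarith)
      have h3 := mul_le_mul_of_nonneg_left h2 hC
      nlinarith [Real.exp_pos ((2 / 3 + γ + ε) * R)]
    · have hsub2 : X R ⊆ {x : K | x ≠ 0 ∧ x ≠ 1 ∧ rad x ≤ R1} :=
        fun x hx => ⟨hx.1, hx.2.1, hx.2.2.1.trans h.le⟩
      have h1 : ((X R).ncard : ℝ) ≤ N1 := by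
        rw [hN1]
        exact_mod_cast Set.ncard_le_ncard hsub2 (hcor R1 hR10).1
      nlinarith [mul_nonneg hC (Real.exp_pos ((2 / 3 + γ + ε) * R)).le]

end Pool.Agent.FPL
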