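import Pool.Agent.FPL.CountA
import Pool.Agent.FPL.CountC3
import Pool.Agent.FPL.CountP
import Pool.Agent.FPL.CountO
import Pool.Agent.TMS.CorA

/-!
# Main9: elements of bounded radical, all heights up to `A exp (κ R)`, no very large prime factor of the
multiplicity of a place of very large norm

Every `x` with `hgt x` large is counted by `countA` (drop a set of places of mass at most `(1 - δ) hgt x`), by `countC3`
(drop a heavy place `v`; cost: the logarithm of a divisor of the multiplicity), by `countO` (two large parts) or by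
`countP` (two parts, after dropping a set of small mass in one of them). The alternative is `main_alt9`.
-/

namespace Pool.Agent.FPL

open NumberField IsDedekindDomain Pool.Agent.H7.Abc Pool.Agent.AbcE Pool.Agent.AbcF Pool.Agent.TMS
  Pool.Agent.TM2

section mainHelpers9

variable {K : Type*} [Field K] [NumberField K]

private theorem m9_log_two_le (v : HeightOneSpectrum (𝓞 K)) : Real.log 2 ≤ ln v := by
  unfold ln
  exact Real.log_le_log (by norm_num) (two_le_norm v)

private theorem m9_LN_sdiff [DecidableEq (HeightOneSpectrum (𝓞 K))]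
    {A B : Finset (HeightOneSpectrum (𝓞 K))} (h : A ⊆ B) :
    LN (B \ A) = LN B - LN A := by
  have := Finset.sum_sdiff (f := fun v => ln v) h
  unfold LN at *
  linarith

private theorem m9_LN_mono {A B : Finset (HeightOneSpectrum (𝓞 K))} (h : A ⊆ B) :
    LN A ≤ LN B := by
  unfold LN
  exact Finset.sum_le_sum_of_subset_of_nonneg h fun v _ _ => (ln_pos v).le

/-- The mass of a part. -/
private theorem m9_mass {x : K} (hx : x ≠ 0) (hx1 : x ≠ 1) (i : Fin 3)
    (A : Finset (HeightOneSpectrum (𝓞 K))) (hA : ∀ v ∈ A, prt x v = i) :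
    ∑ v ∈ A, ms x v ≤ hgt x + dg K * Real.log 2 := by
  have hd0 : 0 ≤ dg K * Real.log 2 :=
    mul_nonneg (by linarith [one_le_dg K]) (Real.log_pos (by norm_num)).le
  fin_cases i
  · have := mass_zero hx hx1 A hA
    linarith
  · exact mass_one hx hx1 A hA
  · have := mass_two hx hx1 A hA
    linarith

omit [NumberField K] in
/-- A divisor of a smooth number in a given interval. -/
private theorem m9_divisor (n : ℕ) (Q P : ℝ) (hQ : 1 ≤ Q) (hP : 1 ≤ P) (hn : Q ≤ n)
    (hpr : ∀ p : ℕ, p.Prime → p ∣ n → (p : ℝ) ≤ P) :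
    ∃ e : ℕ, e ∣ n ∧ Q ≤ e ∧ (e : ℝ) ≤ Q * P := by
  classical
  have hex : ∃ e : ℕ, e ∣ n ∧ Q ≤ e := ⟨n, dvd_refl n, hn⟩
  obtain ⟨h1, h2⟩ := Nat.find_spec hex
  set e := Nat.find hex with he
  refine ⟨e, h1, h2, ?_⟩
  by_contra hcon
  push Not at hcon
  have h3 : (1 : ℝ) < e := by nlinarith
  have h4 : e ≠ 1 := by
    intro h
    rw [h] at h3
    norm_num at h3
  obtain ⟨p, hp, hpe⟩ := Nat.exists_prime_and_dvd h4
  obtain ⟨k, hk⟩ := hpe
  have hkn : k ∣ n := (Dvd.intro_left p hk.symm).trans h1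
  have hpP := hpr p hp ((Dvd.intro k hk.symm).trans h1)
  have hp0 : (0 : ℝ) < p := by exact_mod_cast hp.pos
  have h5 : (e : ℝ) = p * k := by rw [hk]; push_cast; ring
  have h6 : Q ≤ k := by
    by_contra h7
    push Not at h7
    rw [h5] at hcon
    have h8 : (p : ℝ) * k ≤ P * Q := by
      have hk0 : (0 : ℝ) ≤ k := Nat.cast_nonneg _
      exact mul_le_mul hpP h7.le hk0 (by linarith)
    linarith [mul_comm P Q]
  have h7 : k < e := by
    have hk0 : 0 < k := by
      rcases Nat.eq_zero_or_pos k with h8 | h8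
      · rw [h8] at h6
        norm_num at h6
        linarith
      · exact h8
    rw [hk]
    have := hp.two_le
    nlinarith
  exact Nat.find_min hex h7 ⟨hkn, h6⟩


/-- Splitting a set of masses in two halves. -/
private theorem m9_split {ι : Type*} [DecidableEq ι] (A : Finset ι) (μ : ι → ℝ)
    (c T : ℝ) (hc0 : 0 ≤ c) (hT : ∑ i ∈ A, μ i ≤ T)
    (hc : ∀ i ∈ A, μ i ≤ c) (hcT : 2 * T ≤ 3 * c) :
    ∃ D ⊆ A, ∑ i ∈ D, μ i ≤ c ∧ ∑ i ∈ A \ D, μ i ≤ c := by
  classical
  set F : Finset (Finset ι) := A.powerset.filter (fun D => ∑ i ∈ D, μ i ≤ c) with hF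
  have hne : F.Nonempty := ⟨∅, by simp [hF, hc0]⟩
  obtain ⟨D, hD, hmax⟩ := Finset.exists_max_image F (fun D => ∑ i ∈ D, μ i) hne
  rw [hF, Finset.mem_filter, Finset.mem_powerset] at hD
  refine ⟨D, hD.1, hD.2, ?_⟩
  by_contra hcon
  push Not at hcon
  have h1 : ∑ i ∈ A \ D, μ i + ∑ i ∈ D, μ i = ∑ i ∈ A, μ i := Finset.sum_sdiff hD.1
  have h2 : ∃ k ∈ A \ D, 0 < μ k := by
    by_contra h3
    push Not at h3
    have h4 : ∑ i ∈ A \ D, μ i ≤ 0 := Finset.sum_nonpos h3
    linarith
  obtain ⟨k, hk, hk0⟩ := h2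
  rw [Finset.mem_sdiff] at hk
  have h3 : c < ∑ i ∈ insert k D, μ i := by
    by_contra h4
    push Not at h4
    have h5 : insert k D ∈ F := by
      rw [hF, Finset.mem_filter, Finset.mem_powerset]
      exact ⟨Finset.insert_subset hk.1 hD.1, h4⟩
    have h6 : ∑ i ∈ insert k D, μ i ≤ ∑ i ∈ D, μ i := hmax _ h5
    rw [Finset.sum_insert hk.2] at h6
    linarith
  rw [Finset.sum_insert hk.2] at h3
  have h5 : {k} ∈ F := by
    rw [hF, Finset.mem_filter, Finset.mem_powerset, Finset.sum_singleton]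
    exact ⟨Finset.singleton_subset_iff.2 hk.1, hc k hk.1⟩
  have h6 := hmax _ h5
  simp only [Finset.sum_singleton] at h6
  linarith


open Classical in
/-- The alternative. -/
private theorem main_alt9 (θ δ e R R' : ℝ) (hδ : 0 < δ) (hδ1 : δ ≤ 1 / 128)
    (he0 : 0 < e) (he1 : e ≤ 1 / 4)
    (hθ0 : 3 / 4 ≤ θ) (hR : 1 ≤ R) (hRR' : R ≤ R')
    (hRe : 4 * Real.log R' ≤ e * R) (hRδ : 1 ≤ δ * R' ^ (e / 32)) {x : K} (hx : x ≠ 0)
    (hx1 : x ≠ 1) (hrad : rad x ≤ R)
    (hh : ∀ v ∈ fs x, (2 * θ - 1) * R < ln v →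
      ∀ p : ℕ, p.Prime → p ∣ mlt x v → (p : ℝ) ≤ Real.exp (ln v - (1 - θ) * R - e * R))
    (hH1 : 1 ≤ hgt x) (hH : dg K * Real.log 2 ≤ δ * hgt x) :
    ((∃ P ⊆ fs x, LN P ≤ θ * R ∧ ∑ v ∈ fs x \ P, ms x v ≤ (1 - δ) * hgt x) ∨
      (∃ i j : Fin 3, i ≠ j ∧
        LN (fs x) - LN ((fs x).filter (fun u => prt x u = i)) ≤ θ * R ∧
        LN (fs x) - LN ((fs x).filter (fun u => prt x u = j)) ≤ θ * R ∧
        LN (fs x) - (LN ((fs x).filter (fun u => prt x u = i)) / 4 +
          LN ((fs x).filter (fun u => prt x u = j)) / 2) ≤ θ * R) ∨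
      ∃ i j : Fin 3, i ≠ j ∧
        ∃ D ⊆ (fs x).filter (fun u => prt x u = j), ∑ u ∈ D, ms x u ≤ hgt x / 64 ∧
          LN (fs x) - LN D - LN ((fs x).filter (fun u => prt x u = i)) ≤ θ * R ∧
          LN (fs x) - LN D - (LN ((fs x).filter (fun u => prt x u = j)) - LN D) / 2 ≤ θ * R) ∨
      ∃ i : Fin 3,
        (hgt x ≤ R' ^ (2 + e / 16) ∧ LN ((fs x).filter (fun u => prt x u ≠ i)) ≤ θ * R) ∨
        ∃ C' ⊆ (fs x).filter (fun u => prt x u = i), ∃ v ∈ fs x, prt x v ≠ i ∧
          ∃ n : ℕ, n ∣ mlt x v ∧ R' ^ (1 + e / 32) ≤ (n : ℝ) ∧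
          ∑ u ∈ (fs x).filter (fun u => prt x u = i) \ C', ms x u ≤ (1 - δ) * hgt x ∧
          LN (((fs x).filter (fun u => prt x u ≠ i)).erase v) + LN C' + Real.log n ≤
            θ * R := by
  have hR0 : 0 < R := by linarith
  have hR'1 : 1 ≤ R' := hR.trans hRR'
  have hR'0 : 0 < R' := by linarith
  set r : ℝ := LN (fs x) with hr
  have hrR : r ≤ R := by
    rw [hr]
    unfold LN
    rw [← rad_fs hx hx1]
    exact hrad
  have hr0 : 0 ≤ r := LN_nonneg _
  set Pt : Fin 3 → Finset (HeightOneSpectrum (𝓞 K)) :=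
    fun i => (fs x).filter (fun u => prt x u = i) with hPt
  set s : Fin 3 → ℝ := fun i => LN (Pt i) with hs
  have hs0 : ∀ i, 0 ≤ s i := fun i => LN_nonneg _
  have hsum : s 0 + s 1 + s 2 = r := by
    have h1 : ∑ i : Fin 3, ∑ u ∈ (fs x).filter (fun u => prt x u = i), ln u = ∑ u ∈ fs x, ln u :=
      Finset.sum_fiberwise (fs x) (prt x) (fun u => ln u)
    rw [Fin.sum_univ_three] at h1
    exact h1
  have hne : ∀ i, LN ((fs x).filter (fun u => prt x u ≠ i)) = r - s i := by
    intro i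
    have h1 := Finset.sum_filter_add_sum_filter_not (fs x) (fun u => prt x u = i)
      (fun u => ln u)
    have h2 : s i + LN ((fs x).filter (fun u => prt x u ≠ i)) = r := h1
    linarith
  -- the parts in decreasing order
  have hlarge : ∃ i j k : Fin 3, i ≠ j ∧ i ≠ k ∧ j ≠ k ∧ s j ≤ s i ∧ s k ≤ s j ∧
      s i + s j + s k = r := by
    rcases le_total (s 0) (s 1) with h1 | h1
    · rcases le_total (s 1) (s 2) with h2 | h2
      · exact ⟨2, 1, 0, by decide, by decide, by decide, h2, h1, by linarith⟩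
      · rcases le_total (s 0) (s 2) with h3 | h3
        · exact ⟨1, 2, 0, by decide, by decide, by decide, h2, h3, by linarith⟩
        · exact ⟨1, 0, 2, by decide, by decide, by decide, h1, h3, by linarith⟩
    · rcases le_total (s 0) (s 2) with h2 | h2
      · exact ⟨2, 0, 1, by decide, by decide, by decide, h2, h1, by linarith⟩
      · rcases le_total (s 1) (s 2) with h3 | h3
        · exact ⟨0, 2, 1, by decide, by decide, by decide, h2, h3, by linarith⟩
        · exact ⟨0, 1, 2, by decide, by decide, by decide, h1, h3, by linarith⟩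
  obtain ⟨i, j, k, hij, hik, hjk, hji, hkj, hijk⟩ := hlarge
  rcases le_or_gt (hgt x) (R' ^ (2 + e / 16)) with hsm | hbig
  · right
    refine ⟨i, Or.inl ⟨hsm, ?_⟩⟩
    rw [hne i]
    nlinarith
  · by_contra hcon
    push Not at hcon
    obtain ⟨⟨hA, hHx, hP⟩, hC⟩ := hcon
    set h : ℝ := hgt x with hhdef
    have hh0 : 0 < h := by linarith
    set τ : ℝ := r - θ * R with hτ
    have hlR : 0 ≤ Real.log R' := Real.log_nonneg hR'1
    have hθR : 3 / 4 * R ≤ θ * R := mul_le_mul_of_nonneg_right hθ0 hR0.le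
    have h9 : 4 * τ ≤ r := by rw [hτ]; linarith
    have hτ1 : τ ≤ (1 - θ) * R := by rw [hτ]; linarith
    have h37 : (2 * θ - 1) * R ≤ r - 2 * τ := by rw [hτ]; linarith
    -- the first tool fails
    have hAA : ∀ D ⊆ fs x, ∑ u ∈ D, ms x u ≤ (1 - δ) * h → LN D < τ := by
      intro D hDf hDm
      by_contra h2
      push Not at h2
      have h5 : LN (fs x \ D) = r - LN D := m9_LN_sdiff hDf
      have h3 := hA (fs x \ D) Finset.sdiff_subset (by rw [h5]; linarith)
      rw [Finset.sdiff_sdiff_eq_self hDf] at h3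
      linarith
    have hτ0 : 0 < τ := by
      have h1 := hAA ∅ (Finset.empty_subset _) (by
        rw [Finset.sum_empty]
        exact mul_nonneg (by linarith) hh0.le)
      have h2 : LN (∅ : Finset (HeightOneSpectrum (𝓞 K))) = 0 := by
        unfold LN
        rw [Finset.sum_empty]
      linarith
    -- the third tool fails
    have hsj : s j < τ := by
      by_contra h1
      push Not at h1
      have h2 : θ * R < r - (s j / 4 + s i / 2) := hHx j i hij.symm (by
        change r - s j ≤ θ * R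
        rw [hτ] at h1
        linarith) (by
        change r - s i ≤ θ * R
        rw [hτ] at h1
        linarith)
      have h3 : s j / 4 + s i / 2 < τ := by rw [hτ]; linarith
      linarith
    have hsk : s k < τ := lt_of_le_of_lt hkj hsj
    have hsi : ¬ s i < 2 * τ := fun h1 => by linarith
    have hPi : Pt i ⊆ fs x := Finset.filter_subset _ _
    have hpart : ∑ u ∈ Pt i, ms x u ≤ (1 + δ) * h := by
      have h1 := m9_mass hx hx1 i (Pt i) (fun v hv => (Finset.mem_filter.1 hv).2)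
      linarith
    -- the dominating place
    have hdom : ∃ v ∈ Pt i, (1 - δ) * h < ms x v := by
      by_contra h1
      push Not at h1
      obtain ⟨D, hD, hDm, hDm2⟩ := m9_split (Pt i) (ms x) ((1 - δ) * h)
        ((1 + δ) * h) (mul_nonneg (by linarith) hh0.le) hpart h1 (by nlinarith)
      have h2 : LN (Pt i \ D) = s i - LN D := m9_LN_sdiff hD
      have h3 := hAA D (hD.trans hPi) hDm
      have h5 := hAA (Pt i \ D) (Finset.sdiff_subset.trans hPi) hDm2
      linarith
    obtain ⟨v, hvP, hvm⟩ := hdom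
    have hv := (Finset.mem_filter.1 hvP).1
    have hvi := (Finset.mem_filter.1 hvP).2
    have hrestm : ∑ u ∈ (Pt i).erase v, ms x u ≤ h / 64 := by
      have h3 := Finset.sum_erase_add (Pt i) (ms x) hvP
      nlinarith
    have hsv : s i = ln v + LN ((Pt i).erase v) := by
      have h1 := Finset.sum_erase_add (Pt i) (fun v => ln v) hvP
      have h2 : s i = ∑ v ∈ Pt i, ln v := rfl
      unfold LN
      linarith
    -- the fourth tool fails
    have hrest : LN ((Pt i).erase v) + s j < τ := by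
      by_contra h1
      push Not at h1
      have h2 : θ * R < r - LN ((Pt i).erase v) - (s i - LN ((Pt i).erase v)) / 2 :=
        hP j i hij.symm ((Pt i).erase v) (Finset.erase_subset _ _) hrestm (by
          change r - LN ((Pt i).erase v) - s j ≤ θ * R
          rw [hτ] at h1
          linarith)
      have h3 : s i < 2 * τ := by
        have h5 : 0 ≤ LN ((Pt i).erase v) := LN_nonneg _
        rw [hτ]
        linarith
      exact hsi h3
    have hv7 : (2 * θ - 1) * R < ln v := by linarith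
    -- the second tool fails
    obtain ⟨-, h2⟩ := hC j
    have hlk : 0 < ln v := ln_pos v
    have hkR : ln v ≤ R' := by
      have h3 : LN {v} ≤ r := m9_LN_mono (Finset.singleton_subset_iff.2 hv)
      unfold LN at h3
      rw [Finset.sum_singleton] at h3
      linarith
    have hkQ : R' ^ (1 + e / 32) ≤ (mlt x v : ℝ) := by
      have h3 : R' ^ (2 + e / 16) = R' ^ (1 + e / 32) * R' * R' ^ (e / 32) := by
        have h5 : R' ^ (1 + e / 32) * R' = R' ^ (2 + e / 32) := by
          nth_rewrite 2 [← Real.rpow_one R']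
          rw [← Real.rpow_add hR'0]
          congr 1
          ring
        rw [h5, ← Real.rpow_add hR'0]
        congr 1
        ring
      have h5 : 0 < R' ^ (1 + e / 32) := Real.rpow_pos_of_pos hR'0 _
      have h6 : 2 ≤ R' ^ (e / 32) := by
        have h7 : 0 < R' ^ (e / 32) := Real.rpow_pos_of_pos hR'0 _
        nlinarith
      by_contra h7
      push Not at h7
      have h8 : ms x v ≤ R' ^ (1 + e / 32) * R' := by
        unfold ms
        exact mul_le_mul h7.le hkR hlk.le h5.le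
      have h9 : R' ^ (1 + e / 32) * R' * 2 ≤ R' ^ (2 + e / 16) := by
        rw [h3]
        exact mul_le_mul_of_nonneg_left h6 (by positivity)
      have h10 : h / 2 ≤ (1 - δ) * h := by nlinarith
      linarith
    have hQ1 : 1 ≤ R' ^ (1 + e / 32) := Real.one_le_rpow hR'1 (by linarith)
    have hP1 : 1 ≤ Real.exp (ln v - (1 - θ) * R - e * R) := by
      refine Real.one_le_exp ?_
      nlinarith
    obtain ⟨n, hn1, hn2, hn3⟩ := m9_divisor (mlt x v) (R' ^ (1 + e / 32))
      (Real.exp (ln v - (1 - θ) * R - e * R)) hQ1 hP1 hkQ (hh v hv hv7)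
    have hlog : Real.log n ≤ ln v - (1 - θ) * R - e * R + 2 * Real.log R' := by
      have hn0 : (0 : ℝ) < n := by linarith
      have a1 := Real.log_le_log hn0 hn3
      rw [Real.log_mul (by positivity) (Real.exp_pos _).ne', Real.log_exp,
        Real.log_rpow hR'0] at a1
      nlinarith
    have hvj : prt x v ≠ j := by rw [hvi]; exact hij
    have h3 := h2 (Pt j) (Finset.Subset.refl _) v hv hvj n hn1 hn2 (by
      rw [Finset.sdiff_self, Finset.sum_empty]
      exact mul_nonneg (by linarith) hh0.le)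
    have h5 : LN (((fs x).filter (fun u => prt x u ≠ j)).erase v) = r - s j - ln v := by
      have hkm : v ∈ (fs x).filter (fun u => prt x u ≠ j) := Finset.mem_filter.2 ⟨hv, hvj⟩
      have h6 := Finset.sum_erase_add ((fs x).filter (fun u => prt x u ≠ j))
        (fun v => ln v) hkm
      have h7 := hne j
      unfold LN at *
      linarith
    have h7 : LN (Pt j) = s j := rfl
    rw [h5, h7] at h3
    have heR : 0 < e * R := by positivity
    linarith

end mainHelpers9

open Classical in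
private theorem main_core9 (K : Type*) [Field K] [NumberField K] (θ δ e κ : ℝ)
    (hκ : 1 ≤ κ) (hδ : 0 < δ) (hδ1 : δ ≤ 1 / 128) (he : 0 < e) (he13 : e ≤ 1 / 4)
    (hθ0 : 3 / 4 ≤ θ) (hθ1 : θ ≤ 1) :
    ∃ C R0 : ℝ, 0 ≤ C ∧ 1 ≤ R0 ∧ ∀ R : ℝ, R0 ≤ R → ∀ S : Finset K,
      (∀ x ∈ S, x ≠ 0 ∧ x ≠ 1 ∧ rad x ≤ R ∧ hgt x ≤ Real.exp (κ * R / 2) ∧
        ∀ v ∈ fs x, (2 * θ - 1) * R < ln v →
          ∀ p : ℕ, p.Prime → p ∣ mlt x v →
            (p : ℝ) ≤ Real.exp (ln v - (1 - θ) * R - e * R)) →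
      (S.card : ℝ) ≤ C * Real.exp ((θ + e * κ) * R) := by
  have he1 : e ≤ 1 := by linarith
  obtain ⟨CA, hCA, hA⟩ := countA K δ e hδ (by linarith) he
  obtain ⟨CG, hCG, hG⟩ := countO K e he
  obtain ⟨CP, hCP, hP⟩ := countP K e he
  obtain ⟨CC, hCC, hC⟩ := countC3 K e δ he he1 hδ (by linarith)
  set H1 : ℝ := dg K * Real.log 2 / δ + 1 with hH1
  have hfin : {x : K | hgt x ≤ H1}.Finite := by
    refine (NumberField.finite_setOfPred_logHeight₁_le K H1).subset fun x hx => ?_
    have h1 : hgt x ≤ H1 := hx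
    rw [hgt_eq] at h1
    exact h1
  set N0 : ℝ := (hfin.toFinset.card : ℝ) with hN0
  have hN00 : 0 ≤ N0 := Nat.cast_nonneg _
  set R2 : ℝ := (1 / δ) ^ (32 / e) with hR2
  obtain ⟨R3, hR3, hlogR⟩ : ∃ R3 : ℝ, 1 ≤ R3 ∧ ∀ R : ℝ, R3 ≤ R →
      4 * Real.log (κ * R) ≤ e * R := by
    refine ⟨64 * κ / e ^ 2 + 1, by
      have : 0 ≤ 64 * κ / e ^ 2 := by positivity
      linarith, fun R hR => ?_⟩
    have hR0 : 0 < R := by
      have : 0 ≤ 64 * κ / e ^ 2 := by positivity
      linarith
    have hy : 0 < κ * R := by positivity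
    have hs : 0 < Real.sqrt (κ * R) := Real.sqrt_pos.2 hy
    have h1 : Real.log (κ * R) ≤ 2 * Real.sqrt (κ * R) := by
      have h2 : Real.log (κ * R) = 2 * Real.log (Real.sqrt (κ * R)) := by
        rw [Real.log_sqrt hy.le]; ring
      rw [h2]
      have h3 := Real.log_le_sub_one_of_pos hs
      linarith
    have h4 : Real.sqrt (κ * R) ≤ e * R / 8 := by
      rw [Real.sqrt_le_left (by positivity)]
      have h5 : 64 * κ / e ^ 2 ≤ R := by linarith
      rw [div_le_iff₀ (by positivity)] at h5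
      nlinarith
    linarith
  refine ⟨N0 + CA + CG + CP + CC, max (max CC 1) (max R3 R2), by linarith,
    le_max_of_le_left (le_max_right _ _), fun R hR S hS => ?_⟩
  have hRC : CC ≤ R := (le_max_left _ _).trans ((le_max_left _ _).trans hR)
  have hR1 : 1 ≤ R := (le_max_right _ _).trans ((le_max_left _ _).trans hR)
  have hR0 : 0 < R := by linarith
  set R' : ℝ := κ * R with hR'
  have hRR' : R ≤ R' := by rw [hR']; nlinarith
  have hRe : 4 * Real.log R' ≤ e * R :=
    hlogR R ((le_max_left _ _).trans ((le_max_right _ _).trans hR))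
  have hRδ : 1 ≤ δ * R' ^ (e / 32) := by
    have h1 : R2 ≤ R' := ((le_max_right _ _).trans ((le_max_right _ _).trans hR)).trans hRR'
    have h2 : R2 ^ (e / 32) ≤ R' ^ (e / 32) :=
      Real.rpow_le_rpow (by positivity) h1 (by positivity)
    have h3 : R2 ^ (e / 32) = 1 / δ := by
      rw [hR2, ← Real.rpow_mul (by positivity)]
      have : 32 / e * (e / 32) = 1 := by field_simp
      rw [this, Real.rpow_one]
    rw [h3] at h2
    calc (1 : ℝ) = δ * (1 / δ) := by field_simp
      _ ≤ _ := mul_le_mul_of_nonneg_left h2 hδ.le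
  set QA : K → Prop := fun x => ∃ P ⊆ fs x, LN P ≤ θ * R ∧
    ∑ v ∈ fs x \ P, ms x v ≤ (1 - δ) * hgt x with hQA
  set QG : K → Prop := fun x => ∃ i j : Fin 3, i ≠ j ∧
        LN (fs x) - LN ((fs x).filter (fun u => prt x u = i)) ≤ θ * R ∧
        LN (fs x) - LN ((fs x).filter (fun u => prt x u = j)) ≤ θ * R ∧
        LN (fs x) - (LN ((fs x).filter (fun u => prt x u = i)) / 4 +
          LN ((fs x).filter (fun u => prt x u = j)) / 2) ≤ θ * R with hQG
  set QP : K → Prop := fun x => ∃ i j : Fin 3, i ≠ j ∧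
        ∃ D ⊆ (fs x).filter (fun u => prt x u = j), ∑ u ∈ D, ms x u ≤ hgt x / 64 ∧
          LN (fs x) - LN D - LN ((fs x).filter (fun u => prt x u = i)) ≤ θ * R ∧
          LN (fs x) - LN D - (LN ((fs x).filter (fun u => prt x u = j)) - LN D) / 2 ≤
            θ * R with hQP
  set QC : K → Prop := fun x => ∃ i : Fin 3,
        (hgt x ≤ R' ^ (2 + e / 16) ∧ LN ((fs x).filter (fun u => prt x u ≠ i)) ≤ θ * R) ∨
        ∃ C' ⊆ (fs x).filter (fun u => prt x u = i), ∃ v ∈ fs x, prt x v ≠ i ∧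
          ∃ n : ℕ, n ∣ mlt x v ∧ R' ^ (1 + e / 32) ≤ (n : ℝ) ∧
          ∑ u ∈ (fs x).filter (fun u => prt x u = i) \ C', ms x u ≤ (1 - δ) * hgt x ∧
          LN (((fs x).filter (fun u => prt x u ≠ i)).erase v) + LN C' + Real.log n ≤
            θ * R with hQC
  have hexp : 1 ≤ Real.exp ((θ + e * κ) * R) := Real.one_le_exp (by positivity)
  have hθR0 : 0 ≤ θ * R := by positivity
  have hθR1 : θ * R ≤ R' := by nlinarith
  have hκR : κ * R / 2 ≤ R' := by rw [hR']; nlinarith
  have hexp2 : θ * R + e * R' = (θ + e * κ) * R := by rw [hR']; ring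
  have hcardA : ((S.filter QA).card : ℝ) ≤ CA * Real.exp ((θ + e * κ) * R) := by
    have h1 := hA R' (θ * R) (hR1.trans hRR') hθR0 hθR1 (S.filter QA) (by
      intro x hx
      rw [Finset.mem_filter] at hx
      obtain ⟨a1, a2, a3, a4, -⟩ := hS x hx.1
      exact ⟨a1, a2, a4.trans (Real.exp_le_exp.2 hκR), hx.2⟩)
    rwa [hexp2] at h1
  have hcardG : ((S.filter QG).card : ℝ) ≤ CG * Real.exp ((θ + e * κ) * R) := by
    have h1 := hG R' (θ * R) (hR1.trans hRR') hθR0 hθR1 (S.filter QG) (by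
      intro x hx
      rw [Finset.mem_filter] at hx
      obtain ⟨a1, a2, a3, a4, -⟩ := hS x hx.1
      exact ⟨a1, a2, a3.trans hRR', a4.trans (Real.exp_le_exp.2 hκR), hx.2⟩)
    rwa [hexp2] at h1
  have hcardP : ((S.filter QP).card : ℝ) ≤ CP * Real.exp ((θ + e * κ) * R) := by
    have h1 := hP R' (θ * R) (hR1.trans hRR') hθR0 hθR1 (S.filter QP) (by
      intro x hx
      rw [Finset.mem_filter] at hx
      obtain ⟨a1, a2, a3, a4, -⟩ := hS x hx.1
      exact ⟨a1, a2, a3.trans hRR', a4.trans (Real.exp_le_exp.2 hκR), hx.2⟩)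
    rwa [hexp2] at h1
  have hcardC : ((S.filter QC).card : ℝ) ≤ CC * Real.exp ((θ + e * κ) * R) := by
    have h1 := hC R' (hRC.trans hRR') (θ * R) hθR0 hθR1 (S.filter QC) (by
      intro x hx
      rw [Finset.mem_filter] at hx
      obtain ⟨a1, a2, a3, a4, -⟩ := hS x hx.1
      exact ⟨a1, a2, a3.trans hRR', a4, hx.2⟩)
    rwa [hexp2] at h1
  have hcover : S ⊆ hfin.toFinset ∪
      ((S.filter QA ∪ (S.filter QG ∪ S.filter QP)) ∪ S.filter QC) := by
    intro x hx
    obtain ⟨a1, a2, a3, a4, a5⟩ := hS x hx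
    rw [Finset.mem_union, Finset.mem_union, Finset.mem_union, Finset.mem_union]
    by_cases h1 : hgt x ≤ H1
    · left
      rw [Set.Finite.mem_toFinset]
      exact h1
    · right
      push Not at h1
      have hd0 : 0 ≤ dg K * Real.log 2 / δ :=
        div_nonneg (mul_nonneg (by linarith [one_le_dg K]) (Real.log_pos (by norm_num)).le) hδ.le
      have h2 : 1 ≤ hgt x := by linarith
      have h3 : dg K * Real.log 2 ≤ δ * hgt x := by
        have h4 : dg K * Real.log 2 / δ ≤ hgt x := by linarith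
        rw [div_le_iff₀ hδ] at h4
        linarith
      rcases main_alt9 θ δ e R R' hδ hδ1 he he13 hθ0 hR1 hRR' hRe hRδ a1 a2 a3 a5 h2 h3
        with (h5 | h5 | h5) | h5
      · left; left
        exact Finset.mem_filter.2 ⟨hx, h5⟩
      · left; right; left
        exact Finset.mem_filter.2 ⟨hx, h5⟩
      · left; right; right
        exact Finset.mem_filter.2 ⟨hx, h5⟩
      · right
        exact Finset.mem_filter.2 ⟨hx, h5⟩
  have h1 : (S.card : ℝ) ≤ N0 + ((((S.filter QA).card : ℝ) + (((S.filter QG).card : ℝ) +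
      ((S.filter QP).card : ℝ))) + ((S.filter QC).card : ℝ)) := by
    have h2 := (Finset.card_le_card hcover).trans (Finset.card_union_le _ _)
    have h3 := Finset.card_union_le (S.filter QA ∪ (S.filter QG ∪ S.filter QP)) (S.filter QC)
    have h5 := Finset.card_union_le (S.filter QA) (S.filter QG ∪ S.filter QP)
    have h6 := Finset.card_union_le (S.filter QG) (S.filter QP)
    have h4 : S.card ≤ hfin.toFinset.card + (((S.filter QA).card + ((S.filter QG).card +
      (S.filter QP).card)) + (S.filter QC).card) := by omega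
    rw [hN0]
    exact_mod_cast h4
  have h5 : N0 ≤ N0 * Real.exp ((θ + e * κ) * R) := le_mul_of_one_le_right hN00 hexp
  calc (S.card : ℝ) ≤ N0 + ((((S.filter QA).card : ℝ) + (((S.filter QG).card : ℝ) +
      ((S.filter QP).card : ℝ))) + ((S.filter QC).card : ℝ)) := h1
    _ ≤ N0 * Real.exp ((θ + e * κ) * R) + ((CA * Real.exp ((θ + e * κ) * R) +
        (CG * Real.exp ((θ + e * κ) * R) + CP * Real.exp ((θ + e * κ) * R))) +
        CC * Real.exp ((θ + e * κ) * R)) := by
        linarith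
    _ = (N0 + CA + CG + CP + CC) * Real.exp ((θ + e * κ) * R) := by ring

/-- Elements of radical at most `R` and height at most `A exp (κ R)`, such that no prime larger than `A N(v) exp (- s R)`
divides the multiplicity of a place `v` of norm larger than `exp ((1 - 2 s) R)`: at most `C exp ((1 - s + ε) R)` of
them, for `s ≤ 1 / 4`. -/
theorem main_fpl9 (K : Type*) [Field K] [NumberField K] (A κ s ε : ℝ) (hs : s ≤ 1 / 4)
    (hε : 0 < ε) :
    ∃ C : ℝ, ∀ R : ℝ, 0 ≤ R →
      {x : K | x ≠ 0 ∧ x ≠ 1 ∧ rad x ≤ R ∧ hgt x ≤ A * Real.exp (κ * R) ∧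
        ∀ v ∈ fs x, (1 - 2 * s) * R < ln v →
          ∀ p : ℕ, p.Prime → p ∣ mlt x v → (p : ℝ) ≤ A * Real.exp (ln v - s * R)}.Finite ∧
      ({x : K | x ≠ 0 ∧ x ≠ 1 ∧ rad x ≤ R ∧ hgt x ≤ A * Real.exp (κ * R) ∧
        ∀ v ∈ fs x, (1 - 2 * s) * R < ln v → ∀ p : ℕ, p.Prime → p ∣ mlt x v →
          (p : ℝ) ≤ A * Real.exp (ln v - s * R)}.ncard : ℝ) ≤
        C * Real.exp ((1 - s + ε) * R) := by
  obtain ⟨Cc, cc, hCc, hcc, hcc1, hcor⟩ := corA K
  set X : ℝ → Set K := fun R => {x : K | x ≠ 0 ∧ x ≠ 1 ∧ rad x ≤ R ∧ hgt x ≤ A * Real.exp (κ * R) ∧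
    ∀ v ∈ fs x, (1 - 2 * s) * R < ln v →
      ∀ p : ℕ, p.Prime → p ∣ mlt x v → (p : ℝ) ≤ A * Real.exp (ln v - s * R)} with hX
  have hsub : ∀ R : ℝ, X R ⊆ {x : K | x ≠ 0 ∧ x ≠ 1 ∧ rad x ≤ R} :=
    fun R x hx => ⟨hx.1, hx.2.1, hx.2.2.1⟩
  change ∃ C : ℝ, ∀ R : ℝ, 0 ≤ R → (X R).Finite ∧
    ((X R).ncard : ℝ) ≤ C * Real.exp ((1 - s + ε) * R)
  by_cases hbig : 1 ≤ 1 - s + ε
  · refine ⟨Cc, fun R hR => ?_⟩
    obtain ⟨f1, h1⟩ := hcor R hR
    refine ⟨f1.subset (hsub R), ?_⟩
    have h2 : ((X R).ncard : ℝ) ≤ ({x : K | x ≠ 0 ∧ x ≠ 1 ∧ rad x ≤ R}.ncard : ℝ) := by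
      exact_mod_cast Set.ncard_le_ncard (hsub R) f1
    refine (h2.trans h1).trans (mul_le_mul_of_nonneg_left (Real.exp_le_exp.2 ?_) hCc.le)
    have h3 : 0 ≤ R ^ cc := Real.rpow_nonneg hR cc
    nlinarith
  · push Not at hbig
    set κ' : ℝ := 2 * (|κ| + 1) with hκ'
    have hκ'1 : 1 ≤ κ' := by
      have := abs_nonneg κ
      rw [hκ']
      linarith
    have hκ'0 : 0 < κ' := by linarith
    set e : ℝ := ε / (8 * κ') with he
    have he1 : e ≤ ε / 8 := by
      apply div_le_div_of_nonneg_left hε.le (by norm_num)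
      nlinarith
    have he0 : 0 < e := by positivity
    have heκ : e * κ' = ε / 8 := by rw [he]; field_simp
    obtain ⟨C, R0, hC, hR0, hmain⟩ := main_core9 K (1 - s + 3 * ε / 4) (1 / 128)
      e κ' hκ'1 (by norm_num) (by norm_num) he0 (by linarith)
      (by linarith) (by linarith)
    set R1 : ℝ := max (max R0 (|Real.log (max A 1)|)) (4 * |Real.log (max A 1)| / ε) with hR1
    set N1 : ℝ := (({x : K | x ≠ 0 ∧ x ≠ 1 ∧ rad x ≤ R1}.ncard : ℕ) : ℝ) with hN1
    have hN10 : 0 ≤ N1 := Nat.cast_nonneg _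
    have hR10 : 0 ≤ R1 := le_max_of_le_left (le_max_of_le_left (by linarith))
    refine ⟨C + N1, fun R hR => ?_⟩
    obtain ⟨f1, -⟩ := hcor R hR
    have hfin := f1.subset (hsub R)
    refine ⟨hfin, ?_⟩
    have hexp : 1 ≤ Real.exp ((1 - s + ε) * R) := Real.one_le_exp (by nlinarith)
    rcases le_or_gt R1 R with h | h
    · have hRR0 : R0 ≤ R := (le_max_left _ _).trans ((le_max_left _ _).trans h)
      have hRp : 0 < R := by linarith
      have h3 : (0 : ℝ) < max A 1 := lt_max_of_lt_right one_pos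
      have hA4 : A ≤ Real.exp (ε / 4 * R) := by
        have h1 : 4 * |Real.log (max A 1)| / ε ≤ R := (le_max_right _ _).trans h
        rw [div_le_iff₀ hε] at h1
        have h2 : Real.log (max A 1) ≤ ε / 4 * R := by
          have := le_abs_self (Real.log (max A 1))
          linarith
        calc A ≤ max A 1 := le_max_left _ _
          _ = Real.exp (Real.log (max A 1)) := (Real.exp_log h3).symm
          _ ≤ _ := Real.exp_le_exp.2 h2
      have hAR : ∀ t : ℝ, A * Real.exp (t - s * R) ≤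
          Real.exp (t - (1 - (1 - s + 3 * ε / 4)) * R - e * R) := by
        intro t
        calc A * Real.exp (t - s * R) ≤ Real.exp (ε / 4 * R) * Real.exp (t - s * R) :=
              mul_le_mul_of_nonneg_right hA4 (Real.exp_nonneg _)
          _ = Real.exp (ε / 4 * R + (t - s * R)) := by rw [← Real.exp_add]
          _ ≤ _ := Real.exp_le_exp.2 (by nlinarith)
      have hAK : A * Real.exp (κ * R) ≤ Real.exp (κ' * R / 2) := by
        have h1 : |Real.log (max A 1)| ≤ R := (le_max_right _ _).trans ((le_max_left _ _).trans h)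
        have h2 : Real.log (max A 1) ≤ R := (le_abs_self _).trans h1
        have h4 : A ≤ Real.exp R := by
          calc A ≤ max A 1 := le_max_left _ _
            _ = Real.exp (Real.log (max A 1)) := (Real.exp_log h3).symm
            _ ≤ _ := Real.exp_le_exp.2 h2
        calc A * Real.exp (κ * R) ≤ Real.exp R * Real.exp (κ * R) :=
              mul_le_mul_of_nonneg_right h4 (Real.exp_nonneg _)
          _ = Real.exp (R + κ * R) := by rw [← Real.exp_add]
          _ ≤ _ := Real.exp_le_exp.2 (by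
              have := le_abs_self κ
              rw [hκ']
              nlinarith)
      have h1 := hmain R hRR0 hfin.toFinset (by
        intro x hx
        rw [Set.Finite.mem_toFinset] at hx
        refine ⟨hx.1, hx.2.1, hx.2.2.1, hx.2.2.2.1.trans hAK,
          fun v hv hv2 p hp hpv => (hx.2.2.2.2 v hv ?_ p hp hpv).trans (hAR _)⟩
        refine lt_of_le_of_lt ?_ hv2
        nlinarith)
      rw [Set.ncard_eq_toFinset_card _ hfin]
      refine h1.trans ?_
      rw [heκ]
      have h2 : Real.exp ((1 - s + 3 * ε / 4 + ε / 8) * R) ≤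
          Real.exp ((1 - s + ε) * R) := Real.exp_le_exp.2 (by nlinarith)
      have h3 := mul_le_mul_of_nonneg_left h2 hC
      nlinarith [Real.exp_pos ((1 - s + ε) * R)]
    · have hsub2 : X R ⊆ {x : K | x ≠ 0 ∧ x ≠ 1 ∧ rad x ≤ R1} :=
        fun x hx => ⟨hx.1, hx.2.1, hx.2.2.1.trans h.le⟩
      have h1 : ((X R).ncard : ℝ) ≤ N1 := by
        rw [hN1]
        exact_mod_cast Set.ncard_le_ncard hsub2 (hcor R1 hR10).1
      nlinarith [mul_nonneg hC (Real.exp_pos ((1 - s + ε) * R)).le]

end Pool.Agent.FPL
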