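import Pool.Agent.FPL.Defs
import Pool.Agent.TMS.HgtPow

/-!
# Mass (size 3)

`d = dg K`. Let `B ⊇ fs x` be a finite set containing all `v` with `mk v x ≠ 1` or `mk v (x - 1) ≠ 1` (`B = fs x` works: `mem_fs`, `ord_eq_zero_iff`).
Parts: `prt x v = 0`: `ms x v = ord v x * ln v` (`mlt_zero`); `prt x v = 1`: `ms x v = ord v (x-1) * ln v` (`mlt_one`); `prt x v = 2`: `ms x v = -ord v x * ln v` (`mlt_two`).
`log (max 1 (mk v x)) = max 0 (-ord v x * ln v)` (`log_mk`). So the sum over part 2 is the finite part of `hgt x` (`sum_finite_le` for `x`), over part 0 the finite part of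
`hgt x⁻¹ = hgt x` (`sum_finite_le` for `x⁻¹`, `mk_inv`, `hgt_inv`), over part 1 the finite part of `hgt (x - 1)⁻¹ = hgt (x - 1) ≤ d log 2 + hgt x` (`hgt_sub_one`).
`mass_total` is the sum of the three. `ones_ge`: `hgt x ≤ d log 2 + hgt (x - 1)` (`hgt_sub_one` for `x - 1 + 1`: use `hgt_eq` and `Height.logHeight₁_add_le`, or apply `hgt_sub_one` to
`1 - x = -(x - 1)`; `hgt (-y) = hgt y`), and `hgt (x - 1) = hgt (x - 1)⁻¹ = ∑ over part 1 of ms + ∑_w mult * max 0 (- log (w (x - 1)))` (definition of `hgt`, `finsum` as a sum over `fs x`,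
see `AbcE.gap_hgt`, `hgt_nonneg`).
-/

namespace Pool.Agent.FPL

open NumberField IsDedekindDomain Pool.Agent.H7.Abc Pool.Agent.AbcE Pool.Agent.AbcF Pool.Agent.TMS
  Pool.Agent.TM2

variable {K : Type*} [Field K] [NumberField K]

private theorem Mass_log (v : HeightOneSpectrum (𝓞 K)) {y : K} (hy : y ≠ 0) :
    Real.log (max 1 (FinitePlace.mk v y)) = max 0 (-(ord v y : ℝ) * ln v) := by
  have h1 : Real.log (max 1 (FinitePlace.mk v y)) = max 0 (Real.log (FinitePlace.mk v y)) := by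
    rw [← Real.posLog_eq_log_max_one (apply_nonneg _ y)]
    rfl
  rw [h1, log_mk v hy]
  rfl

private theorem Mass_le (A : Finset (HeightOneSpectrum (𝓞 K))) (f : HeightOneSpectrum (𝓞 K) → ℝ)
    {y : K} (hy : y ≠ 0) (hf : ∀ v ∈ A, f v = -(ord v y : ℝ) * ln v) : ∑ v ∈ A, f v ≤ hgt y := by
  refine le_trans (Finset.sum_le_sum fun v hv => ?_) (sum_finite_le hy A)
  rw [Mass_log v hy, hf v hv]
  exact le_max_right _ _

theorem mass_zero {x : K} (hx : x ≠ 0) (hx1 : x ≠ 1) (A : Finset (HeightOneSpectrum (𝓞 K)))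
    (hA : ∀ v ∈ A, prt x v = 0) : ∑ v ∈ A, ms x v ≤ hgt x := by
  rw [← hgt_inv x]
  refine Mass_le A _ (inv_ne_zero hx) fun v hv => ?_
  have h := (mlt_zero hx hx1 (hA v hv)).1
  have h2 : (mlt x v : ℝ) = (ord v x : ℝ) := by exact_mod_cast h
  unfold ms
  rw [ord_inv' v hx, h2]
  push_cast
  ring

theorem mass_one {x : K} (hx : x ≠ 0) (hx1 : x ≠ 1) (A : Finset (HeightOneSpectrum (𝓞 K)))
    (hA : ∀ v ∈ A, prt x v = 1) : ∑ v ∈ A, ms x v ≤ hgt x + dg K * Real.log 2 := by
  have hy : x - 1 ≠ 0 := sub_ne_zero.2 hx1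
  have h0 := hgt_sub_one x
  have h1 : ∑ v ∈ A, ms x v ≤ hgt (x - 1) := by
    rw [← hgt_inv (x - 1)]
    refine Mass_le A _ (inv_ne_zero hy) fun v hv => ?_
    have h := (mlt_one hx hx1 (hA v hv)).1
    have h2 : (mlt x v : ℝ) = (ord v (x - 1) : ℝ) := by exact_mod_cast h
    unfold ms
    rw [ord_inv' v hy, h2]
    push_cast
    ring
  unfold dg
  linarith

theorem mass_two {x : K} (hx : x ≠ 0) (hx1 : x ≠ 1) (A : Finset (HeightOneSpectrum (𝓞 K)))
    (hA : ∀ v ∈ A, prt x v = 2) : ∑ v ∈ A, ms x v ≤ hgt x := by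
  refine Mass_le A _ hx fun v hv => ?_
  have h := (mlt_two hx hx1 (hA v hv)).1
  have h2 : (mlt x v : ℝ) = -(ord v x : ℝ) := by exact_mod_cast h
  unfold ms
  rw [h2]

theorem mass_total {x : K} (hx : x ≠ 0) (hx1 : x ≠ 1) (A : Finset (HeightOneSpectrum (𝓞 K))) :
    ∑ v ∈ A, ms x v ≤ 3 * hgt x + dg K * Real.log 2 := by
  rw [← Finset.sum_fiberwise A (fun v => prt x v), Fin.sum_univ_three]
  have h0 := mass_zero hx hx1 (A.filter fun v => prt x v = 0)
    fun v hv => (Finset.mem_filter.1 hv).2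
  have h1 := mass_one hx hx1 (A.filter fun v => prt x v = 1)
    fun v hv => (Finset.mem_filter.1 hv).2
  have h2 := mass_two hx hx1 (A.filter fun v => prt x v = 2)
    fun v hv => (Finset.mem_filter.1 hv).2
  linarith

theorem ms_le {x : K} (hx : x ≠ 0) (hx1 : x ≠ 1) (v : HeightOneSpectrum (𝓞 K)) :
    ms x v ≤ hgt x + dg K * Real.log 2 := by
  have hd : 0 ≤ dg K * Real.log 2 :=
    mul_nonneg (zero_le_one.trans (one_le_dg K)) (Real.log_nonneg (by norm_num))
  have hc : prt x v = 0 ∨ prt x v = 1 ∨ prt x v = 2 := by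
    generalize prt x v = j
    fin_cases j <;> simp
  rcases hc with h | h | h
  · have h1 := mass_zero hx hx1 {v} (by simpa using h)
    rw [Finset.sum_singleton] at h1
    linarith
  · have h1 := mass_one hx hx1 {v} (by simpa using h)
    rw [Finset.sum_singleton] at h1
    linarith
  · have h1 := mass_two hx hx1 {v} (by simpa using h)
    rw [Finset.sum_singleton] at h1
    linarith

open Classical in
theorem ones_ge {x : K} (hx : x ≠ 0) (hx1 : x ≠ 1) :
    hgt x - dg K * Real.log 2 ≤ ∑ v ∈ (fs x).filter (fun v => prt x v = 1), ms x v +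
      ∑ w : InfinitePlace K, (w.mult : ℝ) * max 0 (-Real.log (w (x - 1))) := by
  have h1 := TMS.hgt_le_sub_one x
  have h2 := mass hx1 (fs x) (by
    intro v hv
    rw [mem_fs hx hx1] at hv
    push Not at hv
    exact hv.2)
  have h3 : ∑ v ∈ fs x, max 0 ((ord v (x - 1) : ℝ) * ln v) =
      ∑ v ∈ (fs x).filter (fun v => prt x v = 1), ms x v := by
    rw [Finset.sum_filter]
    refine Finset.sum_congr rfl fun v _ => ?_
    have hc : prt x v = 0 ∨ prt x v = 1 ∨ prt x v = 2 := by
      generalize prt x v = j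
      fin_cases j <;> simp
    have hl := ln_pos v
    rcases hc with h | h | h
    · rw [if_neg (by rw [h]; decide), (mlt_zero hx hx1 h).2]
      simp
    · rw [if_pos h]
      have h4 := (mlt_one hx hx1 h).1
      have h5 : (mlt x v : ℝ) = (ord v (x - 1) : ℝ) := by exact_mod_cast h4
      rw [← h5]
      exact max_eq_right (ms_nonneg x v)
    · rw [if_neg (by rw [h]; decide)]
      have h4 := mlt_two hx hx1 h
      have h5 : (ord v (x - 1) : ℝ) = -(mlt x v : ℝ) := by
        have : ord v (x - 1) = -(mlt x v : ℤ) := by rw [h4.1, h4.2]; ring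
        rw [this]
        push_cast
        ring
      rw [h5]
      refine max_eq_left ?_
      have := ms_nonneg x v
      unfold ms at this
      linarith
  rw [h3] at h2
  unfold dg
  linarith

end Pool.Agent.FPL
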