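import Pool.Agent.FPL.GapA
import Pool.Agent.FPL.ShapeCol

/-!
# UnitW (size 3)

Constants `C1, B` from `shape_col K (1/8)`, `C2 = max C1 (12 d log 2 + 1)`, `d = dg K`. The `x ∈ S` with `hgt x ≤ C2` form a finite set of bounded cardinality `N0` (Northcott: `hgt_eq`,
`NumberField.finite_setOfPred_logHeight₁_le`). For the others let `j = ⌊log (hgt x / C2) / log 2⌋₊`, `H = C2 2 ^ j`: `H ≤ hgt x ≤ 2 H`, `j ≤ R / log 2 ≤ 2 R` as `hgt x ≤ exp R`. For fixed `j` let `f` be the
colouring of `shape_col K (1/8)` for `H` and `P = W` (at most `C1 B ^ W.card` colours). Two elements `x, y ∈ S` with the same `j` and the same colour are equal: `gapA` with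
`P = fs x ∪ fs y ∪ W`, `η = 1/2`: for `v ∈ P \ W` the orders of `x, y` and of `x - 1, y - 1` agree (hypothesis), so `prt` and `mlt`, `ms` agree (definitions); for `v ∈ W` by the colour: `∑_{v ∈ W} |ms x v - ms y v| ≤ H / 8`;
the sum over `P` is the sum over `W`; the sums over `fs x \ P = ∅` are `0`; the archimedean sum is `≤ H / 8` (`∑ mult = d`). So `S.card ≤ N0 + (2 R + 1) C1 B ^ W.card`.
-/

namespace Pool.Agent.FPL

open NumberField IsDedekindDomain Pool.Agent.H7.Abc Pool.Agent.AbcE Pool.Agent.AbcF Pool.Agent.TMS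
  Pool.Agent.TM2

private theorem UnitW_eq {K : Type*} [Field K] [NumberField K] {x y : K} (hx : x ≠ 0)
    (hx1 : x ≠ 1) (hy : y ≠ 0) (hy1 : y ≠ 1) (W : Finset (HeightOneSpectrum (𝓞 K))) (H : ℝ)
    (hHx : H ≤ hgt x) (hHy : H ≤ hgt y) (hH : 12 * dg K * Real.log 2 < H)
    (hout : ∀ v, v ∉ W → ord v x = ord v y ∧ ord v (x - 1) = ord v (y - 1))
    (h1 : ∀ v ∈ W, prt x v = prt y v)
    (h2 : ∀ v ∈ W, |ms x v - ms y v| * (W.card : ℝ) ≤ 1 / 8 * H)
    (h3 : ∀ w : InfinitePlace K, (|Real.log (w x) - Real.log (w y)| +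
            |Real.log (w (x - 1)) - Real.log (w (y - 1))|) * dg K ≤ 1 / 8 * H) : x = y := by
  classical
  have hd : 1 ≤ dg K := one_le_dg K
  have hlog : 0 < Real.log 2 := Real.log_pos (by norm_num)
  have hH0 : 0 < H := by
    have : 0 ≤ 12 * dg K * Real.log 2 := by positivity
    linarith
  have hprt : ∀ v, prt x v = prt y v := by
    intro v
    by_cases hv : v ∈ W
    · exact h1 v hv
    · unfold prt
      rw [(hout v hv).1]
  have hms : ∀ v, v ∉ W → ms x v = ms y v := by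
    intro v hv
    unfold ms mlt
    rw [(hout v hv).1, (hout v hv).2]
  refine gapA hx hx1 hy hy1 (fs x ∪ fs y ∪ W) H (1 / 2) hHx hHy (fun v _ => hprt v) ?_ ?_ ?_ ?_ ?_
  · have : fs x \ (fs x ∪ fs y ∪ W) = ∅ := by
      rw [Finset.sdiff_eq_empty_iff_subset]
      intro v hv
      simp [hv]
    rw [this, Finset.sum_empty]
    linarith
  · have : fs y \ (fs x ∪ fs y ∪ W) = ∅ := by
      rw [Finset.sdiff_eq_empty_iff_subset]
      intro v hv
      simp [hv]
    rw [this, Finset.sum_empty]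
    linarith
  · have hsum : ∑ v ∈ fs x ∪ fs y ∪ W, |ms x v - ms y v| = ∑ v ∈ W, |ms x v - ms y v| := by
      symm
      refine Finset.sum_subset Finset.subset_union_right ?_
      intro v _ hv
      rw [hms v hv, sub_self, abs_zero]
    rw [hsum]
    rcases Finset.eq_empty_or_nonempty W with rfl | hne
    · rw [Finset.sum_empty]
      linarith
    · have hc : (0 : ℝ) < W.card := by exact_mod_cast hne.card_pos
      have hle : ∑ v ∈ W, |ms x v - ms y v| ≤ ∑ v ∈ W, (1 / 8 * H) / (W.card : ℝ) :=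
        Finset.sum_le_sum fun v hv => by
          rw [le_div_iff₀ hc]
          exact h2 v hv
      rw [Finset.sum_const, nsmul_eq_mul, mul_div_cancel₀ _ hc.ne'] at hle
      linarith
  · have hle : ∑ w : InfinitePlace K, (w.mult : ℝ) * (|Real.log (w x) - Real.log (w y)| +
        |Real.log (w (x - 1)) - Real.log (w (y - 1))|) ≤
        ∑ w : InfinitePlace K, (w.mult : ℝ) * ((1 / 8 * H) / dg K) := by
      refine Finset.sum_le_sum fun w _ => ?_
      refine mul_le_mul_of_nonneg_left ?_ (Nat.cast_nonneg _)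
      rw [le_div_iff₀ (by linarith)]
      exact h3 w
    have hmult : ∑ w : InfinitePlace K, (w.mult : ℝ) = dg K := by
      rw [← Nat.cast_sum, InfinitePlace.sum_mult_eq]
      rfl
    rw [← Finset.sum_mul, hmult, mul_div_cancel₀ _ (by linarith : dg K ≠ 0)] at hle
    linarith
  · linarith

theorem count_unit (K : Type*) [Field K] [NumberField K] : ∃ C B : ℝ, 1 ≤ C ∧ 1 ≤ B ∧
    ∀ R : ℝ, 1 ≤ R → ∀ W : Finset (HeightOneSpectrum (𝓞 K)), ∀ S : Finset K,
      (∀ x ∈ S, x ≠ 0 ∧ x ≠ 1 ∧ hgt x ≤ Real.exp R) →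
      (∀ x ∈ S, ∀ y ∈ S, ∀ v, v ∉ W → ord v x = ord v y ∧ ord v (x - 1) = ord v (y - 1)) →
      (S.card : ℝ) ≤ C * R * B ^ W.card := by
  classical
  obtain ⟨C1, B, hC1, hB, hsh⟩ := shape_col K (1 / 8) (by norm_num) (by norm_num)
  have hd : 1 ≤ dg K := one_le_dg K
  have hlog : 0 < Real.log 2 := Real.log_pos (by norm_num)
  have hlog2 : 1 / 2 ≤ Real.log 2 := by
    have := Real.log_two_gt_d9
    linarith
  set C2 : ℝ := max C1 (12 * dg K * Real.log 2 + 1) with hC2
  have hC2a : C1 ≤ C2 := le_max_left _ _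
  have hC2b : 12 * dg K * Real.log 2 + 1 ≤ C2 := le_max_right _ _
  have hC21 : 1 ≤ C2 := hC1.trans hC2a
  have hfin : {x : K | hgt x ≤ C2}.Finite := by
    have h := NumberField.finite_setOfPred_logHeight₁_le (K := K) C2
    refine h.subset ?_
    intro x hx
    simpa [hgt_eq] using hx
  set N0 : ℕ := hfin.toFinset.card with hN0
  refine ⟨N0 + 3 * C1, B, by
    have : (0 : ℝ) ≤ N0 := Nat.cast_nonneg _
    linarith, hB, ?_⟩
  intro R hR W S hS hSW
  have hBW : 1 ≤ B ^ W.card := one_le_pow₀ hB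
  set jj : K → ℕ := fun x => ⌊Real.log (hgt x / C2) / Real.log 2⌋₊ with hjj
  set S1 := S.filter (fun x => hgt x ≤ C2) with hS1
  set S2 := S.filter (fun x => ¬ hgt x ≤ C2) with hS2
  have hcard : S.card = S1.card + S2.card := (Finset.card_filter_add_card_filter_not _).symm
  have hc1 : S1.card ≤ N0 := by
    refine Finset.card_le_card ?_
    intro x hx
    rw [hS1, Finset.mem_filter] at hx
    rw [Set.Finite.mem_toFinset]
    exact hx.2
  have hjb : ∀ x ∈ S2, C2 * 2 ^ (jj x) ≤ hgt x ∧ hgt x ≤ 2 * (C2 * 2 ^ (jj x)) ∧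
      jj x < ⌊2 * R⌋₊ + 1 := by
    intro x hx
    rw [hS2, Finset.mem_filter, not_le] at hx
    obtain ⟨hxS, hxC⟩ := hx
    have hC0 : 0 < C2 := by linarith
    have hr1 : 1 < hgt x / C2 := by rwa [lt_div_iff₀ hC0, one_mul]
    have hr0 : 0 < hgt x / C2 := by linarith
    have hl0 : 0 ≤ Real.log (hgt x / C2) / Real.log 2 :=
      div_nonneg (Real.log_nonneg hr1.le) hlog.le
    have hf1 : (jj x : ℝ) ≤ Real.log (hgt x / C2) / Real.log 2 := Nat.floor_le hl0
    have hf2 : Real.log (hgt x / C2) / Real.log 2 < (jj x : ℝ) + 1 := Nat.lt_floor_add_one _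
    have hf1' : (jj x : ℝ) * Real.log 2 ≤ Real.log (hgt x / C2) := by
      rwa [le_div_iff₀ hlog] at hf1
    have hf2' : Real.log (hgt x / C2) < ((jj x : ℝ) + 1) * Real.log 2 := by
      rwa [div_lt_iff₀ hlog] at hf2
    have hp1 : (2 : ℝ) ^ (jj x) ≤ hgt x / C2 := by
      rw [← Real.log_le_log_iff (by positivity) hr0, Real.log_pow]
      exact hf1'
    have hp2 : hgt x / C2 < (2 : ℝ) ^ (jj x + 1) := by
      rw [← Real.log_lt_log_iff hr0 (by positivity), Real.log_pow]
      push_cast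
      exact hf2'
    refine ⟨?_, ?_, ?_⟩
    · rw [le_div_iff₀ hC0] at hp1
      linarith
    · rw [div_lt_iff₀ hC0, pow_succ] at hp2
      linarith
    · have hle : Real.log (hgt x / C2) ≤ R := by
        have h1 : hgt x / C2 ≤ Real.exp R := by
          refine le_trans ?_ (hS x hxS).2.2
          rw [div_le_iff₀ hC0]
          have : 0 ≤ hgt x := hgt_nonneg x
          nlinarith
        calc Real.log (hgt x / C2) ≤ Real.log (Real.exp R) := Real.log_le_log hr0 h1
          _ = R := Real.log_exp R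
      have h3 : (jj x : ℝ) ≤ 2 * R := by
        have h0 : (0 : ℝ) ≤ jj x := Nat.cast_nonneg _
        nlinarith
      have := Nat.le_floor h3
      omega
  have hmain : ∀ j : ℕ, ((S2.filter (fun x => jj x = j)).card : ℝ) ≤ C1 * B ^ W.card := by
    intro j
    have hCj : C1 ≤ C2 * 2 ^ j := by
      have : (1 : ℝ) ≤ 2 ^ j := one_le_pow₀ (by norm_num)
      nlinarith
    obtain ⟨M, f, hM, hf⟩ := hsh (C2 * 2 ^ j) hCj W
    have hinj : Set.InjOn f (S2.filter (fun x => jj x = j) : Set K) := by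
      intro x hx y hy hxy
      rw [Finset.mem_coe, Finset.mem_filter] at hx hy
      obtain ⟨hx2, hxj⟩ := hx
      obtain ⟨hy2, hyj⟩ := hy
      obtain ⟨a1, a2, -⟩ := hjb x hx2
      obtain ⟨b1, b2, -⟩ := hjb y hy2
      rw [hxj] at a1 a2
      rw [hyj] at b1 b2
      have hxS : x ∈ S := (Finset.mem_filter.1 hx2).1
      have hyS : y ∈ S := (Finset.mem_filter.1 hy2).1
      obtain ⟨x0, x1, -⟩ := hS x hxS
      obtain ⟨y0, y1, -⟩ := hS y hyS
      obtain ⟨c1, c2, c3⟩ := hf x y x0 x1 y0 y1 a2 b2 hxy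
      refine UnitW_eq x0 x1 y0 y1 W (C2 * 2 ^ j) a1 b1 ?_ (hSW x hxS y hyS) c1 c2 c3
      have : (1 : ℝ) ≤ 2 ^ j := one_le_pow₀ (by norm_num)
      have h5 : C2 ≤ C2 * 2 ^ j := by nlinarith
      linarith
    have hle : (S2.filter (fun x => jj x = j)).card ≤ M := by
      have h := Finset.card_le_card_of_injOn f (fun x _ => Finset.mem_univ (f x)) hinj
      simpa using h
    calc ((S2.filter (fun x => jj x = j)).card : ℝ) ≤ (M : ℝ) := by exact_mod_cast hle
      _ ≤ _ := hM
  have hc2 : (S2.card : ℝ) ≤ (2 * R + 1) * (C1 * B ^ W.card) := by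
    have h1 : S2.card = ∑ j ∈ Finset.range (⌊2 * R⌋₊ + 1), (S2.filter (fun x => jj x = j)).card :=
      Finset.card_eq_sum_card_fiberwise fun x hx => by
        rw [Finset.mem_coe, Finset.mem_range]
        exact (hjb x hx).2.2
    rw [h1]
    push_cast
    calc ∑ j ∈ Finset.range (⌊2 * R⌋₊ + 1), ((S2.filter (fun x => jj x = j)).card : ℝ)
        ≤ ∑ j ∈ Finset.range (⌊2 * R⌋₊ + 1), C1 * B ^ W.card := Finset.sum_le_sum fun j _ => hmain j
      _ = ((⌊2 * R⌋₊ : ℝ) + 1) * (C1 * B ^ W.card) := by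
          rw [Finset.sum_const, Finset.card_range, nsmul_eq_mul]
          push_cast
          ring
      _ ≤ (2 * R + 1) * (C1 * B ^ W.card) := by
          refine mul_le_mul_of_nonneg_right ?_ (by positivity)
          have := Nat.floor_le (by linarith : (0 : ℝ) ≤ 2 * R)
          linarith
  have hN0' : (S1.card : ℝ) ≤ N0 := by exact_mod_cast hc1
  have hN00 : (0 : ℝ) ≤ N0 := Nat.cast_nonneg _
  rw [hcard]
  push_cast
  have hRB : 1 ≤ R * B ^ W.card := by nlinarith
  have hC1B : 0 ≤ C1 * B ^ W.card := by positivity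
  calc (S1.card : ℝ) + S2.card ≤ N0 + (2 * R + 1) * (C1 * B ^ W.card) := add_le_add hN0' hc2
    _ ≤ N0 * (R * B ^ W.card) + 3 * R * (C1 * B ^ W.card) := by
        refine add_le_add (le_mul_of_one_le_right hN00 hRB) ?_
        exact mul_le_mul_of_nonneg_right (by linarith) hC1B
    _ = (N0 + 3 * C1) * R * B ^ W.card := by ring

end Pool.Agent.FPL
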