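import Pool.Agent.FPL.FourP
import Pool.Agent.FPL.UnitW

/-!
# PairP (size 3)

Copy of `PairG` (complete: `fpl_PairG.lean` in the store) with `four_p` and another `W`. `C1, Bc` from `count_unit K`. If `S` is empty: clear. Otherwise fix `y₀ ∈ S`, `W = fs y₀ ∪ fs (φ y₀)`, `W.card ≤ 2 k`; `A₀, A₁, Z ⊆ W`.
* `four_p` (`x 0 0 = y`, `x 0 1 = z`, `x 1 0 = φ y`, `x 1 1 = φ z`, `B = ![B y, B z]`): `ρ = φ y / y` does not depend on `y ∈ S`; `ρ ≠ 0, 1`; `ord v ρ = 0` for `v ∉ W`.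
* `ξ y = (1 - φ y) / (1 - y) ≠ 0`, `ξ y - 1 = (y - φ y) / (1 - y) = (1 - ρ) y / (1 - y) ≠ 0`. For `v ∉ W` and `y ∈ S`: `ord v (ξ y) = 0` and `ord v (ξ y - 1) = ord v (1 - ρ)`. (`ord v (φ y) = ord v y` as `ord v ρ = 0`. `v ∉ A₀ = fil 0 y`, `v ∉ Z = fil 1 y`: either `v ∈ fil 2 y`, `ord v y < 0`, then
`ord v (1 - y) = ord v y`, `ord v (φ y) < 0`, so `v ∈ fil 2 (φ y)`, `ord v (1 - φ y) = ord v (φ y)`; or `v ∉ fs y`, `ord v y = 0 = ord v (1 - y)`, `ord v (φ y) = 0`, `v ∉ Z = fil 1 (φ y)`: `v ∉ fs (φ y)`, `ord v (1 - φ y) = 0`.)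
* `ξ` is injective on `S` (`ξ = ρ + (1 - ρ) / (1 - y)`); `hgt (ξ y) ≤ 4 H + 2 d log 2 ≤ 5 H ≤ exp (R + 2)`.
* `count_unit` with `R + 2`, `W` for the image of `ξ`: `S.card ≤ C1 (R + 2) Bc ^ (2 k)`.
-/

namespace Pool.Agent.FPL

open NumberField IsDedekindDomain Pool.Agent.H7.Abc Pool.Agent.AbcE Pool.Agent.AbcF Pool.Agent.TMS
  Pool.Agent.TM2

private theorem pg_hgt_div {K : Type*} [Field K] [NumberField K] (a b : K) :
    hgt (a / b) ≤ hgt a + hgt b := by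
  rw [div_eq_mul_inv, hgt_eq, hgt_eq a, hgt_eq b]
  refine (Height.logHeight₁_mul_le a b⁻¹).trans ?_
  rw [Height.logHeight₁_inv]

/-- Outside the zeros and the ones of `x` the orders of `x` and `x - 1` agree. -/
private theorem pg_out {K : Type*} [Field K] [NumberField K]
    {A Z : Finset (HeightOneSpectrum (𝓞 K))} {x : K} (h0 : x ≠ 0) (h1 : x ≠ 1)
    (hA : fil 0 x = A) (hZ : fil 1 x = Z) {v : HeightOneSpectrum (𝓞 K)} (hvA : v ∉ A)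
    (hvZ : v ∉ Z) : ord v (x - 1) = ord v x := by
  by_cases hv : v ∈ fs x
  · have h3 : prt x v = 0 ∨ prt x v = 1 ∨ prt x v = 2 := by
      generalize prt x v = q
      fin_cases q <;> simp
    rcases h3 with h | h | h
    · exact absurd (hA ▸ mem_fil.2 ⟨hv, h⟩) hvA
    · exact absurd (hZ ▸ mem_fil.2 ⟨hv, h⟩) hvZ
    · exact (mlt_two h0 h1 h).2
  · rw [mem_fs h0 h1] at hv
    push Not at hv
    rw [hv.1, hv.2]

open Classical in
theorem pairP (K : Type*) [Field K] [NumberField K] : ∃ C Bc : ℝ, 1 ≤ C ∧ 1 ≤ Bc ∧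
    ∀ R H : ℝ, 1 ≤ R → C ≤ H → H ≤ Real.exp R →
      ∀ (A₀ A₁ Z : Finset (HeightOneSpectrum (𝓞 K))) (k : ℕ) (S : Finset K) (φ : K → K)
        (B : K → Finset (HeightOneSpectrum (𝓞 K))),
      (∀ y ∈ S, (y ≠ 0 ∧ y ≠ 1 ∧ H ≤ hgt y ∧ hgt y ≤ 2 * H ∧ fil 0 y = A₀ ∧ fil 1 y = Z ∧
          (fs y).card ≤ k) ∧
        (φ y ≠ 0 ∧ φ y ≠ 1 ∧ H ≤ hgt (φ y) ∧ hgt (φ y) ≤ 2 * H ∧ fil 0 (φ y) = A₁ ∧
          fil 1 (φ y) = Z ∧ (fs (φ y)).card ≤ k) ∧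
        φ y ≠ y ∧ (B y ⊆ fil 2 y ∧ ∑ v ∈ fil 2 y \ B y, ms y v ≤ H / 16) ∧
        (B y ⊆ fil 2 (φ y) ∧ ∑ v ∈ fil 2 (φ y) \ B y, ms (φ y) v ≤ H / 16) ∧
        ShM (B y) (1 / 64) H y (φ y)) →
      (∀ y ∈ S, ∀ z ∈ S, ShM A₀ (1 / 64) H y z ∧ ShM A₁ (1 / 64) H (φ y) (φ z)) →
      (∀ y ∈ S, ∀ z ∈ S, ∀ a b : K, (a = y ∨ a = φ y) → (b = z ∨ b = φ z) →
        ShM Z (1 / 64) H a b ∧ ShI (1 / 64) H a b) →
      (S.card : ℝ) ≤ C * R * Bc ^ k := by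
  classical
  obtain ⟨C1, Bc, hC1, hBc, hcu⟩ := count_unit K
  have hd : 0 < dg K * Real.log 2 :=
    mul_pos (lt_of_lt_of_le one_pos (one_le_dg K)) (Real.log_pos (by norm_num))
  refine ⟨4 * C1 + 1 + 64 * (dg K * Real.log 2), Bc ^ 3, by linarith, one_le_pow₀ hBc, ?_⟩
  intro R H hR hCH hHR A₀ A₁ Z k S φ B hS hA hZ
  have hH0 : 0 < H := by linarith
  have hBW : 1 ≤ (Bc ^ 3) ^ k := one_le_pow₀ (one_le_pow₀ hBc)
  rcases S.eq_empty_or_nonempty with rfl | ⟨y0, hy0⟩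
  · rw [Finset.card_empty, Nat.cast_zero]
    have : 0 ≤ (4 * C1 + 1 + 64 * (dg K * Real.log 2)) * R :=
      mul_nonneg (by linarith) (by linarith)
    exact mul_nonneg this (by linarith)
  -- the four-cycle relation
  have hcyc : ∀ y ∈ S, ∀ z ∈ S, y * φ z = z * φ y := by
    intro y hy z hz
    obtain ⟨⟨a1, a2, a3, -, a5, a6, -⟩, ⟨b1, b2, b3, -, b5, b6, -⟩, -, ⟨a7, a8⟩, ⟨b7, b8⟩, b9⟩ :=
      hS y hy
    obtain ⟨⟨c1, c2, c3, -, c5, c6, -⟩, ⟨d1, d2, d3, -, d5, d6, -⟩, -, ⟨c7, c8⟩, ⟨d7, d8⟩, d9⟩ :=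
      hS z hz
    have hmem : ∀ i k : Fin 2, ∃ t ∈ S, (![![y, z], ![φ y, φ z]] : Fin 2 → Fin 2 → K) i k = t ∨
        (![![y, z], ![φ y, φ z]] : Fin 2 → Fin 2 → K) i k = φ t := by
      intro i k
      fin_cases i <;> fin_cases k
      · exact ⟨y, hy, Or.inl rfl⟩
      · exact ⟨z, hz, Or.inl rfl⟩
      · exact ⟨y, hy, Or.inr rfl⟩
      · exact ⟨z, hz, Or.inr rfl⟩
    have := four_p ![A₀, A₁] ![B y, B z] Z ![![y, z], ![φ y, φ z]] H (1 / 64)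
      (by norm_num) le_rfl (by linarith) hH0
      (by
        intro i k
        fin_cases i <;> fin_cases k
        · exact ⟨a1, a2, a3, a5, a7, a8, a6⟩
        · exact ⟨c1, c2, c3, c5, c7, c8, c6⟩
        · exact ⟨b1, b2, b3, b5, b7, b8, b6⟩
        · exact ⟨d1, d2, d3, d5, d7, d8, d6⟩)
      (by
        intro i
        fin_cases i
        · exact (hA y hy z hz).1
        · exact (hA y hy z hz).2)
      (by
        intro k
        fin_cases k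
        · exact b9
        · exact d9)
      (by
        intro i k i' k'
        obtain ⟨t, ht, ht'⟩ := hmem i k
        obtain ⟨u, hu, hu'⟩ := hmem i' k'
        exact hZ t ht u hu _ _ ht' hu')
    simpa using this
  set ρ : K := φ y0 / y0 with hρ
  have hy00 : y0 ≠ 0 := (hS y0 hy0).1.1
  have hφy0 : φ y0 ≠ 0 := (hS y0 hy0).2.1.1
  have hρ0 : ρ ≠ 0 := div_ne_zero hφy0 hy00
  have hφ : ∀ y ∈ S, φ y = ρ * y := by
    intro y hy
    have h1 := hcyc y hy y0 hy0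
    rw [hρ, div_mul_eq_mul_div, eq_div_iff hy00]
    linear_combination -h1
  have hρ1 : ρ ≠ 1 := by
    intro h
    have h1 := hφ y0 hy0
    rw [h, one_mul] at h1
    exact (hS y0 hy0).2.2.1 h1
  have hordρ : ∀ y ∈ S, ∀ v, ord v (φ y) = ord v ρ + ord v y := by
    intro y hy v
    rw [hφ y hy, ord_mul' v hρ0 (hS y hy).1.1]
  -- the units
  set ξ : K → K := fun y => (φ y - 1) / (y - 1) with hξ
  have hy1 : ∀ y ∈ S, y - 1 ≠ 0 := fun y hy => sub_ne_zero.2 (hS y hy).1.2.1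
  have hφ1 : ∀ y ∈ S, φ y - 1 ≠ 0 := fun y hy => sub_ne_zero.2 (hS y hy).2.1.2.1
  have hξ1 : ∀ y ∈ S, ξ y - 1 = (ρ - 1) * y / (y - 1) := by
    intro y hy
    have h1 := hy1 y hy
    simp only [hξ]
    rw [hφ y hy]
    field_simp
    ring
  have hξ0 : ∀ y ∈ S, ξ y ≠ 0 := fun y hy => div_ne_zero (hφ1 y hy) (hy1 y hy)
  have hξ1' : ∀ y ∈ S, ξ y ≠ 1 := by
    intro y hy
    rw [← sub_ne_zero, hξ1 y hy]
    exact div_ne_zero (mul_ne_zero (sub_ne_zero.2 hρ1) (hS y hy).1.1) (hy1 y hy)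
  have hordξ : ∀ y ∈ S, ∀ v, v ∉ A₀ ∪ A₁ ∪ Z → ord v (ξ y) = ord v ρ := by
    intro y hy v hv
    rw [Finset.mem_union, Finset.mem_union] at hv
    push Not at hv
    obtain ⟨⟨a1, a2, -, -, a5, a6, -⟩, ⟨b1, b2, -, -, b5, b6, -⟩, -⟩ := hS y hy
    simp only [hξ]
    rw [ord_div v (hφ1 y hy) (hy1 y hy), pg_out a1 a2 a5 a6 hv.1.1 hv.2,
      pg_out b1 b2 b5 b6 hv.1.2 hv.2, hordρ y hy v]
    ring
  have hordξ1 : ∀ y ∈ S, ∀ v, v ∉ A₀ ∪ A₁ ∪ Z → ord v (ξ y - 1) = ord v (ρ - 1) := by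
    intro y hy v hv
    rw [Finset.mem_union, Finset.mem_union] at hv
    push Not at hv
    obtain ⟨⟨a1, a2, -, -, a5, a6, -⟩, -⟩ := hS y hy
    rw [hξ1 y hy, ord_div v (mul_ne_zero (sub_ne_zero.2 hρ1) a1) (hy1 y hy),
      ord_mul' v (sub_ne_zero.2 hρ1) a1, pg_out a1 a2 a5 a6 hv.1.1 hv.2]
    ring
  have hinj : Set.InjOn ξ (S : Set K) := by
    intro y hy z hz h
    have hy : y ∈ S := hy
    have hz : z ∈ S := hz
    simp only [hξ] at h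
    rw [hφ y hy, hφ z hz, div_eq_div_iff (hy1 y hy) (hy1 z hz)] at h
    have h4 : (ρ - 1) * (y - z) = 0 := by linear_combination -h
    rcases mul_eq_zero.1 h4 with h5 | h5
    · exact absurd (sub_eq_zero.1 h5) hρ1
    · exact sub_eq_zero.1 h5
  have hhgt : ∀ y ∈ S, hgt (ξ y) ≤ Real.exp (R + 2) := by
    intro y hy
    have h1 := pg_hgt_div (φ y - 1) (y - 1)
    have h2 := hgt_sub_one (φ y)
    have h3 := hgt_sub_one y
    have h4 := (hS y hy).2.1.2.2.2.1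
    have h5 := (hS y hy).1.2.2.2.1
    have h6 : (Module.finrank ℚ K : ℝ) * Real.log 2 = dg K * Real.log 2 := rfl
    rw [h6] at h2 h3
    have h7 : (5 : ℝ) ≤ Real.exp 2 := by
      have h8 : Real.exp 2 = Real.exp 1 * Real.exp 1 := by
        rw [← Real.exp_add]
        norm_num
      have h9 := Real.exp_one_gt_d9
      rw [h8]
      nlinarith
    have h8 : Real.exp (R + 2) = Real.exp R * Real.exp 2 := Real.exp_add _ _
    have h9 : hgt (ξ y) ≤ 5 * H := by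
      simp only [hξ]
      linarith
    rw [h8]
    nlinarith [Real.exp_pos R]
  have hcount := hcu (R + 2) (by linarith) (A₀ ∪ A₁ ∪ Z) (S.image ξ)
    (by
      intro y hy
      obtain ⟨r, hr, rfl⟩ := Finset.mem_image.1 hy
      exact ⟨hξ0 r hr, hξ1' r hr, hhgt r hr⟩)
    (by
      intro y hy z hz v hv
      obtain ⟨r, hr, rfl⟩ := Finset.mem_image.1 hy
      obtain ⟨r', hr', rfl⟩ := Finset.mem_image.1 hz
      exact ⟨by rw [hordξ r hr v hv, hordξ r' hr' v hv],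
        by rw [hordξ1 r hr v hv, hordξ1 r' hr' v hv]⟩)
  rw [Finset.card_image_of_injOn hinj] at hcount
  have hfil : ∀ (i : Fin 3) (x : K), (fil i x).card ≤ (fs x).card := fun i x =>
    Finset.card_le_card (fun v hv => (mem_fil.1 hv).1)
  have hW : (A₀ ∪ A₁ ∪ Z).card ≤ 3 * k := by
    have h1 := Finset.card_union_le (A₀ ∪ A₁) Z
    have h2 := Finset.card_union_le A₀ A₁
    obtain ⟨⟨-, -, -, -, a5, a6, a7⟩, ⟨-, -, -, -, b5, b6, b7⟩, -⟩ := hS y0 hy0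
    have h3 := hfil 0 y0
    have h4 := hfil 0 (φ y0)
    have h5 := hfil 1 y0
    rw [a5] at h3
    rw [b5] at h4
    rw [a6] at h5
    omega
  have h1 : C1 * (R + 2) ≤ (4 * C1 + 1 + 64 * (dg K * Real.log 2)) * R := by nlinarith
  calc (S.card : ℝ) ≤ C1 * (R + 2) * Bc ^ (A₀ ∪ A₁ ∪ Z).card := hcount
    _ ≤ (4 * C1 + 1 + 64 * (dg K * Real.log 2)) * R * (Bc ^ 3) ^ k := by
      rw [← pow_mul]
      exact mul_le_mul h1 (pow_le_pow_right₀ hBc hW) (by positivity)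
        (mul_nonneg (by linarith) (by linarith))

end Pool.Agent.FPL
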