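import Pool.Agent.FPL.EightG
import Pool.Agent.FPL.CountN

/-!
# PathO (size 4)

Copy of `PathG` (complete: `fpl_PathG.lean` in the store, helper64) for walks of length four. `m, C1, Bc` from `countN K 4` (helper45); `C` large. If `S` is empty: clear. Otherwise fix `q₀ ∈ S`, `g = x1 x3 / (x2 x4)` for `q₀`, `W = fs x1 ∪ fs x2 ∪ fs x3 ∪ fs x4` for `q₀` (`W.card ≤ 4 k`). For `q ∈ S` write `x1 = q.1`, `x2 = q.2.1`,
`x3 = q.2.2.1`, `x4 = q.2.2.2`.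
* `eight_g` (with `q` and `q₀`): `x1 x3 / (x2 x4) = g` for all `q ∈ S`; `g ≠ 0, 1`; `ord v g = 0` for `v ∉ W`; `Δ = (1 - g) / g = x2 x4 / (x1 x3) - 1 ≠ 0`.
* `V1 = (1 - x1) / x1`, `V2 = (1 - x2) / x1`, `V3 = (1 - x3) x2 / (x1 x3)`, `V4 = (1 - x4) x2 / (x1 x3)`: `V1 - V2 + V3 - V4 = Δ`. For `v ∉ W` all four have order `0`: `v` is not in `fil 0 x1`, `fil 0 x4`, `Z` (the same for `q₀`), nor in `O = fil 2 x1 ∩ fil 2 x3` (the same for `q₀`). `A1 = fil 0 x2 = fil 0 x3`,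
`B1 = fil 2 x1 = fil 2 x2`, `B2 = fil 2 x3 = fil 2 x4`. If `v ∈ B1`: `v ∉ A1`, `v ∉ B2`: `v ∉ fs x3`, `v ∉ fs x4`, all orders of `x3, 1 - x3, x4, 1 - x4` are `0`, `ord v g = 0` gives `ord v x1 = ord v x2 < 0`, `ord v (1 - x1) = ord v x1`, `ord v (1 - x2) = ord v x2`. If `v ∈ B2`, `v ∉ B1`: `v ∉ fs x1`, `v ∉ A1`, `v ∉ fs x2`, and
`ord v x3 = ord v x4 < 0`. If `v ∉ B1 ∪ B2`: `v ∉ fs x1`, `v ∉ fs x4`, `ord v x2 = ord v x3 ≥ 0` (`ord v g = 0`), `ord v (1 - x2) = ord v (1 - x3) = 0`.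
* `p q = ![V1 / Δ, -V2 / Δ, V3 / Δ, -V4 / Δ] : Fin 4 → K`, `∑ i, p q i = 1` (`Fin.sum_univ_four`). No subsum over a nonempty `J` vanishes (single terms; pairs; the complement of one term: `p q i ≠ 1`; all: `1`; `fin_cases`/`decide` over the 15 sets, or `Finset.sum` over `J` as a sum of `if`s): `V_i ≠ 0`; `V1 = Δ ↔ x3 = x2 x4`; `-V2 = Δ ↔ x3 (x1 + x2 - 1) = x2 x4`; `V3 = Δ ↔ (1 - x3) x2 + x1 x3 = x2 x4`; `-V4 = Δ ↔ V1 - V2 + V3 = 0 ↔ x1 x3 = x2`; `V1 = V2 ↔ x1 = x2`; `V2 = V3 ↔ x2 = x3`; `V3 = V4 ↔ x3 = x4`;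
`V1 + V3 = 0 ↔ x3 (1 - x1 - x2) = -x2`; `V2 + V4 = 0 ↔ (1 - x2) x3 + (1 - x4) x2 = 0`; `V1 = V4 ↔ (1 - x1) x3 = (1 - x4) x2`. `Eqo W`: all orders outside `W` are `- ord v Δ`.
* `p` is injective on `S`: `V1` determines `x1`, `V2` then `x2`, `V3 = (1/x3 - 1) x2 / x1` then `x3`, and `x4 = x1 x3 / (g x2)`.
* Heights: all `≤ 40 H ≤ exp (R + 5)`. `countN` with `R + 5`, `W`: `S.card ≤ C1 (R + 5) ^ m Bc ^ (4 k) ≤ 6 ^ m C1 R ^ m (Bc ^ 4) ^ k`.
-/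

namespace Pool.Agent.FPL

open NumberField IsDedekindDomain Pool.Agent.H7.Abc Pool.Agent.AbcE Pool.Agent.AbcF Pool.Agent.TMS
  Pool.Agent.TM2

private theorem hg_div {K : Type*} [Field K] [NumberField K] (a b : K) :
    hgt (a / b) ≤ hgt a + hgt b := by
  rw [div_eq_mul_inv, hgt_eq, hgt_eq a, hgt_eq b]
  refine (Height.logHeight₁_mul_le a b⁻¹).trans ?_
  rw [Height.logHeight₁_inv]

private theorem hg_mul {K : Type*} [Field K] [NumberField K] (a b : K) :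
    hgt (a * b) ≤ hgt a + hgt b := by
  rw [hgt_eq, hgt_eq a, hgt_eq b]
  exact Height.logHeight₁_mul_le a b

/-- Outside the zeros and the ones of `x` the orders of `x` and `x - 1` agree. -/
private theorem out0 {K : Type*} [Field K] [NumberField K] {x : K} (h0 : x ≠ 0) (h1 : x ≠ 1)
    {v : HeightOneSpectrum (𝓞 K)} (hvA : v ∉ fil 0 x) (hvZ : v ∉ fil 1 x) :
    ord v (x - 1) = ord v x := by
  by_cases hv : v ∈ fs x
  · have h3 : prt x v = 0 ∨ prt x v = 1 ∨ prt x v = 2 := by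
      generalize prt x v = q
      fin_cases q <;> simp
    rcases h3 with h | h | h
    · exact absurd (mem_fil.2 ⟨hv, h⟩) hvA
    · exact absurd (mem_fil.2 ⟨hv, h⟩) hvZ
    · exact (mlt_two h0 h1 h).2
  · rw [mem_fs h0 h1] at hv
    push Not at hv
    rw [hv.1, hv.2]

/-- Outside the poles and the ones of `x` the order of `x - 1` is `0`. -/
private theorem out2 {K : Type*} [Field K] [NumberField K] {x : K} (h0 : x ≠ 0) (h1 : x ≠ 1)
    {v : HeightOneSpectrum (𝓞 K)} (hvA : v ∉ fil 2 x) (hvZ : v ∉ fil 1 x) :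
    ord v (x - 1) = 0 := by
  by_cases hv : v ∈ fs x
  · have h3 : prt x v = 0 ∨ prt x v = 1 ∨ prt x v = 2 := by
      generalize prt x v = q
      fin_cases q <;> simp
    rcases h3 with h | h | h
    · exact (mlt_zero h0 h1 h).2
    · exact absurd (mem_fil.2 ⟨hv, h⟩) hvZ
    · exact absurd (mem_fil.2 ⟨hv, h⟩) hvA
  · rw [mem_fs h0 h1] at hv
    push Not at hv
    exact hv.2

/-- A combination of the four terms, with the common denominator. -/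
private theorem clear4 {K : Type*} [Field K] (x1 x2 x3 x4 d e0 e1 e2 e3 : K) (z1 : x1 ≠ 0)
    (z3 : x3 ≠ 0) (hd : d ≠ 0) :
    e0 * ((x1 - 1) / x1 / d) + e1 * (-((x2 - 1) / x1 / d)) +
      e2 * ((x3 - 1) * x2 / (x1 * x3) / d) + e3 * (-((x4 - 1) * x2 / (x1 * x3) / d)) =
      (e0 * (x1 - 1) * x3 - e1 * (x2 - 1) * x3 + e2 * (x3 - 1) * x2 -
        e3 * (x4 - 1) * x2) / (x1 * x3 * d) := by
  field_simp
  ring

/-- No nonempty subsum of four terms vanishes. -/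
private theorem sub4 {K : Type*} [Field K] (f : Fin 4 → K) (h : ∑ i, f i = 1)
    (h0 : f 0 ≠ 0) (h1 : f 1 ≠ 0) (h2 : f 2 ≠ 0) (h3 : f 3 ≠ 0)
    (h01 : f 0 + f 1 ≠ 0) (h02 : f 0 + f 2 ≠ 0) (h03 : f 0 + f 3 ≠ 0)
    (h12 : f 1 + f 2 ≠ 0) (h13 : f 1 + f 3 ≠ 0) (h23 : f 2 + f 3 ≠ 0)
    (h012 : f 0 + f 1 + f 2 ≠ 0) (h013 : f 0 + f 1 + f 3 ≠ 0)
    (h023 : f 0 + f 2 + f 3 ≠ 0) (h123 : f 1 + f 2 + f 3 ≠ 0) (J : Finset (Fin 4))
    (hJ : J.Nonempty) : ∑ i ∈ J, f i ≠ 0 := by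
  classical
  have e : ∑ i ∈ J, f i = ∑ i, if i ∈ J then f i else 0 := by
    rw [Finset.sum_ite_mem, Finset.univ_inter]
  have h' : f 0 + f 1 + f 2 + f 3 ≠ 0 := by
    rw [← Fin.sum_univ_four, h]
    exact one_ne_zero
  rw [e, Fin.sum_univ_four]
  by_cases a0 : (0 : Fin 4) ∈ J <;> by_cases a1 : (1 : Fin 4) ∈ J <;>
    by_cases a2 : (2 : Fin 4) ∈ J <;> by_cases a3 : (3 : Fin 4) ∈ J <;>
    simp only [a0, a1, a2, a3, if_true, if_false, add_zero, zero_add] <;>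
    first
    | assumption
    | (exfalso
       obtain ⟨i, hi⟩ := hJ
       fin_cases i
       · exact a0 hi
       · exact a1 hi
       · exact a2 hi
       · exact a3 hi)

set_option linter.unusedSimpArgs false in
open Classical in
theorem pathO (K : Type*) [Field K] [NumberField K] : ∃ (m : ℕ) (C Bc : ℝ), 1 ≤ C ∧ 1 ≤ Bc ∧
    ∀ R H : ℝ, 1 ≤ R → C ≤ H → H ≤ Real.exp R → ∀ (Z : Finset (HeightOneSpectrum (𝓞 K)))
      (T : Set K) (k : ℕ), Cls Z (1 / 64) H T → (∀ a ∈ T, (fs a).card ≤ k) →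
      ∀ (O : Finset (HeightOneSpectrum (𝓞 K))) (S : Finset (K × K × K × K)),
      (∀ q ∈ S, (q.1 ∈ T ∧ q.2.1 ∈ T ∧ q.2.2.1 ∈ T ∧ q.2.2.2 ∈ T) ∧
        (SB (1 / 64) H q.1 q.2.1 ∧ SA (1 / 64) H q.2.1 q.2.2.1 ∧ SB (1 / 64) H q.2.2.1 q.2.2.2) ∧
        fil 2 q.1 ∩ fil 2 q.2.2.1 = O ∧
        (q.1 ≠ q.2.1 ∧ q.2.1 ≠ q.2.2.1 ∧ q.2.2.1 ≠ q.2.2.2) ∧
        (q.1 * q.2.2.1 ≠ q.2.1 ∧ q.2.2.1 * (1 - q.1 - q.2.1) ≠ -q.2.1) ∧
        (q.1 * q.2.2.1 ≠ q.2.1 * q.2.2.2 ∧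
          (1 - q.2.1) * q.2.2.1 + (1 - q.2.2.2) * q.2.1 ≠ 0 ∧
          (1 - q.1) * q.2.2.1 ≠ (1 - q.2.2.2) * q.2.1 ∧
          q.2.2.1 ≠ q.2.1 * q.2.2.2 ∧
          q.2.2.1 * (q.1 + q.2.1 - 1) ≠ q.2.1 * q.2.2.2 ∧
          (1 - q.2.2.1) * q.2.1 + q.1 * q.2.2.1 ≠ q.2.1 * q.2.2.2)) →
      (∀ q ∈ S, ∀ q' ∈ S, SA (1 / 64) H q.1 q'.1 ∧ SA (1 / 64) H q.2.2.2 q'.2.2.2) →
      (S.card : ℝ) ≤ C * R ^ m * Bc ^ k := by
  classical
  obtain ⟨m, C1, Bc, hC1, hBc, hcu⟩ := countN K 4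
  have hd : 0 < dg K * Real.log 2 :=
    mul_pos (lt_of_lt_of_le one_pos (one_le_dg K)) (Real.log_pos (by norm_num))
  have h5m : (1 : ℝ) ≤ 5 ^ m := one_le_pow₀ (by norm_num)
  have h5C : 1 ≤ 5 ^ m * C1 := by nlinarith
  refine ⟨m, 5 ^ m * C1 + 64 * (dg K * Real.log 2), Bc ^ 4, by linarith, one_le_pow₀ hBc, ?_⟩
  intro R H hR hCH hHR Z T k hT hk O S hS hSS
  have hH0 : 0 < H := by linarith
  have hBk : 1 ≤ (Bc ^ 4) ^ k := one_le_pow₀ (one_le_pow₀ hBc)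
  rcases S.eq_empty_or_nonempty with rfl | ⟨q0, hq0⟩
  · rw [Finset.card_empty, Nat.cast_zero]
    have h1 : 0 ≤ 5 ^ m * C1 + 64 * (dg K * Real.log 2) := by linarith
    positivity
  -- the elements of `T`
  have hTe := hT.1
  -- `g` is constant
  set g : K := q0.1 * q0.2.2.1 / (q0.2.1 * q0.2.2.2) with hg
  have hz : ∀ q ∈ S, q.1 ≠ 0 ∧ q.2.1 ≠ 0 ∧ q.2.2.1 ≠ 0 ∧ q.2.2.2 ≠ 0 := by
    intro q hq
    obtain ⟨⟨a1, a2, a3, a4⟩, -⟩ := hS q hq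
    exact ⟨(hTe _ a1).1, (hTe _ a2).1, (hTe _ a3).1, (hTe _ a4).1⟩
  have hu : ∀ q ∈ S, q.1 - 1 ≠ 0 ∧ q.2.1 - 1 ≠ 0 ∧ q.2.2.1 - 1 ≠ 0 ∧ q.2.2.2 - 1 ≠ 0 := by
    intro q hq
    obtain ⟨⟨a1, a2, a3, a4⟩, -⟩ := hS q hq
    exact ⟨sub_ne_zero.2 (hTe _ a1).2.1, sub_ne_zero.2 (hTe _ a2).2.1,
      sub_ne_zero.2 (hTe _ a3).2.1, sub_ne_zero.2 (hTe _ a4).2.1⟩
  have hg6 : ∀ q ∈ S, q.1 * q.2.2.1 = g * (q.2.1 * q.2.2.2) := by
    intro q hq
    obtain ⟨⟨a1, a2, a3, a4⟩, ⟨a5, a6, a7⟩, -⟩ := hS q hq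
    obtain ⟨⟨b1, b2, b3, b4⟩, ⟨b5, b6, b7⟩, -⟩ := hS q0 hq0
    have h6 := eight_g Z T H (1 / 64) (by norm_num) le_rfl (by linarith) hH0 hT
      q.1 q.2.1 q.2.2.1 q.2.2.2 q0.1 q0.2.1 q0.2.2.1 q0.2.2.2 a1 a2 a3 a4 b1 b2 b3 b4
      (hSS q hq q0 hq0).1 a6 (hSS q hq q0 hq0).2 b6 a5 a7 b5 b7
    have h7 : q0.2.1 * q0.2.2.2 ≠ 0 := mul_ne_zero (hz q0 hq0).2.1 (hz q0 hq0).2.2.2
    rw [hg, div_mul_eq_mul_div, eq_div_iff h7]
    linear_combination h6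
  have hg0 : g ≠ 0 := div_ne_zero (mul_ne_zero (hz q0 hq0).1 (hz q0 hq0).2.2.1)
    (mul_ne_zero (hz q0 hq0).2.1 (hz q0 hq0).2.2.2)
  have hg1 : g - 1 ≠ 0 := by
    rw [sub_ne_zero]
    intro h
    have h1 := hg6 q0 hq0
    rw [h, one_mul] at h1
    exact (hS q0 hq0).2.2.2.2.2.1 h1
  set W : Finset (HeightOneSpectrum (𝓞 K)) := fs q0.1 ∪ fs q0.2.1 ∪ fs q0.2.2.1 ∪ fs q0.2.2.2
    with hW
  set D : K := (g - 1) / g with hD
  have hD0 : D ≠ 0 := div_ne_zero hg1 hg0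
  have hWcard : W.card ≤ 4 * k := by
    obtain ⟨⟨a1, a2, a3, a4⟩, -⟩ := hS q0 hq0
    have h0 := Finset.card_union_le (fs q0.1 ∪ fs q0.2.1 ∪ fs q0.2.2.1) (fs q0.2.2.2)
    have h1 := Finset.card_union_le (fs q0.1 ∪ fs q0.2.1) (fs q0.2.2.1)
    have h2 := Finset.card_union_le (fs q0.1) (fs q0.2.1)
    have h3 := hk _ a1
    have h4 := hk _ a2
    have h5 := hk _ a3
    have h6 := hk _ a4
    rw [hW]
    omega
  have hsub : ∀ (i : Fin 3) (x : K), fil i x ⊆ fs x := fun i x v hv => (mem_fil.1 hv).1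
  -- orders outside `W`
  have hnW : ∀ v, v ∉ W → v ∉ fs q0.1 ∧ v ∉ fs q0.2.1 ∧ v ∉ fs q0.2.2.1 ∧ v ∉ fs q0.2.2.2 := by
    intro v hv
    rw [hW, Finset.mem_union, Finset.mem_union, Finset.mem_union] at hv
    push Not at hv
    exact ⟨hv.1.1.1, hv.1.1.2, hv.1.2, hv.2⟩
  have hordg : ∀ v, v ∉ W → ord v g = 0 := by
    intro v hv
    obtain ⟨h1, h2, h3, h4⟩ := hnW v hv
    obtain ⟨⟨a1, a2, a3, a4⟩, -⟩ := hS q0 hq0
    rw [mem_fs (hTe _ a1).1 (hTe _ a1).2.1] at h1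
    rw [mem_fs (hTe _ a2).1 (hTe _ a2).2.1] at h2
    rw [mem_fs (hTe _ a3).1 (hTe _ a3).2.1] at h3
    rw [mem_fs (hTe _ a4).1 (hTe _ a4).2.1] at h4
    push Not at h1 h2 h3 h4
    obtain ⟨z1, z2, z3, z4⟩ := hz q0 hq0
    rw [hg, ord_div v (mul_ne_zero z1 z3) (mul_ne_zero z2 z4), ord_mul' v z1 z3,
      ord_mul' v z2 z4, h1.1, h2.1, h3.1, h4.1]
    ring
  have hords : ∀ q ∈ S, ∀ v, v ∉ W → ord v (q.1 - 1) = ord v q.1 ∧
      ord v (q.2.1 - 1) = ord v q.1 ∧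
      ord v (q.2.2.1 - 1) + ord v q.2.1 = ord v q.1 + ord v q.2.2.1 ∧
      ord v (q.2.2.2 - 1) + ord v q.2.1 = ord v q.1 + ord v q.2.2.1 := by
    intro q hq v hv
    have hvg := hordg v hv
    obtain ⟨n1, n2, n3, n4⟩ := hnW v hv
    obtain ⟨⟨a1, a2, a3, a4⟩, ⟨a5, a6, a7⟩, a8, -⟩ := hS q hq
    obtain ⟨⟨b1, b2, b3, b4⟩, -, b8, -⟩ := hS q0 hq0
    obtain ⟨z1, z2, z3, z4⟩ := hz q hq
    have hvZ : v ∉ Z := fun h => n1 (hsub 1 q0.1 ((hTe _ b1).2.2.2.2.symm ▸ h))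
    have hZ1 : v ∉ fil 1 q.1 := (hTe _ a1).2.2.2.2.symm ▸ hvZ
    have hZ2 : v ∉ fil 1 q.2.1 := (hTe _ a2).2.2.2.2.symm ▸ hvZ
    have hZ3 : v ∉ fil 1 q.2.2.1 := (hTe _ a3).2.2.2.2.symm ▸ hvZ
    have hZ4 : v ∉ fil 1 q.2.2.2 := (hTe _ a4).2.2.2.2.symm ▸ hvZ
    have hA : v ∉ fil 0 q.1 := by
      rw [(hSS q hq q0 hq0).1.1]
      exact fun h => n1 (hsub 0 _ h)
    have hA4 : v ∉ fil 0 q.2.2.2 := by
      rw [(hSS q hq q0 hq0).2.1]
      exact fun h => n4 (hsub 0 _ h)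
    have hO : v ∉ fil 2 q.1 ∩ fil 2 q.2.2.1 := by
      rw [a8, ← b8]
      exact fun h => n1 (hsub 2 _ (Finset.mem_inter.1 h).1)
    have t1 := (hTe _ a1).2.1
    have t2 := (hTe _ a2).2.1
    have t3 := (hTe _ a3).2.1
    have t4 := (hTe _ a4).2.1
    have h1 := out0 z1 t1 hA hZ1
    have h4 := out0 z4 t4 hA4 hZ4
    have hrel : ord v q.1 + ord v q.2.2.1 = ord v q.2.1 + ord v q.2.2.2 := by
      rw [← ord_mul' v z1 z3, hg6 q hq, ord_mul' v hg0 (mul_ne_zero z2 z4), hvg,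
        ord_mul' v z2 z4, zero_add]
    have hdis : ∀ x : K, v ∈ fil 2 x → v ∉ fil 0 x := by
      intro x h h'
      have h5 := (mem_fil.1 h').2
      rw [(mem_fil.1 h).2] at h5
      exact absurd h5 (by decide)
    by_cases hB1 : v ∈ fil 2 q.1
    · have hB1' : v ∈ fil 2 q.2.1 := a5.1 ▸ hB1
      have h2 := out0 z2 t2 (hdis _ hB1') hZ2
      have hB2 : v ∉ fil 2 q.2.2.1 := fun h => hO (Finset.mem_inter.2 ⟨hB1, h⟩)
      have hB2' : v ∉ fil 2 q.2.2.2 := a7.1 ▸ hB2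
      have hA3 : v ∉ fil 0 q.2.2.1 := a6.1 ▸ hdis _ hB1'
      have h3 := out0 z3 t3 hA3 hZ3
      have h3' := out2 z3 t3 hB2 hZ3
      have h4' := out2 z4 t4 hB2' hZ4
      refine ⟨h1, ?_, ?_, ?_⟩ <;> omega
    · have hB1' : v ∉ fil 2 q.2.1 := a5.1 ▸ hB1
      have h1' := out2 z1 t1 hB1 hZ1
      have h2' := out2 z2 t2 hB1' hZ2
      by_cases hB2 : v ∈ fil 2 q.2.2.1
      · have h3 := out0 z3 t3 (hdis _ hB2) hZ3
        have hA2 : v ∉ fil 0 q.2.1 := by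
          rw [a6.1]
          exact hdis _ hB2
        have h2 := out0 z2 t2 hA2 hZ2
        refine ⟨h1, ?_, ?_, ?_⟩ <;> omega
      · have hB2' : v ∉ fil 2 q.2.2.2 := a7.1 ▸ hB2
        have h3' := out2 z3 t3 hB2 hZ3
        have h4' := out2 z4 t4 hB2' hZ4
        refine ⟨h1, ?_, ?_, ?_⟩ <;> omega
  -- the solutions of the unit equation
  set p : K × K × K × K → Fin 4 → K :=
    fun q => ![(q.1 - 1) / q.1 / D, -((q.2.1 - 1) / q.1 / D),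
      (q.2.2.1 - 1) * q.2.1 / (q.1 * q.2.2.1) / D,
      -((q.2.2.2 - 1) * q.2.1 / (q.1 * q.2.2.1) / D)] with hp
  have hp0 : ∀ q, p q 0 = (q.1 - 1) / q.1 / D := fun q => rfl
  have hp1 : ∀ q, p q 1 = -((q.2.1 - 1) / q.1 / D) := fun q => rfl
  have hp2 : ∀ q, p q 2 = (q.2.2.1 - 1) * q.2.1 / (q.1 * q.2.2.1) / D := fun q => rfl
  have hp3 : ∀ q, p q 3 = -((q.2.2.2 - 1) * q.2.1 / (q.1 * q.2.2.1) / D) := fun q => rfl
  -- a combination of the terms, cleared of denominators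
  have hclear : ∀ q ∈ S, ∀ e0 e1 e2 e3 : K,
      e0 * p q 0 + e1 * p q 1 + e2 * p q 2 + e3 * p q 3 =
      (e0 * (q.1 - 1) * q.2.2.1 - e1 * (q.2.1 - 1) * q.2.2.1 + e2 * (q.2.2.1 - 1) * q.2.1 -
        e3 * (q.2.2.2 - 1) * q.2.1) / (q.1 * q.2.2.1 * D) := by
    intro q hq e0 e1 e2 e3
    rw [hp0, hp1, hp2, hp3]
    exact clear4 _ _ _ _ _ _ _ _ _ (hz q hq).1 (hz q hq).2.2.1 hD0
  have hden : ∀ q ∈ S, q.1 * q.2.2.1 * D ≠ 0 := fun q hq =>
    mul_ne_zero (mul_ne_zero (hz q hq).1 (hz q hq).2.2.1) hD0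
  have hsum : ∀ q ∈ S, ∑ i, p q i = 1 := by
    intro q hq
    have h1 := hclear q hq 1 1 1 1
    have h2 := hg6 q hq
    rw [Fin.sum_univ_four]
    simp only [one_mul] at h1
    rw [h1, div_eq_one_iff_eq (hden q hq), hD, mul_div_assoc', eq_div_iff hg0]
    linear_combination h2
  have hND : ∀ q ∈ S, ∀ J : Finset (Fin 4), J.Nonempty → ∑ i ∈ J, p q i ≠ 0 := by
    intro q hq
    obtain ⟨z1, z2, z3, z4⟩ := hz q hq
    obtain ⟨u1, u2, u3, u4⟩ := hu q hq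
    obtain ⟨-, -, -, ⟨n1, n2, n3⟩, ⟨n4, n5⟩, ⟨n6, n7, n8, n9, n10, n11⟩⟩ := hS q hq
    have hcl := hclear q hq
    have hne : ∀ {N : K}, N ≠ 0 → N / (q.1 * q.2.2.1 * D) ≠ 0 := fun h =>
      div_ne_zero h (hden q hq)
    refine sub4 (p q) (hsum q hq) ?_ ?_ ?_ ?_ ?_ ?_ ?_ ?_ ?_ ?_ ?_ ?_ ?_ ?_
    · exact div_ne_zero (div_ne_zero u1 z1) hD0
    · exact neg_ne_zero.2 (div_ne_zero (div_ne_zero u2 z1) hD0)
    · exact div_ne_zero (div_ne_zero (mul_ne_zero u3 z2) (mul_ne_zero z1 z3)) hD0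
    · exact neg_ne_zero.2 (div_ne_zero (div_ne_zero (mul_ne_zero u4 z2) (mul_ne_zero z1 z3)) hD0)
    · have h := hcl 1 1 0 0
      simp only [one_mul, zero_mul, add_zero, sub_zero] at h
      rw [h]
      refine hne fun h' => n1 ?_
      have h6 : q.2.2.1 * (q.1 - q.2.1) = 0 := by linear_combination h'
      exact sub_eq_zero.1 ((mul_eq_zero.1 h6).resolve_left z3)
    · have h := hcl 1 0 1 0
      simp only [one_mul, zero_mul, add_zero, sub_zero] at h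
      rw [h]
      refine hne fun h' => n5 ?_
      linear_combination (-1 : K) * h'
    · have h := hcl 1 0 0 1
      simp only [one_mul, zero_mul, add_zero, sub_zero] at h
      rw [h]
      refine hne fun h' => n8 ?_
      linear_combination (-1 : K) * h'
    · have h := hcl 0 1 1 0
      simp only [one_mul, zero_mul, add_zero, zero_add, sub_zero, zero_sub] at h
      rw [h]
      refine hne fun h' => n2 ?_
      linear_combination (-1 : K) * h'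
    · have h := hcl 0 1 0 1
      simp only [one_mul, zero_mul, add_zero, zero_add, sub_zero, zero_sub] at h
      rw [h]
      refine hne fun h' => n7 ?_
      linear_combination h'
    · have h := hcl 0 0 1 1
      simp only [one_mul, zero_mul, add_zero, zero_add, sub_zero, zero_sub] at h
      rw [h]
      refine hne fun h' => n3 ?_
      have h6 : q.2.1 * (q.2.2.1 - q.2.2.2) = 0 := by linear_combination h'
      exact sub_eq_zero.1 ((mul_eq_zero.1 h6).resolve_left z2)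
    · have h := hcl 1 1 1 0
      simp only [one_mul, zero_mul, add_zero, zero_add, sub_zero, zero_sub] at h
      rw [h]
      refine hne fun h' => n4 ?_
      linear_combination h'
    · have h := hcl 1 1 0 1
      simp only [one_mul, zero_mul, add_zero, zero_add, sub_zero, zero_sub] at h
      rw [h]
      refine hne fun h' => n11 ?_
      linear_combination h'
    · have h := hcl 1 0 1 1
      simp only [one_mul, zero_mul, add_zero, zero_add, sub_zero, zero_sub] at h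
      rw [h]
      refine hne fun h' => n10 ?_
      linear_combination h'
    · have h := hcl 0 1 1 1
      simp only [one_mul, zero_mul, add_zero, zero_add, sub_zero, zero_sub] at h
      rw [h]
      refine hne fun h' => n9 ?_
      linear_combination h'
  have hinj : Set.InjOn p (S : Set (K × K × K × K)) := by
    intro q hq q' hq' h
    have hq : q ∈ S := hq
    have hq' : q' ∈ S := hq'
    obtain ⟨z1, z2, z3, z4⟩ := hz q hq
    obtain ⟨z1', z2', z3', z4'⟩ := hz q' hq'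
    have h1 := congrFun h 0
    have h2 := congrFun h 1
    have h3 := congrFun h 2
    rw [hp0, hp0, div_left_inj' hD0, div_eq_div_iff z1 z1'] at h1
    have e1 : q.1 = q'.1 := by linear_combination h1
    rw [hp1, hp1, neg_inj, div_left_inj' hD0, ← e1, div_left_inj' z1] at h2
    have e2 : q.2.1 = q'.2.1 := by linear_combination h2
    rw [hp2, hp2, div_left_inj' hD0, ← e1, ← e2,
      div_eq_div_iff (mul_ne_zero z1 z3) (mul_ne_zero z1 z3')] at h3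
    have e3 : q.2.2.1 = q'.2.2.1 := by
      have h4 : q.1 * q.2.1 * (q.2.2.1 - q'.2.2.1) = 0 := by linear_combination h3
      exact sub_eq_zero.1 ((mul_eq_zero.1 h4).resolve_left (mul_ne_zero z1 z2))
    have e4 : q.2.2.2 = q'.2.2.2 := by
      have h5 := hg6 q hq
      have h6 := hg6 q' hq'
      rw [← e1, ← e2, ← e3, h5] at h6
      exact mul_left_cancel₀ z2 (mul_left_cancel₀ hg0 h6)
    exact Prod.ext e1 (Prod.ext e2 (Prod.ext e3 e4))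
  have hhT : ∀ a ∈ T, hgt a ≤ 2 * H := fun a ha => (hTe a ha).2.2.2.1
  have hs1 : ∀ x : K, hgt (x - 1) ≤ dg K * Real.log 2 + hgt x := fun x => hgt_sub_one x
  have hexp : 20 * H ≤ Real.exp (R + 4) := by
    have h8 : Real.exp 4 = (Real.exp 1) ^ 4 := by
      rw [← Real.exp_nat_mul]
      norm_num
    have h9 := Real.exp_one_gt_d9
    have h10 : (20 : ℝ) ≤ Real.exp 4 := by
      rw [h8]
      have h11 : (2.7 : ℝ) ^ 4 ≤ (Real.exp 1) ^ 4 :=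
        pow_le_pow_left₀ (by norm_num) (by linarith) 4
      have h12 : (20 : ℝ) ≤ (2.7 : ℝ) ^ 4 := by norm_num
      linarith
    rw [Real.exp_add]
    nlinarith [Real.exp_pos R]
  have hhg : hgt g ≤ 8 * H := by
    obtain ⟨⟨a1, a2, a3, a4⟩, -⟩ := hS q0 hq0
    have h1 := hg_div (q0.1 * q0.2.2.1) (q0.2.1 * q0.2.2.2)
    have h2 := hg_mul q0.1 q0.2.2.1
    have h2' := hg_mul q0.2.1 q0.2.2.2
    have h3 := hhT _ a1
    have h4 := hhT _ a2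
    have h5 := hhT _ a3
    have h6 := hhT _ a4
    rw [hg]
    linarith
  have hhD : hgt D ≤ 8 * H + dg K * Real.log 2 := by
    have h1 : D = -(g⁻¹ - 1) := by
      rw [hD, sub_div, div_self hg0, one_div]
      ring
    have h2 := hs1 g⁻¹
    have h3 : hgt (-(g⁻¹ - 1)) = hgt (g⁻¹ - 1) := by
      rw [hgt_eq, hgt_eq, Height.logHeight₁_neg]
    rw [hgt_inv] at h2
    rw [h1, h3]
    linarith
  have hneg : ∀ x : K, hgt (-x) = hgt x := by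
    intro x
    rw [hgt_eq, hgt_eq, Height.logHeight₁_neg]
  have hhgt : ∀ q ∈ S, ∀ i, hgt (p q i) ≤ Real.exp (R + 4) := by
    intro q hq i
    obtain ⟨⟨a1, a2, a3, a4⟩, -⟩ := hS q hq
    have h1 := hhT _ a1
    have h2 := hhT _ a2
    have h3 := hhT _ a3
    have h4 := hhT _ a4
    have s1 := hs1 q.1
    have s2 := hs1 q.2.1
    have s3 := hs1 q.2.2.1
    have s4 := hs1 q.2.2.2
    have m1 := hg_mul q.1 q.2.2.1
    have m3 := hg_mul (q.2.2.1 - 1) q.2.1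
    have m4 := hg_mul (q.2.2.2 - 1) q.2.1
    have d1 := hg_div (q.1 - 1) q.1
    have d2 := hg_div (q.2.1 - 1) q.1
    have d3 := hg_div ((q.2.2.1 - 1) * q.2.1) (q.1 * q.2.2.1)
    have d4 := hg_div ((q.2.2.2 - 1) * q.2.1) (q.1 * q.2.2.1)
    have f1 := hg_div ((q.1 - 1) / q.1) D
    have f2 := hg_div ((q.2.1 - 1) / q.1) D
    have f3 := hg_div ((q.2.2.1 - 1) * q.2.1 / (q.1 * q.2.2.1)) D
    have f4 := hg_div ((q.2.2.2 - 1) * q.2.1 / (q.1 * q.2.2.1)) D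
    have hi : i = 0 ∨ i = 1 ∨ i = 2 ∨ i = 3 := by
      fin_cases i <;> simp
    rcases hi with rfl | rfl | rfl | rfl
    · rw [hp0]
      linarith
    · rw [hp1, hneg]
      linarith
    · rw [hp2]
      linarith
    · rw [hp3, hneg]
      linarith
  have hEq : ∀ q ∈ S, ∀ i, ∀ v, v ∉ W → ord v (p q i) = -ord v D := by
    intro q hq i v hv
    obtain ⟨z1, z2, z3, z4⟩ := hz q hq
    obtain ⟨u1, u2, u3, u4⟩ := hu q hq
    obtain ⟨o1, o2, o3, o4⟩ := hords q hq v hv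
    have hi : i = 0 ∨ i = 1 ∨ i = 2 ∨ i = 3 := by
      fin_cases i <;> simp
    rcases hi with rfl | rfl | rfl | rfl
    · rw [hp0, ord_div v (div_ne_zero u1 z1) hD0, ord_div v u1 z1]
      omega
    · rw [hp1, ord_neg', ord_div v (div_ne_zero u2 z1) hD0, ord_div v u2 z1]
      omega
    · rw [hp2, ord_div v (div_ne_zero (mul_ne_zero u3 z2) (mul_ne_zero z1 z3)) hD0,
        ord_div v (mul_ne_zero u3 z2) (mul_ne_zero z1 z3), ord_mul' v u3 z2, ord_mul' v z1 z3]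
      omega
    · rw [hp3, ord_neg', ord_div v (div_ne_zero (mul_ne_zero u4 z2) (mul_ne_zero z1 z3)) hD0,
        ord_div v (mul_ne_zero u4 z2) (mul_ne_zero z1 z3), ord_mul' v u4 z2, ord_mul' v z1 z3]
      omega
  have hcount := hcu (R + 4) (by linarith) W (S.image p)
    (by
      intro y hy
      obtain ⟨r, hr, rfl⟩ := Finset.mem_image.1 hy
      exact ⟨hsum r hr, hND r hr, hhgt r hr⟩)
    (by
      intro y hy z hz i
      obtain ⟨r, hr, rfl⟩ := Finset.mem_image.1 hy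
      obtain ⟨r', hr', rfl⟩ := Finset.mem_image.1 hz
      intro v hv
      rw [hEq r hr i v hv, hEq r' hr' i v hv])
  rw [Finset.card_image_of_injOn hinj] at hcount
  have h1 : C1 * (R + 4) ^ m ≤ (5 ^ m * C1 + 64 * (dg K * Real.log 2)) * R ^ m := by
    have h2 : (R + 4) ^ m ≤ (5 * R) ^ m := pow_le_pow_left₀ (by linarith) (by linarith) m
    rw [mul_pow] at h2
    have h3 : 0 ≤ R ^ m := by positivity
    have h4 : C1 * (R + 4) ^ m ≤ C1 * (5 ^ m * R ^ m) :=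
      mul_le_mul_of_nonneg_left h2 (by linarith)
    have h5 : 0 ≤ 64 * (dg K * Real.log 2) * R ^ m := by positivity
    nlinarith
  calc (S.card : ℝ) ≤ C1 * (R + 4) ^ m * Bc ^ W.card := hcount
    _ ≤ (5 ^ m * C1 + 64 * (dg K * Real.log 2)) * R ^ m * Bc ^ (4 * k) :=
      mul_le_mul h1 (pow_le_pow_right₀ hBc hWcard) (by positivity)
        (mul_nonneg (by linarith) (by positivity))
    _ = (5 ^ m * C1 + 64 * (dg K * Real.log 2)) * R ^ m * (Bc ^ 4) ^ k := by rw [pow_mul]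

end Pool.Agent.FPL
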