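import Pool.Agent.FPL.Defs
import Pool.Agent.TMS.HgtPow

/-!
# RelIneq (size 4)

`d = dg K`; `z = ∏ x_i ^ b_i`, `z' = ∏ x_i ^ b'_i`, `z = z' t ^ n`.
* height: `n hgt t = hgt (t ^ n) = hgt (z / z') ≤ ∑ |b_i - b'_i| hgt (x_i) ≤ N B 2 H` (`hgt_eq`, `Height.logHeight₁_pow`, `Height.logHeight₁_mul_le`, `hgt_inv`, or via
  `z / z' = ∏ x_i ^ (b_i - b'_i : ℤ)`; `TMS/HgtPow` has `hgt (x ^ n) = n * hgt x`), so `hgt t ≤ 2 N B H / n`.
* `u ∈ Vf`: `mk u (x_i) = 1`, `mk u (x_i - 1) ≤ exp (-m u) ≤ 1`; so `mk u (z - 1) ≤ exp (-m u)`, the same for `z'` (induction over products), `mk u (z / z' - 1) = mk u (z - z') ≤ exp (-m u)`;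
  with `htf`: `log mk u (t - 1) ≤ -m u - log mk u n`.
* `u ∉ Vf`: `log mk u (t - 1) ≤ log (max 1 (mk u t))`.
* `w` infinite: `log w (t - 1) ≤ log (8 N B) - ℓ w + log (max 1 (w t))`. If `N B exp (-ℓ w) > 1/4` (in particular if `ℓ w = 0`): `w (t - 1) ≤ 2 max 1 (w t)` and `log 2 ≤ log (8 N B) - ℓ w`.
  Otherwise `ℓ w > 0`, `w (z - 1) ≤ (1 + δ) ^ (N B) - 1 ≤ exp (N B δ) - 1 ≤ 2 N B δ` for `δ = exp (-ℓ w)` (`∑ b_i ≤ N B`), the same for `z'`, `w (z') ≥ 1/2`,
  `w (t ^ n - 1) = w (z - z') / w z' ≤ 8 N B δ`, and `w (t - 1) ≤ w (t ^ n - 1)`.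
* product formula (`gap_prod`) for `t - 1 ≠ 0`, a finite set `B0 ⊇ Vf` of places containing those with `mk v (t - 1) ≠ 1`; `- ∑_{u ∈ Vf} log mk u n ≤ d log n` (`gap_prod` for `n`, all
  `mk v n ≤ 1`), `∑ mult = d`, `∑_{u} log max 1 (mk u t) + ∑_w mult log max 1 (w t) ≤ hgt t` (`sum_finite_le`-like, `hgt`).
  Result: `0 ≤ -∑ m - ∑ mult ℓ + d log n + d log (8 N B) + hgt t`.
-/

namespace Pool.Agent.FPL

open NumberField IsDedekindDomain Pool.Agent.H7.Abc Pool.Agent.AbcE Pool.Agent.AbcF Pool.Agent.TMS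
  Pool.Agent.TM2

section RelIneqAux

variable {K : Type*} [Field K] [NumberField K]

private theorem RelIneq_hgt_one : hgt (1 : K) = 0 := by
  rw [hgt_eq, Height.logHeight₁_one]

private theorem RelIneq_hgt_zpow (x : K) (k : ℤ) : hgt (x ^ k) = |(k : ℝ)| * hgt x := by
  obtain ⟨n, rfl | rfl⟩ := k.eq_nat_or_neg
  · rw [zpow_natCast, hgt_pow]
    simp
  · rw [zpow_neg, zpow_natCast, hgt_inv, hgt_pow]
    simp

private theorem RelIneq_hgt_prod {ι : Type*} (s : Finset ι) (f : ι → K) :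
    hgt (∏ i ∈ s, f i) ≤ ∑ i ∈ s, hgt (f i) := by
  classical
  induction s using Finset.induction_on with
  | empty => simp [RelIneq_hgt_one]
  | insert a s ha ih =>
    rw [Finset.prod_insert ha, Finset.sum_insert ha]
    exact (hgt_mul_le _ _).trans (by linarith)

private theorem RelIneq_hgt {N n B : ℕ} {H : ℝ} (x : Fin N → K) (b b' : Fin N → ℕ) (t : K)
    (hn : 1 ≤ n) (hb : ∀ i, b i ≤ B) (hb' : ∀ i, b' i ≤ B)
    (hx : ∀ i, x i ≠ 0 ∧ hgt (x i) ≤ 2 * H)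
    (htn : ∏ i, x i ^ b i = (∏ i, x i ^ b' i) * t ^ n) : hgt t ≤ 2 * N * B * H / n := by
  have hn0 : (0 : ℝ) < n := by exact_mod_cast hn
  rw [le_div_iff₀ hn0, mul_comm, ← hgt_pow]
  have hz' : ∏ i, x i ^ b' i ≠ 0 := Finset.prod_ne_zero_iff.2 fun i _ => pow_ne_zero _ (hx i).1
  have h1 : t ^ n = ∏ i, x i ^ ((b i : ℤ) - (b' i : ℤ)) := by
    have h2 : ∏ i, x i ^ ((b i : ℤ) - (b' i : ℤ)) = (∏ i, x i ^ b i) / ∏ i, x i ^ b' i := by
      rw [← Finset.prod_div_distrib]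
      refine Finset.prod_congr rfl fun i _ => ?_
      rw [zpow_sub₀ (hx i).1, zpow_natCast, zpow_natCast]
    rw [h2, htn, mul_div_cancel_left₀ _ hz']
  rw [h1]
  refine (RelIneq_hgt_prod _ _).trans ?_
  have h3 : ∀ i, hgt (x i ^ ((b i : ℤ) - (b' i : ℤ))) ≤ B * (2 * H) := by
    intro i
    rw [RelIneq_hgt_zpow]
    refine mul_le_mul ?_ (hx i).2 (hgt_nonneg _) (Nat.cast_nonneg _)
    push_cast
    have e1 : (b i : ℝ) ≤ B := by exact_mod_cast hb i
    have e2 : (b' i : ℝ) ≤ B := by exact_mod_cast hb' i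
    have e3 : (0 : ℝ) ≤ b i := Nat.cast_nonneg _
    have e4 : (0 : ℝ) ≤ b' i := Nat.cast_nonneg _
    rw [abs_le]
    constructor <;> linarith
  calc ∑ i, hgt (x i ^ ((b i : ℤ) - (b' i : ℤ))) ≤ ∑ _i : Fin N, (B : ℝ) * (2 * H) :=
        Finset.sum_le_sum fun i _ => h3 i
    _ = 2 * N * B * H := by
        rw [Finset.sum_const, Finset.card_univ, Fintype.card_fin, nsmul_eq_mul]
        ring

private theorem RelIneq_fin_mul (V : FinitePlace K) {a : ℝ} {y z : K} (hy : V y = 1 ∧ V (y - 1) ≤ a)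
    (hz : V z = 1 ∧ V (z - 1) ≤ a) : V (y * z) = 1 ∧ V (y * z - 1) ≤ a := by
  refine ⟨by rw [map_mul, hy.1, hz.1, one_mul], ?_⟩
  have e : y * z - 1 = y * (z - 1) + (y - 1) := by ring
  rw [e]
  refine (FinitePlace.add_le _ _ _).trans (max_le ?_ hy.2)
  rw [map_mul, hy.1, one_mul]
  exact hz.2

private theorem RelIneq_fin_prod (V : FinitePlace K) {a : ℝ} (ha : 0 ≤ a) {N : ℕ} (x : Fin N → K)
    (b : Fin N → ℕ) (hx : ∀ i, V (x i) = 1 ∧ V (x i - 1) ≤ a) :
    V (∏ i, x i ^ b i) = 1 ∧ V (∏ i, x i ^ b i - 1) ≤ a := by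
  refine Finset.prod_induction (fun i => x i ^ b i) (fun y => V y = 1 ∧ V (y - 1) ≤ a)
    (fun y z hy hz => RelIneq_fin_mul V hy hz) ⟨map_one V, ?_⟩ fun i _ => ?_
  · rw [sub_self, map_zero]
    exact ha
  · generalize b i = k
    induction k with
    | zero => simpa using ha
    | succ k ih =>
      simp only [pow_succ]
      exact RelIneq_fin_mul V ih (hx i)

private theorem RelIneq_fin {N n : ℕ} (V : FinitePlace K) {a : ℝ} (ha : 0 ≤ a) (x : Fin N → K)
    (b b' : Fin N → ℕ) (t : K) (hx : ∀ i, V (x i) = 1 ∧ V (x i - 1) ≤ a)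
    (htn : ∏ i, x i ^ b i = (∏ i, x i ^ b' i) * t ^ n) : V (t ^ n - 1) ≤ a := by
  have h1 := RelIneq_fin_prod V ha x b hx
  have h2 := RelIneq_fin_prod V ha x b' hx
  have h3 : (∏ i, x i ^ b' i) * (t ^ n - 1) = (∏ i, x i ^ b i - 1) - (∏ i, x i ^ b' i - 1) := by
    rw [htn]; ring
  have h4 : V (t ^ n - 1) = V ((∏ i, x i ^ b' i) * (t ^ n - 1)) := by
    rw [map_mul, h2.1, one_mul]
  rw [h4, h3]
  exact (fp_sub_le V _ _).trans (max_le h1.2 h2.2)

private theorem RelIneq_add (w : InfinitePlace K) (x y : K) : w (x + y) ≤ w x + w y := by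
  rw [← InfinitePlace.norm_embedding_eq, ← InfinitePlace.norm_embedding_eq,
    ← InfinitePlace.norm_embedding_eq, map_add]
  exact norm_add_le _ _

private theorem RelIneq_sub (w : InfinitePlace K) (x y : K) : w (x - y) ≤ w x + w y := by
  rw [← InfinitePlace.norm_embedding_eq, ← InfinitePlace.norm_embedding_eq,
    ← InfinitePlace.norm_embedding_eq, map_sub]
  exact norm_sub_le _ _

private theorem RelIneq_inf_mul (w : InfinitePlace K) {c e : ℝ} {y z : K} (hc : 1 ≤ c)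
    (hy : w (y - 1) ≤ c - 1) (hz : w (z - 1) ≤ e - 1) : w (y * z - 1) ≤ c * e - 1 := by
  have h1 : y * z - 1 = (y - 1) * (z - 1) + (y - 1) + (z - 1) := by ring
  rw [h1]
  have h2 : w ((y - 1) * (z - 1) + (y - 1) + (z - 1)) ≤
      w ((y - 1) * (z - 1)) + w (y - 1) + w (z - 1) :=
    (RelIneq_add w _ _).trans (by linarith [RelIneq_add w ((y - 1) * (z - 1)) (y - 1)])
  rw [map_mul] at h2
  have h3 : w (y - 1) * w (z - 1) ≤ (c - 1) * (e - 1) :=
    mul_le_mul hy hz (apply_nonneg _ _) (by linarith)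
  linarith

private theorem RelIneq_inf_pow (w : InfinitePlace K) {δ : ℝ} (hδ : 0 ≤ δ) {y : K}
    (hy : w (y - 1) ≤ δ) (k : ℕ) : w (y ^ k - 1) ≤ (1 + δ) ^ k - 1 := by
  induction k with
  | zero => simp
  | succ k ih =>
    rw [pow_succ, pow_succ]
    exact RelIneq_inf_mul w (one_le_pow₀ (by linarith)) ih (by linarith)

private theorem RelIneq_inf_prod (w : InfinitePlace K) {δ : ℝ} (hδ : 0 ≤ δ) {ι : Type*}
    (s : Finset ι) (x : ι → K) (b : ι → ℕ) (hx : ∀ i, w (x i - 1) ≤ δ) :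
    w (∏ i ∈ s, x i ^ b i - 1) ≤ (1 + δ) ^ (∑ i ∈ s, b i) - 1 := by
  classical
  induction s using Finset.induction_on with
  | empty => simp
  | insert a s ha ih =>
    rw [Finset.prod_insert ha, Finset.sum_insert ha, pow_add]
    exact RelIneq_inf_mul w (one_le_pow₀ (by linarith)) (RelIneq_inf_pow w hδ (hx a) _) ih

private theorem RelIneq_inf_close (w : InfinitePlace K) {δ : ℝ} (hδ : 0 ≤ δ) {N B : ℕ}
    (x : Fin N → K) (b : Fin N → ℕ) (hb : ∀ i, b i ≤ B) (hx : ∀ i, w (x i - 1) ≤ δ)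
    (hs : N * B * δ ≤ 1 / 4) : w (∏ i, x i ^ b i - 1) ≤ 2 * (N * B * δ) := by
  have h1 := RelIneq_inf_prod w hδ Finset.univ x b hx
  have h2 : ∑ i, b i ≤ N * B := by
    calc ∑ i, b i ≤ ∑ _i : Fin N, B := Finset.sum_le_sum fun i _ => hb i
      _ = N * B := by simp
  have h3 : (1 + δ) ^ (∑ i, b i) ≤ (1 + δ) ^ (N * B) := pow_le_pow_right₀ (by linarith) h2
  have h4 : (1 + δ) ^ (N * B) ≤ Real.exp (N * B * δ) := by
    have h5 : 1 + δ ≤ Real.exp δ := by linarith [Real.add_one_le_exp δ]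
    have h6 := pow_le_pow_left₀ (by linarith : (0 : ℝ) ≤ 1 + δ) h5 (N * B)
    rw [← Real.exp_nat_mul] at h6
    push_cast at h6
    exact h6
  have h0 : 0 ≤ (N : ℝ) * B * δ := by positivity
  have h5 := Real.abs_exp_sub_one_le (x := (N : ℝ) * B * δ) (by
    rw [abs_of_nonneg h0]; linarith)
  rw [abs_of_nonneg h0] at h5
  have h6 := (abs_le.1 h5).2
  linarith

private theorem RelIneq_inf {n N B : ℕ} (hN : 1 ≤ N) (hB : 1 ≤ B) (w : InfinitePlace K)
    (x : Fin N → K) (b b' : Fin N → ℕ) (hb : ∀ i, b i ≤ B) (hb' : ∀ i, b' i ≤ B) (t : K) (l : ℝ)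
    (hl : 0 ≤ l) (hx : 0 < l → ∀ i, w (x i - 1) ≤ Real.exp (-l)) (ht1 : t ≠ 1)
    (htn : ∏ i, x i ^ b i = (∏ i, x i ^ b' i) * t ^ n) (htw : w (t - 1) ≤ w (t ^ n - 1)) :
    Real.log (w (t - 1)) ≤ Real.log (8 * N * B) - l + Real.log (max 1 (w t)) := by
  have hN0 : (1 : ℝ) ≤ N := by exact_mod_cast hN
  have hB0 : (1 : ℝ) ≤ B := by exact_mod_cast hB
  have hNB : (1 : ℝ) ≤ N * B := by nlinarith
  have hm : (1 : ℝ) ≤ max 1 (w t) := le_max_left _ _
  have ht : 0 < w (t - 1) := InfinitePlace.pos_iff.2 (sub_ne_zero.2 ht1)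
  have key : w (t - 1) ≤ 8 * N * B * Real.exp (-l) * max 1 (w t) := by
    set δ := Real.exp (-l) with hδ
    have hδ0 : 0 < δ := Real.exp_pos _
    by_cases hc : 0 < l ∧ N * B * δ ≤ 1 / 4
    · have hd := hx hc.1
      have h1 := RelIneq_inf_close w hδ0.le x b hb hd hc.2
      have h2 := RelIneq_inf_close w hδ0.le x b' hb' hd hc.2
      have h3 : (∏ i, x i ^ b' i) * (t ^ n - 1) =
          (∏ i, x i ^ b i - 1) - (∏ i, x i ^ b' i - 1) := by
        rw [htn]; ring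
      have h4 : w (∏ i, x i ^ b' i) * w (t ^ n - 1) ≤ 4 * (N * B * δ) := by
        rw [← map_mul, h3]
        exact (RelIneq_sub w _ _).trans (by linarith)
      have h5 : 1 / 2 ≤ w (∏ i, x i ^ b' i) := by
        have h6 : (1 : K) = (∏ i, x i ^ b' i) - (∏ i, x i ^ b' i - 1) := by ring
        have h7 := RelIneq_sub w (∏ i, x i ^ b' i) (∏ i, x i ^ b' i - 1)
        rw [← h6, map_one] at h7
        linarith
      have h6 : w (t ^ n - 1) ≤ 8 * (N * B * δ) := by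
        have h7 : 0 ≤ w (t ^ n - 1) := apply_nonneg _ _
        nlinarith
      calc w (t - 1) ≤ 8 * (N * B * δ) := htw.trans h6
        _ = 8 * N * B * δ * 1 := by ring
        _ ≤ 8 * N * B * δ * max 1 (w t) :=
            mul_le_mul_of_nonneg_left hm (by positivity)
    · have h1 : 1 / 4 < N * B * δ := by
        by_contra hcon
        push Not at hcon
        have hl0 : ¬ 0 < l := fun h => hc ⟨h, hcon⟩
        have hl1 : l = 0 := le_antisymm (not_lt.1 hl0) hl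
        rw [hδ, hl1] at hcon
        norm_num at hcon
        linarith
      have h2 : w (t - 1) ≤ w t + 1 := by
        have := RelIneq_sub w t 1
        rwa [map_one] at this
      have h3 : w t ≤ max 1 (w t) := le_max_right _ _
      nlinarith
  have h8 : (0 : ℝ) < 8 * N * B := by positivity
  have h9 := Real.log_le_log ht key
  rw [Real.log_mul (by positivity) (by positivity), Real.log_mul h8.ne' (Real.exp_pos _).ne',
    Real.log_exp] at h9
  linarith

end RelIneqAux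

theorem rel_ineq {K : Type*} [Field K] [NumberField K] (n N B : ℕ) (H : ℝ) (x : Fin N → K)
    (b b' : Fin N → ℕ) (t : K) (Vf : Finset (HeightOneSpectrum (𝓞 K)))
    (m : HeightOneSpectrum (𝓞 K) → ℝ) (ℓ : InfinitePlace K → ℝ)
    (hn : 1 ≤ n) (hN : 1 ≤ N) (hB : 1 ≤ B) (hb : ∀ i, b i ≤ B) (hb' : ∀ i, b' i ≤ B)
    (hx : ∀ i, x i ≠ 0 ∧ hgt (x i) ≤ 2 * H)
    (hf : ∀ u ∈ Vf, 0 ≤ m u ∧ ∀ i, FinitePlace.mk u (x i - 1) ≤ Real.exp (-m u) ∧ ord u (x i) = 0)
    (hw : ∀ w, 0 ≤ ℓ w ∧ (0 < ℓ w → ∀ i, w (x i - 1) ≤ Real.exp (-ℓ w)))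
    (ht0 : t ≠ 0) (ht1 : t ≠ 1) (htn : ∏ i, x i ^ b i = (∏ i, x i ^ b' i) * t ^ n)
    (htf : ∀ u ∈ Vf, FinitePlace.mk u (t - 1) * FinitePlace.mk u (n : K) ≤
      FinitePlace.mk u (t ^ n - 1))
    (htw : ∀ w : InfinitePlace K, w (t - 1) ≤ w (t ^ n - 1)) :
    ∑ u ∈ Vf, m u + ∑ w : InfinitePlace K, (w.mult : ℝ) * ℓ w ≤
      dg K * Real.log (8 * n * N * B) + 2 * N * B * H / n := by
  classical
  have hn0 : (0 : ℝ) < n := by exact_mod_cast hn
  have hN0 : (0 : ℝ) < N := by exact_mod_cast hN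
  have hB0 : (0 : ℝ) < B := by exact_mod_cast hB
  have hH := RelIneq_hgt x b b' t hn hb hb' hx htn
  have hs : t - 1 ≠ 0 := sub_ne_zero.2 ht1
  set B0 : Finset (HeightOneSpectrum (𝓞 K)) := Vf ∪ (finite_support hs).toFinset with hB0'
  have hP := gap_prod hs B0 (by
    intro v hv
    rw [hB0', Finset.mem_union]
    exact Or.inr ((Set.Finite.mem_toFinset _).2 hv))
  have hsplit : ∑ v ∈ B0, Real.log (FinitePlace.mk v (t - 1)) =
      ∑ v ∈ B0 \ Vf, Real.log (FinitePlace.mk v (t - 1)) +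
        ∑ v ∈ Vf, Real.log (FinitePlace.mk v (t - 1)) :=
    (Finset.sum_sdiff (by rw [hB0']; exact Finset.subset_union_left)).symm
  -- the places in `Vf`
  have h1 : ∑ v ∈ Vf, Real.log (FinitePlace.mk v (t - 1)) ≤
      -(∑ u ∈ Vf, m u) + dg K * Real.log n := by
    have h2 : ∀ u ∈ Vf, Real.log (FinitePlace.mk u (t - 1)) ≤
        -m u + -Real.log (FinitePlace.mk u (n : K)) := by
      intro u hu
      have h3 : FinitePlace.mk u (t ^ n - 1) ≤ Real.exp (-m u) :=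
        RelIneq_fin (FinitePlace.mk u) (Real.exp_pos _).le x b b' t
          (fun i => ⟨(ord_eq_zero_iff u (hx i).1).1 ((hf u hu).2 i).2, ((hf u hu).2 i).1⟩) htn
      have h4 := (htf u hu).trans h3
      have h5 : 0 < FinitePlace.mk u (t - 1) := FinitePlace.pos_iff.2 hs
      have hnK : (n : K) ≠ 0 := by
        have : n ≠ 0 := by omega
        exact_mod_cast this
      have h6 : 0 < FinitePlace.mk u (n : K) := FinitePlace.pos_iff.2 hnK
      have h7 := Real.log_le_log (mul_pos h5 h6) h4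
      rw [Real.log_mul h5.ne' h6.ne', Real.log_exp] at h7
      linarith
    refine (Finset.sum_le_sum h2).trans ?_
    rw [Finset.sum_add_distrib, Finset.sum_neg_distrib]
    have h8 := log_e (K := K) hn Vf
    unfold dg
    linarith
  -- the other finite places
  have h2 : ∑ v ∈ B0 \ Vf, Real.log (FinitePlace.mk v (t - 1)) ≤
      ∑ᶠ v : HeightOneSpectrum (𝓞 K), Real.log (max 1 (FinitePlace.mk v t)) := by
    refine le_trans (Finset.sum_le_sum fun v _ => ?_)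
      (sum_le_finsum' (finite_support_hgt ht0) (fun v => log_max_nonneg _) (B0 \ Vf))
    have h5 : 0 < FinitePlace.mk v (t - 1) := FinitePlace.pos_iff.2 hs
    refine Real.log_le_log h5 ((fp_sub_le _ _ _).trans ?_)
    rw [map_one, max_comm]
  -- the infinite places
  have h3 : ∑ w : InfinitePlace K, (w.mult : ℝ) * Real.log (w (t - 1)) ≤
      dg K * Real.log (8 * N * B) - ∑ w : InfinitePlace K, (w.mult : ℝ) * ℓ w +
        ∑ w : InfinitePlace K, (w.mult : ℝ) * Real.log (max 1 (w t)) := by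
    have h4 : ∀ w : InfinitePlace K, (w.mult : ℝ) * Real.log (w (t - 1)) ≤
        (w.mult : ℝ) * Real.log (8 * N * B) - (w.mult : ℝ) * ℓ w +
          (w.mult : ℝ) * Real.log (max 1 (w t)) := by
      intro w
      have h5 := RelIneq_inf hN hB w x b b' hb hb' t (ℓ w) (hw w).1 (hw w).2 ht1 htn (htw w)
      have h6 := mul_le_mul_of_nonneg_left h5 (Nat.cast_nonneg (α := ℝ) w.mult)
      linarith
    refine (Finset.sum_le_sum fun w _ => h4 w).trans ?_
    rw [Finset.sum_add_distrib, Finset.sum_sub_distrib, ← Finset.sum_mul, ← Nat.cast_sum,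
      InfinitePlace.sum_mult_eq]
    unfold dg
    exact le_rfl
  have h4 : hgt t = (∑ w : InfinitePlace K, (w.mult : ℝ) * Real.log (max 1 (w t))) +
      ∑ᶠ v : HeightOneSpectrum (𝓞 K), Real.log (max 1 (FinitePlace.mk v t)) := rfl
  have h5 : Real.log (8 * n * N * B) = Real.log n + Real.log (8 * N * B) := by
    rw [← Real.log_mul hn0.ne' (by positivity)]
    congr 1
    ring
  rw [h5, mul_add]
  linarith

end Pool.Agent.FPL
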