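import Pool.Agent.FPL.Defs

/-!
# Sec (size 3)

Colour of `t`: `⌊arg (w.embedding t) / (π / (2 n))⌋ ∈ [-2n, 2n]`, at most `4 n + 1` values. If the colours of `t, s ≠ 0` agree, `z = w.embedding (t / s)` has an argument of absolute value `< π / (2 n)`
(`z = |z| e^{i α}`, `α = arg t - arg s`), so `Re (z ^ k) ≥ 0` for `0 ≤ k < n`, `|1 + z + ... + z ^ (n-1)| ≥ Re ≥ 1`, and `|z ^ n - 1| = |z - 1| |1 + ... + z ^ (n-1)|`
(`mul_geom_sum`). `w x = ‖w.embedding x‖` (`InfinitePlace.norm_embedding_eq`). See `Pool.Agent.AbcE.Arch` (private lemmas there do exactly this; copy them).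
-/

namespace Pool.Agent.FPL

open NumberField IsDedekindDomain Pool.Agent.H7.Abc Pool.Agent.AbcE Pool.Agent.AbcF Pool.Agent.TMS
  Pool.Agent.TM2

/-- Inside a sector `‖s - 1‖ ≤ ‖s ^ e - 1‖`. -/
private theorem sector {e : ℕ} (he : 1 ≤ e) {a b : ℂ} (ha : a ≠ 0) (hb : b ≠ 0)
    (h : |Complex.arg a - Complex.arg b| ≤ Real.pi / (2 * e)) :
    ‖a / b - 1‖ ≤ ‖(a / b) ^ e - 1‖ := by
  set s := a / b with hs
  have hs0 : s ≠ 0 := div_ne_zero ha hb
  have he0 : (0 : ℝ) < e := by exact_mod_cast he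
  set θ := Complex.arg a - Complex.arg b with hθ
  have hrep : s = (‖s‖ : ℂ) * Complex.exp (θ * Complex.I) := by
    have h1 := Complex.norm_mul_exp_arg_mul_I a
    have h2 := Complex.norm_mul_exp_arg_mul_I b
    have hbn : (‖b‖ : ℂ) ≠ 0 := by exact_mod_cast (norm_ne_zero_iff.mpr hb)
    have hexp : Complex.exp (θ * Complex.I) =
        Complex.exp (Complex.arg a * Complex.I) / Complex.exp (Complex.arg b * Complex.I) := by
      rw [← Complex.exp_sub]
      congr 1
      rw [hθ]
      push_cast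
      ring
    rw [hexp, hs, norm_div]
    push_cast
    rw [div_mul_div_comm, h1, h2]
  have hre : ∀ k ∈ Finset.range e, 0 ≤ (s ^ k).re := by
    intro k hk
    have hk' : (k : ℝ) < e := by exact_mod_cast Finset.mem_range.mp hk
    have hpow : s ^ k = ((‖s‖ ^ k : ℝ) : ℂ) * Complex.exp (((k : ℝ) * θ : ℝ) * Complex.I) := by
      conv_lhs => rw [hrep]
      rw [mul_pow, ← Complex.exp_nat_mul]
      push_cast
      congr 2
      ring
    rw [hpow, Complex.re_ofReal_mul, Complex.exp_ofReal_mul_I_re]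
    refine mul_nonneg (by positivity) (Real.cos_nonneg_of_mem_Icc ?_)
    have hb2 : |(k : ℝ) * θ| ≤ Real.pi / 2 := by
      rw [abs_mul, abs_of_nonneg (by positivity : (0 : ℝ) ≤ k)]
      calc (k : ℝ) * |θ| ≤ e * (Real.pi / (2 * e)) :=
            mul_le_mul hk'.le h (abs_nonneg _) he0.le
        _ = Real.pi / 2 := by field_simp
    exact ⟨by linarith [(abs_le.mp hb2).1], (abs_le.mp hb2).2⟩
  have hsum : 1 ≤ ‖∑ k ∈ Finset.range e, s ^ k‖ := by
    refine le_trans ?_ (Complex.re_le_norm _)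
    rw [Complex.re_sum]
    have h0 : (0 : ℕ) ∈ Finset.range e := Finset.mem_range.mpr he
    calc (1 : ℝ) = (s ^ 0).re := by simp
      _ ≤ ∑ k ∈ Finset.range e, (s ^ k).re :=
          Finset.single_le_sum (f := fun k => (s ^ k).re) hre h0
  rw [← geom_sum_mul, norm_mul]
  exact le_mul_of_one_le_left (norm_nonneg _) hsum

/-- Equal floors are close. -/
private theorem close_of_floor {a b r : ℝ} (hr : 0 < r) (h : ⌊a / r⌋ = ⌊b / r⌋) : |a - b| ≤ r := by
  have h1 := Int.abs_sub_lt_one_of_floor_eq_floor h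
  rw [← sub_div, abs_div, abs_of_pos hr, div_lt_one hr] at h1
  exact h1.le

/-- A finite set of indices gives a finite classification. -/
private theorem exists_class {α β : Type*} (g : α → β) (S : Finset β) :
    ∃ c : α → Fin (S.card + 1), ∀ a b, g a ∈ S → g b ∈ S → c a = c b → g a = g b := by
  classical
  refine ⟨fun a => if h : g a ∈ S then (S.equivFin ⟨g a, h⟩).castSucc else Fin.last _, ?_⟩
  intro a b ha hb hab
  simp only [dif_pos ha, dif_pos hb] at hab
  have h1 := Fin.castSucc_injective _ hab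
  have h2 := S.equivFin.injective h1
  exact congrArg Subtype.val h2

/-- The range of a floor. -/
private theorem floor_mem {a B : ℝ} (h : |a| ≤ B) : ⌊a⌋ ∈ Finset.Icc (-⌈B⌉) ⌈B⌉ := by
  rw [Finset.mem_Icc]
  constructor
  · rw [Int.le_floor]
    push_cast
    linarith [(abs_le.mp h).1, Int.le_ceil B]
  · have h1 : ((⌊a⌋ : ℤ) : ℝ) ≤ ((⌈B⌉ : ℤ) : ℝ) :=
      (Int.floor_le a).trans (((abs_le.mp h).2).trans (Int.le_ceil B))
    exact_mod_cast h1

theorem sec_col {K : Type*} [Field K] [NumberField K] (n : ℕ) (hn : 1 ≤ n) (w : InfinitePlace K) :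
    ∃ c : K → Fin (4 * n + 2), ∀ t s : K, t ≠ 0 → s ≠ 0 → c t = c s →
      w (t / s - 1) ≤ w ((t / s) ^ n - 1) := by
  classical
  have hn0 : (0 : ℝ) < n := by exact_mod_cast hn
  have hα : (0 : ℝ) < Real.pi / (2 * n) := by
    have := Real.pi_pos
    positivity
  set S : Finset ℤ := Finset.Icc (-(2 * (n : ℤ))) (2 * n) with hS
  obtain ⟨c, hc⟩ := exists_class
    (fun t : K => ⌊Complex.arg (w.embedding t) / (Real.pi / (2 * n))⌋) S
  have hcard : S.card = 4 * n + 1 := by
    have : ((Finset.Icc (-(2 * (n : ℤ))) (2 * n)).card : ℤ) = 4 * n + 1 := by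
      rw [Int.card_Icc, Int.toNat_of_nonneg (by omega)]
      ring
    exact_mod_cast this
  have hmem : ∀ t : K, ⌊Complex.arg (w.embedding t) / (Real.pi / (2 * n))⌋ ∈ S := by
    intro t
    have h1 : |Complex.arg (w.embedding t) / (Real.pi / (2 * n))| ≤ ((2 * n : ℤ) : ℝ) := by
      rw [abs_div, abs_of_pos hα, div_le_iff₀ hα]
      have h2 := Complex.abs_arg_le_pi (w.embedding t)
      have h3 : (((2 * n : ℤ) : ℝ)) * (Real.pi / (2 * n)) = Real.pi := by
        push_cast
        field_simp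
      rw [h3]
      exact h2
    have h4 := floor_mem h1
    rw [Int.ceil_intCast] at h4
    exact h4
  refine ⟨fun t => Fin.cast (by rw [hcard]) (c t), ?_⟩
  intro t s ht hs hts
  have h5 : c t = c s := by
    have := congrArg Fin.val hts
    exact Fin.ext (by simpa using this)
  have h6 := hc t s (hmem t) (hmem s) h5
  have h7 := close_of_floor hα h6
  have hnorm : ∀ x : K, ‖w.embedding x‖ = w x := fun x => InfinitePlace.norm_embedding_eq w x
  have h8 := sector hn ((map_ne_zero w.embedding).mpr ht) ((map_ne_zero w.embedding).mpr hs) h7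
  rw [← hnorm, ← hnorm, map_sub, map_sub, map_pow, map_div₀, map_one]
  exact h8

end Pool.Agent.FPL
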