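import Pool.Agent.FPL.Lte
import Pool.Agent.FPL.ColMod
import Pool.Agent.FPL.Sec
import Pool.Agent.FPL.RelIneq

/-!
# RelTrick3 (size 5): as RelTrick2; `n` need only divide the orders at the places `v i`

`C0` from `pow_col K`, `d = Module.finrank ℚ K`; `C = max (C0 + d) (C0 * 6 ^ d) + 1` or larger. For `b : Fin N → Fin (B + 1)` put `z b = ∏ x_i ^ b_i ≠ 0`. For `u ∉ T`: `ord u (z b) = ∑ b_i ord u (x_i)`
(`ord_prod'`, `ord_pow'`) is `n b_i` if `u = v i` (then `ord u (x_j) = 0` for `j ≠ i` by injectivity) and `0` otherwise: always divisible by `n`. Let `f : K → Fin M0` be `pow_col` for `e = n`, `T`: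
`M0 ≤ C0 n ^ (T.card + C0)`, and `f (z b) = f (z b')` implies `z b = z b' t ^ n`, `t ≠ 0`.
Pigeonhole in one step: for every colour `a` of `f` in the image choose a base `β a` with `f (z (β a)) = a` and for every `b` an element `t b ≠ 0` with `z b = z (β (f (z b))) (t b) ^ n`. The colour of `b` is
`(f (z b), (c_u (t b))_{u ∈ Vf}, (s_w (t b))_w)` with `c_u` from `col_mod u (d + 1)` and `s_w` from `sec_col n`: at most `M0 * ∏_{u ∈ Vf} exp ((d+1) ln u) * (4 n + 2) ^ (number of infinite places ≤ d)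
≤ C n ^ (T.card + C) exp ((dg K + 1) LN Vf) < (B + 1) ^ N` colours, so two different `b ≠ b'` have the same colour (`Fintype.exists_ne_map_eq_of_card_lt`). Put `t = t b / t b'`: `z b = z b' t ^ n`.
For `u ∈ Vf`: `mk u (t b) = 1` because `mk u (x_i) = 1` for all `i`, so `mk u (z b) = 1`, `n ≥ 1`; so `mk u (t - 1) = mk u (t b - t b') ≤ exp (-(d+1) ln u)`: `lte` applies. `sec_col` gives
`w (t - 1) ≤ w (t ^ n - 1)` for all `w`. `t ≠ 1`, otherwise `z b = z b'` and the orders at `v i` give `n b_i = n b'_i` for all `i`. `rel_ineq` contradicts the last hypothesis.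
-/

namespace Pool.Agent.FPL

open NumberField IsDedekindDomain Pool.Agent.H7.Abc Pool.Agent.AbcE Pool.Agent.AbcF Pool.Agent.TMS
  Pool.Agent.TM2

private theorem relTrick3_card (K : Type*) [Field K] [NumberField K] :
    Fintype.card (InfinitePlace K) ≤ Module.finrank ℚ K := by
  rw [← InfinitePlace.sum_mult_eq (K := K)]
  calc Fintype.card (InfinitePlace K) = ∑ _w : InfinitePlace K, 1 := by simp
    _ ≤ ∑ w : InfinitePlace K, w.mult := by
        refine Finset.sum_le_sum fun w _ => ?_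
        exact InfinitePlace.mult_pos

theorem rel_trick3 (K : Type*) [Field K] [NumberField K] : ∃ C : ℕ,
    ∀ (T Vf : Finset (HeightOneSpectrum (𝓞 K))) (n N B : ℕ) (H : ℝ) (x : Fin N → K)
      (v : Fin N → HeightOneSpectrum (𝓞 K)) (m : HeightOneSpectrum (𝓞 K) → ℝ)
      (ℓ : InfinitePlace K → ℝ), 1 ≤ n → 1 ≤ N → 1 ≤ B → Function.Injective v →
      (∀ i, v i ∉ T) →
      (∀ i, x i ≠ 0 ∧ hgt (x i) ≤ 2 * H ∧ ord (v i) (x i) ≠ 0 ∧ (n : ℤ) ∣ ord (v i) (x i) ∧
        ∀ u, u ∉ T → u ≠ v i → ord u (x i) = 0) →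
      (∀ u ∈ Vf, 0 ≤ m u ∧ ∀ i, FinitePlace.mk u (x i - 1) ≤ Real.exp (-m u) ∧
        ord u (x i) = 0) →
      (∀ w, 0 ≤ ℓ w ∧ (0 < ℓ w → ∀ i, w (x i - 1) ≤ Real.exp (-ℓ w))) →
      (C : ℝ) * (n : ℝ) ^ (T.card + C) * Real.exp ((dg K + 1) * LN Vf) < ((B : ℝ) + 1) ^ N →
      dg K * Real.log (8 * n * N * B) + 2 * N * B * H / n <
        ∑ u ∈ Vf, m u + ∑ w : InfinitePlace K, (w.mult : ℝ) * ℓ w → False := by
  obtain ⟨C0, hC0⟩ := pow_col K
  set d : ℕ := Module.finrank ℚ K with hd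
  refine ⟨C0 * 6 ^ d + C0 + d, ?_⟩
  intro T Vf n N B H x v m ℓ hn hN hB hv hvT hx hf hw hbig hlt
  classical
  obtain ⟨M0, f, hM0, hfc⟩ := hC0 n hn T
  -- the colours
  choose Mu cu hMu hcu using fun u : HeightOneSpectrum (𝓞 K) => col_mod u (d + 1)
  choose sw hsw using fun w : InfinitePlace K => sec_col n hn w
  let z : (Fin N → Fin (B + 1)) → K := fun b => ∏ i, x i ^ (b i : ℕ)
  have hz : ∀ b, z b ≠ 0 := fun b =>
    Finset.prod_ne_zero_iff.2 fun i _ => pow_ne_zero _ (hx i).1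
  have hord : ∀ (u : HeightOneSpectrum (𝓞 K)) (b : Fin N → Fin (B + 1)),
      ord u (z b) = ∑ i, ((b i : ℕ) : ℤ) * ord u (x i) := by
    intro u b
    show ord u (∏ i, x i ^ (b i : ℕ)) = _
    rw [ord_prod' u Finset.univ _ (fun i _ => pow_ne_zero _ (hx i).1)]
    refine Finset.sum_congr rfl fun i _ => ?_
    rw [ord_pow' u (hx i).1]
  have hordv : ∀ (i : Fin N) (b : Fin N → Fin (B + 1)),
      ord (v i) (z b) = ((b i : ℕ) : ℤ) * ord (v i) (x i) := by
    intro i b
    rw [hord, Finset.sum_eq_single i]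
    · intro j _ hji
      rw [(hx j).2.2.2.2 (v i) (hvT i) (fun h => hji (hv h).symm), mul_zero]
    · intro h; exact absurd (Finset.mem_univ i) h
  have hdvd : ∀ (u : HeightOneSpectrum (𝓞 K)) (b : Fin N → Fin (B + 1)), u ∉ T →
      (n : ℤ) ∣ ord u (z b) := by
    intro u b hu
    by_cases h : ∃ i, u = v i
    · obtain ⟨i, rfl⟩ := h
      rw [hordv]
      exact Dvd.dvd.mul_left (hx i).2.2.2.1 _
    · push Not at h
      rw [hord]
      refine Finset.dvd_sum fun i _ => ?_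
      rw [(hx i).2.2.2.2 u hu (h i), mul_zero]
      exact dvd_zero _
  -- the base of every colour
  let g : Fin M0 → (Fin N → Fin (B + 1)) := fun a =>
    if h : ∃ b, f (z b) = a then h.choose else fun _ => 0
  have hg : ∀ b, f (z (g (f (z b)))) = f (z b) := by
    intro b
    have h : ∃ b', f (z b') = f (z b) := ⟨b, rfl⟩
    have : g (f (z b)) = h.choose := dif_pos h
    rw [this]
    exact h.choose_spec
  have ht : ∀ b, ∃ t : K, t ≠ 0 ∧ z b = z (g (f (z b))) * t ^ n := fun b =>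
    hfc _ _ (hz b) (hz _) (fun u hu => dvd_sub (hdvd u b hu) (hdvd u _ hu)) (hg b).symm
  choose t ht0 htz using ht
  -- pigeonhole
  let κ : (Fin N → Fin (B + 1)) →
      (Fin M0 × (∀ u : Vf, Fin (Mu u.1))) × (InfinitePlace K → Fin (4 * n + 2)) := fun b =>
    ((f (z b), fun u => cu u.1 (t b)), fun w => sw w (t b))
  have hcard : Fintype.card
      ((Fin M0 × (∀ u : Vf, Fin (Mu u.1))) × (InfinitePlace K → Fin (4 * n + 2))) <
      Fintype.card (Fin N → Fin (B + 1)) := by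
    have hn1 : (1 : ℝ) ≤ n := by exact_mod_cast hn
    rw [← Nat.cast_lt (α := ℝ)]
    rw [Fintype.card_prod, Fintype.card_prod, Fintype.card_fin, Fintype.card_pi, Fintype.card_fun,
      Fintype.card_fun]
    simp only [Fintype.card_fin]
    push_cast
    refine lt_of_le_of_lt ?_ hbig
    have h1 : (M0 : ℝ) ≤ C0 * (n : ℝ) ^ (T.card + C0) := by exact_mod_cast hM0
    have h2 : (∏ u : Vf, (Mu u.1 : ℝ)) ≤ Real.exp ((dg K + 1) * LN Vf) := by
      calc (∏ u : Vf, (Mu u.1 : ℝ)) ≤ ∏ u : Vf, Real.exp ((dg K + 1) * ln u.1) := by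
            refine Finset.prod_le_prod (fun u _ => Nat.cast_nonneg _) fun u _ => ?_
            have := hMu u.1
            push_cast at this
            exact this
        _ = Real.exp ((dg K + 1) * LN Vf) := by
            rw [← Real.exp_sum, ← Finset.mul_sum]
            congr 2
            exact Finset.sum_coe_sort Vf (fun u => ln u)
    have h3 : (4 * (n : ℝ) + 2) ^ Fintype.card (InfinitePlace K) ≤ 6 ^ d * (n : ℝ) ^ d := by
      rw [← mul_pow]
      calc (4 * (n : ℝ) + 2) ^ Fintype.card (InfinitePlace K)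
          ≤ (6 * (n : ℝ)) ^ Fintype.card (InfinitePlace K) :=
            pow_le_pow_left₀ (by positivity) (by linarith) _
        _ ≤ (6 * (n : ℝ)) ^ d := pow_le_pow_right₀ (by linarith) (relTrick3_card K)
    have hC1 : ((C0 * 6 ^ d : ℕ) : ℝ) ≤ ((C0 * 6 ^ d + C0 + d : ℕ) : ℝ) := by
      exact_mod_cast (by omega : C0 * 6 ^ d ≤ C0 * 6 ^ d + C0 + d)
    have hC2 : T.card + C0 + d ≤ T.card + (C0 * 6 ^ d + C0 + d) := by
      have : 0 ≤ C0 * 6 ^ d := Nat.zero_le _
      omega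
    calc (M0 : ℝ) * (∏ u : Vf, (Mu u.1 : ℝ)) * (4 * (n : ℝ) + 2) ^ Fintype.card (InfinitePlace K)
        ≤ (C0 * (n : ℝ) ^ (T.card + C0)) * Real.exp ((dg K + 1) * LN Vf) *
            (6 ^ d * (n : ℝ) ^ d) := by
          refine mul_le_mul (mul_le_mul h1 h2 ?_ (by positivity)) h3 (by positivity)
            (by positivity)
          exact Finset.prod_nonneg fun u _ => Nat.cast_nonneg _
      _ = ((C0 * 6 ^ d : ℕ) : ℝ) * (n : ℝ) ^ (T.card + C0 + d) *
            Real.exp ((dg K + 1) * LN Vf) := by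
          push_cast
          rw [pow_add (n : ℝ) (T.card + C0) d]
          ring
      _ ≤ ((C0 * 6 ^ d + C0 + d : ℕ) : ℝ) * (n : ℝ) ^ (T.card + (C0 * 6 ^ d + C0 + d)) *
            Real.exp ((dg K + 1) * LN Vf) := by
          refine mul_le_mul_of_nonneg_right ?_ (Real.exp_pos _).le
          exact mul_le_mul hC1 (pow_le_pow_right₀ hn1 hC2) (by positivity) (Nat.cast_nonneg _)
  obtain ⟨b, b', hbb, hκ⟩ := Fintype.exists_ne_map_eq_of_card_lt κ hcard
  have hκ1 : f (z b) = f (z b') := congrArg (fun q => q.1.1) hκ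
  have hκ2 : ∀ u (hu : u ∈ Vf), cu u (t b) = cu u (t b') := fun u hu =>
    congrFun (congrArg (fun q => q.1.2) hκ) ⟨u, hu⟩
  have hκ3 : ∀ w, sw w (t b) = sw w (t b') := fun w => congrFun (congrArg Prod.snd hκ) w
  -- the quotient
  have hzt : z b = z b' * (t b / t b') ^ n := by
    have h1 := htz b
    have h2 := htz b'
    rw [← hκ1] at h2
    rw [div_pow, mul_div_assoc', eq_div_iff (pow_ne_zero _ (ht0 b'))]
    calc z b * t b' ^ n = (z (g (f (z b))) * t b ^ n) * t b' ^ n := by rw [← h1]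
      _ = (z (g (f (z b))) * t b' ^ n) * t b ^ n := by ring
      _ = z b' * t b ^ n := by rw [← h2]
  have hmk : ∀ u ∈ Vf, ∀ b, FinitePlace.mk u (t b) = 1 := by
    intro u hu b
    have h1 : ∀ b, FinitePlace.mk u (z b) = 1 := by
      intro b
      rw [← ord_eq_zero_iff u (hz b), hord]
      refine Finset.sum_eq_zero fun i _ => ?_
      rw [((hf u hu).2 i).2, mul_zero]
    have h2 := congrArg (FinitePlace.mk u) (htz b)
    rw [map_mul, map_pow, h1, h1, one_mul] at h2
    exact (pow_eq_one_iff_of_nonneg (apply_nonneg _ _) (by omega)).1 h2.symm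
  have htne : t b / t b' ≠ 0 := div_ne_zero (ht0 b) (ht0 b')
  have ht1 : t b / t b' ≠ 1 := by
    intro h
    rw [h, one_pow, mul_one] at hzt
    apply hbb
    funext i
    have h1 := hordv i b
    rw [hzt, hordv i b'] at h1
    have h2 : ((b' i : ℕ) : ℤ) = ((b i : ℕ) : ℤ) :=
      mul_right_cancel₀ (hx i).2.2.1 h1
    exact Fin.ext (by exact_mod_cast h2.symm)
  have key := rel_ineq n N B H x (fun i => (b i : ℕ)) (fun i => (b' i : ℕ)) (t b / t b') Vf m ℓ
    hn hN hB (fun i => Nat.lt_succ_iff.1 (b i).2) (fun i => Nat.lt_succ_iff.1 (b' i).2)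
    (fun i => ⟨(hx i).1, (hx i).2.1⟩) hf hw htne ht1 hzt ?_ (fun w => hsw w _ _ (ht0 b) (ht0 b') (hκ3 w))
  · exact absurd key (not_le.2 hlt)
  · intro u hu
    refine lte u n hn _ ?_
    have h1 := hcu u (t b) (t b') (hmk u hu b) (hmk u hu b') (hκ2 u hu)
    have h2 : t b / t b' - 1 = (t b - t b') / t b' := by
      rw [sub_div, div_self (ht0 b')]
    rw [h2, map_div₀, hmk u hu b', div_one]
    push_cast at h1
    exact h1

end Pool.Agent.FPL
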